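import Pool.Agent.BTR.G0
import Pool.Agent.BTP.G2
set_option autoImplicit false

namespace BTR
open BTP

/-! ## Basic facts on `β_k` and `g_k` -/

theorem g1a_q {k : ℕ} {u : ℝ} (h0 : 0 ≤ u) (h1 : u ≤ 1) : 0 ≤ (1 - u) ^ k ∧ (1 - u) ^ k ≤ 1 :=
  ⟨pow_nonneg (by linarith) k, pow_le_one₀ (by linarith) (by linarith)⟩

theorem g1a_sqrt {k : ℕ} {u : ℝ} (h0 : 0 ≤ u) (h1 : u ≤ 1) :
    1 - (1 - u) ^ k ≤ Real.sqrt ((1 - (1 - u) ^ k) ^ 2 + 4 * u * (1 - u) ^ k) := by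
  obtain ⟨ha, hb⟩ := g1a_q (k := k) h0 h1
  refine Real.le_sqrt_of_sq_le ?_
  have : 0 ≤ 4 * u * (1 - u) ^ k := by positivity
  linarith

theorem g1a_ge {k : ℕ} {u : ℝ} (h0 : 0 ≤ u) (h1 : u ≤ 1) : 1 - (1 - u) ^ k ≤ bk k u := by
  have h := g1a_sqrt (k := k) h0 h1
  unfold bk
  linarith

/-- [BTR-G1] PROOF. The discriminant is `a² + 4b`, `a = 1 - (1-u)^k ≥ 0`, `b = u (1-u)^k ≥ 0`; if `a = 0` and `b = 0` then (`u > 0`) `(1-u)^k = 0`, so `a = 1`, a contradiction. -/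
theorem bk_pos {k : ℕ} {u : ℝ} (h0 : 0 < u) (h1 : u ≤ 1) : 0 < bk k u := by
  obtain ⟨ha, hb⟩ := g1a_q (k := k) h0.le h1
  have hs : 0 < Real.sqrt ((1 - (1 - u) ^ k) ^ 2 + 4 * u * (1 - u) ^ k) := by
    refine Real.sqrt_pos.2 ?_
    rcases ha.eq_or_lt with h | h
    · rw [← h]
      norm_num
    · have : 0 < 4 * u * (1 - u) ^ k := by positivity
      have h2 := sq_nonneg (1 - (1 - u) ^ k)
      linarith
  unfold bk
  have : 0 ≤ 1 - (1 - u) ^ k := by linarith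
  linarith

/-- [BTR-G1] the quadratic equation (`Real.sq_sqrt`) -/
theorem bk_sq {k : ℕ} {u : ℝ} (h0 : 0 ≤ u) (h1 : u ≤ 1) :
    bk k u ^ 2 = (1 - (1 - u) ^ k) * bk k u + u * (1 - u) ^ k := by
  obtain ⟨ha, hb⟩ := g1a_q (k := k) h0 h1
  have hD : 0 ≤ (1 - (1 - u) ^ k) ^ 2 + 4 * u * (1 - u) ^ k := by positivity
  have hs := Real.sq_sqrt hD
  unfold bk
  nlinarith [hs]

/-- [BTR-G1] `β_k` is the positive root: if `x > 0` and `x² ≥ a x + b` then `β ≤ x`; if `x² ≤ a x + b` then `x ≤ β`.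
PROOF. `(x - β)(x + β - a) = x² - a x - b`, and `x + β - a > 0` as `β ≥ a` (the square root is at least `a`). -/
theorem bk_le {k : ℕ} {u x : ℝ} (h0 : 0 < u) (h1 : u ≤ 1) (hx : 0 < x)
    (h : (1 - (1 - u) ^ k) * x + u * (1 - u) ^ k ≤ x ^ 2) : bk k u ≤ x := by
  have hsq := bk_sq (k := k) h0.le h1
  have hge := g1a_ge (k := k) h0.le h1
  have hpos : 0 < x + bk k u - (1 - (1 - u) ^ k) := by linarith
  have hprod : 0 ≤ (x - bk k u) * (x + bk k u - (1 - (1 - u) ^ k)) := by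
    have : (x - bk k u) * (x + bk k u - (1 - (1 - u) ^ k)) =
        x ^ 2 - (1 - (1 - u) ^ k) * x - (bk k u ^ 2 - (1 - (1 - u) ^ k) * bk k u) := by ring
    rw [this, hsq]
    linarith
  have := nonneg_of_mul_nonneg_left hprod hpos
  linarith
theorem le_bk {k : ℕ} {u x : ℝ} (h0 : 0 < u) (h1 : u ≤ 1) (hx : 0 < x)
    (h : x ^ 2 ≤ (1 - (1 - u) ^ k) * x + u * (1 - u) ^ k) : x ≤ bk k u := by
  have hsq := bk_sq (k := k) h0.le h1
  have hge := g1a_ge (k := k) h0.le h1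
  have hpos : 0 < x + bk k u - (1 - (1 - u) ^ k) := by linarith
  have hprod : 0 ≤ (bk k u - x) * (x + bk k u - (1 - (1 - u) ^ k)) := by
    have : (bk k u - x) * (x + bk k u - (1 - (1 - u) ^ k)) =
        (bk k u ^ 2 - (1 - (1 - u) ^ k) * bk k u) - (x ^ 2 - (1 - (1 - u) ^ k) * x) := by ring
    rw [this, hsq]
    linarith
  have := nonneg_of_mul_nonneg_left hprod hpos
  linarith

/-- [BTR-G1] PROOF. `bk_le` with `x = 1`: `1 - (1-u)^k + u (1-u)^k ≤ 1`. -/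
theorem bk_le_one {k : ℕ} {u : ℝ} (h0 : 0 < u) (h1 : u ≤ 1) : bk k u ≤ 1 := by
  obtain ⟨ha, hb⟩ := g1a_q (k := k) h0.le h1
  refine bk_le h0 h1 one_pos ?_
  nlinarith [mul_nonneg ha (sub_nonneg.2 h1)]
/-- [BTR-G1] PROOF. Otherwise `β = 1` and `bk_sq` gives `(1-u)^k (1 - u) = 0`. -/
theorem bk_lt_one {k : ℕ} {u : ℝ} (h0 : 0 < u) (h1 : u < 1) : bk k u < 1 := by
  refine lt_of_le_of_ne (bk_le_one h0 h1.le) fun h => ?_
  have hsq := bk_sq (k := k) h0.le h1.le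
  rw [h] at hsq
  have h2 : 0 < (1 - u) ^ k := pow_pos (by linarith) k
  have h3 : 0 < (1 - u) ^ k * (1 - u) := mul_pos h2 (by linarith)
  nlinarith [hsq, h3]

theorem exp_neg_gk {k : ℕ} {z : ℝ} (hz : 0 < z) : Real.exp (-gk k z) = bk k (1 - Real.exp (-z)) := by
  rw [gk, neg_neg, Real.exp_log (bk_pos (g2_u_pos hz) (g2_u_lt z).le)]

theorem g1a_pow (k : ℕ) (z : ℝ) : (1 - (1 - Real.exp (-z))) ^ k = Real.exp (-(k * z)) := by
  rw [sub_sub_cancel, ← Real.exp_nat_mul]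
  congr 1
  ring

/-- [BTR-G1] the defining property: divide `bk_sq` by `β²`; `(e^{-z})^k = e^{-kz}`. -/
theorem gk_eq {k : ℕ} {z : ℝ} (hz : 0 < z) : (1 - Real.exp (-(k * z))) * Real.exp (gk k z) +
    Real.exp (-(k * z)) * (1 - Real.exp (-z)) * Real.exp (gk k z) ^ 2 = 1 := by
  have hu := g2_u_pos hz
  have hu1 := g2_u_lt z
  have hb := bk_pos (k := k) hu hu1.le
  have hsq := bk_sq (k := k) hu.le hu1.le
  rw [g1a_pow] at hsq
  have hE : Real.exp (gk k z) * bk k (1 - Real.exp (-z)) = 1 := by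
    rw [← exp_neg_gk hz, ← Real.exp_add, add_neg_cancel, Real.exp_zero]
  have h1 : ((1 - Real.exp (-(k * z))) * Real.exp (gk k z) +
      Real.exp (-(k * z)) * (1 - Real.exp (-z)) * Real.exp (gk k z) ^ 2) =
      ((1 - Real.exp (-(k * z))) * bk k (1 - Real.exp (-z)) +
        (1 - Real.exp (-z)) * Real.exp (-(k * z))) * Real.exp (gk k z) ^ 2 := by
    have h2 : (1 - Real.exp (-(k * z))) * Real.exp (gk k z) =
        (1 - Real.exp (-(k * z))) * Real.exp (gk k z) *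
          (Real.exp (gk k z) * bk k (1 - Real.exp (-z))) := by
      rw [hE, mul_one]
    rw [h2]
    ring
  rw [h1, ← hsq]
  have h3 : bk k (1 - Real.exp (-z)) ^ 2 * Real.exp (gk k z) ^ 2 =
      (Real.exp (gk k z) * bk k (1 - Real.exp (-z))) ^ 2 := by ring
  rw [h3, hE, one_pow]

/-- [BTR-G1] comparison for `w = e^g`: the left side of `gk_eq` is increasing in `w`.
PROOF. If `w < e^g` then `(1-V) w + V (1-v) w² ≤ (1-V) e^g + V(1-v) e^{2g}` with strict inequality (`V (1-v) > 0`), `= 1`. -/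
theorem gk_le_log {k : ℕ} {z w : ℝ} (hz : 0 < z) (hw : 0 < w)
    (h : 1 ≤ (1 - Real.exp (-(k * z))) * w + Real.exp (-(k * z)) * (1 - Real.exp (-z)) * w ^ 2) :
    gk k z ≤ Real.log w := by
  by_contra hcon
  rw [not_le] at hcon
  have hlt : w < Real.exp (gk k z) := by
    rw [← Real.exp_log hw]
    exact Real.exp_lt_exp.2 hcon
  have heq := gk_eq (k := k) hz
  have hV : Real.exp (-(k * z)) ≤ 1 := by
    refine Real.exp_le_one_iff.2 ?_
    have : 0 ≤ (k : ℝ) * z := by positivity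
    linarith
  have hVp := Real.exp_pos (-(k * z))
  have hu := g2_u_pos hz
  have h1 : (1 - Real.exp (-(k * z))) * w ≤ (1 - Real.exp (-(k * z))) * Real.exp (gk k z) :=
    mul_le_mul_of_nonneg_left hlt.le (by linarith)
  have h2 : w ^ 2 < Real.exp (gk k z) ^ 2 := by
    exact pow_lt_pow_left₀ hlt hw.le two_ne_zero
  have h3 : Real.exp (-(k * z)) * (1 - Real.exp (-z)) * w ^ 2 <
      Real.exp (-(k * z)) * (1 - Real.exp (-z)) * Real.exp (gk k z) ^ 2 :=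
    mul_lt_mul_of_pos_left h2 (mul_pos hVp hu)
  linarith

/-- [BTR-G1] `β_1 = β` -/
theorem bk_one (u : ℝ) : bk 1 u = bet u := by
  unfold bk bet
  have h : (1 - (1 - u) ^ 1) ^ 2 + 4 * u * (1 - u) ^ 1 = u * (4 - 3 * u) := by ring
  rw [h]
  ring
theorem gk_one (z : ℝ) : gk 1 z = gg z := by
  unfold gk gg
  rw [bk_one]

theorem gk_nonneg {k : ℕ} {z : ℝ} (hz : 0 < z) : 0 ≤ gk k z := by
  have h := bk_le_one (k := k) (g2_u_pos hz) (g2_u_lt z).le
  have h2 := Real.log_nonpos (bk_pos (k := k) (g2_u_pos hz) (g2_u_lt z).le).le h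
  unfold gk
  linarith
theorem gk_pos {k : ℕ} {z : ℝ} (hz : 0 < z) : 0 < gk k z := by
  have h2 := Real.log_neg (bk_pos (k := k) (g2_u_pos hz) (g2_u_lt z).le)
    (bk_lt_one (g2_u_pos hz) (g2_u_lt z))
  unfold gk
  linarith

end BTR
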