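import Pool.Agent.BTR.G0
import Pool.Agent.BTP.G2
import Pool.Agent.BTR.G1a
set_option autoImplicit false

namespace BTR
open BTP

/-! ## Basic facts on `β_k` and `g_k` -/

/-- `(1 - e^{-z}) e^{g_k(z)} ≤ 1` -/
theorem g1b_le {k : ℕ} {z : ℝ} (hz : 0 < z) : (1 - Real.exp (-z)) * Real.exp (gk k z) ≤ 1 := by
  have h1 := gk_eq (k := k) hz
  have h2 : 1 ≤ Real.exp (gk k z) := Real.one_le_exp (gk_nonneg hz)
  have h3 : 0 < Real.exp (-(k * z)) := Real.exp_pos _
  by_contra hcon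
  push Not at hcon
  have h4 : Real.exp (-(k * z)) * Real.exp (gk k z) * 1 <
      Real.exp (-(k * z)) * Real.exp (gk k z) * ((1 - Real.exp (-z)) * Real.exp (gk k z)) :=
    mul_lt_mul_of_pos_left hcon (by positivity)
  nlinarith

/-- the left side of `gk_eq` is decreasing in `V` -/
theorem g1b_cmp {V V' v v' w : ℝ} (hV : V' ≤ V) (hV0 : 0 ≤ V') (hv : v' ≤ v) (hw : 0 ≤ w)
    (h1 : (1 - v) * w ≤ 1) (h : (1 - V) * w + V * (1 - v) * w ^ 2 = 1) :
    1 ≤ (1 - V') * w + V' * (1 - v') * w ^ 2 := by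
  have h2 : 0 ≤ (V - V') * w * (1 - (1 - v) * w) :=
    mul_nonneg (mul_nonneg (sub_nonneg.2 hV) hw) (sub_nonneg.2 h1)
  have h3 : 0 ≤ V' * w ^ 2 * (v - v') := mul_nonneg (mul_nonneg hV0 (sq_nonneg w)) (sub_nonneg.2 hv)
  nlinarith

theorem g1b_bern {x c : ℝ} (hc : 1 ≤ c) : 1 - Real.exp (-(c * x)) ≤ c * (1 - Real.exp (-x)) := by
  have h1 := one_add_mul_self_le_rpow_one_add (s := Real.exp (-x) - 1)
    (by have := Real.exp_pos (-x); linarith) hc
  have h2 : (1 + (Real.exp (-x) - 1)) ^ c = Real.exp (-(c * x)) := by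
    rw [add_sub_cancel, ← Real.exp_mul]
    congr 1
    ring
  rw [h2] at h1
  linarith

/-- [BTR-G1] the logarithmic bound.
PROOF. `gk_le_log` at `z` with `w = c w'`, `c = z'/z ≥ 1`, `w' = e^{g(z')}`: `(1 - e^{-kz}) c ≥ 1 - e^{-kz'}` and `(1 - e^{-z}) c ≥ 1 - e^{-z'}` (`(1 - e^{-x})/x` is decreasing: `1 - e^{-cx} ≤ c (1 - e^{-x})` for `c ≥ 1`, convexity of `exp` or Bernoulli), `e^{-kz} ≥ e^{-kz'}`, `c² ≥ c`; so the left side is at least the one of `gk_eq` at `z'`. -/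
theorem gk_log {k : ℕ} {z z' : ℝ} (hz : 0 < z) (h : z ≤ z') : gk k z - gk k z' ≤ Real.log (z' / z) := by
  have hz' : 0 < z' := hz.trans_le h
  set c := z' / z with hc
  have hc1 : 1 ≤ c := by rw [hc, le_div_iff₀ hz, one_mul]; exact h
  have hcz : z' = c * z := by rw [hc]; field_simp
  set w' := Real.exp (gk k z') with hw'
  have hw0 : 0 < w' := Real.exp_pos _
  have key : gk k z ≤ Real.log (c * w') := by
    refine gk_le_log hz (by positivity) ?_
    have h1 := gk_eq (k := k) hz'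
    rw [← hw'] at h1
    have h2 : 1 - Real.exp (-(k * z')) ≤ c * (1 - Real.exp (-(k * z))) := by
      have h3 := g1b_bern (x := k * z) hc1
      have h4 : c * (k * z) = k * z' := by rw [hcz]; ring
      rw [h4] at h3
      exact h3
    have h3 : 1 - Real.exp (-z') ≤ c * (1 - Real.exp (-z)) := by
      rw [hcz]
      exact g1b_bern hc1
    have h4 : Real.exp (-(k * z')) ≤ Real.exp (-(k * z)) := by
      rw [Real.exp_le_exp, neg_le_neg_iff]
      exact mul_le_mul_of_nonneg_left h (Nat.cast_nonneg k)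
    have h5 : 0 < Real.exp (-(k * z')) := Real.exp_pos _
    have h6 : 0 < 1 - Real.exp (-z') := g2_u_pos hz'
    have h7 : (1 - Real.exp (-(k * z'))) * w' ≤ (1 - Real.exp (-(k * z))) * (c * w') := by
      have := mul_le_mul_of_nonneg_right h2 hw0.le
      linarith
    have h8 : Real.exp (-(k * z')) * (1 - Real.exp (-z')) * w' ^ 2 ≤
        Real.exp (-(k * z)) * (1 - Real.exp (-z)) * (c * w') ^ 2 := by
      have h9 : Real.exp (-(k * z')) * (1 - Real.exp (-z')) ≤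
          Real.exp (-(k * z)) * (c * (1 - Real.exp (-z))) :=
        mul_le_mul h4 h3 h6.le (Real.exp_pos _).le
      have h10 : 0 ≤ Real.exp (-(k * z)) * (c * (1 - Real.exp (-z))) :=
        (mul_nonneg h5.le h6.le).trans h9
      have h11 : Real.exp (-(k * z)) * (c * (1 - Real.exp (-z))) * 1 ≤
          Real.exp (-(k * z)) * (c * (1 - Real.exp (-z))) * c :=
        mul_le_mul_of_nonneg_left hc1 h10
      calc Real.exp (-(k * z')) * (1 - Real.exp (-z')) * w' ^ 2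
          ≤ Real.exp (-(k * z)) * (c * (1 - Real.exp (-z))) * c * w' ^ 2 :=
            mul_le_mul_of_nonneg_right (by linarith) (sq_nonneg w')
        _ = Real.exp (-(k * z)) * (1 - Real.exp (-z)) * (c * w') ^ 2 := by ring
    linarith
  rw [Real.log_mul (by linarith) hw0.ne', hw', Real.log_exp] at key
  linarith

/-- [BTR-G1] PROOF. `gk_le_log` at `z'` with `w = e^{g(z)} ≥ 1`: for `V = e^{-kz}`, `v = e^{-z}` and `V' ≤ V`, `v' ≤ v`: `(1-V')w + V'(1-v')w² ≥ (1-V')w + V'(1-v)w²`, which is affine in `V'` with slope `w((1-v)w - 1) ≤ 0` (from `gk_eq`: `(1-v) w ≤ 1`, since otherwise `(1-V)w + V(1-v)w² > (1-V) w + V w ≥ 1`), so it is at least the value `1` at `V`. -/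
theorem gk_anti {k : ℕ} {z z' : ℝ} (hz : 0 < z) (h : z ≤ z') : gk k z' ≤ gk k z := by
  have hz' : 0 < z' := hz.trans_le h
  have h1 := gk_le_log (k := k) hz' (Real.exp_pos (gk k z)) (g1b_cmp
    (by
      rw [Real.exp_le_exp, neg_le_neg_iff]
      exact mul_le_mul_of_nonneg_left h (Nat.cast_nonneg k))
    (Real.exp_pos _).le
    (by
      rw [Real.exp_le_exp, neg_le_neg_iff]
      exact h)
    (Real.exp_pos _).le (g1b_le hz) (gk_eq hz))
  rwa [Real.log_exp] at h1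

/-- [BTR-G1] continuity: `bk k` is continuous -/
theorem gk_cont (k : ℕ) : ContinuousOn (gk k) (Set.Ioi 0) := by
  have h1 : Continuous (bk k) := by
    unfold bk
    fun_prop
  have h2 : ContinuousOn (fun z : ℝ => bk k (1 - Real.exp (-z))) (Set.Ioi 0) :=
    (h1.comp (by fun_prop)).continuousOn
  have h3 : ContinuousOn (fun z : ℝ => Real.log (bk k (1 - Real.exp (-z)))) (Set.Ioi 0) :=
    h2.log fun z hz => (bk_pos (g2_u_pos hz) (g2_u_lt z).le).ne'
  exact h3.neg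

/-- [BTR-G1] PROOF. `gk_le_log` with `w = e^{gg z}`, `k ≥ 1`, `V = e^{-kz} ≤ v = e^{-z}`: `(1-V)w + V(1-v)w²` is decreasing in `V` (as `(1-v) w ≤ 1`, see `gk_anti`) and equal to `1` for `V = v` (`gk_eq` for `k = 1`, `gk_one`). -/
theorem gk_le_gg {k : ℕ} (hk : 1 ≤ k) {z : ℝ} (hz : 0 < z) : gk k z ≤ gg z := by
  have h0 : gk 1 z = gg z := gk_one z
  have h1 := gk_eq (k := 1) hz
  have h2 := g1b_le (k := 1) hz
  rw [h0] at h1 h2
  have h3 := gk_le_log (k := k) hz (Real.exp_pos (gg z)) (g1b_cmp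
    (by
      rw [Real.exp_le_exp, neg_le_neg_iff]
      exact mul_le_mul_of_nonneg_right (by exact_mod_cast hk) hz.le)
    (Real.exp_pos _).le le_rfl (Real.exp_pos _).le h2 h1)
  rwa [Real.log_exp] at h3

/-- [BTR-G1] (`gk_le_gg`, `BTP.gg_up`, `BTP.gg_tail`) -/
theorem gk_up {k : ℕ} (hk : 1 ≤ k) {z : ℝ} (hz : 0 < z) : gk k z ≤ Real.log ((1 + z) / z) / 2 := by
  exact (gk_le_gg hk hz).trans (gg_up hz)
theorem exp_gk_sq {k : ℕ} (hk : 1 ≤ k) {z : ℝ} (hz : 0 < z) : Real.exp (gk k z) ^ 2 ≤ (1 + z) / z := by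
  have h1 := gk_up hk hz
  have h2 : 0 < (1 + z) / z := by positivity
  rw [← Real.exp_nat_mul]
  calc Real.exp ((2 : ℕ) * gk k z) ≤ Real.exp (Real.log ((1 + z) / z)) := by
        rw [Real.exp_le_exp]
        push_cast
        linarith
    _ = (1 + z) / z := Real.exp_log h2
theorem gk_tail {k : ℕ} (hk : 1 ≤ k) {z : ℝ} (hz : 1 ≤ z) : gk k z ≤ 2 * Real.exp (-z) := by
  exact (gk_le_gg hk (by linarith)).trans (gg_tail hz)

end BTR
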