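import Pool.Agent.BTR.D1
import Pool.Agent.BTR.G1
import Pool.Agent.BTS.A1

set_option autoImplicit false

open scoped Classical
open Finset

namespace BTR
open BTP BTS

/-! ## The value of one direction (`bv` is defined in BTS/D1.lean; `bv_ge`, `bv_nonneg`, `bv_param`, `bv_reveal1`, `bv_reveal2` in BTS/A1.lean) -/

theorem a1_bern {t : ℝ} (h0 : 0 ≤ t) (n : ℕ) : 1 - t ^ n ≤ (n : ℝ) * (1 - t) := by
  have h := one_add_mul_le_pow (a := t - 1) (by linarith) n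
  have e : (1 + (t - 1)) ^ n = t ^ n := by ring
  rw [e] at h
  linarith

/-- the reduced value `R = (1 - v) x² + v θ`: `(1 - V) x + V R ≤ 1`, `R ≤ 1 ≤ x` -/
theorem a1_key {lt : ℕ} {z th : ℝ} (hz : 0 < z) (ht0 : 0 ≤ th) (ht : th ≤ 1 / 2)
    (hx : 0 ≤ gk (lt + 1) z - 2 * th * Real.exp (-(((lt : ℝ) + 2) * z))) :
    1 ≤ Real.exp (gk (lt + 1) z - 2 * th * Real.exp (-(((lt : ℝ) + 2) * z))) ∧
    (1 - Real.exp (-(((lt : ℝ) + 1) * z))) *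
        Real.exp (gk (lt + 1) z - 2 * th * Real.exp (-(((lt : ℝ) + 2) * z))) +
      Real.exp (-(((lt : ℝ) + 1) * z)) * ((1 - Real.exp (-z)) *
        Real.exp (gk (lt + 1) z - 2 * th * Real.exp (-(((lt : ℝ) + 2) * z))) ^ 2 +
        Real.exp (-z) * th) ≤ 1 ∧
    (1 - Real.exp (-z)) * Real.exp (gk (lt + 1) z - 2 * th * Real.exp (-(((lt : ℝ) + 2) * z))) ^ 2 +
        Real.exp (-z) * th ≤ 1 := by
  have hg := gk_eq (k := lt + 1) hz
  push_cast at hg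
  have he0 := Real.exp_pos (-z)
  have hV0 := Real.exp_pos (-(((lt : ℝ) + 1) * z))
  have hl0 : (0 : ℝ) ≤ lt := Nat.cast_nonneg lt
  have he2 : Real.exp (-(((lt : ℝ) + 2) * z)) = Real.exp (-(((lt : ℝ) + 1) * z)) * Real.exp (-z) := by
    rw [← Real.exp_add]
    congr 1
    ring
  have hx1 : 1 ≤ Real.exp (gk (lt + 1) z - 2 * th * Real.exp (-(((lt : ℝ) + 2) * z))) :=
    Real.one_le_exp hx
  rw [he2] at hx hx1 ⊢
  have he1 : Real.exp (-z) ≤ 1 := Real.exp_le_one_iff.2 (by linarith)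
  have hV1 : Real.exp (-(((lt : ℝ) + 1) * z)) ≤ 1 := by
    apply Real.exp_le_one_iff.2
    have : 0 ≤ ((lt : ℝ) + 1) * z := by positivity
    linarith
  set v := Real.exp (-z) with hv
  set V := Real.exp (-(((lt : ℝ) + 1) * z)) with hV
  set c := 2 * th * (V * v) with hc
  have hc0 : 0 ≤ c := by positivity
  have hVv : V * v ≤ 1 := by nlinarith
  have hc1 : c ≤ 1 := by
    have h0 : 0 ≤ V * v := by positivity
    rw [hc]
    nlinarith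
  have hxX : Real.exp (gk (lt + 1) z - c) = Real.exp (-c) * Real.exp (gk (lt + 1) z) := by
    rw [← Real.exp_add]
    congr 1
    ring
  have hX0 := Real.exp_pos (gk (lt + 1) z)
  set X := Real.exp (gk (lt + 1) z)
  have hk0 := Real.exp_pos (-c)
  have hk1 : Real.exp (-c) ≤ 1 - c / 2 := by
    have h1 : 1 + c ≤ Real.exp c := by
      have := Real.add_one_le_exp c
      linarith
    have h2 : Real.exp (-c) * Real.exp c = 1 := by
      rw [← Real.exp_add]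
      simp
    by_contra hcon
    push Not at hcon
    have h3 : (1 - c / 2) * (1 + c) < Real.exp (-c) * Real.exp c := by
      have h4 : (1 - c / 2) * (1 + c) < Real.exp (-c) * (1 + c) :=
        mul_lt_mul_of_pos_right hcon (by linarith)
      have h5 : Real.exp (-c) * (1 + c) ≤ Real.exp (-c) * Real.exp c :=
        mul_le_mul_of_nonneg_left h1 hk0.le
      linarith
    nlinarith
  set κ := Real.exp (-c)
  set x := Real.exp (gk (lt + 1) z - c)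
  have hκ1 : κ ≤ 1 := by linarith
  have h2 : (1 - V) * x + V * ((1 - v) * x ^ 2 + v * th) ≤ 1 := by
    have h3 : V * (1 - v) * (κ ^ 2 * X ^ 2) ≤ V * (1 - v) * (κ * X ^ 2) := by
      refine mul_le_mul_of_nonneg_left ?_ (mul_nonneg hV0.le (by linarith))
      refine mul_le_mul_of_nonneg_right ?_ (by positivity)
      nlinarith
    have h4 : κ * ((1 - V) * X + V * (1 - v) * X ^ 2) = κ := by rw [hg, mul_one]
    have h5 : (1 - V) * x + V * ((1 - v) * x ^ 2 + v * th) =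
        κ * ((1 - V) * X) + V * (1 - v) * (κ ^ 2 * X ^ 2) + c / 2 := by
      rw [hxX, hc]
      ring
    rw [h5]
    nlinarith
  refine ⟨hx1, h2, ?_⟩
  have h6 : (1 - V) * 1 ≤ (1 - V) * x := mul_le_mul_of_nonneg_left hx1 (by linarith)
  by_contra hcon
  push Not at hcon
  have h7 : V * 1 < V * ((1 - v) * x ^ 2 + v * th) := mul_lt_mul_of_pos_left hcon hV0
  linarith

/-- [BTR-A1] the value of a direction is at most `1`. (cf. BTS/A1a.lean)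
PROOF. Let `v = e^{-z}`, `V = e^{-(lt+1)z}`, `x = e^{g-c}`, `c = 2 θ e^{-(lt+2)z} ∈ [0, 1]`, `x ≥ 1` by `hx`. `R(m₂) = (1 - e^{-qm₂}) x² + e^{-qm₂} θ ≤ R := (1-v) x² + v θ` (`e^{-qm₂} ≥ v`, `θ ≤ 1 ≤ x²`).
`(1-V) x + V R = (1-V) x + V(1-v) x² + V v θ ≤ e^{-c} ((1-V) e^g + V(1-v) e^{2g}) + e^{-(lt+2)z} θ = e^{-c} + c/2 ≤ 1` (`gk_eq` for `k = lt + 1`; `x = e^{-c} e^g`, `x² ≤ e^{-c} e^{2g}`; `e^{-c} ≤ 1 - c + c²/2`). So `R ≤ (1 - (1-V) x)/V ≤ 1 ≤ x` and, with `α = e^{-q m₁} ≥ V`: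
`bv = x - α (x - R(m₂)) ≤ x - α (x - R) ≤ x - V (x - R) = (1-V) x + V R ≤ 1`. -/
theorem bvk_le_one {lt : ℕ} {q z th m1 m2 : ℝ} (hq : 0 ≤ q) (hz : 0 < z) (ht0 : 0 ≤ th) (ht : th ≤ 1 / 2)
    (hx : 0 ≤ gk (lt + 1) z - 2 * th * Real.exp (-(((lt : ℝ) + 2) * z))) (h1 : 0 ≤ m1)
    (h1' : q * m1 ≤ ((lt : ℝ) + 1) * z) (h2 : 0 ≤ m2) (h2' : q * m2 ≤ z) :
    bv q (Real.exp (gk (lt + 1) z - 2 * th * Real.exp (-(((lt : ℝ) + 2) * z)))) th m1 m2 ≤ 1 := by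
  obtain ⟨k1, k2, k3⟩ := a1_key hz ht0 ht hx
  unfold bv
  set x := Real.exp (gk (lt + 1) z - 2 * th * Real.exp (-(((lt : ℝ) + 2) * z)))
  have hR := a1a_R (z := z) (q := q) (n := m2) k1 ht h2'
  set R2 := (1 - Real.exp (-(q * m2))) * x ^ 2 + Real.exp (-(q * m2)) * th
  set R := (1 - Real.exp (-z)) * x ^ 2 + Real.exp (-z) * th
  have ha : Real.exp (-(((lt : ℝ) + 1) * z)) ≤ Real.exp (-(q * m1)) := Real.exp_le_exp.2 (by linarith)
  have ha0 := Real.exp_pos (-(q * m1))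
  set α := Real.exp (-(q * m1))
  set e := Real.exp (-(((lt : ℝ) + 1) * z))
  have h3 : α * R2 ≤ α * R := mul_le_mul_of_nonneg_left hR ha0.le
  have h4 : 0 ≤ (α - e) * (x - R) := mul_nonneg (by linarith) (by linarith)
  nlinarith

/-- [BTR-A1] monotone in the counts (as long as `q m₂ ≤ z`).
PROOF. In `m₂`: `x² ≥ θ`. In `m₁`: `bv = x - e^{-qm₁}(x - R(m₂))` and `R(m₂) ≤ x` as shown in `bvk_le_one` (`R(m₂) ≤ R ≤ 1 ≤ x`). -/
theorem bvk_mono {lt : ℕ} {q z th m1 m2 m1' m2' : ℝ} (hq : 0 ≤ q) (hz : 0 < z) (ht0 : 0 ≤ th) (ht : th ≤ 1 / 2)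
    (hx : 0 ≤ gk (lt + 1) z - 2 * th * Real.exp (-(((lt : ℝ) + 2) * z))) (h0 : 0 ≤ m1) (h1 : m1 ≤ m1')
    (h0' : 0 ≤ m2) (h2 : m2 ≤ m2') (hm : q * m2' ≤ z) :
    bv q (Real.exp (gk (lt + 1) z - 2 * th * Real.exp (-(((lt : ℝ) + 2) * z)))) th m1 m2 ≤
      bv q (Real.exp (gk (lt + 1) z - 2 * th * Real.exp (-(((lt : ℝ) + 2) * z)))) th m1' m2' := by
  obtain ⟨k1, k2, k3⟩ := a1_key hz ht0 ht hx
  unfold bv
  set x := Real.exp (gk (lt + 1) z - 2 * th * Real.exp (-(((lt : ℝ) + 2) * z)))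
  have hR2 := a1a_R (z := q * m2') (q := q) (n := m2) k1 ht (mul_le_mul_of_nonneg_left h2 hq)
  have hR := a1a_R (z := z) (q := q) (n := m2') k1 ht hm
  set R2 := (1 - Real.exp (-(q * m2))) * x ^ 2 + Real.exp (-(q * m2)) * th
  set R2' := (1 - Real.exp (-(q * m2'))) * x ^ 2 + Real.exp (-(q * m2')) * th
  have ha : Real.exp (-(q * m1')) ≤ Real.exp (-(q * m1)) :=
    Real.exp_le_exp.2 (by linarith [mul_le_mul_of_nonneg_left h1 hq])
  have ha0 := Real.exp_pos (-(q * m1))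
  set α := Real.exp (-(q * m1))
  set α' := Real.exp (-(q * m1'))
  have h3 : α * R2 ≤ α * R2' := mul_le_mul_of_nonneg_left hR2 ha0.le
  have h4 : 0 ≤ (α - α') * (x - R2') := mul_nonneg (by linarith) (by linarith)
  nlinarith

/-- [BTR-A1] new sites (cf. BTS/A1b.lean).
PROOF. Let `k = lt+1`, `α = e^{-qm₁}`, `β = e^{-qm₂}`, `τ = e^{-qΔ}`. `bv(m₁+kΔ, m₂+Δ) - bv(m₁, m₂) = α(1-τ^k)x + α x² [τ^k(1-βτ) - (1-β)] + αβθ(τ^{k+1}-1) ≤ (1-τ^k) x + (1-τ^{k+1}) x² ≤ (2k+1) (1-τ) x² ≤ 3k (1-τ) x²`, as `τ^k - βτ^{k+1} - 1 + β ≤ β(1-τ^{k+1})`, `1 - τ^n ≤ n (1-τ)`; and `1 - τ ≤ qΔ`. Finally `θ ≤ bv(m₁,m₂)` (`bv_ge`). -/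
theorem bvk_shift {lt : ℕ} {q x th m1 m2 D : ℝ} (hq : 0 ≤ q) (hx : 1 ≤ x) (ht0 : 0 < th) (ht : th ≤ 1)
    (h1 : 0 ≤ m1) (h2 : 0 ≤ m2) (hD : 0 ≤ D) :
    bv q x th (m1 + ((lt : ℝ) + 1) * D) (m2 + D) ≤
      bv q x th m1 m2 * (1 + 3 * ((lt : ℝ) + 1) * (q * D) * x ^ 2 / th) := by
  have hbv := bv_ge (th := th) hq hx ht h1 h2
  set α : ℝ := Real.exp (-(q * m1)) with hα
  set β : ℝ := Real.exp (-(q * m2)) with hβ
  set τ : ℝ := Real.exp (-(q * D)) with hτ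
  have hα0 : 0 < α := Real.exp_pos _
  have hβ0 : 0 < β := Real.exp_pos _
  have hτ0 : 0 < τ := Real.exp_pos _
  have hα1 : α ≤ 1 := Real.exp_le_one_iff.2 (by nlinarith [mul_nonneg hq h1])
  have hβ1 : β ≤ 1 := Real.exp_le_one_iff.2 (by nlinarith [mul_nonneg hq h2])
  have hτ1 : τ ≤ 1 := Real.exp_le_one_iff.2 (by nlinarith [mul_nonneg hq hD])
  have hτ2 : 1 - τ ≤ q * D := by
    have := Real.add_one_le_exp (-(q * D))
    rw [hτ]
    linarith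
  have e1 : Real.exp (-(q * (m1 + ((lt : ℝ) + 1) * D))) = α * τ ^ (lt + 1) := by
    rw [hα, hτ, ← Real.exp_nat_mul, ← Real.exp_add]
    congr 1
    push_cast
    ring
  have e2 : Real.exp (-(q * (m2 + D))) = β * τ := by
    rw [hβ, hτ, ← Real.exp_add]
    congr 1
    ring
  have hx2 : x ≤ x ^ 2 := by nlinarith
  have hx20 : 0 ≤ x ^ 2 := sq_nonneg x
  have hl0 : (0 : ℝ) ≤ lt := Nat.cast_nonneg lt
  have hmain : bv q x th (m1 + ((lt : ℝ) + 1) * D) (m2 + D) - bv q x th m1 m2 ≤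
      3 * ((lt : ℝ) + 1) * (q * D) * x ^ 2 := by
    unfold bv
    rw [e1, e2, ← hα, ← hβ]
    have e3 : (1 - α * τ ^ (lt + 1)) * x + α * τ ^ (lt + 1) * ((1 - β * τ) * x ^ 2 + β * τ * th) -
        ((1 - α) * x + α * ((1 - β) * x ^ 2 + β * th)) =
        α * ((1 - τ ^ (lt + 1)) * x + x ^ 2 * (-(1 - τ ^ (lt + 1)) + β * (1 - τ ^ (lt + 2)))) -
          α * β * th * (1 - τ ^ (lt + 2)) := by ring
    rw [e3]
    have h3 : 0 ≤ 1 - τ := by linarith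
    have h4 : 0 ≤ 1 - τ ^ (lt + 2) := by linarith [pow_le_one₀ (n := lt + 2) hτ0.le hτ1]
    have h4' : 0 ≤ 1 - τ ^ (lt + 1) := by linarith [pow_le_one₀ (n := lt + 1) hτ0.le hτ1]
    have h5 : 1 - τ ^ (lt + 2) ≤ ((lt : ℝ) + 2) * (1 - τ) := by
      have h := a1_bern hτ0.le (lt + 2)
      push_cast at h
      exact h
    have h5' : 1 - τ ^ (lt + 1) ≤ ((lt : ℝ) + 1) * (1 - τ) := by
      have h := a1_bern hτ0.le (lt + 1)
      push_cast at h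
      exact h
    have h6 : 0 ≤ α * β * th * (1 - τ ^ (lt + 2)) := by positivity
    have h7 : β * (1 - τ ^ (lt + 2)) ≤ 1 - τ ^ (lt + 2) := by nlinarith
    have h8 : (1 - τ ^ (lt + 1)) * x + x ^ 2 * (-(1 - τ ^ (lt + 1)) + β * (1 - τ ^ (lt + 2))) ≤
        3 * ((lt : ℝ) + 1) * (1 - τ) * x ^ 2 := by
      have h9 : x ^ 2 * (-(1 - τ ^ (lt + 1)) + β * (1 - τ ^ (lt + 2))) ≤
          x ^ 2 * (((lt : ℝ) + 2) * (1 - τ)) :=
        mul_le_mul_of_nonneg_left (by linarith) hx20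
      have h10 : (1 - τ ^ (lt + 1)) * x ≤ (((lt : ℝ) + 1) * (1 - τ)) * x ^ 2 :=
        mul_le_mul h5' hx2 (by linarith) (by positivity)
      have h11 : 0 ≤ (lt : ℝ) * ((1 - τ) * x ^ 2) := by positivity
      nlinarith
    have h11 : α * ((1 - τ ^ (lt + 1)) * x + x ^ 2 * (-(1 - τ ^ (lt + 1)) + β * (1 - τ ^ (lt + 2)))) ≤
        3 * ((lt : ℝ) + 1) * (1 - τ) * x ^ 2 := by
      have h12 : α * ((1 - τ ^ (lt + 1)) * x + x ^ 2 * (-(1 - τ ^ (lt + 1)) + β * (1 - τ ^ (lt + 2)))) ≤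
          α * (3 * ((lt : ℝ) + 1) * (1 - τ) * x ^ 2) := mul_le_mul_of_nonneg_left h8 hα0.le
      have h13 : α * (3 * ((lt : ℝ) + 1) * (1 - τ) * x ^ 2) ≤ 1 * (3 * ((lt : ℝ) + 1) * (1 - τ) * x ^ 2) :=
        mul_le_mul_of_nonneg_right hα1 (by positivity)
      linarith
    have h14 : 3 * ((lt : ℝ) + 1) * (1 - τ) * x ^ 2 ≤ 3 * ((lt : ℝ) + 1) * (q * D) * x ^ 2 := by
      apply mul_le_mul_of_nonneg_right _ hx20
      exact mul_le_mul_of_nonneg_left hτ2 (by positivity)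
    linarith
  have h3 : 3 * ((lt : ℝ) + 1) * (q * D) * x ^ 2 ≤
      bv q x th m1 m2 * (3 * ((lt : ℝ) + 1) * (q * D) * x ^ 2 / th) := by
    rw [mul_div_assoc', le_div_iff₀ ht0]
    have h4 : 0 ≤ 3 * ((lt : ℝ) + 1) * (q * D) * x ^ 2 := by positivity
    nlinarith
  rw [mul_add, mul_one]
  linarith

end BTR
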