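import Pool.Agent.BTG.G5
import Pool.Agent.BTP.A1

set_option autoImplicit false

open Filter

/-! # [BTR-A4] the constants of the proof, the reduction, the base inequality (helper30) -/

namespace BTR
open BTP

/-- the constants of the proof (independent of `A`) -/
structure Co (d lt : ℕ) where
  (ka K Kc C3 R0 e0 E cb : ℝ)
  hka : 10 ^ (4 * (d + lt)) ≤ ka
  hK : 8 ≤ K
  hKc : 0 < Kc
  hC3 : 2 * ka + 3000 * ((lt : ℝ) + 1) * (d : ℝ) ^ 2 + 10 ^ (8 * (d + lt)) ≤ C3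
  hR0 : 16384 * ((lt : ℝ) + 1) ^ 2 * Real.exp ((lt : ℝ) + 2) ≤ R0
  hcb : cb = Real.exp (-(((lt : ℝ) + 2) * 4 ^ d)) / (16384 * ((lt : ℝ) + 1) ^ 2)
  hIa : 128 * ((lt : ℝ) + 1) ^ 2 * C3 * (1 + R0) * Real.sqrt R0 * Real.exp (((lt : ℝ) + 2) * R0 / 4) ≤ K
  he0 : 0 < e0
  hIIa : ∀ z, 0 ≤ z → C3 * (1 + R0 * z) * (1 + 4 ^ d * R0 * z) ^ 2 * Real.exp (-z) ≤
    Kc * Real.sqrt e0
  hE : 1 ≤ E
  he0E : 8 * e0 * (4 * E) ^ (d - 2) ≤ 1
  hEA : 8 * d * lamk (d - 1) (lt + 1) ≤ E * gk (lt + 1) 1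

/-- [BTR-A4] the constants exist -/
theorem exists_co {d : ℕ} (hd : 2 ≤ d) (lt : ℕ) : Nonempty (Co d lt) := by
  have hd0 : (0 : ℝ) < d := by
    have : (2 : ℝ) ≤ d := by exact_mod_cast hd
    linarith
  have hg1 : 0 < gk (lt + 1) 1 := BTG.gk_pos _ one_pos
  have hlam : 0 ≤ lamk (d - 1) (lt + 1) := BTG.lamk_nonneg _ _
  obtain ⟨C3, hC3⟩ : ∃ C3 : ℝ, C3 = 2 * 10 ^ (4 * (d + lt)) + 3000 * ((lt : ℝ) + 1) * (d : ℝ) ^ 2 +
    10 ^ (8 * (d + lt)) := ⟨_, rfl⟩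
  have hC3p : 0 < C3 := by rw [hC3]; positivity
  obtain ⟨R0, hR0⟩ : ∃ R0 : ℝ, R0 = 16384 * ((lt : ℝ) + 1) ^ 2 * Real.exp ((lt : ℝ) + 2) := ⟨_, rfl⟩
  have hR1 : 1 ≤ R0 := by
    rw [hR0]
    have h1 : (1 : ℝ) ≤ ((lt : ℝ) + 1) ^ 2 :=
      one_le_pow₀ (by linarith [(Nat.cast_nonneg lt : (0 : ℝ) ≤ lt)])
    have h2 : (1 : ℝ) ≤ Real.exp ((lt : ℝ) + 2) :=
      Real.one_le_exp (by linarith [(Nat.cast_nonneg lt : (0 : ℝ) ≤ lt)])
    have h3 : (1 : ℝ) ≤ 16384 * ((lt : ℝ) + 1) ^ 2 := by linarith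
    exact one_le_mul_of_one_le_of_one_le h3 h2
  obtain ⟨E, hE⟩ : ∃ E : ℝ, E = 1 + 8 * d * lamk (d - 1) (lt + 1) / gk (lt + 1) 1 := ⟨_, rfl⟩
  have hE1 : 1 ≤ E := by
    rw [hE]
    have : 0 ≤ 8 * d * lamk (d - 1) (lt + 1) / gk (lt + 1) 1 := by positivity
    linarith
  have hEp : 0 < (4 * E) ^ (d - 2) := by
    have : 0 < 4 * E := by linarith
    positivity
  obtain ⟨e0, he0⟩ : ∃ e0 : ℝ, e0 = 1 / (8 * (4 * E) ^ (d - 2)) := ⟨_, rfl⟩
  have he0p : 0 < e0 := by rw [he0]; positivity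
  obtain ⟨N, hN⟩ : ∃ N : ℝ, N = 4 ^ d * R0 := ⟨_, rfl⟩
  have h4d : (1 : ℝ) ≤ 4 ^ d := one_le_pow₀ (by norm_num)
  have hNp : R0 ≤ N := by rw [hN]; exact le_mul_of_one_le_left (by linarith) h4d
  have hN1 : 1 ≤ N := hR1.trans hNp
  obtain ⟨M, hM⟩ : ∃ M : ℝ, M = N ^ 3 * (6 * Real.exp 1) := ⟨_, rfl⟩
  have hMp : 0 < M := by
    rw [hM]
    have : 0 < N := by linarith
    positivity
  have hse : 0 < Real.sqrt e0 := Real.sqrt_pos.mpr he0p
  refine ⟨⟨10 ^ (4 * (d + lt)), 128 * ((lt : ℝ) + 1) ^ 2 * C3 * (1 + R0) * Real.sqrt R0 *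
      Real.exp (((lt : ℝ) + 2) * R0 / 4) + 8, C3 * M / Real.sqrt e0 + 1, C3, R0, e0, E,
      Real.exp (-(((lt : ℝ) + 2) * 4 ^ d)) / (16384 * ((lt : ℝ) + 1) ^ 2),
      le_rfl, ?_, ?_, hC3.symm.le, hR0.symm.le, rfl, ?_, he0p, ?_, hE1, ?_, ?_⟩⟩
  · have : 0 ≤ 128 * ((lt : ℝ) + 1) ^ 2 * C3 * (1 + R0) * Real.sqrt R0 *
      Real.exp (((lt : ℝ) + 2) * R0 / 4) := by positivity
    linarith
  · positivity
  · linarith
  · intro z hz
    have h1 : 1 + R0 * z ≤ N * (1 + z) := by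
      have := mul_le_mul_of_nonneg_right hNp hz
      linarith
    have h2 : 1 + 4 ^ d * R0 * z ≤ N * (1 + z) := by
      rw [← hN]
      linarith
    have h3 : 0 ≤ 1 + R0 * z := by positivity
    have h4 : 0 ≤ 1 + 4 ^ d * R0 * z := by positivity
    have hN0 : 0 ≤ N * (1 + z) := le_trans h3 h1
    have h5 : (1 + R0 * z) * (1 + 4 ^ d * R0 * z) ^ 2 ≤ (N * (1 + z)) * (N * (1 + z)) ^ 2 :=
      mul_le_mul h1 (pow_le_pow_left₀ h4 h2 2) (by positivity) hN0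
    have h6 : (1 + z) ^ 3 ≤ 6 * Real.exp (1 + z) := by
      have := Real.pow_div_factorial_le_exp (x := 1 + z) (by linarith) 3
      have h7 : ((Nat.factorial 3 : ℕ) : ℝ) = 6 := by norm_num [Nat.factorial]
      rw [h7] at this
      linarith
    have h8 : (1 + z) ^ 3 * Real.exp (-z) ≤ 6 * Real.exp 1 := by
      have h9 : 6 * Real.exp (1 + z) * Real.exp (-z) = 6 * Real.exp 1 := by
        rw [mul_assoc, ← Real.exp_add]
        congr 2
        ring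
      rw [← h9]
      exact mul_le_mul_of_nonneg_right h6 (Real.exp_pos _).le
    have h10 : (C3 * M / Real.sqrt e0 + 1) * Real.sqrt e0 = C3 * M + Real.sqrt e0 := by
      field_simp
    rw [h10]
    have hN3 : 0 ≤ N ^ 3 := by
      have : 0 ≤ N := by linarith
      positivity
    calc C3 * (1 + R0 * z) * (1 + 4 ^ d * R0 * z) ^ 2 * Real.exp (-z)
        = C3 * (((1 + R0 * z) * (1 + 4 ^ d * R0 * z) ^ 2) * Real.exp (-z)) := by ring
      _ ≤ C3 * (((N * (1 + z)) * (N * (1 + z)) ^ 2) * Real.exp (-z)) := by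
          refine mul_le_mul_of_nonneg_left ?_ hC3p.le
          exact mul_le_mul_of_nonneg_right h5 (Real.exp_pos _).le
      _ = C3 * (N ^ 3 * ((1 + z) ^ 3 * Real.exp (-z))) := by ring
      _ ≤ C3 * (N ^ 3 * (6 * Real.exp 1)) := by
          refine mul_le_mul_of_nonneg_left ?_ hC3p.le
          exact mul_le_mul_of_nonneg_left h8 hN3
      _ = C3 * M := by rw [hM]
      _ ≤ C3 * M + Real.sqrt e0 := by linarith
  · rw [he0]
    have : 8 * (1 / (8 * (4 * E) ^ (d - 2))) * (4 * E) ^ (d - 2) = 1 := by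
      field_simp
    linarith
  · rw [hE, add_mul, one_mul, div_mul_cancel₀ _ hg1.ne']
    linarith

/-- [BTR-A5a] the conditions on the reduction -/
theorem red_ok (lt : ℕ) (Kc : ℝ) (hKc : 0 < Kc) : ∀ᶠ L : ℝ in atTop,
    1 ≤ (L / 2 + 3 / 2 * Real.log L) / ((lt : ℝ) + 2) ∧
    (L / 2 + 3 / 2 * Real.log L) / ((lt : ℝ) + 2) ≤ L ∧
    L / (2 * ((lt : ℝ) + 2)) ≤ (L / 2 + 3 / 2 * Real.log L) / ((lt : ℝ) + 2) ∧
    (∀ z, 0 ≤ z → z ≤ (L / 2 + 3 / 2 * Real.log L) / ((lt : ℝ) + 2) →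
      128 * ((lt : ℝ) + 2) * (Kc * Real.exp (-(L / 2))) * Real.exp (((lt : ℝ) + 2) * z) ≤ (1 + z) ^ 3) ∧
    0 ≤ gk (lt + 1) ((L / 2 + 3 / 2 * Real.log L) / ((lt : ℝ) + 2)) -
      Kc * Real.exp (-(L / 2)) / (1 + (L / 2 + 3 / 2 * Real.log L) / ((lt : ℝ) + 2)) ^ 2 ∧
    gk (lt + 1) ((L / 2 + 3 / 2 * Real.log L) / ((lt : ℝ) + 2)) * L ≤ Real.exp (-(L / 2)) := by
  obtain ⟨μ, hμ⟩ : ∃ μ : ℝ, μ = (lt : ℝ) + 2 := ⟨_, rfl⟩
  have hμ2 : 2 ≤ μ := by rw [hμ]; linarith [(Nat.cast_nonneg lt : (0 : ℝ) ≤ lt)]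
  have hμ0 : 0 < μ := by linarith
  rw [← hμ]
  filter_upwards [eventually_ge_atTop (max (2 * μ) ((8192 * μ ^ 4 * Kc + 4096 * μ * Kc + 3) ^ 2))] with L hL
  have hL4 : 2 * μ ≤ L := le_trans (le_max_left _ _) hL
  have hLK : (8192 * μ ^ 4 * Kc + 4096 * μ * Kc + 3) ^ 2 ≤ L := le_trans (le_max_right _ _) hL
  have hL0 : 0 < L := by linarith
  obtain ⟨s, hs⟩ : ∃ s : ℝ, s = Real.sqrt L := ⟨_, rfl⟩
  have hsL : s ^ 2 = L := by rw [hs]; exact Real.sq_sqrt hL0.le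
  have hs1 : 8192 * μ ^ 4 * Kc + 4096 * μ * Kc + 3 ≤ s := by
    rw [hs]
    exact Real.le_sqrt_of_sq_le hLK
  have hK1 : 0 < 8192 * μ ^ 4 * Kc := by positivity
  have hK2 : 0 < 4096 * μ * Kc := by positivity
  have hs3' : 3 ≤ s := by linarith
  have hs0 : 0 < s := by linarith
  have hlog : Real.log L = 2 * Real.log s := by
    rw [← hsL, Real.log_pow]
    norm_num
  have hlog0 : 0 ≤ Real.log L := Real.log_nonneg (by linarith)
  have hlogL : Real.log L ≤ L := (Real.log_le_sub_one_of_pos hL0).trans (by linarith)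
  obtain ⟨Z, hZ⟩ : ∃ Z : ℝ, Z = (L / 2 + 3 / 2 * Real.log L) / μ := ⟨_, rfl⟩
  rw [← hZ]
  have hμZ : μ * Z = L / 2 + 3 / 2 * Real.log L := by rw [hZ]; field_simp
  have hZL : L / (2 * μ) ≤ Z := by
    rw [div_le_iff₀ (by positivity)]
    have : Z * (2 * μ) = 2 * (μ * Z) := by ring
    rw [this, hμZ]
    linarith
  have hZ1 : 1 ≤ Z := by
    refine le_trans ?_ hZL
    rw [le_div_iff₀ (by positivity), one_mul]
    exact hL4
  have hZ0 : 0 < Z := by linarith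
  have he3 : Real.exp (3 * Real.log s) = s ^ 3 := by
    have h1 : Real.exp (3 * Real.log s) = Real.exp (Real.log s) ^ 3 := by
      rw [← Real.exp_nat_mul]
      norm_num
    rw [h1, Real.exp_log hs0]
  have he2Z : Real.exp (μ * Z) = Real.exp (L / 2) * s ^ 3 := by
    rw [← he3, ← Real.exp_add]
    congr 1
    rw [hμZ, hlog]
    ring
  have hem : Real.exp (-(L / 2)) * Real.exp (L / 2) = 1 := by
    rw [← Real.exp_add, neg_add_cancel, Real.exp_zero]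
  have hs3 : 0 < s ^ 3 := by positivity
  have he2Zm : Real.exp (-(μ * Z)) * s ^ 3 = Real.exp (-(L / 2)) := by
    have h1 : Real.exp (-(μ * Z)) * Real.exp (μ * Z) = 1 := by
      rw [← Real.exp_add, neg_add_cancel, Real.exp_zero]
    rw [he2Z] at h1
    have h2 : Real.exp (-(μ * Z)) * s ^ 3 * (Real.exp (L / 2)) =
        Real.exp (-(L / 2)) * Real.exp (L / 2) := by
      rw [hem]
      linarith
    exact mul_right_cancel₀ (Real.exp_pos _).ne' h2
  have hep := Real.exp_pos (-(L / 2))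
  have hss3 : s ≤ s ^ 3 := by
    calc s = s ^ 1 := (pow_one s).symm
      _ ≤ s ^ 3 := pow_le_pow_right₀ (by linarith) (by norm_num)
  have hcast : ((lt + 1 : ℕ) : ℝ) + 1 = μ := by rw [hμ]; push_cast; ring
  refine ⟨hZ1, ?_, hZL, ?_, ?_, ?_⟩
  · have h1 : μ * Z ≤ 2 * L := by rw [hμZ]; linarith
    have h2 : 2 * Z ≤ μ * Z := mul_le_mul_of_nonneg_right hμ2 hZ0.le
    linarith
  · intro z hz0 hzZ
    by_cases hc : z ≤ Z / 2
    · have h1 : Real.exp (μ * z) ≤ Real.exp (L / 4) * L := by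
        have h2 : Real.exp (L / 4) * L = Real.exp (L / 4 + Real.log L) := by
          rw [Real.exp_add, Real.exp_log hL0]
        rw [h2]
        apply Real.exp_le_exp.mpr
        have h3 : μ * z ≤ μ * (Z / 2) := mul_le_mul_of_nonneg_left hc hμ0.le
        have h4 : μ * (Z / 2) = (L / 2 + 3 / 2 * Real.log L) / 2 := by rw [← hμZ]; ring
        rw [h4] at h3
        linarith
      have h4 : L ^ 2 / 32 ≤ Real.exp (L / 4) := by
        have h5 := Real.pow_div_factorial_le_exp (x := L / 4) (by linarith) 2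
        have h6 : ((Nat.factorial 2 : ℕ) : ℝ) = 2 := by norm_num [Nat.factorial]
        rw [h6] at h5
        calc L ^ 2 / 32 = (L / 4) ^ 2 / 2 := by ring
          _ ≤ _ := h5
      have h7 : Real.exp (-(L / 2)) * Real.exp (L / 4) * Real.exp (L / 4) = 1 := by
        rw [mul_assoc, ← Real.exp_add, ← Real.exp_add]
        have : -(L / 2) + (L / 4 + L / 4) = 0 := by ring
        rw [this, Real.exp_zero]
      have hE4 := Real.exp_pos (L / 4)
      have h8 : Real.exp (-(L / 2)) * Real.exp (L / 4) * L ^ 2 ≤ 32 := by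
        have h9 : Real.exp (-(L / 2)) * Real.exp (L / 4) * (L ^ 2 / 32) ≤
            Real.exp (-(L / 2)) * Real.exp (L / 4) * Real.exp (L / 4) :=
          mul_le_mul_of_nonneg_left h4 (by positivity)
        rw [h7] at h9
        linarith
      have hKL : 4096 * μ * Kc ≤ L := by
        have h9 : s ≤ s ^ 2 := by
          calc s = s ^ 1 := (pow_one s).symm
            _ ≤ s ^ 2 := pow_le_pow_right₀ (by linarith) (by norm_num)
        rw [hsL] at h9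
        linarith
      have h10 : 128 * μ * (Kc * Real.exp (-(L / 2))) * Real.exp (μ * z) ≤
          128 * μ * (Kc * Real.exp (-(L / 2))) * (Real.exp (L / 4) * L) :=
        mul_le_mul_of_nonneg_left h1 (by positivity)
      refine h10.trans ?_
      have h11 : 128 * μ * (Kc * Real.exp (-(L / 2))) * (Real.exp (L / 4) * L) ≤ 1 := by
        have h12 : 128 * μ * (Kc * Real.exp (-(L / 2))) * (Real.exp (L / 4) * L) * L ≤ 1 * L := by
          calc 128 * μ * (Kc * Real.exp (-(L / 2))) * (Real.exp (L / 4) * L) * L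
              = 128 * μ * Kc * (Real.exp (-(L / 2)) * Real.exp (L / 4) * L ^ 2) := by ring
            _ ≤ 128 * μ * Kc * 32 := mul_le_mul_of_nonneg_left h8 (by positivity)
            _ ≤ 1 * L := by linarith
        exact le_of_mul_le_mul_right h12 hL0
      refine h11.trans ?_
      exact one_le_pow₀ (by linarith)
    · push Not at hc
      have h1 : Real.exp (μ * z) ≤ Real.exp (L / 2) * s ^ 3 := by
        rw [← he2Z]
        exact Real.exp_le_exp.mpr (mul_le_mul_of_nonneg_left hzZ hμ0.le)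
      have h2 : 128 * μ * (Kc * Real.exp (-(L / 2))) * Real.exp (μ * z) ≤
          128 * μ * (Kc * Real.exp (-(L / 2))) * (Real.exp (L / 2) * s ^ 3) :=
        mul_le_mul_of_nonneg_left h1 (by positivity)
      refine h2.trans ?_
      have h3 : 128 * μ * (Kc * Real.exp (-(L / 2))) * (Real.exp (L / 2) * s ^ 3) =
          128 * μ * Kc * s ^ 3 * (Real.exp (-(L / 2)) * Real.exp (L / 2)) := by ring
      rw [h3, hem, mul_one]
      have h4 : L / (4 * μ) ≤ 1 + z := by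
        have h5 : L / (4 * μ) = L / (2 * μ) / 2 := by field_simp; ring
        rw [h5]
        linarith
      have h5 : (L / (4 * μ)) ^ 3 ≤ (1 + z) ^ 3 := pow_le_pow_left₀ (by positivity) h4 3
      refine le_trans ?_ h5
      have h6 : (L / (4 * μ)) ^ 3 = s ^ 3 * (s ^ 3 / (64 * μ ^ 3)) := by
        rw [← hsL]; field_simp; ring
      rw [h6]
      have h7 : 128 * μ * Kc ≤ s ^ 3 / (64 * μ ^ 3) := by
        rw [le_div_iff₀ (by positivity)]
        have h8 : 128 * μ * Kc * (64 * μ ^ 3) = 8192 * μ ^ 4 * Kc := by ring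
        rw [h8]
        linarith
      calc 128 * μ * Kc * s ^ 3 = s ^ 3 * (128 * μ * Kc) := by ring
        _ ≤ s ^ 3 * (s ^ 3 / (64 * μ ^ 3)) := mul_le_mul_of_nonneg_left h7 hs3.le
  · have h1 := BTG.gk_ge (lt + 1) hZ0
    rw [hcast] at h1
    have h2 : Kc * Real.exp (-(L / 2)) / (1 + Z) ^ 2 ≤ Kc * Real.exp (-(L / 2)) / (L / (2 * μ)) ^ 2 := by
      refine div_le_div_of_nonneg_left (by positivity) (by positivity) ?_
      exact pow_le_pow_left₀ (by positivity) (by linarith) 2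
    have h3 : Kc * Real.exp (-(L / 2)) / (L / (2 * μ)) ^ 2 ≤ Real.exp (-(μ * Z)) / 2 := by
      rw [div_le_div_iff₀ (by positivity) (by norm_num), ← he2Zm]
      have h4 : (L / (2 * μ)) ^ 2 = s ^ 3 * (s / (4 * μ ^ 2)) := by
        rw [← hsL]; field_simp; ring
      rw [h4]
      have h5 : Kc * 2 ≤ s / (4 * μ ^ 2) := by
        rw [le_div_iff₀ (by positivity)]
        have h6 : Kc * 2 * (4 * μ ^ 2) ≤ 8192 * μ ^ 4 * Kc := by
          have h7 : 1 ≤ μ ^ 2 := one_le_pow₀ (by linarith)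
          have h8 : μ ^ 2 ≤ μ ^ 2 * μ ^ 2 := le_mul_of_one_le_left (by positivity) h7
          have h9 : Kc * μ ^ 2 ≤ Kc * (μ ^ 2 * μ ^ 2) := mul_le_mul_of_nonneg_left h8 hKc.le
          have h10 : 0 ≤ Kc * (μ ^ 2 * μ ^ 2) := by positivity
          have h11 : 8192 * μ ^ 4 * Kc = 8192 * (Kc * (μ ^ 2 * μ ^ 2)) := by ring
          have h12 : Kc * 2 * (4 * μ ^ 2) = 8 * (Kc * μ ^ 2) := by ring
          rw [h11, h12]
          linarith
        linarith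
      have h6 : 0 < Real.exp (-(μ * Z)) := Real.exp_pos _
      calc Kc * (Real.exp (-(μ * Z)) * s ^ 3) * 2
          = Real.exp (-(μ * Z)) * s ^ 3 * (Kc * 2) := by ring
        _ ≤ Real.exp (-(μ * Z)) * s ^ 3 * (s / (4 * μ ^ 2)) :=
            mul_le_mul_of_nonneg_left h5 (by positivity)
        _ = Real.exp (-(μ * Z)) * (s ^ 3 * (s / (4 * μ ^ 2))) := by ring
    linarith
  · have h1 := BTG.gk_tail2 (lt + 1) hZ1
    rw [hcast] at h1
    have h2 : gk (lt + 1) Z * L ≤ 3 * Real.exp (-(μ * Z)) * L := mul_le_mul_of_nonneg_right h1 hL0.le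
    refine h2.trans ?_
    rw [← he2Zm, ← hsL]
    have h6 : 0 < Real.exp (-(μ * Z)) := Real.exp_pos _
    calc 3 * Real.exp (-(μ * Z)) * s ^ 2 = Real.exp (-(μ * Z)) * s ^ 2 * 3 := by ring
      _ ≤ Real.exp (-(μ * Z)) * s ^ 2 * s := mul_le_mul_of_nonneg_left hs3' (by positivity)
      _ = Real.exp (-(μ * Z)) * s ^ 3 := by ring

/-- the bound for the step cost -/
noncomputable def gmL (d n : ℕ) (L : ℝ) : ℝ :=
  (Real.log 2 + ((d : ℝ) - 1) * (L - Real.log (2 * L ^ (10 * n + 8)))) / 2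

/-- [BTR-A3] the inequality `hbase` for `P = 20 n L`, `H = 2 L^(10n+8)`, `h ≈ L`, `n = d + l` -/
theorem base_ineq {d n : ℕ} (hd : 2 ≤ d) (hdn : d ≤ n) {L : ℝ} (hL : 100 ≤ L)
    (hl : (n : ℝ) + 41 ≤ Real.log L)
    (hl2 : 2 * n * Real.log L ≤ (d - 1) * L) {p : ℝ} (hp0 : 0 ≤ p)
    (hp : p ≤ Real.exp (-(((d : ℝ) - 1) * L))) {h : ℕ} (h1 : L ≤ h) (h2 : (h : ℝ) ≤ L + 1)
    (Y m : ℕ) (hY1 : h ≤ Y) (hY2 : Y ≤ 2 * h + 2) (hm : Y + 2 ≤ 2 * m) :
    (((Y : ℝ) + 1) ^ n * p) ^ m ≤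
      Real.exp (-(2 * (20 * n * L)) - ((Y : ℝ) + d) * gmL d n L) := by
  have hd' : (2 : ℝ) ≤ d := by exact_mod_cast hd
  have hdn' : (d : ℝ) ≤ n := by exact_mod_cast hdn
  obtain ⟨D, hD⟩ : ∃ D : ℝ, D = (d : ℝ) := ⟨_, rfl⟩
  obtain ⟨S, hS⟩ : ∃ S : ℝ, S = (n : ℝ) := ⟨_, rfl⟩
  obtain ⟨l, hl'⟩ : ∃ l : ℝ, l = Real.log L := ⟨_, rfl⟩
  rw [← hD] at hd' hl2 hp hdn' ⊢
  rw [← hS] at hl hl2 hdn' ⊢
  rw [← hl'] at hl hl2
  have hL0 : 0 < L := by linarith
  have hl0 : 43 ≤ l := by linarith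
  have hYh : (h : ℝ) ≤ Y := by exact_mod_cast hY1
  have hY2' : (Y : ℝ) ≤ 2 * h + 2 := by exact_mod_cast hY2
  have hYL : L ≤ Y := le_trans h1 hYh
  have hm' : (Y : ℝ) + 2 ≤ 2 * m := by exact_mod_cast hm
  have hY0 : (0 : ℝ) ≤ Y := Nat.cast_nonneg _
  -- the base
  have hYsq : (Y : ℝ) + 1 ≤ L ^ 2 := by nlinarith
  have hbase : ((Y : ℝ) + 1) ^ n ≤ Real.exp (2 * S * l) := by
    have e1 : Real.exp (2 * S * l) = (L ^ 2) ^ n := by
      have e2 : 2 * S * l = ((2 * n : ℕ) : ℝ) * l := by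
        rw [hS]
        push_cast
        ring
      rw [e2, Real.exp_nat_mul, hl', Real.exp_log hL0, pow_mul]
    rw [e1]
    exact pow_le_pow_left₀ (by linarith) hYsq n
  have hr : ((Y : ℝ) + 1) ^ n * p ≤ Real.exp (2 * S * l - (D - 1) * L) := by
    calc ((Y : ℝ) + 1) ^ n * p ≤ Real.exp (2 * S * l) * Real.exp (-((D - 1) * L)) :=
          mul_le_mul hbase hp hp0 (Real.exp_pos _).le
      _ = Real.exp (2 * S * l - (D - 1) * L) := by rw [← Real.exp_add]; ring_nf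
  have hr0 : 0 ≤ ((Y : ℝ) + 1) ^ n * p := mul_nonneg (pow_nonneg (by linarith) _) hp0
  have hpow : (((Y : ℝ) + 1) ^ n * p) ^ m ≤ Real.exp ((m : ℝ) * (2 * S * l - (D - 1) * L)) := by
    rw [Real.exp_nat_mul]
    exact pow_le_pow_left₀ hr0 hr m
  refine hpow.trans (Real.exp_le_exp.2 ?_)
  have hneg : 2 * S * l - (D - 1) * L ≤ 0 := by linarith
  have hstep : (m : ℝ) * (2 * S * l - (D - 1) * L) ≤
      (((Y : ℝ) + 2) / 2) * (2 * S * l - (D - 1) * L) := by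
    apply mul_le_mul_of_nonpos_right _ hneg
    linarith
  refine hstep.trans ?_
  have hlogH : Real.log (2 * L ^ (10 * n + 8)) = Real.log 2 + (10 * S + 8) * l := by
    rw [Real.log_mul (by norm_num) (pow_pos hL0 _).ne', Real.log_pow, hS, hl']
    push_cast
    ring
  have hg : gmL d n L = (Real.log 2 + (D - 1) * (L - (Real.log 2 + (10 * S + 8) * l))) / 2 := by
    unfold gmL
    rw [hlogH, hD]
  have hlog2 : 0 < Real.log 2 := Real.log_pos (by norm_num)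
  have hlog21 : Real.log 2 ≤ 1 := by
    have := Real.log_two_lt_d9
    linarith
  rw [hg]
  have hDD : (Y : ℝ) + 2 ≤ (Y + D) * (D - 1) := by nlinarith
  have hS0 : 0 < S := by linarith
  have k1 : ((Y : ℝ) + 2) * ((10 * S + 8) * l) ≤ (Y + D) * (D - 1) * (Real.log 2 + (10 * S + 8) * l) := by
    apply mul_le_mul hDD _ (by positivity)
    · exact mul_nonneg (by linarith) (by linarith)
    · linarith
  have k2 : 40 * S * L ≤ 40 * S * ((Y : ℝ) + 2) := by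
    apply mul_le_mul_of_nonneg_left _ (by positivity)
    linarith
  have k3 : (D - 1) * (D - 2) * L ≤ S ^ 2 * ((Y : ℝ) + 2) := by
    apply mul_le_mul _ (by linarith) hL0.le (by positivity)
    nlinarith
  have k4 : ((Y : ℝ) + D) * Real.log 2 ≤ (Y + 2) * S := by
    have k5 : ((Y : ℝ) + D) * Real.log 2 ≤ (Y + D) * 1 :=
      mul_le_mul_of_nonneg_left hlog21 (by positivity)
    nlinarith
  have k6 : ((Y : ℝ) + 2) * ((4 * S + 4) * (S + 41)) ≤ (Y + 2) * ((4 * S + 4) * l) := by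
    apply mul_le_mul_of_nonneg_left _ (by positivity)
    exact mul_le_mul_of_nonneg_left hl (by positivity)
  have k7 : 40 * S * ((Y : ℝ) + 2) + S ^ 2 * (Y + 2) / 2 + (Y + 2) * S / 2 ≤
      (Y + 2) * ((4 * S + 4) * (S + 41)) := by
    have k8 : 40 * S + S ^ 2 / 2 + S / 2 ≤ (4 * S + 4) * (S + 41) := by nlinarith
    have k9 := mul_le_mul_of_nonneg_left k8 (by positivity : (0 : ℝ) ≤ (Y : ℝ) + 2)
    linarith
  linarith [k1, k2, k3, k4, k6, k7]

end BTR
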