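import Pool.Agent.BTR.G2

set_option autoImplicit false

namespace BTR
open BTP

/-- [BTR-G3] PROOF. `MonotoneOn.convexOn_of_deriv`, `gk_deriv`, `dk_incr` (as `BTP.gg_convex`). -/
theorem gk_convex {k : ℕ} (hk : 1 ≤ k) : ConvexOn ℝ (Set.Ioi 0) (gk k) := by
  apply MonotoneOn.convexOn_of_deriv (convex_Ioi 0)
  · intro z hz
    exact (gk_deriv hk hz).continuousAt.continuousWithinAt
  · rw [interior_Ioi]
    intro z hz
    exact (gk_deriv hk hz).differentiableAt.differentiableWithinAt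
  · rw [interior_Ioi]
    intro x hx y hy hxy
    rw [(gk_deriv hk hx).deriv, (gk_deriv hk hy).deriv]
    have h := dk_incr hk hx hxy
    have hk0 : (0 : ℝ) < (k : ℝ) + 1 := by positivity
    have h1 : 0 ≤ (Real.exp (-(((k : ℝ) + 1) * x)) - Real.exp (-(((k : ℝ) + 1) * y))) /
        (4 * ((k : ℝ) + 1)) := by
      apply div_nonneg _ (by positivity)
      have : Real.exp (-(((k : ℝ) + 1) * y)) ≤ Real.exp (-(((k : ℝ) + 1) * x)) := by
        apply Real.exp_le_exp.mpr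
        have := mul_le_mul_of_nonneg_left hxy hk0.le
        linarith
      linarith
    linarith

theorem g3_mvt {k : ℕ} (hk : 1 ≤ k) {y1 y2 : ℝ} (h0 : 0 < y1) (h : y1 < y2) :
    ∃ ξ, y1 < ξ ∧ ξ < y2 ∧ gk k y2 - gk k y1 = dk k ξ * (y2 - y1) := by
  obtain ⟨ξ, hξ, he⟩ := exists_hasDerivAt_eq_slope (gk k) (dk k) h
    (fun z hz => (gk_deriv hk (lt_of_lt_of_le h0 hz.1)).continuousAt.continuousWithinAt)
    (fun z hz => gk_deriv hk (lt_trans h0 hz.1))
  refine ⟨ξ, hξ.1, hξ.2, ?_⟩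
  rw [he, div_mul_cancel₀]
  linarith

/-- [BTR-G3] PROOF. Mean value theorem: `g(y₁) - g(y₂) = (y₂-y₁)(-g'(t))`, `-g'(t) ≥ -g'(y₂) ≥ e^{-(k+1)y₂}/2` (as `BTS.gg_sub_ge`). -/
theorem gk_sub_ge {k : ℕ} (hk : 1 ≤ k) {y1 y2 : ℝ} (h0 : 0 < y1) (h : y1 ≤ y2) :
    (y2 - y1) * (Real.exp (-(((k : ℝ) + 1) * y2)) / 2) ≤ gk k y1 - gk k y2 := by
  rcases eq_or_lt_of_le h with h1 | h1
  · rw [h1, sub_self, zero_mul, sub_self]
  · obtain ⟨ξ, a1, a2, a3⟩ := g3_mvt hk h0 h1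
    have h2 := dk_le (k := k) (lt_trans h0 a1)
    have hk0 : (0 : ℝ) < (k : ℝ) + 1 := by positivity
    have h3 : Real.exp (-(((k : ℝ) + 1) * y2)) ≤ Real.exp (-(((k : ℝ) + 1) * ξ)) := by
      apply Real.exp_le_exp.2
      have := mul_le_mul_of_nonneg_left a2.le hk0.le
      linarith
    have h4 : dk k ξ ≤ -(Real.exp (-(((k : ℝ) + 1) * y2)) / 2) := by linarith
    have h5 := mul_le_mul_of_nonneg_right h4 (by linarith : (0 : ℝ) ≤ y2 - y1)
    nlinarith
/-- [BTR-G3] the same with `dk_le_small` -/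
theorem gk_sub_ge' {k : ℕ} (hk : 1 ≤ k) {y1 y2 : ℝ} (h0 : 0 < y1) (h : y1 ≤ y2)
    (h2 : y2 ≤ 1 / (32 * (k : ℝ) ^ 2)) : (y2 - y1) / (4 * y2) ≤ gk k y1 - gk k y2 := by
  rcases eq_or_lt_of_le h with h1 | h1
  · rw [h1, sub_self, zero_div, sub_self]
  · obtain ⟨ξ, a1, a2, a3⟩ := g3_mvt hk h0 h1
    have hξ : 0 < ξ := lt_trans h0 a1
    have h3 := dk_le_small hk hξ (by linarith)
    have h4 : 1 / (4 * y2) ≤ 1 / (4 * ξ) := one_div_le_one_div_of_le (by linarith) (by linarith)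
    have h5 : dk k ξ ≤ -(1 / (4 * y2)) := by linarith
    have h6 := mul_le_mul_of_nonneg_right h5 (by linarith : (0 : ℝ) ≤ y2 - y1)
    have e : (y2 - y1) / (4 * y2) = 1 / (4 * y2) * (y2 - y1) := by ring
    rw [e]
    linarith
theorem g3_exp (k : ℕ) (z : ℝ) : Real.exp (-(((k : ℝ) + 1) * z)) =
    Real.exp (-(k * z)) * Real.exp (-z) := by
  rw [← Real.exp_add]; congr 1; ring
/-- [BTR-G3] PROOF. `g = -log β ≥ 1 - β = 1 - 1/w = x/w = V s ≥ e^{-kz} e^{-z}/2` (`xk_eq`, `sk_ge`). -/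
theorem gk_ge {k : ℕ} {z : ℝ} (hz : 0 < z) : Real.exp (-(((k : ℝ) + 1) * z)) / 2 ≤ gk k z := by
  have h1 : 1 - Real.exp (-gk k z) ≤ gk k z := by
    have := Real.add_one_le_exp (-gk k z)
    linarith
  have h2 := xk_eq (k := k) hz
  have h3 := sk_ge (k := k) hz
  have hV0 : 0 < Real.exp (-(k * z)) := Real.exp_pos _
  have hw0 : 0 < Real.exp (gk k z) := Real.exp_pos _
  have h4 : 1 - Real.exp (-gk k z) = Real.exp (-(k * z)) * sk k z := by
    have h5 : 1 + xk k z = Real.exp (gk k z) := by unfold xk; ring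
    rw [h5] at h2
    have h6 : xk k z * Real.exp (-gk k z) = Real.exp (-(k * z)) * sk k z := by
      rw [h2]
      have h7 : Real.exp (gk k z) * Real.exp (-gk k z) = 1 := by
        rw [← Real.exp_add, add_neg_cancel, Real.exp_zero]
      calc Real.exp (-(k * z)) * Real.exp (gk k z) * sk k z * Real.exp (-gk k z)
          = Real.exp (-(k * z)) * sk k z * (Real.exp (gk k z) * Real.exp (-gk k z)) := by ring
        _ = _ := by rw [h7, mul_one]
    rw [← h6]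
    unfold xk
    rw [sub_mul, ← Real.exp_add, add_neg_cancel, Real.exp_zero, one_mul]
  rw [g3_exp]
  have h8 := mul_le_mul_of_nonneg_left h3 hV0.le
  linarith
/-- [BTR-G3] PROOF. `g = log w ≤ w - 1 = x = V w s ≤ V v w` and `w² ≤ (1+z)/z ≤ 2` (`exp_gk_sq`), `w ≤ 2`. -/
theorem gk_tail2 {k : ℕ} (hk : 1 ≤ k) {z : ℝ} (hz : 1 ≤ z) :
    gk k z ≤ 2 * Real.exp (-(((k : ℝ) + 1) * z)) := by
  have hz0 : 0 < z := by linarith
  have h1 : gk k z ≤ xk k z := by
    have := Real.add_one_le_exp (gk k z)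
    unfold xk
    linarith
  have h2 := xk_eq (k := k) hz0
  have h3 := sk_le (k := k) hz0
  have h4 := exp_gk_sq hk hz0
  have hV0 : 0 < Real.exp (-(k * z)) := Real.exp_pos _
  have hv0 : 0 < Real.exp (-z) := Real.exp_pos _
  have hw0 : 0 < Real.exp (gk k z) := Real.exp_pos _
  have h5 : (1 + z) / z ≤ 4 := by
    rw [div_le_iff₀ hz0]; linarith
  have h6 : Real.exp (gk k z) ≤ 2 := by nlinarith
  have h7 : 1 + xk k z = Real.exp (gk k z) := by unfold xk; ring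
  rw [h7] at h2
  rw [g3_exp]
  have h8 : Real.exp (-(k * z)) * Real.exp (gk k z) * sk k z ≤
      Real.exp (-(k * z)) * Real.exp (gk k z) * Real.exp (-z) :=
    mul_le_mul_of_nonneg_left h3 (by positivity)
  have h9 : Real.exp (-(k * z)) * Real.exp (-z) * Real.exp (gk k z) ≤
      Real.exp (-(k * z)) * Real.exp (-z) * 2 :=
    mul_le_mul_of_nonneg_left h6 (by positivity)
  linarith
/-- [BTR-G3] PROOF. `y = z(1+t)`. If `y ≤ 1/(32k²)`: `gk_sub_ge'`: `≥ zt/(4z(1+t)) ≥ t/8`. Otherwise `z > 1/(64k²)` and `gk_sub_ge`: `≥ z t e^{-(k+1)y}/2 ≥ t e^{-2(k+1)R}/(128k²)` (`y ≤ 2R`). -/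
theorem gk_gain2 {k : ℕ} (hk : 1 ≤ k) {z t R : ℝ} (hz : 0 < z) (hzR : z ≤ R) (ht : 0 ≤ t) (ht1 : t ≤ 1) :
    t * Real.exp (-(2 * ((k : ℝ) + 1) * R)) / (128 * (k : ℝ) ^ 2) ≤ gk k z - gk k (z * (1 + t)) := by
  have hk1 : (1 : ℝ) ≤ k := by exact_mod_cast hk
  have hk0 : (0 : ℝ) < k := by linarith
  have hksq : (1 : ℝ) ≤ (k : ℝ) ^ 2 := by nlinarith
  have hy : z ≤ z * (1 + t) := by nlinarith
  have hE0 : 0 < Real.exp (-(2 * ((k : ℝ) + 1) * R)) := Real.exp_pos _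
  rcases le_or_gt (z * (1 + t)) (1 / (32 * (k : ℝ) ^ 2)) with hc | hc
  · have h1 := gk_sub_ge' hk hz hy hc
    have h2 : t / 8 ≤ (z * (1 + t) - z) / (4 * (z * (1 + t))) := by
      have e : (z * (1 + t) - z) / (4 * (z * (1 + t))) = t / (4 * (1 + t)) := by
        field_simp
        ring
      rw [e, div_le_div_iff₀ (by norm_num) (by positivity)]
      nlinarith
    have hE1 : Real.exp (-(2 * ((k : ℝ) + 1) * R)) ≤ 1 := by
      apply Real.exp_le_one_iff.mpr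
      have : 0 ≤ 2 * ((k : ℝ) + 1) * R := by
        have : 0 < R := by linarith
        positivity
      linarith
    have h3 : t * Real.exp (-(2 * ((k : ℝ) + 1) * R)) / (128 * (k : ℝ) ^ 2) ≤ t / 8 := by
      rw [div_le_div_iff₀ (by positivity) (by norm_num)]
      have h4 : t * Real.exp (-(2 * ((k : ℝ) + 1) * R)) ≤ t * 1 := mul_le_mul_of_nonneg_left hE1 ht
      have h5 : t * 1 ≤ t * (k : ℝ) ^ 2 := mul_le_mul_of_nonneg_left hksq ht
      nlinarith
    linarith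
  · have h1 := gk_sub_ge hk hz hy
    have hzl : 1 / (64 * (k : ℝ) ^ 2) ≤ z := by
      have h2 : z * (1 + t) ≤ 2 * z := by nlinarith
      have h3 : 1 / (64 * (k : ℝ) ^ 2) = (1 / (32 * (k : ℝ) ^ 2)) / 2 := by
        field_simp
        norm_num
      rw [h3]
      linarith
    have hyR : z * (1 + t) ≤ 2 * R := by nlinarith
    have hE : Real.exp (-(2 * ((k : ℝ) + 1) * R)) ≤ Real.exp (-(((k : ℝ) + 1) * (z * (1 + t)))) := by
      apply Real.exp_le_exp.mpr
      have := mul_le_mul_of_nonneg_left hyR (by positivity : (0 : ℝ) ≤ (k : ℝ) + 1)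
      linarith
    have h4 : t * Real.exp (-(2 * ((k : ℝ) + 1) * R)) / (128 * (k : ℝ) ^ 2) =
        (1 / (64 * (k : ℝ) ^ 2) * t) * (Real.exp (-(2 * ((k : ℝ) + 1) * R)) / 2) := by
      have e : (128 * (k : ℝ) ^ 2) = (64 * (k : ℝ) ^ 2) * 2 := by ring
      rw [e, div_mul_eq_div_div]
      ring
    have h5 : (1 / (64 * (k : ℝ) ^ 2) * t) * (Real.exp (-(2 * ((k : ℝ) + 1) * R)) / 2) ≤
        (z * t) * (Real.exp (-(((k : ℝ) + 1) * (z * (1 + t)))) / 2) := by
      apply mul_le_mul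
      · exact mul_le_mul_of_nonneg_right hzl ht
      · linarith
      · positivity
      · positivity
    rw [h4]
    have h6 : z * (1 + t) - z = z * t := by ring
    rw [h6] at h1
    exact h5.trans h1
/-- [BTR-G3] PROOF. Convexity (as `BTS.gg_sub_le`). -/
theorem gk_sub_le {k : ℕ} (hk : 1 ≤ k) {z z' : ℝ} (hz : 0 < z) (h : z ≤ z') :
    gk k z - gk k z' ≤ 2 * ((z' - z) / z) * gk k (z / 2) := by
  have hz2 : 0 < z / 2 := by linarith
  have h0 : 0 ≤ gk k (z / 2) := gk_nonneg hz2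
  rcases eq_or_lt_of_le h with h1 | h1
  · rw [← h1, sub_self, sub_self, zero_div, mul_zero, zero_mul]
  · have hz' : 0 < z' := lt_trans hz h1
    have h2 := (gk_convex hk).slope_mono_adjacent (x := z / 2) (y := z) (z := z') hz2 hz'
      (by linarith) h1
    have hd : 0 < z' - z := by linarith
    have e1 : z - z / 2 = z / 2 := by ring
    rw [e1, le_div_iff₀ hd] at h2
    have h3 : 0 ≤ gk k z := gk_nonneg hz
    have h4 : gk k z - gk k z' ≤ (gk k (z / 2) - gk k z) / (z / 2) * (z' - z) := by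
      have e2 : (gk k (z / 2) - gk k z) / (z / 2) * (z' - z) =
          -((gk k z - gk k (z / 2)) / (z / 2) * (z' - z)) := by
        ring
      rw [e2]
      linarith
    have h5 : (gk k (z / 2) - gk k z) / (z / 2) ≤ gk k (z / 2) / (z / 2) :=
      div_le_div_of_nonneg_right (by linarith) hz2.le
    have h6 := mul_le_mul_of_nonneg_right h5 hd.le
    have e3 : gk k (z / 2) / (z / 2) * (z' - z) = 2 * ((z' - z) / z) * gk k (z / 2) := by
      field_simp
    linarith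

end BTR
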