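import Pool.Agent.BTR.G1
import Pool.Agent.BTP.G5

set_option autoImplicit false

open MeasureTheory

namespace BTR
open BTP

theorem g4_kmeas (k : ℕ) : Measurable (gk k) := by
  unfold gk bk
  fun_prop

theorem g4_kmeasf (k e : ℕ) : Measurable (fun s : ℝ => gk k (s ^ e)) := by
  have h := (g4_kmeas k).comp (measurable_id.pow_const e : Measurable (fun s : ℝ => id s ^ e))
  exact h

theorem g4_knonneg (k e : ℕ) {s : ℝ} (hs : 0 < s) : 0 ≤ gk k (s ^ e) :=
  gk_nonneg (pow_pos hs _)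

theorem g4_kanti (k e : ℕ) : AntitoneOn (fun s : ℝ => gk k (s ^ e)) (Set.Ioi 0) := by
  intro a ha b hb hab
  exact gk_anti (pow_pos ha _) (pow_le_pow_left₀ (le_of_lt ha) hab _)

theorem g4_kle {k : ℕ} (hk : 1 ≤ k) (e : ℕ) {s : ℝ} (hs : 0 < s) : gk k (s ^ e) ≤ gg (s ^ e) :=
  gk_le_gg hk (pow_pos hs _)

/-- [BTR-G4] PROOF. `0 ≤ gk k (s^e) ≤ gg (s^e)` (`gk_le_gg`), `BTP.gg_integrable` for `d = e + 1`; measurability from `gk_anti`/`gk_cont` or measurability of `bk`. -/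
theorem gk_integrable {k e : ℕ} (hk : 1 ≤ k) (he : 1 ≤ e) :
    IntegrableOn (fun s : ℝ => gk k (s ^ e)) (Set.Ioi 0) := by
  have hI := gg_integrable (d := e + 1) (by omega)
  rw [Nat.add_sub_cancel] at hI
  refine Integrable.mono' hI (g4_kmeasf k e).aestronglyMeasurable ?_
  refine (ae_restrict_iff' measurableSet_Ioi).mpr (Filter.Eventually.of_forall ?_)
  intro s hs
  rw [Real.norm_eq_abs, abs_of_nonneg (g4_knonneg k e hs)]
  exact g4_kle hk e hs

/-- [BTR-G4] PROOF. As `BTP.lam_pos`. -/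
theorem lamk_pos {k e : ℕ} (hk : 1 ≤ k) (he : 1 ≤ e) : 0 < lamk e k := by
  have h1 : 0 < gk k 1 := gk_pos one_pos
  have hsub : Set.Ioc (0 : ℝ) 1 ⊆ Set.Ioi 0 := fun s hs => hs.1
  have h2 : ∫ z in Set.Ioc (0 : ℝ) 1, gk k (z ^ e) ≤ lamk e k := by
    unfold lamk
    refine setIntegral_mono_set (gk_integrable hk he) ?_ hsub.eventuallyLE
    refine (ae_restrict_iff' measurableSet_Ioi).mpr (Filter.Eventually.of_forall ?_)
    intro s hs
    exact g4_knonneg k e hs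
  have h3 : gk k 1 ≤ ∫ z in Set.Ioc (0 : ℝ) 1, gk k (z ^ e) := by
    have h4 : ∫ _z in Set.Ioc (0 : ℝ) 1, gk k 1 = gk k 1 := by simp
    rw [← h4]
    refine setIntegral_mono_on (by simp) ((gk_integrable hk he).mono_set hsub)
      measurableSet_Ioc ?_
    intro s hs
    have := g4_kanti k e (Set.mem_Ioi.mpr hs.1) (Set.mem_Ioi.mpr one_pos) hs.2
    simpa using this
  linarith

/-- [BTR-G4] (`gk_one`) -/
theorem lamk_one (d : ℕ) : lamk (d - 1) 1 = lam d := by
  unfold lamk lam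
  simp only [gk_one]

/-- the head of the integral -/
theorem g4_khead {d k : ℕ} (hd : 2 ≤ d) (hk : 1 ≤ k) {e : ℝ} (he : 0 < e) (he1 : e ≤ 1) :
    ∫ s in Set.Ioc (0 : ℝ) e, gk k (s ^ (d - 1)) ≤
      e * (Real.log 2 + ((d - 1 : ℕ) : ℝ) * (1 - Real.log e)) / 2 := by
  refine le_trans ?_ (g5_head hd he he1)
  have hsub : Set.Ioc (0 : ℝ) e ⊆ Set.Ioi 0 := fun s hs => hs.1
  refine setIntegral_mono_on ((gk_integrable hk (by omega)).mono_set hsub)
    ((gg_integrable hd).mono_set hsub) measurableSet_Ioc ?_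
  intro s hs
  exact g4_kle hk _ hs.1

/-- the tail of the integral -/
theorem g4_ktail {d k : ℕ} (hd : 2 ≤ d) (hk : 1 ≤ k) {b : ℝ} (hb : 1 ≤ b) :
    ∫ s in Set.Ioi b, gk k (s ^ (d - 1)) ≤ 2 * Real.exp (-b) := by
  refine le_trans ?_ (g5_tail hd hb)
  have hsub : Set.Ioi b ⊆ Set.Ioi (0 : ℝ) := fun s hs => by
    have : b < s := hs
    exact Set.mem_Ioi.mpr (by linarith)
  refine setIntegral_mono_on ((gk_integrable hk (by omega)).mono_set hsub)
    ((gg_integrable hd).mono_set hsub) measurableSet_Ioi ?_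
  intro s hs
  exact g4_kle hk _ (hsub hs)

theorem g4_ksplit {d k : ℕ} (hd : 2 ≤ d) (hk : 1 ≤ k) {a b : ℝ} (ha : 0 < a) (hab : a ≤ b) :
    lamk (d - 1) k = (∫ s in Set.Ioc (0 : ℝ) a, gk k (s ^ (d - 1))) +
      (∫ s in a..b, gk k (s ^ (d - 1))) + ∫ s in Set.Ioi b, gk k (s ^ (d - 1)) := by
  have hI := gk_integrable (k := k) (e := d - 1) hk (by omega)
  have h1 : lamk (d - 1) k = (∫ s in Set.Ioc (0 : ℝ) a, gk k (s ^ (d - 1))) +
      ∫ s in Set.Ioi a, gk k (s ^ (d - 1)) := by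
    unfold lamk
    rw [← setIntegral_union (Set.Ioc_disjoint_Ioi le_rfl) measurableSet_Ioi
      (hI.mono_set (fun s hs => hs.1))
      (hI.mono_set (fun s hs => Set.mem_Ioi.mpr (ha.trans hs))), Set.Ioc_union_Ioi_eq_Ioi ha.le]
  have h2 : ∫ s in Set.Ioi a, gk k (s ^ (d - 1)) = (∫ s in Set.Ioc a b, gk k (s ^ (d - 1))) +
      ∫ s in Set.Ioi b, gk k (s ^ (d - 1)) := by
    rw [← setIntegral_union (Set.Ioc_disjoint_Ioi le_rfl) measurableSet_Ioi
      (hI.mono_set (fun s hs => Set.mem_Ioi.mpr (ha.trans hs.1)))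
      (hI.mono_set (fun s hs => Set.mem_Ioi.mpr ((ha.trans_le hab).trans hs))),
      Set.Ioc_union_Ioi_eq_Ioi hab]
  rw [h1, h2, intervalIntegral.integral_of_le hab]
  ring

/-- [BTR-G4] Riemann sums. PROOF. As `BTP.riemann` (file BTP/G5.lean): `gk k (s^(d-1)) ≤ gg (s^(d-1))`, so the head and tail integrals of `gk` are at most those of `gg` (`g5_head`, `g5_tail`), and the function is antitone (`gk_anti`). -/
theorem riemann_k {d k : ℕ} (hd : 2 ≤ d) (hk : 1 ≤ k) {A : ℝ} (hA : 10 ≤ A) {M : ℕ} (hM : 2 * A * Real.log A ≤ M) :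
    A * lamk (d - 1) k - d * Real.log A - 1 ≤ ∑ m ∈ Finset.Icc 1 M, gk k (((m : ℝ) / A) ^ (d - 1)) := by
  have hA0 : 0 < A := by linarith
  have hlogA : 1 ≤ Real.log A := by
    rw [Real.le_log_iff_exp_le hA0]
    have := Real.exp_one_lt_d9
    linarith
  -- the sum is at least the integral
  have hanti : AntitoneOn (fun t : ℝ => gk k ((t / A) ^ (d - 1))) (Set.Icc 1 (1 + (M : ℝ))) := by
    intro x hx y hy hxy
    refine g4_kanti k (d - 1) (Set.mem_Ioi.mpr ?_) (Set.mem_Ioi.mpr ?_) ?_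
    · exact div_pos (by linarith [hx.1]) hA0
    · exact div_pos (by linarith [hy.1]) hA0
    · exact div_le_div_of_nonneg_right hxy hA0.le
  have h1 := hanti.integral_le_sum
  have h2 : ∑ i ∈ Finset.range M, gk k (((1 + (i : ℝ)) / A) ^ (d - 1)) =
      ∑ m ∈ Finset.Icc 1 M, gk k (((m : ℝ) / A) ^ (d - 1)) := by
    rw [Finset.range_eq_Ico]
    have := Finset.sum_Ico_add' (fun m : ℕ => gk k (((m : ℝ) / A) ^ (d - 1))) 0 M 1
    have h3 : Finset.Ico (0 + 1) (M + 1) = Finset.Icc 1 M := by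
      ext x; simp [Nat.lt_succ_iff]
    rw [h3] at this
    rw [← this]
    apply Finset.sum_congr rfl
    intro i _
    push_cast
    ring_nf
  have h3 : (∫ x in (1 : ℝ)..(1 + (M : ℝ)), gk k ((x / A) ^ (d - 1))) =
      A * ∫ s in (1 / A)..((1 + (M : ℝ)) / A), gk k (s ^ (d - 1)) := by
    rw [intervalIntegral.integral_comp_div (fun s => gk k (s ^ (d - 1))) hA0.ne']
    simp
  have hab : 1 / A ≤ (1 + (M : ℝ)) / A := by
    apply div_le_div_of_nonneg_right _ hA0.le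
    have : (0 : ℝ) ≤ M := Nat.cast_nonneg _
    linarith
  have h4 := g4_ksplit hd hk (a := 1 / A) (b := (1 + (M : ℝ)) / A) (by positivity) hab
  have h5 := g4_khead hd hk (e := 1 / A) (by positivity) (by
    rw [div_le_one hA0]; linarith)
  have hb : 2 * Real.log A ≤ (1 + (M : ℝ)) / A := by
    rw [le_div_iff₀ hA0]
    nlinarith
  have h6 := g4_ktail hd hk (b := (1 + (M : ℝ)) / A) (by linarith)
  have h7 : Real.exp (-((1 + (M : ℝ)) / A)) ≤ 1 / (A * A) := by
    calc Real.exp (-((1 + (M : ℝ)) / A)) ≤ Real.exp (-(2 * Real.log A)) :=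
          Real.exp_le_exp.mpr (by linarith)
      _ = 1 / (A * A) := by
          rw [Real.exp_neg, two_mul, Real.exp_add, Real.exp_log hA0, one_div]
  -- assemble
  have h8 : A * (∫ s in Set.Ioi ((1 + (M : ℝ)) / A), gk k (s ^ (d - 1))) ≤ 1 := by
    have : A * (∫ s in Set.Ioi ((1 + (M : ℝ)) / A), gk k (s ^ (d - 1))) ≤
        A * (2 * (1 / (A * A))) :=
      mul_le_mul_of_nonneg_left (h6.trans (by linarith)) hA0.le
    refine this.trans ?_
    have h9 : A * (2 * (1 / (A * A))) = 2 / A := by field_simp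
    rw [h9, div_le_one hA0]
    linarith
  have h9 : A * (∫ s in Set.Ioc (0 : ℝ) (1 / A), gk k (s ^ (d - 1))) ≤ d * Real.log A := by
    have h10 := mul_le_mul_of_nonneg_left h5 hA0.le
    refine h10.trans ?_
    have h11 : A * (1 / A * (Real.log 2 + ((d - 1 : ℕ) : ℝ) * (1 - Real.log (1 / A))) / 2) =
        (Real.log 2 + ((d - 1 : ℕ) : ℝ) * (1 + Real.log A)) / 2 := by
      rw [one_div, Real.log_inv]
      field_simp
      ring
    rw [h11]
    have h12 : ((d - 1 : ℕ) : ℝ) = (d : ℝ) - 1 := by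
      rw [Nat.cast_sub (by omega)]; simp
    rw [h12]
    have hd2 : (2 : ℝ) ≤ d := by exact_mod_cast hd
    have hl2 : Real.log 2 ≤ 1 := by
      have := Real.log_two_lt_d9
      linarith
    nlinarith
  have h10 : A * lamk (d - 1) k = A * (∫ s in Set.Ioc (0 : ℝ) (1 / A), gk k (s ^ (d - 1))) +
      A * (∫ s in (1 / A)..((1 + (M : ℝ)) / A), gk k (s ^ (d - 1))) +
      A * (∫ s in Set.Ioi ((1 + (M : ℝ)) / A), gk k (s ^ (d - 1))) := by
    rw [h4]; ring
  rw [h3, h2] at h1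
  linarith

end BTR
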