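import Pool.Agent.BTR.D2
import Pool.Agent.BTS.D1
import Pool.Agent.BTS.E3

set_option autoImplicit false

/-! # The one-corner theorem: definitions

Long directions `Fin d` (`d = D` in the plan), thick directions `Fin l`, sites in `Z^(d+l)`.
Columns are boxes `T : Box d` (meaning `T × N^l`), small boxes are boxes of `Z^(d+l)` of total extent `< h`. -/

open scoped Classical
open Finset

namespace BTR
open BTP BTS

variable {d : ℕ}

/-- the projection of a box to the long directions -/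
def pr {l : ℕ} (S : Box (d + l)) : Box d := fun j => S (lo d l j.1, j.2)

/-- the projection of a site -/
def ps {l : ℕ} (v : Site (d + l)) : Site d := fun i => v (lo d l i)

/-- the foot of the column over `T`: all thick coordinates are `1` -/
def emb (l : ℕ) (T : Box d) : Box (d + l) :=
  fun j => Fin.addCases (fun i => T (i, j.2)) (fun _ => if j.2 then 1 else -1) j.1

/-- the box over `Q` with thick coordinates in `[1, k]` -/
def cyl (l k : ℕ) (Q : Box d) : Box (d + l) :=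
  fun j => Fin.addCases (fun i => Q (i, j.2)) (fun _ => if j.2 then (k : ℤ) else -1) j.1

/-- the thick coordinates are in `[1, k]` -/
def Rg (l k : ℕ) (V : Finset (Site (d + l))) : Prop :=
  ∀ v ∈ V, ∀ i : Fin l, 1 ≤ v (hi d l i) ∧ v (hi d l i) ≤ k

/-- columns generated by merges; each site of `W` is used once -/
inductive CGen (l h : ℕ) : Box d → Finset (Site (d + l)) → Prop
  | base {S : Box (d + l)} {W : Finset (Site (d + l))} (hS : Gen S W) (h1 : (h : ℤ) ≤ Ys S)
      (h2 : Ys S ≤ 2 * h) : CGen l h (pr S) W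
  | cs {T : Box d} {S : Box (d + l)} {W W' : Finset (Site (d + l))} (hT : CGen l h T W)
      (hS : Gen S W') (hh : Ys S < h) (hd : Disjoint W W') (hn : near (emb l T) S) :
      CGen l h (T ⊔ pr S) (W ∪ W')
  | cc {T T' : Box d} {W W' : Finset (Site (d + l))} (hT : CGen l h T W) (hT' : CGen l h T' W')
      (hd : Disjoint W W') (hn : near T T') : CGen l h (T ⊔ T') (W ∪ W')

/-- the event: the column `Q` is generated -/
def CIG (l h : ℕ) (Q : Box d) (U : Finset (Site (d + l))) : Prop := ∃ W, W ⊆ U ∧ CGen l h Q W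

/-- growth from the column `T` to a column containing `Q`, by merges with small boxes and with columns which do not
contain `Qt` -/
inductive SGr (l h : ℕ) (Qt : Box d) : Box d → Box d → Finset (Site (d + l)) → Prop
  | refl {T Q : Box d} (hQ : Q ≤ T) : SGr l h Qt T Q ∅
  | small {T Q : Box d} {S : Box (d + l)} {W' W : Finset (Site (d + l))} (hS : Gen S W')
      (hh : Ys S < h) (hn : near (emb l T) S) (hg : SGr l h Qt (T ⊔ pr S) Q W)
      (hd : Disjoint W' W) : SGr l h Qt T Q (W' ∪ W)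
  | col {T Q R : Box d} {W' W : Finset (Site (d + l))} (hR : CGen l h R W') (hQR : ¬ Qt ≤ R)
      (hn : near T R) (hg : SGr l h Qt (T ⊔ R) Q W) (hd : Disjoint W' W) :
      SGr l h Qt T Q (W' ∪ W)

/-- the event: growth from `T` to `Q` (side columns do not contain `Q`) -/
def Gw (l h : ℕ) (T Q : Box d) (U : Finset (Site (d + l))) : Prop := ∃ W, W ⊆ U ∧ SGr l h Q T Q W

/-- the event: the box `S` is generated by the site `v` and sites of `U` -/
def Gv {n : ℕ} (S : Box n) (v : Site n) (U : Finset (Site n)) : Prop := ∃ W, W ⊆ U ∧ Gen S (insert v W)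

/-- `v` is a corner of `S` -/
def Crn {n : ℕ} (S : Box n) (v : Site n) : Prop := ∀ i, cc v (i, true) = S (i, true) ∨ cc v (i, false) = S (i, false)

/-- the slice of `U` at height `t` -/
noncomputable def slc (l : ℕ) (U : Finset (Site (d + l))) (t : Fin l → ℤ) : Finset (Site d) :=
  (U.filter (fun v => ∀ i, v (hi d l i) = t i)).image ps

/-- the heights `1` and `1 + e_i` -/
def Hs (l : ℕ) : Finset (Fin l → ℤ) :=
  insert (fun _ => 1) (Finset.univ.image (fun i : Fin l => Function.update (fun _ : Fin l => (1 : ℤ)) i 2))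

/-- number of unexplored trigger sites in the first layer (at all heights of `Hs`) -/
noncomputable def n1 (l : ℕ) (T : Box d) (U : Finset (Site (d + l))) (j : Dir d) : ℕ :=
  ∑ t ∈ Hs l, nL T (slc l U t) j 1
/-- number of unexplored trigger sites in the second layer (height `1`) -/
noncomputable def n2 (l : ℕ) (T : Box d) (U : Finset (Site (d + l))) (j : Dir d) : ℕ :=
  nL T (slc l U (fun _ => 1)) j 2
/-- number of unexplored trigger sites over an edge (height `1`) -/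
noncomputable def n3 (l : ℕ) (T : Box d) (U : Finset (Site (d + l))) (i j : Dir d) : ℕ :=
  nC T (slc l U (fun _ => 1)) i j

/-- the directions in which `T'` is bigger than `T` -/
def grw (T T' : Box d) : Finset (Dir d) := Finset.univ.filter (fun j => T j < T' j)

/-- the parameters of the proof -/
structure Pc (d l : ℕ) where
  (q A p ka K H H1 c1 c0 Z B P gam C3 R0 cb e0 E : ℝ)
  (h kk : ℕ)
  hd : 2 ≤ d
  hA : 10 ≤ A
  hq : 0 < q
  hqA : q * A ^ (d - 1) = 1
  hp : p = 1 - Real.exp (-q)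
  hp2 : p ≤ 1 / 2
  hh : 1 ≤ h
  hkk : (kk : ℝ) ≤ A ^ 2
  hka : 10 ^ (4 * (d + l)) ≤ ka
  hK : 8 ≤ K
  hH1 : 100 ≤ H1
  hKH : K ^ 2 ≤ H1
  hH : H = 2 * H1
  hZ : 1 ≤ Z
  hc1 : 0 < c1
  hc1Z : ∀ z, 0 ≤ z → z ≤ Z → 128 * ((l : ℝ) + 2) * c1 * Real.exp (((l : ℝ) + 2) * z) ≤ (1 + z) ^ 3
  hc0 : c0 = gk (l + 1) Z - c1 / (1 + Z) ^ 2
  hc0n : 0 ≤ c0
  hc01 : c1 + c0 ≤ gk (l + 1) 1 / 2
  hzH : q * (2 * H) ^ (d - 1) ≤ 1 / 8
  hHB : H1 ≤ B
  hB : 4 ^ d * Z * A ≤ B
  hB2 : d * A * lamk (d - 1) (l + 1) ≤ B * ((gk (l + 1) 1) / 2)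
  hgam0 : 0 ≤ gam
  hgam : gk (l + 1) (q * H ^ (d - 1)) ≤ gam
  hcnt : 16 * B ^ (4 * d + 4 * l) * Real.exp (2 * gam) ≤ Real.exp (P / 2)
  hP : 0 < P
  hbase : ∀ Y m : ℕ, h ≤ Y → Y ≤ 2 * h + 2 → Y + 2 ≤ 2 * m →
    (((Y : ℝ) + 1) ^ (d + l) * p) ^ m ≤ Real.exp (-(2 * P) - ((Y : ℝ) + d) * gam)
  hrho : 4096 * ka ^ 2 * (1 + Z) ≤ H1
  hHs : 10 ^ (8 * (d + l)) * (h : ℝ) * (2 * h + 7) ^ (9 * (d + l)) * (1 + Z) ^ 2 ≤ H1
  hC3 : 2 * ka + 3000 * ((l : ℝ) + 1) * (d : ℝ) ^ 2 + 10 ^ (8 * (d + l)) ≤ C3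
  hR0 : 16384 * ((l : ℝ) + 1) ^ 2 * Real.exp ((l : ℝ) + 2) ≤ R0
  hcb : cb = Real.exp (-(((l : ℝ) + 2) * 4 ^ d)) / (16384 * ((l : ℝ) + 1) ^ 2)
  hIa : 128 * ((l : ℝ) + 1) ^ 2 * C3 * (1 + R0) * Real.sqrt R0 * Real.exp (((l : ℝ) + 2) * R0 / 4) ≤ K
  hIb : 2 * C3 * Real.exp (((l : ℝ) + 2) / 8) ≤ cb * Real.sqrt H1
  he0 : 0 < e0
  hIIa : ∀ z, 0 ≤ z → C3 * (1 + R0 * z) * (1 + 4 ^ d * R0 * z) ^ 2 * Real.exp (-z) ≤
    c1 * Real.sqrt (e0 * A)
  hIIb : C3 * (1 + Z) * Real.exp (((l : ℝ) + 1) * Z) ≤ cb * Real.sqrt (e0 * A)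
  hIIc : Z * ((1 + K / Real.sqrt (e0 * A) + 2 * H / (e0 * A)) ^ d - 1) ≤ 1 / 2
  hE : 1 ≤ E
  he0E : 8 * e0 * (4 * E) ^ (d - 2) ≤ 1
  hEA : 8 * d * lamk (d - 1) (l + 1) ≤ E * gk (l + 1) 1
  hEA2 : H1 ≤ E * A
  hLm : d * Real.log B + (4 * h + d + 8) * gam < d * A * lamk (d - 1) (l + 1)
  hKA : d * (K / Real.sqrt A + H / A) ≤ 1
  hsm : 100 * (2 * h + 2 * d + 2) * C3 * (1 + Z) ≤ Real.sqrt H1

namespace Pc
variable {l : ℕ} (a : Pc d l)

/-- the reduced step cost -/
noncomputable def f0 (z : ℝ) : ℝ := gk (l + 1) z - a.c1 / (1 + z) ^ 2 - a.c0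
/-- the step cost -/
noncomputable def G (y : ℝ) : ℝ := max (a.f0 (min (a.q * y) a.Z)) 0
/-- the gauge -/
noncomputable def f : ℕ → ℝ := ph a.K a.H
/-- the potential -/
noncomputable def Ps (T : Box d) : ℝ := Psi a.G a.f (sd T)
/-- the value of the critical potential, `d A λ` -/
noncomputable def Lm : ℝ := d * a.A * lamk (d - 1) (l + 1)
/-- `max (sd T i) H₁` -/
noncomputable def X (T : Box d) (i : Fin d) : ℝ := xt a.H1 (sd T) i
/-- the faces -/
noncomputable def z (T : Box d) (i : Fin d) : ℝ := face a.q (a.X T) i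
/-- the least side -/
noncomputable def Xm (T : Box d) : ℝ := sInf (Set.range (a.X T))
/-- the least face -/
noncomputable def zm (T : Box d) : ℝ := sInf (Set.range (a.z T))
/-- the faces in the gauge -/
noncomputable def zf (T : Box d) (i : Fin d) : ℝ := a.q * ∏ m ∈ Finset.univ.erase i, a.f (sd T m)
/-- the domain -/
def InD (T : Box d) : Prop := (∀ i, a.zf T i ≤ a.Z) ∧ ∀ i, (sd T i : ℝ) ≤ a.B
/-- the value of a blocked direction -/
noncomputable def th (T : Box d) (i : Fin d) : ℝ :=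
  min (1 / 64) (a.ka * Real.sqrt ((1 + a.z T i) / a.Xm T) * Real.exp (a.z T i))
/-- a lower bound for all `th` -/
noncomputable def thm (T : Box d) : ℝ :=
  min (1 / 64) (a.ka * Real.sqrt ((1 + a.zm T) / a.Xm T) * Real.exp (a.zm T))
/-- the logarithm of the value of one level -/
noncomputable def gm (T : Box d) (i : Fin d) : ℝ :=
  gk (l + 1) (a.z T i) - 2 * a.th T i * Real.exp (-(((l : ℝ) + 2) * a.z T i))
/-- the unit of the required slack -/
noncomputable def rr (T : Box d) (i : Fin d) : ℝ :=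
  (1 + a.z T i) * Real.exp (-(a.zm T)) / Real.sqrt (a.Xm T)
/-- the required slack -/
noncomputable def rq (T : Box d) (i : Fin d) : ℝ :=
  a.C3 * (1 + a.z T i) * Real.exp (-(a.zm T)) / Real.sqrt (a.Xm T)
/-- the bound for the compounds -/
noncomputable def NC (T : Box d) (i : Fin d) : ℝ := 10 ^ (8 * (d + l)) * a.rr T i
/-- the values of the directions for given counts -/
noncomputable def bT (T : Box d) (m1 m2 : Dir d → ℝ) (j : Dir d) : ℝ :=
  bv a.q (Real.exp (a.gm T j.1)) (a.th T j.1) (m1 j) (m2 j)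
/-- the values of the edges for given counts -/
noncomputable def eT (T : Box d) (m3 : Dir d → Dir d → ℝ) (i j : Dir d) : ℝ :=
  a.q * m3 i j * Real.exp (a.gm T i.1 + a.gm T j.1)
/-- the values of the directions and edges in the state `(T, U)` -/
noncomputable def bD (T : Box d) (U : Finset (Site (d + l))) : Dir d → ℝ :=
  a.bT T (fun j => n1 l T U j) (fun j => n2 l T U j)
noncomputable def eD (T : Box d) (U : Finset (Site (d + l))) : Dir d → Dir d → ℝ :=
  a.eT T (fun i j => n3 l T U i j)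
/-- the value of the state `(T, U)` -/
noncomputable def Ph (T Q : Box d) (U : Finset (Site (d + l))) : ℝ :=
  Phi (grw T Q) (a.bD T U) (a.eD T U)
/-- the bound for the state `(T, U)` -/
noncomputable def Fp (T Q : Box d) (U : Finset (Site (d + l))) : ℝ :=
  Real.exp (a.Ps T - a.Ps Q) * a.Ph T Q U
/-- the probability of the growth from `T` to `Q` with the sites of `U` -/
noncomputable def V (T Q : Box d) (U : Finset (Site (d + l))) : ℝ := Pr U a.p (Gw l a.h T Q)

end Pc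

end BTR
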