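import Pool.Agent.BTR.G8a
import Pool.Agent.BTR.D1
import Pool.Agent.BTR.G3

set_option autoImplicit false

open scoped Classical
open Finset

namespace BTR
open BTP BTS

variable {d lt : ℕ} (a : Pc d lt)

/-- [BTR-G8b] -/
theorem G_eq {y : ℝ} (hy : 0 < y) : a.G y = a.f0 (min (a.q * y) a.Z) := by
  have hq := a.hq
  have hZ := a.hZ
  have h1 : 0 < min (a.q * y) a.Z := lt_min (mul_pos hq hy) (by linarith)
  exact max_eq_left (f0_nonneg a h1 (min_le_right _ _))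

theorem G_zero {y : ℝ} (hy : a.Z ≤ a.q * y) : a.G y = 0 := by
  show max (a.f0 (min (a.q * y) a.Z)) 0 = 0
  rw [min_eq_right hy, f0_Z, max_self]

/-- [BTR-G8b] PROOF. `min (a x + b y) Z ≥ a min x Z + b min y Z` and `f₀` is antitone and convex on `(0, Z]`. -/
theorem G_convex : ConvexOn ℝ (Set.Ioi 0) a.G := by
  have hq := a.hq
  have hZ := a.hZ
  refine ⟨convex_Ioi 0, ?_⟩
  intro x hx y hy s t hs ht hst
  have hx0 : 0 < x := hx
  have hy0 : 0 < y := hy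
  have hz0 : 0 < s • x + t • y := (convex_Ioi 0) hx hy hs ht hst
  rw [G_eq a hx0, G_eq a hy0, G_eq a hz0]
  have hmx : 0 < min (a.q * x) a.Z := lt_min (mul_pos hq hx0) (by linarith)
  have hmy : 0 < min (a.q * y) a.Z := lt_min (mul_pos hq hy0) (by linarith)
  have hmz : 0 < min (a.q * (s • x + t • y)) a.Z := lt_min (mul_pos hq hz0) (by linarith)
  have hmem1 : min (a.q * x) a.Z ∈ Set.Ioc 0 a.Z := ⟨hmx, min_le_right _ _⟩
  have hmem2 : min (a.q * y) a.Z ∈ Set.Ioc 0 a.Z := ⟨hmy, min_le_right _ _⟩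
  have hmem3 : min (a.q * (s • x + t • y)) a.Z ∈ Set.Ioc 0 a.Z := ⟨hmz, min_le_right _ _⟩
  have hmem4 : s • min (a.q * x) a.Z + t • min (a.q * y) a.Z ∈ Set.Ioc 0 a.Z :=
    (f0_convex a).1 hmem1 hmem2 hs ht hst
  have h1 : s • min (a.q * x) a.Z + t • min (a.q * y) a.Z ≤ min (a.q * (s • x + t • y)) a.Z := by
    simp only [smul_eq_mul]
    refine le_min ?_ ?_
    · have e1 : s * min (a.q * x) a.Z ≤ s * (a.q * x) :=
        mul_le_mul_of_nonneg_left (min_le_left _ _) hs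
      have e2 : t * min (a.q * y) a.Z ≤ t * (a.q * y) :=
        mul_le_mul_of_nonneg_left (min_le_left _ _) ht
      linarith
    · have e1 : s * min (a.q * x) a.Z ≤ s * a.Z :=
        mul_le_mul_of_nonneg_left (min_le_right _ _) hs
      have e2 : t * min (a.q * y) a.Z ≤ t * a.Z :=
        mul_le_mul_of_nonneg_left (min_le_right _ _) ht
      have e3 : s * a.Z + t * a.Z = a.Z := by rw [← add_mul, hst, one_mul]
      linarith
  exact (f0_anti a hmem4 hmem3 h1).trans ((f0_convex a).2 hmem1 hmem2 hs ht hst)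

theorem G_anti : AntitoneOn a.G (Set.Ioi 0) := by
  have hq := a.hq
  have hZ := a.hZ
  intro x hx y hy hxy
  have hx0 : 0 < x := hx
  have hy0 : 0 < y := hy
  rw [G_eq a hx0, G_eq a hy0]
  have hmx : 0 < min (a.q * x) a.Z := lt_min (mul_pos hq hx0) (by linarith)
  have hmy : 0 < min (a.q * y) a.Z := lt_min (mul_pos hq hy0) (by linarith)
  exact f0_anti a ⟨hmx, min_le_right _ _⟩ ⟨hmy, min_le_right _ _⟩
    (min_le_min_right _ (mul_le_mul_of_nonneg_left hxy hq.le))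

theorem G_nonneg (y : ℝ) : 0 ≤ a.G y := by
  exact le_max_right _ _

theorem g8b_le {y : ℝ} (hy : 0 < y) (h : a.q * y ≤ a.Z) :
    a.G y ≤ gk (lt + 1) (a.q * y) - a.c1 / (1 + a.q * y) ^ 2 := by
  have hc0 := a.hc0n
  rw [G_eq a hy, min_eq_left h]
  show gk (lt + 1) (a.q * y) - a.c1 / (1 + a.q * y) ^ 2 - a.c0 ≤ _
  linarith

/-- [BTR-G8b] (`c₁/(1+z)² + c₀ ≥ 0`; for `q y > Z` the left side is `0`) -/
theorem G_le {y : ℝ} (hy : 0 < y) : a.G y ≤ gk (lt + 1) (a.q * y) := by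
  have hq := a.hq
  rcases le_total (a.q * y) a.Z with h | h
  · refine (g8b_le a hy h).trans ?_
    have h1 : 0 ≤ a.c1 / (1 + a.q * y) ^ 2 := div_nonneg a.hc1.le (sq_nonneg _)
    linarith
  · rw [G_zero a h]
    exact gk_nonneg (k := lt + 1) (mul_pos hq hy)

/-- [BTR-G8b] (`hc0n`) -/
theorem G_le' {y : ℝ} (hy : 0 < y) (h : a.q * y ≤ a.Z) :
    a.G y ≤ gk (lt + 1) (a.q * y) - a.c1 / (1 + a.q * y) ^ 2 := by
  have hc0 := a.hc0n
  rw [G_eq a hy, min_eq_left h]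
  show gk (lt + 1) (a.q * y) - a.c1 / (1 + a.q * y) ^ 2 - a.c0 ≤ _
  linarith

/-- [BTR-G8b] lower bound. PROOF. Equality if `q y ≤ Z`; if `q y > Z`: `0 = f₀(Z) = g(Z) - c₁/(1+Z)² - c₀` and `g(q y) ≤ g(Z)`. -/
theorem G_ge {y : ℝ} (hy : 0 < y) :
    gk (lt + 1) (a.q * y) - a.c1 / (1 + min (a.q * y) a.Z) ^ 2 - a.c0 ≤ a.G y := by
  have hq := a.hq
  have hZ := a.hZ
  rcases le_total (a.q * y) a.Z with h | h
  · rw [G_eq a hy, min_eq_left h]
    exact le_rfl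
  · rw [G_zero a h, min_eq_right h]
    have h1 := gk_anti (k := lt + 1) (by linarith : (0 : ℝ) < a.Z) h
    have h2 := f0_Z a
    have h3 : gk (lt + 1) a.Z - a.c1 / (1 + a.Z) ^ 2 - a.c0 = 0 := h2
    linarith

end BTR
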