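import Pool.Agent.BTR.V11a
import Pool.Agent.BTR.G8
import Pool.Agent.BTP.V0
import Pool.Agent.BTP.B1
import Pool.Agent.BTS.E3

set_option autoImplicit false

open scoped Classical
open Finset

namespace BTR
open BTP BTS

variable {d lt : ℕ} (a : Pc d lt)

/-! ## Gauge and simple facts on the parameters -/

theorem v11b_K_nonneg : 0 ≤ a.K := le_trans (by norm_num) a.hK

theorem v11b_X_le_f (T : Box d) (i : Fin d) : a.X T i ≤ a.f (sd T i) := by
  have h1 := f_ge a T i
  have h2 : 0 ≤ a.K * Real.sqrt (a.X T i) := mul_nonneg (v11b_K_nonneg a) (Real.sqrt_nonneg _)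
  linarith

theorem v11b_f_pos (m : ℕ) : 0 < a.f m := (gp a).pos m

theorem X_ge (T : Box d) (i : Fin d) : a.H1 ≤ a.X T i := by
  exact le_max_right _ _

theorem X_pos (T : Box d) (i : Fin d) : 0 < a.X T i := by
  have h1 := X_ge a T i
  have h2 := a.hH1
  linarith

theorem X_ge_sd (T : Box d) (i : Fin d) : (sd T i : ℝ) ≤ a.X T i := by
  exact le_max_left _ _

theorem X_mono {T Q : Box d} (hT : Ne T) (h : T ≤ Q) (i : Fin d) : a.X T i ≤ a.X Q i := by
  unfold Pc.X xt
  exact max_le_max (by exact_mod_cast sd_mono hT h i) le_rfl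

theorem z_pos (T : Box d) (i : Fin d) : 0 < a.z T i := by
  unfold Pc.z face
  exact mul_pos a.hq (Finset.prod_pos fun l _ => X_pos a T l)

theorem z_mono {T Q : Box d} (hT : Ne T) (h : T ≤ Q) (i : Fin d) : a.z T i ≤ a.z Q i := by
  unfold Pc.z face
  refine mul_le_mul_of_nonneg_left ?_ a.hq.le
  exact Finset.prod_le_prod (fun l _ => (X_pos a T l).le) fun l _ => X_mono a hT h l

/-- [BTR-V11b] `z_i X_i = q ∏ X_l` for all `i` -/
theorem z_mul_X (T : Box d) (i j : Fin d) : a.z T i * a.X T i = a.z T j * a.X T j := by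
  unfold Pc.z face
  rw [mul_assoc, mul_assoc, Finset.prod_erase_mul _ _ (Finset.mem_univ i),
    Finset.prod_erase_mul _ _ (Finset.mem_univ j)]

/-- [BTR-V11b] (`X ≤ φ`) -/
theorem z_le_zf (T : Box d) (i : Fin d) : a.z T i ≤ a.zf T i := by
  unfold Pc.z face Pc.zf
  refine mul_le_mul_of_nonneg_left ?_ a.hq.le
  exact Finset.prod_le_prod (fun l _ => (X_pos a T l).le) fun l _ => v11b_X_le_f a T l

theorem zf_le (T : Box d) (i : Fin d) : a.zf T i ≤ 4 ^ (d - 1) * a.z T i := by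
  unfold Pc.z face Pc.zf
  have h1 : ∏ l ∈ Finset.univ.erase i, a.f (sd T l) ≤ ∏ l ∈ Finset.univ.erase i, (4 * a.X T l) :=
    Finset.prod_le_prod (fun l _ => (v11b_f_pos a _).le) fun l _ => f_le a T l
  have h2 : ∏ l ∈ Finset.univ.erase i, (4 * a.X T l) =
      4 ^ (d - 1) * ∏ l ∈ Finset.univ.erase i, a.X T l := by
    rw [Finset.prod_mul_distrib, Finset.prod_const, Finset.card_erase_of_mem (Finset.mem_univ i),
      Finset.card_univ, Fintype.card_fin]
  rw [h2] at h1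
  calc a.q * ∏ l ∈ Finset.univ.erase i, a.f (sd T l)
      ≤ a.q * (4 ^ (d - 1) * ∏ l ∈ Finset.univ.erase i, a.X T l) :=
        mul_le_mul_of_nonneg_left h1 a.hq.le
    _ = 4 ^ (d - 1) * (a.q * ∏ l ∈ Finset.univ.erase i, a.X T l) := by ring

theorem zf_pos (T : Box d) (i : Fin d) : 0 < a.zf T i := by
  unfold Pc.zf
  exact mul_pos a.hq (Finset.prod_pos fun l _ => v11b_f_pos a _)

/-- [BTR-V11b] PROOF. The factor of the side `l ≠ i` with `X_l = M` is at least `X_l (1 + K/√X_l)` (`f_ge`), the others are at least `X`. -/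
theorem zf_ge (T : Box d) {i l : Fin d} (hl : l ≠ i) :
    a.z T i * (1 + a.K / Real.sqrt (a.X T l)) ≤ a.zf T i := by
  unfold Pc.z face Pc.zf
  have hmem : l ∈ Finset.univ.erase i := Finset.mem_erase.2 ⟨hl, Finset.mem_univ l⟩
  rw [← Finset.mul_prod_erase _ (fun l => a.X T l) hmem,
    ← Finset.mul_prod_erase _ (fun l => a.f (sd T l)) hmem]
  have hX := X_pos a T l
  have hs : 0 < Real.sqrt (a.X T l) := Real.sqrt_pos.2 hX
  have h1 : a.X T l * (1 + a.K / Real.sqrt (a.X T l)) = a.X T l + a.K * Real.sqrt (a.X T l) := by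
    have h2 : Real.sqrt (a.X T l) * Real.sqrt (a.X T l) = a.X T l := Real.mul_self_sqrt hX.le
    have h3 : a.X T l * (a.K / Real.sqrt (a.X T l)) = a.K * Real.sqrt (a.X T l) := by
      rw [← mul_div_assoc, div_eq_iff hs.ne', mul_assoc, h2]
      ring
    rw [mul_add, mul_one, h3]
  have h4 : ∏ k ∈ (Finset.univ.erase i).erase l, a.X T k ≤
      ∏ k ∈ (Finset.univ.erase i).erase l, a.f (sd T k) :=
    Finset.prod_le_prod (fun k _ => (X_pos a T k).le) fun k _ => v11b_X_le_f a T k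
  have h5 : 0 ≤ ∏ k ∈ (Finset.univ.erase i).erase l, a.X T k :=
    Finset.prod_nonneg fun k _ => (X_pos a T k).le
  have h6 := f_ge a T l
  calc a.q * (a.X T l * ∏ k ∈ (Finset.univ.erase i).erase l, a.X T k) *
        (1 + a.K / Real.sqrt (a.X T l))
      = a.q * ((a.X T l * (1 + a.K / Real.sqrt (a.X T l))) *
        ∏ k ∈ (Finset.univ.erase i).erase l, a.X T k) := by ring
    _ = a.q * ((a.X T l + a.K * Real.sqrt (a.X T l)) *
        ∏ k ∈ (Finset.univ.erase i).erase l, a.X T k) := by rw [h1]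
    _ ≤ a.q * (a.f (sd T l) * ∏ k ∈ (Finset.univ.erase i).erase l, a.f (sd T k)) := by
        refine mul_le_mul_of_nonneg_left ?_ a.hq.le
        exact mul_le_mul h6 h4 h5 (v11b_f_pos a _).le

/-- [BTR-V11b] the domain is closed under smaller boxes -/
theorem InD_mono {T Q : Box d} (hT : Ne T) (h : T ≤ Q) (hQ : a.InD Q) : a.InD T := by
  refine ⟨fun i => le_trans ?_ (hQ.1 i), fun i => le_trans ?_ (hQ.2 i)⟩
  · unfold Pc.zf
    refine mul_le_mul_of_nonneg_left ?_ a.hq.le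
    exact Finset.prod_le_prod (fun l _ => (v11b_f_pos a _).le)
      fun l _ => (gp a).mono (sd_mono hT h l)
  · exact_mod_cast sd_mono hT h i

/-- [BTR-V11b] PROOF. `zf = q φ(1)^{d-1}`, `φ(1) = 1 + K + H ≤ 2 H`; `hzH`, `1 ≤ Z`; `1 ≤ H₁ ≤ B`. -/
theorem InD_cc (v : Site d) : a.InD (cc v) := by
  have hK0 := v11b_K_nonneg a
  have hH1 := a.hH1
  have hKH := a.hKH
  have hH := a.hH
  have hZ := a.hZ
  have hKle : a.K ≤ a.H1 - 1 := by nlinarith
  refine ⟨fun i => ?_, fun i => ?_⟩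
  · unfold Pc.zf
    have h1 : ∀ l : Fin d, a.f (sd (cc v) l) ≤ 2 * a.H := by
      intro l
      rw [sd_cc]
      unfold Pc.f ph
      rw [Nat.cast_one, Real.sqrt_one]
      linarith
    have h2 : ∏ l ∈ Finset.univ.erase i, a.f (sd (cc v) l) ≤ (2 * a.H) ^ (d - 1) := by
      have h3 : ∏ l ∈ Finset.univ.erase i, a.f (sd (cc v) l) ≤ ∏ _l ∈ Finset.univ.erase i, (2 * a.H) :=
        Finset.prod_le_prod (fun l _ => (v11b_f_pos a _).le) fun l _ => h1 l
      rwa [Finset.prod_const, Finset.card_erase_of_mem (Finset.mem_univ i),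
        Finset.card_univ, Fintype.card_fin] at h3
    have h4 := mul_le_mul_of_nonneg_left h2 a.hq.le
    have h5 := a.hzH
    linarith
  · rw [sd_cc]
    have := a.hHB
    push_cast
    linarith

/-- [BTR-V11b] the least side and the least face are attained -/
theorem Xm_spec (T : Box d) : (∃ i, a.Xm T = a.X T i) ∧ ∀ i, a.Xm T ≤ a.X T i := by
  have hd := a.hd
  have : Nonempty (Fin d) := ⟨⟨0, by omega⟩⟩
  unfold Pc.Xm
  have hf : (Set.range (a.X T)).Finite := Set.finite_range _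
  have hne : (Set.range (a.X T)).Nonempty := Set.range_nonempty _
  refine ⟨?_, fun i => csInf_le hf.bddBelow (Set.mem_range_self i)⟩
  obtain ⟨i, hi⟩ := hne.csInf_mem hf
  exact ⟨i, hi.symm⟩

theorem zm_spec (T : Box d) : (∃ i, a.zm T = a.z T i) ∧ ∀ i, a.zm T ≤ a.z T i := by
  have hd := a.hd
  have : Nonempty (Fin d) := ⟨⟨0, by omega⟩⟩
  unfold Pc.zm
  have hf : (Set.range (a.z T)).Finite := Set.finite_range _
  have hne : (Set.range (a.z T)).Nonempty := Set.range_nonempty _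
  refine ⟨?_, fun i => csInf_le hf.bddBelow (Set.mem_range_self i)⟩
  obtain ⟨i, hi⟩ := hne.csInf_mem hf
  exact ⟨i, hi.symm⟩

/-- [BTR-V11b] (`z_mul_X`) -/
theorem zm_eq {T : Box d} {k : Fin d} (hk : ∀ l, a.X T l ≤ a.X T k) : a.zm T = a.z T k := by
  refine le_antisymm ((zm_spec a T).2 k) ?_
  obtain ⟨i, hi⟩ := (zm_spec a T).1
  rw [hi]
  have h1 := z_mul_X a T k i
  have h2 : a.z T k * a.X T k ≤ a.z T i * a.X T k := by
    rw [h1]
    exact mul_le_mul_of_nonneg_left (hk i) (z_pos a T i).le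
  exact le_of_mul_le_mul_right h2 (X_pos a T k)

theorem Xm_ge (T : Box d) : a.H1 ≤ a.Xm T := by
  obtain ⟨i, hi⟩ := (Xm_spec a T).1
  rw [hi]
  exact X_ge a T i

theorem zm_pos (T : Box d) : 0 < a.zm T := by
  obtain ⟨i, hi⟩ := (zm_spec a T).1
  rw [hi]
  exact z_pos a T i

/-- [BTR-V11b] PROOF. `(1 + z_l)/X_i = 1/X_i + z_l/X_i = 1/X_i + z_i/X_l` by `z_mul_X`. -/
theorem one_add_z_div (T : Box d) (i l : Fin d) :
    (1 + a.z T l) / a.X T i ≤ (1 + a.z T i) / a.Xm T := by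
  have hXm : 0 < a.Xm T := by
    have h1 := Xm_ge a T
    have h2 := a.hH1
    linarith
  have hXi := X_pos a T i
  have hXl := X_pos a T l
  have h1 : a.z T l / a.X T i = a.z T i / a.X T l := by
    rw [div_eq_div_iff hXi.ne' hXl.ne']
    exact z_mul_X a T l i
  have h2 : a.z T i / a.X T l ≤ a.z T i / a.Xm T :=
    div_le_div_of_nonneg_left (z_pos a T i).le hXm ((Xm_spec a T).2 l)
  have h3 : 1 / a.X T i ≤ 1 / a.Xm T := one_div_le_one_div_of_le hXm ((Xm_spec a T).2 i)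
  rw [add_div, add_div, h1]
  exact add_le_add h3 h2

end BTR
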