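import Pool.Agent.BTR.A4p
import Pool.Agent.BTR.V20

set_option autoImplicit false

open Filter

/-! # [BTR-A5b] the parameters exist (helper30) -/

namespace BTR
open BTP

/-- the power of a number close to one -/
theorem a5b_pow {n : ℕ} {x : ℝ} (hx : 0 ≤ x) (hn : (n : ℝ) * x ≤ 1) :
    (1 + x) ^ n - 1 ≤ 2 * (n * x) := by
  have h1 : (1 + x) ^ n ≤ Real.exp (n * x) := by
    rw [Real.exp_nat_mul]
    refine pow_le_pow_left₀ (by linarith) ?_ n
    have := Real.add_one_le_exp x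
    linarith
  have h0 : 0 ≤ (n : ℝ) * x := mul_nonneg (Nat.cast_nonneg n) hx
  have h2 := Real.abs_exp_sub_one_le (x := (n : ℝ) * x) (by rw [abs_of_nonneg h0]; exact hn)
  rw [abs_of_nonneg h0] at h2
  have h3 := le_abs_self (Real.exp ((n : ℝ) * x) - 1)
  linarith

/-- exponentials beat polynomials -/
theorem ev_exp' (c : ℝ) (k : ℕ) {μ : ℝ} (hμ : 0 < μ) : ∀ᶠ L : ℝ in atTop, c * L ^ k ≤ Real.exp (L / μ) := by
  have h1 : Tendsto (fun L : ℝ => L / μ) atTop atTop := tendsto_id.atTop_div_const hμ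
  have h2 := ((Real.tendsto_exp_div_pow_atTop k).comp h1).eventually_ge_atTop (c * μ ^ k)
  filter_upwards [h2, eventually_gt_atTop 0] with L hL hL0
  have h3 : 0 < (L / μ) ^ k := by positivity
  rw [Function.comp_apply, le_div_iff₀ h3, div_pow] at hL
  calc c * L ^ k = c * μ ^ k * (L ^ k / μ ^ k) := by field_simp
    _ ≤ Real.exp (L / μ) := hL

/-- [BTR-A5b] the parameters exist for all large `A = exp L` -/
theorem exists_pa {d lt : ℕ} (hd : 2 ≤ d) (c : Co d lt) : ∀ᶠ L : ℝ in atTop, ∃ a : Pc d lt,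
    a.A = Real.exp L ∧ a.B = 4 ^ d * Real.exp L * L ∧ a.B ≤ Real.exp (2 * L) ∧
    a.kk = ⌊Real.exp L ^ 2⌋₊ ∧ a.K = c.K ∧ a.c1 = c.Kc * Real.exp (-(L / 2)) ∧
    gk (lt + 1) a.Z * L ≤ Real.exp (-(L / 2)) ∧ a.H = 2 * L ^ (10 * (d + lt) + 8) ∧
    (a.h : ℝ) ≤ L + 1 ∧ a.P = 20 * ((d : ℝ) + lt) * L ∧ a.gam ≤ d * L := by
  obtain ⟨k, rfl⟩ : ∃ k, d = k + 2 := ⟨d - 2, by omega⟩
  obtain ⟨n, hn⟩ : ∃ n, n = k + 2 + lt := ⟨_, rfl⟩
  rw [← hn]
  have hn2 : 2 ≤ n := by omega
  have hg1 : 0 < gk (lt + 1) 1 := BTG.gk_pos _ one_pos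
  have hlam : 0 < lamk (k + 2 - 1) (lt + 1) := BTG.lamk_pos _ (by omega)
  obtain ⟨lam, hlamd⟩ : ∃ lam, lam = lamk (k + 2 - 1) (lt + 1) := ⟨_, rfl⟩
  rw [← hlamd] at hlam
  have hKc := c.hKc
  have hK8 := c.hK
  have hK0 : 0 < c.K := by linarith
  have he0 := c.he0
  have hse0 : 0 < Real.sqrt c.e0 := Real.sqrt_pos.2 he0
  have hcb0 : 0 < c.cb := by
    rw [c.hcb]
    positivity
  have hka0 : 0 ≤ c.ka := le_trans (by positivity) c.hka
  have hC30 : 0 ≤ c.C3 := le_trans (by positivity) c.hC3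
  have hlt0 : (0 : ℝ) ≤ lt := Nat.cast_nonneg lt
  obtain ⟨μ, hμ⟩ : ∃ μ : ℝ, μ = (lt : ℝ) + 2 := ⟨_, rfl⟩
  have hμ2 : 2 ≤ μ := by rw [hμ]; linarith
  have hμ0 : 0 < μ := by linarith
  filter_upwards [ev_le 100, ev_log ((n : ℝ) + 41), red_ok lt c.Kc c.hKc,
    ev_exp 1 (2 * n), ev_exp (2 * (c.Kc + 1) / gk (lt + 1) 1) 0,
    ev_exp 32 (10 * n + 8), ev_exp (4 ^ (k + 2)) 1,
    ev_le (2 * ((k + 2 : ℕ) : ℝ) * lam / gk (lt + 1) 1),
    ev_le (c.K ^ 2), ev_le (8192 * c.ka ^ 2),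
    ev_pow (8 * 10 ^ (8 * n) * 4 ^ (9 * n)) (9 * n + 3),
    ev_le (2 * c.C3 * Real.exp (((lt : ℝ) + 2) / 8) / c.cb),
    ev_exp' (2 * c.C3 / (c.cb * Real.sqrt c.e0)) 3 (show 0 < 2 * μ by positivity),
    ev_exp (2 * c.K / Real.sqrt c.e0) 0, ev_exp (8 / c.e0) (10 * n + 8),
    ev_exp (4 * ((k + 2 : ℕ) : ℝ)) 1,
    ev_exp ((13 + ((k + 2 : ℕ) : ℝ)) * ((k + 2 : ℕ) : ℝ) / lam) 2,
    ev_exp (2 * ((k + 2 : ℕ) : ℝ) * c.K) 0,
    ev_exp (4 * ((k + 2 : ℕ) : ℝ)) (10 * n + 8),
    ev_le (100 * (6 + 2 * ((k + 2 : ℕ) : ℝ)) * c.C3 * 2),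
    ev_exp 32 0] with L f1 f2 fr f4 f5 f7 f8 f9 f10 f11 f12 f13 f14 f15 f16 f17 f18 f19 f20 f21 f22
  obtain ⟨fr1, fr2, fr2', fr3, fr4, fr5⟩ := fr
  have hL0 : (0 : ℝ) < L := by linarith
  have hL1 : (1 : ℝ) ≤ L := by linarith
  have hk0 : (0 : ℝ) ≤ k := Nat.cast_nonneg k
  have hk2 : ((k + 2 : ℕ) : ℝ) = k + 2 := by push_cast; ring
  have hnr : (n : ℝ) = k + 2 + lt := by rw [hn]; push_cast; ring
  have hd0 : (0 : ℝ) < ((k + 2 : ℕ) : ℝ) := by rw [hk2]; linarith
  obtain ⟨E, hE⟩ : ∃ E, E = Real.exp (L / 4) := ⟨_, rfl⟩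
  rw [← hE] at f4 f5 f7 f8 f15 f16 f17 f18 f19 f20 f22
  have hEL : E ^ 4 = Real.exp L := by
    rw [hE, ← Real.exp_nat_mul]
    congr 1
    push_cast
    ring
  have hE2 : E ^ 2 = Real.exp (L / 2) := by
    rw [hE, ← Real.exp_nat_mul]
    congr 1
    push_cast
    ring
  have hE2' : Real.exp (-(L / 2)) = (E ^ 2)⁻¹ := by
    rw [hE2, Real.exp_neg]
  have hE26 : 26 ≤ E := by
    rw [hE]
    have := Real.add_one_le_exp (L / 4)
    linarith
  have hE1 : (1 : ℝ) ≤ E := by linarith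
  have hE0 : (0 : ℝ) < E := by linarith
  have hEX : E ≤ E ^ 4 := by
    calc E = E ^ 1 := (pow_one E).symm
      _ ≤ E ^ 4 := pow_le_pow_right₀ hE1 (by norm_num)
  have hEE2 : E ≤ E ^ 2 := by
    calc E = E ^ 1 := (pow_one E).symm
      _ ≤ E ^ 2 := pow_le_pow_right₀ hE1 (by norm_num)
  obtain ⟨X, hX⟩ : ∃ X, X = Real.exp L := ⟨_, rfl⟩
  rw [← hX] at hEL
  have hEX' : E ≤ X := by rw [← hEL]; exact hEX
  have hX1 : (1 : ℝ) ≤ X := hE1.trans hEX'
  have hX0 : (0 : ℝ) < X := by linarith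
  have hX26 : 26 ≤ X := hE26.trans hEX'
  have hlogX : Real.log X = L := by rw [hX, Real.log_exp]
  have hsX : Real.sqrt X = E ^ 2 := by
    rw [← hEL, show E ^ 4 = (E ^ 2) ^ 2 by ring, Real.sqrt_sq (by positivity)]
  have hseX : Real.sqrt (c.e0 * X) = Real.sqrt c.e0 * E ^ 2 := by
    rw [Real.sqrt_mul he0.le, hsX]
  -- the probability
  obtain ⟨q, hqd⟩ : ∃ q : ℝ, q = (X ^ (k + 1))⁻¹ := ⟨_, rfl⟩
  have hq0 : 0 < q := by rw [hqd]; positivity
  have hqX : q ≤ X⁻¹ := by
    rw [hqd]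
    apply inv_anti₀ hX0
    calc X = X ^ 1 := (pow_one X).symm
      _ ≤ X ^ (k + 1) := pow_le_pow_right₀ hX1 (by omega)
  have hqe : q = Real.exp (-((((k + 2 : ℕ) : ℝ) - 1) * L)) := by
    rw [hqd, Real.exp_neg, hX, ← Real.exp_nat_mul]
    congr 2
    push_cast
    ring
  obtain ⟨p, hpd⟩ : ∃ p : ℝ, p = 1 - Real.exp (-q) := ⟨_, rfl⟩
  have hpq : p ≤ q := by
    have := Real.one_sub_le_exp_neg q
    rw [hpd]
    linarith
  have hp0 : 0 ≤ p := by
    have : Real.exp (-q) ≤ 1 := by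
      rw [Real.exp_le_one_iff]
      linarith
    rw [hpd]
    linarith
  have hpX : p ≤ X⁻¹ := hpq.trans hqX
  have hXi : X⁻¹ ≤ 1 / 2 := by
    rw [one_div]
    exact inv_anti₀ (by norm_num) (by linarith)
  -- the number h
  obtain ⟨h, hhd⟩ : ∃ h : ℕ, h = ⌈L⌉₊ := ⟨_, rfl⟩
  have hh1 : L ≤ h := by rw [hhd]; exact Nat.le_ceil L
  have hh2 : (h : ℝ) ≤ L + 1 := by
    rw [hhd]
    exact (Nat.ceil_lt_add_one hL0.le).le
  have hh3 : (h : ℝ) ≤ 2 * L := by linarith
  have hh4 : 1 ≤ h := by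
    have : (0 : ℝ) < h := by linarith
    exact_mod_cast this
  -- Z
  obtain ⟨Z, hZd⟩ : ∃ Z, Z = (L / 2 + 3 / 2 * Real.log L) / ((lt : ℝ) + 2) := ⟨_, rfl⟩
  rw [← hZd] at fr1 fr2 fr2' fr3 fr4 fr5
  have hlogL1 : Real.log L ≤ L := Real.log_le_self hL0.le
  have hlogL0 : 0 ≤ Real.log L := Real.log_nonneg hL1
  have hZ0 : 0 ≤ Z := by linarith
  have h1Z : 1 + Z ≤ 2 * L := by linarith
  -- c1
  obtain ⟨c1, hc1d⟩ : ∃ c1, c1 = c.Kc * Real.exp (-(L / 2)) := ⟨_, rfl⟩
  rw [← hc1d] at fr3 fr4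
  have hc10 : 0 < c1 := by rw [hc1d]; positivity
  have hc1E : c1 = c.Kc * (E ^ 2)⁻¹ := by rw [hc1d, hE2']
  have hc1X : c1 * Real.sqrt (c.e0 * X) = c.Kc * Real.sqrt c.e0 := by
    rw [hc1E, hseX]
    field_simp
  have hggZ0 : 0 < gk (lt + 1) Z := BTG.gk_pos _ (by linarith)
  have hggZ : gk (lt + 1) Z ≤ (E ^ 2)⁻¹ := by
    rw [← hE2']
    refine le_trans ?_ fr5
    exact le_mul_of_one_le_right hggZ0.le hL1
  have hc01 : c1 + (gk (lt + 1) Z - c1 / (1 + Z) ^ 2) ≤ gk (lt + 1) 1 / 2 := by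
    have h5 : 0 ≤ c1 / (1 + Z) ^ 2 := by positivity
    have h6 : (c.Kc + 1) * (E ^ 2)⁻¹ ≤ gk (lt + 1) 1 / 2 := by
      rw [pow_zero, mul_one, div_le_iff₀ hg1] at f5
      have h8 : 2 * (c.Kc + 1) ≤ E ^ 2 * gk (lt + 1) 1 :=
        f5.trans (mul_le_mul_of_nonneg_right hEE2 hg1.le)
      rw [← div_eq_mul_inv, div_le_iff₀ (by positivity)]
      linarith
    rw [hc1E] at h5 ⊢
    linarith
  -- H
  obtain ⟨N, hN⟩ : ∃ N, N = 10 * n + 8 := ⟨_, rfl⟩
  have hLN : L ≤ L ^ N := by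
    calc L = L ^ 1 := (pow_one L).symm
      _ ≤ L ^ N := pow_le_pow_right₀ hL1 (by omega)
  have hH0 : (0 : ℝ) < 2 * L ^ N := by positivity
  have hsH : Real.sqrt (L ^ N) = L ^ (5 * n + 4) := by
    rw [hN, show 10 * n + 8 = (5 * n + 4) * 2 by ring, pow_mul,
      Real.sqrt_sq (by positivity)]
  rw [← hN] at f7 f16 f20
  have hHE : 2 * L ^ N ≤ X := by
    refine le_trans ?_ (f7.trans hEX')
    have : 0 ≤ L ^ N := by positivity
    linarith
  have hlogH : Real.log (2 * L ^ N) ≤ L := by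
    rw [Real.log_le_iff_le_exp hH0, ← hX]
    exact hHE
  have hlogH0 : 0 ≤ Real.log (2 * L ^ N) := by
    apply Real.log_nonneg
    linarith
  have hlog2 : Real.log 2 ≤ 1 := by
    have := Real.log_two_lt_d9
    linarith
  have hlog20 : 0 ≤ Real.log 2 := Real.log_nonneg (by norm_num)
  -- gam
  obtain ⟨g, hgd⟩ : ∃ g, g = gmL (k + 2) n L := ⟨_, rfl⟩
  have hgd' : 2 * g = Real.log 2 + ((k : ℝ) + 1) *
      (L - Real.log (2 * L ^ N)) := by
    rw [hgd, hN]
    unfold gmL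
    push_cast
    ring
  have hg0 : 0 ≤ g := by
    have : 0 ≤ ((k : ℝ) + 1) * (L - Real.log (2 * L ^ N)) :=
      mul_nonneg (by linarith) (by linarith)
    linarith
  have hg2 : 2 * g ≤ Real.log 2 + ((k : ℝ) + 1) * L := by
    have : ((k : ℝ) + 1) * (L - Real.log (2 * L ^ N)) ≤ ((k : ℝ) + 1) * L :=
      mul_le_mul_of_nonneg_left (by linarith) (by linarith)
    linarith
  have hkL : 0 ≤ (k : ℝ) * L := mul_nonneg hk0 hL0.le
  have hltL : 0 ≤ (lt : ℝ) * L := mul_nonneg hlt0 hL0.le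
  have hgL : g ≤ ((k + 2 : ℕ) : ℝ) * L := by
    rw [hk2]
    linarith
  have hB4 : (1 : ℝ) ≤ 4 ^ (k + 2) := one_le_pow₀ (by norm_num)
  rw [pow_one] at f8 f17
  rw [one_mul] at f4
  rw [pow_zero, mul_one] at f15 f19 f22
  have hBX : 4 ^ (k + 2) * X * L ≤ X ^ 2 := by
    calc 4 ^ (k + 2) * X * L = X * (4 ^ (k + 2) * L) := by ring
      _ ≤ X * X := mul_le_mul_of_nonneg_left (f8.trans hEX') hX0.le
      _ = X ^ 2 := by ring
  have hexp2L : Real.exp (2 * L) = X ^ 2 := by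
    rw [hX, ← Real.exp_nat_mul]
    congr 1
  have hxK : c.K / Real.sqrt (c.e0 * X) ≤ E⁻¹ / 2 := by
    rw [hseX, div_le_iff₀ (by positivity)]
    rw [div_le_iff₀ hse0] at f15
    have : E⁻¹ / 2 * (Real.sqrt c.e0 * E ^ 2) = E * Real.sqrt c.e0 / 2 := by
      field_simp
    rw [this]
    linarith
  have hxH : 2 * (2 * L ^ N) / (c.e0 * X) ≤ E⁻¹ / 2 := by
    rw [div_le_iff₀ (by positivity), ← hEL]
    have h5 : 8 * L ^ N ≤ E * c.e0 := by
      rw [div_mul_eq_mul_div, div_le_iff₀ he0] at f16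
      exact f16
    have h6 : E⁻¹ / 2 * (c.e0 * E ^ 4) = E ^ 2 * (E * c.e0) / 2 := by
      field_simp
    rw [h6]
    have h7 : E * c.e0 ≤ E ^ 2 * (E * c.e0) :=
      le_mul_of_one_le_left (by positivity) (one_le_pow₀ hE1)
    linarith
  let a : Pc (k + 2) lt :=
    { q := q
      A := X
      p := p
      ka := c.ka
      K := c.K
      H := 2 * L ^ N
      H1 := L ^ N
      c1 := c1
      c0 := gk (lt + 1) Z - c1 / (1 + Z) ^ 2
      Z := Z
      B := 4 ^ (k + 2) * X * L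
      P := 20 * (n : ℝ) * L
      gam := g
      C3 := c.C3
      R0 := c.R0
      cb := c.cb
      e0 := c.e0
      E := c.E
      h := h
      kk := ⌊Real.exp L ^ 2⌋₊
      hd := hd
      hA := by linarith
      hq := hq0
      hqA := by
        rw [hqd]
        exact inv_mul_cancel₀ (by positivity)
      hp := hpd
      hp2 := hpX.trans hXi
      hh := hh4
      hkk := by
        rw [hX]
        exact Nat.floor_le (by positivity)
      hka := c.hka
      hK := c.hK
      hH1 := by linarith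
      hKH := f10.trans hLN
      hH := rfl
      hZ := fr1
      hc1 := hc10
      hc1Z := fr3
      hc0 := rfl
      hc0n := fr4
      hc01 := hc01
      hzH := by
        rw [hqd, show k + 2 - 1 = k + 1 from rfl, ← inv_pow, ← mul_pow]
        have h5 : X⁻¹ * (2 * (2 * L ^ N)) ≤ 1 / 8 := by
          rw [inv_mul_le_iff₀ hX0]
          have := f7.trans hEX'
          linarith
        have h6 : 0 ≤ X⁻¹ * (2 * (2 * L ^ N)) := by positivity
        calc (X⁻¹ * (2 * (2 * L ^ N))) ^ (k + 1) ≤ (X⁻¹ * (2 * (2 * L ^ N))) ^ 1 :=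
              pow_le_pow_of_le_one h6 (by linarith) (by omega)
          _ ≤ 1 / 8 := by rw [pow_one]; exact h5
      hHB := by
        calc L ^ N ≤ X := by linarith
          _ ≤ 4 ^ (k + 2) * X * L := by
            have : X ≤ 4 ^ (k + 2) * X := le_mul_of_one_le_left hX0.le hB4
            exact this.trans (le_mul_of_one_le_right (by positivity) hL1)
      hB := by
        calc (4 : ℝ) ^ (k + 2) * Z * X ≤ 4 ^ (k + 2) * L * X := by
              apply mul_le_mul_of_nonneg_right _ hX0.le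
              exact mul_le_mul_of_nonneg_left fr2 (by positivity)
          _ = 4 ^ (k + 2) * X * L := by ring
      hB2 := by
        rw [← hlamd]
        rw [div_le_iff₀ hg1] at f9
        have h5 : ((k + 2 : ℕ) : ℝ) * lam ≤ 4 ^ (k + 2) * (L * (gk (lt + 1) 1 / 2)) := by
          calc ((k + 2 : ℕ) : ℝ) * lam ≤ L * (gk (lt + 1) 1 / 2) := by linarith
            _ ≤ 4 ^ (k + 2) * (L * (gk (lt + 1) 1 / 2)) := le_mul_of_one_le_left (by positivity) hB4
        calc ((k + 2 : ℕ) : ℝ) * X * lam = X * (((k + 2 : ℕ) : ℝ) * lam) := by ring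
          _ ≤ X * (4 ^ (k + 2) * (L * (gk (lt + 1) 1 / 2))) := mul_le_mul_of_nonneg_left h5 hX0.le
          _ = 4 ^ (k + 2) * X * L * (gk (lt + 1) 1 / 2) := by ring
      hgam0 := hg0
      hgam := by
        obtain ⟨z, hz⟩ : ∃ z, z = q * (2 * L ^ N) ^ (k + 2 - 1) := ⟨_, rfl⟩
        rw [← hz]
        have hz0 : 0 < z := by rw [hz]; positivity
        have hz1 : z = (X⁻¹ * (2 * L ^ N)) ^ (k + 1) := by
          rw [hz, hqd, show k + 2 - 1 = k + 1 from rfl, ← inv_pow, ← mul_pow]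
        have hz2 : z ≤ 1 := by
          rw [hz1]
          apply pow_le_one₀ (by positivity)
          rw [inv_mul_le_iff₀ hX0, mul_one]
          exact hHE
        have hlz : Real.log z = ((k : ℝ) + 1) * (Real.log (2 * L ^ N) - L) := by
          rw [hz1, Real.log_pow, Real.log_mul (by positivity) hH0.ne', Real.log_inv, hlogX]
          push_cast
          ring
        have h5 := BTG.gk_up (lt + 1) hz0
        have h6 : Real.log ((1 + z) / z) ≤ Real.log 2 - Real.log z := by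
          rw [← Real.log_div (by norm_num) hz0.ne']
          apply Real.log_le_log (by positivity)
          exact div_le_div_of_nonneg_right (by linarith) hz0.le
        rw [hlz] at h6
        linarith
      hcnt := by
        have h5 : (4 ^ (k + 2) * X * L) ^ (4 * (k + 2) + 4 * lt) ≤ Real.exp (8 * (n : ℝ) * L) := by
          calc (4 ^ (k + 2) * X * L) ^ (4 * (k + 2) + 4 * lt) ≤ (X ^ 2) ^ (4 * (k + 2) + 4 * lt) :=
                pow_le_pow_left₀ (by positivity) hBX _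
            _ = Real.exp (8 * (n : ℝ) * L) := by
                rw [← hexp2L, ← Real.exp_nat_mul]
                congr 1
                rw [hnr]
                push_cast
                ring
        have h6 : Real.exp (2 * g) ≤ 2 * Real.exp (((k : ℝ) + 1) * L) := by
          calc Real.exp (2 * g) ≤ Real.exp (Real.log 2 + ((k : ℝ) + 1) * L) :=
                Real.exp_le_exp.2 hg2
            _ = 2 * Real.exp (((k : ℝ) + 1) * L) := by
                rw [Real.exp_add, Real.exp_log (by norm_num)]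
        calc 16 * (4 ^ (k + 2) * X * L) ^ (4 * (k + 2) + 4 * lt) * Real.exp (2 * g) ≤
              16 * Real.exp (8 * (n : ℝ) * L) * (2 * Real.exp (((k : ℝ) + 1) * L)) := by
              apply mul_le_mul _ h6 (Real.exp_pos _).le (by positivity)
              exact mul_le_mul_of_nonneg_left h5 (by positivity)
          _ = 32 * (Real.exp (8 * (n : ℝ) * L) * Real.exp (((k : ℝ) + 1) * L)) := by
              ring
          _ ≤ X * (Real.exp (8 * (n : ℝ) * L) * Real.exp (((k : ℝ) + 1) * L)) :=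
              mul_le_mul_of_nonneg_right (f22.trans hEX') (by positivity)
          _ = Real.exp (L + (8 * (n : ℝ) * L + ((k : ℝ) + 1) * L)) := by
              rw [hX, Real.exp_add, Real.exp_add]
          _ ≤ Real.exp (20 * (n : ℝ) * L / 2) := by
              apply Real.exp_le_exp.2
              rw [hnr]
              linarith
      hP := by
        have : (0 : ℝ) < n := by rw [hnr]; linarith
        positivity
      hbase := by
        intro Y m hY1 hY2 hm
        rw [hgd, ← hn]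
        refine base_ineq hd (by omega) f1 f2 ?_ hp0 (hpq.trans hqe.le) hh1 hh2 Y m hY1 hY2 hm
        have h5 : Real.log (L ^ (2 * n)) ≤ L / 4 := by
          rw [Real.log_le_iff_le_exp (by positivity), ← hE]
          exact f4
        rw [Real.log_pow] at h5
        push_cast at h5 ⊢
        linarith
      hrho := by
        calc 4096 * c.ka ^ 2 * (1 + Z) ≤ 4096 * c.ka ^ 2 * (2 * L) :=
              mul_le_mul_of_nonneg_left h1Z (by positivity)
          _ = 8192 * c.ka ^ 2 * L := by ring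
          _ ≤ L * L := mul_le_mul_of_nonneg_right f11 hL0.le
          _ = L ^ 2 := by ring
          _ ≤ L ^ N := pow_le_pow_right₀ hL1 (by omega)
      hHs := by
        rw [← hn]
        have h5 : (2 * (h : ℝ) + 7) ^ (9 * n) ≤ (4 * L) ^ (9 * n) :=
          pow_le_pow_left₀ (by positivity) (by linarith) _
        have hh0 : (0 : ℝ) ≤ h := Nat.cast_nonneg h
        have h6 : (1 + Z) ^ 2 ≤ (2 * L) ^ 2 := pow_le_pow_left₀ (by linarith) h1Z 2
        calc 10 ^ (8 * n) * (h : ℝ) * (2 * h + 7) ^ (9 * n) * (1 + Z) ^ 2 ≤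
              10 ^ (8 * n) * (2 * L) * (4 * L) ^ (9 * n) * (2 * L) ^ 2 := by
              apply mul_le_mul _ h6 (by positivity) (by positivity)
              apply mul_le_mul _ h5 (by positivity) (by positivity)
              exact mul_le_mul_of_nonneg_left hh3 (by positivity)
          _ = 8 * 10 ^ (8 * n) * 4 ^ (9 * n) * L ^ (9 * n + 3) := by
              rw [mul_pow, pow_add]
              ring
          _ ≤ L ^ (9 * n + 3 + 1) := f12
          _ ≤ L ^ N := pow_le_pow_right₀ hL1 (by omega)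
      hC3 := c.hC3
      hR0 := c.hR0
      hcb := c.hcb
      hIa := c.hIa
      hIb := by
        rw [hsH]
        rw [div_le_iff₀ hcb0] at f13
        have h5 : L ≤ L ^ (5 * n + 4) := by
          calc L = L ^ 1 := (pow_one L).symm
            _ ≤ L ^ (5 * n + 4) := pow_le_pow_right₀ hL1 (by omega)
        calc 2 * c.C3 * Real.exp (((lt : ℝ) + 2) / 8) ≤ L * c.cb := f13
          _ ≤ L ^ (5 * n + 4) * c.cb := mul_le_mul_of_nonneg_right h5 hcb0.le
          _ = c.cb * L ^ (5 * n + 4) := mul_comm _ _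
      he0 := c.he0
      hIIa := by
        intro z hz
        rw [hc1X]
        exact c.hIIa z hz
      hIIb := by
        rw [hseX, hE2]
        have hμZ : μ * Z = L / 2 + 3 / 2 * Real.log L := by rw [hZd, ← hμ]; field_simp
        have h5 : Real.exp (((lt : ℝ) + 1) * Z) ≤ Real.exp (L / 2) * L ^ 2 * Real.exp (-(L / (2 * μ))) := by
          have h6 : Real.exp (L / 2) * L ^ 2 * Real.exp (-(L / (2 * μ))) =
              Real.exp (L / 2 + 2 * Real.log L + -(L / (2 * μ))) := by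
            rw [Real.exp_add, Real.exp_add]
            congr 2
            rw [show (2 : ℝ) * Real.log L = ((2 : ℕ) : ℝ) * Real.log L by norm_num, Real.exp_nat_mul,
              Real.exp_log hL0]
          rw [h6]
          apply Real.exp_le_exp.2
          have h7 : ((lt : ℝ) + 1) * Z = μ * Z - Z := by rw [hμ]; ring
          rw [h7, hμZ]
          rw [← hμ] at fr2'
          linarith
        have h8 : 2 * c.C3 * L ^ 3 ≤ Real.exp (L / (2 * μ)) * (c.cb * Real.sqrt c.e0) := by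
          rw [div_mul_eq_mul_div, div_le_iff₀ (by positivity)] at f14
          exact f14
        have h9 : Real.exp (-(L / (2 * μ))) * Real.exp (L / (2 * μ)) = 1 := by
          rw [← Real.exp_add, neg_add_cancel, Real.exp_zero]
        calc c.C3 * (1 + Z) * Real.exp (((lt : ℝ) + 1) * Z) ≤
              c.C3 * (2 * L) * (Real.exp (L / 2) * L ^ 2 * Real.exp (-(L / (2 * μ)))) := by
              apply mul_le_mul _ h5 (Real.exp_pos _).le (by positivity)
              exact mul_le_mul_of_nonneg_left h1Z hC30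
          _ = Real.exp (L / 2) * Real.exp (-(L / (2 * μ))) * (2 * c.C3 * L ^ 3) := by ring
          _ ≤ Real.exp (L / 2) * Real.exp (-(L / (2 * μ))) *
              (Real.exp (L / (2 * μ)) * (c.cb * Real.sqrt c.e0)) :=
              mul_le_mul_of_nonneg_left h8 (by positivity)
          _ = c.cb * (Real.sqrt c.e0 * Real.exp (L / 2)) *
              (Real.exp (-(L / (2 * μ))) * Real.exp (L / (2 * μ))) := by ring
          _ = c.cb * (Real.sqrt c.e0 * Real.exp (L / 2)) := by rw [h9, mul_one]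
      hIIc := by
        obtain ⟨x, hx⟩ : ∃ x, x = c.K / Real.sqrt (c.e0 * X) + 2 * (2 * L ^ N) / (c.e0 * X) :=
          ⟨_, rfl⟩
        have hx0 : 0 ≤ x := by
          rw [hx]
          positivity
        have hx1 : x ≤ E⁻¹ := by
          rw [hx]
          linarith
        have e1 : 1 + c.K / Real.sqrt (c.e0 * X) + 2 * (2 * L ^ N) / (c.e0 * X) = 1 + x := by
          rw [hx]
          ring
        rw [e1]
        have h5 : ((k + 2 : ℕ) : ℝ) * x ≤ ((k + 2 : ℕ) : ℝ) * E⁻¹ :=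
          mul_le_mul_of_nonneg_left hx1 hd0.le
        have h6 : 4 * (((k + 2 : ℕ) : ℝ) * E⁻¹) * L ≤ 1 := by
          have : 4 * (((k + 2 : ℕ) : ℝ) * E⁻¹) * L = 4 * ((k + 2 : ℕ) : ℝ) * L * E⁻¹ := by ring
          rw [this, ← div_eq_mul_inv, div_le_one hE0]
          exact f17
        have h8 : 0 ≤ ((k + 2 : ℕ) : ℝ) * E⁻¹ := by positivity
        have h7 : ((k + 2 : ℕ) : ℝ) * x ≤ 1 := by
          refine h5.trans ?_
          have : ((k + 2 : ℕ) : ℝ) * E⁻¹ ≤ ((k + 2 : ℕ) : ℝ) * E⁻¹ * L :=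
            le_mul_of_one_le_right h8 hL1
          linarith
        have h9 := a5b_pow hx0 h7
        have h10 : (1 + x) ^ (k + 2) - 1 ≤ 2 * (((k + 2 : ℕ) : ℝ) * E⁻¹) := by linarith
        calc Z * ((1 + x) ^ (k + 2) - 1) ≤ Z * (2 * (((k + 2 : ℕ) : ℝ) * E⁻¹)) :=
              mul_le_mul_of_nonneg_left h10 hZ0
          _ ≤ L * (2 * (((k + 2 : ℕ) : ℝ) * E⁻¹)) :=
              mul_le_mul_of_nonneg_right fr2 (by positivity)
          _ ≤ 1 / 2 := by linarith
      hE := c.hE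
      he0E := c.he0E
      hEA := c.hEA
      hEA2 := by
        calc L ^ N ≤ X := by linarith
          _ ≤ c.E * X := le_mul_of_one_le_left hX0.le c.hE
      hLm := by
        rw [← hlamd]
        have hB0 : 0 < 4 ^ (k + 2) * X * L := by positivity
        have h5 : Real.log (4 ^ (k + 2) * X * L) ≤ 2 * L := by
          rw [Real.log_le_iff_le_exp hB0, hexp2L]
          exact hBX
        obtain ⟨δ, hδ⟩ : ∃ δ : ℝ, δ = ((k + 2 : ℕ) : ℝ) := ⟨_, rfl⟩
        have hδ0 : 0 < δ := by rw [hδ]; exact hd0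
        rw [← hδ] at f18 hgL ⊢
        have hδ1 : 1 ≤ δ := by rw [hδ, hk2]; linarith
        have h6 : 4 * (h : ℝ) + δ + 8 ≤ (5 + δ) * L := by
          have h61 : δ ≤ δ * L := le_mul_of_one_le_right hδ0.le hL1
          linarith
        have h7 : (4 * (h : ℝ) + δ + 8) * g ≤ (5 + δ) * L * (δ * L) :=
          mul_le_mul h6 hgL hg0 (by positivity)
        have h8 : (13 + δ) * δ * L ^ 2 ≤ X * lam := by
          rw [div_mul_eq_mul_div, div_le_iff₀ hlam] at f18
          exact f18.trans (mul_le_mul_of_nonneg_right hEX' hlam.le)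
        have h9 : X * lam ≤ δ * X * lam := by
          calc X * lam ≤ δ * (X * lam) := le_mul_of_one_le_left (by positivity) hδ1
            _ = δ * X * lam := by ring
        have h10 : δ * Real.log (4 ^ (k + 2) * X * L) ≤ δ * (2 * L) :=
          mul_le_mul_of_nonneg_left h5 hδ0.le
        have h11 : δ * L ≤ δ * L ^ 2 := by
          apply mul_le_mul_of_nonneg_left _ hδ0.le
          calc L = L ^ 1 := (pow_one L).symm
            _ ≤ L ^ 2 := pow_le_pow_right₀ hL1 (by norm_num)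
        have h12 : 0 < δ * L ^ 2 := by positivity
        have h13 : (5 + δ) * L * (δ * L) = 5 * (δ * L ^ 2) + δ * (δ * L ^ 2) := by ring
        have h14 : (13 + δ) * δ * L ^ 2 = 13 * (δ * L ^ 2) + δ * (δ * L ^ 2) := by ring
        rw [h13] at h7
        rw [h14] at h8
        linarith
      hKA := by
        rw [hsX, ← hEL]
        have h5 : ((k + 2 : ℕ) : ℝ) * (c.K / E ^ 2) ≤ 1 / 2 := by
          rw [← mul_div_assoc, div_le_iff₀ (by positivity)]
          linarith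
        have h6 : ((k + 2 : ℕ) : ℝ) * (2 * L ^ N / E ^ 4) ≤ 1 / 2 := by
          rw [← mul_div_assoc, div_le_iff₀ (by positivity)]
          linarith
        linarith
      hsm := by
        rw [hsH]
        have h5 : 2 * (h : ℝ) + 2 * ((k + 2 : ℕ) : ℝ) + 2 ≤ (6 + 2 * ((k + 2 : ℕ) : ℝ)) * L := by
          have h51 : ((k + 2 : ℕ) : ℝ) ≤ ((k + 2 : ℕ) : ℝ) * L := le_mul_of_one_le_right hd0.le hL1
          linarith
        calc 100 * (2 * (h : ℝ) + 2 * ((k + 2 : ℕ) : ℝ) + 2) * c.C3 * (1 + Z) ≤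
              100 * ((6 + 2 * ((k + 2 : ℕ) : ℝ)) * L) * c.C3 * (2 * L) := by
              apply mul_le_mul _ h1Z (by linarith) (by positivity)
              apply mul_le_mul_of_nonneg_right _ hC30
              linarith
          _ = 100 * (6 + 2 * ((k + 2 : ℕ) : ℝ)) * c.C3 * 2 * L ^ 2 := by ring
          _ ≤ L * L ^ 2 := mul_le_mul_of_nonneg_right f21 (by positivity)
          _ = L ^ 3 := by ring
          _ ≤ L ^ (5 * n + 4) := pow_le_pow_right₀ hL1 (by omega) }
  refine ⟨a, hX, ?_, ?_, rfl, rfl, hc1d, fr5, ?_, hh2, ?_, hgL⟩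
  · show 4 ^ (k + 2) * X * L = _
    rw [hX]
  · rw [hexp2L]
    exact hBX
  · show 2 * L ^ N = _
    rw [hN]
  · show 20 * (n : ℝ) * L = 20 * (((k + 2 : ℕ) : ℝ) + lt) * L
    rw [hn]
    push_cast
    ring

end BTR
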