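import Pool.Agent.BTR.E5

set_option autoImplicit false

open scoped Classical
open Finset

/-! # A long connected set needs many columns -/

namespace BTR
open BTP BTS

variable {d l h : ℕ}

/-- [BTR-CH1] the coordinates of neighbours differ by at most one.
PROOF. `b = stp a j = Function.update a j.1 (a j.1 ± 1)`; `i = j.1` or not. -/
theorem adj_abs {n : ℕ} {a b : Site n} (h : adj a b) (i : Fin n) : |b i - a i| ≤ 1 := by
  obtain ⟨j, rfl⟩ := h
  unfold stp
  by_cases hi : i = j.1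
  · subst hi
    rw [Function.update_self]
    split_ifs <;> simp
  · rw [Function.update_of_ne hi]
    simp

/-- [BTR-CH1] boxes containing neighbouring sites are near.
PROOF. `cc a ≤ R`: `a i ≤ R (i,true)`, `-a i ≤ R (i,false)`; the same for `b`, `S`. So `-(R (i,true) + S (i,false)) ≤ b i - a i` and `-(S (i,true) + R (i,false)) ≤ a i - b i`, `gap R S i ≤ |b i - a i|`, which is `1` for `i = j.1` (`b = stp a j`) and `0` otherwise: the sum is at most `1 ≤ 2` (`Finset.sum_le_sum`, `Finset.sum_ite_eq`). -/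
theorem near_of_adj {n : ℕ} {R S : Box n} {a b : Site n} (hab : adj a b) (ha : cc a ≤ R)
    (hb : cc b ≤ S) : near R S := by
  obtain ⟨j, rfl⟩ := hab
  have key : ∀ i : Fin n, gap R S i ≤ if i = j.1 then 1 else 0 := by
    intro i
    have h1 := ha (i, true)
    have h2 := ha (i, false)
    have h3 := hb (i, true)
    have h4 := hb (i, false)
    rw [b1_cct] at h1 h3
    rw [b1_ccf] at h2 h4
    unfold stp at h3 h4
    unfold gap
    split_ifs with hi
    · subst hi
      rw [Function.update_self] at h3 h4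
      refine max_le (by norm_num) (max_le ?_ ?_)
      · split_ifs at h3 h4 <;> linarith
      · split_ifs at h3 h4 <;> linarith
    · rw [Function.update_of_ne hi] at h3 h4
      refine max_le le_rfl (max_le ?_ ?_) <;> linarith
  unfold near
  refine (Finset.sum_le_sum fun i _ => key i).trans ?_
  rw [Finset.sum_ite_eq' Finset.univ j.1]
  simp

/-- [BTR-CH1] a connected set takes all intermediate values.
PROOF. Induction on the path (`Relation.ReflTransGen`) from `u` to `w`: for every integer `x` with `u i ≤ x ≤ w i` there is `y ∈ X` with `y i = x`. Last step `adj w' w`: `|w i - w' i| ≤ 1`, so `x ≤ w' i` or `x = w i`. -/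
theorem cn_values {n : ℕ} {X : Finset (Site n)} (hX : Cn X) {u v : Site n} (hu : u ∈ X) (hv : v ∈ X)
    (i : Fin n) {x : ℤ} (h1 : u i ≤ x) (h2 : x ≤ v i) : ∃ w ∈ X, w i = x := by
  have hp := hX.2 u hu v hv
  clear hv
  induction hp with
  | refl => exact ⟨u, hu, le_antisymm h1 h2⟩
  | tail _ hbc ih =>
    rename_i b c _
    have h3 := abs_le.1 (adj_abs hbc.2 i)
    by_cases h4 : x ≤ b i
    · exact ih h4
    · exact ⟨c, hbc.1, by omega⟩

/-- [BTR-CH1] leaving a box inside a connected set.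
PROOF. Induction on the path from `u` to `v` (the property `cc · ≤ S` holds for `u`, not for `v`): the first step where it changes. -/
theorem cn_exit {n : ℕ} {X : Finset (Site n)} (hX : Cn X) {S : Box n} {u v : Site n} (hu : u ∈ X)
    (hv : v ∈ X) (h1 : cc u ≤ S) (h2 : ¬ cc v ≤ S) :
    ∃ a ∈ X, ∃ b ∈ X, adj a b ∧ cc a ≤ S ∧ ¬ cc b ≤ S := by
  have key : ∀ w, Relation.ReflTransGen (fun a b => b ∈ X ∧ adj a b) u w → w ∈ X ∧
      (¬ cc w ≤ S → ∃ a ∈ X, ∃ b ∈ X, adj a b ∧ cc a ≤ S ∧ ¬ cc b ≤ S) := by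
    intro w hp
    induction hp with
    | refl => exact ⟨hu, fun h => absurd h1 h⟩
    | tail _ hbc ih =>
      rename_i b c _
      refine ⟨hbc.1, fun h => ?_⟩
      by_cases hb : cc b ≤ S
      · exact ⟨b, ih.1, c, hbc.1, hbc.2, hb, h⟩
      · exact ih.2 hb
  exact (key v (hX.2 u hu v hv)).2 h2

/-- [BTR-CH1] every value is close to a column.
PROOF. `w ∈ X` with `w i = x` (`cn_values`). If `w` is covered by a column (`pr`, `cc (ps w) ≤ c.1`): `-c.1 (i,false) ≤ w i ≤ c.1 (i,true)`. Otherwise `w` is in a small box `s.1` with `Ys s.1 < h`, whose extent in each direction is `< h` (`Ys` is the sum of the `S (i,true) + S (i,false) ≥ 0`, `Gen.ne`), so not both `u` and `v` are in `s.1` (`h ≤ v i - u i`); `cn_exit` gives neighbours `a, b ∈ X`, `a` in `s.1`, `b` not. `b` is not in another small box (`near_of_adj`, `h2`), so in a column `c`, and `|b i - w i| ≤ 1 + h`. -/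
theorem near_column {U : Finset (Site (d + l))} {C : Finset (Box d × Finset (Site (d + l)))}
    {M : Finset (Box (d + l) × Finset (Site (d + l)))} (hf : Fam l h U C M)
    (h2 : ∀ s ∈ M, ∀ s' ∈ M, s ≠ s' → ¬ near s.1 s'.1)
    {X : Finset (Site (d + l))} (hX : ∀ u ∈ X, Cov C M u) (hcn : Cn X) {i : Fin d}
    {u v : Site (d + l)} (hu : u ∈ X) (hv : v ∈ X) (huv : (h : ℤ) ≤ v (lo d l i) - u (lo d l i))
    {x : ℤ} (hx1 : u (lo d l i) ≤ x) (hx2 : x ≤ v (lo d l i)) :
    ∃ c ∈ C, -c.1 (i, false) - (h + 1) ≤ x ∧ x ≤ c.1 (i, true) + (h + 1) := by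
  obtain ⟨w, hw, hwx⟩ := cn_values hcn hu hv (lo d l i) hx1 hx2
  have hcol : ∀ {c : Box d × Finset (Site (d + l))} {y : Site (d + l)}, cc (ps y) ≤ c.1 →
      -c.1 (i, false) ≤ y (lo d l i) ∧ y (lo d l i) ≤ c.1 (i, true) := by
    intro c y hy
    have h3 := hy (i, true)
    have h4 := hy (i, false)
    rw [b1_cct] at h3
    rw [b1_ccf] at h4
    have h5 : ps y i = y (lo d l i) := rfl
    rw [h5] at h3 h4
    constructor <;> linarith
  rcases hX w hw with ⟨c, hc, hwc⟩ | ⟨s, hs, hws⟩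
  · have h3 := hcol hwc
    refine ⟨c, hc, ?_, ?_⟩ <;> omega
  · obtain ⟨hg, -, hY⟩ := hf.sml s hs
    have hne := hg.ne
    have hext : ∀ y z : Site (d + l), cc y ≤ s.1 → cc z ≤ s.1 → z (lo d l i) - y (lo d l i) < h := by
      intro y z hy hz
      have h3 := hy (lo d l i, false)
      have h4 := hz (lo d l i, true)
      rw [b1_ccf] at h3
      rw [b1_cct] at h4
      have h5 := sd_le_Ys hne (lo d l i)
      rw [sd_cast hne] at h5
      linarith
    have hex : ∃ y ∈ X, ¬ cc y ≤ s.1 := by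
      by_contra hcon
      push Not at hcon
      have := hext u v (hcon u hu) (hcon v hv)
      omega
    obtain ⟨y, hy, hys⟩ := hex
    obtain ⟨a, ha, b, hb, hab, has, hbs⟩ := cn_exit hcn hw hy hws hys
    have h6 := abs_le.1 (adj_abs hab (lo d l i))
    have h7 := hext w a hws has
    have h8 := hext a w has hws
    rcases hX b hb with ⟨c, hc, hbc⟩ | ⟨s', hs', hbs'⟩
    · have h3 := hcol hbc
      refine ⟨c, hc, ?_, ?_⟩ <;> omega
    · have hne' : s ≠ s' := by
        rintro rfl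
        exact hbs hbs'
      exact absurd (near_of_adj hab has hbs') (h2 s hs s' hs' hne')

/-- [BTR-CH1] many columns.
PROOF. `Lg`: `u, v ∈ X` with `s ≤ v i - u i`. `near_column`: `Icc (u i) (v i)` is contained in the union over `c ∈ C` of `Icc (-c.1 (i,false) - (h+1)) (c.1 (i,true) + (h+1))`, which has `c.1 (i,true) + c.1 (i,false) + 1 + 2(h+1) = sd c.1 i + 2(h+1)` elements (`Int.card_Icc`, `sd_cast`, `CGen_ne`). `Finset.card_le_card`, `Finset.card_biUnion_le`, `Finset.sum_le_card_nsmul`: `v i - u i + 1 ≤ C.card * (b + 2h + 2)`. -/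
theorem cols_many {U : Finset (Site (d + l))} {C : Finset (Box d × Finset (Site (d + l)))}
    {M : Finset (Box (d + l) × Finset (Site (d + l)))} (hf : Fam l h U C M)
    (h2 : ∀ s ∈ M, ∀ s' ∈ M, s ≠ s' → ¬ near s.1 s'.1)
    {X : Finset (Site (d + l))} (hX : ∀ u ∈ X, Cov C M u) (hcn : Cn X) {i : Fin d} {s b : ℝ}
    (hL : Lg X (lo d l i) s) (hb : ∀ c ∈ C, (sd c.1 i : ℝ) ≤ b) (hs : (h : ℝ) ≤ s) :
    s ≤ C.card * (b + 2 * h + 2) := by
  obtain ⟨u, hu, v, hv, huv⟩ := hL
  have huv' : (h : ℤ) ≤ v (lo d l i) - u (lo d l i) := by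
    have h3 : ((h : ℤ) : ℝ) ≤ ((v (lo d l i) - u (lo d l i) : ℤ) : ℝ) := by
      push_cast
      linarith
    exact_mod_cast h3
  have hsub : Finset.Icc (u (lo d l i)) (v (lo d l i)) ⊆ C.biUnion (fun c =>
      Finset.Icc (-c.1 (i, false) - (h + 1)) (c.1 (i, true) + (h + 1))) := by
    intro x hx
    rw [Finset.mem_Icc] at hx
    obtain ⟨c, hc, h3⟩ := near_column hf h2 hX hcn hu hv huv' hx.1 hx.2
    exact Finset.mem_biUnion.2 ⟨c, hc, Finset.mem_Icc.2 h3⟩
  have h3 := (Finset.card_le_card hsub).trans Finset.card_biUnion_le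
  have h4 : ∀ c ∈ C, (((Finset.Icc (-c.1 (i, false) - ((h : ℤ) + 1)) (c.1 (i, true) + (h + 1))).card : ℕ) : ℝ) ≤
      b + 2 * h + 2 := by
    intro c hc
    have hne := CGen_ne (hf.col c hc).1
    have h5 := sd_cast hne i
    have h6 := hb c hc
    rw [Int.card_Icc]
    have h7 : ((c.1 (i, true) + ((h : ℤ) + 1) + 1 - (-c.1 (i, false) - (h + 1))).toNat : ℤ) =
        (sd c.1 i : ℤ) + 2 * h + 2 := by
      rw [Int.toNat_of_nonneg (by omega)]
      omega
    have h8 : (((c.1 (i, true) + ((h : ℤ) + 1) + 1 - (-c.1 (i, false) - (h + 1))).toNat : ℕ) : ℝ) =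
        (sd c.1 i : ℝ) + 2 * h + 2 := by exact_mod_cast h7
    rw [h8]
    linarith
  have h5 : (((Finset.Icc (u (lo d l i)) (v (lo d l i))).card : ℕ) : ℝ) ≤
      ∑ c ∈ C, (((Finset.Icc (-c.1 (i, false) - ((h : ℤ) + 1)) (c.1 (i, true) + (h + 1))).card : ℕ) : ℝ) := by
    exact_mod_cast h3
  have h6 := Finset.sum_le_card_nsmul C _ _ h4
  rw [nsmul_eq_mul] at h6
  have h7 : (((Finset.Icc (u (lo d l i)) (v (lo d l i))).card : ℕ) : ℤ) = v (lo d l i) - u (lo d l i) + 1 := by
    rw [Int.card_Icc, Int.toNat_of_nonneg (by omega)]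
    ring
  have h8 : (((Finset.Icc (u (lo d l i)) (v (lo d l i))).card : ℕ) : ℝ) =
      (v (lo d l i) : ℝ) - u (lo d l i) + 1 := by exact_mod_cast h7
  linarith

end BTR
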