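import Pool.Agent.BTR.E5a
import Pool.Agent.BTP.P4
import Pool.Agent.BTP.P1

set_option autoImplicit false

open scoped Classical
open Finset

/-! # The probability of many disjointly generated columns -/

namespace BTR
open BTP BTS

variable {d l h : ℕ}

/-- `n` columns of `s` are generated by disjoint sets -/
def Dj (l h : ℕ) (s : Finset (Box d)) : ℕ → Finset (Site (d + l)) → Prop
  | 0 => fun _ => True
  | n + 1 => fun U => ∃ T ∈ s, dis (CIG l h T) (Dj l h s n) U

/-- [BTR-CH2] PROOF. Induction on `n`; `Inc_dis` (BTP/P4). -/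
theorem Inc_Dj (s : Finset (Box d)) (n : ℕ) : Inc (Dj l h s n) := by
  cases n with
  | zero => exact fun _ _ _ _ => trivial
  | succ n =>
    rintro U U' hU ⟨T, hT, hd⟩
    exact ⟨T, hT, Inc_dis U U' hU hd⟩

/-- [BTR-CH2] the probability of `n` columns.
PROOF. Induction on `n`. `n = 0`: `Pr_le_one`. Step: `Pr_union` over `T ∈ s` (the event is `∃ T ∈ s, dis ..`), `bk` (`Inc_CIG`, `Inc_Dj`): `≤ ∑_{T ∈ s} x (card s · x)^n = card s · x · (card s · x)^n`. -/
theorem Pr_Dj {p : ℝ} (hp0 : 0 ≤ p) (hp2 : p ≤ 1 / 2) {V : Finset (Site (d + l))} {s : Finset (Box d)} {x : ℝ}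
    (hx0 : 0 ≤ x) (hx : ∀ T ∈ s, Pr V p (CIG l h T) ≤ x) (n : ℕ) :
    Pr V p (Dj l h s n) ≤ (s.card * x) ^ n := by
  have hp1 : p ≤ 1 := by linarith
  induction n with
  | zero =>
    rw [pow_zero]
    exact Pr_le_one hp0 hp1
  | succ n ih =>
    have h1 : Pr V p (Dj l h s (n + 1)) ≤ ∑ T ∈ s, Pr V p (dis (CIG l h T) (Dj l h s n)) :=
      Pr_union hp0 hp1 s (fun T => dis (CIG l h T) (Dj l h s n))
    have h2 : ∀ T ∈ s, Pr V p (dis (CIG l h T) (Dj l h s n)) ≤ x * (s.card * x) ^ n := by
      intro T hT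
      refine (BTP.bk hp0 hp2 V _ _ (Inc_CIG h T) (Inc_Dj s n)).trans ?_
      exact mul_le_mul (hx T hT) ih (Pr_nonneg hp0 hp1) hx0
    refine h1.trans ((Finset.sum_le_card_nsmul s _ _ h2).trans (le_of_eq ?_))
    rw [nsmul_eq_mul]
    ring

/-- [BTR-CH2] a family with `n` columns.
PROOF. First: for all `n` and all `C' ⊆ C` with `C'.card = n`: `Dj l h s n (C'.biUnion (fun c => c.2))`, by induction on `n`: `C' = insert c C''` (`Finset.card_eq_succ`), `T = c.1`, the disjoint sets `c.2` and `C''.biUnion ..` (`hf.dcc`, `Finset.disjoint_biUnion_right`), `CIG` with `W = c.2`. Then `Finset.exists_subset_card_eq` for `n ≤ C.card` and `Inc_Dj` (`C'.biUnion .. ⊆ U` by `hf.col`). -/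
theorem Dj_of_fam {U : Finset (Site (d + l))} {C : Finset (Box d × Finset (Site (d + l)))}
    {M : Finset (Box (d + l) × Finset (Site (d + l)))} (hf : Fam l h U C M) {s : Finset (Box d)}
    (hs : ∀ c ∈ C, c.1 ∈ s) {n : ℕ} (hn : n ≤ C.card) : Dj l h s n U := by
  have key : ∀ (n : ℕ) (C' : Finset (Box d × Finset (Site (d + l)))), C' ⊆ C → C'.card = n →
      Dj l h s n (C'.biUnion (fun c => c.2)) := by
    intro n
    induction n with
    | zero => exact fun _ _ _ => trivial
    | succ n ih =>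
      intro C' hC' hcard
      obtain ⟨c, C'', hc, rfl, hcard'⟩ := Finset.card_eq_succ.1 hcard
      have hcC : c ∈ C := hC' (Finset.mem_insert_self _ _)
      have hsub : C'' ⊆ C := (Finset.subset_insert c C'').trans hC'
      refine ⟨c.1, hs c hcC, c.2, C''.biUnion (fun c => c.2), ?_, ?_, ?_, ?_, ?_⟩
      · rw [Finset.disjoint_biUnion_right]
        intro c' hc'
        refine hf.dcc c hcC c' (hsub hc') ?_
        rintro rfl
        exact hc hc'
      · rw [Finset.biUnion_insert]
        exact Finset.subset_union_left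
      · rw [Finset.biUnion_insert]
        exact Finset.subset_union_right
      · exact ⟨c.2, Finset.Subset.refl _, (hf.col c hcC).1⟩
      · exact ih C'' hsub hcard'
  obtain ⟨C', hC', hcard⟩ := Finset.exists_subset_card_eq hn
  refine Inc_Dj s n _ _ ?_ (key n C' hC' hcard)
  exact Finset.biUnion_subset.2 fun c hc => (hf.col c (hC' hc)).2

end BTR
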