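import Pool.Agent.BTR.E1
set_option autoImplicit false

open scoped Classical
open Finset

/-! # Growth of columns: structure lemmas (only logic and induction, no numbers) -/

namespace BTR
open BTP BTS

variable {d l h : ℕ}

/-- [BTR-E2a] PROOF. Induction on `SGr` (generalising `T'`): `refl`: `Q' ≤ Q ≤ T ≤ T'`. `small`: `near_emb_mono`, `T ⊔ pr S ≤ T' ⊔ pr S`. `col`: `BTS.near_mono`. -/
theorem SGr_mono {Qt T T' Q Q' : Box d} {W : Finset (Site (d + l))} (hg : SGr l h Qt T Q W)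
    (hT : T ≤ T') (hQ : Q' ≤ Q) : SGr l h Qt T' Q' W := by
  induction hg generalizing T' with
  | refl hQT => exact SGr.refl (hQ.trans (hQT.trans hT))
  | small hS hh hn hg hd ih =>
    exact SGr.small hS hh (near_emb_mono hT le_rfl hn) (ih (sup_le_sup_right hT _) hQ) hd
  | col hR hQR hn hg hd ih =>
    exact SGr.col hR hQR (near_mono hT le_rfl hn) (ih (sup_le_sup_right hT _) hQ) hd

/-- [BTR-E2a] composition.
PROOF. Induction on `h1`. `refl`: `T₂ ≤ Q ⊔ T = T`: `SGr_mono`; `∅ ∪ W' = W'`. `small`: `T₂ ≤ Q ⊔ T ≤ Q ⊔ (T ⊔ pr S)`; the induction hypothesis gives `SGr (T ⊔ pr S) Q' (W ∪ W')`, then `SGr.small`, `Finset.union_assoc`, disjointness (`Finset.disjoint_union_left/right`). `col` is the same. -/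
theorem SGr_trans {Qt T Q T₂ Q' : Box d} {W W' : Finset (Site (d + l))} (h1 : SGr l h Qt T Q W)
    (h2 : SGr l h Qt T₂ Q' W') (hT : T₂ ≤ Q ⊔ T) (hd : Disjoint W W') :
    SGr l h Qt T Q' (W ∪ W') := by
  induction h1 with
  | refl hQT =>
    rw [Finset.empty_union]
    exact SGr_mono h2 (hT.trans (sup_le hQT le_rfl)) le_rfl
  | small hS hh hn hg hd' ih =>
    rw [Finset.disjoint_union_left] at hd
    rw [Finset.union_assoc]
    refine SGr.small hS hh hn (ih (hT.trans (sup_le_sup_left le_sup_left _)) hd.2) ?_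
    rw [Finset.disjoint_union_right]
    exact ⟨hd', hd.1⟩
  | col hR hQR hn hg hd' ih =>
    rw [Finset.disjoint_union_left] at hd
    rw [Finset.union_assoc]
    refine SGr.col hR hQR hn (ih (hT.trans (sup_le_sup_left le_sup_left _)) hd.2) ?_
    rw [Finset.disjoint_union_right]
    exact ⟨hd', hd.1⟩

/-- [BTR-E2a] one more small box at the end: from `T` to `Q`, and then `S` is near `emb Q`.
PROOF. `SGr_trans` with `T₂ = Q` and `SGr.small hS hh hn (SGr.refl le_rfl) (disjoint_empty)`. -/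
theorem SGr_snoc_small {Qt T Q : Box d} {S : Box (d + l)} {W W' : Finset (Site (d + l))}
    (h1 : SGr l h Qt T Q W) (hS : Gen S W') (hh : Ys S < h) (hn : near (emb l Q) S)
    (hd : Disjoint W W') : SGr l h Qt T (Q ⊔ pr S) (W ∪ W') := by
  have h2 : SGr l h Qt Q (Q ⊔ pr S) (W' ∪ ∅) :=
    SGr.small hS hh hn (SGr.refl le_rfl) (Finset.disjoint_empty_right _)
  rw [Finset.union_empty] at h2
  exact SGr_trans h1 h2 le_sup_left hd

theorem SGr_snoc_col {Qt T Q R : Box d} {W W' : Finset (Site (d + l))}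
    (h1 : SGr l h Qt T Q W) (hR : CGen l h R W') (hQR : ¬ Qt ≤ R) (hn : near Q R)
    (hd : Disjoint W W') : SGr l h Qt T (Q ⊔ R) (W ∪ W') := by
  have h2 : SGr l h Qt Q (Q ⊔ R) (W' ∪ ∅) :=
    SGr.col hR hQR hn (SGr.refl le_rfl) (Finset.disjoint_empty_right _)
  rw [Finset.union_empty] at h2
  exact SGr_trans h1 h2 le_sup_left hd

end BTR
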