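import Pool.Agent.BTR.E1
import Pool.Agent.BTR.E2a
set_option autoImplicit false

open scoped Classical
open Finset

/-! # Growth of columns: structure lemmas (only logic and induction, no numbers) -/

namespace BTR
open BTP BTS

variable {d l h : ℕ}

/-- [BTR-E2b] a column grows from one of its base boxes; the side columns are `≤ T`, so they do not contain `Qt`.
PROOF. Induction on `CGen`. `base`: `S` itself, `W₁ = ∅`, `SGr.refl`. `cs`: the induction hypothesis for `T` (`¬ Qt ≤ T` as `T ≤ T ⊔ pr S`), then `SGr_snoc_small` (`W₁ ∪ W'`). `cc`: the induction hypothesis for the first column, then `SGr_snoc_col` with the second. -/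
theorem CGen_start {T : Box d} {W : Finset (Site (d + l))} (hg : CGen l h T W) {Qt : Box d}
    (hQ : ¬ Qt ≤ T) : ∃ (S : Box (d + l)) (W₀ W₁ : Finset (Site (d + l))), Gen S W₀ ∧
      (h : ℤ) ≤ Ys S ∧ Ys S ≤ 2 * h ∧ pr S ≤ T ∧ W₀ ⊆ W ∧ W₁ ⊆ W ∧ Disjoint W₀ W₁ ∧
      SGr l h Qt (pr S) T W₁ := by
  induction hg with
  | base hS h1 h2 =>
    exact ⟨_, _, ∅, hS, h1, h2, le_rfl, Finset.Subset.refl _, Finset.empty_subset _,
      Finset.disjoint_empty_right _, SGr.refl le_rfl⟩
  | cs hT hS hh hd hn ih =>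
    obtain ⟨S0, W0, W1, g, e1, e2, e3, s0, s1, dj, sg⟩ := ih (fun h' => hQ (h'.trans le_sup_left))
    exact ⟨S0, W0, _, g, e1, e2, e3.trans le_sup_left, s0.trans Finset.subset_union_left,
      Finset.union_subset_union_left s1,
      Finset.disjoint_union_right.2 ⟨dj, Finset.disjoint_of_subset_left s0 hd⟩,
      SGr_snoc_small sg hS hh hn (Finset.disjoint_of_subset_left s1 hd)⟩
  | cc hT hT' hd hn ih ih' =>
    obtain ⟨S0, W0, W1, g, e1, e2, e3, s0, s1, dj, sg⟩ := ih (fun h' => hQ (h'.trans le_sup_left))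
    exact ⟨S0, W0, _, g, e1, e2, e3.trans le_sup_left, s0.trans Finset.subset_union_left,
      Finset.union_subset_union_left s1,
      Finset.disjoint_union_right.2 ⟨dj, Finset.disjoint_of_subset_left s0 hd⟩,
      SGr_snoc_col sg hT' (fun h' => hQ (h'.trans le_sup_right)) hn
        (Finset.disjoint_of_subset_left s1 hd)⟩

/-- [BTR-E2b] a column grows from a generated box which contains a given site.
PROOF. Induction on `CGen`. `base`: the base box. `cs T S W W'`: if `v ∈ W`: the induction hypothesis for `T`, then `SGr_snoc_small`. If `v ∈ W'`: the box `S` itself (`Ys S < h ≤ 2h`; note `0 ≤ h` as `Ys S ≥ 0`), and `SGr.col` with the column `T` (`near_of_emb`, `BTP.near_symm`; `pr S ⊔ T` contains `T ⊔ pr S`), `SGr.refl`.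
`cc T T' W W'`: `v ∈ W`: the induction hypothesis for `T` and `SGr_snoc_col` with `T'`; `v ∈ W'`: the same with the roles exchanged (`sup_comm`, `BTP.near_symm`, `SGr_mono`). -/
theorem CGen_from {T : Box d} {W : Finset (Site (d + l))} (hg : CGen l h T W) {Qt : Box d}
    (hQ : ¬ Qt ≤ T) {v : Site (d + l)} (hv : v ∈ W) :
    ∃ (S : Box (d + l)) (W₀ W₁ : Finset (Site (d + l))), v ∈ W₀ ∧ Gen S W₀ ∧ Ys S ≤ 2 * h ∧
      pr S ≤ T ∧ W₀ ⊆ W ∧ W₁ ⊆ W ∧ Disjoint W₀ W₁ ∧ SGr l h Qt (pr S) T W₁ := by
  induction hg with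
  | base hS h1 h2 =>
    exact ⟨_, _, ∅, hv, hS, h2, le_rfl, Finset.Subset.refl _, Finset.empty_subset _,
      Finset.disjoint_empty_right _, SGr.refl le_rfl⟩
  | @cs T S W W' hT hS hh hd hn ih =>
    rcases Finset.mem_union.1 hv with hv | hv
    · obtain ⟨S0, W0, W1, hv0, g, e2, e3, s0, s1, dj, sg⟩ :=
        ih (fun h' => hQ (h'.trans le_sup_left)) hv
      exact ⟨S0, W0, _, hv0, g, e2, e3.trans le_sup_left, s0.trans Finset.subset_union_left,
        Finset.union_subset_union_left s1,
        Finset.disjoint_union_right.2 ⟨dj, Finset.disjoint_of_subset_left s0 hd⟩,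
        SGr_snoc_small sg hS hh hn (Finset.disjoint_of_subset_left s1 hd)⟩
    · have hcol : SGr l h Qt (pr S) (T ⊔ pr S) (W ∪ ∅) :=
        SGr.col hT (fun h' => hQ (h'.trans le_sup_left)) (BTP.near_symm (near_of_emb hn))
          (SGr.refl (by rw [sup_comm])) (Finset.disjoint_empty_right _)
      rw [Finset.union_empty] at hcol
      refine ⟨S, W', W, hv, hS, by omega, le_sup_right, Finset.subset_union_right,
        Finset.subset_union_left, hd.symm, hcol⟩
  | @cc T T' W W' hT hT' hd hn ih ih' =>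
    rcases Finset.mem_union.1 hv with hv | hv
    · obtain ⟨S0, W0, W1, hv0, g, e2, e3, s0, s1, dj, sg⟩ :=
        ih (fun h' => hQ (h'.trans le_sup_left)) hv
      exact ⟨S0, W0, _, hv0, g, e2, e3.trans le_sup_left, s0.trans Finset.subset_union_left,
        Finset.union_subset_union_left s1,
        Finset.disjoint_union_right.2 ⟨dj, Finset.disjoint_of_subset_left s0 hd⟩,
        SGr_snoc_col sg hT' (fun h' => hQ (h'.trans le_sup_right)) hn
          (Finset.disjoint_of_subset_left s1 hd)⟩
    · obtain ⟨S0, W0, W1, hv0, g, e2, e3, s0, s1, dj, sg⟩ :=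
        ih' (fun h' => hQ (h'.trans le_sup_right)) hv
      refine ⟨S0, W0, W1 ∪ W, hv0, g, e2, e3.trans le_sup_right,
        s0.trans Finset.subset_union_right, ?_, ?_, ?_⟩
      · exact Finset.union_subset (s1.trans Finset.subset_union_right) Finset.subset_union_left
      · exact Finset.disjoint_union_right.2 ⟨dj, Finset.disjoint_of_subset_left s0 hd.symm⟩
      · rw [sup_comm T T']
        exact SGr_snoc_col sg hT (fun h' => hQ (h'.trans le_sup_left)) (BTP.near_symm hn)
          (Finset.disjoint_of_subset_left s1 hd.symm)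

end BTR
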