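import Pool.Agent.BTR.E1
import Pool.Agent.BTR.E2a
import Pool.Agent.BTR.E2b
set_option autoImplicit false

open scoped Classical
open Finset

/-! # Growth of columns: structure lemmas (only logic and induction, no numbers) -/

namespace BTR
open BTP BTS

variable {d l h : ℕ}

/-- [BTR-E2c] the start of the growth of `Q`, without side columns containing `Q`.
PROOF. Induction on `CGen`. `base`: `Q ≤ pr S`: `SGr.refl`. `cs T S`: if `Q ≤ T` the induction hypothesis for `T` (the sets get larger); otherwise `CGen_start` for `T` (`Qt = Q`) and `SGr_snoc_small`, `SGr_mono` (`Q ≤ T ⊔ pr S`). `cc T T'`: if `Q ≤ T` or `Q ≤ T'` the induction hypothesis; otherwise `CGen_start` for `T` and `SGr_snoc_col` with `T'` (`¬ Q ≤ T'`), `SGr_mono`. -/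
theorem CGen_start_end {R Q : Box d} {W : Finset (Site (d + l))} (hg : CGen l h R W)
    (hQ : Q ≤ R) : ∃ (S : Box (d + l)) (W₀ W₁ : Finset (Site (d + l))), Gen S W₀ ∧
      (h : ℤ) ≤ Ys S ∧ Ys S ≤ 2 * h ∧ pr S ≤ R ∧ W₀ ⊆ W ∧ W₁ ⊆ W ∧ Disjoint W₀ W₁ ∧
      SGr l h Q (pr S) Q W₁ := by
  induction hg with
  | @base S W hS h1 h2 =>
    exact ⟨S, W, ∅, hS, h1, h2, le_rfl, Finset.Subset.rfl, Finset.empty_subset _,
      Finset.disjoint_empty_right _, SGr.refl hQ⟩
  | @cs T S W W' hT hS hh hd hn ih =>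
    by_cases hQT : Q ≤ T
    · obtain ⟨S₁, W₀, W₁, a1, a2, a3, a4, a5, a6, a7, a8⟩ := ih hQT
      exact ⟨S₁, W₀, W₁, a1, a2, a3, a4.trans le_sup_left, a5.trans Finset.subset_union_left,
        a6.trans Finset.subset_union_left, a7, a8⟩
    · obtain ⟨S₁, W₀, W₁, a1, a2, a3, a4, a5, a6, a7, a8⟩ := CGen_start hT hQT
      have hdd : Disjoint W₁ W' := Finset.disjoint_of_subset_left a6 hd
      refine ⟨S₁, W₀, W₁ ∪ W', a1, a2, a3, a4.trans le_sup_left,
        a5.trans Finset.subset_union_left, Finset.union_subset_union a6 Finset.Subset.rfl, ?_, ?_⟩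
      · exact Finset.disjoint_union_right.2 ⟨a7, Finset.disjoint_of_subset_left a5 hd⟩
      · exact SGr_mono (SGr_snoc_small a8 hS hh hn hdd) le_rfl hQ
  | @cc T T' W W' hT hT' hd hn ih ih' =>
    by_cases hQT : Q ≤ T
    · obtain ⟨S₁, W₀, W₁, a1, a2, a3, a4, a5, a6, a7, a8⟩ := ih hQT
      exact ⟨S₁, W₀, W₁, a1, a2, a3, a4.trans le_sup_left, a5.trans Finset.subset_union_left,
        a6.trans Finset.subset_union_left, a7, a8⟩
    · by_cases hQT' : Q ≤ T'
      · obtain ⟨S₁, W₀, W₁, a1, a2, a3, a4, a5, a6, a7, a8⟩ := ih' hQT'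
        exact ⟨S₁, W₀, W₁, a1, a2, a3, a4.trans le_sup_right, a5.trans Finset.subset_union_right,
          a6.trans Finset.subset_union_right, a7, a8⟩
      · obtain ⟨S₁, W₀, W₁, a1, a2, a3, a4, a5, a6, a7, a8⟩ := CGen_start hT hQT
        have hdd : Disjoint W₁ W' := Finset.disjoint_of_subset_left a6 hd
        refine ⟨S₁, W₀, W₁ ∪ W', a1, a2, a3, a4.trans le_sup_left,
          a5.trans Finset.subset_union_left, Finset.union_subset_union a6 Finset.Subset.rfl,
          ?_, ?_⟩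
        · exact Finset.disjoint_union_right.2 ⟨a7, Finset.disjoint_of_subset_left a5 hd⟩
        · exact SGr_mono (SGr_snoc_col a8 hT' hQT' hn hdd) le_rfl hQ

/-- [BTR-E2c] revealing a used site near the column: merge first with a generated box which contains it.
PROOF. Induction on `SGr`. `refl`: `W = ∅`. `small S W' W`: if `v ∈ W'`: the box `S` itself, `W₁ = W`. If `v ∈ W` (so `v ∉ W'`): the induction hypothesis at `T ⊔ pr S` (`near_emb_mono`) gives `S₁, W₀, W₁`; `SGr.small` with `S` (near `T ⊔ pr S₁`: `near_emb_mono`) and `T ⊔ pr S₁ ⊔ pr S = T ⊔ pr S ⊔ pr S₁` (`sup_right_comm`): sets `W₀` and `W' ∪ W₁`.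
`col R W' W`: if `v ∈ W`: the same with `SGr.col`. If `v ∈ W'`: `CGen_from` for `R` (`hQR`) gives `S, W₀, W₁'` with `SGr (pr S) R W₁'`; `SGr_mono` to the start `T ⊔ pr S`, and `SGr_trans` with `SGr (T ⊔ R) Q W` (`T ⊔ R ≤ R ⊔ (T ⊔ pr S)`): sets `W₀` and `W₁' ∪ W`. -/
theorem SGr_reveal {Qt T Q : Box d} {W : Finset (Site (d + l))} (hg : SGr l h Qt T Q W)
    {v : Site (d + l)} (hv : v ∈ W) (hn : near (emb l T) (cc v)) :
    ∃ (S : Box (d + l)) (W₀ W₁ : Finset (Site (d + l))), v ∈ W₀ ∧ Gen S W₀ ∧ Ys S ≤ 2 * h ∧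
      W₀ ⊆ W ∧ W₁ ⊆ W ∧ Disjoint W₀ W₁ ∧ SGr l h Qt (T ⊔ pr S) Q W₁ := by
  induction hg with
  | refl hQ => exact absurd hv (Finset.notMem_empty v)
  | @small T Q S W' W hS hh hnS hg hd ih =>
    by_cases hvW : v ∈ W'
    · have h0 : (0 : ℤ) ≤ h := Int.natCast_nonneg h
      exact ⟨S, W', W, hvW, hS, by linarith, Finset.subset_union_left, Finset.subset_union_right,
        hd, hg⟩
    · have hvW2 : v ∈ W := (Finset.mem_union.1 hv).resolve_left hvW
      obtain ⟨S₁, W₀, W₁, a1, a2, a3, a4, a5, a6, a7⟩ :=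
        ih hvW2 (near_emb_mono le_sup_left le_rfl hn)
      refine ⟨S₁, W₀, W' ∪ W₁, a1, a2, a3, a4.trans Finset.subset_union_right,
        Finset.union_subset_union Finset.Subset.rfl a5, ?_, ?_⟩
      · exact Finset.disjoint_union_right.2 ⟨(Finset.disjoint_of_subset_right a4 hd).symm, a6⟩
      · refine SGr.small hS hh (near_emb_mono le_sup_left le_rfl hnS) ?_
          (Finset.disjoint_of_subset_right a5 hd)
        rw [sup_right_comm]
        exact a7
  | @col T Q R W' W hR hQR hnR hg hd ih =>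
    by_cases hvW : v ∈ W'
    · obtain ⟨S, W₀, W₁, a1, a2, a3, a4, a5, a6, a7, a8⟩ := CGen_from hR hQR hvW
      refine ⟨S, W₀, W₁ ∪ W, a1, a2, a3, a5.trans Finset.subset_union_left,
        Finset.union_subset_union a6 Finset.Subset.rfl, ?_, ?_⟩
      · exact Finset.disjoint_union_right.2 ⟨a7, Finset.disjoint_of_subset_left a5 hd⟩
      · refine SGr_trans (SGr_mono a8 le_sup_right le_rfl) hg ?_
          (Finset.disjoint_of_subset_left a6 hd)
        exact sup_le (le_sup_of_le_right le_sup_left) le_sup_left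
    · have hvW2 : v ∈ W := (Finset.mem_union.1 hv).resolve_left hvW
      obtain ⟨S₁, W₀, W₁, a1, a2, a3, a4, a5, a6, a7⟩ :=
        ih hvW2 (near_emb_mono le_sup_left le_rfl hn)
      refine ⟨S₁, W₀, W' ∪ W₁, a1, a2, a3, a4.trans Finset.subset_union_right,
        Finset.union_subset_union Finset.Subset.rfl a5, ?_, ?_⟩
      · exact Finset.disjoint_union_right.2 ⟨(Finset.disjoint_of_subset_right a4 hd).symm, a6⟩
      · refine SGr.col hR hQR (BTS.near_mono le_sup_left le_rfl hnR) ?_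
          (Finset.disjoint_of_subset_right a5 hd)
        rw [sup_right_comm]
        exact a7

/-- [BTR-E2c] the first step which enlarges the column.
PROOF. Induction on `SGr`. `refl`: excluded by `hQ`. `small`: if `pr S ≤ T` then `T ⊔ pr S = T` and the induction hypothesis (with larger sets); otherwise the first alternative. `col`: if `R ≤ T` the induction hypothesis, otherwise the second alternative. -/
theorem SGr_first {Qt T Q : Box d} {W : Finset (Site (d + l))} (hg : SGr l h Qt T Q W)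
    (hQ : ¬ Q ≤ T) :
    (∃ (S : Box (d + l)) (W₀ W₁ : Finset (Site (d + l))), Gen S W₀ ∧ Ys S < h ∧
      near (emb l T) S ∧ ¬ pr S ≤ T ∧ W₀ ⊆ W ∧ W₁ ⊆ W ∧ Disjoint W₀ W₁ ∧
      SGr l h Qt (T ⊔ pr S) Q W₁) ∨
    (∃ (R : Box d) (W₀ W₁ : Finset (Site (d + l))), CGen l h R W₀ ∧ ¬ Qt ≤ R ∧ near T R ∧
      ¬ R ≤ T ∧ W₀ ⊆ W ∧ W₁ ⊆ W ∧ Disjoint W₀ W₁ ∧ SGr l h Qt (T ⊔ R) Q W₁) := by
  induction hg with
  | refl h0 => exact absurd h0 hQ
  | @small T Q S W' W hS hh hn hg hd ih =>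
    by_cases hST : pr S ≤ T
    · have e : T ⊔ pr S = T := sup_eq_left.2 hST
      rw [e] at ih hg
      rcases ih hQ with ⟨S₁, W₀, W₁, a1, a2, a3, a4, a5, a6, a7, a8⟩ |
        ⟨R₁, W₀, W₁, a1, a2, a3, a4, a5, a6, a7, a8⟩
      · exact Or.inl ⟨S₁, W₀, W₁, a1, a2, a3, a4, a5.trans Finset.subset_union_right,
          a6.trans Finset.subset_union_right, a7, a8⟩
      · exact Or.inr ⟨R₁, W₀, W₁, a1, a2, a3, a4, a5.trans Finset.subset_union_right,
          a6.trans Finset.subset_union_right, a7, a8⟩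
    · exact Or.inl ⟨S, W', W, hS, hh, hn, hST, Finset.subset_union_left,
        Finset.subset_union_right, hd, hg⟩
  | @col T Q R W' W hR hQR hn hg hd ih =>
    by_cases hRT : R ≤ T
    · have e : T ⊔ R = T := sup_eq_left.2 hRT
      rw [e] at ih hg
      rcases ih hQ with ⟨S₁, W₀, W₁, a1, a2, a3, a4, a5, a6, a7, a8⟩ |
        ⟨R₁, W₀, W₁, a1, a2, a3, a4, a5, a6, a7, a8⟩
      · exact Or.inl ⟨S₁, W₀, W₁, a1, a2, a3, a4, a5.trans Finset.subset_union_right,
          a6.trans Finset.subset_union_right, a7, a8⟩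
      · exact Or.inr ⟨R₁, W₀, W₁, a1, a2, a3, a4, a5.trans Finset.subset_union_right,
          a6.trans Finset.subset_union_right, a7, a8⟩
    · exact Or.inr ⟨R, W', W, hR, hQR, hn, hRT, Finset.subset_union_left,
        Finset.subset_union_right, hd, hg⟩

end BTR
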