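import Pool.Agent.BTR.E1
import Pool.Agent.BTR.E2a
import Pool.Agent.BTR.E2b
import Pool.Agent.BTR.E2c
set_option autoImplicit false

open scoped Classical
open Finset

/-! # Growth of columns: structure lemmas (only logic and induction, no numbers) -/

namespace BTR
open BTP BTS

variable {d l h : ℕ}

/-- [BTR-E2d] leaving a domain: by the merge of a column with a small box or with a column.
PROOF. Induction on `CGen`. `base`: excluded by `hb` (`Gen.ne`). `cs T S`: if `¬ D T` the induction hypothesis for `T` (`T ≤ T ⊔ pr S`, larger sets), otherwise the first alternative. `cc T T'`: if `¬ D T` or `¬ D T'` the induction hypothesis, otherwise the second alternative. -/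
theorem CGen_exit {Q : Box d} {W : Finset (Site (d + l))} (D : Box d → Prop)
    (hb : ∀ S : Box (d + l), Ne S → Ys S ≤ 2 * h → D (pr S)) (hg : CGen l h Q W) (hQ : ¬ D Q) :
    (∃ (T : Box d) (S : Box (d + l)) (WT WS : Finset (Site (d + l))), D T ∧ ¬ D (T ⊔ pr S) ∧
      near (emb l T) S ∧ Ys S < h ∧ T ⊔ pr S ≤ Q ∧ CGen l h T WT ∧ Gen S WS ∧ Disjoint WT WS ∧
      WT ⊆ W ∧ WS ⊆ W) ∨
    (∃ (T T' : Box d) (WT WT' : Finset (Site (d + l))), D T ∧ D T' ∧ ¬ D (T ⊔ T') ∧ near T T' ∧
      T ⊔ T' ≤ Q ∧ CGen l h T WT ∧ CGen l h T' WT' ∧ Disjoint WT WT' ∧ WT ⊆ W ∧ WT' ⊆ W) := by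
  induction hg with
  | @base S W hS h1 h2 => exact absurd (hb S hS.ne h2) hQ
  | @cs T S W W' hT hS hh hd hn ih =>
    by_cases hDT : D T
    · exact Or.inl ⟨T, S, W, W', hDT, hQ, hn, hh, le_rfl, hT, hS, hd, Finset.subset_union_left,
        Finset.subset_union_right⟩
    · rcases ih hDT with ⟨T₁, S₁, WT, WS, a1, a2, a3, a4, a5, a6, a7, a8, a9, a10⟩ |
        ⟨T₁, T₂, WT, WS, a1, a2, a3, a4, a5, a6, a7, a8, a9, a10⟩
      · exact Or.inl ⟨T₁, S₁, WT, WS, a1, a2, a3, a4, a5.trans le_sup_left, a6, a7, a8,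
          a9.trans Finset.subset_union_left, a10.trans Finset.subset_union_left⟩
      · exact Or.inr ⟨T₁, T₂, WT, WS, a1, a2, a3, a4, a5.trans le_sup_left, a6, a7, a8,
          a9.trans Finset.subset_union_left, a10.trans Finset.subset_union_left⟩
  | @cc T T' W W' hT hT' hd hn ih ih' =>
    by_cases hDT : D T
    · by_cases hDT' : D T'
      · exact Or.inr ⟨T, T', W, W', hDT, hDT', hQ, hn, le_rfl, hT, hT', hd,
          Finset.subset_union_left, Finset.subset_union_right⟩
      · rcases ih' hDT' with ⟨T₁, S₁, WT, WS, a1, a2, a3, a4, a5, a6, a7, a8, a9, a10⟩ |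
          ⟨T₁, T₂, WT, WS, a1, a2, a3, a4, a5, a6, a7, a8, a9, a10⟩
        · exact Or.inl ⟨T₁, S₁, WT, WS, a1, a2, a3, a4, a5.trans le_sup_right, a6, a7, a8,
            a9.trans Finset.subset_union_right, a10.trans Finset.subset_union_right⟩
        · exact Or.inr ⟨T₁, T₂, WT, WS, a1, a2, a3, a4, a5.trans le_sup_right, a6, a7, a8,
            a9.trans Finset.subset_union_right, a10.trans Finset.subset_union_right⟩
    · rcases ih hDT with ⟨T₁, S₁, WT, WS, a1, a2, a3, a4, a5, a6, a7, a8, a9, a10⟩ |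
        ⟨T₁, T₂, WT, WS, a1, a2, a3, a4, a5, a6, a7, a8, a9, a10⟩
      · exact Or.inl ⟨T₁, S₁, WT, WS, a1, a2, a3, a4, a5.trans le_sup_left, a6, a7, a8,
          a9.trans Finset.subset_union_left, a10.trans Finset.subset_union_left⟩
      · exact Or.inr ⟨T₁, T₂, WT, WS, a1, a2, a3, a4, a5.trans le_sup_left, a6, a7, a8,
          a9.trans Finset.subset_union_left, a10.trans Finset.subset_union_left⟩

end BTR
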