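import Pool.Agent.BTR.M4a
import Pool.Agent.BTR.E2
import Pool.Agent.BTR.V20

set_option autoImplicit false

open scoped Classical
open Finset

/-! # Expensive columns (helper69) -/

namespace BTR
open BTP BTS

variable {d l : ℕ} (a : Pc d l)

theorem m7_B1 : 1 ≤ a.B := by linarith [a.hHB, a.hH1]

/-- [BTR-M4b] boxes of small extent are in the domain -/
theorem dom_base {S : Box (d + l)} (hS : Ne S) (hY : Ys S ≤ 2 * a.h) :
    a.InD (pr S) ∧ a.Ps (pr S) ≤ d * a.A * lamk (d - 1) (l + 1) := by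
  have h0 := Ys_pr_le hS
  have hP := ne_pr hS
  have hY' : Ys (pr S) ≤ 2 * a.h := h0.trans hY
  have hB1 := m7_B1 a
  have hg := a.hgam0
  have hsd : ∀ i, (sd (pr S) i : ℝ) ≤ 2 * a.h + 1 := by
    intro i
    have h1 := Ys_eq hP
    have h2 : (sd (pr S) i : ℤ) - 1 ≤ Ys (pr S) := by
      rw [b1_Ys]
      have h3 := sd_cast hP i
      have h4 : pr S (i, true) + pr S (i, false) ≤ ∑ m, (pr S (m, true) + pr S (m, false)) :=
        Finset.single_le_sum (f := fun m : Fin d => pr S (m, true) + pr S (m, false))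
          (fun m _ => hP m) (Finset.mem_univ i)
      linarith
    have h3 : (sd (pr S) i : ℤ) ≤ 2 * a.h + 1 := by linarith
    exact_mod_cast h3
  have hh1 : (1 : ℝ) ≤ a.h := by exact_mod_cast a.hh
  have hHh : 2 * (a.h : ℝ) + 1 ≤ a.H1 := by
    have h7 := a.hHs
    have e1 : (1 : ℝ) ≤ 10 ^ (8 * (d + l)) := one_le_pow₀ (by norm_num)
    have e2 : 2 * (a.h : ℝ) + 7 ≤ (2 * (a.h : ℝ) + 7) ^ (9 * (d + l)) :=
      le_self_pow₀ (by linarith) (by have := a.hd; omega)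
    have e3 : (1 : ℝ) ≤ (1 + a.Z) ^ 2 := by
      have := a.hZ
      nlinarith
    have e4 : (1 : ℝ) ≤ 10 ^ (8 * (d + l)) * (a.h : ℝ) := by nlinarith
    have e5 : 0 ≤ (2 * (a.h : ℝ) + 7) ^ (9 * (d + l)) := by positivity
    calc 2 * (a.h : ℝ) + 1 ≤ (2 * (a.h : ℝ) + 7) ^ (9 * (d + l)) := by linarith
      _ ≤ 10 ^ (8 * (d + l)) * (a.h : ℝ) * (2 * (a.h : ℝ) + 7) ^ (9 * (d + l)) := le_mul_of_one_le_left e5 e4
      _ ≤ 10 ^ (8 * (d + l)) * (a.h : ℝ) * (2 * (a.h : ℝ) + 7) ^ (9 * (d + l)) * (1 + a.Z) ^ 2 :=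
          le_mul_of_one_le_right (by positivity) e3
      _ ≤ a.H1 := h7
  refine ⟨⟨?_, fun i => ?_⟩, ?_⟩
  · intro i
    have hH1 := a.hH1
    have hf : ∀ m, a.f (sd (pr S) m) ≤ 2 * a.H := by
      intro m
      have e1 := f_le a (pr S) m
      have e2 : a.X (pr S) m = a.H1 := by
        unfold Pc.X xt
        exact max_eq_right ((hsd m).trans hHh)
      rw [e2] at e1
      have := a.hH
      linarith
    have e1 : a.zf (pr S) i ≤ a.q * (2 * a.H) ^ (d - 1) := by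
      unfold Pc.zf
      apply mul_le_mul_of_nonneg_left _ a.hq.le
      calc ∏ m ∈ Finset.univ.erase i, a.f (sd (pr S) m) ≤ ∏ _m ∈ Finset.univ.erase i, (2 * a.H) :=
            Finset.prod_le_prod (fun m _ => ((gp a).pos _).le) fun m _ => hf m
        _ = (2 * a.H) ^ (d - 1) := by
            rw [Finset.prod_const, Finset.card_erase_of_mem (Finset.mem_univ i), Finset.card_univ,
              Fintype.card_fin]
    have e2 := a.hzH
    have e3 := a.hZ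
    linarith
  · exact (hsd i).trans (hHh.trans a.hHB)
  · have h5 := Ps_le a hP
    have h6 : (Ys (pr S) : ℝ) ≤ 2 * a.h := by exact_mod_cast hY'
    have h7 : ((Ys (pr S) : ℝ) + d) * a.gam ≤ (4 * a.h + d + 8) * a.gam :=
      mul_le_mul_of_nonneg_right (by linarith) hg
    have h8 := a.hLm
    have h9 : 0 ≤ (d : ℝ) * Real.log a.B := mul_nonneg (Nat.cast_nonneg _) (Real.log_nonneg hB1)
    linarith

/-- [BTR-M4b] the thickness: `kk ≤ B²` -/
theorem kk_le : (a.kk : ℝ) ^ (2 * l) ≤ a.B ^ (4 * l) := by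
  have hB1 := m7_B1 a
  have hA : a.A ≤ a.B := by
    have h1 := a.hB
    have h2 : (1 : ℝ) ≤ 4 ^ d := one_le_pow₀ (by norm_num)
    have h3 := a.hZ
    have h4 := a.hA
    have h5 : (1 : ℝ) ≤ 4 ^ d * a.Z := by nlinarith
    have h6 : a.A ≤ 4 ^ d * a.Z * a.A := le_mul_of_one_le_left (by linarith) h5
    linarith
  calc (a.kk : ℝ) ^ (2 * l) ≤ (a.A ^ 2) ^ (2 * l) := pow_le_pow_left₀ (Nat.cast_nonneg _) a.hkk _
    _ ≤ (a.B ^ 2) ^ (2 * l) := by
        have : a.A ^ 2 ≤ a.B ^ 2 := pow_le_pow_left₀ (by linarith [a.hA]) hA 2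
        exact pow_le_pow_left₀ (by positivity) this _
    _ = a.B ^ (4 * l) := by
        rw [← pow_mul]
        congr 1
        ring

/-- [BTR-M4b] expensive columns (port of BTS/M4b.lean).
PROOF. `CGen_exit` with `D R := Ps R ≤ Lm` (`dom_base`). Column and small box: `IH`, `small_merge`: `≤ exp(-P - Ps (T ⊔ pr S)) ≤ exp(-P - Lm)`. Two columns: `IH` twice, `Ps_merge`: `≤ exp(-2P + 2γ - Lm)`. At most `2 B^(4d+4l)` pairs; `hcnt`. -/
theorem exit_bound0 {Q : Box d} (hQ : Ne Q) (hD : a.InD Q) (hP : d * a.A * lamk (d - 1) (l + 1) < a.Ps Q)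
    (IH : ∀ R : Box d, Ne R → R ≤ Q → R ≠ Q → a.Ps R ≤ d * a.A * lamk (d - 1) (l + 1) →
      ∀ V : Finset (Site (d + l)), V ⊆ sites (cyl l a.kk Q) →
        Pr V a.p (CIG l a.h R) ≤ Real.exp (-a.P - a.Ps R)) {V : Finset (Site (d + l))}
    (hV : V ⊆ sites (cyl l a.kk Q)) :
    Pr V a.p (CIG l a.h Q) ≤ Real.exp (-(d * a.A * lamk (d - 1) (l + 1)) - a.P / 2) := by
  have hg := a.hgam0
  have hp0 := p_nonneg a
  have hp1 := p_le_one a
  have hPp := a.hP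
  have hB1 := m7_B1 a
  set Lm := d * a.A * lamk (d - 1) (l + 1) with hLm
  set S1 : Finset (Box d × Box (d + l)) := (sub Q ×ˢ sub (cyl l a.kk Q)).filter (fun y =>
    a.Ps y.1 ≤ Lm ∧ Lm < a.Ps (y.1 ⊔ pr y.2) ∧ near (emb l y.1) y.2 ∧ Ys y.2 < a.h) with hS1
  set S2 : Finset (Box d × Box d) := (sub Q ×ˢ sub Q).filter (fun y =>
    a.Ps y.1 ≤ Lm ∧ a.Ps y.2 ≤ Lm ∧ Lm < a.Ps (y.1 ⊔ y.2) ∧ near y.1 y.2) with hS2
  have hne : ∀ {T : Box d}, a.Ps T ≤ Lm → T ≠ Q := by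
    rintro T hT rfl
    linarith
  have hsub : ∀ U ⊆ V, CIG l a.h Q U →
      (∃ y ∈ S1, dis (CIG l a.h y.1) (IG y.2) U) ∨ ∃ y ∈ S2, dis (CIG l a.h y.1) (CIG l a.h y.2) U := by
    rintro U hU ⟨W', hW'U, hg'⟩
    rcases CGen_exit (fun R => a.Ps R ≤ Lm) (fun S hS hY => (dom_base a hS hY).2) hg' (not_le.2 hP) with
      ⟨T, S, WT, WS, h1, h2, h3, h4, h5, h6, h7, h8, h9, h10⟩ |
      ⟨T, T', WT, WT', h1, h2, h3, h4, h5, h6, h7, h8, h9, h10⟩
    · left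
      refine ⟨(T, S), ?_, WT, WS, h8, h9.trans hW'U, h10.trans hW'U, ⟨WT, Finset.Subset.refl _, h6⟩,
        ⟨WS, Finset.Subset.refl _, h7⟩⟩
      rw [hS1, Finset.mem_filter, Finset.mem_product, BTP.mem_sub, BTP.mem_sub]
      refine ⟨⟨⟨CGen_ne h6, le_sup_left.trans h5⟩, h7.ne, ?_⟩, h1, not_le.1 h2, h3, h4⟩
      exact Gen_le_cyl h7 (fun v hv => hV (hU (hW'U (h10 hv))))
    · right
      refine ⟨(T, T'), ?_, WT, WT', h8, h9.trans hW'U, h10.trans hW'U, ⟨WT, Finset.Subset.refl _, h6⟩,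
        ⟨WT', Finset.Subset.refl _, h7⟩⟩
      rw [hS2, Finset.mem_filter, Finset.mem_product, BTP.mem_sub, BTP.mem_sub]
      exact ⟨⟨⟨CGen_ne h6, le_sup_left.trans h5⟩, ⟨CGen_ne h7, le_sup_right.trans h5⟩⟩,
        h1, h2, not_le.1 h3, h4⟩
  set R := Real.exp (-a.P + 2 * a.gam - Lm) with hR
  have hR0 : 0 < R := Real.exp_pos _
  have hb1 : ∀ y ∈ S1, Pr V a.p (dis (CIG l a.h y.1) (IG y.2)) ≤ R := by
    rintro ⟨T, S⟩ hy
    rw [hS1, Finset.mem_filter, Finset.mem_product, BTP.mem_sub, BTP.mem_sub] at hy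
    obtain ⟨⟨⟨b1, b2⟩, ⟨b3, b4⟩⟩, b5, b6, b7, b8⟩ := hy
    simp only at b1 b2 b3 b4 b5 b6 b7 b8 ⊢
    have e1 := BTP.bk hp0 a.hp2 V (CIG l a.h T) (IG S) (Inc_CIG _ _) (Inc_IG _)
    have e2 := IH T b1 b2 (hne b5) b5 V hV
    have e3 := small_merge a b1 (InD_mono a b1 b2 hD) b3 b7 b8 V
    have e4 : Pr V a.p (IG S) ≤ Real.exp (a.Ps T - a.Ps (T ⊔ pr S)) := by
      have e5 : Real.exp (a.Ps T - a.Ps (T ⊔ pr S)) * Real.exp (a.Ps (T ⊔ pr S) - a.Ps T) = 1 := by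
        rw [← Real.exp_add]
        simp
      have e6 : 0 < Real.exp (a.Ps (T ⊔ pr S) - a.Ps T) := Real.exp_pos _
      rw [← e5] at e3
      exact le_of_mul_le_mul_right e3 e6
    refine e1.trans ((mul_le_mul e2 e4 (Pr_nonneg hp0 hp1) (Real.exp_nonneg _)).trans ?_)
    rw [← Real.exp_add]
    refine Real.exp_le_exp.2 ?_
    linarith
  have hb2 : ∀ y ∈ S2, Pr V a.p (dis (CIG l a.h y.1) (CIG l a.h y.2)) ≤ R := by
    rintro ⟨T, T'⟩ hy
    rw [hS2, Finset.mem_filter, Finset.mem_product, BTP.mem_sub, BTP.mem_sub] at hy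
    obtain ⟨⟨⟨b1, b2⟩, ⟨b3, b4⟩⟩, b5, b6, b7, b8⟩ := hy
    simp only at b1 b2 b3 b4 b5 b6 b7 b8 ⊢
    have e1 := BTP.bk hp0 a.hp2 V (CIG l a.h T) (CIG l a.h T') (Inc_CIG _ _) (Inc_CIG _ _)
    have e2 := IH T b1 b2 (hne b5) b5 V hV
    have e3 := IH T' b3 b4 (hne b6) b6 V hV
    have e4 := Ps_merge a b1 b3 b8
    refine e1.trans ((mul_le_mul e2 e3 (Pr_nonneg hp0 hp1) (Real.exp_nonneg _)).trans ?_)
    rw [← Real.exp_add]
    refine Real.exp_le_exp.2 ?_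
    linarith
  have hc1 : (S1.card : ℝ) ≤ a.B ^ (4 * d + 4 * l) := by
    have e1 : (S1.card : ℝ) ≤ ((sub Q).card : ℝ) * ((sub (cyl l a.kk Q)).card : ℝ) := by
      rw [← Nat.cast_mul, ← Finset.card_product]
      exact_mod_cast Finset.card_filter_le _ _
    have e2 := card_sub hQ hD.2
    have e3 := card_sub_cyl (l := l) (k := a.kk) hQ hD.2
    have e4 := kk_le a
    have e5 : a.B ^ (4 * d + 4 * l) = a.B ^ (2 * d) * (a.B ^ (2 * d) * a.B ^ (4 * l)) := by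
      rw [← pow_add, ← pow_add]
      congr 1
      ring
    rw [e5]
    have e6 : a.B ^ (2 * d) * (a.kk : ℝ) ^ (2 * l) ≤ a.B ^ (2 * d) * a.B ^ (4 * l) :=
      mul_le_mul_of_nonneg_left e4 (by positivity)
    exact e1.trans (mul_le_mul e2 (e3.trans e6) (Nat.cast_nonneg _) (by positivity))
  have hc2 : (S2.card : ℝ) ≤ a.B ^ (4 * d + 4 * l) := by
    have e1 : (S2.card : ℝ) ≤ ((sub Q).card : ℝ) * ((sub Q).card : ℝ) := by
      rw [← Nat.cast_mul, ← Finset.card_product]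
      exact_mod_cast Finset.card_filter_le _ _
    have e2 := card_sub hQ hD.2
    have e4 : a.B ^ (4 * d) = a.B ^ (2 * d) * a.B ^ (2 * d) := by
      rw [← pow_add]
      congr 1
      ring
    have e5 : (S2.card : ℝ) ≤ a.B ^ (4 * d) := by
      rw [e4]
      exact e1.trans (mul_le_mul e2 e2 (Nat.cast_nonneg _) (by positivity))
    exact e5.trans (pow_le_pow_right₀ hB1 (by omega))
  have h1 := (Pr_mono hp0 hp1 hsub).trans (Pr_or hp0 hp1)
  have h2 := (Pr_union hp0 hp1 S1 (V := V) (fun y => dis (CIG l a.h y.1) (IG y.2))).trans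
    (Finset.sum_le_sum hb1)
  have h3 := (Pr_union hp0 hp1 S2 (V := V) (fun y => dis (CIG l a.h y.1) (CIG l a.h y.2))).trans
    (Finset.sum_le_sum hb2)
  rw [Finset.sum_const, nsmul_eq_mul] at h2 h3
  have h4 := mul_le_mul_of_nonneg_right hc1 hR0.le
  have h5 := mul_le_mul_of_nonneg_right hc2 hR0.le
  have h6 : R = Real.exp (2 * a.gam) * Real.exp (-a.P - Lm) := by
    rw [hR, ← Real.exp_add]
    congr 1
    ring
  have h7 : Real.exp (-Lm - a.P / 2) = Real.exp (a.P / 2) * Real.exp (-a.P - Lm) := by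
    rw [← Real.exp_add]
    congr 1
    ring
  have h8 := a.hcnt
  have h9 : 0 ≤ a.B ^ (4 * d + 4 * l) * Real.exp (2 * a.gam) := by positivity
  calc _ ≤ _ := h1
    _ ≤ a.B ^ (4 * d + 4 * l) * R + a.B ^ (4 * d + 4 * l) * R := by linarith
    _ = 2 * (a.B ^ (4 * d + 4 * l) * Real.exp (2 * a.gam)) * Real.exp (-a.P - Lm) := by rw [h6]; ring
    _ ≤ Real.exp (a.P / 2) * Real.exp (-a.P - Lm) := by
        refine mul_le_mul_of_nonneg_right ?_ (Real.exp_pos _).le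
        linarith
    _ = _ := h7.symm

end BTR
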