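import Pool.Agent.BTR.E1
import Pool.Agent.BTS.E3
import Pool.Agent.BTS.C3
set_option autoImplicit false

open scoped Classical
open Finset

/-! # Sites near the foot of a column; the counts -/

namespace BTR
open BTP BTS

variable {d l : ℕ}

theorem e7a_gap_hi {T : Box d} {v : Site (d + l)} (i : Fin l) (h : 1 ≤ v (hi d l i)) :
    gap (emb l T) (cc v) (hi d l i) = v (hi d l i) - 1 := by
  have e1 : ∀ b : Bool, emb l T (hi d l i, b) = if b then 1 else -1 := by
    intro b
    show Fin.addCases (motive := fun _ => ℤ) (fun i => T (i, b)) (fun _ => if b then (1 : ℤ) else -1) (hi d l i) = _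
    unfold hi
    exact Fin.addCases_right i
  unfold gap
  rw [e1, e1]
  simp only [cc, Bool.false_eq_true, if_true, if_false]
  omega

theorem e7a_sum {T : Box d} {v : Site (d + l)} (hv1 : ∀ i : Fin l, 1 ≤ v (hi d l i))
    (hn : near (emb l T) (cc v)) :
    ∑ i : Fin d, gap T (cc (ps v)) i + ∑ i : Fin l, (ht v i - 1) ≤ 2 := by
  unfold near at hn
  rw [Fin.sum_univ_add] at hn
  have e1 : ∑ i : Fin d, gap (emb l T) (cc v) (Fin.castAdd l i) = ∑ i : Fin d, gap T (cc (ps v)) i := by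
    refine Finset.sum_congr rfl fun i _ => ?_
    have h := gap_emb T (cc v) i
    rw [pr_cc] at h
    exact h
  have e2 : ∑ i : Fin l, gap (emb l T) (cc v) (Fin.natAdd d i) = ∑ i : Fin l, (ht v i - 1) :=
    Finset.sum_congr rfl fun i _ => e7a_gap_hi i (hv1 i)
  rw [e1, e2] at hn
  exact hn

theorem e7a_one {v : Site (d + l)} (hv1 : ∀ i : Fin l, 1 ≤ v (hi d l i)) (h : ∑ i : Fin l, (ht v i - 1) ≤ 0) :
    ht v = fun _ => 1 := by
  have hnn : ∀ i ∈ (Finset.univ : Finset (Fin l)), 0 ≤ ht v i - 1 := by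
    intro i _
    have := hv1 i
    unfold ht
    omega
  have h0 := (Finset.sum_eq_zero_iff_of_nonneg hnn).1 (le_antisymm h (Finset.sum_nonneg hnn))
  funext i
  have := h0 i (Finset.mem_univ i)
  omega

theorem e7a_Hs {v : Site (d + l)} (hv1 : ∀ i : Fin l, 1 ≤ v (hi d l i)) (h : ∑ i : Fin l, (ht v i - 1) ≤ 1) :
    ht v ∈ Hs l := by
  have hnn : ∀ i ∈ (Finset.univ : Finset (Fin l)), 0 ≤ ht v i - 1 := by
    intro i _
    have := hv1 i
    unfold ht
    omega
  by_cases hall : ∀ i, ht v i = 1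
  · have e : ht v = fun _ => 1 := funext hall
    rw [e]
    exact Finset.mem_insert_self _ _
  · push Not at hall
    obtain ⟨i, hi'⟩ := hall
    have h1 := hnn i (Finset.mem_univ i)
    rw [← Finset.add_sum_erase _ _ (Finset.mem_univ i)] at h
    have h2 : 0 ≤ ∑ x ∈ Finset.univ.erase i, (ht v x - 1) :=
      Finset.sum_nonneg fun x hx => hnn x (Finset.mem_univ x)
    have h3 : ht v i = 2 := by omega
    have h4 : ∑ x ∈ Finset.univ.erase i, (ht v x - 1) = 0 := by omega
    have h5 := (Finset.sum_eq_zero_iff_of_nonneg (fun x _ => hnn x (Finset.mem_univ x))).1 h4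
    refine Finset.mem_insert_of_mem (Finset.mem_image.2 ⟨i, Finset.mem_univ i, ?_⟩)
    funext x
    by_cases hx : x = i
    · subst hx
      rw [Function.update_self, h3]
    · rw [Function.update_of_ne hx]
      have := h5 x (Finset.mem_erase.2 ⟨hx, Finset.mem_univ x⟩)
      omega

/-- [BTR-E7a] the sites near the foot of a column.
PROOF. `∑ gap (emb l T) (cc v)` over the `d + l` axes (`Fin.sum_univ_add`): the long axes give `∑ gap T (cc (ps v)) =: α` (`gap_emb`, `pr_cc`), the thick axis `i` gives `v (hi i) - 1` (`hv1`). So `α + ∑ (ht v i - 1) ≤ 2`. `BTS.near_cases` for `ps v` (`near_of_emb`, `pr_cc`).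
`inL T j 1`: `α ≥ 1` (`e3_gap_ge`, `e3_gap_nonneg`), so `∑ (ht v i - 1) ≤ 1`: all heights are `1`, or exactly one is `2`: `ht v ∈ Hs l`. `inL T j 2` or `inC`: `α ≥ 2`, so all heights are `1`. -/
theorem near_cases' {T : Box d} (hT : Ne T) {v : Site (d + l)} (hv1 : ∀ i : Fin l, 1 ≤ v (hi d l i))
    (hn : near (emb l T) (cc v)) (hv : ¬ cc (ps v) ≤ T) :
    (∃ j, inL T j 1 (ps v) ∧ ht v ∈ Hs l) ∨ (∃ j, inL T j 2 (ps v) ∧ ht v = fun _ => 1) ∨
    ∃ i j : Dir d, i.1 ≠ j.1 ∧ inC T i j (ps v) ∧ ht v = fun _ => 1 := by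
  have hs := e7a_sum hv1 hn
  have hg0 : ∀ i ∈ (Finset.univ : Finset (Fin d)), 0 ≤ gap T (cc (ps v)) i := fun i _ => e3_gap_nonneg _ _ _
  have hn' : near T (cc (ps v)) := by
    have h := near_of_emb hn
    rwa [pr_cc] at h
  rcases near_cases hT hn' hv with ⟨j, hj⟩ | ⟨j, hj⟩ | ⟨i, j, hij, hj⟩
  · left
    refine ⟨j, hj, e7a_Hs hv1 ?_⟩
    have h1 := e3_gap_ge T (ps v) j
    have h2 := Finset.single_le_sum hg0 (Finset.mem_univ j.1)
    have h3 := hj.1
    omega
  · right; left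
    refine ⟨j, hj, e7a_one hv1 ?_⟩
    have h1 := e3_gap_ge T (ps v) j
    have h2 := Finset.single_le_sum hg0 (Finset.mem_univ j.1)
    have h3 := hj.1
    omega
  · right; right
    refine ⟨i, j, hij, hj, e7a_one hv1 ?_⟩
    have h1 := e3_gap_ge T (ps v) j
    have h1' := e3_gap_ge T (ps v) i
    have h3 := hj.1
    have h3' := hj.2.1
    rw [← Finset.add_sum_erase _ _ (Finset.mem_univ j.1)] at hs
    have h2 := Finset.single_le_sum (f := fun x => gap T (cc (ps v)) x) (s := Finset.univ.erase j.1)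
      (fun x _ => hg0 x (Finset.mem_univ x)) (Finset.mem_erase.2 ⟨hij, Finset.mem_univ i.1⟩)
    omega

end BTR
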