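import Pool.Agent.BTR.E1
import Pool.Agent.BTS.E3
import Pool.Agent.BTS.C3
import Pool.Agent.BTR.E7a
set_option autoImplicit false

open scoped Classical
open Finset

/-! # Sites near the foot of a column; the counts -/

namespace BTR
open BTP BTS

variable {d l : ℕ}

/-- [BTR-E7b] the slices -/
theorem mem_slc {U : Finset (Site (d + l))} {t : Fin l → ℤ} {x : Site d} :
    x ∈ slc l U t ↔ ∃ v ∈ U, ht v = t ∧ ps v = x := by
  unfold slc
  simp only [Finset.mem_image, Finset.mem_filter]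
  constructor
  · rintro ⟨v, ⟨hv, hvt⟩, hx⟩
    exact ⟨v, hv, funext hvt, hx⟩
  · rintro ⟨v, hv, hvt, hx⟩
    exact ⟨v, ⟨hv, fun i => congrFun hvt i⟩, hx⟩

theorem slc_mono {U U' : Finset (Site (d + l))} (h : U ⊆ U') (t : Fin l → ℤ) :
    slc l U t ⊆ slc l U' t := by
  intro x hx
  rw [mem_slc] at hx ⊢
  obtain ⟨v, hv, h1, h2⟩ := hx
  exact ⟨v, h hv, h1, h2⟩

/-- [BTR-E7b] a site is determined by its heights and its projection (`Fin.addCases`) -/
theorem ext_ps_ht {u v : Site (d + l)} (h : ps u = ps v) (h' : ht u = ht v) : u = v := by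
  funext i
  refine Fin.addCases (fun j => ?_) (fun j => ?_) i
  · exact congrFun h j
  · exact congrFun h' j

theorem slc_erase (U : Finset (Site (d + l))) (v : Site (d + l)) :
    slc l (U.erase v) (ht v) = (slc l U (ht v)).erase (ps v) := by
  ext x
  rw [Finset.mem_erase, mem_slc, mem_slc]
  constructor
  · rintro ⟨w, hw, h1, h2⟩
    rw [Finset.mem_erase] at hw
    refine ⟨?_, w, hw.2, h1, h2⟩
    intro h3
    exact hw.1 (ext_ps_ht (h2.trans h3) h1)
  · rintro ⟨hne, w, hw, h1, h2⟩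
    refine ⟨w, Finset.mem_erase.2 ⟨?_, hw⟩, h1, h2⟩
    rintro rfl
    exact hne h2.symm

theorem slc_erase_ne (U : Finset (Site (d + l))) {v : Site (d + l)} {t : Fin l → ℤ}
    (h : ht v ≠ t) : slc l (U.erase v) t = slc l U t := by
  ext x
  rw [mem_slc, mem_slc]
  constructor
  · rintro ⟨w, hw, h1, h2⟩
    exact ⟨w, Finset.mem_of_mem_erase hw, h1, h2⟩
  · rintro ⟨w, hw, h1, h2⟩
    refine ⟨w, Finset.mem_erase.2 ⟨?_, hw⟩, h1, h2⟩
    rintro rfl
    exact h h1

theorem card_Hs : (Hs l).card ≤ l + 1 := by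
  unfold Hs
  refine (Finset.card_insert_le _ _).trans ?_
  have h := Finset.card_image_le (s := (Finset.univ : Finset (Fin l)))
    (f := fun i : Fin l => Function.update (fun _ : Fin l => (1 : ℤ)) i 2)
  rw [Finset.card_univ, Fintype.card_fin] at h
  omega

theorem one_mem_Hs : (fun _ => 1 : Fin l → ℤ) ∈ Hs l :=
  Finset.mem_insert_self _ _

end BTR
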