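import Pool.Agent.BTR.E1
import Pool.Agent.BTS.E3
import Pool.Agent.BTS.C3
import Pool.Agent.BTR.E7a
import Pool.Agent.BTR.E7b
set_option autoImplicit false

open scoped Classical
open Finset

/-! # Sites near the foot of a column; the counts -/

namespace BTR
open BTP BTS

variable {d l : ℕ}

/-- [BTR-E7c] the counts: upper bounds (`nL_le`, `card_Hs`, `nC_le`) -/
theorem n1_le {T : Box d} (hT : Ne T) (U : Finset (Site (d + l))) (j : Dir d) :
    n1 l T U j ≤ (l + 1) * ∏ m ∈ Finset.univ.erase j.1, sd T m := by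
  unfold n1
  calc ∑ t ∈ Hs l, nL T (slc l U t) j 1
      ≤ ∑ _t ∈ Hs l, ∏ m ∈ Finset.univ.erase j.1, sd T m :=
        Finset.sum_le_sum fun t _ => nL_le hT _ j 1
    _ = (Hs l).card * ∏ m ∈ Finset.univ.erase j.1, sd T m := by
        rw [Finset.sum_const, smul_eq_mul]
    _ ≤ _ := Nat.mul_le_mul_right _ card_Hs

theorem n2_le {T : Box d} (hT : Ne T) (U : Finset (Site (d + l))) (j : Dir d) :
    n2 l T U j ≤ ∏ m ∈ Finset.univ.erase j.1, sd T m := nL_le hT _ j 2

theorem n3_le {T : Box d} (hT : Ne T) (U : Finset (Site (d + l))) (i j : Dir d) :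
    n3 l T U i j ≤ ∏ m ∈ (Finset.univ.erase i.1).erase j.1, sd T m := nC_le hT _ i j

theorem n3_symm (T : Box d) (U : Finset (Site (d + l))) (i j : Dir d) :
    n3 l T U i j = n3 l T U j i := nC_symm T _ i j

theorem n3_same (T : Box d) (U : Finset (Site (d + l))) {i j : Dir d} (h : i.1 = j.1) :
    n3 l T U i j = 0 := by
  unfold n3 nC
  rw [if_pos h]

/-- [BTR-E7c] growth of `T` by one level in direction `j` (`nL_up_same`, `nL_up`, `nL_mono`, `slc_mono`, `card_Hs`) -/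
theorem n1_up_same {T : Box d} {U U' : Finset (Site (d + l))} (h : U' ⊆ U) {i j : Dir d}
    (hij : i.1 = j.1) (hne : i ≠ j) : n1 l (up T j) U' i ≤ n1 l T U i := by
  unfold n1
  refine Finset.sum_le_sum fun t _ => ?_
  rw [nL_up_same _ hij hne 1]
  exact nL_mono (slc_mono h t) i 1

theorem n1_up {T : Box d} (hT : Ne T) {U U' : Finset (Site (d + l))} (h : U' ⊆ U) {i j : Dir d}
    (hij : i.1 ≠ j.1) : n1 l (up T j) U' i ≤
      n1 l T U i + (l + 1) * ∏ m ∈ (Finset.univ.erase i.1).erase j.1, sd T m := by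
  unfold n1
  have h1 : ∀ t ∈ Hs l, nL (up T j) (slc l U' t) i 1 ≤ nL T (slc l U t) i 1 +
      ∏ m ∈ (Finset.univ.erase i.1).erase j.1, sd T m := fun t _ =>
    (nL_up hT _ hij 1).trans (Nat.add_le_add_right (nL_mono (slc_mono h t) i 1) _)
  refine (Finset.sum_le_sum h1).trans ?_
  rw [Finset.sum_add_distrib, Finset.sum_const, smul_eq_mul]
  exact Nat.add_le_add_left (Nat.mul_le_mul_right _ card_Hs) _

theorem n2_up_same {T : Box d} {U U' : Finset (Site (d + l))} (h : U' ⊆ U) {i j : Dir d}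
    (hij : i.1 = j.1) (hne : i ≠ j) : n2 l (up T j) U' i ≤ n2 l T U i := by
  unfold n2
  rw [nL_up_same _ hij hne 2]
  exact nL_mono (slc_mono h _) i 2

theorem n2_up {T : Box d} (hT : Ne T) {U U' : Finset (Site (d + l))} (h : U' ⊆ U) {i j : Dir d}
    (hij : i.1 ≠ j.1) : n2 l (up T j) U' i ≤
      n2 l T U i + ∏ m ∈ (Finset.univ.erase i.1).erase j.1, sd T m := (nL_up hT _ hij 2).trans (Nat.add_le_add_right (nL_mono (slc_mono h _) i 2) _)

theorem n3_up_same {T : Box d} {U U' : Finset (Site (d + l))} (h : U' ⊆ U) {i i' j : Dir d}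
    (hij : i.1 = j.1 ∨ i'.1 = j.1) (hi : i ≠ j) (hi' : i' ≠ j) :
    n3 l (up T j) U' i i' ≤ n3 l T U i i' := by
  unfold n3
  rw [nC_up_same _ hij hi hi']
  exact nC_mono (slc_mono h _) i i'

theorem n3_up {T : Box d} (hT : Ne T) {U U' : Finset (Site (d + l))} (h : U' ⊆ U) {i i' j : Dir d}
    (hij : i.1 ≠ j.1) (hij' : i'.1 ≠ j.1) (hii : i.1 ≠ i'.1) : n3 l (up T j) U' i i' ≤
      n3 l T U i i' + ∏ m ∈ ((Finset.univ.erase i.1).erase i'.1).erase j.1, sd T m := (nC_up hT _ hij hij' hii).trans (Nat.add_le_add_right (nC_mono (slc_mono h _) i i') _)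

theorem n1_mono {T : Box d} {U U' : Finset (Site (d + l))} (h : U' ⊆ U) (j : Dir d) :
    n1 l T U' j ≤ n1 l T U j := Finset.sum_le_sum fun t _ => nL_mono (slc_mono h t) j 1

theorem n2_mono {T : Box d} {U U' : Finset (Site (d + l))} (h : U' ⊆ U) (j : Dir d) :
    n2 l T U' j ≤ n2 l T U j := nL_mono (slc_mono h _) j 2

theorem n3_mono {T : Box d} {U U' : Finset (Site (d + l))} (h : U' ⊆ U) (i j : Dir d) :
    n3 l T U' i j ≤ n3 l T U i j := nC_mono (slc_mono h _) i j

end BTR
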