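import Pool.Agent.BTR.E1
import Pool.Agent.BTS.E3
import Pool.Agent.BTS.C3
import Pool.Agent.BTR.E7a
import Pool.Agent.BTR.E7b
import Pool.Agent.BTR.E7c
set_option autoImplicit false

open scoped Classical
open Finset

/-! # Sites near the foot of a column; the counts -/

namespace BTR
open BTP BTS

variable {d l : ℕ}

theorem e7d_slc (U : Finset (Site (d + l))) (v : Site (d + l)) (t : Fin l → ℤ) :
    slc l (U.erase v) t = (slc l U t).erase (ps v) ∨ slc l (U.erase v) t = slc l U t := by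
  by_cases h : ht v = t
  · left
    rw [← h]
    exact slc_erase U v
  · right
    exact slc_erase_ne U h

theorem e7d_mem {U : Finset (Site (d + l))} {v : Site (d + l)} (hv : v ∈ U) :
    ps v ∈ slc l U (ht v) := mem_slc.2 ⟨v, hv, rfl, rfl⟩

/-- [BTR-E7d] removing a site of the first layer (heights in `Hs`): only the slice at height `ht v` changes (`slc_erase`, `slc_erase_ne`), `nL_erase` -/
theorem n1_erase {T : Box d} {U : Finset (Site (d + l))} {j : Dir d} {v : Site (d + l)}
    (hv : v ∈ U) (hin : inL T j 1 (ps v)) (hh : ht v ∈ Hs l) :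
    n1 l T U j = n1 l T (U.erase v) j + 1 := by
  unfold n1
  rw [← Finset.add_sum_erase (Hs l) _ hh, ← Finset.add_sum_erase (Hs l) _ hh]
  rw [slc_erase, nL_erase (e7d_mem hv) hin]
  have h1 : ∑ t ∈ (Hs l).erase (ht v), nL T (slc l (U.erase v) t) j 1 =
      ∑ t ∈ (Hs l).erase (ht v), nL T (slc l U t) j 1 := by
    refine Finset.sum_congr rfl fun t ht' => ?_
    rw [slc_erase_ne U (Finset.ne_of_mem_erase ht').symm]
  rw [h1]
  ring

/-- [BTR-E7d] (`nL_erase_ne`) -/
theorem n1_erase_ne {T : Box d} (hT : Ne T) (U : Finset (Site (d + l))) {j j' : Dir d} {k : ℤ}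
    (hk : 1 ≤ k) {v : Site (d + l)} (hin : inL T j k (ps v)) (hne : (j', (1 : ℤ)) ≠ (j, k)) :
    n1 l T (U.erase v) j' = n1 l T U j' := by
  unfold n1
  refine Finset.sum_congr rfl fun t _ => ?_
  rcases e7d_slc U v t with h | h
  · rw [h]
    exact nL_erase_ne hT hk le_rfl hin hne
  · rw [h]

theorem n2_erase {T : Box d} {U : Finset (Site (d + l))} {j : Dir d} {v : Site (d + l)}
    (hv : v ∈ U) (hin : inL T j 2 (ps v)) (hh : ht v = fun _ => 1) :
    n2 l T U j = n2 l T (U.erase v) j + 1 := by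
  unfold n2
  rw [← hh, slc_erase]
  exact nL_erase (e7d_mem hv) hin

theorem n2_erase_ne {T : Box d} (hT : Ne T) (U : Finset (Site (d + l))) {j j' : Dir d} {k : ℤ}
    (hk : 1 ≤ k) {v : Site (d + l)} (hin : inL T j k (ps v)) (hne : (j', (2 : ℤ)) ≠ (j, k)) :
    n2 l T (U.erase v) j' = n2 l T U j' := by
  unfold n2
  rcases e7d_slc U v (fun _ => 1) with h | h
  · rw [h]
    exact nL_erase_ne hT hk (by norm_num) hin hne
  · rw [h]

theorem n3_erase_inL {T : Box d} (hT : Ne T) (U : Finset (Site (d + l))) {j i i' : Dir d} {k : ℤ}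
    (hk : 1 ≤ k) {v : Site (d + l)} (hin : inL T j k (ps v)) :
    n3 l T (U.erase v) i i' = n3 l T U i i' := by
  unfold n3
  rcases e7d_slc U v (fun _ => 1) with h | h
  · rw [h]
    exact nC_erase_inL hT hk hin
  · rw [h]

/-- [BTR-E7d] removing a site over an edge -/
theorem n3_erase {T : Box d} {U : Finset (Site (d + l))} {i j : Dir d} (hij : i.1 ≠ j.1)
    {v : Site (d + l)} (hv : v ∈ U) (hin : inC T i j (ps v)) (hh : ht v = fun _ => 1) :
    n3 l T U i j = n3 l T (U.erase v) i j + 1 := by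
  unfold n3
  rw [← hh, slc_erase]
  exact nC_erase hij (e7d_mem hv) hin

theorem n3_erase_ne {T : Box d} (hT : Ne T) (U : Finset (Site (d + l))) {i j i' j' : Dir d}
    (hij : i.1 ≠ j.1) {v : Site (d + l)} (hin : inC T i j (ps v)) (hne : (i', j') ≠ (i, j))
    (hne' : (i', j') ≠ (j, i)) : n3 l T (U.erase v) i' j' = n3 l T U i' j' := by
  unfold n3
  rcases e7d_slc U v (fun _ => 1) with h | h
  · rw [h]
    exact nC_erase_ne hT hij hin hne hne'
  · rw [h]

theorem n1_erase_inC {T : Box d} (hT : Ne T) (U : Finset (Site (d + l))) {i j m : Dir d}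
    (hij : i.1 ≠ j.1) {v : Site (d + l)} (hin : inC T i j (ps v)) :
    n1 l T (U.erase v) m = n1 l T U m := by
  unfold n1
  refine Finset.sum_congr rfl fun t _ => ?_
  rcases e7d_slc U v t with h | h
  · rw [h]
    exact nL_erase_inC hT hij le_rfl hin
  · rw [h]

theorem n2_erase_inC {T : Box d} (hT : Ne T) (U : Finset (Site (d + l))) {i j m : Dir d}
    (hij : i.1 ≠ j.1) {v : Site (d + l)} (hin : inC T i j (ps v)) :
    n2 l T (U.erase v) m = n2 l T U m := by
  unfold n2
  rcases e7d_slc U v (fun _ => 1) with h | h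
  · rw [h]
    exact nL_erase_inC hT hij (by norm_num) hin
  · rw [h]

/-- [BTR-E7d] the counts vanish if there are no sites -/
theorem n1_zero {T : Box d} {U : Finset (Site (d + l))} {j : Dir d}
    (h : ∀ v ∈ U, ht v ∈ Hs l → ¬ inL T j 1 (ps v)) : n1 l T U j = 0 := by
  unfold n1
  refine Finset.sum_eq_zero fun t ht' => ?_
  unfold nL
  rw [Finset.card_eq_zero, Finset.filter_eq_empty_iff]
  intro x hx
  obtain ⟨v, hv, rfl, rfl⟩ := mem_slc.1 hx
  exact h v hv ht'

theorem n2_zero {T : Box d} {U : Finset (Site (d + l))} {j : Dir d}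
    (h : ∀ v ∈ U, (ht v = fun _ => 1) → ¬ inL T j 2 (ps v)) : n2 l T U j = 0 := by
  unfold n2 nL
  rw [Finset.card_eq_zero, Finset.filter_eq_empty_iff]
  intro x hx
  obtain ⟨v, hv, hv1, rfl⟩ := mem_slc.1 hx
  exact h v hv hv1

theorem n3_zero {T : Box d} {U : Finset (Site (d + l))} {i j : Dir d}
    (h : ∀ v ∈ U, (ht v = fun _ => 1) → ¬ inC T i j (ps v)) : n3 l T U i j = 0 := by
  unfold n3 nC
  split_ifs
  · rfl
  · rw [Finset.card_eq_zero, Finset.filter_eq_empty_iff]
    intro x hx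
    obtain ⟨v, hv, hv1, rfl⟩ := mem_slc.1 hx
    exact h v hv hv1

end BTR
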