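import Pool.Agent.BTR.E1
import Pool.Agent.BTR.E7a

set_option autoImplicit false

open scoped Classical
open Finset

namespace BTR
open BTP BTS

variable {d l : ℕ}

theorem e7e_near {T : Box d} {v : Site (d + l)} (hv1 : ∀ i : Fin l, 1 ≤ v (hi d l i))
    (h : ∑ i : Fin d, gap T (cc (ps v)) i + ∑ i : Fin l, (ht v i - 1) ≤ 2) :
    near (emb l T) (cc v) := by
  unfold near
  rw [Fin.sum_univ_add]
  have e1 : ∑ i : Fin d, gap (emb l T) (cc v) (Fin.castAdd l i) = ∑ i : Fin d, gap T (cc (ps v)) i := by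
    refine Finset.sum_congr rfl fun i _ => ?_
    have h := gap_emb T (cc v) i
    rw [pr_cc] at h
    exact h
  have e2 : ∑ i : Fin l, gap (emb l T) (cc v) (Fin.natAdd d i) = ∑ i : Fin l, (ht v i - 1) :=
    Finset.sum_congr rfl fun i _ => e7a_gap_hi i (hv1 i)
  rw [e1, e2]
  exact h

theorem e7e_zero {T : Box d} {v : Site d} {i : Fin d} (h : ∀ b : Bool, cc v (i, b) ≤ T (i, b)) :
    gap T (cc v) i = 0 := by
  by_contra hc
  obtain ⟨b, hb⟩ := e3_gap_pos hc
  exact absurd (h b) (not_le.2 hb)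

theorem e7e_sum_inL {T : Box d} (hT : Ne T) {j : Dir d} {k : ℤ} (hk : 1 ≤ k) {v : Site d}
    (h : inL T j k v) : ∑ i : Fin d, gap T (cc v) i = k := by
  obtain ⟨h1, h2⟩ := h
  have e1 : gap T (cc v) j.1 = k := by
    rw [e3_gap_eq hT (l := j) (by omega)]
    omega
  rw [Finset.sum_eq_single j.1, e1]
  · intro i _ hi
    exact e7e_zero fun b => h2 (i, b) hi
  · intro h
    exact absurd (Finset.mem_univ _) h

theorem e7e_sum_inC {T : Box d} (hT : Ne T) {i j : Dir d} (hij : i.1 ≠ j.1) {v : Site d}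
    (h : inC T i j v) : ∑ x : Fin d, gap T (cc v) x = 2 := by
  obtain ⟨h1, h1', h2⟩ := h
  have e1 : gap T (cc v) i.1 = 1 := by
    rw [e3_gap_eq hT (l := i) (by omega)]
    omega
  have e2 : gap T (cc v) j.1 = 1 := by
    rw [e3_gap_eq hT (l := j) (by omega)]
    omega
  rw [← Finset.add_sum_erase _ _ (Finset.mem_univ j.1),
    ← Finset.add_sum_erase _ _ (Finset.mem_erase.2 ⟨hij, Finset.mem_univ i.1⟩), e1, e2,
    Finset.sum_eq_zero]
  · norm_num
  · intro x hx
    have hx1 := Finset.ne_of_mem_erase hx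
    have hx2 := Finset.ne_of_mem_erase (Finset.mem_of_mem_erase hx)
    exact e7e_zero fun b => h2 (x, b) hx1 hx2

/-- [BTR-E7e] the converse of `near_cases'`. PROOF. The gaps: `gap_emb`, `pr_cc`; in the thick axis `i` the gap is `ht v i - 1` (heights `≥ 1`; all heights are `1` except at most one which is `2`); in the long axes the gap is `k` in the axis `j.1` and `0` in the others. -/
theorem near_inL1 {T : Box d} (hT : Ne T) {j : Dir d} {v : Site (d + l)} (h : inL T j 1 (ps v))
    (hh : ht v ∈ Hs l) : near (emb l T) (cc v) ∧ ¬ cc (ps v) ≤ T := by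
  have hH : (∀ i, 1 ≤ ht v i) ∧ ∑ i : Fin l, (ht v i - 1) ≤ 1 := by
    rcases Finset.mem_insert.1 hh with h0 | h0
    · rw [h0]
      exact ⟨fun _ => le_refl _, by simp⟩
    · obtain ⟨i, -, hi⟩ := Finset.mem_image.1 h0
      rw [← hi]
      refine ⟨fun x => ?_, ?_⟩
      · by_cases hx : x = i
        · subst hx
          rw [Function.update_self]
          norm_num
        · rw [Function.update_of_ne hx]
      · rw [Finset.sum_eq_single i]
        · rw [Function.update_self]
          norm_num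
        · intro x _ hx
          rw [Function.update_of_ne hx]
          norm_num
        · intro hc
          exact absurd (Finset.mem_univ _) hc
  refine ⟨e7e_near hH.1 ?_, fun hle => ?_⟩
  · rw [e7e_sum_inL hT (le_refl 1) h]
    have := hH.2
    omega
  · have h1 : cc (ps v) j ≤ T j := hle j
    rw [h.1] at h1
    exact absurd h1 (not_le.2 (lt_add_one _))

theorem near_inL2 {T : Box d} (hT : Ne T) {j : Dir d} {v : Site (d + l)} (h : inL T j 2 (ps v))
    (hh : ht v = fun _ => 1) : near (emb l T) (cc v) ∧ ¬ cc (ps v) ≤ T := by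
  refine ⟨e7e_near (fun i => (congrFun hh i).ge) ?_, fun hle => ?_⟩
  · rw [e7e_sum_inL hT (by norm_num) h, hh]
    simp
  · have h1 : cc (ps v) j ≤ T j := hle j
    rw [h.1] at h1
    exact absurd h1 (not_le.2 (lt_add_of_pos_right _ (by norm_num)))

theorem near_inC {T : Box d} (hT : Ne T) {i j : Dir d} (hij : i.1 ≠ j.1) {v : Site (d + l)}
    (h : inC T i j (ps v)) (hh : ht v = fun _ => 1) : near (emb l T) (cc v) ∧ ¬ cc (ps v) ≤ T := by
  refine ⟨e7e_near (fun i => (congrFun hh i).ge) ?_, fun hle => ?_⟩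
  · rw [e7e_sum_inC hT hij h, hh]
    simp
  · have h1 : cc (ps v) j ≤ T j := hle j
    rw [h.2.1] at h1
    exact absurd h1 (not_le.2 (lt_add_one _))

end BTR
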