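import Pool.Agent.BTR.E2
import Pool.Agent.BTR.V11
import Pool.Agent.BTS.Q1
import Pool.Agent.BTS.S10
import Pool.Agent.BTP.C1
set_option autoImplicit false

open scoped Classical
open Finset

/-! # Revealing, stuck states, start (probabilities). Note: `BTR.bk` is the function `β_k`; the van den Berg-Kesten inequality is `BTP.bk` (write the full name). -/

namespace BTR
open BTP BTS

variable {d l : ℕ} (a : Pc d l)

/-- the compounds: boxes inside `W` which contain the site `v`, of extent between `1` and `2h` -/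
noncomputable def cmpd {n : ℕ} (W : Box n) (v : Site n) (h : ℕ) : Finset (Box n) :=
  (sub W).filter (fun S => cc v ≤ S ∧ 1 ≤ Ys S ∧ Ys S ≤ 2 * h)

/-- [BTR-Q2a] (`Pr_le_one`, `Pr_nonneg`, `p_nonneg`, `p_le_one`) -/
theorem V_le_one (T Q : Box d) (D : Finset (Site (d + l))) : a.V T Q D ≤ 1 := by
  exact Pr_le_one (BTR.p_nonneg a) (BTR.p_le_one a)

theorem V_nonneg (T Q : Box d) (D : Finset (Site (d + l))) : 0 ≤ a.V T Q D := by
  exact Pr_nonneg (BTR.p_nonneg a) (BTR.p_le_one a)

theorem q2a_card {n : ℕ} {p : ℝ} (hp0 : 0 ≤ p) (hp1 : p ≤ 1) {S : Box n} (hS : Ne S)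
    (V : Finset (Site n)) (m : ℕ) :
    Pr V p (fun U => m ≤ (U ∩ sites S).card) ≤ (((Ys S : ℝ) + 1) ^ n * p) ^ m := by
  have h0 : Pr V p (fun U => m ≤ (U ∩ sites S).card) ≤ (((sites S).card : ℝ) * p) ^ m := by
    have h := Pr_card_ge V (sites S) hp0 hp1 m
    have he : (fun a b => Classical.propDecidable (a = b) : DecidableEq (Site n)) =
        (inferInstance : DecidableEq (Site n)) := Subsingleton.elim _ _
    rw [he] at h
    exact h
  refine h0.trans ?_
  have h2 := card_sites_le hS
  have h3 : ((sites S).card : ℝ) * p ≤ ((Ys S : ℝ) + 1) ^ n * p :=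
    mul_le_mul_of_nonneg_right h2 hp0
  exact pow_le_pow_left₀ (mul_nonneg (Nat.cast_nonneg _) hp0) h3 m

theorem q2a_sub {n : ℕ} {S : Box n} {v : Site n} {W U : Finset (Site n)} (hWU : W ⊆ U)
    (hG : Gen S (insert v W)) : W.card ≤ (U ∩ sites S).card := by
  refine Finset.card_le_card fun x hx => Finset.mem_inter.2 ⟨hWU hx, mem_sites.2 ?_⟩
  exact hG.le x (Finset.mem_insert_of_mem hx)

/-- [BTR-Q2a] a box generated by `v` and other sites needs at least `ms y - 1` other sites (`ms y = (y+3)/2`, `BTS.ms`).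
PROOF. `Gen S (insert v W)` implies `y + 2 ≤ 2 (insert v W).card` (`Gen.per`), so `ms y ≤ (insert v W).card ≤ W.card + 1`; `W ⊆ U ∩ sites S` (`Gen.le`, `mem_sites`). `Pr_card_ge`, `card_sites_le` (as `BTP.Pr_IG_le`, file BTP/S3.lean). -/
theorem Pr_Gv {n : ℕ} {p : ℝ} (hp0 : 0 ≤ p) (hp1 : p ≤ 1) {S : Box n} (hS : Ne S) {y : ℕ}
    (hy : Ys S = y) (v : Site n) (V : Finset (Site n)) :
    Pr V p (Gv S v) ≤ (((y : ℝ) + 1) ^ n * p) ^ (ms y - 1) := by
  have h1 : Pr V p (Gv S v) ≤ Pr V p (fun U => ms y - 1 ≤ (U ∩ sites S).card) := by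
    refine Pr_mono hp0 hp1 ?_
    rintro U - ⟨W, hWU, hG⟩
    have hper := hG.per
    have h2 := q2a_sub hWU hG
    have h3 := Finset.card_insert_le v W
    refine le_trans ?_ h2
    unfold ms
    omega
  have h2 := q2a_card hp0 hp1 hS V (ms y - 1)
  rw [hy] at h2
  exact h1.trans h2

/-- [BTR-Q2a] a box generated by at most two sites: `S = cc u ⊔ cc w` for two sites `u, w ∈ W` (possibly equal).
PROOF. Induction on `Gen`. `single`: `u = w = v`. `merge`: both sets are not empty (`Gen.nonempty`) and disjoint, so both have one element; then `R = cc u`, `S = cc w` by the induction hypothesis (all the sites of a one-element set are equal). -/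
theorem Gen_two {n : ℕ} {S : Box n} {W : Finset (Site n)} (hg : Gen S W) (h : W.card ≤ 2) :
    ∃ u ∈ W, ∃ w ∈ W, S = cc u ⊔ cc w ∧ ∀ x ∈ W, x = u ∨ x = w := by
  induction hg with
  | single v =>
    exact ⟨v, Finset.mem_singleton_self v, v, Finset.mem_singleton_self v, (sup_idem _).symm,
      fun x hx => Or.inl (Finset.mem_singleton.1 hx)⟩
  | @merge R S W W' hR hS hd hn ihR ihS =>
    have h1 := Finset.card_union_of_disjoint hd
    have h2 := hR.nonempty.card_pos
    have h3 := hS.nonempty.card_pos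
    obtain ⟨u, hu, u', hu', hRu, -⟩ := ihR (by omega)
    obtain ⟨w, hw, w', hw', hSw, -⟩ := ihS (by omega)
    have hW : ∀ x ∈ W, x = u := fun x hx => Finset.card_le_one.1 (by omega) x hx u hu
    have hW' : ∀ x ∈ W', x = w := fun x hx => Finset.card_le_one.1 (by omega) x hx w hw
    rw [hW u' hu', sup_idem] at hRu
    rw [hW' w' hw', sup_idem] at hSw
    refine ⟨u, Finset.mem_union_left _ hu, w, Finset.mem_union_right _ hw, by rw [hRu, hSw], ?_⟩
    intro x hx
    rcases Finset.mem_union.1 hx with h | h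
    · exact Or.inl (hW x h)
    · exact Or.inr (hW' x h)

theorem q2a_crn {n : ℕ} {v w : Site n} : Crn (cc v ⊔ cc w) v := by
  intro i
  rcases le_total (w i) (v i) with h | h
  · left
    show cc v (i, true) = max (cc v (i, true)) (cc w (i, true))
    simp only [cc, if_true]
    exact (max_eq_left h).symm
  · right
    show cc v (i, false) = max (cc v (i, false)) (cc w (i, false))
    simp only [cc]
    exact (max_eq_left (neg_le_neg h)).symm

/-- [BTR-Q2a] if `v` is not a corner of `S` at least two other sites are needed.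
PROOF. If `Gen S (insert v W)` and `W.card ≤ 1` then `(insert v W).card ≤ 2` and `Gen_two` gives `S = cc v ⊔ cc w` (`v = u` or `v = w`, `sup_comm`), so `v` is a corner: in each axis `cc v (i,true) = v i` is the maximum or `cc v (i, false) = -v i` is. So `2 ≤ (U ∩ sites S).card`: `Pr_card_ge`, `card_sites_le`. -/
theorem Pr_Gv_two {n : ℕ} {p : ℝ} (hp0 : 0 ≤ p) (hp1 : p ≤ 1) {S : Box n} (hS : Ne S) {y : ℕ}
    (hy : Ys S = y) {v : Site n} (hc : ¬ Crn S v) (V : Finset (Site n)) :
    Pr V p (Gv S v) ≤ (((y : ℝ) + 1) ^ n * p) ^ 2 := by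
  have h1 : Pr V p (Gv S v) ≤ Pr V p (fun U => 2 ≤ (U ∩ sites S).card) := by
    refine Pr_mono hp0 hp1 ?_
    rintro U - ⟨W, hWU, hG⟩
    have h2 := q2a_sub hWU hG
    have h3 := Finset.card_insert_le v W
    by_contra hlt
    apply hc
    obtain ⟨u, hu, w, hw, hSu, hall⟩ := Gen_two hG (by omega)
    rcases hall v (Finset.mem_insert_self v W) with h | h
    · rw [hSu, ← h]
      exact q2a_crn
    · rw [hSu, ← h, sup_comm]
      exact q2a_crn
  have h2 := q2a_card hp0 hp1 hS V 2
  rw [hy] at h2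
  exact h1.trans h2

end BTR
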