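import Pool.Agent.BTR.S10a
import Pool.Agent.BTR.G1
import Pool.Agent.BTR.V11
import Pool.Agent.BTP.S3

set_option autoImplicit false

open scoped Classical
open Finset

namespace BTR
open BTP BTS

variable {d lt : ℕ} (a : Pc d lt)

theorem s10b_prod_pos (T : Box d) (S : Finset (Fin d)) : 0 < ∏ l ∈ S, a.X T l :=
  Finset.prod_pos fun l _ => X_pos a T l

theorem s10b_prod_ge (T : Box d) (k : Fin d) {c : ℝ} (hc0 : 0 ≤ c) (hc : ∀ l, c ≤ a.X T l) :
    c ^ (d - 1) ≤ ∏ l ∈ Finset.univ.erase k, a.X T l := by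
  have h1 : (Finset.univ.erase k : Finset (Fin d)).card = d - 1 := by
    rw [Finset.card_erase_of_mem (Finset.mem_univ k), Finset.card_univ, Fintype.card_fin]
  rw [← h1]
  calc c ^ (Finset.univ.erase k : Finset (Fin d)).card = ∏ _l ∈ Finset.univ.erase k, c := by
        rw [Finset.prod_const]
    _ ≤ ∏ l ∈ Finset.univ.erase k, a.X T l := Finset.prod_le_prod (fun _ _ => hc0) fun l _ => hc l

theorem s10b_main (T : Box d) (k : Fin d) {c : ℝ} (hc0 : 0 < c) (hc : c ≤ ∏ l ∈ Finset.univ.erase k, a.X T l) :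
    a.p * Real.exp (gk (lt + 1) (a.z T k)) ^ 2 ≤ (1 + a.z T k) / c := by
  have hz := z_pos a T k
  have hP : 0 < ∏ l ∈ Finset.univ.erase k, a.X T l := s10b_prod_pos a T _
  have hzk : a.z T k = a.q * ∏ l ∈ Finset.univ.erase k, a.X T l := rfl
  have h1 := exp_gk_sq (k := lt + 1) (Nat.succ_pos _) hz
  calc a.p * Real.exp (gk (lt + 1) (a.z T k)) ^ 2 ≤ a.q * ((1 + a.z T k) / a.z T k) :=
        mul_le_mul (p_le_q a) h1 (by positivity) a.hq.le
    _ = (1 + a.z T k) / ∏ l ∈ Finset.univ.erase k, a.X T l := by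
        have hq := a.hq
        rw [mul_div_assoc', div_eq_div_iff hz.ne' hP.ne']
        conv_lhs => rw [mul_comm a.q, mul_assoc, ← hzk]
    _ ≤ (1 + a.z T k) / c := by
        apply div_le_div_of_nonneg_left (by linarith) hc0 hc

/-- [BTR-S10b] `p e^{2g(zm)} ≤ (1+Z)/H₁`.
PROOF. `p ≤ q`, `e^{2g} ≤ (1+zm)/zm` (`exp_gg_sq`), `zm = q ∏_{l≠k} X_l ≥ q H₁^{d-1} ≥ q H₁`. -/
theorem p_exp_le {T : Box d} (hD : a.InD T) :
    a.p * Real.exp (gk (lt + 1) (a.zm T)) ^ 2 ≤ (1 + a.Z) / a.H1 := by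
  obtain ⟨⟨k, hk⟩, -⟩ := zm_spec a T
  have hH : 0 < a.H1 := by linarith [a.hH1]
  have hd : 1 ≤ d - 1 := by have := a.hd; omega
  have h1 : a.H1 ≤ ∏ l ∈ Finset.univ.erase k, a.X T l := by
    calc a.H1 = a.H1 ^ 1 := (pow_one _).symm
      _ ≤ a.H1 ^ (d - 1) := pow_le_pow_right₀ (by linarith [a.hH1]) hd
      _ ≤ _ := s10b_prod_ge a T k hH.le (X_ge a T)
  rw [hk]
  refine (s10b_main a T k hH h1).trans ?_
  apply div_le_div_of_nonneg_right _ hH.le
  have := (z_le_zf a T k).trans (hD.1 k)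
  linarith

/-- [BTR-S10b] PROOF. With `k` such that `zm = z_k`, `X_k` maximal: `p e^{2g(zm)} ≤ q (1+zm)/zm = (1+zm)/∏_{l≠k} X_l ≤ (1+zm)/Xm^{d-1}`. -/
theorem p_exp_le' (T : Box d) :
    a.p * Real.exp (gk (lt + 1) (a.zm T)) ^ 2 ≤ (1 + a.zm T) / a.Xm T ^ (d - 1) := by
  obtain ⟨⟨k, hk⟩, -⟩ := zm_spec a T
  have hX : 0 < a.Xm T := by linarith [Xm_ge a T, a.hH1]
  have h1 := s10b_prod_ge a T k hX.le (Xm_spec a T).2
  rw [hk]
  exact s10b_main a T k (pow_pos hX _) h1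

/-- [BTR-S10b] PROOF. `e^{g(z_i)+g(z_l)} ≤ √((1+z_i)(1+z_l)/(z_i z_l))` and `p ∏_{≠i,l} X ≤ z_i/X_l = z_l/X_i`; `X ≥ Xm`. -/
theorem p_edge_le {T : Box d} {i l : Fin d} (h : i ≠ l) :
    a.p * (∏ m ∈ (Finset.univ.erase i).erase l, a.X T m) *
      (Real.exp (gk (lt + 1) (a.z T i)) * Real.exp (gk (lt + 1) (a.z T l))) ≤
      Real.sqrt ((1 + a.z T i) * (1 + a.z T l)) / a.Xm T := by
  have hzi := z_pos a T i
  have hzl := z_pos a T l
  have hXi := X_pos a T i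
  have hXl := X_pos a T l
  have hX : 0 < a.Xm T := by linarith [Xm_ge a T, a.hH1]
  have hq := a.hq
  set P := ∏ m ∈ (Finset.univ.erase i).erase l, a.X T m with hP
  have hP0 : 0 < P := s10b_prod_pos a T _
  have e1 : a.z T i = a.q * (a.X T l * P) := by
    rw [hP, Finset.mul_prod_erase (Finset.univ.erase i) (a.X T) (Finset.mem_erase.mpr ⟨Ne.symm h, Finset.mem_univ l⟩)]
    rfl
  have e2 : a.z T l = a.q * (a.X T i * P) := by
    rw [hP, Finset.erase_right_comm, Finset.mul_prod_erase (Finset.univ.erase l) (a.X T)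
      (Finset.mem_erase.mpr ⟨h, Finset.mem_univ i⟩)]
    rfl
  rw [le_div_iff₀ hX]
  apply Real.le_sqrt_of_sq_le
  have hgi := exp_gk_sq (k := lt + 1) (Nat.succ_pos _) hzi
  have hgl := exp_gk_sq (k := lt + 1) (Nat.succ_pos _) hzl
  have hp0 := p_nonneg a
  have hpq := p_le_q a
  have h1 : a.p ^ 2 ≤ a.q ^ 2 := pow_le_pow_left₀ hp0 hpq 2
  have h2 : Real.exp (gk (lt + 1) (a.z T i)) ^ 2 * Real.exp (gk (lt + 1) (a.z T l)) ^ 2 ≤
      ((1 + a.z T i) / a.z T i) * ((1 + a.z T l) / a.z T l) :=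
    mul_le_mul hgi hgl (by positivity) (by positivity)
  have h3 : a.Xm T ^ 2 ≤ a.X T i * a.X T l := by
    rw [sq]
    exact mul_le_mul ((Xm_spec a T).2 i) ((Xm_spec a T).2 l) hX.le hXi.le
  calc (a.p * P * (Real.exp (gk (lt + 1) (a.z T i)) * Real.exp (gk (lt + 1) (a.z T l))) * a.Xm T) ^ 2
      = (a.p ^ 2 * (Real.exp (gk (lt + 1) (a.z T i)) ^ 2 * Real.exp (gk (lt + 1) (a.z T l)) ^ 2)) * (P ^ 2 * a.Xm T ^ 2) := by ring
    _ ≤ (a.q ^ 2 * (((1 + a.z T i) / a.z T i) * ((1 + a.z T l) / a.z T l))) * (P ^ 2 * (a.X T i * a.X T l)) := by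
        apply mul_le_mul
        · exact mul_le_mul h1 h2 (by positivity) (by positivity)
        · exact mul_le_mul_of_nonneg_left h3 (by positivity)
        · positivity
        · positivity
    _ = ((1 + a.z T i) * (1 + a.z T l)) * ((a.q * (a.X T l * P)) * (a.q * (a.X T i * P)) / (a.z T i * a.z T l)) := by
        field_simp
    _ = (1 + a.z T i) * (1 + a.z T l) := by
        rw [← e1, ← e2, div_self (by positivity), mul_one]

end BTR
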