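import Pool.Agent.BTR.S10a
import Pool.Agent.BTR.S10b

set_option autoImplicit false

open scoped Classical
open Finset

namespace BTR
open BTP BTS

variable {d lt : ℕ} (a : Pc d lt)

theorem grow_opp {T : Box d} {S : Box (d + lt)} (hT : Ne T) (hS : Ne S)
    {y : ℕ} (hy : Ys S = y) {i : Fin d} (h : ∀ m : Dir d, m.1 ≠ i → pr S m ≤ T m)
    (h1 : T (i, true) < pr S (i, true)) (h2 : T (i, false) < pr S (i, false)) :
    a.Ps (T ⊔ pr S) ≤ a.Ps T + y * gk (lt + 1) (a.z T i) := by
  have hg := Ps_grow a hT (le_sup_left : T ≤ T ⊔ pr S)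
  have hTS : Ne (T ⊔ pr S) := hT.mono le_sup_left
  have hpS := ne_pr hS
  refine hg.trans (add_le_add le_rfl ?_)
  have hother : ∀ l : Fin d, l ≠ i → (sd (T ⊔ pr S) l : ℝ) - sd T l = 0 := by
    intro l hl
    have e1 : (T ⊔ pr S) (l, true) = T (l, true) := max_eq_left (h (l, true) hl)
    have e2 : (T ⊔ pr S) (l, false) = T (l, false) := max_eq_left (h (l, false) hl)
    unfold sd
    rw [e1, e2, sub_self]
  rw [Finset.sum_eq_single i (fun l _ hl => by rw [hother l hl, zero_mul])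
    (fun hi => absurd (Finset.mem_univ i) hi)]
  refine mul_le_mul_of_nonneg_right ?_ (gk_nonneg (z_pos a T i))
  have c1 := sd_cast hTS i
  have c2 := sd_cast hT i
  have e1 : (T ⊔ pr S) (i, true) = pr S (i, true) := max_eq_right h1.le
  have e2 : (T ⊔ pr S) (i, false) = pr S (i, false) := max_eq_right h2.le
  have hTi := hT i
  have hle : pr S (i, true) + pr S (i, false) ≤ Ys (pr S) := by
    rw [b1_Ys]
    exact Finset.single_le_sum (f := fun i : Fin d => pr S (i, true) + pr S (i, false))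
      (fun j _ => hpS j) (Finset.mem_univ i)
  have hle2 := Ys_pr_le hS
  have : (sd (T ⊔ pr S) i : ℤ) - sd T i ≤ y := by rw [c1, c2, e1, e2]; omega
  exact_mod_cast this

theorem p_one_le (T : Box d) (i : Fin d) :
    a.p * Real.exp (gk (lt + 1) (a.z T i)) ^ 2 * ∏ m ∈ Finset.univ.erase i, a.X T m ≤
      1 + a.z T i := by
  have hP : 0 < ∏ l ∈ Finset.univ.erase i, a.X T l := s10b_prod_pos a T _
  have h := s10b_main a T i hP le_rfl
  rwa [le_div_iff₀ hP] at h

theorem prod_X_ge (T : Box d) (i : Fin d) : a.Xm T ≤ ∏ m ∈ Finset.univ.erase i, a.X T m := by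
  have hX : 1 ≤ a.Xm T := by linarith [Xm_ge a T, a.hH1]
  have hd : 1 ≤ d - 1 := by have := a.hd; omega
  calc a.Xm T = a.Xm T ^ 1 := (pow_one _).symm
    _ ≤ a.Xm T ^ (d - 1) := pow_le_pow_right₀ hX hd
    _ ≤ _ := s10b_prod_ge a T i (by linarith) (Xm_spec a T).2

end BTR
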