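import Pool.Agent.BTR.I2
import Pool.Agent.BTR.S10
import Pool.Agent.BTR.Q2a
set_option autoImplicit false

open scoped Classical
open Finset

/-! # Compounds: the sum over all boxes which contain the revealed site -/

namespace BTR
open BTP BTS

variable {d lt : ℕ} (a : Pc d lt)

/-- the allowed number of additional directions of growth of a compound -/
noncomputable def ex (S : Box (d + lt)) (v : Site (d + lt)) : ℕ :=
  if Crn S v ∧ Ys S ≤ 2 then d - 1 else 2 * d - 1

/-- the extent of `S` as a sum of nonnegative terms -/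
theorem i4a_sum {n : ℕ} (S : Box n) (v : Site n) : ∑ j, (S j - cc v j) = Ys S := by
  have h := Ys_cc v
  unfold Ys at h ⊢
  rw [Finset.sum_sub_distrib, h, sub_zero]

theorem i4a_le {n : ℕ} {S : Box n} {v : Site n} (h : cc v ≤ S) (j : Dir n) :
    S j - cc v j ≤ Ys S := by
  rw [← i4a_sum S v]
  exact Finset.single_le_sum (f := fun j => S j - cc v j) (fun i _ => sub_nonneg.2 (h i))
    (Finset.mem_univ j)

theorem i4a_le2 {n : ℕ} {S : Box n} {v : Site n} (h : cc v ≤ S) {j k : Dir n} (hjk : j ≠ k) :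
    (S j - cc v j) + (S k - cc v k) ≤ Ys S := by
  rw [← i4a_sum S v, ← Finset.add_sum_erase _ _ (Finset.mem_univ j)]
  have h2 : S k - cc v k ≤ ∑ x ∈ Finset.univ.erase j, (S x - cc v x) :=
    Finset.single_le_sum (f := fun j => S j - cc v j) (fun i _ => sub_nonneg.2 (h i))
      (Finset.mem_erase.2 ⟨hjk.symm, Finset.mem_univ k⟩)
  linarith

/-- [BTR-I4a] number of compounds of extent `y`.
PROOF. The map `S ↦ (j ↦ (S j - cc v j).toNat)` is injective into the functions `Dir n → Fin (y+1)`: `0 ≤ S j - cc v j ≤ Ys S - Ys (cc v) = y` (`Ys_cc`; `Ys S - Ys (cc v) = ∑ (S j - cc v j)`, all terms `≥ 0`). `Fintype.card_fun`. -/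
theorem card_cmp {n : ℕ} (W : Box n) (v : Site n) (h y : ℕ) :
    ((cmpd W v h).filter (fun S => Ys S = y)).card ≤ (y + 1) ^ (2 * n) := by
  have h1 : Fintype.card (Dir n → Fin (y + 1)) = (y + 1) ^ (2 * n) := by
    rw [Fintype.card_fun, Fintype.card_fin]
    congr 1
    unfold Dir
    rw [Fintype.card_prod, Fintype.card_fin, Fintype.card_bool, mul_comm]
  rw [← h1, ← Finset.card_univ]
  refine Finset.card_le_card_of_injOn
    (fun S j => (⟨min (S j - cc v j).toNat y, Nat.lt_succ_of_le (min_le_right _ _)⟩ : Fin (y + 1)))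
    (fun _ _ => Finset.mem_coe.2 (Finset.mem_univ _)) ?_
  intro S hS S' hS' he
  obtain ⟨hS1, hS2⟩ := Finset.mem_filter.1 (Finset.mem_coe.1 hS)
  obtain ⟨hS1', hS2'⟩ := Finset.mem_filter.1 (Finset.mem_coe.1 hS')
  unfold cmpd at hS1 hS1'
  have hc := (Finset.mem_filter.1 hS1).2.1
  have hc' := (Finset.mem_filter.1 hS1').2.1
  funext j
  have h2 : min (S j - cc v j).toNat y = min (S' j - cc v j).toNat y :=
    congrArg Fin.val (congrFun he j)
  have h3 := i4a_le hc j
  have h4 := i4a_le hc' j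
  have h5 : cc v j ≤ S j := hc j
  have h6 : cc v j ≤ S' j := hc' j
  rw [hS2] at h3
  rw [hS2'] at h4
  omega

/-- [BTR-I4a] the cost of a compound: at most `y` more levels than the site.
PROOF. `T₁ = T ⊔ cc (ps v) ≤ T' = T ⊔ pr S` (`pr_mono`, `pr_cc`). `Ps_grow`; each `g(z_l(T₁)) ≤ g(zm T)` (`zm_spec`, `z_mono`, `gk_anti`, `z_pos`, `zm_pos`); the total growth `∑ (sd T' l - sd T₁ l) = Ys T' - Ys T₁` (`Ys_eq`) is at most `Ys (pr S) ≤ Ys S` (`Ys_pr_le`): in each direction `max (T₁ j) (pr S j) - T₁ j ≤ pr S j - cc (ps v) j`, and `∑ cc (ps v) j = Ys (cc (ps v)) = 0`. -/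
theorem cmp_cost {T : Box d} {S : Box (d + lt)} {v : Site (d + lt)} (hT : Ne T) (hS : cc v ≤ S)
    {y : ℕ} (hy : Ys S = y) :
    a.Ps (T ⊔ pr S) ≤ a.Ps (T ⊔ cc (ps v)) + y * gk (lt + 1) (a.zm T) := by
  have hv : cc (ps v) ≤ pr S := pr_mono hS
  have hT1 : Ne (T ⊔ cc (ps v)) := hT.sup_left
  have hle : T ⊔ cc (ps v) ≤ T ⊔ pr S := sup_le_sup_left hv T
  have hT2 : Ne (T ⊔ pr S) := hT.sup_left
  have hg0 : 0 ≤ gk (lt + 1) (a.zm T) := gk_nonneg (k := lt + 1) (zm_pos a T)
  have h1 := Ps_grow a hT1 hle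
  have h2 : ∑ l, ((sd (T ⊔ pr S) l : ℝ) - sd (T ⊔ cc (ps v)) l) *
      gk (lt + 1) (a.z (T ⊔ cc (ps v)) l) ≤
      (∑ l, ((sd (T ⊔ pr S) l : ℝ) - sd (T ⊔ cc (ps v)) l)) * gk (lt + 1) (a.zm T) := by
    rw [Finset.sum_mul]
    refine Finset.sum_le_sum fun l _ => mul_le_mul_of_nonneg_left ?_ ?_
    · exact gk_anti (k := lt + 1) (zm_pos a T) (((zm_spec a T).2 l).trans
        (z_mono a hT le_sup_left l))
    · rw [sub_nonneg]
      exact Nat.cast_le.2 (sd_mono hT1 hle l)
  have h3 : ∑ l, ((sd (T ⊔ pr S) l : ℝ) - sd (T ⊔ cc (ps v)) l) ≤ y := by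
    have h4 : ∑ l, ((sd (T ⊔ pr S) l : ℤ) - sd (T ⊔ cc (ps v)) l) =
        Ys (T ⊔ pr S) - Ys (T ⊔ cc (ps v)) := by
      rw [Ys_eq hT1, Ys_eq hT2, ← Finset.sum_sub_distrib]
      exact Finset.sum_congr rfl fun l _ => by ring
    have h5 : Ys (T ⊔ pr S) - Ys (T ⊔ cc (ps v)) ≤ Ys (pr S) := by
      rw [← i4a_sum (pr S) (ps v)]
      unfold Ys
      rw [← Finset.sum_sub_distrib]
      refine Finset.sum_le_sum fun j _ => ?_
      have h6 : cc (ps v) j ≤ pr S j := hv j
      show max (T j) (pr S j) - max (T j) (cc (ps v) j) ≤ pr S j - cc (ps v) j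
      omega
    have h6 := Ys_pr_le ((ne_cc v).mono hS)
    have h7 : ∑ l, ((sd (T ⊔ pr S) l : ℤ) - sd (T ⊔ cc (ps v)) l) ≤ y := by omega
    have h8 : ((∑ l, ((sd (T ⊔ pr S) l : ℤ) - sd (T ⊔ cc (ps v)) l) : ℤ) : ℝ) ≤ ((y : ℤ) : ℝ) :=
      Int.cast_le.2 h7
    push_cast at h8
    exact h8
  have h9 := mul_le_mul_of_nonneg_right h3 hg0
  linarith

/-- [BTR-I4a] the additional directions of growth. `d ≥ 2`.
PROOF. Let `B` be the set on the left: `m ∈ B` iff `cc (ps v) m ≤ T m < pr S m`. It does not contain the directions in which `v` is beyond `T` (there is one, by `hv`), and there are `2d` directions: `B.card ≤ 2d - 1`.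
Suppose that `v` is a corner of `S` and `Ys S ≤ 2`. For `m ∈ B`: `S` extends `v` in direction `m`; as `v` is a corner, `S` does not extend `v` in the direction `opp m`. So the map `m ↦ m.1` is injective on `B`. Let `j` be a direction with `T j < cc (ps v) j`. If no `m ∈ B` has `m.1 = j.1` then `B.card ≤ d - 1`. Otherwise `m = opp j ∈ B` (`j ∉ B`):
`pr S m > T m ≥ - T j` (`Ne T`) so `pr S m ≥ - T j + 1 ≥ - cc (ps v) j + 2 = cc (ps v) m + 2`: `S` extends `v` by at least `2` in direction `m`, and (`Ys S - Ys (cc v) ≤ 2`) in no other direction, so `B = {m}` and `B.card = 1 ≤ d - 1`. -/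
theorem extra_le {T : Box d} {S : Box (d + lt)} {v : Site (d + lt)} (hd : 2 ≤ d) (hT : Ne T)
    (hS : cc v ≤ S) (hv : ¬ cc (ps v) ≤ T) :
    (grw T (pr S) \ grw T (cc (ps v))).card ≤ ex S v := by
  have hle : cc (ps v) ≤ pr S := pr_mono hS
  obtain ⟨j, hj⟩ : ∃ j, T j < cc (ps v) j := by
    by_contra hcon
    push Not at hcon
    exact hv hcon
  have hmem : ∀ m, m ∈ grw T (pr S) \ grw T (cc (ps v)) → cc (ps v) m ≤ T m ∧ T m < pr S m := by
    intro m hm
    unfold grw at hm
    simp only [Finset.mem_sdiff, Finset.mem_filter, Finset.mem_univ, true_and, not_lt] at hm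
    exact ⟨hm.2, hm.1⟩
  have hjB : j ∉ grw T (pr S) \ grw T (cc (ps v)) := fun h => by
    have := (hmem j h).1
    omega
  unfold ex
  by_cases hc : Crn S v ∧ Ys S ≤ 2
  · rw [if_pos hc]
    obtain ⟨hc1, hc2⟩ := hc
    have hext : ∀ m, m ∈ grw T (pr S) \ grw T (cc (ps v)) → cc (ps v) m < pr S m := fun m hm => by
      have := hmem m hm
      omega
    have hcrn : ∀ i : Fin d, ¬ (cc (ps v) (i, true) < pr S (i, true) ∧
        cc (ps v) (i, false) < pr S (i, false)) := by
      rintro i ⟨h1, h2⟩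
      rcases hc1 (lo d lt i) with h | h
      · have h3 : cc (ps v) (i, true) = pr S (i, true) := h
        omega
      · have h3 : cc (ps v) (i, false) = pr S (i, false) := h
        omega
    by_cases hex : ∃ m ∈ grw T (pr S) \ grw T (cc (ps v)), m.1 = j.1
    · obtain ⟨m, hm, hmj⟩ := hex
      obtain ⟨hm1, hm2⟩ := hmem m hm
      have hne : m ≠ j := fun h => hjB (h ▸ hm)
      have hTn := hT j.1
      have hcz : cc (ps v) (j.1, true) + cc (ps v) (j.1, false) = 0 := by
        rw [b1_cct, b1_ccf]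
        ring
      have h4 : T m + T j = T (j.1, true) + T (j.1, false) ∧
          cc (ps v) m + cc (ps v) j = cc (ps v) (j.1, true) + cc (ps v) (j.1, false) := by
        obtain ⟨j1, jb⟩ := j
        obtain ⟨m1, mb⟩ := m
        simp only at hmj
        subst hmj
        cases jb <;> cases mb
        · exact absurd rfl hne
        · exact ⟨rfl, rfl⟩
        · exact ⟨add_comm _ _, add_comm _ _⟩
        · exact absurd rfl hne
      have h5 : cc (ps v) m + 2 ≤ pr S m := by omega
      have h6 : grw T (pr S) \ grw T (cc (ps v)) ⊆ {m} := by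
        intro k hk
        rw [Finset.mem_singleton]
        by_contra hkm
        have h7 := hext k hk
        have h8 := i4a_le2 hle (j := m) (k := k) (fun h => hkm h.symm)
        have h9 := Ys_pr_le ((ne_cc v).mono hS)
        omega
      have h7 := Finset.card_le_card h6
      rw [Finset.card_singleton] at h7
      omega
    · push Not at hex
      have h1 : (grw T (pr S) \ grw T (cc (ps v))).card ≤ (Finset.univ.erase j.1).card := by
        refine Finset.card_le_card_of_injOn (fun m => m.1)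
          (fun m hm => Finset.mem_coe.2 (Finset.mem_erase.2 ⟨hex m (Finset.mem_coe.1 hm),
            Finset.mem_univ _⟩)) ?_
        rintro ⟨m1, mb⟩ hm ⟨k1, kb⟩ hk he
        simp only at he
        subst he
        have h1 := hext _ (Finset.mem_coe.1 hm)
        have h2 := hext _ (Finset.mem_coe.1 hk)
        cases mb <;> cases kb
        · rfl
        · exact absurd ⟨h2, h1⟩ (hcrn m1)
        · exact absurd ⟨h1, h2⟩ (hcrn m1)
        · rfl
      rw [Finset.card_erase_of_mem (Finset.mem_univ _), Finset.card_univ, Fintype.card_fin] at h1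
      exact h1
  · rw [if_neg hc]
    have h1 : (grw T (pr S) \ grw T (cc (ps v))).card ≤ (Finset.univ.erase j).card :=
      Finset.card_le_card fun m hm => Finset.mem_erase.2 ⟨fun h => hjB (h ▸ hm), Finset.mem_univ _⟩
    rw [Finset.card_erase_of_mem (Finset.mem_univ _), Finset.card_univ] at h1
    have h2 : Fintype.card (Dir d) = 2 * d := by
      unfold Dir
      rw [Fintype.card_prod, Fintype.card_fin, Fintype.card_bool, mul_comm]
    rw [h2] at h1
    exact h1

end BTR
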