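import Pool.Agent.BTR.I2
import Pool.Agent.BTR.S10
import Pool.Agent.BTR.Q2a
import Pool.Agent.BTR.I4a
set_option autoImplicit false

open scoped Classical
open Finset

/-! # Compounds: the sum over all boxes which contain the revealed site -/

namespace BTR
open BTP BTS

variable {d lt : ℕ} (a : Pc d lt)

/-- elementary facts on `u = 1 + zm`, `X = Xm`, `e = exp zm`, `s = √X` -/
theorem i4c_facts {T : Box d} (hz : Real.exp (a.zm T) ≤ Real.sqrt (a.Xm T)) :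
    0 < a.zm T ∧ 100 ≤ a.Xm T ∧ 1 ≤ Real.exp (a.zm T) ∧ 1 ≤ Real.sqrt (a.Xm T) ∧
      Real.sqrt (a.Xm T) * Real.sqrt (a.Xm T) = a.Xm T ∧
      1 + a.zm T ≤ Real.exp (a.zm T) ∧
      Real.exp (a.zm T) * Real.sqrt (a.Xm T) ≤ a.Xm T := by
  have h1 := zm_pos a T
  have h2 : 100 ≤ a.Xm T := a.hH1.trans (Xm_ge a T)
  have h3 : 1 ≤ Real.exp (a.zm T) := Real.one_le_exp h1.le
  have h4 : Real.sqrt (a.Xm T) * Real.sqrt (a.Xm T) = a.Xm T := Real.mul_self_sqrt (by linarith)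
  have h5 : 1 + a.zm T ≤ Real.exp (a.zm T) := by
    have := Real.add_one_le_exp (a.zm T)
    linarith
  refine ⟨h1, h2, h3, h3.trans hz, h4, h5, ?_⟩
  calc Real.exp (a.zm T) * Real.sqrt (a.Xm T) ≤ Real.sqrt (a.Xm T) * Real.sqrt (a.Xm T) :=
        mul_le_mul_of_nonneg_right hz (Real.sqrt_nonneg _)
    _ = a.Xm T := h4

theorem i4c_rr (T : Box d) : (1 + a.zm T) * Real.exp (-(a.zm T)) / Real.sqrt (a.Xm T) =
    (1 + a.zm T) / (Real.exp (a.zm T) * Real.sqrt (a.Xm T)) := by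
  rw [Real.exp_neg, ← div_eq_mul_inv, div_div]

/-- the second case of `thm` -/
theorem i4c_thm {T : Box d} (h : a.thm T ≠ 1 / 64) :
    Real.sqrt ((1 + a.zm T) / a.Xm T) * Real.exp (a.zm T) ≤ a.thm T := by
  have hka : (1 : ℝ) ≤ a.ka := (one_le_pow₀ (by norm_num)).trans a.hka
  have h1 : a.thm T = a.ka * Real.sqrt ((1 + a.zm T) / a.Xm T) * Real.exp (a.zm T) := by
    unfold Pc.thm at h ⊢
    rcases min_choice (1 / 64 : ℝ)
      (a.ka * Real.sqrt ((1 + a.zm T) / a.Xm T) * Real.exp (a.zm T)) with h2 | h2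
    · exact absurd h2 h
    · exact h2
  rw [h1, mul_assoc]
  exact le_mul_of_one_le_left (by positivity) hka

theorem i4c_pow {X t c : ℝ} (hc : 1 ≤ c) (h : c ≤ X * t) {n : ℕ} (hn : 1 ≤ n) :
    c ≤ X ^ n * t ^ n := by
  rw [← mul_pow]
  calc c ≤ X * t := h
    _ = (X * t) ^ 1 := (pow_one _).symm
    _ ≤ (X * t) ^ n := pow_le_pow_right₀ (hc.trans h) hn

/-- [BTR-I4c] numerical bounds. Let `η = (1+zm)/Xm^(d-1)`, `r = (1+zm) e^{-zm}/√Xm`, `ϑ = thm`.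
PROOF. `ϑ = 1/64`: `η 64^{d-1} ≤ 64^{d-1} (1+zm)/Xm ≤ 64^{d-1} r` by `hz` (`e^{zm}/√Xm ≤ 1`, `Xm ≥ 100`). Otherwise `ϑ = ka √((1+zm)/Xm) e^{zm} ≥ √((1+zm)/Xm) e^{zm}`, `s = √((1+zm)/Xm)`: `η/ϑ^{d-1} ≤ (1+zm)/Xm^{d-1} · s^{-(d-1)} e^{-(d-1)zm}`; as `s^{-1} = √Xm/√(1+zm) ≤ √Xm`: `≤ (1+zm) Xm^{-(d-1)/2} e^{-zm} ≤ r` (`d - 1 ≥ 1`; write `Xm^{d-1} = (√Xm)^{2(d-1)}`). -/
theorem eta_one {T : Box d} (hz : Real.exp (a.zm T) ≤ Real.sqrt (a.Xm T)) :
    (1 + a.zm T) / a.Xm T ^ (d - 1) / a.thm T ^ (d - 1) ≤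
      (64 ^ (d - 1) + 1) * ((1 + a.zm T) * Real.exp (-(a.zm T)) / Real.sqrt (a.Xm T)) := by
  obtain ⟨hz0, hX, he, hs, hss, hue, hes⟩ := i4c_facts a hz
  have hd : 1 ≤ d - 1 := by have := a.hd; omega
  rw [i4c_rr]
  have hes1 : 1 ≤ Real.exp (a.zm T) * Real.sqrt (a.Xm T) := one_le_mul_of_one_le_of_one_le he hs
  have hr : 0 ≤ (1 + a.zm T) / (Real.exp (a.zm T) * Real.sqrt (a.Xm T)) := by positivity
  have hX0 : 0 < a.Xm T := by linarith
  by_cases h : a.thm T = 1 / 64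
  · rw [h, div_pow, one_pow, div_div_eq_mul_div, div_one]
    have h1 : (1 + a.zm T) / a.Xm T ^ (d - 1) ≤
        (1 + a.zm T) / (Real.exp (a.zm T) * Real.sqrt (a.Xm T)) := by
      refine div_le_div_of_nonneg_left (by linarith) (by linarith) (hes.trans ?_)
      calc a.Xm T = a.Xm T ^ 1 := (pow_one _).symm
        _ ≤ a.Xm T ^ (d - 1) := pow_le_pow_right₀ (by linarith) hd
    have h2 : (0 : ℝ) ≤ 64 ^ (d - 1) := by positivity
    nlinarith
  · have hth := i4c_thm a h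
    have hth0 : 0 < a.thm T := thm_pos a T
    have h1 : Real.exp (a.zm T) * Real.sqrt (a.Xm T) ≤ a.Xm T * a.thm T := by
      have h2 : Real.sqrt (a.Xm T) ≤ a.Xm T * Real.sqrt ((1 + a.zm T) / a.Xm T) := by
        rw [Real.sqrt_div (by linarith)]
        have h3 : 1 ≤ Real.sqrt (1 + a.zm T) := Real.one_le_sqrt.2 (by linarith)
        rw [← mul_div_assoc, le_div_iff₀ (by linarith), hss]
        exact le_mul_of_one_le_right hX0.le h3
      calc Real.exp (a.zm T) * Real.sqrt (a.Xm T) ≤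
            Real.exp (a.zm T) * (a.Xm T * Real.sqrt ((1 + a.zm T) / a.Xm T)) :=
            mul_le_mul_of_nonneg_left h2 (by linarith)
        _ = a.Xm T * (Real.sqrt ((1 + a.zm T) / a.Xm T) * Real.exp (a.zm T)) := by ring
        _ ≤ a.Xm T * a.thm T := mul_le_mul_of_nonneg_left hth hX0.le
    rw [div_div]
    have h2 : (1 + a.zm T) / (a.Xm T ^ (d - 1) * a.thm T ^ (d - 1)) ≤
        (1 + a.zm T) / (Real.exp (a.zm T) * Real.sqrt (a.Xm T)) :=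
      div_le_div_of_nonneg_left (by linarith) (by linarith) (i4c_pow hes1 h1 hd)
    have h3 : (0 : ℝ) ≤ 64 ^ (d - 1) := by positivity
    nlinarith

theorem i4c_aux {u X w : ℝ} (hX : 0 < X) (hw : 0 < w) (h : w ^ 2 * X = u) (hXw : 1 ≤ X * w)
    (k : ℕ) : u / X ^ (k + 1) / w ^ (k + 2) ≤ 1 := by
  have h1 : u / X ^ (k + 1) / w ^ (k + 2) = 1 / (X * w) ^ k := by
    rw [← h, mul_pow]
    field_simp
    ring
  rw [h1]
  exact (div_le_one₀ (by positivity)).2 (one_le_pow₀ hXw)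

/-- [BTR-I4c] PROOF. `ϑ^{2d-1} = ϑ^{d-1} ϑ^d`: `eta_one` times `η/ϑ^d ≤ 64^d + 1`: if `ϑ = 1/64` then `η 64^d ≤ 64^d` (`η ≤ (1+zm)/Xm ≤ e^{zm}/√Xm ≤ 1`); otherwise `η/ϑ^d ≤ (1+zm)/Xm^{d-1} · (√Xm/√(1+zm))^d ≤ (1+zm) (1+zm)^{-d/2} Xm^{1-d/2} ≤ 1` as `d ≥ 2`. -/
theorem eta_two {T : Box d} (hz : Real.exp (a.zm T) ≤ Real.sqrt (a.Xm T)) :
    ((1 + a.zm T) / a.Xm T ^ (d - 1)) ^ 2 / a.thm T ^ (2 * d - 1) ≤
      (64 ^ (d - 1) + 1) * (64 ^ d + 1) *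
        ((1 + a.zm T) * Real.exp (-(a.zm T)) / Real.sqrt (a.Xm T)) := by
  obtain ⟨hz0, hX, he, hs, hss, hue, hes⟩ := i4c_facts a hz
  have hd2 := a.hd
  have hd : 1 ≤ d - 1 := by omega
  have hth0 : 0 < a.thm T := thm_pos a T
  have hX0 : 0 < a.Xm T := by linarith
  have h1 := eta_one a hz
  have h2 : (1 + a.zm T) / a.Xm T ^ (d - 1) / a.thm T ^ d ≤ 64 ^ d + 1 := by
    by_cases h : a.thm T = 1 / 64
    · rw [h, div_pow, one_pow, div_div_eq_mul_div, div_one]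
      have h3 : (1 + a.zm T) / a.Xm T ^ (d - 1) ≤ 1 := by
        refine (div_le_one₀ (by positivity)).2 ?_
        calc 1 + a.zm T ≤ Real.exp (a.zm T) := hue
          _ ≤ Real.exp (a.zm T) * Real.sqrt (a.Xm T) := le_mul_of_one_le_right (by linarith) hs
          _ ≤ a.Xm T := hes
          _ = a.Xm T ^ 1 := (pow_one _).symm
          _ ≤ a.Xm T ^ (d - 1) := pow_le_pow_right₀ (by linarith) hd
      have h4 : (0 : ℝ) ≤ 64 ^ d := by positivity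
      nlinarith
    · have hth := i4c_thm a h
      have hw0 : 0 < Real.sqrt ((1 + a.zm T) / a.Xm T) := Real.sqrt_pos.2 (by positivity)
      have hth2 : Real.sqrt ((1 + a.zm T) / a.Xm T) ≤ a.thm T :=
        (le_mul_of_one_le_right hw0.le he).trans hth
      have hww : Real.sqrt ((1 + a.zm T) / a.Xm T) ^ 2 * a.Xm T = 1 + a.zm T := by
        rw [Real.sq_sqrt (by positivity)]
        field_simp
      have hXw : 1 ≤ a.Xm T * Real.sqrt ((1 + a.zm T) / a.Xm T) := by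
        rw [Real.sqrt_div (by linarith)]
        have h3 : 1 ≤ Real.sqrt (1 + a.zm T) := Real.one_le_sqrt.2 (by linarith)
        rw [← mul_div_assoc, le_div_iff₀ (by linarith)]
        nlinarith
      obtain ⟨k, hk⟩ : ∃ k, d = k + 2 := ⟨d - 2, by omega⟩
      have h3 := i4c_aux hX0 hw0 hww hXw k
      have h4 : d - 1 = k + 1 := by omega
      rw [h4]
      have h5 : (1 + a.zm T) / a.Xm T ^ (k + 1) / a.thm T ^ (k + 2) ≤
          (1 + a.zm T) / a.Xm T ^ (k + 1) / Real.sqrt ((1 + a.zm T) / a.Xm T) ^ (k + 2) :=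
        div_le_div_of_nonneg_left (by positivity) (by positivity)
          (pow_le_pow_left₀ hw0.le hth2 _)
      have h6 : (0 : ℝ) ≤ 64 ^ d := by positivity
      have h7 : a.thm T ^ d = a.thm T ^ (k + 2) := congrArg (fun m : ℕ => a.thm T ^ m) hk
      rw [h7]
      linarith
  have h3 : ((1 + a.zm T) / a.Xm T ^ (d - 1)) ^ 2 / a.thm T ^ (2 * d - 1) =
      ((1 + a.zm T) / a.Xm T ^ (d - 1) / a.thm T ^ (d - 1)) *
        ((1 + a.zm T) / a.Xm T ^ (d - 1) / a.thm T ^ d) := by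
    rw [show 2 * d - 1 = (d - 1) + d by omega, pow_add, sq]
    exact mul_div_mul_comm _ _ _ _
  rw [h3]
  calc ((1 + a.zm T) / a.Xm T ^ (d - 1) / a.thm T ^ (d - 1)) *
        ((1 + a.zm T) / a.Xm T ^ (d - 1) / a.thm T ^ d) ≤
        ((64 ^ (d - 1) + 1) * ((1 + a.zm T) * Real.exp (-(a.zm T)) / Real.sqrt (a.Xm T))) *
          (64 ^ d + 1) := mul_le_mul h1 h2 (by positivity) (by positivity)
    _ = _ := by ring

end BTR
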