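import Pool.Agent.BTR.I2
import Pool.Agent.BTR.S10
import Pool.Agent.BTR.Q2a
import Pool.Agent.BTR.I4a
import Pool.Agent.BTR.I4c
set_option autoImplicit false

open scoped Classical
open Finset

/-! # Compounds: the sum over all boxes which contain the revealed site -/

namespace BTR
open BTP BTS

variable {d lt : ℕ} (a : Pc d lt)

theorem i4d_pE {T : Box d} : 0 ≤ a.p * Real.exp (gk (lt + 1) (a.zm T)) ^ 2 :=
  mul_nonneg (BTR.p_nonneg a) (by positivity)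

theorem i4d_E1 (T : Box d) : 1 ≤ Real.exp (gk (lt + 1) (a.zm T)) :=
  Real.one_le_exp (gk_nonneg (k := lt + 1) (zm_pos a T))

theorem i4d_exp (T : Box d) {y n : ℕ} (h : y ≤ n) :
    Real.exp ((y : ℝ) * gk (lt + 1) (a.zm T)) ≤ Real.exp (gk (lt + 1) (a.zm T)) ^ n := by
  rw [← Real.exp_nat_mul]
  exact Real.exp_le_exp.2 (mul_le_mul_of_nonneg_right (Nat.cast_le.2 h)
    (gk_nonneg (k := lt + 1) (zm_pos a T)))

/-- the value `r` -/
theorem i4d_r0 (T : Box d) :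
    0 ≤ (1 + a.zm T) * Real.exp (-(a.zm T)) / Real.sqrt (a.Xm T) := by
  have := zm_pos a T
  positivity

/-- small extents -/
theorem i4d_small {T : Box d} (hz : Real.exp (a.zm T) ≤ Real.sqrt (a.Xm T))
    {S : Box (d + lt)} {v : Site (d + lt)} (hS : cc v ≤ S) {y : ℕ} (hy : Ys S = y) (hy1 : 1 ≤ y)
    (hy4 : y ≤ 4) (V : Finset (Site (d + lt))) :
    Pr V a.p (Gv S v) * (Real.exp ((y : ℝ) * gk (lt + 1) (a.zm T)) / a.thm T ^ ex S v) ≤
      25 ^ (d + lt) * ((64 ^ (d - 1) + 1) * (64 ^ d + 1) *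
        ((1 + a.zm T) * Real.exp (-(a.zm T)) / Real.sqrt (a.Xm T))) := by
  have hp0 := BTR.p_nonneg a
  have hp1 := BTR.p_le_one a
  have hNe : Ne S := (ne_cc v).mono hS
  have hth : 0 < a.thm T := thm_pos a T
  have hr := i4d_r0 a T
  set r := (1 + a.zm T) * Real.exp (-(a.zm T)) / Real.sqrt (a.Xm T) with hrdef
  set E := Real.exp (gk (lt + 1) (a.zm T)) with hE
  have hE1 : 1 ≤ E := i4d_E1 a T
  have hpE := p_exp_le' a T
  have hpE0 : 0 ≤ a.p * E ^ 2 := i4d_pE a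
  by_cases hc : Crn S v ∧ Ys S ≤ 2
  · have hex : ex S v = d - 1 := if_pos hc
    rw [hex]
    have hy2 : y ≤ 2 := by
      have := hc.2
      omega
    have h1 := Pr_Gv hp0 hp1 hNe hy v V
    have h2 : ms y - 1 = 1 := by
      unfold ms
      omega
    rw [h2, pow_one] at h1
    have h3 : ((y : ℝ) + 1) ^ (d + lt) ≤ 3 ^ (d + lt) := by
      refine pow_le_pow_left₀ (by positivity) ?_ _
      have : (y : ℝ) ≤ 2 := by exact_mod_cast hy2
      linarith
    have h4 : Pr V a.p (Gv S v) ≤ 3 ^ (d + lt) * a.p :=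
      h1.trans (mul_le_mul_of_nonneg_right h3 hp0)
    have h5 := i4d_exp a T hy2
    have h6 : Pr V a.p (Gv S v) * (Real.exp ((y : ℝ) * gk (lt + 1) (a.zm T)) / a.thm T ^ (d - 1)) ≤
        3 ^ (d + lt) * a.p * (E ^ 2 / a.thm T ^ (d - 1)) :=
      mul_le_mul h4 (div_le_div_of_nonneg_right h5 (by positivity)) (by positivity)
        (by positivity)
    have h7 : 3 ^ (d + lt) * a.p * (E ^ 2 / a.thm T ^ (d - 1)) =
        3 ^ (d + lt) * (a.p * E ^ 2 / a.thm T ^ (d - 1)) := by ring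
    have h8 : a.p * E ^ 2 / a.thm T ^ (d - 1) ≤
        (1 + a.zm T) / a.Xm T ^ (d - 1) / a.thm T ^ (d - 1) :=
      div_le_div_of_nonneg_right hpE (by positivity)
    have h9 := eta_one a hz
    rw [← hrdef] at h9
    have h10 : (3 : ℝ) ^ (d + lt) ≤ 25 ^ (d + lt) :=
      pow_le_pow_left₀ (by norm_num) (by norm_num) _
    have h11 : (64 ^ (d - 1) + 1 : ℝ) * r ≤ (64 ^ (d - 1) + 1) * (64 ^ d + 1) * r := by
      refine mul_le_mul_of_nonneg_right ?_ hr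
      refine le_mul_of_one_le_right (by positivity) ?_
      have : (0 : ℝ) ≤ 64 ^ d := by positivity
      linarith
    rw [h7] at h6
    refine h6.trans (mul_le_mul h10 (h8.trans (h9.trans h11)) (by positivity) (by positivity))
  · have hex : ex S v = 2 * d - 1 := if_neg hc
    rw [hex]
    have h1 : Pr V a.p (Gv S v) ≤ (((y : ℝ) + 1) ^ (d + lt) * a.p) ^ 2 := by
      by_cases hy2 : y ≤ 2
      · have hcr : ¬ Crn S v := fun h => hc ⟨h, by omega⟩
        exact Pr_Gv_two hp0 hp1 hNe hy hcr V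
      · have h1 := Pr_Gv hp0 hp1 hNe hy v V
        have h2 : ms y - 1 = 2 := by
          unfold ms
          omega
        rw [h2] at h1
        exact h1
    have h3 : ((y : ℝ) + 1) ^ (d + lt) ≤ 5 ^ (d + lt) := by
      refine pow_le_pow_left₀ (by positivity) ?_ _
      have : (y : ℝ) ≤ 4 := by exact_mod_cast hy4
      linarith
    have h4 : Pr V a.p (Gv S v) ≤ (5 ^ (d + lt) * a.p) ^ 2 :=
      h1.trans (pow_le_pow_left₀ (by positivity) (mul_le_mul_of_nonneg_right h3 hp0) 2)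
    have h5 := i4d_exp a T hy4
    have h6 : Pr V a.p (Gv S v) * (Real.exp ((y : ℝ) * gk (lt + 1) (a.zm T)) /
        a.thm T ^ (2 * d - 1)) ≤
        (5 ^ (d + lt) * a.p) ^ 2 * (E ^ 4 / a.thm T ^ (2 * d - 1)) :=
      mul_le_mul h4 (div_le_div_of_nonneg_right h5 (by positivity)) (by positivity)
        (by positivity)
    have h7 : (5 ^ (d + lt) * a.p) ^ 2 * (E ^ 4 / a.thm T ^ (2 * d - 1)) =
        25 ^ (d + lt) * ((a.p * E ^ 2) ^ 2 / a.thm T ^ (2 * d - 1)) := by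
      have h25 : (25 : ℝ) ^ (d + lt) = (5 ^ (d + lt)) ^ 2 := by
        rw [← pow_mul, mul_comm, pow_mul]
        norm_num
      rw [h25]
      ring
    have h8 : (a.p * E ^ 2) ^ 2 / a.thm T ^ (2 * d - 1) ≤
        ((1 + a.zm T) / a.Xm T ^ (d - 1)) ^ 2 / a.thm T ^ (2 * d - 1) :=
      div_le_div_of_nonneg_right (pow_le_pow_left₀ hpE0 hpE 2) (by positivity)
    have h9 := eta_two a hz
    rw [← hrdef] at h9
    rw [h7] at h6
    exact h6.trans (mul_le_mul_of_nonneg_left (h8.trans h9) (by positivity))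

/-- big extents -/
theorem i4d_big {T : Box d} (hD : a.InD T) (hz : Real.exp (a.zm T) ≤ Real.sqrt (a.Xm T))
    {S : Box (d + lt)} {v : Site (d + lt)} (hS : cc v ≤ S) {y : ℕ} (hy : Ys S = y) (hy5 : 5 ≤ y)
    {M : ℝ} (hM : (y : ℝ) + 1 ≤ M) (V : Finset (Site (d + lt))) :
    Pr V a.p (Gv S v) * (Real.exp ((y : ℝ) * gk (lt + 1) (a.zm T)) / a.thm T ^ ex S v) ≤
      (M ^ (d + lt)) ^ (ms y - 1) * ((1 + a.Z) / a.H1) ^ (ms y - 3) *
        ((64 ^ (d - 1) + 1) * (64 ^ d + 1) *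
        ((1 + a.zm T) * Real.exp (-(a.zm T)) / Real.sqrt (a.Xm T))) := by
  have hp0 := BTR.p_nonneg a
  have hp1 := BTR.p_le_one a
  have hNe : Ne S := (ne_cc v).mono hS
  have hth : 0 < a.thm T := thm_pos a T
  have hex : ex S v = 2 * d - 1 := if_neg (fun h => by
    have := h.2
    omega)
  rw [hex]
  set E := Real.exp (gk (lt + 1) (a.zm T)) with hE
  have hE1 : 1 ≤ E := i4d_E1 a T
  have hpE := p_exp_le' a T
  have hpE2 := p_exp_le a hD
  have hpE0 : 0 ≤ a.p * E ^ 2 := i4d_pE a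
  obtain ⟨k, hk⟩ : ∃ k, ms y = k + 3 := ⟨ms y - 3, by
    unfold ms
    omega⟩
  have hk1 : ms y - 1 = k + 2 := by omega
  have hk3 : ms y - 3 = k := by omega
  have hyk : y ≤ 2 * (k + 2) := by
    unfold ms at hk
    omega
  rw [hk1, hk3]
  have hM0 : (0 : ℝ) ≤ M := by
    have : (0 : ℝ) ≤ y := Nat.cast_nonneg y
    linarith
  have h1 := Pr_Gv hp0 hp1 hNe hy v V
  rw [hk1] at h1
  have h3 : ((y : ℝ) + 1) ^ (d + lt) ≤ M ^ (d + lt) := pow_le_pow_left₀ (by positivity) hM _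
  have h4 : Pr V a.p (Gv S v) ≤ (M ^ (d + lt) * a.p) ^ (k + 2) :=
    h1.trans (pow_le_pow_left₀ (by positivity) (mul_le_mul_of_nonneg_right h3 hp0) _)
  have h5 := i4d_exp a T hyk
  have h6 : Pr V a.p (Gv S v) * (Real.exp ((y : ℝ) * gk (lt + 1) (a.zm T)) /
      a.thm T ^ (2 * d - 1)) ≤
      (M ^ (d + lt) * a.p) ^ (k + 2) * (E ^ (2 * (k + 2)) / a.thm T ^ (2 * d - 1)) :=
    mul_le_mul h4 (div_le_div_of_nonneg_right h5 (by positivity)) (by positivity)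
      (by positivity)
  have h7 : (M ^ (d + lt) * a.p) ^ (k + 2) * (E ^ (2 * (k + 2)) / a.thm T ^ (2 * d - 1)) =
      (M ^ (d + lt)) ^ (k + 2) * (a.p * E ^ 2) ^ k *
        ((a.p * E ^ 2) ^ 2 / a.thm T ^ (2 * d - 1)) := by
    rw [pow_mul E 2 (k + 2), mul_pow]
    ring
  have h8 : (a.p * E ^ 2) ^ 2 / a.thm T ^ (2 * d - 1) ≤
      ((1 + a.zm T) / a.Xm T ^ (d - 1)) ^ 2 / a.thm T ^ (2 * d - 1) :=
    div_le_div_of_nonneg_right (pow_le_pow_left₀ hpE0 hpE 2) (by positivity)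
  have h9 := eta_two a hz
  have h10 : (a.p * E ^ 2) ^ k ≤ ((1 + a.Z) / a.H1) ^ k := pow_le_pow_left₀ hpE0 hpE2 k
  rw [h7] at h6
  refine h6.trans (mul_le_mul (mul_le_mul_of_nonneg_left h10 (by positivity)) (h8.trans h9)
    (by positivity) ?_)
  exact mul_nonneg (by positivity) (le_trans (pow_nonneg hpE0 k) h10)

/-- the parameters -/
theorem i4d_par {M : ℝ} (hM : M = 2 * a.h + 7) {m : ℕ} (hm : 3 ≤ m) :
    (M ^ (d + lt)) ^ 2 * ((M ^ (d + lt)) ^ m * ((1 + a.Z) / a.H1) ^ (m - 2)) ≤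
      1 / (10 ^ (8 * (d + lt)) * a.h) := by
  have hh : (1 : ℝ) ≤ a.h := by exact_mod_cast a.hh
  have hZ := a.hZ
  have hH1 := a.hH1
  have hHs := a.hHs
  have hM1 : 1 ≤ M := by linarith
  set b := M ^ (d + lt) with hb
  have hb1 : 1 ≤ b := one_le_pow₀ hM1
  have hb9 : (2 * (a.h : ℝ) + 7) ^ (9 * (d + lt)) = b ^ 9 := by
    rw [hb, hM, ← pow_mul, mul_comm 9 (d + lt)]
  rw [hb9] at hHs
  obtain ⟨k, rfl⟩ : ∃ k, m = k + 3 := ⟨m - 3, by omega⟩
  have hk : k + 3 - 2 = k + 1 := by omega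
  rw [hk]
  have hζ0 : 0 ≤ (1 + a.Z) / a.H1 := by positivity
  have h10 : (0 : ℝ) < 10 ^ (8 * (d + lt)) := by positivity
  have h10' : (1 : ℝ) ≤ 10 ^ (8 * (d + lt)) := one_le_pow₀ (by norm_num)
  have h1 : b ^ 5 * ((1 + a.Z) / a.H1) ≤ 1 / (10 ^ (8 * (d + lt)) * a.h) := by
    rw [mul_div_assoc', div_le_div_iff₀ (by linarith) (by positivity)]
    have h2 : b ^ 5 ≤ b ^ 9 := pow_le_pow_right₀ hb1 (by norm_num)
    have h3 : 1 + a.Z ≤ (1 + a.Z) ^ 2 := by nlinarith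
    calc b ^ 5 * (1 + a.Z) * (10 ^ (8 * (d + lt)) * a.h) ≤
          b ^ 9 * (1 + a.Z) ^ 2 * (10 ^ (8 * (d + lt)) * a.h) :=
          mul_le_mul_of_nonneg_right (mul_le_mul h2 h3 (by linarith) (by positivity))
            (by positivity)
      _ = 10 ^ (8 * (d + lt)) * a.h * b ^ 9 * (1 + a.Z) ^ 2 := by ring
      _ ≤ a.H1 := hHs
      _ = 1 * a.H1 := (one_mul _).symm
  have h4 : b ^ 5 * ((1 + a.Z) / a.H1) ≤ 1 := by
    refine h1.trans ((div_le_one₀ (by positivity)).2 ?_)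
    exact one_le_mul_of_one_le_of_one_le h10' hh
  calc b ^ 2 * (b ^ (k + 3) * ((1 + a.Z) / a.H1) ^ (k + 1)) =
        b ^ (k + 5) * ((1 + a.Z) / a.H1) ^ (k + 1) := by ring
    _ ≤ b ^ (5 * (k + 1)) * ((1 + a.Z) / a.H1) ^ (k + 1) :=
        mul_le_mul_of_nonneg_right (pow_le_pow_right₀ hb1 (by omega)) (by positivity)
    _ = (b ^ 5 * ((1 + a.Z) / a.H1)) ^ (k + 1) := by rw [mul_pow, ← pow_mul b 5 (k + 1)]
    _ ≤ b ^ 5 * ((1 + a.Z) / a.H1) :=
        pow_le_of_le_one (by positivity) h4 (Nat.succ_ne_zero k)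
    _ ≤ _ := h1

theorem i4d_num {D : ℕ} (hd : 1 ≤ d) (hdD : d ≤ D) (hD : 2 ≤ D) :
    5 * 625 ^ D * ((64 ^ (d - 1) + 1) * (64 ^ d + 1)) +
      3 * (((64 : ℝ) ^ (d - 1) + 1) * (64 ^ d + 1)) / 10 ^ (8 * D) ≤ 10 ^ (8 * D) / 16 := by
  obtain ⟨k, rfl⟩ : ∃ k, d = k + 1 := ⟨d - 1, by omega⟩
  have hk : k + 1 - 1 = k := by omega
  rw [hk]
  have h1 : (1 : ℝ) ≤ 64 ^ k := one_le_pow₀ (by norm_num)
  have h2 : ((64 : ℝ) ^ k + 1) * (64 ^ (k + 1) + 1) ≤ 4096 ^ D / 16 := by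
    have h3 : ((64 : ℝ) ^ k + 1) * (64 ^ (k + 1) + 1) ≤ 4096 ^ (k + 1) / 16 := by
      have h4 : (4096 : ℝ) ^ (k + 1) = 4096 * (64 ^ k * 64 ^ k) := by
        rw [pow_succ, show (4096 : ℝ) ^ k = 64 ^ k * 64 ^ k by
          rw [← mul_pow]
          norm_num]
        ring
      rw [h4, pow_succ]
      nlinarith
    have h5 : (4096 : ℝ) ^ (k + 1) ≤ 4096 ^ D := pow_le_pow_right₀ (by norm_num) hdD
    linarith
  set c := ((64 : ℝ) ^ k + 1) * (64 ^ (k + 1) + 1) with hc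
  have hc0 : 0 ≤ c := by positivity
  have h6 : (10 : ℝ) ^ (8 * D) = 2560000 ^ D * (39.0625) ^ D := by
    rw [← mul_pow, pow_mul]
    norm_num
  have h7 : (8 : ℝ) ≤ (39.0625) ^ D := by
    calc (8 : ℝ) ≤ (39.0625) ^ 2 := by norm_num
      _ ≤ (39.0625) ^ D := pow_le_pow_right₀ (by norm_num) hD
  have h8 : (625 : ℝ) ^ D * 4096 ^ D = 2560000 ^ D := by
    rw [← mul_pow]
    norm_num
  have h9 : (1 : ℝ) ≤ 2560000 ^ D := one_le_pow₀ (by norm_num)
  have h10 : (4096 : ℝ) ^ D ≤ 10 ^ (8 * D) := by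
    rw [pow_mul]
    exact pow_le_pow_left₀ (by norm_num) (by norm_num) _
  have h11 : 3 * c / 10 ^ (8 * D) ≤ 3 / 16 := by
    rw [div_le_iff₀ (by positivity)]
    linarith
  have h12 : 5 * 625 ^ D * c ≤ 5 / 16 * 2560000 ^ D := by
    calc 5 * 625 ^ D * c ≤ 5 * 625 ^ D * (4096 ^ D / 16) :=
          mul_le_mul_of_nonneg_left h2 (by positivity)
      _ = 5 / 16 * (625 ^ D * 4096 ^ D) := by ring
      _ = _ := by rw [h8]
  have h13 : (8 : ℝ) * 2560000 ^ D ≤ 10 ^ (8 * D) := by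
    rw [h6]
    nlinarith
  linarith

/-- [BTR-I4d] the sum over all compounds. Let `dt = d + lt`, `g = g(zm)`, `η = (1+zm)/Xm^(d-1)`, `r = (1+zm) e^{-zm}/√Xm ≤ rr T i` (`zm ≤ z_i`); `p e^{2g} ≤ η` (`p_exp_le'`) and `p e^{2g} ≤ (1+Z)/H₁` (`p_exp_le`).
PROOF. Group by `y = Ys S ∈ [1, 2h]` (`card_cmp`: at most `(y+1)^{2dt}` boxes).
`y ≤ 2`, `v` a corner: `Pr ≤ (3^{dt} p)^1` (`Pr_Gv`, `ms 1 = ms 2 = 2`), `e^{yg} ≤ e^{2g}`: each term `≤ 3^{dt} η/ϑ^{d-1}`; the sum over these `S` is at most `2 · 9^{dt} 3^{dt} (64^{d-1}+1) r` (`eta_one`).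
All other `S` with `y ≤ 4`: `Pr ≤ ((y+1)^{dt} p)^2` (`Pr_Gv_two` for `y ≤ 2`, `Pr_Gv` with `ms 3 = ms 4 = 3` for `y = 3, 4`), `e^{yg} ≤ e^{4g}`: each term `≤ 25^{dt} η²/ϑ^{2d-1}`, sum `≤ 4 · 25^{dt} 25^{dt} (64^{d-1}+1)(64^d+1) r` (`eta_two`).
`y ≥ 5`: `m = ms y - 1 ≥ 3`, `y ≤ 2m`: `Pr e^{yg} ≤ (y+1)^{dt m} (p e^{2g})^m ≤ (2h+7)^{dt m} η² ((1+Z)/H₁)^{m-2}`; with the count `(2h+7)^{2dt}` and `m + 2 ≤ 5 (m - 2)`: `≤ ((2h+7)^{5dt}(1+Z)/H₁)^{m-2} η²/ϑ^{2d-1} ≤ (1/(10^{8dt} h)) (..) r` (`hHs`), at most `2h` values of `y`.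
The sum is at most `10^{8dt} r/16`: `2·27^{dt}(64^{d-1}+1) + 4·625^{dt}(64^{d-1}+1)(64^d+1) + 1 ≤ 10^{8dt}/16` (`(64^{d-1}+1)(64^d+1) ≤ 4·64^{2d-1} ≤ 4096^{dt}/16`, `dt ≥ 2`). -/
theorem NC_sum {T : Box d} (hD : a.InD T) (hz : Real.exp (a.zm T) ≤ Real.sqrt (a.Xm T))
    (W : Box (d + lt)) (v : Site (d + lt)) (V : Finset (Site (d + lt))) (i : Fin d) :
    ∑ S ∈ cmpd W v a.h, Pr V a.p (Gv S v) *
        (Real.exp ((Ys S : ℝ) * gk (lt + 1) (a.zm T)) / a.thm T ^ ex S v) ≤ a.NC T i / 16 := by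
  have hh : (1 : ℝ) ≤ a.h := by exact_mod_cast a.hh
  have hr := i4d_r0 a T
  have hmaps : ∀ S ∈ cmpd W v a.h, (Ys S).toNat ∈ Finset.range (2 * a.h + 1) := by
    intro S hS
    unfold cmpd at hS
    have := (Finset.mem_filter.1 hS).2
    rw [Finset.mem_range]
    omega
  rw [← Finset.sum_fiberwise_of_maps_to hmaps]
  set r := (1 + a.zm T) * Real.exp (-(a.zm T)) / Real.sqrt (a.Xm T) with hrdef
  set c := ((64 : ℝ) ^ (d - 1) + 1) * (64 ^ d + 1) with hc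
  have hc0 : 0 ≤ c := by positivity
  have hcr : 0 ≤ c * r := mul_nonneg hc0 hr
  have hkey : ∀ y ∈ Finset.range (2 * a.h + 1),
      ∑ S ∈ (cmpd W v a.h).filter (fun S => (Ys S).toNat = y), Pr V a.p (Gv S v) *
        (Real.exp ((Ys S : ℝ) * gk (lt + 1) (a.zm T)) / a.thm T ^ ex S v) ≤
      (if y < 5 then 625 ^ (d + lt) * (c * r) else 0) +
        1 / (10 ^ (8 * (d + lt)) * a.h) * (c * r) := by
    intro y hyr
    have hyh : y ≤ 2 * a.h := by
      have := Finset.mem_range.1 hyr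
      omega
    have hmem : ∀ S ∈ (cmpd W v a.h).filter (fun S => (Ys S).toNat = y),
        cc v ≤ S ∧ 1 ≤ Ys S ∧ Ys S = y := by
      intro S hS
      obtain ⟨h1, h2⟩ := Finset.mem_filter.1 hS
      unfold cmpd at h1
      have h3 := (Finset.mem_filter.1 h1).2
      refine ⟨h3.1, h3.2.1, ?_⟩
      have := h3.2.1
      omega
    have hcard : (((cmpd W v a.h).filter (fun S => (Ys S).toNat = y)).card : ℝ) ≤
        (((y : ℝ) + 1) ^ (d + lt)) ^ 2 := by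
      have h1 : ((cmpd W v a.h).filter (fun S => (Ys S).toNat = y)).card ≤
          ((cmpd W v a.h).filter (fun S => Ys S = y)).card := by
        refine Finset.card_le_card fun S hS => ?_
        exact Finset.mem_filter.2 ⟨(Finset.mem_filter.1 hS).1, (hmem S hS).2.2⟩
      have h2 := h1.trans (card_cmp W v a.h y)
      have h3 : (((cmpd W v a.h).filter (fun S => (Ys S).toNat = y)).card : ℝ) ≤
          (((y + 1) ^ (2 * (d + lt)) : ℕ) : ℝ) := Nat.cast_le.2 h2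
      rw [Nat.cast_pow, Nat.cast_add, Nat.cast_one, mul_comm 2 (d + lt), pow_mul] at h3
      exact h3
    have hx0 : 0 ≤ 1 / (10 ^ (8 * (d + lt)) * (a.h : ℝ)) * (c * r) := by positivity
    by_cases hy5 : y < 5
    · rw [if_pos hy5]
      have h1 : ∀ S ∈ (cmpd W v a.h).filter (fun S => (Ys S).toNat = y), Pr V a.p (Gv S v) *
          (Real.exp ((Ys S : ℝ) * gk (lt + 1) (a.zm T)) / a.thm T ^ ex S v) ≤
          25 ^ (d + lt) * (c * r) := by
        intro S hS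
        obtain ⟨h2, h3, h4⟩ := hmem S hS
        have h5 := i4d_small a hz h2 h4 (by omega) (by omega) V
        rw [h4]
        exact h5
      have h2 := Finset.sum_le_card_nsmul _ _ _ h1
      rw [nsmul_eq_mul] at h2
      have h3 : (((y : ℝ) + 1) ^ (d + lt)) ^ 2 ≤ 25 ^ (d + lt) := by
        have h4 : (y : ℝ) + 1 ≤ 5 := by
          have : (y : ℝ) ≤ 4 := by exact_mod_cast (by omega : y ≤ 4)
          linarith
        calc (((y : ℝ) + 1) ^ (d + lt)) ^ 2 ≤ (5 ^ (d + lt)) ^ 2 :=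
              pow_le_pow_left₀ (by positivity) (pow_le_pow_left₀ (by positivity) h4 _) 2
          _ = 25 ^ (d + lt) := by
              rw [← pow_mul, mul_comm, pow_mul]
              norm_num
      have h4 : (((cmpd W v a.h).filter (fun S => (Ys S).toNat = y)).card : ℝ) *
          (25 ^ (d + lt) * (c * r)) ≤ 25 ^ (d + lt) * (25 ^ (d + lt) * (c * r)) :=
        mul_le_mul_of_nonneg_right (hcard.trans h3) (by positivity)
      have h5 : (25 : ℝ) ^ (d + lt) * (25 ^ (d + lt) * (c * r)) = 625 ^ (d + lt) * (c * r) := by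
        rw [← mul_assoc, ← mul_pow]
        norm_num
      linarith
    · rw [if_neg hy5, zero_add]
      have hM : (y : ℝ) + 1 ≤ 2 * a.h + 7 := by
        have : (y : ℝ) ≤ 2 * a.h := by exact_mod_cast hyh
        linarith
      have hms : 3 ≤ ms y - 1 := by
        unfold ms
        omega
      have h1 : ∀ S ∈ (cmpd W v a.h).filter (fun S => (Ys S).toNat = y), Pr V a.p (Gv S v) *
          (Real.exp ((Ys S : ℝ) * gk (lt + 1) (a.zm T)) / a.thm T ^ ex S v) ≤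
          ((2 * (a.h : ℝ) + 7) ^ (d + lt)) ^ (ms y - 1) * ((1 + a.Z) / a.H1) ^ (ms y - 3) *
            (c * r) := by
        intro S hS
        obtain ⟨h2, h3, h4⟩ := hmem S hS
        have h5 := i4d_big a hD hz h2 h4 (by omega) hM V
        rw [h4]
        exact h5
      have h2 := Finset.sum_le_card_nsmul _ _ _ h1
      rw [nsmul_eq_mul] at h2
      have hZ := a.hZ
      have hH1 := a.hH1
      have h3 : (((cmpd W v a.h).filter (fun S => (Ys S).toNat = y)).card : ℝ) ≤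
          ((2 * (a.h : ℝ) + 7) ^ (d + lt)) ^ 2 :=
        hcard.trans (pow_le_pow_left₀ (by positivity) (pow_le_pow_left₀ (by positivity) hM _) 2)
      have h4 := i4d_par a (M := 2 * (a.h : ℝ) + 7) rfl hms
      have h5 : ms y - 1 - 2 = ms y - 3 := by omega
      rw [h5] at h4
      have hq0 : 0 ≤ ((2 * (a.h : ℝ) + 7) ^ (d + lt)) ^ (ms y - 1) *
          ((1 + a.Z) / a.H1) ^ (ms y - 3) := by positivity
      calc _ ≤ (((cmpd W v a.h).filter (fun S => (Ys S).toNat = y)).card : ℝ) *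
            (((2 * (a.h : ℝ) + 7) ^ (d + lt)) ^ (ms y - 1) * ((1 + a.Z) / a.H1) ^ (ms y - 3) *
              (c * r)) := h2
        _ ≤ ((2 * (a.h : ℝ) + 7) ^ (d + lt)) ^ 2 *
            (((2 * (a.h : ℝ) + 7) ^ (d + lt)) ^ (ms y - 1) * ((1 + a.Z) / a.H1) ^ (ms y - 3) *
              (c * r)) := mul_le_mul_of_nonneg_right h3 (mul_nonneg hq0 hcr)
        _ = (((2 * (a.h : ℝ) + 7) ^ (d + lt)) ^ 2 *
            (((2 * (a.h : ℝ) + 7) ^ (d + lt)) ^ (ms y - 1) *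
              ((1 + a.Z) / a.H1) ^ (ms y - 3))) * (c * r) := by ring
        _ ≤ _ := mul_le_mul_of_nonneg_right h4 hcr
  refine (Finset.sum_le_sum hkey).trans ?_
  rw [Finset.sum_add_distrib, Finset.sum_const, Finset.card_range, nsmul_eq_mul]
  have h1 : ∑ y ∈ Finset.range (2 * a.h + 1),
      (if y < 5 then 625 ^ (d + lt) * (c * r) else 0) ≤ 5 * (625 ^ (d + lt) * (c * r)) := by
    rw [← Finset.sum_filter, Finset.sum_const, nsmul_eq_mul]
    refine mul_le_mul_of_nonneg_right ?_ (by positivity)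
    have h2 : ((Finset.range (2 * a.h + 1)).filter (fun y => y < 5)).card ≤
        (Finset.range 5).card :=
      Finset.card_le_card fun y hy => Finset.mem_range.2 (Finset.mem_filter.1 hy).2
    rw [Finset.card_range] at h2
    exact_mod_cast h2
  have h10 : (0 : ℝ) < 10 ^ (8 * (d + lt)) := by positivity
  have h2 : (((2 * a.h + 1 : ℕ) : ℝ)) * (1 / (10 ^ (8 * (d + lt)) * a.h) * (c * r)) ≤
      3 / 10 ^ (8 * (d + lt)) * (c * r) := by
    rw [← mul_assoc]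
    refine mul_le_mul_of_nonneg_right ?_ hcr
    push_cast
    rw [mul_one_div, div_le_div_iff₀ (by positivity) h10]
    nlinarith
  have hd2 := a.hd
  have h3 := i4d_num (d := d) (D := d + lt) (by omega) (by omega) (by omega)
  rw [← hc] at h3
  have h4 : 5 * (625 ^ (d + lt) * (c * r)) + 3 / 10 ^ (8 * (d + lt)) * (c * r) =
      (5 * 625 ^ (d + lt) * c + 3 * c / 10 ^ (8 * (d + lt))) * r := by ring
  have h5 : (5 * 625 ^ (d + lt) * c + 3 * c / 10 ^ (8 * (d + lt))) * r ≤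
      10 ^ (8 * (d + lt)) / 16 * r := mul_le_mul_of_nonneg_right h3 hr
  have h6 : r ≤ a.rr T i := by
    rw [hrdef]
    unfold Pc.rr
    refine div_le_div_of_nonneg_right ?_ (Real.sqrt_nonneg _)
    refine mul_le_mul_of_nonneg_right ?_ (Real.exp_pos _).le
    linarith [(zm_spec a T).2 i]
  have h7 : a.NC T i / 16 = 10 ^ (8 * (d + lt)) / 16 * a.rr T i := by
    unfold Pc.NC
    ring
  rw [h7]
  have h8 : 10 ^ (8 * (d + lt)) / 16 * r ≤ 10 ^ (8 * (d + lt)) / 16 * a.rr T i :=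
    mul_le_mul_of_nonneg_left h6 (by positivity)
  linarith

end BTR
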