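import Pool.Agent.BTR.I2
import Pool.Agent.BTR.S10
import Pool.Agent.BTR.Q2a
import Pool.Agent.BTR.I4a
import Pool.Agent.BTR.I4c
import Pool.Agent.BTR.I4d
set_option autoImplicit false

open scoped Classical
open Finset

/-! # Compounds: the sum over all boxes which contain the revealed site -/

namespace BTR
open BTP BTS

variable {d lt : ℕ} (a : Pc d lt)

/-- [BTR-I4b] the value after a compound.
PROOF. `T' = T ⊔ pr S ≤ Q` (`S ≤ cyl lt kk Q`, `pr_cyl`, `pr_mono`), `Ys T' ≤ Ys T + 2h + 2`: `near T (pr S)` (`near_emb_mono`, `near_of_emb`), `Ys_sup_le`, `Ys_pr_le`. `many_steps`: `Ph T' Q D' ≤ 2 Phi (grw T Q \ grw T T') (bD T D) (eD T D)`, and `grw T T' = grw T (pr S) ⊇ grw T (cc (ps v))`.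
`Phi_sdiff_le` with `A = grw T Q \ grw T (cc (ps v))`, `B = grw T (pr S) \ grw T (cc (ps v))` (`A \ B = grw T Q \ grw T (pr S)`), `c = thm T`, `m = ex S v` (`extra_le`; `thm_le`, `th_le_bD`). `cmp_cost` for the exponential. -/
theorem cmp_term {T Q : Box d} {S : Box (d + lt)} {v : Site (d + lt)}
    {D D' : Finset (Site (d + lt))} (hT : Ne T) (hTQ : T ≤ Q) (hQ : a.InD Q)
    (hn : near (emb lt T) (cc v)) (hv : ¬ cc (ps v) ≤ T) (hS : S ∈ cmpd (cyl lt a.kk Q) v a.h)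
    (hP : a.Ps T + (2 * a.h + 2) * a.gam < 2 * (d * a.A * lamk (d - 1) (lt + 1)))
    (h : D' ⊆ D) : a.Fp (T ⊔ pr S) Q D' ≤
      Real.exp (a.Ps (T ⊔ cc (ps v)) - a.Ps Q) *
        (2 * (Real.exp ((Ys S : ℝ) * gk (lt + 1) (a.zm T)) / a.thm T ^ ex S v)) *
        Phi (grw T Q \ grw T (cc (ps v))) (a.bD T D) (a.eD T D) := by
  obtain ⟨hSs, hvS, hy1, hy2⟩ := Finset.mem_filter.1 hS
  obtain ⟨hSne, hSW⟩ := mem_sub.1 hSs
  have hprQ : pr S ≤ Q := by
    have := pr_mono hSW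
    rwa [pr_cyl] at this
  have hT'Q : T ⊔ pr S ≤ Q := sup_le hTQ hprQ
  have hnT : near T (pr S) := near_of_emb (near_emb_mono le_rfl hvS hn)
  have hYs : Ys (T ⊔ pr S) ≤ Ys T + (2 * a.h + 2) := by
    have e1 := Ys_sup_le hT (ne_pr hSne) hnT
    have e2 := Ys_pr_le hSne
    omega
  have h1 := many_steps a hT (le_sup_left : T ≤ T ⊔ pr S) hT'Q hQ hYs hP h
  have hg : grw T (T ⊔ pr S) = grw T (pr S) := by
    ext j
    simp only [grw, Finset.mem_filter, Finset.mem_univ, true_and]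
    show T j < max (T j) (pr S j) ↔ _
    constructor
    · intro hj
      rcases lt_max_iff.1 hj with h' | h'
      · exact absurd h' (lt_irrefl _)
      · exact h'
    · intro hj
      exact lt_max_of_lt_right hj
  rw [hg] at h1
  have hd : 2 ≤ d := a.hd
  have hsub : grw T (cc (ps v)) ⊆ grw T (pr S) := by
    intro j hj
    simp only [grw, Finset.mem_filter, Finset.mem_univ, true_and] at hj ⊢
    have := pr_mono hvS
    rw [pr_cc] at this
    exact lt_of_lt_of_le hj (this j)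
  have hset : (grw T Q \ grw T (cc (ps v))) \ (grw T (pr S) \ grw T (cc (ps v))) =
      grw T Q \ grw T (pr S) := by
    ext j
    simp only [Finset.mem_sdiff]
    constructor
    · rintro ⟨⟨h1, h2⟩, h3⟩
      exact ⟨h1, fun h4 => h3 ⟨h4, h2⟩⟩
    · rintro ⟨h1, h2⟩
      exact ⟨⟨h1, fun h4 => h2 (hsub h4)⟩, fun h4 => h2 h4.1⟩
  have h2 := Phi_sdiff_le (A := grw T Q \ grw T (cc (ps v)))
    (B := grw T (pr S) \ grw T (cc (ps v))) (b := a.bD T D) (e := a.eD T D)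
    (thm_pos a T) (thm_le_one a T) (fun j => (thm_le a T j.1).trans (th_le_bD a T D j))
    (eD_nonneg a T D) (eD_symm a T D) (m := ex S v)
    ((Finset.card_le_card Finset.inter_subset_right).trans (extra_le hd hT hvS hv))
  rw [hset] at h2
  obtain ⟨y, hy⟩ := Int.eq_ofNat_of_zero_le (show (0 : ℤ) ≤ Ys S by omega)
  have h3 := cmp_cost a hT hvS hy
  have hyr : (Ys S : ℝ) = (y : ℝ) := by rw [hy]; simp
  rw [hyr]
  have h4 : Real.exp (a.Ps (T ⊔ pr S) - a.Ps Q) ≤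
      Real.exp (a.Ps (T ⊔ cc (ps v)) - a.Ps Q) * Real.exp ((y : ℝ) * gk (lt + 1) (a.zm T)) := by
    rw [← Real.exp_add]
    exact Real.exp_le_exp.2 (by linarith)
  have hPhi0 : 0 ≤ Phi (grw T Q \ grw T (cc (ps v))) (a.bD T D) (a.eD T D) :=
    Phi_nonneg (fun l _ => bD_nonneg a T D l) (eD_nonneg a T D)
  have ht0 : 0 < a.thm T ^ ex S v := pow_pos (thm_pos a T) _
  calc a.Fp (T ⊔ pr S) Q D' = Real.exp (a.Ps (T ⊔ pr S) - a.Ps Q) *
        Phi (grw (T ⊔ pr S) Q) (a.bD (T ⊔ pr S) D') (a.eD (T ⊔ pr S) D') := rfl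
    _ ≤ (Real.exp (a.Ps (T ⊔ cc (ps v)) - a.Ps Q) * Real.exp ((y : ℝ) * gk (lt + 1) (a.zm T))) *
        (2 * (Phi (grw T Q \ grw T (cc (ps v))) (a.bD T D) (a.eD T D) / a.thm T ^ ex S v)) := by
        refine mul_le_mul h4 (h1.trans (by linarith)) ?_ (by positivity)
        exact Phi_nonneg (fun l _ => bD_nonneg a _ _ l) (eD_nonneg a _ _)
    _ = _ := by ring

/-- [BTR-I4b] the sum of the values after a compound. PROOF. `cmp_term`, `NC_sum` (`InD T` by `InD_mono`, `exp_zm_le`: `Ps T < 2Λ`). -/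
theorem cmp_sum {T Q : Box d} {v : Site (d + lt)}
    {D D' : Finset (Site (d + lt))} (hT : Ne T) (hTQ : T ≤ Q) (hQ : a.InD Q)
    (hn : near (emb lt T) (cc v)) (hv : ¬ cc (ps v) ≤ T)
    (hP : a.Ps T + (2 * a.h + 2) * a.gam < 2 * (d * a.A * lamk (d - 1) (lt + 1)))
    (h : D' ⊆ D) (V : Finset (Site (d + lt))) (i : Fin d) :
    ∑ S ∈ cmpd (cyl lt a.kk Q) v a.h, Pr V a.p (Gv S v) * a.Fp (T ⊔ pr S) Q D' ≤
      Real.exp (a.Ps (T ⊔ cc (ps v)) - a.Ps Q) * (a.NC T i / 8) *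
        Phi (grw T Q \ grw T (cc (ps v))) (a.bD T D) (a.eD T D) := by
  have hD : a.InD T := InD_mono a hT hTQ hQ
  have hg0 := a.hgam0
  have hPT : a.Ps T < 2 * (d * a.A * lamk (d - 1) (lt + 1)) := by
    have : 0 ≤ (2 * (a.h : ℝ) + 2) * a.gam := by positivity
    linarith
  have hz := exp_zm_le a hT hD hPT
  have hN := NC_sum a hD hz (cyl lt a.kk Q) v V i
  have hPhi0 : 0 ≤ Phi (grw T Q \ grw T (cc (ps v))) (a.bD T D) (a.eD T D) :=
    Phi_nonneg (fun l _ => bD_nonneg a T D l) (eD_nonneg a T D)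
  set E := Real.exp (a.Ps (T ⊔ cc (ps v)) - a.Ps Q) with hE
  have hE0 : 0 < E := Real.exp_pos _
  set Φ := Phi (grw T Q \ grw T (cc (ps v))) (a.bD T D) (a.eD T D) with hΦ
  calc ∑ S ∈ cmpd (cyl lt a.kk Q) v a.h, Pr V a.p (Gv S v) * a.Fp (T ⊔ pr S) Q D' ≤
      ∑ S ∈ cmpd (cyl lt a.kk Q) v a.h, (2 * E * Φ) * (Pr V a.p (Gv S v) *
        (Real.exp ((Ys S : ℝ) * gk (lt + 1) (a.zm T)) / a.thm T ^ ex S v)) := by
        refine Finset.sum_le_sum fun S hS => ?_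
        have h1 := cmp_term a hT hTQ hQ hn hv hS hP h
        have h2 := mul_le_mul_of_nonneg_left h1 (Pr_nonneg (V := V) (E := Gv S v) (p_nonneg a) (p_le_one a))
        refine h2.trans (le_of_eq ?_)
        rw [← hE, ← hΦ]
        ring
    _ = (2 * E * Φ) * ∑ S ∈ cmpd (cyl lt a.kk Q) v a.h, Pr V a.p (Gv S v) *
        (Real.exp ((Ys S : ℝ) * gk (lt + 1) (a.zm T)) / a.thm T ^ ex S v) := by
        rw [Finset.mul_sum]
    _ ≤ (2 * E * Φ) * (a.NC T i / 16) := mul_le_mul_of_nonneg_left hN (by positivity)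
    _ = _ := by ring

end BTR
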