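import Pool.Agent.BTR.I3
import Pool.Agent.BTR.I4
import Pool.Agent.BTR.V12
set_option autoImplicit false

open scoped Classical
open Finset

/-! # The supermartingale inequalities for revealing a site, with compounds -/

namespace BTR
open BTP BTS

variable {d lt : ℕ} (a : Pc d lt)

/-- [BTR-J1a] the good states -/
def Ok (T Q : Box d) : Prop :=
  Ne T ∧ T ≤ Q ∧ a.InD Q ∧
    a.Ps T + (2 * a.h + 2) * a.gam < 2 * (d * a.A * lamk (d - 1) (lt + 1))

/-- the right side of the reveal inequality for a function `F` of `(T, D)` -/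
noncomputable def RV (T Q : Box d) (D : Finset (Site (d + lt))) (v : Site (d + lt))
    (F : Box d → Finset (Site (d + lt)) → ℝ) : ℝ :=
  (1 - a.p) * F T (D.erase v) + a.p * (F (T ⊔ cc (ps v)) (D.erase v) +
    ∑ S ∈ cmpd (cyl lt a.kk Q) v a.h, Pr (D.erase v) a.p (Gv S v) * F (T ⊔ pr S) (D.erase v))

/-- [BTR-J1a] one level costs at most `g(z)`. PROOF. `Ps_up`, `G_le`, `z_le_zf`, `gk_anti` (or `Ps_grow`). -/
theorem Ps_up_g {T : Box d} (hT : Ne T) (j : Dir d) :
    a.Ps (up T j) ≤ a.Ps T + gk (lt + 1) (a.z T j.1) := by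
  refine (Ps_up a hT j).trans (add_le_add le_rfl ?_)
  refine (G_le a (v12_prod_pos a T _)).trans ?_
  exact gk_anti (k := lt + 1) (z_pos a T j.1) (z_le_zf a T j.1)

/-- [BTR-J1a] PROOF. `g - gm = 2θe^{-κz} ≤ 1/32`, `0 ≤ NC ≤ rq ≤ 1/100` (`loss`, `exp_zm_le`, `rq_le`; all other terms of `loss` are `≥ 0`), `e^{1/32 + 1/100} ≤ 2`. -/
theorem exp_g_le {T : Box d} (hT : Ne T) (hD : a.InD T)
    (hP : a.Ps T < 2 * (d * a.A * lamk (d - 1) (lt + 1))) (i : Fin d) :
    Real.exp (gk (lt + 1) (a.z T i)) ≤ 2 * Real.exp (a.gm T i - a.NC T i) ∧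
      0 ≤ a.NC T i ∧ a.NC T i ≤ 1 / 100 := by
  have h1 := loss a (exp_zm_le a hT hD hP) i
  have h2 := rq_le' a hD i
  have hz : ∀ l, 0 < a.z T l := fun l => z_pos a T l
  have ht : ∀ l, 0 < a.th T l := fun l => th_pos a T l
  have hX : ∀ l, 0 < a.X T l := fun l => X_pos a T l
  have hl : (0 : ℝ) ≤ (lt : ℝ) := Nat.cast_nonneg lt
  have hs : 0 ≤ ∑ m ∈ Finset.univ.erase i, EE a T i m / a.th T m :=
    Finset.sum_nonneg fun m _ => div_nonneg (Real.sqrt_nonneg _) (ht m).le
  have hLS : 0 ≤ LS a T i := by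
    unfold LS
    have h3 : 0 ≤ ∑ l ∈ Finset.univ.erase i, (1 + a.z T l) / (a.th T l * a.X T i) := by
      refine Finset.sum_nonneg fun l _ => ?_
      have := hz l
      have := mul_pos (ht l) (hX i)
      positivity
    have h4 := hX i
    positivity
  have h5 : 0 ≤ 8 / a.X T i := by
    have := hX i
    positivity
  have hN := NC_nonneg a T i
  have h6 : 0 < Real.exp (-(((lt : ℝ) + 2) * a.z T i)) := Real.exp_pos _
  have h7 : 0 ≤ 2 * a.th T i * Real.exp (-(((lt : ℝ) + 2) * a.z T i)) := by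
    have := ht i
    positivity
  have hN1 : a.NC T i ≤ 1 / 100 := by linarith
  refine ⟨?_, hN, hN1⟩
  have h8 : Real.exp (-(((lt : ℝ) + 2) * a.z T i)) ≤ 1 := by
    apply Real.exp_le_one_iff.2
    have := hz i
    have : 0 ≤ ((lt : ℝ) + 2) * a.z T i := by positivity
    linarith
  have h9 : 2 * a.th T i * Real.exp (-(((lt : ℝ) + 2) * a.z T i)) ≤ 1 / 32 := by
    have e1 := th_le a T i
    have e2 := ht i
    nlinarith
  have h10 : gk (lt + 1) (a.z T i) ≤ (a.gm T i - a.NC T i) + 1 / 2 := by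
    have : a.gm T i = gk (lt + 1) (a.z T i) -
      2 * a.th T i * Real.exp (-(((lt : ℝ) + 2) * a.z T i)) := rfl
    rw [this]
    linarith
  have h11 : Real.exp (1 / 2 : ℝ) ≤ 2 := by
    have e1 : Real.exp (1 / 2 : ℝ) * Real.exp (1 / 2 : ℝ) = Real.exp 1 := by
      rw [← Real.exp_add]; norm_num
    have e2 := Real.exp_one_lt_d9
    have e3 : 0 < Real.exp (1 / 2 : ℝ) := Real.exp_pos _
    nlinarith
  calc Real.exp (gk (lt + 1) (a.z T i)) ≤ Real.exp ((a.gm T i - a.NC T i) + 1 / 2) :=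
        Real.exp_le_exp.2 h10
    _ = Real.exp (a.gm T i - a.NC T i) * Real.exp (1 / 2) := Real.exp_add _ _
    _ ≤ Real.exp (a.gm T i - a.NC T i) * 2 := mul_le_mul_of_nonneg_left h11 (Real.exp_pos _).le
    _ = 2 * Real.exp (a.gm T i - a.NC T i) := mul_comm _ _

/-- [BTR-J1a] the directions in which a site is beyond `T` (BTS.E3: `e3_opp`, `e3_ne`, `e3_gap_..`) -/
theorem grw_inL {T : Box d} (hT : Ne T) {j : Dir d} {k : ℤ} (hk : 1 ≤ k) {x : Site d}
    (h : inL T j k x) : grw T (cc x) = {j} := by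
  obtain ⟨h1, h2⟩ := h
  ext l
  simp only [grw, Finset.mem_filter, Finset.mem_univ, true_and, Finset.mem_singleton]
  constructor
  · intro hl
    by_contra hne
    by_cases hl1 : l.1 = j.1
    · have e1 := e3_opp x hl1 hne
      have e2 := e3_ne hT hl1 hne
      omega
    · have := h2 l hl1
      omega
  · rintro rfl
    omega

theorem grw_inC {T : Box d} (hT : Ne T) {i j : Dir d} (hij : i.1 ≠ j.1) {x : Site d}
    (h : inC T i j x) : grw T (cc x) = {i, j} := by
  obtain ⟨h1, h1', h2⟩ := h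
  ext l
  simp only [grw, Finset.mem_filter, Finset.mem_univ, true_and, Finset.mem_insert,
    Finset.mem_singleton]
  constructor
  · intro hl
    by_contra hne
    rw [not_or] at hne
    obtain ⟨hni, hnj⟩ := hne
    by_cases hl1 : l.1 = i.1
    · have e1 := e3_opp x hl1 hni
      have e2 := e3_ne hT hl1 hni
      omega
    · by_cases hl2 : l.1 = j.1
      · have e1 := e3_opp x hl2 hnj
        have e2 := e3_ne hT hl2 hnj
        omega
      · have := h2 l hl1 hl2
        omega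
  · rintro (rfl | rfl)
    · omega
    · omega

/-- common part of the reveal inequalities for layers (cf. `BTS.j1a_core`); `W` is the total value after the site is
found -/
theorem j1a_core {T Q : Box d} {D D' : Finset (Site (d + lt))} {j : Dir d} {X W : ℝ}
    (hj : j ∈ grw T Q) (hb : a.bD T D j = Real.exp (-a.q) * a.bD T D' j + a.p * X)
    (hbe : ∀ l, l ≠ j → a.bD T D' l = a.bD T D l) (he : a.eD T D' = a.eD T D)
    (hstep : W ≤ Real.exp (a.Ps T - a.Ps Q) *
      (X * Phi ((grw T Q).erase j) (a.bD T D) (a.eD T D))) :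
    (1 - a.p) * a.Fp T Q D' + a.p * W ≤ a.Fp T Q D := by
  have hp : 1 - a.p = Real.exp (-a.q) := by rw [a.hp]; ring
  have hp0 : 0 ≤ a.p := p_nonneg a
  have h1 : Phi (grw T Q) (a.bD T D) (a.eD T D) =
      a.bD T D j * Phi ((grw T Q).erase j) (a.bD T D) (a.eD T D) +
      2 * ∑ l ∈ (grw T Q).erase j, a.eD T D j l * ∏ m ∈ ((grw T Q).erase j).erase l, a.bD T D m :=
    Phi_split hj _ _ (eD_symm a T D)
  have h2 : Phi (grw T Q) (a.bD T D') (a.eD T D') =
      a.bD T D' j * Phi ((grw T Q).erase j) (a.bD T D') (a.eD T D') +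
      2 * ∑ l ∈ (grw T Q).erase j, a.eD T D' j l * ∏ m ∈ ((grw T Q).erase j).erase l, a.bD T D' m :=
    Phi_split hj _ _ (eD_symm a T D')
  have h3 : Phi ((grw T Q).erase j) (a.bD T D') (a.eD T D') =
      Phi ((grw T Q).erase j) (a.bD T D) (a.eD T D) := by
    apply Phi_congr
    · intro l hl
      exact hbe l (Finset.ne_of_mem_erase hl)
    · intro i _ l _ _
      rw [he]
  have h4 : ∑ l ∈ (grw T Q).erase j, a.eD T D' j l * ∏ m ∈ ((grw T Q).erase j).erase l, a.bD T D' m =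
      ∑ l ∈ (grw T Q).erase j, a.eD T D j l * ∏ m ∈ ((grw T Q).erase j).erase l, a.bD T D m := by
    refine Finset.sum_congr rfl fun l _ => ?_
    rw [he]
    congr 1
    refine Finset.prod_congr rfl fun m hm => ?_
    exact hbe m (Finset.ne_of_mem_erase (Finset.mem_of_mem_erase hm))
  rw [h3, h4] at h2
  have h5 : 0 ≤ ∑ l ∈ (grw T Q).erase j, a.eD T D j l *
      ∏ m ∈ ((grw T Q).erase j).erase l, a.bD T D m := by
    refine Finset.sum_nonneg fun l _ => mul_nonneg (eD_nonneg a T D j l) (Finset.prod_nonneg fun m _ => ?_)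
    exact bD_nonneg a T D m
  set Φ := Phi ((grw T Q).erase j) (a.bD T D) (a.eD T D) with hΦ
  set S := ∑ l ∈ (grw T Q).erase j, a.eD T D j l * ∏ m ∈ ((grw T Q).erase j).erase l, a.bD T D m with hS
  have hF2 : a.Fp T Q D' = Real.exp (a.Ps T - a.Ps Q) * (a.bD T D' j * Φ + 2 * S) := by
    unfold Pc.Fp Pc.Ph
    rw [h2]
  have hF3 : a.Fp T Q D = Real.exp (a.Ps T - a.Ps Q) * (a.bD T D j * Φ + 2 * S) := by
    unfold Pc.Fp Pc.Ph
    rw [h1]
  rw [hF2, hF3, hp, hb]
  have hE : 0 < Real.exp (a.Ps T - a.Ps Q) := Real.exp_pos _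
  have h6 : a.p * W ≤ a.p * (Real.exp (a.Ps T - a.Ps Q) * (X * Φ)) :=
    mul_le_mul_of_nonneg_left hstep hp0
  have h7 : Real.exp (-a.q) * (2 * S) ≤ 2 * S := by
    rw [← hp]
    nlinarith
  have h8 : Real.exp (-a.q) * (a.bD T D' j * Φ + 2 * S) + a.p * (X * Φ) ≤
      (Real.exp (-a.q) * a.bD T D' j + a.p * X) * Φ + 2 * S := by
    nlinarith
  calc Real.exp (-a.q) * (Real.exp (a.Ps T - a.Ps Q) * (a.bD T D' j * Φ + 2 * S)) + a.p * W
      ≤ Real.exp (-a.q) * (Real.exp (a.Ps T - a.Ps Q) * (a.bD T D' j * Φ + 2 * S)) +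
          a.p * (Real.exp (a.Ps T - a.Ps Q) * (X * Φ)) := by linarith
    _ = Real.exp (a.Ps T - a.Ps Q) * (Real.exp (-a.q) * (a.bD T D' j * Φ + 2 * S) +
          a.p * (X * Φ)) := by ring
    _ ≤ Real.exp (a.Ps T - a.Ps Q) * ((Real.exp (-a.q) * a.bD T D' j + a.p * X) * Φ + 2 * S) :=
        mul_le_mul_of_nonneg_left h8 hE.le

/-- [BTR-J1a] revealing a site of the first layer (cf. BTS/J1a.lean; `N = NC T j.1`, `E = exp(Ps T - Ps Q)`, `Φ = Phi ((grw T Q).erase j) (bD T D) (eD T D)`).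
PROOF. `sup_inL1` (for `ps v`): `T ⊔ cc (ps v) = up T j`. `step_one` (`D' = D.erase v`): `Fp (up T j) Q D' ≤ E e^{gm - N} Φ`. `cmp_sum` (`grw_inL`: `grw T Q \ {j} = (grw T Q).erase j`), `Ps_up_g`, `exp_g_le`: the sum over the compounds is at most `E e^{g} (N/8) Φ ≤ E e^{gm-N} N Φ`. Together at most `E e^{gm} (1+N) e^{-N} Φ ≤ E e^{gm} Φ`.
As in BTS: `b = bD T D`, `b° = bD T (D.erase v)` are equal except at `j` (`n1_erase_ne`, `n2_erase_ne`), `e` is unchanged (`n3_erase_inL`), `b j - e^{-q} b° j = (1 - e^{-q}) e^{gm}` (`n1_erase`, `n2_erase_ne`, `bv_reveal1`). `Phi_split`: `Phi O b e - (1-p) Phi O b° e ≥ p e^{gm} Φ` (`1 - p = e^{-q}`). -/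
theorem reveal_L1 {T Q : Box d} (hok : Ok a T Q) {D : Finset (Site (d + lt))} {j : Dir d}
    {v : Site (d + lt)} (hv : v ∈ D) (hin : inL T j 1 (ps v)) (hh : ht v ∈ Hs lt)
    (hvQ : cc (ps v) ≤ Q) (hn : near (emb lt T) (cc v)) :
    RV a T Q D v (fun T' D' => a.Fp T' Q D') ≤ a.Fp T Q D := by
  obtain ⟨hT, hTQ, hQ, hPs⟩ := hok
  have hgam := a.hgam0
  have hh0 : (0 : ℝ) ≤ (a.h : ℝ) := Nat.cast_nonneg _
  have hP2 : a.Ps T < 2 * (d * a.A * lamk (d - 1) (lt + 1)) := by nlinarith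
  have hDT : a.InD T := InD_mono a hT hTQ hQ
  have hup := sup_inL1 hT hin
  have hupQ : up T j ≤ Q := by rw [← hup]; exact sup_le hTQ hvQ
  have hj : j ∈ grw T Q := mem_grw hupQ
  have hnv : ¬ cc (ps v) ≤ T := by
    intro hle
    have h1 : cc (ps v) j ≤ T j := hle j
    have h2 : cc (ps v) j = T j + 1 := hin.1
    linarith
  have hstep := step_one a (D := D) (D' := D.erase v) hT hQ hupQ hP2 (Finset.erase_subset v D)
  have hcmp := cmp_sum a (D := D) (D' := D.erase v) hT hTQ hQ hn hnv hPs (Finset.erase_subset v D)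
    (D.erase v) j.1
  rw [hup, grw_inL hT le_rfl hin, Finset.sdiff_singleton_eq_erase] at hcmp
  have hPhi0 : 0 ≤ Phi ((grw T Q).erase j) (a.bD T D) (a.eD T D) :=
    Phi_nonneg (fun l _ => bD_nonneg a T D l) (eD_nonneg a T D)
  have hg := exp_g_le a hT hDT hP2 j.1
  obtain ⟨hg1, hN0, hN1⟩ := hg
  have hc1 := Ps_up_g a hT j
  set Φ := Phi ((grw T Q).erase j) (a.bD T D) (a.eD T D) with hΦ
  set N := a.NC T j.1 with hN
  set g := gk (lt + 1) (a.z T j.1) with hgdef
  set gm := a.gm T j.1 with hgm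
  set E := Real.exp (a.Ps T - a.Ps Q) with hE
  have hE0 : 0 < E := Real.exp_pos _
  -- the site alone
  have hA : a.Fp (up T j) Q (D.erase v) ≤ E * (Real.exp (gm - N) * Φ) := by
    have e1 : a.Fp (up T j) Q (D.erase v) =
        E * (Real.exp (a.Ps (up T j) - a.Ps T) * a.Ph (up T j) Q (D.erase v)) := by
      unfold Pc.Fp
      rw [hE, ← mul_assoc, ← Real.exp_add]
      congr 2
      ring
    rw [e1]
    exact mul_le_mul_of_nonneg_left hstep hE0.le
  -- the compounds
  have hB : Real.exp (a.Ps (up T j) - a.Ps Q) * (N / 8) * Φ ≤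
      E * (Real.exp (gm - N) * N * Φ) := by
    have e1 : Real.exp (a.Ps (up T j) - a.Ps Q) ≤ E * Real.exp g := by
      rw [hE, ← Real.exp_add]
      apply Real.exp_le_exp.2
      linarith
    have e6 : Real.exp (a.Ps (up T j) - a.Ps Q) ≤ E * (2 * Real.exp (gm - N)) :=
      e1.trans (mul_le_mul_of_nonneg_left hg1 hE0.le)
    have hNP : 0 ≤ N / 8 * Φ := mul_nonneg (by linarith) hPhi0
    have e7 := mul_le_mul_of_nonneg_right e6 hNP
    have hpos : 0 ≤ E * (Real.exp (gm - N) * N * Φ) := by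
      have : 0 ≤ Real.exp (gm - N) * N * Φ :=
        mul_nonneg (mul_nonneg (Real.exp_pos _).le hN0) hPhi0
      exact mul_nonneg hE0.le this
    calc Real.exp (a.Ps (up T j) - a.Ps Q) * (N / 8) * Φ
        = Real.exp (a.Ps (up T j) - a.Ps Q) * (N / 8 * Φ) := by ring
      _ ≤ E * (2 * Real.exp (gm - N)) * (N / 8 * Φ) := e7
      _ = E * (Real.exp (gm - N) * N * Φ) / 4 := by ring
      _ ≤ E * (Real.exp (gm - N) * N * Φ) := by linarith
  have hX : E * (Real.exp (gm - N) * Φ) + E * (Real.exp (gm - N) * N * Φ) ≤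
      E * (Real.exp gm * Φ) := by
    have e1 : 1 + N ≤ Real.exp N := by
      have := Real.add_one_le_exp N
      linarith
    have e2 : Real.exp (gm - N) * (1 + N) ≤ Real.exp gm := by
      have e3 : Real.exp (gm - N) * Real.exp N = Real.exp gm := by
        rw [← Real.exp_add]
        congr 1
        ring
      rw [← e3]
      exact mul_le_mul_of_nonneg_left e1 (Real.exp_pos _).le
    have e4 := mul_le_mul_of_nonneg_right e2 hPhi0
    have e5 := mul_le_mul_of_nonneg_left e4 hE0.le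
    calc E * (Real.exp (gm - N) * Φ) + E * (Real.exp (gm - N) * N * Φ)
        = E * (Real.exp (gm - N) * (1 + N) * Φ) := by ring
      _ ≤ _ := e5
  unfold RV
  simp only [hup]
  refine j1a_core a (X := Real.exp gm) hj ?_ ?_ ?_ ?_
  · have hn1 : (n1 lt T (D.erase v) j : ℝ) = (n1 lt T D j : ℝ) - 1 := by
      rw [n1_erase hv hin hh]; push_cast; ring
    have hn2 : n2 lt T (D.erase v) j = n2 lt T D j :=
      n2_erase_ne hT D le_rfl hin (by intro h; have := congrArg Prod.snd h; norm_num at this)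
    have h := bv_reveal1 (q := a.q) (x := Real.exp (a.gm T j.1)) (th := a.th T j.1)
      (n1 := n1 lt T D j) (n2 := n2 lt T D j)
    unfold Pc.bD Pc.bT
    simp only [hn1, hn2]
    rw [a.hp]
    linarith
  · intro l hl
    have hn1 : n1 lt T (D.erase v) l = n1 lt T D l :=
      n1_erase_ne hT D le_rfl hin (by intro h; exact hl (congrArg Prod.fst h))
    have hn2 : n2 lt T (D.erase v) l = n2 lt T D l :=
      n2_erase_ne hT D le_rfl hin (by intro h; exact hl (congrArg Prod.fst h))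
    unfold Pc.bD Pc.bT
    simp only [hn1, hn2]
  · funext i l
    unfold Pc.eD Pc.eT
    simp only [n3_erase_inL hT D (le_rfl : (1 : ℤ) ≤ 1) hin]
  · linarith

end BTR
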