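import Pool.Agent.BTR.I3
import Pool.Agent.BTR.I4
import Pool.Agent.BTR.V12
import Pool.Agent.BTR.J1a
set_option autoImplicit false

open scoped Classical
open Finset

/-! # The supermartingale inequalities for revealing a site, with compounds -/

namespace BTR
open BTP BTS

variable {d lt : ℕ} (a : Pc d lt)

/-- common part of the reveal inequalities for layers (cf. `BTS.j1a_core`); `W` is the total value after the site is
found, relative to `exp (Ps T - Ps Q)` -/
theorem j1b_core {T Q : Box d} {D D' : Finset (Site (d + lt))} {j : Dir d} {X W : ℝ}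
    (hj : j ∈ grw T Q) (hb : a.bD T D j = Real.exp (-a.q) * a.bD T D' j + a.p * X)
    (hbe : ∀ l, l ≠ j → a.bD T D' l = a.bD T D l) (he : a.eD T D' = a.eD T D)
    (hstep : W ≤ Real.exp (a.Ps T - a.Ps Q) *
      (X * Phi ((grw T Q).erase j) (a.bD T D) (a.eD T D))) :
    (1 - a.p) * a.Fp T Q D' + a.p * W ≤ a.Fp T Q D := by
  have hp : 1 - a.p = Real.exp (-a.q) := by rw [a.hp]; ring
  have hp0 : 0 ≤ a.p := p_nonneg a
  have h1 : Phi (grw T Q) (a.bD T D) (a.eD T D) =
      a.bD T D j * Phi ((grw T Q).erase j) (a.bD T D) (a.eD T D) +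
      2 * ∑ l ∈ (grw T Q).erase j, a.eD T D j l * ∏ m ∈ ((grw T Q).erase j).erase l, a.bD T D m :=
    Phi_split hj _ _ (eD_symm a T D)
  have h2 : Phi (grw T Q) (a.bD T D') (a.eD T D') =
      a.bD T D' j * Phi ((grw T Q).erase j) (a.bD T D') (a.eD T D') +
      2 * ∑ l ∈ (grw T Q).erase j, a.eD T D' j l * ∏ m ∈ ((grw T Q).erase j).erase l, a.bD T D' m :=
    Phi_split hj _ _ (eD_symm a T D')
  have h3 : Phi ((grw T Q).erase j) (a.bD T D') (a.eD T D') =
      Phi ((grw T Q).erase j) (a.bD T D) (a.eD T D) := by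
    apply Phi_congr
    · intro l hl
      exact hbe l (Finset.ne_of_mem_erase hl)
    · intro i _ l _ _
      rw [he]
  have h4 : ∑ l ∈ (grw T Q).erase j, a.eD T D' j l * ∏ m ∈ ((grw T Q).erase j).erase l, a.bD T D' m =
      ∑ l ∈ (grw T Q).erase j, a.eD T D j l * ∏ m ∈ ((grw T Q).erase j).erase l, a.bD T D m := by
    refine Finset.sum_congr rfl fun l _ => ?_
    rw [he]
    congr 1
    refine Finset.prod_congr rfl fun m hm => ?_
    exact hbe m (Finset.ne_of_mem_erase (Finset.mem_of_mem_erase hm))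
  rw [h3, h4] at h2
  have h5 : 0 ≤ ∑ l ∈ (grw T Q).erase j, a.eD T D j l *
      ∏ m ∈ ((grw T Q).erase j).erase l, a.bD T D m := by
    refine Finset.sum_nonneg fun l _ => mul_nonneg (eD_nonneg a T D j l) (Finset.prod_nonneg fun m _ => ?_)
    exact bD_nonneg a T D m
  set Φ := Phi ((grw T Q).erase j) (a.bD T D) (a.eD T D) with hΦ
  set S := ∑ l ∈ (grw T Q).erase j, a.eD T D j l * ∏ m ∈ ((grw T Q).erase j).erase l, a.bD T D m with hS
  have hF2 : a.Fp T Q D' = Real.exp (a.Ps T - a.Ps Q) * (a.bD T D' j * Φ + 2 * S) := by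
    unfold Pc.Fp Pc.Ph
    rw [h2]
  have hF3 : a.Fp T Q D = Real.exp (a.Ps T - a.Ps Q) * (a.bD T D j * Φ + 2 * S) := by
    unfold Pc.Fp Pc.Ph
    rw [h1]
  rw [hF2, hF3, hp, hb]
  have hE : 0 < Real.exp (a.Ps T - a.Ps Q) := Real.exp_pos _
  have h6 : a.p * W ≤ a.p * (Real.exp (a.Ps T - a.Ps Q) * (X * Φ)) :=
    mul_le_mul_of_nonneg_left hstep hp0
  have h7 : Real.exp (-a.q) * (2 * S) ≤ 2 * S := by
    rw [← hp]
    nlinarith
  have h8 : Real.exp (-a.q) * (a.bD T D' j * Φ + 2 * S) + a.p * (X * Φ) ≤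
      (Real.exp (-a.q) * a.bD T D' j + a.p * X) * Φ + 2 * S := by
    nlinarith
  calc Real.exp (-a.q) * (Real.exp (a.Ps T - a.Ps Q) * (a.bD T D' j * Φ + 2 * S)) + a.p * W
      ≤ Real.exp (-a.q) * (Real.exp (a.Ps T - a.Ps Q) * (a.bD T D' j * Φ + 2 * S)) +
          a.p * (Real.exp (a.Ps T - a.Ps Q) * (X * Φ)) := by linarith
    _ = Real.exp (a.Ps T - a.Ps Q) * (Real.exp (-a.q) * (a.bD T D' j * Φ + 2 * S) +
          a.p * (X * Φ)) := by ring
    _ ≤ Real.exp (a.Ps T - a.Ps Q) * ((Real.exp (-a.q) * a.bD T D' j + a.p * X) * Φ + 2 * S) :=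
        mul_le_mul_of_nonneg_left h8 hE.le

theorem j1b_Phi_nonneg (T : Box d) (O : Finset (Dir d)) (D : Finset (Site (d + lt))) :
    0 ≤ Phi O (a.bD T D) (a.eD T D) :=
  Phi_nonneg (fun l _ => bD_nonneg a T D l) (eD_nonneg a T D)

/-- [BTR-J1b] revealing a site of the second layer, when the first layer is explored.
PROOF. `sup_inL2`, `bv_reveal2`, `step_two`; `cmp_sum` with `Ps (up (up T j) j) ≤ Ps T + 2 g(z_j)` (`Ps_up_g`, `z_up_same`), `e^{2g} (N/8) ≤ 4 e^{2gm - 2N} N/8 ≤ e^{2gm - N} N`. -/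
theorem reveal_L2 {T Q : Box d} (hok : Ok a T Q) {D : Finset (Site (d + lt))} {j : Dir d}
    {v : Site (d + lt)} (hv : v ∈ D) (hin : inL T j 2 (ps v)) (hh : ht v = fun _ => 1)
    (hvQ : cc (ps v) ≤ Q) (hn : near (emb lt T) (cc v)) (h0 : n1 lt T D j = 0) :
    RV a T Q D v (fun T' D' => a.Fp T' Q D') ≤ a.Fp T Q D := by
  obtain ⟨hT, hTQ, hQ, hPs⟩ := hok
  have hgam := a.hgam0
  have hh0 : (0 : ℝ) ≤ (a.h : ℝ) := Nat.cast_nonneg _
  have hP1 : a.Ps T + a.gam < 2 * (d * a.A * lamk (d - 1) (lt + 1)) := by nlinarith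
  have hP2 : a.Ps T < 2 * (d * a.A * lamk (d - 1) (lt + 1)) := by linarith
  have hDT : a.InD T := InD_mono a hT hTQ hQ
  have hup := sup_inL2 hT hin
  have hupQ : up (up T j) j ≤ Q := by rw [← hup]; exact sup_le hTQ hvQ
  have hj1 : up T j ≤ Q := le_trans (le_up _ j) hupQ
  have hj : j ∈ grw T Q := mem_grw hj1
  have hnv : ¬ cc (ps v) ≤ T := by
    intro hle
    have h1 : cc (ps v) j ≤ T j := hle j
    have h2 : cc (ps v) j = T j + 2 := hin.1
    linarith
  have hstep := step_two a (D := D) (D' := D.erase v) hT hQ hupQ hP1 (Finset.erase_subset v D)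
  have hcmp := cmp_sum a (D := D) (D' := D.erase v) hT hTQ hQ hn hnv hPs (Finset.erase_subset v D)
    (D.erase v) j.1
  rw [hup, grw_inL hT (by norm_num : (1 : ℤ) ≤ 2) hin, Finset.sdiff_singleton_eq_erase] at hcmp
  have hPhi0 := j1b_Phi_nonneg a T ((grw T Q).erase j) D
  have hg := exp_g_le a hT hDT hP2 j.1
  obtain ⟨hg1, hN0, hN1⟩ := hg
  have hc1 := Ps_up_g a hT j
  have hc2 := Ps_up_g a (ne_up hT j) j
  rw [z_up_same a hT j] at hc2
  set Φ := Phi ((grw T Q).erase j) (a.bD T D) (a.eD T D) with hΦ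
  set N := a.NC T j.1 with hN
  set g := gk (lt + 1) (a.z T j.1) with hgdef
  set gm := a.gm T j.1 with hgm
  set E := Real.exp (a.Ps T - a.Ps Q) with hE
  have hE0 : 0 < E := Real.exp_pos _
  -- the site alone
  have hA : a.Fp (up (up T j) j) Q (D.erase v) ≤ E * (Real.exp (2 * gm - N) * Φ) := by
    have e1 : a.Fp (up (up T j) j) Q (D.erase v) =
        E * (Real.exp (a.Ps (up (up T j) j) - a.Ps T) * a.Ph (up (up T j) j) Q (D.erase v)) := by
      unfold Pc.Fp
      rw [hE, ← mul_assoc, ← Real.exp_add]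
      congr 2
      ring
    rw [e1]
    exact mul_le_mul_of_nonneg_left hstep hE0.le
  -- the compounds
  have hB : Real.exp (a.Ps (up (up T j) j) - a.Ps Q) * (N / 8) * Φ ≤
      E * (Real.exp (2 * gm - N) * N * Φ) := by
    have e1 : Real.exp (a.Ps (up (up T j) j) - a.Ps Q) ≤ E * (Real.exp g * Real.exp g) := by
      rw [hE, ← Real.exp_add, ← Real.exp_add]
      apply Real.exp_le_exp.2
      linarith
    have hx : 0 < Real.exp (gm - N) := Real.exp_pos _
    have e2 : Real.exp g * Real.exp g ≤ 4 * Real.exp (2 * gm - N) := by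
      have e3 : Real.exp g * Real.exp g ≤ (2 * Real.exp (gm - N)) * (2 * Real.exp (gm - N)) :=
        mul_le_mul hg1 hg1 (Real.exp_pos _).le (by positivity)
      have e4 : (2 * Real.exp (gm - N)) * (2 * Real.exp (gm - N)) = 4 * Real.exp (2 * gm - 2 * N) := by
        have : Real.exp (2 * gm - 2 * N) = Real.exp (gm - N) * Real.exp (gm - N) := by
          rw [← Real.exp_add]
          congr 1
          ring
        rw [this]
        ring
      have e5 : Real.exp (2 * gm - 2 * N) ≤ Real.exp (2 * gm - N) :=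
        Real.exp_le_exp.2 (by linarith)
      linarith
    have e6 : Real.exp (a.Ps (up (up T j) j) - a.Ps Q) ≤ E * (4 * Real.exp (2 * gm - N)) :=
      e1.trans (mul_le_mul_of_nonneg_left e2 hE0.le)
    have hNP : 0 ≤ N / 8 * Φ := mul_nonneg (by linarith) hPhi0
    have e7 := mul_le_mul_of_nonneg_right e6 hNP
    have hpos : 0 ≤ E * (Real.exp (2 * gm - N) * N * Φ) := by
      have : 0 ≤ Real.exp (2 * gm - N) * N * Φ :=
        mul_nonneg (mul_nonneg (Real.exp_pos _).le hN0) hPhi0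
      exact mul_nonneg hE0.le this
    calc Real.exp (a.Ps (up (up T j) j) - a.Ps Q) * (N / 8) * Φ
        = Real.exp (a.Ps (up (up T j) j) - a.Ps Q) * (N / 8 * Φ) := by ring
      _ ≤ E * (4 * Real.exp (2 * gm - N)) * (N / 8 * Φ) := e7
      _ = E * (Real.exp (2 * gm - N) * N * Φ) / 2 := by ring
      _ ≤ E * (Real.exp (2 * gm - N) * N * Φ) := by linarith
  have hX : E * (Real.exp (2 * gm - N) * Φ) + E * (Real.exp (2 * gm - N) * N * Φ) ≤
      E * (Real.exp gm ^ 2 * Φ) := by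
    have e1 : 1 + N ≤ Real.exp N := by
      have := Real.add_one_le_exp N
      linarith
    have e2 : Real.exp (2 * gm - N) * (1 + N) ≤ Real.exp gm ^ 2 := by
      have e3 : Real.exp (2 * gm - N) * Real.exp N = Real.exp gm ^ 2 := by
        rw [← Real.exp_add, pow_two, ← Real.exp_add]
        congr 1
        ring
      rw [← e3]
      exact mul_le_mul_of_nonneg_left e1 (Real.exp_pos _).le
    have e4 := mul_le_mul_of_nonneg_right e2 hPhi0
    have e5 := mul_le_mul_of_nonneg_left e4 hE0.le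
    calc E * (Real.exp (2 * gm - N) * Φ) + E * (Real.exp (2 * gm - N) * N * Φ)
        = E * (Real.exp (2 * gm - N) * (1 + N) * Φ) := by ring
      _ ≤ _ := e5
  unfold RV
  simp only [hup]
  refine j1b_core a (X := Real.exp gm ^ 2) hj ?_ ?_ ?_ ?_
  · have hn2 : (n2 lt T (D.erase v) j : ℝ) = (n2 lt T D j : ℝ) - 1 := by
      rw [n2_erase hv hin hh]; push_cast; ring
    have hn1 : n1 lt T (D.erase v) j = n1 lt T D j :=
      n1_erase_ne hT D (by norm_num) hin (by intro h; have := congrArg Prod.snd h; norm_num at this)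
    have h := bv_reveal2 (q := a.q) (x := Real.exp (a.gm T j.1)) (th := a.th T j.1)
      (n2 := n2 lt T D j)
    unfold Pc.bD Pc.bT
    simp only [hn1, hn2, h0]
    rw [a.hp]
    push_cast
    linarith
  · intro l hl
    have hn1 : n1 lt T (D.erase v) l = n1 lt T D l :=
      n1_erase_ne hT D (by norm_num) hin (by intro h; exact hl (congrArg Prod.fst h))
    have hn2 : n2 lt T (D.erase v) l = n2 lt T D l :=
      n2_erase_ne hT D (by norm_num) hin (by intro h; exact hl (congrArg Prod.fst h))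
    unfold Pc.bD Pc.bT
    simp only [hn1, hn2]
  · funext i l
    unfold Pc.eD Pc.eT
    simp only [n3_erase_inL hT D (by norm_num : (1 : ℤ) ≤ 2) hin]
  · linarith

end BTR
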