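import Pool.Agent.BTR.I3
import Pool.Agent.BTR.I4
import Pool.Agent.BTR.V12
import Pool.Agent.BTR.J1a
import Pool.Agent.BTR.J1b
import Pool.Agent.BTS.J1b
set_option autoImplicit false

open scoped Classical
open Finset

/-! # The supermartingale inequalities for revealing a site, with compounds -/

namespace BTR
open BTP BTS

variable {d lt : ℕ} (a : Pc d lt)

/-- [BTR-J1c] revealing a site over an edge (cf. BTS/J1b.lean).
PROOF. `bD` is unchanged (`n1_erase_inC`, `n2_erase_inC`), `eD T D i j = eD T (D.erase v) i j + q e^{gm_i+gm_j}` and the same for `(j, i)` (`n3_erase`, `n3_symm`), the other edges are unchanged (`n3_erase_ne`). So `Phi O b e - (1-p) Phi O b e° ≥ 2 p e^{gm_i+gm_j} Π`, `Π = ∏_{((grw T Q).erase i).erase j} bD T D` (`BTS.j1b_Phi_edge_add`).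
`sup_inC`, `step_edge`: `Fp (up (up T i) j) Q D' ≤ (8/5) E e^{gm_i + gm_j} Π`. `cmp_sum` (`grw_inC`; with `i.1`), `Phi_le_prod`, `Ps (up (up T i) j) ≤ Ps T + g(z_i) + g(z_j)` (`Ps_up_g`, `z_le_up`, `gk_anti`), `exp_g_le` twice: the sum is at most `E e^{g_i+g_j} (N/8) 2 Π ≤ E e^{gm_i+gm_j} N Π ≤ (1/100) ..`. Total `≤ 2 E e^{gm_i+gm_j} Π`. -/
theorem reveal_C {T Q : Box d} (hok : Ok a T Q) {D : Finset (Site (d + lt))} {i j : Dir d}
    (hij : i.1 ≠ j.1) {v : Site (d + lt)} (hv : v ∈ D) (hin : inC T i j (ps v))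
    (hh : ht v = fun _ => 1) (hvQ : cc (ps v) ≤ Q) (hn : near (emb lt T) (cc v)) :
    RV a T Q D v (fun T' D' => a.Fp T' Q D') ≤ a.Fp T Q D := by
  obtain ⟨hT, hTQ, hQ, hPs⟩ := hok
  have hgam := a.hgam0
  have hh0 : (0 : ℝ) ≤ (a.h : ℝ) := Nat.cast_nonneg _
  have hP1 : a.Ps T + a.gam < 2 * (d * a.A * lamk (d - 1) (lt + 1)) := by nlinarith
  have hP2 : a.Ps T < 2 * (d * a.A * lamk (d - 1) (lt + 1)) := by linarith
  have hDT : a.InD T := InD_mono a hT hTQ hQ
  have hne : i ≠ j := fun h => hij (by rw [h])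
  have hup := sup_inC hT hij hin
  have hupQ : up (up T i) j ≤ Q := by rw [← hup]; exact sup_le hTQ hvQ
  have hiO : i ∈ grw T Q := mem_grw (le_trans (le_up (up T i) j) hupQ)
  have hjO : j ∈ grw T Q := by
    unfold grw
    rw [Finset.mem_filter]
    refine ⟨Finset.mem_univ _, ?_⟩
    have h1 : cc (ps v) j ≤ Q j := hvQ j
    have h2 : cc (ps v) j = T j + 1 := hin.2.1
    linarith
  have hnv : ¬ cc (ps v) ≤ T := by
    intro hle
    have h1 : cc (ps v) i ≤ T i := hle i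
    have h2 : cc (ps v) i = T i + 1 := hin.1
    linarith
  have hq0 : 0 ≤ a.q := a.hq.le
  have hpq : a.p ≤ a.q := p_le_q a
  have hp1 : a.p ≤ 1 := p_le_one a
  have hp0 : 0 ≤ a.p := p_nonneg a
  -- the step inequality and the compounds
  have hstep := step_edge a hij (D := D) (D' := D.erase v) hT hQ hupQ hP1 (Finset.erase_subset _ _)
  have hcmp := cmp_sum a (D := D) (D' := D.erase v) hT hTQ hQ hn hnv hPs (Finset.erase_subset v D)
    (D.erase v) i.1
  have hsd : grw T Q \ {i, j} = ((grw T Q).erase i).erase j := by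
    ext m
    simp only [Finset.mem_sdiff, Finset.mem_insert, Finset.mem_singleton, Finset.mem_erase]
    tauto
  rw [hup, grw_inC hT hij hin, hsd] at hcmp
  have hprod0 : 0 ≤ ∏ l ∈ ((grw T Q).erase i).erase j, a.bD T D l :=
    Finset.prod_nonneg (fun k _ => bD_nonneg a T D k)
  have hPle := Phi_le_prod a hT hDT (((grw T Q).erase i).erase j) D
  obtain ⟨hgi, hNi0, hNi1⟩ := exp_g_le a hT hDT hP2 i.1
  obtain ⟨hgj, hNj0, hNj1⟩ := exp_g_le a hT hDT hP2 j.1
  have hc1 := Ps_up_g a hT i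
  have hc2 := Ps_up_g a (ne_up hT i) j
  have hz : gk (lt + 1) (a.z (up T i) j.1) ≤ gk (lt + 1) (a.z T j.1) :=
    gk_anti (k := lt + 1) (z_pos a T j.1) (z_le_up a hT i j.1)
  -- the values of the directions
  have hbD : a.bD T (D.erase v) = a.bD T D := by
    unfold Pc.bD
    have h1 : (fun l => (n1 lt T (D.erase v) l : ℝ)) = fun l => (n1 lt T D l : ℝ) := by
      funext l
      rw [n1_erase_inC hT D hij hin]
    have h2 : (fun l => (n2 lt T (D.erase v) l : ℝ)) = fun l => (n2 lt T D l : ℝ) := by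
      funext l
      rw [n2_erase_inC hT D hij hin]
    rw [h1, h2]
  have hb0 : ∀ l ∈ grw T Q, 0 ≤ a.bD T D l := fun l _ => bD_nonneg a T D l
  -- the edges
  have hee : ∀ l m, a.eD T (D.erase v) l m ≤ a.eD T D l m :=
    fun l m => eD_mono a T (Finset.erase_subset v D) l m
  have heij : a.eD T (D.erase v) i j + a.q * Real.exp (a.gm T i.1 + a.gm T j.1) ≤ a.eD T D i j := by
    unfold Pc.eD Pc.eT
    have h1 : (n3 lt T D i j : ℝ) = n3 lt T (D.erase v) i j + 1 := by
      exact_mod_cast n3_erase hij hv hin hh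
    simp only [h1]
    apply le_of_eq
    ring
  have heji : a.eD T (D.erase v) j i + a.q * Real.exp (a.gm T i.1 + a.gm T j.1) ≤ a.eD T D j i := by
    rw [eD_symm a T (D.erase v) j i, eD_symm a T D j i]
    exact heij
  have hadd := BTS.j1b_Phi_edge_add hiO hjO hne (a.bD T D) (a.eD T D) (a.eD T (D.erase v)) hb0 hee
    heij heji
  have hPhi0 : 0 ≤ Phi (grw T Q) (a.bD T D) (a.eD T (D.erase v)) :=
    Phi_nonneg hb0 (fun l m => eD_nonneg a T _ l m)
  set Pi0 := ∏ l ∈ ((grw T Q).erase i).erase j, a.bD T D l with hPi0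
  set Φ := Phi (((grw T Q).erase i).erase j) (a.bD T D) (a.eD T D) with hΦ
  set N := a.NC T i.1 with hN
  set x := Real.exp (a.gm T i.1 + a.gm T j.1) with hx
  set E := Real.exp (a.Ps T - a.Ps Q) with hE
  have hE0 : 0 < E := Real.exp_pos _
  have hx0 : 0 < x := Real.exp_pos _
  -- the site alone
  have hA : a.Fp (up (up T i) j) Q (D.erase v) ≤ E * (8 / 5 * x * Pi0) := by
    have e1 : a.Fp (up (up T i) j) Q (D.erase v) =
        E * (Real.exp (a.Ps (up (up T i) j) - a.Ps T) * a.Ph (up (up T i) j) Q (D.erase v)) := by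
      unfold Pc.Fp
      rw [hE, ← mul_assoc, ← Real.exp_add]
      congr 2
      ring
    rw [e1]
    exact mul_le_mul_of_nonneg_left hstep hE0.le
  -- the compounds
  have hB : Real.exp (a.Ps (up (up T i) j) - a.Ps Q) * (N / 8) * Φ ≤ E * (1 / 100 * x * Pi0) := by
    have e1 : Real.exp (a.Ps (up (up T i) j) - a.Ps Q) ≤
        E * (Real.exp (gk (lt + 1) (a.z T i.1)) * Real.exp (gk (lt + 1) (a.z T j.1))) := by
      rw [hE, ← Real.exp_add, ← Real.exp_add]
      apply Real.exp_le_exp.2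
      linarith
    have e2 : Real.exp (gk (lt + 1) (a.z T i.1)) * Real.exp (gk (lt + 1) (a.z T j.1)) ≤ 4 * x := by
      have e3 : Real.exp (gk (lt + 1) (a.z T i.1)) * Real.exp (gk (lt + 1) (a.z T j.1)) ≤
          (2 * Real.exp (a.gm T i.1 - a.NC T i.1)) * (2 * Real.exp (a.gm T j.1 - a.NC T j.1)) :=
        mul_le_mul hgi hgj (Real.exp_pos _).le (by positivity)
      have e4 : (2 * Real.exp (a.gm T i.1 - a.NC T i.1)) * (2 * Real.exp (a.gm T j.1 - a.NC T j.1)) =
          4 * Real.exp ((a.gm T i.1 - a.NC T i.1) + (a.gm T j.1 - a.NC T j.1)) := by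
        rw [Real.exp_add]
        ring
      have e5 : Real.exp ((a.gm T i.1 - a.NC T i.1) + (a.gm T j.1 - a.NC T j.1)) ≤ x := by
        rw [hx]
        exact Real.exp_le_exp.2 (by linarith)
      linarith
    have e6 : Real.exp (a.Ps (up (up T i) j) - a.Ps Q) ≤ E * (4 * x) :=
      e1.trans (mul_le_mul_of_nonneg_left e2 hE0.le)
    have hN8 : 0 ≤ N / 8 := by linarith
    have e7 : Real.exp (a.Ps (up (up T i) j) - a.Ps Q) * (N / 8) ≤ E * (4 * x) * (N / 8) :=
      mul_le_mul_of_nonneg_right e6 hN8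
    have hEx : 0 ≤ E * (4 * x) * (N / 8) := by positivity
    have e8 : Real.exp (a.Ps (up (up T i) j) - a.Ps Q) * (N / 8) * Φ ≤
        Real.exp (a.Ps (up (up T i) j) - a.Ps Q) * (N / 8) * (2 * Pi0) :=
      mul_le_mul_of_nonneg_left hPle (mul_nonneg (Real.exp_pos _).le hN8)
    have e9 : Real.exp (a.Ps (up (up T i) j) - a.Ps Q) * (N / 8) * (2 * Pi0) ≤
        E * (4 * x) * (N / 8) * (2 * Pi0) :=
      mul_le_mul_of_nonneg_right e7 (by linarith)
    have hxp : 0 ≤ E * x * Pi0 := mul_nonneg (mul_nonneg hE0.le hx0.le) hprod0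
    have e10 : E * x * Pi0 * N ≤ E * x * Pi0 * (1 / 100) := mul_le_mul_of_nonneg_left hNi1 hxp
    calc Real.exp (a.Ps (up (up T i) j) - a.Ps Q) * (N / 8) * Φ
        ≤ E * (4 * x) * (N / 8) * (2 * Pi0) := e8.trans e9
      _ = E * x * Pi0 * N := by ring
      _ ≤ E * x * Pi0 * (1 / 100) := e10
      _ = E * (1 / 100 * x * Pi0) := by ring
  have hF2 : a.Fp T Q (D.erase v) = E * Phi (grw T Q) (a.bD T D) (a.eD T (D.erase v)) := by
    unfold Pc.Fp Pc.Ph
    rw [hbD]
  have hF3 : a.Fp T Q D = E * Phi (grw T Q) (a.bD T D) (a.eD T D) := rfl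
  unfold RV
  simp only [hup]
  rw [hF2, hF3]
  set W := ∑ S ∈ cmpd (cyl lt a.kk Q) v a.h, Pr (D.erase v) a.p (Gv S v) *
    a.Fp (T ⊔ pr S) Q (D.erase v) with hW
  set Ψ := Phi (grw T Q) (a.bD T D) (a.eD T (D.erase v)) with hΨ
  have hxp : 0 ≤ E * x * Pi0 := mul_nonneg (mul_nonneg hE0.le hx0.le) hprod0
  have h1 : a.Fp (up (up T i) j) Q (D.erase v) + W ≤ 2 * (E * x * Pi0) := by
    have : a.Fp (up (up T i) j) Q (D.erase v) + W ≤ E * (8 / 5 * x * Pi0) + E * (1 / 100 * x * Pi0) := by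
      linarith
    have e : E * (8 / 5 * x * Pi0) + E * (1 / 100 * x * Pi0) = (8 / 5 + 1 / 100) * (E * x * Pi0) := by ring
    rw [e] at this
    linarith
  have h2 : a.p * (a.Fp (up (up T i) j) Q (D.erase v) + W) ≤ a.q * (2 * (E * x * Pi0)) := by
    have e1 := mul_le_mul_of_nonneg_left h1 hp0
    have e2 : a.p * (2 * (E * x * Pi0)) ≤ a.q * (2 * (E * x * Pi0)) :=
      mul_le_mul_of_nonneg_right hpq (by linarith)
    linarith
  have h3 : (1 - a.p) * (E * Ψ) ≤ E * Ψ := by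
    have : 0 ≤ a.p * (E * Ψ) := mul_nonneg hp0 (mul_nonneg hE0.le hPhi0)
    linarith
  have h4 := mul_le_mul_of_nonneg_left hadd hE0.le
  have h5 : E * (Ψ + 2 * (a.q * x) * Pi0) = E * Ψ + a.q * (2 * (E * x * Pi0)) := by ring
  linarith

end BTR
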