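import Pool.Agent.BTR.E2
import Pool.Agent.BTR.V11
import Pool.Agent.BTS.Q1
import Pool.Agent.BTS.S10
import Pool.Agent.BTP.C1
import Pool.Agent.BTR.Q2a
set_option autoImplicit false

open scoped Classical
open Finset

/-! # Revealing, stuck states, start (probabilities). Note: `BTR.bk` is the function `β_k`; the van den Berg-Kesten inequality is `BTP.bk` (write the full name). -/

namespace BTR
open BTP BTS

variable {d l : ℕ} (a : Pc d l)

/-- the events used in the revealing step, for one `U ⊆ D.erase v` -/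
theorem q2b_key {T Q : Box d} {D U : Finset (Site (d + l))} {v : Site (d + l)} (hv : v ∈ D)
    (hD : D ⊆ sites (cyl l a.kk Q)) (hn : near (emb l T) (cc v)) (hU : U ⊆ D.erase v)
    (hG : Gw l a.h T Q (insert v U)) :
    Gw l a.h (T ⊔ cc (ps v)) Q U ∨ ∃ S ∈ cmpd (cyl l a.kk Q) v a.h,
      dis (Gv S v) (Gw l a.h (T ⊔ pr S) Q) U := by
  obtain ⟨W, hWU, hg⟩ := hG
  by_cases hvW : v ∈ W
  · obtain ⟨S, W₀, W₁, hv0, hS, hYS, hW0, hW1, hd, hg1⟩ := SGr_reveal hg hvW hn
    have hv1 : v ∉ W₁ := Finset.disjoint_left.mp hd hv0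
    have hW1U : W₁ ⊆ U := by
      intro w hw
      rcases Finset.mem_insert.mp (hWU (hW1 hw)) with rfl | h
      · exact absurd hw hv1
      · exact h
    have hcS : cc v ≤ S := hS.le v hv0
    have hW0D : W₀ ⊆ sites (cyl l a.kk Q) := by
      intro w hw
      rcases Finset.mem_insert.mp (hWU (hW0 hw)) with rfl | h
      · exact hD hv
      · exact hD (Finset.mem_of_mem_erase (hU h))
    have hScyl : S ≤ cyl l a.kk Q := Gen_le_cyl hS hW0D
    by_cases hY1 : 1 ≤ Ys S
    · right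
      refine ⟨S, ?_, ?_⟩
      · unfold cmpd
        exact Finset.mem_filter.mpr ⟨mem_sub.mpr ⟨hS.ne, hScyl⟩, hcS, hY1, hYS⟩
      · refine ⟨W₀.erase v, W₁, ?_, ?_, hW1U, ?_, ?_⟩
        · exact Finset.disjoint_of_subset_left (Finset.erase_subset v W₀) hd
        · intro w hw
          rw [Finset.mem_erase] at hw
          rcases Finset.mem_insert.mp (hWU (hW0 hw.2)) with h | h
          · exact absurd h hw.1
          · exact h
        · refine ⟨W₀.erase v, Finset.Subset.refl _, ?_⟩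
          have h1 : insert v (W₀.erase v) = W₀ := by
            ext w
            rw [Finset.mem_insert, Finset.mem_erase]
            constructor
            · rintro (rfl | h)
              · exact hv0
              · exact h.2
            · intro h
              by_cases hwv : w = v
              · exact Or.inl hwv
              · exact Or.inr ⟨hwv, h⟩
          rw [h1]
          exact hS
        · exact ⟨W₁, Finset.Subset.refl _, hg1⟩
    · left
      have hSc : cc v = S := by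
        by_contra hne
        have h1 := Ys_lt hcS hne
        rw [Ys_cc] at h1
        omega
      rw [← hSc, pr_cc] at hg1
      exact ⟨W₁, hW1U, hg1⟩
  · left
    refine ⟨W, ?_, SGr_mono hg le_sup_left le_rfl⟩
    intro w hw
    rcases Finset.mem_insert.mp (hWU hw) with rfl | h
    · exact absurd hw hvW
    · exact h

/-- [BTR-Q2b] revealing one site near the column.
PROOF. `Pr_erase` (file BTS/Q1.lean). For `U ⊆ D.erase v` with `Gw T Q (insert v U)`: `SGr Q T Q W`, `W ⊆ insert v U`. If `v ∉ W`: `W ⊆ U` and `Gw (T ⊔ cc (ps v)) Q U` (`SGr_mono`). If `v ∈ W`: `SGr_reveal` gives `S, W₀ ∋ v, W₁` with `SGr (T ⊔ pr S) Q W₁`, `W₁ ⊆ U` (`v ∉ W₁` as `Disjoint W₀ W₁`).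
`cc v ≤ S` (`Gen.le`), `S ≤ cyl l kk Q` (`Gen_le_cyl`, `hD`). If `Ys S < 1`: `Ys S = 0 = Ys (cc v)`, so `S = cc v` (`Ys_lt`, `Ys_cc`), `pr S = cc (ps v)` (`pr_cc`): again `Gw (T ⊔ cc (ps v)) Q U`. Otherwise `S ∈ cmpd ..` and `dis (Gv S v) (Gw (T ⊔ pr S) Q) U` with witnesses `W₀.erase v` and `W₁`.
So the event implies `Gw (T ⊔ cc (ps v)) Q U ∨ ∃ S ∈ cmpd, dis ..`: `Pr_mono`, `Pr_or`, `Pr_union`, `BTP.bk` (`Inc_Gv`, `Inc_Gw`, `a.hp2`). -/
theorem V_reveal {T Q : Box d} {D : Finset (Site (d + l))} {v : Site (d + l)} (hv : v ∈ D)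
    (hD : D ⊆ sites (cyl l a.kk Q)) (hn : near (emb l T) (cc v)) :
    a.V T Q D ≤ (1 - a.p) * a.V T Q (D.erase v) + a.p * (a.V (T ⊔ cc (ps v)) Q (D.erase v) +
      ∑ S ∈ cmpd (cyl l a.kk Q) v a.h,
        Pr (D.erase v) a.p (Gv S v) * a.V (T ⊔ pr S) Q (D.erase v)) := by
  have hp0 := p_nonneg a
  have hp1 := p_le_one a
  have h1 : a.V T Q D = (1 - a.p) * a.V T Q (D.erase v) +
      a.p * Pr (D.erase v) a.p (fun U => Gw l a.h T Q (insert v U)) := by
    unfold Pc.V
    exact q1_Pr_erase' hv _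
  have h2 : Pr (D.erase v) a.p (fun U => Gw l a.h T Q (insert v U)) ≤
      a.V (T ⊔ cc (ps v)) Q (D.erase v) + ∑ S ∈ cmpd (cyl l a.kk Q) v a.h,
        Pr (D.erase v) a.p (Gv S v) * a.V (T ⊔ pr S) Q (D.erase v) := by
    calc Pr (D.erase v) a.p (fun U => Gw l a.h T Q (insert v U))
        ≤ Pr (D.erase v) a.p (fun U => Gw l a.h (T ⊔ cc (ps v)) Q U ∨
            ∃ S ∈ cmpd (cyl l a.kk Q) v a.h, dis (Gv S v) (Gw l a.h (T ⊔ pr S) Q) U) :=
          Pr_mono hp0 hp1 fun U hU hG => q2b_key a hv hD hn hU hG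
      _ ≤ Pr (D.erase v) a.p (Gw l a.h (T ⊔ cc (ps v)) Q) +
            Pr (D.erase v) a.p (fun U => ∃ S ∈ cmpd (cyl l a.kk Q) v a.h,
              dis (Gv S v) (Gw l a.h (T ⊔ pr S) Q) U) := Pr_or hp0 hp1
      _ ≤ _ := by
          refine add_le_add le_rfl ((Pr_union hp0 hp1 _ _).trans (Finset.sum_le_sum ?_))
          intro S _
          exact BTP.bk hp0 a.hp2 _ _ _ (Inc_Gv S v) (Inc_Gw a.h _ _)
  rw [h1]
  exact add_le_add le_rfl (mul_le_mul_of_nonneg_left h2 hp0)

end BTR
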