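import Pool.Agent.BTR.E2
import Pool.Agent.BTR.V11
import Pool.Agent.BTS.Q1
import Pool.Agent.BTS.S10
import Pool.Agent.BTP.C1
import Pool.Agent.BTR.Q2a
import Pool.Agent.BTR.Q2b
set_option autoImplicit false

open scoped Classical
open Finset

/-! # Revealing, stuck states, start (probabilities). Note: `BTR.bk` is the function `β_k`; the van den Berg-Kesten inequality is `BTP.bk` (write the full name). -/

namespace BTR
open BTP BTS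

variable {d l : ℕ} (a : Pc d l)

/-- [BTR-Q2c] the stuck state.
PROOF. For `U ⊆ D` with `Gw T Q U`: `SGr Q T Q W`, `W ⊆ U`; `¬ Q ≤ T` (`le_antisymm`). `SGr_first`: a small box `S` (`S ≤ cyl l kk Q` by `Gen_le_cyl`, `Gen.ne`, `mem_sub`) with `dis (IG S) (Gw (T ⊔ pr S) Q) U`, or a column `R` (`R ≤ Q` by `CGen_le_of` and `mem_cyl`; `R ≠ Q` as `¬ Q ≤ R`; `CGen_ne`) with `dis (CIG R) (Gw (T ⊔ R) Q) U`.
`Pr_mono`, `Pr_or`, `Pr_union`, `BTP.bk` (`Inc_IG`, `Inc_CIG`, `Inc_Gw`). -/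
theorem V_stuck {T Q : Box d} {D : Finset (Site (d + l))} (hTQ : T ≤ Q) (hne : T ≠ Q)
    (hD : D ⊆ sites (cyl l a.kk Q)) :
    a.V T Q D ≤ ∑ S ∈ (sub (cyl l a.kk Q)).filter (fun S => near (emb l T) S ∧ Ys S < a.h ∧
        ¬ pr S ≤ T), Pr D a.p (IG S) * a.V (T ⊔ pr S) Q D +
      ∑ R ∈ (sub Q).filter (fun R => near T R ∧ ¬ R ≤ T ∧ R ≠ Q),
        Pr D a.p (CIG l a.h R) * a.V (T ⊔ R) Q D := by
  have hp0 := p_nonneg a
  have hp1 := p_le_one a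
  have hQT : ¬ Q ≤ T := fun h => hne (le_antisymm hTQ h)
  have key : ∀ U ⊆ D, Gw l a.h T Q U →
      (∃ S ∈ (sub (cyl l a.kk Q)).filter (fun S => near (emb l T) S ∧ Ys S < a.h ∧
        ¬ pr S ≤ T), dis (IG S) (Gw l a.h (T ⊔ pr S) Q) U) ∨
      (∃ R ∈ (sub Q).filter (fun R => near T R ∧ ¬ R ≤ T ∧ R ≠ Q),
        dis (CIG l a.h R) (Gw l a.h (T ⊔ R) Q) U) := by
    rintro U hU ⟨W, hWU, hg⟩
    rcases SGr_first hg hQT with ⟨S, W₀, W₁, hS, hY, hn, hST, h0, h1, hd, hg1⟩ |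
      ⟨R, W₀, W₁, hR, hQR, hn, hRT, h0, h1, hd, hg1⟩
    · left
      refine ⟨S, Finset.mem_filter.mpr ⟨mem_sub.mpr ⟨hS.ne, Gen_le_cyl hS ?_⟩, hn, hY, hST⟩, ?_⟩
      · intro w hw
        exact hD (hU (hWU (h0 hw)))
      · exact ⟨W₀, W₁, hd, h0.trans hWU, h1.trans hWU, ⟨W₀, Finset.Subset.refl _, hS⟩,
          ⟨W₁, Finset.Subset.refl _, hg1⟩⟩
    · right
      refine ⟨R, Finset.mem_filter.mpr ⟨mem_sub.mpr ⟨CGen_ne hR, CGen_le_of hR ?_⟩, hn, hRT, ?_⟩, ?_⟩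
      · intro w hw
        exact (mem_cyl.mp (hD (hU (hWU (h0 hw))))).1
      · rintro rfl
        exact hQR le_rfl
      · exact ⟨W₀, W₁, hd, h0.trans hWU, h1.trans hWU, ⟨W₀, Finset.Subset.refl _, hR⟩,
          ⟨W₁, Finset.Subset.refl _, hg1⟩⟩
  unfold Pc.V
  refine (Pr_mono hp0 hp1 key).trans ((Pr_or hp0 hp1).trans (add_le_add ?_ ?_))
  · refine (Pr_union hp0 hp1 _ _).trans (Finset.sum_le_sum ?_)
    intro S _
    exact BTP.bk hp0 a.hp2 _ _ _ (Inc_IG S) (Inc_Gw a.h _ _)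
  · refine (Pr_union hp0 hp1 _ _).trans (Finset.sum_le_sum ?_)
    intro R _
    exact BTP.bk hp0 a.hp2 _ _ _ (Inc_CIG a.h R) (Inc_Gw a.h _ _)

/-- [BTR-Q2c] the start. PROOF. For `U ⊆ D` with `CIG Q U`: `CGen Q W`; `CGen_start_end` (`Q ≤ Q`): `dis (IG S) (Gw (pr S) Q) U`; `Gen_le_cyl`. -/
theorem CIG_start {Q : Box d} {D : Finset (Site (d + l))} (hD : D ⊆ sites (cyl l a.kk Q)) :
    Pr D a.p (CIG l a.h Q) ≤ ∑ S ∈ (sub (cyl l a.kk Q)).filter (fun S => (a.h : ℤ) ≤ Ys S ∧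
        Ys S ≤ 2 * a.h), Pr D a.p (IG S) * a.V (pr S) Q D := by
  have hp0 := p_nonneg a
  have hp1 := p_le_one a
  have key : ∀ U ⊆ D, CIG l a.h Q U →
      ∃ S ∈ (sub (cyl l a.kk Q)).filter (fun S => (a.h : ℤ) ≤ Ys S ∧ Ys S ≤ 2 * a.h),
        dis (IG S) (Gw l a.h (pr S) Q) U := by
    rintro U hU ⟨W, hWU, hg⟩
    obtain ⟨S, W₀, W₁, hS, hY1, hY2, hSQ, h0, h1, hd, hg1⟩ := CGen_start_end hg (le_refl Q)
    refine ⟨S, Finset.mem_filter.mpr ⟨mem_sub.mpr ⟨hS.ne, Gen_le_cyl hS ?_⟩, hY1, hY2⟩, ?_⟩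
    · intro w hw
      exact hD (hU (hWU (h0 hw)))
    · exact ⟨W₀, W₁, hd, h0.trans hWU, h1.trans hWU, ⟨W₀, Finset.Subset.refl _, hS⟩,
        ⟨W₁, Finset.Subset.refl _, hg1⟩⟩
  unfold Pc.V
  refine (Pr_mono hp0 hp1 key).trans ((Pr_union hp0 hp1 _ _).trans (Finset.sum_le_sum ?_))
  intro S _
  exact BTP.bk hp0 a.hp2 _ _ _ (Inc_IG S) (Inc_Gw a.h _ _)

/-- [BTR-Q2c] only the sites over `Q` matter. PROOF. `BTS.Pr_inter` with `B = sites (cyl l kk Q)`: for `U ⊆ V`, `CIG Q U` implies `CIG Q (U ∩ B)` (`CGen_le`, `mem_cyl`, `Rg`); `Inc_CIG`. -/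
theorem Pr_CIG_cyl {V : Finset (Site (d + l))} {k : ℕ} (hV : Rg l k V) (h : ℕ) (p : ℝ) (Q : Box d) :
    Pr V p (CIG l h Q) = Pr (V ∩ sites (cyl l k Q)) p (CIG l h Q) := by
  refine q1_Pr_inter' V (sites (cyl l k Q)) (CIG l h Q) (fun U hU => ⟨?_, ?_⟩)
  · rintro ⟨W, hW, hg⟩
    refine ⟨W, ?_, hg⟩
    intro w hw
    exact Finset.mem_inter.mpr ⟨hW hw, mem_cyl.mpr ⟨CGen_le hg w hw, hV w (hU (hW hw))⟩⟩
  · exact Inc_CIG h Q _ _ Finset.inter_subset_left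

end BTR
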