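import Pool.Agent.BTR.I2
import Pool.Agent.BTR.V12
set_option autoImplicit false

open scoped Classical
open Finset

/-! # Bounds for the value of a state (port of BTS/J2.lean) -/

namespace BTR
open BTP BTS

variable {d lt : ℕ} (a : Pc d lt)

/-- [BTR-J2a] PROOF. `Phi_le_prod`, `bD_le_one`: `Phi ≤ 2`. -/
theorem Fp_le {T Q : Box d} (hT : Ne T) (hD : a.InD T) (D : Finset (Site (d + lt))) :
    a.Fp T Q D ≤ 2 * Real.exp (a.Ps T - a.Ps Q) := by
  have h1 : a.Ph T Q D ≤ 2 := by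
    unfold Pc.Ph
    refine (Phi_le_prod a hT hD (grw T Q) D).trans ?_
    have h2 : ∏ l ∈ grw T Q, a.bD T D l ≤ 1 :=
      Finset.prod_le_one (fun l _ => bD_nonneg a T D l) (fun l _ => bD_le_one a hT D l)
    linarith
  unfold Pc.Fp
  rw [mul_comm]
  exact mul_le_mul_of_nonneg_right h1 (Real.exp_pos _).le

theorem Fp_nonneg (T Q : Box d) (D : Finset (Site (d + lt))) : 0 ≤ a.Fp T Q D := by
  unfold Pc.Fp Pc.Ph
  exact mul_nonneg (Real.exp_pos _).le
    (Phi_nonneg (fun l _ => bD_nonneg a T D l) (eD_nonneg a T D))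

/-- [BTR-J2a] the end. (`grw Q Q = ∅`, `Phi ∅ = 1`) -/
theorem Fp_self (Q : Box d) (D : Finset (Site (d + lt))) : a.Fp Q Q D = 1 := by
  have h : grw Q Q = ∅ := by
    unfold grw
    simp
  unfold Pc.Fp Pc.Ph
  rw [h]
  unfold Phi
  simp

/-- [BTR-J2a] PROOF. `prod_le_Phi`, `th_le_bD`. -/
theorem Fp_ge_open (T Q : Box d) (D : Finset (Site (d + lt))) :
    Real.exp (a.Ps T - a.Ps Q) * ∏ l ∈ grw T Q, a.th T l.1 ≤ a.Fp T Q D := by
  unfold Pc.Fp Pc.Ph
  apply mul_le_mul_of_nonneg_left _ (Real.exp_pos _).le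
  refine le_trans ?_ (prod_le_Phi (fun l _ => bD_nonneg a T D l) (eD_nonneg a T D))
  apply Finset.prod_le_prod
  · intro l _
    exact (th_pos a T l.1).le
  · intro l _
    exact th_le_bD a T D l

/-- [BTR-J2a] PROOF. `Fp_ge_open`; the product over the open directions is at least the product over all (`th ≤ 1`). -/
theorem prod_th_le (T : Box d) (O : Finset (Dir d)) :
    ∏ l : Dir d, a.th T l.1 ≤ ∏ l ∈ O, a.th T l.1 := by
  rw [← Finset.prod_sdiff (Finset.subset_univ O)]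
  have h1 : ∏ l ∈ Finset.univ \ O, a.th T l.1 ≤ 1 := by
    apply Finset.prod_le_one
    · intro l _
      exact (th_pos a T l.1).le
    · intro l _
      have := th_le a T l.1
      linarith
  have h2 : 0 ≤ ∏ l ∈ O, a.th T l.1 := Finset.prod_nonneg (fun l _ => (th_pos a T l.1).le)
  calc _ ≤ 1 * ∏ l ∈ O, a.th T l.1 := mul_le_mul_of_nonneg_right h1 h2
    _ = _ := one_mul _

end BTR
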