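import Pool.Agent.BTR.I2
import Pool.Agent.BTR.V12
import Pool.Agent.BTR.J2a
set_option autoImplicit false

open scoped Classical
open Finset

/-! # Bounds for the value of a state (port of BTS/J2.lean) -/

namespace BTR
open BTP BTS

variable {d lt : ℕ} (a : Pc d lt)

theorem j2b_ka : 2000 ≤ a.ka := by
  have h1 := a.hka
  have h2 : 1 ≤ 4 * (d + lt) := by
    have := a.hd
    omega
  have h3 : (10 : ℝ) ^ 4 ≤ 10 ^ (4 * (d + lt)) := by
    apply pow_le_pow_right₀ (by norm_num)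
    have := a.hd
    omega
  have h4 : (2000 : ℝ) ≤ 10 ^ 4 := by norm_num
  linarith

theorem j2b_Xm_pos (T : Box d) : 0 < a.Xm T := by
  have h := Xm_ge a T
  have h2 := a.hH1
  linarith

theorem j2b_B : 4096 ≤ a.B := by
  have h1 := a.hrho
  have h2 := a.hHB
  have h3 := j2b_ka a
  have h4 := a.hZ
  have h5 : 1 ≤ a.ka ^ 2 := by nlinarith
  nlinarith

theorem j2b_th_ge {T : Box d} (hD : a.InD T) (l : Fin d) : 1 / Real.sqrt a.B ≤ a.th T l := by
  have hB := j2b_B a
  have hB0 : 0 < a.B := by linarith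
  have hz := z_pos a T l
  have hX := j2b_Xm_pos a T
  have hk := j2b_ka a
  unfold Pc.th
  apply le_min
  · have h64 : (64 : ℝ) ≤ Real.sqrt a.B := by
      apply Real.le_sqrt_of_sq_le
      linarith
    exact one_div_le_one_div_of_le (by norm_num) h64
  · have hXB : a.Xm T ≤ a.B := by
      refine ((Xm_spec a T).2 l).trans ?_
      unfold Pc.X xt
      exact max_le (hD.2 l) a.hHB
    have h1 : 1 / Real.sqrt a.B ≤ Real.sqrt ((1 + a.z T l) / a.Xm T) := by
      rw [show (1 : ℝ) / Real.sqrt a.B = Real.sqrt (1 / a.B) by rw [Real.sqrt_div' _ hB0.le, Real.sqrt_one]]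
      apply Real.sqrt_le_sqrt
      apply div_le_div₀ (by linarith) (by linarith) hX hXB
    have h2 : 1 ≤ Real.exp (a.z T l) := Real.one_le_exp hz.le
    have h3 : 0 ≤ Real.sqrt ((1 + a.z T l) / a.Xm T) := Real.sqrt_nonneg _
    calc 1 / Real.sqrt a.B ≤ Real.sqrt ((1 + a.z T l) / a.Xm T) := h1
      _ = 1 * Real.sqrt ((1 + a.z T l) / a.Xm T) * 1 := by ring
      _ ≤ a.ka * Real.sqrt ((1 + a.z T l) / a.Xm T) * Real.exp (a.z T l) := by
        apply mul_le_mul _ h2 (by norm_num) (by positivity)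
        apply mul_le_mul_of_nonneg_right (by linarith) h3

/-- [BTR-J2b] PROOF. `θ_l ≥ B^{-1/2}`: `1/64 ≥ 1/√B` (`B ≥ H₁ ≥ 4096 ka²`) and `ka √((1+z)/Xm) e^z ≥ 1/√B` (`Xm ≤ X_l ≤ B`, since `sd ≤ B` and `H₁ ≤ B`); `2d` factors. -/
theorem prod_th_ge {T : Box d} (hD : a.InD T) : 1 / a.B ^ d ≤ ∏ l : Dir d, a.th T l.1 := by
  have hB := j2b_B a
  have hB0 : 0 < a.B := by linarith
  have h1 : ∏ l : Dir d, (1 / Real.sqrt a.B) ≤ ∏ l : Dir d, a.th T l.1 := by
    apply Finset.prod_le_prod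
    · intro l _
      positivity
    · intro l _
      exact j2b_th_ge a hD l.1
  refine le_trans (le_of_eq ?_) h1
  rw [Finset.prod_const, Finset.card_univ, Fintype.card_prod, Fintype.card_fin, Fintype.card_bool]
  rw [mul_comm d 2, pow_mul, one_div_pow, one_div_pow, Real.sq_sqrt hB0.le]

/-- [BTR-J2b] expensive boxes. PROOF. `Fp_ge_open`, `prod_th_le`, `prod_th_ge`: `Fp ≥ exp(d log B) / B^d = 1`. -/
theorem one_le_Fp {T Q : Box d} (hD : a.InD T) (D : Finset (Site (d + lt)))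
    (h : a.Ps Q + d * Real.log a.B ≤ a.Ps T) : 1 ≤ a.Fp T Q D := by
  have hB := j2b_B a
  have hB0 : 0 < a.B := by linarith
  refine le_trans ?_ (Fp_ge_open a T Q D)
  have h1 : 1 / a.B ^ d ≤ ∏ l ∈ grw T Q, a.th T l.1 :=
    (prod_th_ge a hD).trans (prod_th_le a T (grw T Q))
  have h2 : a.B ^ d ≤ Real.exp (a.Ps T - a.Ps Q) := by
    rw [show a.B ^ d = Real.exp (d * Real.log a.B) by
      rw [mul_comm, Real.exp_mul, Real.exp_log hB0, Real.rpow_natCast]]
    apply Real.exp_le_exp.2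
    linarith
  have hBd : 0 < a.B ^ d := by positivity
  calc (1 : ℝ) = a.B ^ d * (1 / a.B ^ d) := by field_simp
    _ ≤ _ := mul_le_mul h2 h1 (by positivity) (Real.exp_pos _).le

theorem j2b_th_sq {T : Box d} (hD : a.InD T) (l : Fin d) :
    a.ka ^ 2 * (1 + a.z T l) / a.Xm T ≤ a.th T l * a.th T l := by
  have hX := j2b_Xm_pos a T
  have hz := z_pos a T l
  have hk := j2b_ka a
  have hzZ : a.z T l ≤ a.Z := (z_le_zf a T l).trans (hD.1 l)
  have hXm := Xm_ge a T
  rcases le_total (1 / 64) (a.ka * Real.sqrt ((1 + a.z T l) / a.Xm T) * Real.exp (a.z T l)) with h | h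
  · have e : a.th T l = 1 / 64 := min_eq_left h
    rw [e, div_le_iff₀ hX]
    have h1 := a.hrho
    have h2 : 0 ≤ a.ka ^ 2 := by positivity
    have h3 : a.ka ^ 2 * (1 + a.z T l) ≤ a.ka ^ 2 * (1 + a.Z) :=
      mul_le_mul_of_nonneg_left (by linarith) h2
    linarith
  · have e : a.th T l = a.ka * Real.sqrt ((1 + a.z T l) / a.Xm T) * Real.exp (a.z T l) :=
      min_eq_right h
    rw [e]
    have h0 : 0 ≤ (1 + a.z T l) / a.Xm T := by positivity
    have h1 := Real.mul_self_sqrt h0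
    have h2 : 1 ≤ Real.exp (a.z T l) := Real.one_le_exp hz.le
    have h3 : 1 ≤ Real.exp (a.z T l) * Real.exp (a.z T l) := by nlinarith
    calc a.ka ^ 2 * (1 + a.z T l) / a.Xm T = a.ka ^ 2 * ((1 + a.z T l) / a.Xm T) * 1 := by ring
      _ ≤ a.ka ^ 2 * ((1 + a.z T l) / a.Xm T) * (Real.exp (a.z T l) * Real.exp (a.z T l)) := by
        apply mul_le_mul_of_nonneg_left h3 (by positivity)
      _ = a.ka ^ 2 * (Real.sqrt ((1 + a.z T l) / a.Xm T) * Real.sqrt ((1 + a.z T l) / a.Xm T)) *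
          (Real.exp (a.z T l) * Real.exp (a.z T l)) := by rw [h1]
      _ = _ := by ring

/-- [BTR-J2b] the values of the blocked directions.
PROOF. `θ_l² ≥ ka² (1+z_l)/Xm` (if `θ_l = 1/64`: `1/4096 ≥ ka² (1+Z)/H₁` by `hrho`); each axis has two directions. -/
theorem prod_th_ge' {T : Box d} (hD : a.InD T) :
    ∏ l : Fin d, (a.ka ^ 2 * (1 + a.z T l) / a.Xm T) ≤ ∏ l : Dir d, a.th T l.1 := by
  have e : ∏ l : Dir d, a.th T l.1 = ∏ l : Fin d, (a.th T l * a.th T l) := by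
    rw [Fintype.prod_prod_type]
    apply Finset.prod_congr rfl
    intro l _
    rw [Fintype.prod_bool]
  rw [e]
  apply Finset.prod_le_prod
  · intro l _
    have hX := j2b_Xm_pos a T
    have hz := z_pos a T l
    positivity
  · intro l _
    exact j2b_th_sq a hD l

end BTR
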