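import Pool.Agent.BTR.I2
import Pool.Agent.BTR.V12
import Pool.Agent.BTR.J2a
import Pool.Agent.BTR.J2b
set_option autoImplicit false

open scoped Classical
open Finset

/-! # Bounds for the value of a state (port of BTS/J2.lean) -/

namespace BTR
open BTP BTS

variable {d lt : ℕ} (a : Pc d lt)

/-- [BTR-J2c] the value after a step from a stuck state: all counts are `0`.
PROOF. `bD T D l = th T l.1` (`bv q x θ 0 0 = θ`), `eD T D = 0`, so `Phi O (bD T D) (eD T D) = ∏_O θ`. `many_steps` for `T → T'`; `Fp T' Q D = exp(Ps T' - Ps Q) Ph T' Q D`. -/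
theorem Fp_stuck {T T' Q : Box d} {D : Finset (Site (d + lt))} (hT : Ne T) (hTT : T ≤ T')
    (hTQ : T' ≤ Q) (hQ : a.InD Q) (hY : Ys T' ≤ Ys T + (2 * a.h + 2))
    (hP : a.Ps T + (2 * a.h + 2) * a.gam < 2 * (d * a.A * lamk (d - 1) (lt + 1)))
    (h1 : ∀ j, n1 lt T D j = 0) (h2 : ∀ j, n2 lt T D j = 0) (h3 : ∀ i j, n3 lt T D i j = 0) :
    a.Fp T' Q D ≤ 2 * Real.exp (a.Ps T' - a.Ps Q) * ∏ l ∈ grw T Q \ grw T T', a.th T l.1 := by
  have hm := many_steps a hT hTT hTQ hQ hY hP (Finset.Subset.refl D)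
  have hb : ∀ l, a.bD T D l = a.th T l.1 := by
    intro l
    unfold Pc.bD Pc.bT bv
    simp only [h1, h2, Nat.cast_zero, mul_zero, neg_zero, Real.exp_zero, sub_self, zero_mul,
      zero_add, one_mul]
  have he : ∀ i j, a.eD T D i j = 0 := by
    intro i j
    unfold Pc.eD Pc.eT
    simp only [h3, Nat.cast_zero, mul_zero, zero_mul]
  have hPhi : Phi (grw T Q \ grw T T') (a.bD T D) (a.eD T D) =
      ∏ l ∈ grw T Q \ grw T T', a.th T l.1 := by
    unfold Phi
    rw [Finset.sum_eq_zero, add_zero]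
    · exact Finset.prod_congr rfl fun l _ => hb l
    · intro i _
      refine Finset.sum_eq_zero fun j _ => ?_
      rw [he, zero_mul]
  rw [hPhi] at hm
  unfold Pc.Fp Pc.Ph
  have hE := (Real.exp_pos (a.Ps T' - a.Ps Q)).le
  calc Real.exp (a.Ps T' - a.Ps Q) * Phi (grw T' Q) (a.bD T' D) (a.eD T' D)
      ≤ Real.exp (a.Ps T' - a.Ps Q) * (2 * ∏ l ∈ grw T Q \ grw T T', a.th T l.1) :=
        mul_le_mul_of_nonneg_left hm hE
    _ = _ := by ring

end BTR
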