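import Pool.Agent.BTR.S10
import Pool.Agent.BTR.J2
import Pool.Agent.BTP.C1
import Pool.Agent.BTS.S11
set_option autoImplicit false

open scoped Classical
open Finset

/-! # The sums over the small boxes in a stuck state (port of BTS/S11, S12a, S12b, S12c; new: growth in one axis) -/

namespace BTR
open BTP BTS

variable {d lt : ℕ} (a : Pc d lt)

theorem s11a_lo (T : Box d) (i : Fin d) (b : Bool) : emb lt T (Fin.castAdd lt i, b) = T (i, b) := by
  unfold emb
  simp only [Fin.addCases_left]

theorem s11a_hi (T : Box d) (i : Fin lt) (b : Bool) :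
    emb lt T (Fin.natAdd d i, b) = if b then 1 else -1 := by
  unfold emb
  simp only [Fin.addCases_right]

/-- the general count: growth in the axes of `G` -/
theorem s11a_gen {T : Box d} {W : Box (d + lt)} (hT : Ne T) (G : Finset (Fin d)) (σ : Fin d → Bool)
    (y : ℕ) :
    (((sub W).filter (fun S => near (emb lt T) S ∧ Ys S = y ∧
        ∀ i ∈ G, T (i, σ i) < pr S (i, σ i))).card : ℝ) ≤
      (2 * (y : ℝ) + 7) ^ (2 * (d + lt)) * ∏ m ∈ Gᶜ, a.X T m := by
  set τ : Fin (d + lt) → Bool := fun l => Fin.addCases σ (fun _ => true) l with hτ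
  have hτl : ∀ i : Fin d, τ (Fin.castAdd lt i) = σ i := fun i => by
    rw [hτ]
    simp only [Fin.addCases_left]
  have hτr : ∀ i : Fin lt, τ (Fin.natAdd d i) = true := fun i => by
    rw [hτ]
    simp only [Fin.addCases_right]
  set lw : Fin (d + lt) → ℤ := fun l =>
    Fin.addCases (fun i => if i ∈ G then T (i, σ i) + 1 else -T (i, !σ i) - 2) (fun _ => -1) l
    with hlw
  have hlwl : ∀ i : Fin d, lw (Fin.castAdd lt i) =
      if i ∈ G then T (i, σ i) + 1 else -T (i, !σ i) - 2 := fun i => by
    rw [hlw]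
    simp only [Fin.addCases_left]
  have hlwr : ∀ i : Fin lt, lw (Fin.natAdd d i) = -1 := fun i => by
    rw [hlw]
    simp only [Fin.addCases_right]
  set P : Fin (d + lt) → Finset (ℤ × ℤ) := fun l =>
    Finset.Icc (lw l) (emb lt T (l, τ l) + 2 + y) ×ˢ Finset.Icc 0 (y : ℤ) with hP
  set F : Box (d + lt) → (Fin (d + lt) → ℤ × ℤ) :=
    fun S l => (S (l, τ l), S (l, τ l) + S (l, !τ l)) with hF
  have hFi : Function.Injective F := by
    intro S S' h
    funext ⟨l, c⟩
    have h1 := congrFun h l
    simp only [hF, Prod.mk.injEq] at h1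
    by_cases hc : c = τ l
    · rw [hc]
      exact h1.1
    · have hc' : c = !τ l := by
        cases c <;> cases hs : τ l <;> simp_all
      rw [hc']
      linarith [h1.1, h1.2]
  have h1 : ((sub W).filter (fun S => near (emb lt T) S ∧ Ys S = y ∧
      ∀ i ∈ G, T (i, σ i) < pr S (i, σ i))).card ≤ (Fintype.piFinset P).card := by
    apply Finset.card_le_card_of_injOn F ?_ hFi.injOn
    intro S hS
    rw [Finset.mem_coe, Finset.mem_filter, BTP.mem_sub] at hS
    obtain ⟨⟨hS1, hS2⟩, hn, hy, hj⟩ := hS
    rw [Finset.mem_coe, Fintype.mem_piFinset]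
    have hlow : ∀ l, lw l ≤ S (l, τ l) := by
      intro l
      refine Fin.addCases (motive := fun l => lw l ≤ S (l, τ l)) (fun i => ?_) (fun i => ?_) l
      · obtain ⟨c1, c2, c3, c4⟩ := s11_aux hS1 hn hy (Fin.castAdd lt i) (σ i)
        rw [s11a_lo] at c3
        rw [hlwl, hτl]
        split_ifs with h
        · have h2 : T (i, σ i) < S (Fin.castAdd lt i, σ i) := hj i h
          omega
        · exact c3
      · obtain ⟨c1, c2, c3, c4⟩ := s11_aux hS1 hn hy (Fin.natAdd d i) true
        rw [s11a_hi] at c3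
        rw [hlwr, hτr]
        simp at c3
        omega
    intro l
    obtain ⟨c1, c2, c3, c4⟩ := s11_aux hS1 hn hy l (τ l)
    rw [hP, Finset.mem_product, Finset.mem_Icc, Finset.mem_Icc]
    exact ⟨⟨hlow l, c4⟩, c1, c2⟩
  have hX : ∀ l, 1 ≤ a.X T l := fun l => by linarith [X_ge a T l, a.hH1]
  have hy0 : (0 : ℝ) ≤ y := Nat.cast_nonneg y
  have e1 : ((Finset.Icc (0 : ℤ) (y : ℤ)).card : ℝ) = (y : ℝ) + 1 := by
    rw [Int.card_Icc]
    have : ((y : ℤ) + 1 - 0).toNat = y + 1 := by omega
    rw [this]
    push_cast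
    ring
  have h3 : ∀ i : Fin d, ((P (Fin.castAdd lt i)).card : ℝ) ≤
      (2 * (y : ℝ) + 7) ^ 2 * (if i ∈ G then 1 else a.X T i) := by
    intro i
    rw [hP]
    simp only
    rw [Finset.card_product, Nat.cast_mul, e1, Int.card_Icc, hlwl, hτl, s11a_lo]
    by_cases h : i ∈ G
    · rw [if_pos h, if_pos h]
      have e2 : (T (i, σ i) + 2 + y + 1 - (T (i, σ i) + 1)).toNat = y + 2 := by
        omega
      rw [e2]
      push_cast
      nlinarith
    · rw [if_neg h, if_neg h]
      have e3 := sd_cast hT i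
      have e2 : (((T (i, σ i) + 2 + y + 1 - (-T (i, !σ i) - 2)).toNat : ℕ) : ℝ) =
          (sd T i : ℝ) + y + 4 := by
        have e4 : (((T (i, σ i) + 2 + y + 1 - (-T (i, !σ i) - 2)).toNat : ℕ) : ℤ) =
            (sd T i : ℤ) + y + 4 := by
          have e5 : T (i, σ i) + T (i, !σ i) = T (i, true) + T (i, false) := by
            cases σ i
            · simp only [Bool.not_false]
              ring
            · simp only [Bool.not_true]
          have e6 : T (i, σ i) + 2 + y + 1 - (-T (i, !σ i) - 2) = (sd T i : ℤ) + y + 4 := by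
            rw [e3]
            linarith
          rw [e6, Int.toNat_of_nonneg (by positivity)]
        exact_mod_cast e4
      rw [e2]
      have e7 := X_ge_sd a T i
      have e8 := hX i
      have e9 : (sd T i : ℝ) + y + 4 ≤ (2 * (y : ℝ) + 7) * a.X T i := by nlinarith
      calc ((sd T i : ℝ) + y + 4) * ((y : ℝ) + 1)
          ≤ ((2 * (y : ℝ) + 7) * a.X T i) * (2 * (y : ℝ) + 7) :=
            mul_le_mul e9 (by linarith) (by positivity) (by positivity)
        _ = _ := by ring
  have h4 : ∀ i : Fin lt, ((P (Fin.natAdd d i)).card : ℝ) ≤ (2 * (y : ℝ) + 7) ^ 2 := by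
    intro i
    rw [hP]
    simp only
    rw [Finset.card_product, Nat.cast_mul, e1, Int.card_Icc, hlwr, hτr, s11a_hi]
    have e2 : (((if true then 1 else -1 : ℤ) + 2 + y + 1 - (-1)).toNat : ℕ) = y + 5 := by
      simp
      omega
    rw [e2]
    push_cast
    nlinarith
  calc (((sub W).filter (fun S => near (emb lt T) S ∧ Ys S = y ∧
      ∀ i ∈ G, T (i, σ i) < pr S (i, σ i))).card : ℝ) ≤ ((Fintype.piFinset P).card : ℝ) := by
        exact_mod_cast h1
    _ = ∏ l, ((P l).card : ℝ) := by
        rw [Fintype.card_piFinset]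
        push_cast
        rfl
    _ = (∏ i : Fin d, ((P (Fin.castAdd lt i)).card : ℝ)) *
          ∏ i : Fin lt, ((P (Fin.natAdd d i)).card : ℝ) := Fin.prod_univ_add _
    _ ≤ (∏ i : Fin d, ((2 * (y : ℝ) + 7) ^ 2 * (if i ∈ G then 1 else a.X T i))) *
          ∏ _i : Fin lt, (2 * (y : ℝ) + 7) ^ 2 := by
        refine mul_le_mul (Finset.prod_le_prod (fun l _ => Nat.cast_nonneg _) fun l _ => h3 l)
          (Finset.prod_le_prod (fun l _ => Nat.cast_nonneg _) fun l _ => h4 l)
          (Finset.prod_nonneg fun l _ => Nat.cast_nonneg _) ?_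
        refine Finset.prod_nonneg fun i _ => ?_
        have := hX i
        split_ifs <;> positivity
    _ = _ := by
        rw [Finset.prod_mul_distrib, Finset.prod_const, Finset.prod_const, Finset.card_univ,
          Finset.card_univ, Fintype.card_fin, Fintype.card_fin, ← pow_mul, ← pow_mul, mul_add,
          pow_add]
        have e5 : ∏ i : Fin d, (if i ∈ G then 1 else a.X T i) = ∏ m ∈ Gᶜ, a.X T m := by
          rw [← Finset.prod_subset (Finset.subset_univ Gᶜ)]
          · refine Finset.prod_congr rfl fun i hi => ?_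
            rw [if_neg (Finset.mem_compl.1 hi)]
          · intro i _ hi
            rw [if_pos (by simpa using hi)]
        rw [e5]
        ring

/-- [BTR-S11] counting: boxes of `Z^(d+lt)` near the foot of `T`, of extent `y`, growing in the direction `j` (cf. BTS/S11.lean).
PROOF. The map `S ↦ (i ↦ (S (i,true), S (i,true) + S (i,false)))` (`i : Fin (d + lt)`) is injective. The second coordinate is in `[0, y]`. In the axis `j.1`: `T j < S j ≤ T j + y + 2` (the gap is at most `2`): `y + 2` values of `S j`, which determines `S (.., true)` together with the second coordinate.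
In the other long axes `S (i, true)` lies in `[- T(i,false) - 2, T(i,true) + 2 + y]`: at most `sd T i + y + 4 ≤ (2y+7) X_i` values (`X ≥ 100`). In the thick axes the foot has the range `{1}`: `S (i,true) ∈ [-1, 3 + y]`: `y + 5` values. Total `≤ (2y+7)^{2(d+lt)} ∏_{m ≠ j.1} X_m`. -/
theorem card_near_one {T : Box d} {W : Box (d + lt)} (hT : Ne T) (j : Dir d) (y : ℕ) :
    (((sub W).filter (fun S => near (emb lt T) S ∧ Ys S = y ∧ T j < pr S j)).card : ℝ) ≤
      (2 * (y : ℝ) + 7) ^ (2 * (d + lt)) * ∏ m ∈ Finset.univ.erase j.1, a.X T m := by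
  have h := s11a_gen a (W := W) hT {j.1} (fun _ => j.2) y
  have e : ({j.1} : Finset (Fin d))ᶜ = Finset.univ.erase j.1 := by
    ext m
    simp
  rw [e] at h
  refine le_trans ?_ h
  have h2 := Finset.card_le_card (s := (sub W).filter (fun S => near (emb lt T) S ∧ Ys S = y ∧
    T j < pr S j)) (t := (sub W).filter (fun S => near (emb lt T) S ∧ Ys S = y ∧
    ∀ i ∈ ({j.1} : Finset (Fin d)), T (i, j.2) < pr S (i, j.2))) ?_
  · exact_mod_cast h2
  · intro S hS
    rw [Finset.mem_filter] at hS ⊢
    refine ⟨hS.1, hS.2.1, hS.2.2.1, ?_⟩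
    intro i hi
    rw [Finset.mem_singleton] at hi
    subst hi
    exact hS.2.2.2

/-- [BTR-S11] the same with two directions of different axes -/
theorem card_near_two {T : Box d} {W : Box (d + lt)} (hT : Ne T) {j j' : Dir d}
    (hj : j.1 ≠ j'.1) (y : ℕ) :
    (((sub W).filter (fun S => near (emb lt T) S ∧ Ys S = y ∧ T j < pr S j ∧
        T j' < pr S j')).card : ℝ) ≤
      (2 * (y : ℝ) + 7) ^ (2 * (d + lt)) *
        ∏ m ∈ (Finset.univ.erase j.1).erase j'.1, a.X T m := by
  have h := s11a_gen a (W := W) hT {j.1, j'.1} (fun i => if i = j.1 then j.2 else j'.2) y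
  have e : ({j.1, j'.1} : Finset (Fin d))ᶜ = (Finset.univ.erase j.1).erase j'.1 := by
    ext m
    simp only [Finset.mem_compl, Finset.mem_insert, Finset.mem_singleton, Finset.mem_erase,
      Finset.mem_univ, and_true]
    tauto
  rw [e] at h
  refine le_trans ?_ h
  have h2 := Finset.card_le_card (s := (sub W).filter (fun S => near (emb lt T) S ∧ Ys S = y ∧
    T j < pr S j ∧ T j' < pr S j')) (t := (sub W).filter (fun S => near (emb lt T) S ∧ Ys S = y ∧
    ∀ i ∈ ({j.1, j'.1} : Finset (Fin d)), T (i, if i = j.1 then j.2 else j'.2) <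
      pr S (i, if i = j.1 then j.2 else j'.2))) ?_
  · exact_mod_cast h2
  · intro S hS
    rw [Finset.mem_filter] at hS ⊢
    refine ⟨hS.1, hS.2.1, hS.2.2.1, ?_⟩
    intro i hi
    rw [Finset.mem_insert, Finset.mem_singleton] at hi
    rcases hi with hi | hi
    · rw [if_pos hi, hi]
      exact hS.2.2.2.1
    · rw [if_neg (by rw [hi]; exact Ne.symm hj), hi]
      exact hS.2.2.2.2

end BTR
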