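import Pool.Agent.BTR.S10
import Pool.Agent.BTR.J2
import Pool.Agent.BTP.C1
import Pool.Agent.BTR.S11a
set_option autoImplicit false

open scoped Classical
open Finset

/-! # The sums over the small boxes in a stuck state (port of BTS/S11, S12a, S12b, S12c; new: growth in one axis) -/

namespace BTR
open BTP BTS

variable {d lt : ℕ} (a : Pc d lt)

theorem s11b_m1 (y : ℕ) : 1 ≤ ms y := by unfold ms; omega

theorem s11b_my (y : ℕ) : y ≤ 2 * (ms y - 1) := by unfold ms; omega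

/-- [BTR-S12a] the small boxes of extent `y`, directions `j`, `j'` (cf. BTS/S12a.lean).
PROOF. `card_near_two`, `grow_two`. `p^m e^{y g(zm)} ≤ p (p e^{2g(zm)})^{m-1}` with `m = ms y`, `y ≤ 2(m-1)`, `g ≥ 0`. `p_edge_le`. -/
theorem sum_y2 {T : Box d} {W : Box (d + lt)} (hT : Ne T) {j j' : Dir d} (hj : j.1 ≠ j'.1)
    (y : ℕ) :
    ∑ S ∈ (sub W).filter (fun S => near (emb lt T) S ∧ Ys S = y ∧ T j < pr S j ∧ T j' < pr S j'),
        (((y : ℝ) + 1) ^ (d + lt) * a.p) ^ ms y * Real.exp (a.Ps (T ⊔ pr S) - a.Ps T) ≤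
      (2 * (y : ℝ) + 7) ^ (2 * (d + lt)) * ((y : ℝ) + 1) ^ ((d + lt) * ms y) *
        (a.p * Real.exp (gk (lt + 1) (a.zm T)) ^ 2) ^ (ms y - 1) *
        (Real.sqrt ((1 + a.z T j.1) * (1 + a.z T j'.1)) / a.Xm T) := by
  set m : ℕ := ms y with hm
  have hm1 : 1 ≤ m := by rw [hm]; exact s11b_m1 y
  have hmy : y ≤ 2 * (m - 1) := by rw [hm]; exact s11b_my y
  have hp := p_nonneg a
  have hg : 0 ≤ gk (lt + 1) (a.zm T) := gk_nonneg (k := lt + 1) (zm_pos a T)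
  have hy0 : (0 : ℝ) ≤ y := Nat.cast_nonneg y
  have hy1 : (0 : ℝ) ≤ (y : ℝ) + 1 := by linarith
  -- the bound for one box
  have hone : ∀ S ∈ (sub W).filter (fun S => near (emb lt T) S ∧ Ys S = y ∧ T j < pr S j ∧
        T j' < pr S j'),
      (((y : ℝ) + 1) ^ (d + lt) * a.p) ^ m * Real.exp (a.Ps (T ⊔ pr S) - a.Ps T) ≤
      ((y : ℝ) + 1) ^ ((d + lt) * m) * (a.p * Real.exp (gk (lt + 1) (a.zm T)) ^ 2) ^ (m - 1) *
        (a.p * (Real.exp (gk (lt + 1) (a.z T j.1)) * Real.exp (gk (lt + 1) (a.z T j'.1)))) := by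
    intro S hS
    rw [Finset.mem_filter] at hS
    obtain ⟨hSs, hn, hY, h1, h2⟩ := hS
    have hNe := (mem_sub.1 hSs).1
    have h3 := grow_two a hT hNe hn hY hj h1 h2
    have h4 : Real.exp (a.Ps (T ⊔ pr S) - a.Ps T) ≤
        Real.exp (gk (lt + 1) (a.z T j.1)) * Real.exp (gk (lt + 1) (a.z T j'.1)) *
          Real.exp (gk (lt + 1) (a.zm T)) ^ (2 * (m - 1)) := by
      rw [← Real.exp_add, ← Real.exp_nat_mul, ← Real.exp_add, Real.exp_le_exp]
      have h5 : (y : ℝ) * gk (lt + 1) (a.zm T) ≤ ((2 * (m - 1) : ℕ) : ℝ) * gk (lt + 1) (a.zm T) :=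
        mul_le_mul_of_nonneg_right (by exact_mod_cast hmy) hg
      linarith
    have h5 : (((y : ℝ) + 1) ^ (d + lt) * a.p) ^ m =
        ((y : ℝ) + 1) ^ ((d + lt) * m) * (a.p ^ (m - 1) * a.p) := by
      rw [mul_pow, ← pow_mul, ← pow_succ, Nat.sub_add_cancel hm1]
    calc (((y : ℝ) + 1) ^ (d + lt) * a.p) ^ m * Real.exp (a.Ps (T ⊔ pr S) - a.Ps T)
        ≤ (((y : ℝ) + 1) ^ (d + lt) * a.p) ^ m * (Real.exp (gk (lt + 1) (a.z T j.1)) *
          Real.exp (gk (lt + 1) (a.z T j'.1)) *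
          Real.exp (gk (lt + 1) (a.zm T)) ^ (2 * (m - 1))) :=
          mul_le_mul_of_nonneg_left h4 (pow_nonneg (mul_nonneg (pow_nonneg hy1 _) hp) _)
      _ = _ := by
          rw [h5, mul_pow a.p, ← pow_mul]
          ring
  refine (Finset.sum_le_sum hone).trans ?_
  rw [Finset.sum_const, nsmul_eq_mul]
  have hc := card_near_two a (W := W) hT hj y
  have he := p_edge_le (lt := lt) a (T := T) hj
  have hnn : 0 ≤ ((y : ℝ) + 1) ^ ((d + lt) * m) *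
      (a.p * Real.exp (gk (lt + 1) (a.zm T)) ^ 2) ^ (m - 1) :=
    mul_nonneg (pow_nonneg hy1 _) (pow_nonneg (mul_nonneg hp (sq_nonneg _)) _)
  have hE : 0 ≤ Real.exp (gk (lt + 1) (a.z T j.1)) * Real.exp (gk (lt + 1) (a.z T j'.1)) :=
    mul_nonneg (Real.exp_pos _).le (Real.exp_pos _).le
  have h27 : (0 : ℝ) ≤ (2 * (y : ℝ) + 7) ^ (2 * (d + lt)) := pow_nonneg (by linarith) _
  calc _ ≤ ((2 * (y : ℝ) + 7) ^ (2 * (d + lt)) *
        ∏ l ∈ (Finset.univ.erase j.1).erase j'.1, a.X T l) *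
        (((y : ℝ) + 1) ^ ((d + lt) * m) * (a.p * Real.exp (gk (lt + 1) (a.zm T)) ^ 2) ^ (m - 1) *
        (a.p * (Real.exp (gk (lt + 1) (a.z T j.1)) * Real.exp (gk (lt + 1) (a.z T j'.1))))) :=
        mul_le_mul_of_nonneg_right hc (mul_nonneg hnn (mul_nonneg hp hE))
    _ = ((2 * (y : ℝ) + 7) ^ (2 * (d + lt)) * ((y : ℝ) + 1) ^ ((d + lt) * m) *
        (a.p * Real.exp (gk (lt + 1) (a.zm T)) ^ 2) ^ (m - 1)) *
        (a.p * (∏ l ∈ (Finset.univ.erase j.1).erase j'.1, a.X T l) *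
        (Real.exp (gk (lt + 1) (a.z T j.1)) * Real.exp (gk (lt + 1) (a.z T j'.1)))) := by ring
    _ ≤ _ := by
        apply mul_le_mul_of_nonneg_left he
        rw [mul_assoc]
        exact mul_nonneg h27 hnn

/-- [BTR-S12a] the small boxes of extent `y` which grow `T` only in the axis of `j`, and in direction `j`.
PROOF. `card_near_one`. If `S` does not grow in the direction `opp j`: `grow_one`, `p^m e^{(y+2) g} ≤ (p e^{2g})^m` (`y + 2 ≤ 2m`, `m = ms y`, `g = g(z_j)`). If it also grows in direction `opp j`: `grow_opp`, `p^m e^{y g} ≤ p^m e^{(y+2)g}` too (`g ≥ 0`). Then `(p e^{2g})^m ∏_{m'≠j.1} X ≤ (p e^{2g})^{m-1} (1 + z_j)` (`p_one_le`) and `p e^{2g} ≤ (1+z_j)/Xm` (`p_one_le`, `prod_X_ge`). -/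
theorem sum_y1 {T : Box d} {W : Box (d + lt)} (hT : Ne T) (j : Dir d) {y : ℕ} (hy : 1 ≤ y) :
    ∑ S ∈ (sub W).filter (fun S => near (emb lt T) S ∧ Ys S = y ∧ T j < pr S j ∧
          ∀ m : Dir d, m.1 ≠ j.1 → pr S m ≤ T m),
        (((y : ℝ) + 1) ^ (d + lt) * a.p) ^ ms y * Real.exp (a.Ps (T ⊔ pr S) - a.Ps T) ≤
      (2 * (y : ℝ) + 7) ^ (2 * (d + lt)) * ((y : ℝ) + 1) ^ ((d + lt) * ms y) *
        ((1 + a.z T j.1) * ((1 + a.z T j.1) / a.Xm T) ^ (ms y - 1)) := by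
  set m : ℕ := ms y with hm
  have hm1 : 1 ≤ m := by rw [hm]; exact s11b_m1 y
  have hmy : y ≤ 2 * (m - 1) := by rw [hm]; exact s11b_my y
  have hp := p_nonneg a
  have hg : 0 ≤ gk (lt + 1) (a.z T j.1) := gk_nonneg (k := lt + 1) (z_pos a T j.1)
  have hy0 : (0 : ℝ) ≤ y := Nat.cast_nonneg y
  have hy1 : (0 : ℝ) ≤ (y : ℝ) + 1 := by linarith
  set E : ℝ := a.p * Real.exp (gk (lt + 1) (a.z T j.1)) ^ 2 with hE
  have hE0 : 0 ≤ E := mul_nonneg hp (sq_nonneg _)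
  set P : ℝ := ∏ l ∈ Finset.univ.erase j.1, a.X T l with hP
  have hX : 0 < a.Xm T := by linarith [Xm_ge a T, a.hH1]
  have hPX : a.Xm T ≤ P := prod_X_ge a T j.1
  have hP0 : 0 < P := hX.trans_le hPX
  have hEP : E * P ≤ 1 + a.z T j.1 := p_one_le (lt := lt) a T j.1
  have hz : 0 < a.z T j.1 := z_pos a T j.1
  have hEle : E ≤ (1 + a.z T j.1) / a.Xm T := by
    rw [le_div_iff₀ hX]
    exact (mul_le_mul_of_nonneg_left hPX hE0).trans hEP
  have hone : ∀ S ∈ (sub W).filter (fun S => near (emb lt T) S ∧ Ys S = y ∧ T j < pr S j ∧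
          ∀ m : Dir d, m.1 ≠ j.1 → pr S m ≤ T m),
      (((y : ℝ) + 1) ^ (d + lt) * a.p) ^ m * Real.exp (a.Ps (T ⊔ pr S) - a.Ps T) ≤
      ((y : ℝ) + 1) ^ ((d + lt) * m) * E ^ m := by
    intro S hS
    rw [Finset.mem_filter] at hS
    obtain ⟨hSs, hn, hY, h1, h2⟩ := hS
    have hNe := (mem_sub.1 hSs).1
    have h3 := grow_one a hT hNe hn hY (i := j.1) (fun j' hj' => by
      by_contra hc
      exact absurd hj' (not_lt.2 (h2 j' hc)))
    have h4 : Real.exp (a.Ps (T ⊔ pr S) - a.Ps T) ≤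
        Real.exp (gk (lt + 1) (a.z T j.1)) ^ (2 * m) := by
      rw [← Real.exp_nat_mul, Real.exp_le_exp]
      have h5 : ((y : ℝ) + 2) * gk (lt + 1) (a.z T j.1) ≤
          ((2 * m : ℕ) : ℝ) * gk (lt + 1) (a.z T j.1) := by
        refine mul_le_mul_of_nonneg_right ?_ hg
        have : y + 2 ≤ 2 * m := by omega
        exact_mod_cast this
      linarith
    calc (((y : ℝ) + 1) ^ (d + lt) * a.p) ^ m * Real.exp (a.Ps (T ⊔ pr S) - a.Ps T)
        ≤ (((y : ℝ) + 1) ^ (d + lt) * a.p) ^ m *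
            Real.exp (gk (lt + 1) (a.z T j.1)) ^ (2 * m) :=
          mul_le_mul_of_nonneg_left h4 (pow_nonneg (mul_nonneg (pow_nonneg hy1 _) hp) _)
      _ = _ := by
          rw [hE, mul_pow, mul_pow, ← pow_mul, ← pow_mul]
          ring
  refine (Finset.sum_le_sum hone).trans ?_
  rw [Finset.sum_const, nsmul_eq_mul]
  have hc : ((((sub W).filter (fun S => near (emb lt T) S ∧ Ys S = y ∧ T j < pr S j ∧
          ∀ m : Dir d, m.1 ≠ j.1 → pr S m ≤ T m)).card : ℕ) : ℝ) ≤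
      (2 * (y : ℝ) + 7) ^ (2 * (d + lt)) * P := by
    refine le_trans ?_ (card_near_one a (W := W) hT j y)
    have : ((sub W).filter (fun S => near (emb lt T) S ∧ Ys S = y ∧ T j < pr S j ∧
          ∀ m : Dir d, m.1 ≠ j.1 → pr S m ≤ T m)).card ≤
        ((sub W).filter (fun S => near (emb lt T) S ∧ Ys S = y ∧ T j < pr S j)).card := by
      apply Finset.card_le_card
      intro S hS
      rw [Finset.mem_filter] at hS ⊢
      exact ⟨hS.1, hS.2.1, hS.2.2.1, hS.2.2.2.1⟩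
    exact_mod_cast this
  have h27 : (0 : ℝ) ≤ (2 * (y : ℝ) + 7) ^ (2 * (d + lt)) := pow_nonneg (by linarith) _
  have hyp : (0 : ℝ) ≤ ((y : ℝ) + 1) ^ ((d + lt) * m) := pow_nonneg hy1 _
  have hEm : E ^ m = E ^ (m - 1) * E := by
    rw [← pow_succ, Nat.sub_add_cancel hm1]
  calc _ ≤ ((2 * (y : ℝ) + 7) ^ (2 * (d + lt)) * P) * (((y : ℝ) + 1) ^ ((d + lt) * m) * E ^ m) :=
        mul_le_mul_of_nonneg_right hc (mul_nonneg hyp (pow_nonneg hE0 _))
    _ = (2 * (y : ℝ) + 7) ^ (2 * (d + lt)) * ((y : ℝ) + 1) ^ ((d + lt) * m) *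
        (E * P * E ^ (m - 1)) := by
        rw [hEm]
        ring
    _ ≤ _ := by
        apply mul_le_mul_of_nonneg_left _ (mul_nonneg h27 hyp)
        exact mul_le_mul hEP (pow_le_pow_left₀ hE0 hEle _) (pow_nonneg hE0 _) (by linarith)

end BTR
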