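import Pool.Agent.BTR.S10
import Pool.Agent.BTR.J2
import Pool.Agent.BTP.C1
import Pool.Agent.BTR.S11a
import Pool.Agent.BTR.S11b
import Pool.Agent.BTR.S11c
set_option autoImplicit false

open scoped Classical
open Finset

/-! # The sums over the small boxes in a stuck state (port of BTS/S11, S12a, S12b, S12c; new: growth in one axis) -/

namespace BTR
open BTP BTS

variable {d lt : ℕ} (a : Pc d lt)

include a in
theorem s11d_num1 : 384 * ((2 : ℝ) ^ (d + lt) * (2 ^ (d + lt) * 1089 ^ (d + lt))) ≤ 10 ^ (8 * (d + lt)) := by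
  have hd := a.hd
  have h0 : d + lt ≠ 0 := by omega
  calc 384 * ((2 : ℝ) ^ (d + lt) * (2 ^ (d + lt) * 1089 ^ (d + lt)))
      ≤ 384 ^ (d + lt) * ((2 : ℝ) ^ (d + lt) * (2 ^ (d + lt) * 1089 ^ (d + lt))) := by
        apply mul_le_mul_of_nonneg_right _ (by positivity)
        exact le_self_pow₀ (by norm_num) h0
    _ = (384 * (2 * (2 * 1089))) ^ (d + lt) := by rw [mul_pow, mul_pow, mul_pow]
    _ ≤ (10 ^ 8) ^ (d + lt) := pow_le_pow_left₀ (by norm_num) (by norm_num) _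
    _ = 10 ^ (8 * (d + lt)) := by rw [← pow_mul]

theorem s11d_d : (d : ℝ) ≤ 2 ^ (d + lt) := by
  have h1 : d + lt < 2 ^ (d + lt) := Nat.lt_two_pow_self
  have h2 : d ≤ 2 ^ (d + lt) := by omega
  exact_mod_cast h2

theorem s11d_1089 : 2 * (1089 : ℝ) ^ (d + lt) + 1 ≤ 3 * 1089 ^ (d + lt) := by
  have : (1 : ℝ) ≤ 1089 ^ (d + lt) := one_le_pow₀ (by norm_num)
  linarith

theorem s11d_ka : (10 : ℝ) ^ (8 * (d + lt)) ≤ a.ka ^ 2 := by
  have h := a.hka
  calc (10 : ℝ) ^ (8 * (d + lt)) = (10 ^ (4 * (d + lt))) ^ 2 := by rw [← pow_mul]; congr 1; ring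
    _ ≤ a.ka ^ 2 := pow_le_pow_left₀ (by positivity) h 2

/-- numerical bound for the number of pairs -/
theorem s11d_num : 8 * ((2 * (d : ℝ)) ^ 2 * (2 * 1089 ^ (d + lt) + 1)) ≤ (a.ka ^ 2) ^ d := by
  have hd := a.hd
  have h1 := s11d_num1 a
  have h2 := s11d_d (d := d) (lt := lt)
  have h3 := s11d_1089 (d := d) (lt := lt)
  have h4 := s11d_ka a
  have h5 : (1 : ℝ) ≤ a.ka ^ 2 := le_trans (one_le_pow₀ (by norm_num)) h4
  have h6 : a.ka ^ 2 ≤ (a.ka ^ 2) ^ d := le_self_pow₀ h5 (by omega)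
  have hd0 : (0 : ℝ) ≤ d := Nat.cast_nonneg _
  have h7 : (d : ℝ) * d ≤ 2 ^ (d + lt) * 2 ^ (d + lt) := mul_le_mul h2 h2 hd0 (by positivity)
  calc 8 * ((2 * (d : ℝ)) ^ 2 * (2 * 1089 ^ (d + lt) + 1)) = 32 * ((d * d) * (2 * 1089 ^ (d + lt) + 1)) := by ring
    _ ≤ 32 * ((2 ^ (d + lt) * 2 ^ (d + lt)) * (3 * 1089 ^ (d + lt))) := by
        apply mul_le_mul_of_nonneg_left _ (by norm_num)
        exact mul_le_mul h7 h3 (by positivity) (by positivity)
    _ = 96 * (2 ^ (d + lt) * (2 ^ (d + lt) * 1089 ^ (d + lt))) := by ring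
    _ ≤ 384 * (2 ^ (d + lt) * (2 ^ (d + lt) * 1089 ^ (d + lt))) := by
        apply mul_le_mul_of_nonneg_right (by norm_num) (by positivity)
    _ ≤ _ := h1.trans (h4.trans h6)

/-- [BTR-S12c] the small boxes which grow in two axes (cf. BTS/S12c.lean).
PROOF. `Pr_small`; split according to `y = Ys S ∈ [1, h)` and the pair `(j, j')` (at most `(2d)²` pairs): `sum_y2`, `sum_small_pair`: total at most `4d² (2·1089^{dt} + 1) ∏ (1+z_l)/Xm`, and `∏ θ ≥ (ka²)^d ∏ (1+z_l)/Xm` (`prod_th_ge'`), `ka² ≥ 10^{8dt}` (`hka`), `32 d² (2·1089^{dt}+1) ≤ 10^{8dt}`. -/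
theorem sum_two {T : Box d} {W : Box (d + lt)} (hT : Ne T) (hD : a.InD T)
    (V : Finset (Site (d + lt))) :
    ∑ S ∈ (sub W).filter (fun S => near (emb lt T) S ∧ 1 ≤ Ys S ∧ Ys S < a.h ∧
        ∃ j j' : Dir d, j.1 ≠ j'.1 ∧ T j < pr S j ∧ T j' < pr S j'),
      Pr V a.p (IG S) * Real.exp (a.Ps (T ⊔ pr S) - a.Ps T) ≤
        (1 / 8) * ∏ l : Dir d, a.th T l.1 := by
  set A := (sub W).filter (fun S => near (emb lt T) S ∧ 1 ≤ Ys S ∧ Ys S < a.h ∧
        ∃ j j' : Dir d, j.1 ≠ j'.1 ∧ T j < pr S j ∧ T j' < pr S j') with hA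
  set P := (Finset.univ : Finset (Dir d × Dir d)).filter (fun x => x.1.1 ≠ x.2.1) with hPdef
  set B : (Dir d × Dir d) × ℕ → Finset (Box (d + lt)) := fun t =>
    (sub W).filter (fun S => near (emb lt T) S ∧ Ys S = t.2 ∧ T t.1.1 < pr S t.1.1 ∧ T t.1.2 < pr S t.1.2) with hB
  set G : (Dir d × Dir d) × ℕ → Box (d + lt) → ℝ := fun t S =>
    (((t.2 : ℝ) + 1) ^ (d + lt) * a.p) ^ ms t.2 * Real.exp (a.Ps (T ⊔ pr S) - a.Ps T) with hG
  have hp0 := p_nonneg a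
  have hp1 := p_le_one a
  have hmem : ∀ S, S ∈ A → ∃ t : (Dir d × Dir d) × ℕ, t ∈ P ×ˢ Finset.Ico 1 a.h ∧ S ∈ B t := by
    intro S hS
    rw [hA, Finset.mem_filter] at hS
    obtain ⟨hSQ, hn, h1, h2, j, j', hjj, hj, hj'⟩ := hS
    refine ⟨((j, j'), (Ys S).toNat), ?_, ?_⟩
    · rw [Finset.mem_product, hPdef, Finset.mem_filter, Finset.mem_Ico]
      refine ⟨⟨Finset.mem_univ _, hjj⟩, ?_, ?_⟩
      · show 1 ≤ (Ys S).toNat
        omega
      · show (Ys S).toNat < a.h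
        omega
    · show S ∈ (sub W).filter _
      rw [Finset.mem_filter]
      refine ⟨hSQ, hn, ?_, hj, hj'⟩
      show Ys S = ((Ys S).toNat : ℤ)
      omega
  have hd0 : 0 < d := by have := a.hd; omega
  haveI : Nonempty ((Dir d × Dir d) × ℕ) := ⟨((((⟨0, hd0⟩ : Fin d), true), ((⟨0, hd0⟩ : Fin d), true)), 0)⟩
  choose! t ht using hmem
  have hG0 : ∀ s S, 0 ≤ G s S := fun s S => by
    show 0 ≤ (((s.2 : ℝ) + 1) ^ (d + lt) * a.p) ^ ms s.2 * Real.exp (a.Ps (T ⊔ pr S) - a.Ps T)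
    positivity
  have h1 : ∑ S ∈ A, Pr V a.p (IG S) * Real.exp (a.Ps (T ⊔ pr S) - a.Ps T) ≤
      ∑ s ∈ P ×ˢ Finset.Ico 1 a.h, ∑ S ∈ B s, G s S := by
    rw [← Finset.sum_fiberwise_of_maps_to (g := t) (fun S hS => (ht S hS).1)]
    refine Finset.sum_le_sum (fun s _ => ?_)
    refine le_trans (Finset.sum_le_sum (g := G s) (fun S hS => ?_)) ?_
    · rw [Finset.mem_filter] at hS
      have hSB := (ht S hS.1).2
      rw [hS.2] at hSB
      rw [hB] at hSB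
      simp only [Finset.mem_filter] at hSB
      have hNe : Ne S := (BTP.mem_sub.mp hSB.1).1
      exact mul_le_mul_of_nonneg_right (Pr_small a hNe hSB.2.2.1 V) (Real.exp_pos _).le
    · refine Finset.sum_le_sum_of_subset_of_nonneg ?_ (fun S _ _ => hG0 s S)
      intro S hS
      rw [Finset.mem_filter] at hS
      have hSB := (ht S hS.1).2
      rwa [hS.2] at hSB
  have h2 : ∑ s ∈ P ×ˢ Finset.Ico 1 a.h, ∑ S ∈ B s, G s S ≤
      ∑ _x ∈ P, (2 * 1089 ^ (d + lt) + 1) * ∏ l : Fin d, ((1 + a.z T l) / a.Xm T) := by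
    rw [Finset.sum_product]
    refine Finset.sum_le_sum (fun x hx => ?_)
    have hx' : x.1.1 ≠ x.2.1 := (Finset.mem_filter.mp hx).2
    refine le_trans (Finset.sum_le_sum (fun y _ => ?_)) (sum_small_pair a hD hx')
    exact sum_y2 a (W := W) hT hx' y
  have hXm : 0 < a.Xm T := lt_of_lt_of_le (by have := a.hH1; linarith) (Xm_ge a T)
  have hW : 0 ≤ ∏ l : Fin d, ((1 + a.z T l) / a.Xm T) :=
    Finset.prod_nonneg (fun l _ => div_nonneg (by have := z_pos a T l; linarith) hXm.le)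
  have hcard : (P.card : ℝ) ≤ (2 * (d : ℝ)) ^ 2 := by
    have hc : P.card ≤ Fintype.card (Dir d × Dir d) := Finset.card_le_univ _
    have hc2 : Fintype.card (Dir d × Dir d) = (2 * d) ^ 2 := by
      simp [Fintype.card_prod]; ring
    rw [hc2] at hc
    exact_mod_cast hc
  have h3 : ∑ _x ∈ P, (2 * 1089 ^ (d + lt) + 1) * ∏ l : Fin d, ((1 + a.z T l) / a.Xm T) ≤
      (2 * (d : ℝ)) ^ 2 * ((2 * 1089 ^ (d + lt) + 1) * ∏ l : Fin d, ((1 + a.z T l) / a.Xm T)) := by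
    rw [Finset.sum_const, nsmul_eq_mul]
    exact mul_le_mul_of_nonneg_right hcard (mul_nonneg (by positivity) hW)
  have h4 := prod_th_ge' a hD
  have h5 : ∏ l : Fin d, (a.ka ^ 2 * (1 + a.z T l) / a.Xm T) =
      (a.ka ^ 2) ^ d * ∏ l : Fin d, ((1 + a.z T l) / a.Xm T) := by
    have : ∀ l : Fin d, a.ka ^ 2 * (1 + a.z T l) / a.Xm T = a.ka ^ 2 * ((1 + a.z T l) / a.Xm T) :=
      fun l => by rw [mul_div_assoc]
    simp only [this, Finset.prod_mul_distrib, Finset.prod_const, Finset.card_univ, Fintype.card_fin]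
  rw [h5] at h4
  have h6 := mul_le_mul_of_nonneg_right (s11d_num a) hW
  linarith

theorem s11d_th_sq {T : Box d} (hD : a.InD T) (i : Fin d) :
    (128 * d * (2 * 1089 ^ (d + lt) + 1)) * ((1 + a.z T i) ^ 2 / a.Xm T) ≤ a.th T i ^ 2 := by
  have hd := a.hd
  have hz := z_pos a T i
  have hH1 := a.hH1
  have hXm : 0 < a.Xm T := lt_of_lt_of_le (by linarith) (Xm_ge a T)
  have h1 := s11d_num1 a
  have h2 := s11d_d (d := d) (lt := lt)
  have h3 := s11d_1089 (d := d) (lt := lt)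
  have hd0 : (0 : ℝ) ≤ d := Nat.cast_nonneg _
  have hN : 128 * (d : ℝ) * (2 * 1089 ^ (d + lt) + 1) ≤ 10 ^ (8 * (d + lt)) := by
    calc 128 * (d : ℝ) * (2 * 1089 ^ (d + lt) + 1) ≤ 128 * (2 ^ (d + lt)) * (3 * 1089 ^ (d + lt)) := by
          apply mul_le_mul _ h3 (by positivity) (by positivity)
          exact mul_le_mul_of_nonneg_left h2 (by norm_num)
      _ = 384 * (1 * (2 ^ (d + lt) * 1089 ^ (d + lt))) := by ring
      _ ≤ 384 * (2 ^ (d + lt) * (2 ^ (d + lt) * 1089 ^ (d + lt))) := by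
          apply mul_le_mul_of_nonneg_left _ (by norm_num)
          apply mul_le_mul_of_nonneg_right _ (by positivity)
          exact one_le_pow₀ (by norm_num)
      _ ≤ _ := h1
  have hY0 : 0 ≤ (1 + a.z T i) ^ 2 / a.Xm T := by positivity
  have hN0 : (0 : ℝ) ≤ 128 * (d : ℝ) * (2 * 1089 ^ (d + lt) + 1) := by positivity
  unfold Pc.th
  rcases le_total (1 / 64 : ℝ) (a.ka * Real.sqrt ((1 + a.z T i) / a.Xm T) * Real.exp (a.z T i)) with hc | hc
  · rw [min_eq_left hc]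
    -- `(1+z)² / Xm ≤ (1+Z)² / H₁`
    have hZ : a.z T i ≤ a.Z := (z_le_zf a T i).trans (hD.1 i)
    have h4 : (1 + a.z T i) ^ 2 ≤ (1 + a.Z) ^ 2 := pow_le_pow_left₀ (by linarith) (by linarith) 2
    have h5 := a.hHs
    have hh : (1 : ℝ) ≤ a.h := by exact_mod_cast a.hh
    have h6 : (4096 : ℝ) ≤ (a.h : ℝ) * (2 * a.h + 7) ^ (9 * (d + lt)) := by
      have h7 : (9 : ℝ) ≤ 2 * a.h + 7 := by linarith
      have h8 : (9 : ℝ) ^ 4 ≤ (2 * (a.h : ℝ) + 7) ^ (9 * (d + lt)) := by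
        calc (9 : ℝ) ^ 4 ≤ 9 ^ (9 * (d + lt)) := pow_le_pow_right₀ (by norm_num) (by omega)
          _ ≤ _ := pow_le_pow_left₀ (by norm_num) h7 _
      have h9 : (0 : ℝ) ≤ (2 * (a.h : ℝ) + 7) ^ (9 * (d + lt)) := by positivity
      nlinarith
    have h10 : (10 : ℝ) ^ (8 * (d + lt)) * 4096 * (1 + a.z T i) ^ 2 ≤ a.Xm T := by
      refine le_trans ?_ (h5.trans (Xm_ge a T))
      have h11 : (10 : ℝ) ^ (8 * (d + lt)) * 4096 ≤ 10 ^ (8 * (d + lt)) * (a.h : ℝ) * (2 * a.h + 7) ^ (9 * (d + lt)) := by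
        rw [mul_assoc ((10 : ℝ) ^ (8 * (d + lt))) (a.h : ℝ)]
        exact mul_le_mul_of_nonneg_left h6 (by positivity)
      exact mul_le_mul h11 h4 (by positivity) (by positivity)
    rw [mul_div_assoc', div_le_iff₀ hXm]
    have h12 : 128 * (d : ℝ) * (2 * 1089 ^ (d + lt) + 1) * (1 + a.z T i) ^ 2 ≤
        10 ^ (8 * (d + lt)) * (1 + a.z T i) ^ 2 := mul_le_mul_of_nonneg_right hN (by positivity)
    nlinarith
  · rw [min_eq_right hc]
    have hs : 0 ≤ (1 + a.z T i) / a.Xm T := by positivity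
    have h4 : (a.ka * Real.sqrt ((1 + a.z T i) / a.Xm T) * Real.exp (a.z T i)) ^ 2 =
        a.ka ^ 2 * ((1 + a.z T i) / a.Xm T) * Real.exp (a.z T i) ^ 2 := by
      rw [mul_pow, mul_pow, Real.sq_sqrt hs]
    rw [h4]
    have h5 := s11d_ka a
    have h6 : 1 + a.z T i ≤ Real.exp (a.z T i) ^ 2 := by
      have h7 := Real.add_one_le_exp (a.z T i)
      have h8 : Real.exp (a.z T i) ≤ Real.exp (a.z T i) ^ 2 := by
        apply le_self_pow₀ _ (by norm_num)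
        linarith
      linarith
    calc 128 * (d : ℝ) * (2 * 1089 ^ (d + lt) + 1) * ((1 + a.z T i) ^ 2 / a.Xm T)
        ≤ a.ka ^ 2 * ((1 + a.z T i) ^ 2 / a.Xm T) := mul_le_mul_of_nonneg_right (hN.trans h5) hY0
      _ = a.ka ^ 2 * ((1 + a.z T i) / a.Xm T) * (1 + a.z T i) := by ring
      _ ≤ a.ka ^ 2 * ((1 + a.z T i) / a.Xm T) * Real.exp (a.z T i) ^ 2 := by
          apply mul_le_mul_of_nonneg_left h6
          positivity

/-- [BTR-S12c] the small boxes which grow in one axis only.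
PROOF. `Pr_small`; split according to `y = Ys S ∈ [1, h)` and the direction `j ∈ {(i,true), (i,false)}` with `T j < pr S j` (it exists: `¬ pr S ≤ T`): `sum_y1`, `sum_small_one`: total at most `2 (2·1089^{dt} + 1) (1+z_i)²/Xm`. `θ_i² = 1/4096` or `θ_i² = ka² (1+z_i) e^{2z_i}/Xm ≥ 10^{8dt} (1+z_i)²/Xm` (`1 + z ≤ e^{2z}`); `128 d (2·1089^{dt}+1) ≤ 10^{8dt}`. In the first case `(1+z_i)²/Xm ≤ (1+Z)²/H₁ ≤ 1/(10^{8dt} 9^{9dt})` (`hHs`, `h ≥ 1`), `128 d (2·1089^{dt}+1) 4096 ≤ 10^{8dt} 9^{9dt}`. -/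
theorem sum_axis {T : Box d} {W : Box (d + lt)} (hT : Ne T) (hD : a.InD T) (i : Fin d)
    (V : Finset (Site (d + lt))) :
    ∑ S ∈ (sub W).filter (fun S => near (emb lt T) S ∧ 1 ≤ Ys S ∧ Ys S < a.h ∧ ¬ pr S ≤ T ∧
        ∀ m : Dir d, m.1 ≠ i → pr S m ≤ T m),
      Pr V a.p (IG S) * Real.exp (a.Ps (T ⊔ pr S) - a.Ps T) ≤
        1 / (64 * d) * a.th T i ^ 2 := by
  set A := (sub W).filter (fun S => near (emb lt T) S ∧ 1 ≤ Ys S ∧ Ys S < a.h ∧ ¬ pr S ≤ T ∧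
        ∀ m : Dir d, m.1 ≠ i → pr S m ≤ T m) with hA
  set B : Bool × ℕ → Finset (Box (d + lt)) := fun t =>
    (sub W).filter (fun S => near (emb lt T) S ∧ Ys S = t.2 ∧ T (i, t.1) < pr S (i, t.1) ∧
      ∀ m : Dir d, m.1 ≠ i → pr S m ≤ T m) with hB
  set G : Bool × ℕ → Box (d + lt) → ℝ := fun t S =>
    (((t.2 : ℝ) + 1) ^ (d + lt) * a.p) ^ ms t.2 * Real.exp (a.Ps (T ⊔ pr S) - a.Ps T) with hG
  have hp0 := p_nonneg a
  have hp1 := p_le_one a
  have hmem : ∀ S, S ∈ A → ∃ t : Bool × ℕ, t ∈ (Finset.univ : Finset Bool) ×ˢ Finset.Ico 1 a.h ∧ S ∈ B t := by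
    intro S hS
    rw [hA, Finset.mem_filter] at hS
    obtain ⟨hSQ, hn, h1, h2, h3, h4⟩ := hS
    have h5 : ∃ m : Dir d, T m < pr S m := by
      by_contra hcon
      push Not at hcon
      exact h3 hcon
    obtain ⟨m, hm⟩ := h5
    have hmi : m.1 = i := by
      by_contra hne
      have := h4 m hne
      omega
    obtain ⟨m1, b⟩ := m
    simp only at hmi
    subst hmi
    refine ⟨(b, (Ys S).toNat), ?_, ?_⟩
    · rw [Finset.mem_product, Finset.mem_Ico]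
      refine ⟨Finset.mem_univ _, ?_, ?_⟩
      · show 1 ≤ (Ys S).toNat
        omega
      · show (Ys S).toNat < a.h
        omega
    · show S ∈ (sub W).filter _
      rw [Finset.mem_filter]
      refine ⟨hSQ, hn, ?_, hm, h4⟩
      show Ys S = ((Ys S).toNat : ℤ)
      omega
  haveI : Nonempty (Bool × ℕ) := ⟨(true, 0)⟩
  choose! t ht using hmem
  have hG0 : ∀ s S, 0 ≤ G s S := fun s S => by
    show 0 ≤ (((s.2 : ℝ) + 1) ^ (d + lt) * a.p) ^ ms s.2 * Real.exp (a.Ps (T ⊔ pr S) - a.Ps T)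
    positivity
  have h1 : ∑ S ∈ A, Pr V a.p (IG S) * Real.exp (a.Ps (T ⊔ pr S) - a.Ps T) ≤
      ∑ s ∈ (Finset.univ : Finset Bool) ×ˢ Finset.Ico 1 a.h, ∑ S ∈ B s, G s S := by
    rw [← Finset.sum_fiberwise_of_maps_to (g := t) (fun S hS => (ht S hS).1)]
    refine Finset.sum_le_sum (fun s _ => ?_)
    refine le_trans (Finset.sum_le_sum (g := G s) (fun S hS => ?_)) ?_
    · rw [Finset.mem_filter] at hS
      have hSB := (ht S hS.1).2
      rw [hS.2] at hSB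
      rw [hB] at hSB
      simp only [Finset.mem_filter] at hSB
      have hNe : Ne S := (BTP.mem_sub.mp hSB.1).1
      exact mul_le_mul_of_nonneg_right (Pr_small a hNe hSB.2.2.1 V) (Real.exp_pos _).le
    · refine Finset.sum_le_sum_of_subset_of_nonneg ?_ (fun S _ _ => hG0 s S)
      intro S hS
      rw [Finset.mem_filter] at hS
      have hSB := (ht S hS.1).2
      rwa [hS.2] at hSB
  have h2 : ∑ s ∈ (Finset.univ : Finset Bool) ×ˢ Finset.Ico 1 a.h, ∑ S ∈ B s, G s S ≤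
      ∑ _x ∈ (Finset.univ : Finset Bool), (2 * 1089 ^ (d + lt) + 1) * ((1 + a.z T i) ^ 2 / a.Xm T) := by
    rw [Finset.sum_product]
    refine Finset.sum_le_sum (fun x _ => ?_)
    refine le_trans (Finset.sum_le_sum (fun y hy => ?_)) (sum_small_one a hD i)
    have hy1 := (Finset.mem_Ico.1 hy).1
    exact sum_y1 a (W := W) hT (i, x) hy1
  have h3 : ∑ _x ∈ (Finset.univ : Finset Bool), (2 * 1089 ^ (d + lt) + 1) * ((1 + a.z T i) ^ 2 / a.Xm T) =
      2 * ((2 * 1089 ^ (d + lt) + 1) * ((1 + a.z T i) ^ 2 / a.Xm T)) := by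
    rw [Finset.sum_const, nsmul_eq_mul]
    simp
  have h4 := s11d_th_sq a hD i
  have hd0 : (0 : ℝ) < d := by
    have := a.hd
    exact_mod_cast (show 0 < d by omega)
  have h5 : 1 / (64 * (d : ℝ)) * ((128 * d * (2 * 1089 ^ (d + lt) + 1)) * ((1 + a.z T i) ^ 2 / a.Xm T)) =
      2 * ((2 * 1089 ^ (d + lt) + 1) * ((1 + a.z T i) ^ 2 / a.Xm T)) := by
    field_simp
    ring
  have h6 := mul_le_mul_of_nonneg_left h4 (show 0 ≤ 1 / (64 * (d : ℝ)) by positivity)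
  rw [h5] at h6
  linarith

end BTR
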