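import Pool.Agent.BTR.M4
import Pool.Agent.BTR.S11
import Pool.Agent.BTR.J1
import Pool.Agent.BTR.Q2
import Pool.Agent.BTR.E7
set_option autoImplicit false

open scoped Classical
open Finset

/-! # The stuck state, the start, the main induction (cf. BTS/M5, M6a, M6b, M6c) -/

namespace BTR
open BTP BTS

variable {d l : ℕ} (a : Pc d l)

/-- [BTR-M5a] single sites do not occur. PROOF. If `Ys S < 1` then `S = cc w` (`Ys S = 0`, `Ne S`; for `U ⊆ D`, `IG S U`: `Gen S W`, some `v ∈ W`, `cc v ≤ S`, so `cc v = S` by `Ys_lt`, `Ys_cc`) with `w ∈ D`; `near (emb l T) (cc w)` gives `pr S = cc (ps w) ≤ T`, a contradiction. So the event is impossible. -/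
theorem stuck_single {T : Box d} {S : Box (d + l)} {D : Finset (Site (d + l))} (hS : Ne S)
    (hn : near (emb l T) S) (hY : Ys S < 1) (hT : ¬ pr S ≤ T)
    (hnear : ∀ v ∈ D, near (emb l T) (cc v) → cc (ps v) ≤ T) : Pr D a.p (IG S) = 0 := by
  have hY0 : Ys S = 0 := by
    have := Ys_nonneg hS
    omega
  unfold Pr
  apply Finset.sum_eq_zero
  intro U hU
  exfalso
  obtain ⟨hU1, W, hWU, hG⟩ := Finset.mem_filter.1 hU
  obtain ⟨w, hw⟩ := hG.nonempty
  have h1 : cc w ≤ S := hG.le w hw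
  have h2 : cc w = S := by
    by_contra h
    have h3 := Ys_lt h1 h
    rw [Ys_cc, hY0] at h3
    omega
  have h4 := hnear w (Finset.mem_powerset.1 hU1 (hWU hw)) (by rw [h2]; exact hn)
  rw [← h2, pr_cc] at hT
  exact hT h4

/-- [BTR-M5a] the counts vanish in a stuck state (`n1_zero`, `n2_zero`, `n3_zero`, `n3_same`, `near_inL1`, `near_inL2`, `near_inC`) -/
theorem stuck_counts {T : Box d} (hT : Ne T) {D : Finset (Site (d + l))}
    (hnear : ∀ v ∈ D, near (emb l T) (cc v) → cc (ps v) ≤ T) :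
    (∀ j, n1 l T D j = 0) ∧ (∀ j, n2 l T D j = 0) ∧ ∀ i j, n3 l T D i j = 0 := by
  refine ⟨fun j => n1_zero fun v hv hh h => ?_, fun j => n2_zero fun v hv hh h => ?_, fun i j => ?_⟩
  · obtain ⟨h1, h2⟩ := near_inL1 hT h hh
    exact h2 (hnear v hv h1)
  · obtain ⟨h1, h2⟩ := near_inL2 hT h hh
    exact h2 (hnear v hv h1)
  · by_cases hij : i.1 = j.1
    · exact n3_same T D hij
    · refine n3_zero fun v hv hh h => ?_
      obtain ⟨h1, h2⟩ := near_inC hT hij h hh
      exact h2 (hnear v hv h1)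

end BTR
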