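import Pool.Agent.BTR.M4
import Pool.Agent.BTR.S11
import Pool.Agent.BTR.J1
import Pool.Agent.BTR.Q2
import Pool.Agent.BTR.E7
import Pool.Agent.BTR.M5a
set_option autoImplicit false

open scoped Classical
open Finset

/-! # The stuck state, the start, the main induction (cf. BTS/M5, M6a, M6b, M6c) -/

namespace BTR
open BTP BTS

variable {d l : ℕ} (a : Pc d l)

/-- growth in one axis: the factors of the growing directions -/
theorem m5b_prod (T : Box d) (O K : Finset (Dir d)) (i : Fin d) (hK : ∀ j ∈ K, j.1 = i) :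
    a.th T i ^ 2 * ∏ m ∈ O \ K, a.th T m.1 ≤ ∏ m ∈ O, a.th T m.1 := by
  have hpos : ∀ m : Dir d, 0 < a.th T m.1 := fun m => th_pos a T m.1
  have h0 : 0 < a.th T i := th_pos a T i
  have h1 : a.th T i ≤ 1 := (th_le a T i).trans (by norm_num)
  rw [← Finset.prod_inter_mul_prod_diff O K (fun m => a.th T m.1)]
  refine mul_le_mul_of_nonneg_right ?_ (Finset.prod_nonneg fun m _ => (hpos m).le)
  have h2 : ∏ m ∈ O ∩ K, a.th T m.1 = a.th T i ^ (O ∩ K).card := by
    rw [← Finset.prod_const]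
    refine Finset.prod_congr rfl fun m hm => ?_
    rw [hK m (Finset.mem_inter.1 hm).2]
  rw [h2]
  apply pow_le_pow_of_le_one h0.le h1
  have h3 : O ∩ K ⊆ {((i, true) : Dir d), ((i, false) : Dir d)} := by
    intro m hm
    have h4 := hK m (Finset.mem_inter.1 hm).2
    obtain ⟨m1, b⟩ := m
    dsimp only at h4
    subst h4
    cases b
    · exact Finset.mem_insert_of_mem (Finset.mem_singleton_self _)
    · exact Finset.mem_insert_self _ _
  exact (Finset.card_le_card h3).trans Finset.card_le_two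

/-- [BTR-M5b] the small boxes in a stuck state. Put `E = exp (Ps T - Ps Q)`, `O = grw T Q`.
PROOF. The terms with `Ys S < 1` vanish (`stuck_single`). For the others put `T' = T ⊔ pr S` (`T ≤ T' ≤ Q` as `S ≤ cyl l kk Q`, `pr_cyl`; `T' ≠ T`): `V T' Q D ≤ Fp T' Q D` (`hV`). The growing directions `K = grw T (pr S)` are not empty.
If they belong to two different axes: `Fp_le` (`InD T'` by `InD_mono`): `Fp T' ≤ 2 exp(Ps T' - Ps Q)`; by `sum_two` (`W = cyl l kk Q`) these terms are at most `2 E (1/8) ∏_all θ ≤ (1/4) E ∏_O θ` (`prod_th_le`).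
Otherwise all are in one axis `i`: `Fp_stuck` (`stuck_counts`; `Ys T' ≤ Ys T + 2h + 2`: `Ys_sup_le`, `near_of_emb`, `Ys_pr_le`): `Fp T' ≤ 2 exp(Ps T' - Ps Q) ∏_{O \ K} θ`, and `θ_i² ∏_{O \ K} θ ≤ ∏_O θ` (`K ⊆ {(i,true),(i,false)}`, `θ ≤ 1`; `grw T T' = K`); by `sum_axis` for each axis the terms are at most `2 E (1/(64 d)) ∏_O θ`, total `(1/32) E ∏_O θ`. -/
theorem stuck_small {T Q : Box d} {D : Finset (Site (d + l))} (hok : Ok a T Q)
    (hnear : ∀ v ∈ D, near (emb l T) (cc v) → cc (ps v) ≤ T)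
    (hV : ∀ T' : Box d, T ≤ T' → T' ≤ Q → T' ≠ T → a.V T' Q D ≤ a.Fp T' Q D) :
    ∑ S ∈ (sub (cyl l a.kk Q)).filter (fun S => near (emb l T) S ∧ Ys S < a.h ∧ ¬ pr S ≤ T),
        Pr D a.p (IG S) * a.V (T ⊔ pr S) Q D ≤
      (3 / 8) * (Real.exp (a.Ps T - a.Ps Q) * ∏ l ∈ grw T Q, a.th T l.1) := by
  obtain ⟨hT, hTQ, hQD, hP⟩ := hok
  have hTD : a.InD T := InD_mono a hT hTQ hQD
  have hp0 := p_nonneg a
  have hp1 := p_le_one a
  have hPr : ∀ S : Box (d + l), 0 ≤ Pr D a.p (IG S) := fun S => Pr_nonneg hp0 hp1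
  obtain ⟨c1, c2, c3⟩ := stuck_counts hT hnear
  have hd0 : (0 : ℝ) < d := by
    have := a.hd
    have h2 : (2 : ℝ) ≤ d := by exact_mod_cast this
    linarith
  obtain ⟨E, hE⟩ : ∃ E, E = Real.exp (a.Ps T - a.Ps Q) := ⟨_, rfl⟩
  have hE0 : 0 < E := by rw [hE]; exact Real.exp_pos _
  obtain ⟨θ, hθ⟩ : ∃ θ, θ = ∏ m ∈ grw T Q, a.th T m.1 := ⟨_, rfl⟩
  have hθ0 : 0 < θ := by rw [hθ]; exact Finset.prod_pos fun m _ => th_pos a T m.1
  have hti : ∀ i, 0 < a.th T i := fun i => th_pos a T i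
  rw [← hE, ← hθ]
  -- the weights
  let w : Box (d + l) → ℝ := fun S => Pr D a.p (IG S) * Real.exp (a.Ps (T ⊔ pr S) - a.Ps T)
  have hw0 : ∀ S, 0 ≤ w S := fun S => mul_nonneg (hPr S) (Real.exp_pos _).le
  let c2' : Box (d + l) → Prop := fun S => near (emb l T) S ∧ 1 ≤ Ys S ∧ Ys S < a.h ∧
        ∃ j j' : Dir d, j.1 ≠ j'.1 ∧ T j < pr S j ∧ T j' < pr S j'
  let c1' : Fin d → Box (d + l) → Prop := fun i S => near (emb l T) S ∧ 1 ≤ Ys S ∧ Ys S < a.h ∧
        ¬ pr S ≤ T ∧ ∀ m : Dir d, m.1 ≠ i → pr S m ≤ T m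
  have hterm : ∀ S ∈ sub (cyl l a.kk Q),
      (if near (emb l T) S ∧ Ys S < a.h ∧ ¬ pr S ≤ T then
        Pr D a.p (IG S) * a.V (T ⊔ pr S) Q D else 0) ≤
      (if c2' S then 2 * E * w S else 0) +
        ∑ i : Fin d, (if c1' i S then 2 * E * (θ / a.th T i ^ 2) * w S else 0) := by
    intro S hS
    obtain ⟨hSn, hSW⟩ := mem_sub.1 hS
    have hg2 : 0 ≤ (if c2' S then 2 * E * w S else 0) := by
      split_ifs
      · have := hw0 S
        positivity
      · exact le_rfl
    have hg1 : ∀ i ∈ (Finset.univ : Finset (Fin d)),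
        0 ≤ (if c1' i S then 2 * E * (θ / a.th T i ^ 2) * w S else 0) := by
      intro i _
      split_ifs
      · have := hw0 S
        have := hti i
        positivity
      · exact le_rfl
    by_cases hc : near (emb l T) S ∧ Ys S < a.h ∧ ¬ pr S ≤ T
    swap
    · rw [if_neg hc]
      exact add_nonneg hg2 (Finset.sum_nonneg hg1)
    rw [if_pos hc]
    obtain ⟨hn, hY, hST⟩ := hc
    by_cases hY1 : Ys S < 1
    · rw [stuck_single a hSn hn hY1 hST hnear, zero_mul]
      exact add_nonneg hg2 (Finset.sum_nonneg hg1)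
    push Not at hY1
    have hSQ : pr S ≤ Q := by
      have := pr_mono hSW
      rwa [pr_cyl] at this
    have hTT : T ≤ T ⊔ pr S := le_sup_left
    have hTQ' : T ⊔ pr S ≤ Q := sup_le hTQ hSQ
    have hne : T ⊔ pr S ≠ T := by
      intro h
      exact hST (sup_eq_left.1 h)
    have hNe : Ne (T ⊔ pr S) := fun i => le_trans (hT i) (add_le_add (hTT (i, true)) (hTT (i, false)))
    have hVF := hV (T ⊔ pr S) hTT hTQ' hne
    have hexp : Real.exp (a.Ps (T ⊔ pr S) - a.Ps Q) = E * Real.exp (a.Ps (T ⊔ pr S) - a.Ps T) := by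
      rw [hE, ← Real.exp_add]
      congr 1
      ring
    by_cases h2 : ∃ j j' : Dir d, j.1 ≠ j'.1 ∧ T j < pr S j ∧ T j' < pr S j'
    · have hc2 : c2' S := ⟨hn, hY1, hY, h2⟩
      rw [if_pos hc2]
      have h3 := Fp_le a hNe (InD_mono a hNe hTQ' hQD) D (Q := Q)
      have h4 : Pr D a.p (IG S) * a.V (T ⊔ pr S) Q D ≤ 2 * E * w S := by
        calc Pr D a.p (IG S) * a.V (T ⊔ pr S) Q D
            ≤ Pr D a.p (IG S) * (2 * Real.exp (a.Ps (T ⊔ pr S) - a.Ps Q)) :=
              mul_le_mul_of_nonneg_left (hVF.trans h3) (hPr S)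
          _ = 2 * E * w S := by
              rw [hexp]
              change _ = 2 * E * (Pr D a.p (IG S) * Real.exp (a.Ps (T ⊔ pr S) - a.Ps T))
              ring
      have h5 := Finset.sum_nonneg hg1
      linarith
    · -- growth in one axis
      obtain ⟨j, hj⟩ : ∃ j : Dir d, T j < pr S j := by
        by_contra hcon
        push Not at hcon
        exact hST fun j => hcon j
      have hax : ∀ m : Dir d, m.1 ≠ j.1 → pr S m ≤ T m := by
        intro m hm
        by_contra hcon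
        push Not at hcon
        exact h2 ⟨m, j, hm, hcon, hj⟩
      have hc1 : c1' j.1 S := ⟨hn, hY1, hY, hST, hax⟩
      have hYs : Ys (T ⊔ pr S) ≤ Ys T + (2 * a.h + 2) := by
        have h3 := Ys_sup_le hT (ne_pr hSn) (near_of_emb hn)
        have h4 := Ys_pr_le hSn
        have h5 : (0 : ℤ) ≤ a.h := Int.natCast_nonneg _
        omega
      have h3 := Fp_stuck a hT hTT hTQ' hQD hYs hP c1 c2 c3
      have h4 := m5b_prod a T (grw T Q) (grw T (T ⊔ pr S)) j.1 (by
        intro m hm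
        by_contra hcon
        have h5 := hax m hcon
        have h6 : T m < (T ⊔ pr S) m := (Finset.mem_filter.1 hm).2
        have h7 : (T ⊔ pr S) m = T m := sup_eq_left.2 h5
        rw [h7] at h6
        exact lt_irrefl _ h6)
      rw [← hθ] at h4
      have h5 : ∏ m ∈ grw T Q \ grw T (T ⊔ pr S), a.th T m.1 ≤ θ / a.th T j.1 ^ 2 := by
        rw [le_div_iff₀ (pow_pos (hti j.1) 2)]
        linarith
      have h6 : Pr D a.p (IG S) * a.V (T ⊔ pr S) Q D ≤ 2 * E * (θ / a.th T j.1 ^ 2) * w S := by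
        calc Pr D a.p (IG S) * a.V (T ⊔ pr S) Q D
            ≤ Pr D a.p (IG S) * (2 * Real.exp (a.Ps (T ⊔ pr S) - a.Ps Q) * (θ / a.th T j.1 ^ 2)) :=
              mul_le_mul_of_nonneg_left (hVF.trans (h3.trans
                (mul_le_mul_of_nonneg_left h5 (by positivity)))) (hPr S)
          _ = 2 * E * (θ / a.th T j.1 ^ 2) * w S := by
              rw [hexp]
              change _ = 2 * E * (θ / a.th T j.1 ^ 2) *
                (Pr D a.p (IG S) * Real.exp (a.Ps (T ⊔ pr S) - a.Ps T))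
              ring
      have h7 : 2 * E * (θ / a.th T j.1 ^ 2) * w S ≤
          ∑ i : Fin d, (if c1' i S then 2 * E * (θ / a.th T i ^ 2) * w S else 0) := by
        refine le_trans ?_ (Finset.single_le_sum hg1 (Finset.mem_univ j.1))
        rw [if_pos hc1]
      linarith
  rw [Finset.sum_filter]
  refine (Finset.sum_le_sum hterm).trans ?_
  rw [Finset.sum_add_distrib, Finset.sum_comm]
  -- two axes
  have hs2 : ∑ S ∈ sub (cyl l a.kk Q), (if c2' S then 2 * E * w S else 0) ≤ 1 / 4 * (E * θ) := by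
    rw [← Finset.sum_filter, ← Finset.mul_sum]
    have h1 := sum_two a (W := cyl l a.kk Q) hT hTD D
    have h2 := prod_th_le a T (grw T Q)
    rw [← hθ] at h2
    have h3 : ∑ S ∈ (sub (cyl l a.kk Q)).filter c2', w S ≤ 1 / 8 * ∏ m : Dir d, a.th T m.1 := h1
    calc 2 * E * ∑ S ∈ (sub (cyl l a.kk Q)).filter c2', w S
        ≤ 2 * E * (1 / 8 * θ) := by
          apply mul_le_mul_of_nonneg_left _ (by positivity)
          linarith
      _ = 1 / 4 * (E * θ) := by ring
  have hs1 : ∑ i : Fin d, ∑ S ∈ sub (cyl l a.kk Q),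
      (if c1' i S then 2 * E * (θ / a.th T i ^ 2) * w S else 0) ≤ 1 / 32 * (E * θ) := by
    have h0 : ∀ i ∈ (Finset.univ : Finset (Fin d)), ∑ S ∈ sub (cyl l a.kk Q),
        (if c1' i S then 2 * E * (θ / a.th T i ^ 2) * w S else 0) ≤ 1 / (32 * d) * (E * θ) := by
      intro i _
      rw [← Finset.sum_filter, ← Finset.mul_sum]
      have h1 := sum_axis a (W := cyl l a.kk Q) hT hTD i D
      have h3 : ∑ S ∈ (sub (cyl l a.kk Q)).filter (c1' i), w S ≤ 1 / (64 * d) * a.th T i ^ 2 := h1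
      have h4 := hti i
      calc 2 * E * (θ / a.th T i ^ 2) * ∑ S ∈ (sub (cyl l a.kk Q)).filter (c1' i), w S
          ≤ 2 * E * (θ / a.th T i ^ 2) * (1 / (64 * d) * a.th T i ^ 2) :=
            mul_le_mul_of_nonneg_left h3 (by positivity)
        _ = 1 / (32 * d) * (E * θ) := by
            field_simp
            ring
    refine (Finset.sum_le_sum h0).trans ?_
    rw [Finset.sum_const, Finset.card_univ, Fintype.card_fin, nsmul_eq_mul]
    apply le_of_eq
    field_simp
  have h9 : 0 < E * θ := by positivity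
  linarith

end BTR
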