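import Pool.Agent.BTR.M4
import Pool.Agent.BTR.S11
import Pool.Agent.BTR.J1
import Pool.Agent.BTR.Q2
import Pool.Agent.BTR.E7
import Pool.Agent.BTR.M5a
import Pool.Agent.BTR.M5b
set_option autoImplicit false

open scoped Classical
open Finset

/-! # The stuck state, the start, the main induction (cf. BTS/M5, M6a, M6b, M6c) -/

namespace BTR
open BTP BTS

variable {d l : ℕ} (a : Pc d l)

/-- the probabilities are in `[0, 1]` -/
theorem m5c_B1 (a : Pc d l) : 1 ≤ a.B := by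
  have h1 := a.hH1
  have h2 := a.hHB
  linarith

/-- the numerical bound -/
theorem m5c_num (a : Pc d l) : a.B ^ (2 * d) *
    (2 * Real.exp (-a.P + 2 * a.gam) + Real.exp (-(a.P / 2))) ≤ 1 / 2 * (1 / a.B ^ d) := by
  have hB1 : 1 ≤ a.B := m5c_B1 a
  have hB0 : 0 < a.B := by linarith
  have hg := a.hgam0
  obtain ⟨x, hx⟩ : ∃ x, x = Real.exp (-(a.P / 2)) := ⟨_, rfl⟩
  obtain ⟨y, hy⟩ : ∃ y, y = Real.exp (2 * a.gam) := ⟨_, rfl⟩
  have hx0 : 0 < x := by rw [hx]; exact Real.exp_pos _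
  have hy1 : 1 ≤ y := by
    rw [hy]
    exact Real.one_le_exp (by linarith)
  have hc0 := a.hcnt
  rw [← hy] at hc0
  have hc : 16 * a.B ^ (4 * d) * y ≤ Real.exp (a.P / 2) := by
    refine le_trans ?_ hc0
    have : a.B ^ (4 * d) ≤ a.B ^ (4 * d + 4 * l) := pow_le_pow_right₀ hB1 (by omega)
    have hy0 : 0 ≤ y := by linarith
    nlinarith
  have hex : Real.exp (a.P / 2) * x = 1 := by
    rw [hx, ← Real.exp_add]
    simp
  have e1 : Real.exp (-a.P + 2 * a.gam) = x * x * y := by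
    rw [hx, hy, ← Real.exp_add, ← Real.exp_add]
    congr 1
    ring
  obtain ⟨b, hb⟩ : ∃ b, b = a.B ^ d := ⟨_, rfl⟩
  have hb1 : 1 ≤ b := by rw [hb]; exact one_le_pow₀ hB1
  have hb0 : 0 < b := by linarith
  have e2 : a.B ^ (2 * d) = b ^ 2 := by rw [hb, ← pow_mul]; congr 1; ring
  have e4 : a.B ^ (4 * d) = b ^ 4 := by rw [hb, ← pow_mul]; congr 1; ring
  rw [e4] at hc
  rw [e1, e2, ← hb, ← hx]
  have h1 : 16 * b ^ 4 * y * x ≤ 1 := by
    have := mul_le_mul_of_nonneg_right hc hx0.le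
    rw [hex] at this
    exact this
  have h2 : x * y ≤ 1 := by
    have h3 : 1 ≤ 16 * b ^ 4 := by
      have := one_le_pow₀ hb1 (n := 4)
      linarith
    have h4 : x * y ≤ 16 * b ^ 4 * (x * y) := le_mul_of_one_le_left (by positivity) h3
    linarith
  have h5 : 16 * b ^ 4 * x ≤ 1 := by
    have h6 : 16 * b ^ 4 * x ≤ 16 * b ^ 4 * x * y := le_mul_of_one_le_right (by positivity) hy1
    linarith
  have h7 : 2 * (x * x * y) + x ≤ 3 * x := by nlinarith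
  have h8 : b ^ 2 * (2 * (x * x * y) + x) ≤ b ^ 2 * (3 * x) :=
    mul_le_mul_of_nonneg_left h7 (by positivity)
  refine h8.trans ?_
  rw [show (1 : ℝ) / 2 * (1 / b) = 1 / (2 * b) by field_simp, le_div_iff₀ (by positivity)]
  have h9 : b ^ 3 ≤ b ^ 4 := pow_le_pow_right₀ hb1 (by norm_num)
  have h10 : b ^ 3 * x ≤ b ^ 4 * x := mul_le_mul_of_nonneg_right h9 hx0.le
  have h11 : b ^ 2 * (3 * x) * (2 * b) = 6 * (b ^ 3 * x) := by ring
  rw [h11]
  linarith [mul_nonneg (pow_nonneg hb0.le 4) hx0.le]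

/-- [BTR-M5c] the side columns in a stuck state.
PROOF. `R ∈ sub Q`, `T' = T ⊔ R ≤ Q`, `T' ≠ T`. First alternative of `hbig`: `V T' ≤ Fp T' ≤ 2 exp(Ps T' - Ps Q)` (`hV`, `Fp_le`), `Ps_merge` (`near T R`): the term is at most `2 exp(-P + 2γ) E`. Second alternative: `V ≤ 1` and `exp(-Λ - P/2) ≤ exp(-P/2) E` (`Ps Q ≤ Λ`, `Ps T ≥ 0`). At most `B^{2d}` columns (`card_sub`): `B^{2d}(2 e^{-P+2γ} + e^{-P/2}) ≤ (1/2) B^{-d} ≤ (1/2) ∏ θ` (`hcnt`, `prod_th_ge`, `prod_th_le`, `B ≥ 1`; cf. BTS/M5.lean `m5_num`). -/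
theorem stuck_cols {T Q : Box d} {D : Finset (Site (d + l))} (hok : Ok a T Q)
    (hPQ : a.Ps Q ≤ d * a.A * lamk (d - 1) (l + 1))
    (hbig : ∀ R ∈ sub Q, R ≠ Q → Pr D a.p (CIG l a.h R) ≤ Real.exp (-a.P - a.Ps R) ∨
      Pr D a.p (CIG l a.h R) ≤ Real.exp (-(d * a.A * lamk (d - 1) (l + 1)) - a.P / 2))
    (hV : ∀ T' : Box d, T ≤ T' → T' ≤ Q → T' ≠ T → a.V T' Q D ≤ a.Fp T' Q D) :
    ∑ R ∈ (sub Q).filter (fun R => near T R ∧ ¬ R ≤ T ∧ R ≠ Q),
        Pr D a.p (CIG l a.h R) * a.V (T ⊔ R) Q D ≤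
      (1 / 2) * (Real.exp (a.Ps T - a.Ps Q) * ∏ l ∈ grw T Q, a.th T l.1) := by
  obtain ⟨hT, hTQ, hQ, -⟩ := hok
  have hTD : a.InD T := InD_mono a hT hTQ hQ
  have hp0 := p_nonneg a
  have hp1 := p_le_one a
  have hPr : ∀ R : Box d, 0 ≤ Pr D a.p (CIG l a.h R) := fun R => Pr_nonneg hp0 hp1
  have hB1 : 1 ≤ a.B := m5c_B1 a
  have hB0 : 0 < a.B := by linarith
  obtain ⟨E, hE⟩ : ∃ E, E = Real.exp (a.Ps T - a.Ps Q) := ⟨_, rfl⟩
  have hE0 : 0 < E := by rw [hE]; exact Real.exp_pos _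
  obtain ⟨θ, hθ⟩ : ∃ θ, θ = ∏ l ∈ grw T Q, a.th T l.1 := ⟨_, rfl⟩
  have hθ1 : 1 / a.B ^ d ≤ θ := by
    rw [hθ]
    exact (prod_th_ge a hTD).trans (prod_th_le a T _)
  obtain ⟨c, hc⟩ : ∃ c, c = 2 * Real.exp (-a.P + 2 * a.gam) + Real.exp (-(a.P / 2)) := ⟨_, rfl⟩
  have hc0 : 0 < c := by rw [hc]; positivity
  rw [← hE, ← hθ]
  have hterm : ∀ R ∈ (sub Q).filter (fun R => near T R ∧ ¬ R ≤ T ∧ R ≠ Q),
      Pr D a.p (CIG l a.h R) * a.V (T ⊔ R) Q D ≤ E * c := by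
    intro R hR
    obtain ⟨hR1, hR2, hR3, hR4⟩ := Finset.mem_filter.1 hR
    obtain ⟨hNR, hRQ⟩ := mem_sub.1 hR1
    have hTR : T ⊔ R ≠ T := fun h => hR3 (le_trans le_sup_right h.le)
    have hle : T ⊔ R ≤ Q := sup_le hTQ hRQ
    have hN : Ne (T ⊔ R) := hT.sup_left
    rcases hbig R hR1 hR4 with h3 | h3
    · have h3' : a.V (T ⊔ R) Q D ≤ 2 * Real.exp (a.Ps (T ⊔ R) - a.Ps Q) :=
        (hV (T ⊔ R) le_sup_left hle hTR).trans (Fp_le a hN (InD_mono a hN hle hQ) D)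
      have h4 := Ps_merge a hT hNR hR2
      calc Pr D a.p (CIG l a.h R) * a.V (T ⊔ R) Q D
          ≤ Real.exp (-a.P - a.Ps R) * (2 * Real.exp (a.Ps (T ⊔ R) - a.Ps Q)) :=
            mul_le_mul h3 h3' (V_nonneg a _ _ _) (Real.exp_pos _).le
        _ = 2 * Real.exp (-a.P - a.Ps R + (a.Ps (T ⊔ R) - a.Ps Q)) := by
            rw [Real.exp_add]; ring
        _ ≤ 2 * Real.exp ((a.Ps T - a.Ps Q) + (-a.P + 2 * a.gam)) := by
            apply mul_le_mul_of_nonneg_left _ (by norm_num)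
            apply Real.exp_le_exp.2
            linarith
        _ = E * (2 * Real.exp (-a.P + 2 * a.gam)) := by
            rw [Real.exp_add, hE]; ring
        _ ≤ E * c := by
            apply mul_le_mul_of_nonneg_left _ hE0.le
            rw [hc]
            have := Real.exp_pos (-(a.P / 2))
            linarith
    · have h4 := V_le_one a (T ⊔ R) Q D
      have h5 := Ps_nonneg a T
      calc Pr D a.p (CIG l a.h R) * a.V (T ⊔ R) Q D ≤ Pr D a.p (CIG l a.h R) * 1 :=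
            mul_le_mul_of_nonneg_left h4 (hPr R)
        _ ≤ Real.exp (-(d * a.A * lamk (d - 1) (l + 1)) - a.P / 2) := by rw [mul_one]; exact h3
        _ ≤ Real.exp ((a.Ps T - a.Ps Q) + (-(a.P / 2))) := by
            apply Real.exp_le_exp.2
            linarith
        _ = E * Real.exp (-(a.P / 2)) := by rw [Real.exp_add, hE]
        _ ≤ E * c := by
            apply mul_le_mul_of_nonneg_left _ hE0.le
            rw [hc]
            have := Real.exp_pos (-a.P + 2 * a.gam)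
            linarith
  refine (Finset.sum_le_sum hterm).trans ?_
  rw [Finset.sum_const, nsmul_eq_mul]
  have hcard : (((sub Q).filter (fun R => near T R ∧ ¬ R ≤ T ∧ R ≠ Q)).card : ℝ) ≤
      a.B ^ (2 * d) := by
    refine le_trans ?_ (card_sub (hT.mono hTQ) hQ.2)
    exact_mod_cast Finset.card_filter_le _ _
  have hnum := m5c_num a
  rw [← hc] at hnum
  calc (((sub Q).filter (fun R => near T R ∧ ¬ R ≤ T ∧ R ≠ Q)).card : ℝ) * (E * c) ≤
        a.B ^ (2 * d) * (E * c) := mul_le_mul_of_nonneg_right hcard (by positivity)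
    _ = E * (a.B ^ (2 * d) * c) := by ring
    _ ≤ E * (1 / 2 * (1 / a.B ^ d)) := mul_le_mul_of_nonneg_left hnum hE0.le
    _ ≤ E * (1 / 2 * θ) := by
        apply mul_le_mul_of_nonneg_left _ hE0.le
        linarith
    _ = 1 / 2 * (E * θ) := by ring

/-- [BTR-M5c] the stuck state. PROOF. `V_stuck`, `stuck_small`, `stuck_cols`, `Fp_ge_open`: `3/8 + 1/2 ≤ 1`. -/
theorem stuck_bound {T Q : Box d} {D : Finset (Site (d + l))} (hok : Ok a T Q) (hne : T ≠ Q)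
    (hPQ : a.Ps Q ≤ d * a.A * lamk (d - 1) (l + 1)) (hD : D ⊆ sites (cyl l a.kk Q))
    (hnear : ∀ v ∈ D, near (emb l T) (cc v) → cc (ps v) ≤ T)
    (hbig : ∀ R ∈ sub Q, R ≠ Q → Pr D a.p (CIG l a.h R) ≤ Real.exp (-a.P - a.Ps R) ∨
      Pr D a.p (CIG l a.h R) ≤ Real.exp (-(d * a.A * lamk (d - 1) (l + 1)) - a.P / 2))
    (hV : ∀ T' : Box d, T ≤ T' → T' ≤ Q → T' ≠ T → a.V T' Q D ≤ a.Fp T' Q D) :
    a.V T Q D ≤ a.Fp T Q D := by
  have h1 := V_stuck a hok.2.1 hne hD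
  have h2 := stuck_small a hok hnear hV
  have h3 := stuck_cols a hok hPQ hbig hV
  have h4 := Fp_ge_open a T Q D
  have hE0 := Real.exp_pos (a.Ps T - a.Ps Q)
  have hθ1 : 0 ≤ ∏ l ∈ grw T Q, a.th T l.1 := by
    refine le_trans ?_ ((prod_th_ge a (InD_mono a hok.1 hok.2.1 hok.2.2.1)).trans
      (prod_th_le a T _))
    have : 0 < a.B := by linarith [m5c_B1 a]
    positivity
  have h5 := mul_nonneg hE0.le hθ1
  linarith

end BTR
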