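import Pool.Agent.BTR.M4
import Pool.Agent.BTR.S11
import Pool.Agent.BTR.J1
import Pool.Agent.BTR.Q2
import Pool.Agent.BTR.E7
import Pool.Agent.BTR.M5a
import Pool.Agent.BTR.M5b
import Pool.Agent.BTR.M5c
set_option autoImplicit false

open scoped Classical
open Finset

/-! # The stuck state, the start, the main induction (cf. BTS/M5, M6a, M6b, M6c) -/

namespace BTR
open BTP BTS

variable {d l : ℕ} (a : Pc d l)

/-- [BTR-M6a] the start of the growth (cf. BTS/M6a.lean).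
PROOF. `CIG_start`; each term: `base` (`Ys ≤ 2h ≤ 2h+2`) and `hV`, `Fp_le` (`InD_mono`, `ne_pr`; `pr S ≤ Q` by `pr_cyl`, `pr_mono`): `≤ exp(-2P - Ps (pr S)) · 2 exp(Ps (pr S) - Ps Q)`; at most `B^{2d+4l}` boxes (`card_sub_cyl_kk`), `2 B^{2d+4l} ≤ e^P` (`hcnt`, `B ≥ 1`). -/
theorem start_bound {Q : Box d} (hQ : Ne Q) (hD : a.InD Q) {D : Finset (Site (d + l))}
    (hDs : D ⊆ sites (cyl l a.kk Q))
    (hV : ∀ T : Box d, Ne T → T ≤ Q → a.V T Q D ≤ a.Fp T Q D) :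
    Pr D a.p (CIG l a.h Q) ≤ Real.exp (-a.P - a.Ps Q) := by
  have hP := a.hP
  have hp0 := p_nonneg a
  have hp1 := p_le_one a
  have hB1 : 1 ≤ a.B := m5c_B1 a
  refine (CIG_start a hDs).trans ?_
  have h1 : ∀ S ∈ (sub (cyl l a.kk Q)).filter (fun S => (a.h : ℤ) ≤ Ys S ∧ Ys S ≤ 2 * a.h),
      Pr D a.p (IG S) * a.V (pr S) Q D ≤ 2 * Real.exp (-(2 * a.P) - a.Ps Q) := by
    intro S hS
    rw [Finset.mem_filter] at hS
    obtain ⟨hS0, hS1, hS2⟩ := hS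
    obtain ⟨hSne, hSQ⟩ := mem_sub.1 hS0
    have hSQ' : pr S ≤ Q := by
      have := pr_mono hSQ
      rwa [pr_cyl] at this
    have h2 := base a D hSne hS1 (by omega)
    have h3 := (hV (pr S) (ne_pr hSne) hSQ').trans
      (Fp_le a (ne_pr hSne) (InD_mono a (ne_pr hSne) hSQ' hD) D)
    have h4 : 0 ≤ a.V (pr S) Q D := V_nonneg a _ _ _
    calc Pr D a.p (IG S) * a.V (pr S) Q D
        ≤ Real.exp (-(2 * a.P) - a.Ps (pr S)) * (2 * Real.exp (a.Ps (pr S) - a.Ps Q)) :=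
          mul_le_mul h2 h3 h4 (Real.exp_nonneg _)
      _ = 2 * (Real.exp (-(2 * a.P) - a.Ps (pr S)) * Real.exp (a.Ps (pr S) - a.Ps Q)) := by ring
      _ = 2 * Real.exp (-(2 * a.P) - a.Ps Q) := by
          rw [← Real.exp_add]
          congr 2
          ring
  have h5 : (((sub (cyl l a.kk Q)).filter (fun S => (a.h : ℤ) ≤ Ys S ∧ Ys S ≤ 2 * a.h)).card : ℝ) ≤
      a.B ^ (2 * d + 4 * l) := by
    refine le_trans ?_ (card_sub_cyl_kk a hQ hD)
    exact_mod_cast Finset.card_filter_le _ _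
  have h6 : 2 * a.B ^ (2 * d + 4 * l) ≤ Real.exp a.P := by
    have h7 : a.B ^ (2 * d + 4 * l) ≤ a.B ^ (4 * d + 4 * l) := pow_le_pow_right₀ hB1 (by omega)
    have h8 : 1 ≤ Real.exp (2 * a.gam) := Real.one_le_exp (by linarith [a.hgam0])
    have h9 : 0 < a.B ^ (4 * d + 4 * l) := by positivity
    have h10 : 2 * a.B ^ (2 * d + 4 * l) ≤ 16 * a.B ^ (4 * d + 4 * l) * Real.exp (2 * a.gam) := by
      nlinarith
    refine (h10.trans a.hcnt).trans (Real.exp_le_exp.2 (by linarith))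
  calc ∑ S ∈ (sub (cyl l a.kk Q)).filter (fun S => (a.h : ℤ) ≤ Ys S ∧ Ys S ≤ 2 * a.h),
        Pr D a.p (IG S) * a.V (pr S) Q D
      ≤ ∑ _S ∈ (sub (cyl l a.kk Q)).filter (fun S => (a.h : ℤ) ≤ Ys S ∧ Ys S ≤ 2 * a.h),
        2 * Real.exp (-(2 * a.P) - a.Ps Q) := Finset.sum_le_sum h1
    _ = (((sub (cyl l a.kk Q)).filter (fun S => (a.h : ℤ) ≤ Ys S ∧ Ys S ≤ 2 * a.h)).card : ℝ) *
          (2 * Real.exp (-(2 * a.P) - a.Ps Q)) := by
        rw [Finset.sum_const, nsmul_eq_mul]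
    _ ≤ a.B ^ (2 * d + 4 * l) * (2 * Real.exp (-(2 * a.P) - a.Ps Q)) :=
        mul_le_mul_of_nonneg_right h5 (by positivity)
    _ = 2 * a.B ^ (2 * d + 4 * l) * Real.exp (-(2 * a.P) - a.Ps Q) := by ring
    _ ≤ Real.exp a.P * Real.exp (-(2 * a.P) - a.Ps Q) :=
        mul_le_mul_of_nonneg_right h6 (Real.exp_nonneg _)
    _ = Real.exp (-a.P - a.Ps Q) := by
        rw [← Real.exp_add]
        congr 1
        ring

end BTR
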