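import Pool.Agent.BTR.M4
import Pool.Agent.BTR.S11
import Pool.Agent.BTR.J1
import Pool.Agent.BTR.Q2
import Pool.Agent.BTR.E7
import Pool.Agent.BTR.M5a
import Pool.Agent.BTR.M5b
import Pool.Agent.BTR.M5c
import Pool.Agent.BTR.M5d
set_option autoImplicit false

open scoped Classical
open Finset

/-! # The stuck state, the start, the main induction (cf. BTS/M5, M6a, M6b, M6c) -/

namespace BTR
open BTP BTS

variable {d l : ℕ} (a : Pc d l)

/-- revealing one site, with the bounds for the later states -/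
theorem m5e_rv (a : Pc d l) {T Q : Box d} {D : Finset (Site (d + l))} {v : Site (d + l)}
    (hv : v ∈ D) (hD : D ⊆ sites (cyl l a.kk Q)) (hn : near (emb l T) (cc v)) (hTQ : T ≤ Q)
    (hF : ∀ T' : Box d, T ≤ T' → T' ≤ Q → a.V T' Q (D.erase v) ≤ a.Fp T' Q (D.erase v)) :
    a.V T Q D ≤ RV a T Q D v (fun T' D' => a.Fp T' Q D') := by
  have hp0 := p_nonneg a
  have hp1 := p_le_one a
  refine (V_reveal a hv hD hn).trans ?_
  unfold RV
  have hvQ : cc (ps v) ≤ Q := (mem_cyl.1 (hD hv)).1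
  refine add_le_add (mul_le_mul_of_nonneg_left (hF T le_rfl hTQ) (by linarith))
    (mul_le_mul_of_nonneg_left ?_ hp0)
  refine add_le_add (hF _ le_sup_left (sup_le hTQ hvQ)) (Finset.sum_le_sum fun S hS => ?_)
  have hSQ : pr S ≤ Q := by
    unfold cmpd at hS
    have h1 := (mem_sub.1 (Finset.mem_filter.1 hS).1).2
    have h2 := pr_mono h1
    rwa [pr_cyl] at h2
  exact mul_le_mul_of_nonneg_left (hF _ le_sup_left (sup_le hTQ hSQ)) (Pr_nonneg hp0 hp1)

/-- [BTR-M6b] the main induction (cf. BTS/M6b.lean).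
PROOF. Strong induction on `N`, with `D.card + (Ys Q - Ys T).toNat ≤ N`. `T = Q`: `V_le_one`, `Fp_self`. `Ps T ≥ Ps Q + d log B`: `one_le_Fp`, `V_le_one`. Otherwise `Ok a T Q` (`hLm`: `Ps T < Λ + d log B`, `d log B + (4h + d + 8) γ < Λ`).
If there are `v ∈ D`, `j` with `inL T j 1 (ps v)`, `ht v ∈ Hs`: `near_inL1`, `V_reveal` (it is `V ≤ RV (fun T' D' => V T' Q D')`), the induction hypothesis for all states `(T', D.erase v)` in `RV` (`T' ∈ {T, T ⊔ cc (ps v), T ⊔ pr S}`: `Ne`, `≤ Q` by `hD`, `mem_cyl`, `pr_cyl`; `(D.erase v).card = D.card - 1` and `Ys T' ≥ Ys T`; `0 ≤ p ≤ 1`, `Pr ≥ 0`), `reveal_L1`.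
Otherwise all `n1 T D j = 0` (`n1_zero`). If there is `v ∈ D` with `inC T i j (ps v)`, heights `1`: `reveal_C`; with `inL T j 2 (ps v)`, heights `1`: `reveal_L2`.
Otherwise `near_cases'` (heights `≥ 1` by `hD`, `mem_cyl`) gives `hnear` of `stuck_bound`. `hV`: the induction hypothesis, as `Ys T' > Ys T` (`Ys_lt`), same `D`. `hbig`: for `R ∈ sub Q`, `R ≠ Q`: `Rg l kk D` (`mem_cyl`), `InD R`; `IH` if `Ps R ≤ Λ`, otherwise `exit_bound` (with `IH` for the columns `≤ R`). -/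
theorem V_le {Q : Box d} (hQ : Ne Q) (hD : a.InD Q)
    (hPQ : a.Ps Q ≤ d * a.A * lamk (d - 1) (l + 1))
    (IH : ∀ R : Box d, Ne R → R ≤ Q → R ≠ Q → a.Ps R ≤ d * a.A * lamk (d - 1) (l + 1) →
      ∀ V : Finset (Site (d + l)), Rg l a.kk V → Pr V a.p (CIG l a.h R) ≤ Real.exp (-a.P - a.Ps R)) :
    ∀ (N : ℕ) (D : Finset (Site (d + l))) (T : Box d), D.card + (Ys Q - Ys T).toNat ≤ N →
      D ⊆ sites (cyl l a.kk Q) → Ne T → T ≤ Q → a.V T Q D ≤ a.Fp T Q D := by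
  intro N
  induction N using Nat.strong_induction_on with
  | _ N ih =>
  intro D T hN hDQ hT hTQ
  by_cases hTe : T = Q
  · rw [hTe, Fp_self]
    exact V_le_one a _ _ _
  have hInT : a.InD T := InD_mono a hT hTQ hD
  by_cases hexp : a.Ps Q + d * Real.log a.B ≤ a.Ps T
  · exact (V_le_one a _ _ _).trans (one_le_Fp a hInT D hexp)
  have hok : Ok a T Q := by
    refine ⟨hT, hTQ, hD, ?_⟩
    have h1 := a.hLm
    have h2 := a.hgam0
    have h3 : (0 : ℝ) ≤ (2 * (a.h : ℝ) + d + 6) * a.gam := by positivity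
    push Not at hexp
    nlinarith
  -- the later states
  have hrev : ∀ v ∈ D, near (emb l T) (cc v) →
      RV a T Q D v (fun T' D' => a.Fp T' Q D') ≤ a.Fp T Q D → a.V T Q D ≤ a.Fp T Q D := by
    intro v hv hn h
    refine (m5e_rv a hv hDQ hn hTQ ?_).trans h
    intro T' hTT' hT'Q
    have hc : (D.erase v).card < D.card := Finset.card_erase_lt_of_mem hv
    have hY := Ys_mono hTT'
    refine ih ((D.erase v).card + (Ys Q - Ys T').toNat) ?_ (D.erase v) T' le_rfl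
      ((Finset.erase_subset v D).trans hDQ) (hT.mono hTT') hT'Q
    omega
  have hle : ∀ v ∈ D, cc (ps v) ≤ Q := fun v hv => (mem_cyl.1 (hDQ hv)).1
  by_cases hL1 : ∃ v ∈ D, ∃ j, inL T j 1 (ps v) ∧ ht v ∈ Hs l
  · obtain ⟨v, hv, j, hj, hh⟩ := hL1
    have hn := (near_inL1 hT hj hh).1
    exact hrev v hv hn (reveal_L1 a hok hv hj hh (hle v hv) hn)
  by_cases hC : ∃ v ∈ D, ∃ i j : Dir d, i.1 ≠ j.1 ∧ inC T i j (ps v) ∧ ht v = fun _ => 1
  · obtain ⟨v, hv, i, j, hij, hc, hh⟩ := hC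
    have hn := (near_inC hT hij hc hh).1
    exact hrev v hv hn (reveal_C a hok hij hv hc hh (hle v hv) hn)
  by_cases hL2 : ∃ v ∈ D, ∃ j, inL T j 2 (ps v) ∧ ht v = fun _ => 1
  · obtain ⟨v, hv, j, hj, hh⟩ := hL2
    have hn := (near_inL2 hT hj hh).1
    refine hrev v hv hn (reveal_L2 a hok hv hj hh (hle v hv) hn ?_)
    exact n1_zero fun w hw hw1 hw2 => hL1 ⟨w, hw, j, hw2, hw1⟩
  refine stuck_bound a hok hTe hPQ hDQ ?_ ?_ ?_
  · intro v hv hn
    by_contra hcon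
    have hv1 : ∀ i : Fin l, 1 ≤ v (hi d l i) := fun i => ((mem_cyl.1 (hDQ hv)).2 i).1
    rcases near_cases' hT hv1 hn hcon with ⟨j, h1, h2⟩ | ⟨j, h1, h2⟩ | ⟨i, j, hij, h1, h2⟩
    · exact hL1 ⟨v, hv, j, h1, h2⟩
    · exact hL2 ⟨v, hv, j, h1, h2⟩
    · exact hC ⟨v, hv, i, j, hij, h1, h2⟩
  · intro R hR hRQ
    obtain ⟨hRn, hRle⟩ := mem_sub.1 hR
    have hRg : Rg l a.kk D := fun v hv i => (mem_cyl.1 (hDQ hv)).2 i
    by_cases hPR : a.Ps R ≤ d * a.A * lamk (d - 1) (l + 1)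
    · left
      exact IH R hRn hRle hRQ hPR D hRg
    · right
      push Not at hPR
      refine exit_bound a hRn (InD_mono a hRn hRle hD) hPR ?_ hRg
      intro T' hT' hT'R hPT' V hV
      refine IH T' hT' (hT'R.trans hRle) ?_ hPT' V hV
      rintro rfl
      exact hRQ (le_antisymm hRle hT'R)
  · intro T' hTT' hT'Q hne
    have hY := Ys_lt hTT' (fun h => hne h.symm)
    have hY2 := Ys_mono hT'Q
    exact ih (D.card + (Ys Q - Ys T').toNat) (by omega) D T' le_rfl hDQ (hT.mono hTT') hT'Q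

end BTR
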