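import Pool.Agent.BTR.M4
import Pool.Agent.BTR.S11
import Pool.Agent.BTR.J1
import Pool.Agent.BTR.Q2
import Pool.Agent.BTR.E7
import Pool.Agent.BTR.M5a
import Pool.Agent.BTR.M5b
import Pool.Agent.BTR.M5c
import Pool.Agent.BTR.M5d
import Pool.Agent.BTR.M5e
set_option autoImplicit false

open scoped Classical
open Finset

/-! # The stuck state, the start, the main induction (cf. BTS/M5, M6a, M6b, M6c) -/

namespace BTR
open BTP BTS

variable {d l : ℕ} (a : Pc d l)

/-- [BTR-M6c] the main bound. PROOF. Strong induction on `(Ys Q).toNat`: `R ≤ Q`, `R ≠ Q` imply `Ys R < Ys Q` (`Ys_lt`) and `InD R`. `Pr_CIG_cyl`, `start_bound` with `D = V ∩ sites (cyl l kk Q)`, `V_le`. -/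
theorem main_bound {Q : Box d} (hQ : Ne Q) (hD : a.InD Q)
    (hPQ : a.Ps Q ≤ d * a.A * lamk (d - 1) (l + 1))
    {V : Finset (Site (d + l))} (hV : Rg l a.kk V) :
    Pr V a.p (CIG l a.h Q) ≤ Real.exp (-a.P - a.Ps Q) := by
  have main : ∀ (N : ℕ) (Q : Box d), (Ys Q).toNat = N → Ne Q → a.InD Q →
      a.Ps Q ≤ d * a.A * lamk (d - 1) (l + 1) → ∀ V : Finset (Site (d + l)), Rg l a.kk V →
      Pr V a.p (CIG l a.h Q) ≤ Real.exp (-a.P - a.Ps Q) := by
    intro N
    induction N using Nat.strong_induction_on with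
    | _ N ih =>
      intro Q hN hQ hD hPQ V hV
      have IH : ∀ R : Box d, Ne R → R ≤ Q → R ≠ Q →
          a.Ps R ≤ d * a.A * lamk (d - 1) (l + 1) →
          ∀ V : Finset (Site (d + l)), Rg l a.kk V →
            Pr V a.p (CIG l a.h R) ≤ Real.exp (-a.P - a.Ps R) := by
        intro R hR hRQ hne hPR V hV
        have h1 : Ys R < Ys Q := Ys_lt hRQ hne
        have h2 : 0 ≤ Ys R := Ys_nonneg hR
        exact ih (Ys R).toNat (by omega) R rfl hR (InD_mono a hR hRQ hD) hPR V hV
      have hVle := V_le a hQ hD hPQ IH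
      rw [Pr_CIG_cyl hV a.h a.p Q]
      refine start_bound a hQ hD Finset.inter_subset_right ?_
      intro T hT hTQ
      exact hVle _ (V ∩ sites (cyl l a.kk Q)) T le_rfl Finset.inter_subset_right hT hTQ
  exact main _ Q rfl hQ hD hPQ V hV

end BTR
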