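import Pool.Agent.BTR.M5a
import Pool.Agent.BTR.M5b
import Pool.Agent.BTR.M5c
import Pool.Agent.BTR.M5d
import Pool.Agent.BTR.M5e
import Pool.Agent.BTR.M5f
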