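import Pool.Agent.BTR.M4b
import Pool.Agent.BTR.M4c
import Pool.Agent.BTR.M5
import Pool.Agent.BTR.E2
import Pool.Agent.BTR.V21

set_option autoImplicit false

open scoped Classical
open Finset

/-! # Columns out of the domain (helper69) -/

namespace BTR
open BTP BTS

variable {d l : ℕ} (a : Pc d l)

/-- [BTR-M7] the value out of the domain -/
theorem Ps_out' {T : Box d} (hT : Ne T) (h : ¬ (a.InD T ∧ a.Ps T ≤ d * a.A * lamk (d - 1) (l + 1))) :
    d * a.A * lamk (d - 1) (l + 1) - Er a ≤ a.Ps T := by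
  have hEr := Er_nonneg a
  by_cases hin : a.InD T
  · have h6 : ¬ a.Ps T ≤ d * a.A * lamk (d - 1) (l + 1) := fun h' => h ⟨hin, h'⟩
    have h7 := not_le.1 h6
    linarith
  · exact Ps_out a hT hin

/-- [BTR-M7] a column out of the domain: leaving by a merge (`CGen_exit`), `bk`, `main_bound`, `small_merge`, `Ps_merge` -/
theorem out_bound {W : Box d} (hW : Ne W) {M : ℝ} (hM : ∀ i, (sd W i : ℝ) ≤ M)
    {V : Finset (Site (d + l))} (hV : V ⊆ sites (cyl l a.kk W)) :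
    Pr V a.p (fun U => ∃ Q : Box d, CIG l a.h Q U ∧
        ¬ (a.InD Q ∧ a.Ps Q ≤ d * a.A * lamk (d - 1) (l + 1))) ≤
      2 * M ^ (4 * d) * (a.kk : ℝ) ^ (2 * l) *
        Real.exp (-(d * a.A * lamk (d - 1) (l + 1)) + Er a + 2 * a.gam) := by
  have hg := a.hgam0
  have hp0 := p_nonneg a
  have hp1 := p_le_one a
  have hP := a.hP
  set Lm := d * a.A * lamk (d - 1) (l + 1) with hLm
  set D : Box d → Prop := fun Q => a.InD Q ∧ a.Ps Q ≤ Lm with hD
  have hEr := Er_nonneg a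
  have hRg : Rg l a.kk V := fun v hv i => ((mem_cyl.1 (hV hv)).2 i)
  have hd0 : 0 < d := by have := a.hd; omega
  have hM1 : 1 ≤ M := by
    have h1 := hM ⟨0, hd0⟩
    have h2 := sd_cast hW ⟨0, hd0⟩
    have h3 := hW ⟨0, hd0⟩
    have h4 : (1 : ℤ) ≤ sd W ⟨0, hd0⟩ := by omega
    have h5 : (1 : ℝ) ≤ sd W ⟨0, hd0⟩ := by exact_mod_cast h4
    linarith
  set S1 : Finset (Box d × Box (d + l)) := (sub W ×ˢ sub (cyl l a.kk W)).filter (fun y =>
    D y.1 ∧ ¬ D (y.1 ⊔ pr y.2) ∧ near (emb l y.1) y.2 ∧ Ys y.2 < a.h) with hS1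
  set S2 : Finset (Box d × Box d) := (sub W ×ˢ sub W).filter (fun y =>
    D y.1 ∧ D y.2 ∧ ¬ D (y.1 ⊔ y.2) ∧ near y.1 y.2) with hS2
  have hsub : ∀ U ⊆ V, (∃ Q : Box d, CIG l a.h Q U ∧ ¬ D Q) →
      (∃ y ∈ S1, dis (CIG l a.h y.1) (IG y.2) U) ∨ ∃ y ∈ S2, dis (CIG l a.h y.1) (CIG l a.h y.2) U := by
    rintro U hU ⟨Q, ⟨W', hW'U, hg'⟩, hQ⟩
    have hin : ∀ v ∈ W', cc (ps v) ≤ W := fun v hv => (mem_cyl.1 (hV (hU (hW'U hv)))).1
    have hQW : Q ≤ W := CGen_le_of hg' hin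
    rcases CGen_exit D (fun S hS hY => dom_base a hS hY) hg' hQ with
      ⟨T, S, WT, WS, h1, h2, h3, h4, h5, h6, h7, h8, h9, h10⟩ |
      ⟨T, T', WT, WT', h1, h2, h3, h4, h5, h6, h7, h8, h9, h10⟩
    · left
      refine ⟨(T, S), ?_, WT, WS, h8, h9.trans hW'U, h10.trans hW'U, ⟨WT, Finset.Subset.refl _, h6⟩,
        ⟨WS, Finset.Subset.refl _, h7⟩⟩
      rw [hS1, Finset.mem_filter, Finset.mem_product, BTP.mem_sub, BTP.mem_sub]
      refine ⟨⟨⟨CGen_ne h6, (le_sup_left.trans h5).trans hQW⟩, h7.ne, ?_⟩, h1, h2, h3, h4⟩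
      exact Gen_le_cyl h7 (fun v hv => hV (hU (hW'U (h10 hv))))
    · right
      refine ⟨(T, T'), ?_, WT, WT', h8, h9.trans hW'U, h10.trans hW'U, ⟨WT, Finset.Subset.refl _, h6⟩,
        ⟨WT', Finset.Subset.refl _, h7⟩⟩
      rw [hS2, Finset.mem_filter, Finset.mem_product, BTP.mem_sub, BTP.mem_sub]
      exact ⟨⟨⟨CGen_ne h6, (le_sup_left.trans h5).trans hQW⟩,
        ⟨CGen_ne h7, (le_sup_right.trans h5).trans hQW⟩⟩, h1, h2, h3, h4⟩
  set R := Real.exp (-Lm + Er a + 2 * a.gam) with hR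
  have hR0 : 0 < R := Real.exp_pos _
  have hb1 : ∀ y ∈ S1, Pr V a.p (dis (CIG l a.h y.1) (IG y.2)) ≤ R := by
    rintro ⟨T, S⟩ hy
    rw [hS1, Finset.mem_filter, Finset.mem_product, BTP.mem_sub, BTP.mem_sub] at hy
    obtain ⟨⟨⟨b1, b2⟩, ⟨b3, b4⟩⟩, b5, b6, b7, b8⟩ := hy
    simp only at b1 b2 b3 b4 b5 b6 b7 b8 ⊢
    have e1 := BTP.bk hp0 a.hp2 V (CIG l a.h T) (IG S) (Inc_CIG _ _) (Inc_IG _)
    have e2 := main_bound a b1 b5.1 b5.2 hRg
    have e3 := small_merge a b1 b5.1 b3 b7 b8 V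
    have e4 : Pr V a.p (IG S) ≤ Real.exp (a.Ps T - a.Ps (T ⊔ pr S)) := by
      have e5 : Real.exp (a.Ps T - a.Ps (T ⊔ pr S)) * Real.exp (a.Ps (T ⊔ pr S) - a.Ps T) = 1 := by
        rw [← Real.exp_add]
        simp
      have e6 : 0 < Real.exp (a.Ps (T ⊔ pr S) - a.Ps T) := Real.exp_pos _
      rw [← e5] at e3
      exact le_of_mul_le_mul_right e3 e6
    have e5 := Ps_out' a (BTP.Ne.sup_left (S := pr S) b1) b6
    refine e1.trans ((mul_le_mul e2 e4 (Pr_nonneg hp0 hp1) (Real.exp_nonneg _)).trans ?_)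
    rw [← Real.exp_add]
    refine Real.exp_le_exp.2 ?_
    linarith
  have hb2 : ∀ y ∈ S2, Pr V a.p (dis (CIG l a.h y.1) (CIG l a.h y.2)) ≤ R := by
    rintro ⟨T, T'⟩ hy
    rw [hS2, Finset.mem_filter, Finset.mem_product, BTP.mem_sub, BTP.mem_sub] at hy
    obtain ⟨⟨⟨b1, b2⟩, ⟨b3, b4⟩⟩, b5, b6, b7, b8⟩ := hy
    simp only at b1 b2 b3 b4 b5 b6 b7 b8 ⊢
    have e1 := BTP.bk hp0 a.hp2 V (CIG l a.h T) (CIG l a.h T') (Inc_CIG _ _) (Inc_CIG _ _)
    have e2 := main_bound a b1 b5.1 b5.2 hRg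
    have e3 := main_bound a b3 b6.1 b6.2 hRg
    have e4 := Ps_merge a b1 b3 b8
    have e5 := Ps_out' a (BTP.Ne.sup_left (S := T') b1) b7
    refine e1.trans ((mul_le_mul e2 e3 (Pr_nonneg hp0 hp1) (Real.exp_nonneg _)).trans ?_)
    rw [← Real.exp_add]
    refine Real.exp_le_exp.2 ?_
    linarith
  have hc1 : (S1.card : ℝ) ≤ M ^ (4 * d) * (a.kk : ℝ) ^ (2 * l) := by
    have e1 : (S1.card : ℝ) ≤ ((sub W).card : ℝ) * ((sub (cyl l a.kk W)).card : ℝ) := by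
      rw [← Nat.cast_mul, ← Finset.card_product]
      exact_mod_cast Finset.card_filter_le _ _
    have e2 := card_sub hW hM
    have e3 := card_sub_cyl (l := l) (k := a.kk) hW hM
    have e4 : M ^ (4 * d) * (a.kk : ℝ) ^ (2 * l) = M ^ (2 * d) * (M ^ (2 * d) * (a.kk : ℝ) ^ (2 * l)) := by
      rw [← mul_assoc, ← pow_add]
      congr 2
      ring
    rw [e4]
    exact e1.trans (mul_le_mul e2 e3 (Nat.cast_nonneg _) (by positivity))
  by_cases hVe : V = ∅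
  · rw [hVe]
    have h0 : Pr (∅ : Finset (Site (d + l))) a.p (fun U => ∃ Q : Box d, CIG l a.h Q U ∧
        ¬ (a.InD Q ∧ a.Ps Q ≤ Lm)) = 0 := by
      rw [Pr_empty, if_neg]
      rintro ⟨Q, ⟨W', hW', hg'⟩, -⟩
      obtain ⟨w, hw⟩ := CGen_nonempty hg'
      exact absurd (hW' hw) (Finset.notMem_empty w)
    rw [h0]
    positivity
  · have hkk : 1 ≤ (a.kk : ℝ) ^ (2 * l) := by
      rcases Nat.eq_zero_or_pos l with hl | hl
      · have h2l : 2 * l = 0 := by omega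
        rw [h2l]
        simp
      · obtain ⟨v, hv⟩ := Finset.nonempty_iff_ne_empty.2 hVe
        have h1 := (mem_cyl.1 (hV hv)).2 ⟨0, hl⟩
        have h2 : (1 : ℤ) ≤ a.kk := h1.1.trans h1.2
        have h3 : (1 : ℝ) ≤ a.kk := by exact_mod_cast h2
        exact one_le_pow₀ h3
    have hc2 : (S2.card : ℝ) ≤ M ^ (4 * d) * (a.kk : ℝ) ^ (2 * l) := by
      have e1 : (S2.card : ℝ) ≤ ((sub W).card : ℝ) * ((sub W).card : ℝ) := by
        rw [← Nat.cast_mul, ← Finset.card_product]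
        exact_mod_cast Finset.card_filter_le _ _
      have e2 := card_sub hW hM
      have e4 : M ^ (4 * d) = M ^ (2 * d) * M ^ (2 * d) := by
        rw [← pow_add]
        congr 1
        ring
      have e5 : (S2.card : ℝ) ≤ M ^ (4 * d) := by
        rw [e4]
        exact e1.trans (mul_le_mul e2 e2 (Nat.cast_nonneg _) (by positivity))
      exact e5.trans (le_mul_of_one_le_right (by positivity) hkk)
    have h1 := (Pr_mono hp0 hp1 hsub).trans (Pr_or hp0 hp1)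
    have h2 := (Pr_union hp0 hp1 S1 (V := V) (fun y => dis (CIG l a.h y.1) (IG y.2))).trans
      (Finset.sum_le_sum hb1)
    have h3 := (Pr_union hp0 hp1 S2 (V := V) (fun y => dis (CIG l a.h y.1) (CIG l a.h y.2))).trans
      (Finset.sum_le_sum hb2)
    rw [Finset.sum_const, nsmul_eq_mul] at h2 h3
    have h4 := mul_le_mul_of_nonneg_right hc1 hR0.le
    have h5 := mul_le_mul_of_nonneg_right hc2 hR0.le
    calc _ ≤ _ := h1
      _ ≤ M ^ (4 * d) * (a.kk : ℝ) ^ (2 * l) * R + M ^ (4 * d) * (a.kk : ℝ) ^ (2 * l) * R := by linarith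
      _ = 2 * M ^ (4 * d) * (a.kk : ℝ) ^ (2 * l) * R := by ring

end BTR
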