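import Pool.Agent.BTR.A6
import Pool.Agent.BTR.V12
import Pool.Agent.BTR.M8
import Pool.Agent.BTR.CH1
import Pool.Agent.BTR.CH2
import Pool.Agent.BTP.C1

set_option autoImplicit false

open scoped Classical
open Finset Filter

/-! # The one-corner theorem from the main bound -/

namespace BTR
open BTP BTS

/-- the columns in the domain -/
def Good {d l : ℕ} (a : Pc d l) (Q : Box d) : Prop :=
  a.InD Q ∧ a.Ps Q ≤ d * a.A * lamk (d - 1) (l + 1)

/-- [BTR-CH3] the structure of the event: a column out of the domain or many columns.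
PROOF. `spanning'` (`a.hh`), `cov_Bu` (the sites of `U` are covered by `Fam.cov`; heights `≥ 1` by `sites V`). If a column of the family is not in the domain: the first alternative. Otherwise all `c.1 ∈ (sub (pr V)).filter Good` (`CGen_ne`, `CGen_le_of`; the sites of `U ⊆ sites V` have `cc (ps v) ≤ pr V`), sides `≤ B`, `cols_many`: `s ≤ C.card (B + 2h + 2)`, so `n ≤ C.card`, `Dj_of_fam`. -/
theorem oce_cases {d l : ℕ} (a : Pc d l) {V : Box (d + l)}
    (hV1 : ∀ i : Fin l, V (hi d l i, false) ≤ -1) {s : ℝ} (hs : (a.h : ℝ) ≤ s) {n : ℕ}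
    (hn : (n : ℝ) < s / (a.B + 2 * a.h + 2) + 1) {U : Finset (Site (d + l))} (hU : U ⊆ sites V)
    (h : OCE d l V s U) :
    (∃ Q : Box d, CIG l a.h Q U ∧ ¬ Good a Q) ∨
      Dj l a.h ((sub (pr V)).filter (Good a)) n U := by
  obtain ⟨X, hXV, hcn, hbu, i, hL⟩ := h
  obtain ⟨C, M, hf, h1, h2, h3⟩ := spanning' (h := a.h) a.hh U
  have hht : ∀ v ∈ sites V, ∀ i : Fin l, 1 ≤ v (hi d l i) := by
    intro v hv i
    rw [mem_sites] at hv
    have e1 : cc v (hi d l i, false) ≤ V (hi d l i, false) := hv _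
    have e2 := hV1 i
    have e3 : cc v (hi d l i, false) = - v (hi d l i) := by simp [cc]
    rw [e3] at e1
    omega
  have hcov : ∀ u ∈ X, Cov C M u :=
    cov_Bu h1 h2 h3 (fun u hu => hf.cov u hu) (fun u hu => hht u (hXV hu)) hbu
  by_cases hg : ∀ c ∈ C, Good a c.1
  · right
    have hb : ∀ c ∈ C, (sd c.1 i : ℝ) ≤ a.B := fun c hc => (hg c hc).1.2 i
    have h4 := cols_many hf h2 hcov hcn hL hb hs
    have hB : 0 < a.B + 2 * a.h + 2 := by
      have := a.hHB
      have := a.hH1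
      have : (0 : ℝ) ≤ a.h := Nat.cast_nonneg _
      linarith
    have h5 : s / (a.B + 2 * a.h + 2) ≤ C.card := by
      rw [div_le_iff₀ hB]
      exact h4
    have h6 : n ≤ C.card := by
      have : (n : ℝ) < (C.card : ℝ) + 1 := by linarith
      have : n < C.card + 1 := by exact_mod_cast this
      omega
    apply Dj_of_fam hf _ h6
    intro c hc
    obtain ⟨hgc, hcU⟩ := hf.col c hc
    rw [Finset.mem_filter, BTP.mem_sub]
    refine ⟨⟨CGen_ne hgc, CGen_le_of hgc ?_⟩, hg c hc⟩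
    intro v hv
    have e1 := hU (hcU hv)
    rw [mem_sites] at e1
    have e2 := pr_mono e1
    rw [pr_cc] at e2
    exact e2
  · left
    push Not at hg
    obtain ⟨c, hc, hgc⟩ := hg
    exact ⟨c.1, ⟨c.2, (hf.col c hc).2, (hf.col c hc).1⟩, hgc⟩

theorem ch3_q {d l : ℕ} (a : Pc d l) {L q p : ℝ} (hA : a.A = Real.exp L)
    (hq : q * Real.exp L ^ (d - 1) = 1) (hp : p = 1 - Real.exp (-q)) : p = a.p := by
  have h1 := a.hqA
  rw [hA] at h1
  have h2 : 0 < Real.exp L ^ (d - 1) := pow_pos (Real.exp_pos _) _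
  have h3 : q = a.q := by
    apply mul_right_cancel₀ h2.ne'
    rw [hq, h1]
  rw [hp, h3, a.hp]

/-- polynomials against `exp` -/
theorem ch3_lin (c : ℝ) : ∀ᶠ L : ℝ in atTop, c * L ≤ Real.exp (L / 2) := by
  filter_upwards [a6_pow 1 (|c| + 1) (by positivity), eventually_ge_atTop (0 : ℝ)] with L h1 h2
  have h3 := le_abs_self c
  rw [pow_one] at h1
  nlinarith

theorem one_corner' (D l : ℕ) (hD : 2 ≤ D) : ∃ C : ℝ, 0 < C ∧ ∀ᶠ L : ℝ in atTop,
    ∀ q p : ℝ, q * Real.exp L ^ (D - 1) = 1 → p = 1 - Real.exp (-q) →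
    ∀ V : Box (D + l), Ne V → (∀ i : Fin l, V (hi D l i, false) ≤ -1) →
    (∀ i : Fin l, (V (hi D l i, true) : ℝ) ≤ Real.exp L ^ 2) →
    (∀ i : Fin D, (sd V (lo D l i) : ℝ) ≤ Real.exp L ^ 4) →
    Pr (sites V) p (OCE D l V (Real.exp L ^ 3)) ≤
      Real.exp (-(D * Real.exp L * lamk (D - 1) (l + 1)) + C * Real.exp (L / 2)) := by
  obtain ⟨C0, hC0, hev⟩ := exists_pc' (l := l) hD
  refine ⟨C0 + 2, by linarith, ?_⟩
  have hD0 : (2 : ℝ) ≤ D := by exact_mod_cast hD
  filter_upwards [hev, eventually_ge_atTop (1 : ℝ), ch3_lin (16 * D + 4 * l),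
    eventually_ge_atTop (lamk (D - 1) (l + 1))] with L hL hL1 hL2 hL3
  intro q p hq hp V hV hV1 hV2 hV3
  obtain ⟨a, hA, hB, hkk, hh, hP, hEr⟩ := hL
  rw [ch3_q a hA hq hp]
  clear hq hp
  have hp0 : 0 ≤ a.p := p_nonneg a
  have hp1 : a.p ≤ 1 := p_le_one a
  have hA1 : 1 ≤ a.A := by linarith [a.hA]
  rw [← hA]
  rw [← hA] at hV2 hV3 hkk
  set E := Real.exp (L / 2) with hE
  have hE1 : 1 ≤ E := Real.one_le_exp (by linarith)
  set lam := lamk (D - 1) (l + 1) with hlam
  set W := pr V with hW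
  have hWn : Ne W := ne_pr hV
  have hWs : ∀ i, sd W i = sd V (lo D l i) := fun i => rfl
  have hVc : sites V ⊆ sites (cyl l a.kk W) := by
    intro v hv
    rw [mem_cyl]
    rw [mem_sites] at hv
    refine ⟨?_, fun i => ⟨?_, ?_⟩⟩
    · have e2 := pr_mono hv
      rw [pr_cc] at e2
      exact e2
    · have e1 : cc v (hi D l i, false) ≤ V (hi D l i, false) := hv _
      have e2 := hV1 i
      have e3 : cc v (hi D l i, false) = - v (hi D l i) := by simp [cc]
      rw [e3] at e1
      omega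
    · have e1 : cc v (hi D l i, true) ≤ V (hi D l i, true) := hv _
      have e2 := hV2 i
      have e3 : cc v (hi D l i, true) = v (hi D l i) := by simp [cc]
      rw [e3] at e1
      rw [hkk]
      have e4 : ((v (hi D l i) : ℤ) : ℝ) ≤ a.A ^ 2 := by
        have : ((v (hi D l i) : ℤ) : ℝ) ≤ (V (hi D l i, true) : ℝ) := by exact_mod_cast e1
        linarith
      rw [← Int.floor_toNat]
      have e5 : v (hi D l i) ≤ ⌊a.A ^ 2⌋ := Int.le_floor.2 e4
      have e6 : (0 : ℤ) ≤ ⌊a.A ^ 2⌋ := Int.floor_nonneg.2 (by positivity)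
      rw [Int.toNat_of_nonneg e6]
      exact e5
  have hRg : Rg l a.kk (sites V) := fun v hv i => ((mem_cyl.1 (hVc hv)).2 i)
  -- the number of columns
  set n : ℕ := ⌈a.A / 2⌉₊ with hn
  have hhA : (a.h : ℝ) + 1 ≤ a.A := by
    have e1 := Real.add_one_le_exp L
    have e2 : 2 * L ≤ Real.exp L := by
      have e3 := Real.add_one_le_exp (L - 1)
      have e4 : Real.exp L = Real.exp 1 * Real.exp (L - 1) := by rw [← Real.exp_add]; congr 1; ring
      have e5 : (2 : ℝ) ≤ Real.exp 1 := by have := Real.add_one_le_exp (1 : ℝ); linarith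
      nlinarith
    rw [hA]
    have e6 : L + 2 ≤ Real.exp L := by
      by_contra hc
      push Not at hc
      have e7 := Real.quadratic_le_exp_of_nonneg (x := L) (by linarith)
      have hA10 := a.hA
      rw [hA] at hA10
      nlinarith
    linarith
  have hB2 : a.B ≤ a.A ^ 2 := by
    rw [hA, ← Real.exp_nat_mul]
    push_cast
    exact hB
  have hden : a.B + 2 * a.h + 2 ≤ 2 * a.A ^ 2 := by
    have := a.hA
    nlinarith
  have hcase : ∀ U ⊆ sites V, OCE D l V (a.A ^ 3) U →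
      (∃ Q : Box D, CIG l a.h Q U ∧ ¬ Good a Q) ∨ Dj l a.h ((sub W).filter (Good a)) n U := by
    intro U hU h
    apply oce_cases a hV1 _ _ hU h
    · have e1 : a.A ≤ a.A ^ 3 := le_self_pow₀ hA1 (by norm_num)
      linarith
    · have e0 : 0 ≤ a.A / 2 := by linarith
      have e1 := Nat.ceil_lt_add_one e0
      have e2 : a.A / 2 ≤ a.A ^ 3 / (a.B + 2 * a.h + 2) := by
        have hB0 : 0 < a.B + 2 * a.h + 2 := by
          have := a.hHB
          have := a.hH1
          have : (0 : ℝ) ≤ a.h := Nat.cast_nonneg _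
          linarith
        rw [div_le_div_iff₀ (by norm_num) hB0]
        have e3 : a.A * (a.B + 2 * a.h + 2) ≤ a.A * (2 * a.A ^ 2) :=
          mul_le_mul_of_nonneg_left hden (by linarith)
        nlinarith
      linarith
  -- the columns out of the domain
  have hM : ∀ i, (sd W i : ℝ) ≤ a.A ^ 4 := fun i => by rw [hWs]; exact hV3 i
  have hout := out_bound a hWn hM hVc
  have hexpA : a.A = Real.exp L := hA
  have hkkA : (a.kk : ℝ) ≤ a.A ^ 2 := a.hkk
  have ht1 : 2 * (a.A ^ 4) ^ (4 * D) * (a.kk : ℝ) ^ (2 * l) ≤ 2 * Real.exp ((16 * D + 4 * l) * L) := by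
    have e1 : (a.kk : ℝ) ^ (2 * l) ≤ (a.A ^ 2) ^ (2 * l) := pow_le_pow_left₀ (Nat.cast_nonneg _) hkkA _
    have e2 : (a.A ^ 4) ^ (4 * D) * (a.A ^ 2) ^ (2 * l) = Real.exp ((16 * D + 4 * l) * L) := by
      rw [← pow_mul, ← pow_mul, ← pow_add, hA, ← Real.exp_nat_mul]
      congr 1
      push_cast
      ring
    calc 2 * (a.A ^ 4) ^ (4 * D) * (a.kk : ℝ) ^ (2 * l) ≤ 2 * (a.A ^ 4) ^ (4 * D) * (a.A ^ 2) ^ (2 * l) :=
          mul_le_mul_of_nonneg_left e1 (by positivity)
      _ = 2 * ((a.A ^ 4) ^ (4 * D) * (a.A ^ 2) ^ (2 * l)) := by ring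
      _ = _ := by rw [e2]
  have hout2 : Pr (sites V) a.p (fun U => ∃ Q : Box D, CIG l a.h Q U ∧ ¬ Good a Q) ≤
      2 * Real.exp (-(D * a.A * lam) + (C0 + 1) * E) := by
    refine hout.trans ?_
    refine (mul_le_mul_of_nonneg_right ht1 (Real.exp_pos _).le).trans ?_
    rw [mul_assoc, ← Real.exp_add]
    refine mul_le_mul_of_nonneg_left (Real.exp_le_exp.2 ?_) (by norm_num)
    linarith
  -- many columns
  have hmain : ∀ T ∈ (sub W).filter (Good a), Pr (sites V) a.p (CIG l a.h T) ≤ Real.exp (-a.P) := by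
    intro T hT
    rw [Finset.mem_filter, BTP.mem_sub] at hT
    refine (main_bound a hT.1.1 hT.2.1 hT.2.2 hRg).trans (Real.exp_le_exp.2 ?_)
    have := Ps_nonneg a T
    linarith
  have hmany := Pr_Dj hp0 a.hp2 (Real.exp_pos _).le hmain n
  have hcard : (((sub W).filter (Good a)).card : ℝ) ≤ Real.exp (8 * D * L) := by
    have e1 : (((sub W).filter (Good a)).card : ℝ) ≤ ((sub W).card : ℝ) := by
      exact_mod_cast Finset.card_filter_le _ _
    have e2 := card_sub hWn hM
    refine e1.trans (e2.trans (le_of_eq ?_))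
    rw [hA, ← pow_mul, ← Real.exp_nat_mul]
    congr 1
    push_cast
    ring
  have hx : (((sub W).filter (Good a)).card : ℝ) * Real.exp (-a.P) ≤ Real.exp (-(12 * D * L)) := by
    calc (((sub W).filter (Good a)).card : ℝ) * Real.exp (-a.P) ≤ Real.exp (8 * D * L) * Real.exp (-a.P) :=
          mul_le_mul_of_nonneg_right hcard (Real.exp_pos _).le
      _ = Real.exp (8 * D * L - a.P) := by rw [← Real.exp_add]; congr 1
      _ ≤ _ := by
        apply Real.exp_le_exp.2
        rw [hP]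
        have : (0 : ℝ) ≤ l := Nat.cast_nonneg _
        have : 0 ≤ (l : ℝ) * L := by positivity
        nlinarith
  have hmany2 : Pr (sites V) a.p (Dj l a.h ((sub W).filter (Good a)) n) ≤
      Real.exp (-(D * a.A * lam) + (C0 + 1) * E) := by
    refine hmany.trans ((pow_le_pow_left₀ (by positivity) hx n).trans ?_)
    rw [← Real.exp_nat_mul]
    apply Real.exp_le_exp.2
    have e0 : a.A / 2 ≤ n := Nat.le_ceil _
    have e1 : 0 ≤ (C0 + 1) * E := by positivity
    have e2 : D * a.A * lam ≤ (n : ℝ) * (12 * D * L) := by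
      have e3 : (a.A / 2) * (12 * D * L) ≤ (n : ℝ) * (12 * D * L) :=
        mul_le_mul_of_nonneg_right e0 (by positivity)
      have e4 : D * a.A * lam ≤ D * a.A * L := mul_le_mul_of_nonneg_left hL3 (by positivity)
      have e5 : 0 ≤ D * a.A * L := by positivity
      nlinarith
    linarith
  -- the end
  have h1 := (Pr_mono hp0 hp1 hcase).trans (Pr_or hp0 hp1)
  have h2 : Pr (sites V) a.p (OCE D l V (a.A ^ 3)) ≤
      3 * Real.exp (-(D * a.A * lam) + (C0 + 1) * E) := by linarith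
  refine h2.trans ?_
  have e3 : (3 : ℝ) ≤ Real.exp E := by
    have e5 := Real.quadratic_le_exp_of_nonneg (x := E) (by linarith)
    have e6 : (3 / 2 : ℝ) ≤ E := by
      have := Real.add_one_le_exp (L / 2)
      linarith
    nlinarith
  calc 3 * Real.exp (-(D * a.A * lam) + (C0 + 1) * E) ≤
        Real.exp E * Real.exp (-(D * a.A * lam) + (C0 + 1) * E) :=
        mul_le_mul_of_nonneg_right e3 (Real.exp_pos _).le
    _ = Real.exp (-(D * a.A * lam) + (C0 + 2) * E) := by
        rw [← Real.exp_add]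
        congr 1
        ring

end BTR
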