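import Mathlib

set_option autoImplicit false

/-! # The functions `β_k`, `g_k` and the constants `λ` (shared by the lower and the upper bound) -/

namespace BTR

/-- `β_k(u)`, the positive root of `β² = (1 - (1-u)^k) β + u (1-u)^k` -/
noncomputable def bk (k : ℕ) (u : ℝ) : ℝ :=
  (1 - (1 - u) ^ k + Real.sqrt ((1 - (1 - u) ^ k) ^ 2 + 4 * u * (1 - u) ^ k)) / 2

/-- `g_k(z) = - log β_k(1 - e^{-z})` -/
noncomputable def gk (k : ℕ) (z : ℝ) : ℝ := - Real.log (bk k (1 - Real.exp (-z)))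

/-- `∫_0^∞ g_k(z^e) dz`; the constant of the sharp threshold is `λ(d, r) = lamk (d - r + 1) (r - 1)` -/
noncomputable def lamk (e k : ℕ) : ℝ := ∫ z in Set.Ioi (0 : ℝ), gk k (z ^ e)

end BTR
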