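import Pool.Agent.BTP.B3
import Pool.Agent.BTR.G0

set_option autoImplicit false

/-! # The `r`-neighbour process with helpers: definitions shared by all parts of the lower bound

A structure is a box `T` together with a set `J` of *thick* directions: everything outside the range of
`T` in a thick direction is infected (`Oj J T`). -/

open scoped Classical
open Finset

namespace BTR
open BTP

variable {d : ℕ}

/-- the neighbour of `v` in direction `j` -/
def stp (v : Site d) (j : Dir d) : Site d := Function.update v j.1 (v j.1 + if j.2 then 1 else -1)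

/-- the sites are nearest neighbours -/
def adj (u v : Site d) : Prop := ∃ j : Dir d, v = stp u j

/-- number of directions in which the neighbour of `v` is infected: it is in `X` or a helper -/
noncomputable def nbr (O : Set (Site d)) (X : Finset (Site d)) (v : Site d) : ℕ :=
  (Finset.univ.filter (fun j : Dir d => stp v j ∈ X ∨ stp v j ∈ O)).card

/-- the set can be infected site by site, starting from the seeds `U`, with the helpers `O`, threshold `r` -/
inductive Bu (r : ℕ) (O : Set (Site d)) (U : Finset (Site d)) : Finset (Site d) → Prop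
  | nil : Bu r O U ∅
  | add {X : Finset (Site d)} {v : Site d} (hX : Bu r O U X) (hv : v ∈ U ∨ r ≤ nbr O X v) :
      Bu r O U (insert v X)

/-- the set is not empty and connected -/
def Cn (X : Finset (Site d)) : Prop :=
  X.Nonempty ∧ ∀ u ∈ X, ∀ v ∈ X, Relation.ReflTransGen (fun a b => b ∈ X ∧ adj a b) u v

/-- the helpers of the structure: everything outside the range of `T` in the thick directions -/
def Oj (J : Finset (Fin d)) (T : Box d) : Set (Site d) :=
  {u | ∃ i ∈ J, u i < - T (i, false) ∨ T (i, true) < u i}

/-- the structure is crossed in direction `i` -/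
def Cr (r : ℕ) (J : Finset (Fin d)) (T : Box d) (i : Fin d) (U : Finset (Site d)) : Prop :=
  ∃ X : Finset (Site d), X ⊆ sites T ∧ Cn X ∧ Bu r (Oj J T) U X ∧
    (∃ u ∈ X, u i = - T (i, false)) ∧ ∃ u ∈ X, u i = T (i, true)

/-- the extent of `X` in direction `i` is at least `s` -/
def Lg (X : Finset (Site d)) (i : Fin d) (s : ℝ) : Prop := ∃ u ∈ X, ∃ v ∈ X, s ≤ (v i : ℝ) - u i

/-- the long direction `i` of `Z^(D+l)` -/
abbrev lo (D l : ℕ) (i : Fin D) : Fin (D + l) := Fin.castAdd l i
/-- the thick direction `i` of `Z^(D+l)` -/
abbrev hi (D l : ℕ) (i : Fin l) : Fin (D + l) := Fin.natAdd D i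

/-- the helpers of the one-corner structure: some thick coordinate is `≤ 0` -/
def Olow (D l : ℕ) : Set (Site (D + l)) := {u | ∃ i : Fin l, u (hi D l i) ≤ 0}

/-- the event of the one-corner theorem: a connected set of long extent at least `s` is built inside `V`
from the seeds in the one-corner structure (threshold `l + 2`) -/
def OCE (D l : ℕ) (V : Box (D + l)) (s : ℝ) (U : Finset (Site (D + l))) : Prop :=
  ∃ X : Finset (Site (D + l)), X ⊆ sites V ∧ Cn X ∧ Bu (l + 2) (Olow D l) U X ∧
    ∃ i : Fin D, Lg X (lo D l i) s

end BTR
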