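import Pool.Agent.BTR.D1
import Pool.Agent.BTS.E1
import Pool.Agent.BTP.B6
set_option autoImplicit false

open scoped Classical
open Finset

/-! # Columns and small boxes: basic facts -/

namespace BTR
open BTP BTS

variable {d l : ℕ}

/-- the heights of a site -/
def ht (v : Site (d + l)) : Fin l → ℤ := fun i => v (hi d l i)

theorem e1a_emb_lo (T : Box d) (i : Fin d) (b : Bool) : emb l T (Fin.castAdd l i, b) = T (i, b) := by
  unfold emb
  exact Fin.addCases_left i

theorem e1a_emb_hi (T : Box d) (i : Fin l) (b : Bool) :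
    emb l T (Fin.natAdd d i, b) = if b then 1 else -1 := by
  unfold emb
  exact Fin.addCases_right i

theorem e1a_cyl_lo (k : ℕ) (Q : Box d) (i : Fin d) (b : Bool) :
    cyl l k Q (Fin.castAdd l i, b) = Q (i, b) := by
  unfold cyl
  exact Fin.addCases_left i

theorem e1a_cyl_hi (k : ℕ) (Q : Box d) (i : Fin l) (b : Bool) :
    cyl l k Q (Fin.natAdd d i, b) = if b then (k : ℤ) else -1 := by
  unfold cyl
  exact Fin.addCases_right i

/-- [BTR-E1] -/
theorem pr_mono {S S' : Box (d + l)} (h : S ≤ S') : pr S ≤ pr S' := by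
  intro j
  exact h (lo d l j.1, j.2)

theorem pr_sup (S S' : Box (d + l)) : pr (S ⊔ S') = pr S ⊔ pr S' := by
  rfl

theorem pr_cc (v : Site (d + l)) : pr (cc v) = cc (ps v) := by
  funext j
  rfl

theorem ne_pr {S : Box (d + l)} (hS : Ne S) : Ne (pr S) := by
  intro i
  exact hS (lo d l i)

/-- [BTR-E1] PROOF. `Ys` is the sum over the axes of `S (i,true) + S (i,false) ≥ 0` (`Fintype.sum_prod_type`, `Fin.sum_univ_add`); the thick axes are dropped. -/
theorem Ys_pr_le {S : Box (d + l)} (hS : Ne S) : Ys (pr S) ≤ Ys S := by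
  have h1 : Ys (pr S) = ∑ i : Fin d, (S (lo d l i, true) + S (lo d l i, false)) := by
    unfold Ys
    rw [Fintype.sum_prod_type]
    refine Finset.sum_congr rfl fun i _ => ?_
    rw [Fintype.sum_bool]
    rfl
  have h2 : Ys S = ∑ i : Fin d, (S (lo d l i, true) + S (lo d l i, false)) +
      ∑ i : Fin l, (S (hi d l i, true) + S (hi d l i, false)) := by
    unfold Ys
    rw [Fintype.sum_prod_type, Fin.sum_univ_add]
    congr 1
    · exact Finset.sum_congr rfl fun i _ => Fintype.sum_bool _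
    · exact Finset.sum_congr rfl fun i _ => Fintype.sum_bool _
  have h3 : 0 ≤ ∑ i : Fin l, (S (hi d l i, true) + S (hi d l i, false)) :=
    Finset.sum_nonneg fun i _ => hS (hi d l i)
  omega

theorem emb_mono {T T' : Box d} (h : T ≤ T') : emb l T ≤ emb l T' := by
  rintro ⟨i, b⟩
  refine Fin.addCases (fun i => ?_) (fun i => ?_) i
  · rw [e1a_emb_lo, e1a_emb_lo]
    exact h (i, b)
  · rw [e1a_emb_hi, e1a_emb_hi]

theorem ne_emb {T : Box d} (hT : Ne T) : Ne (emb l T) := by
  intro i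
  refine Fin.addCases (fun i => ?_) (fun i => ?_) i
  · rw [e1a_emb_lo, e1a_emb_lo]
    exact hT i
  · rw [e1a_emb_hi, e1a_emb_hi]
    simp

theorem gap_emb (T : Box d) (S : Box (d + l)) (i : Fin d) :
    gap (emb l T) S (lo d l i) = gap T (pr S) i := by
  unfold gap
  rw [e1a_emb_lo, e1a_emb_lo]
  rfl

/-- [BTR-E1] PROOF. `Fin.sum_univ_add`, `gap ≥ 0`, `gap_emb`. -/
theorem near_of_emb {T : Box d} {S : Box (d + l)} (h : near (emb l T) S) : near T (pr S) := by
  have h' : ∑ i : Fin (d + l), gap (emb l T) S i ≤ 2 := h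
  show ∑ i : Fin d, gap T (pr S) i ≤ 2
  rw [Fin.sum_univ_add] at h'
  have h1 : ∑ i : Fin d, gap (emb l T) S (Fin.castAdd l i) = ∑ i : Fin d, gap T (pr S) i :=
    Finset.sum_congr rfl fun i _ => gap_emb T S i
  have h2 : 0 ≤ ∑ i : Fin l, gap (emb l T) S (Fin.natAdd d i) :=
    Finset.sum_nonneg fun i _ => le_max_left _ _
  rw [h1] at h'
  omega

/-- [BTR-E1] (`BTS.near_mono`) -/
theorem near_emb_mono {T T' : Box d} {S S' : Box (d + l)} (h : T ≤ T') (hS : S ≤ S')
    (hn : near (emb l T) S) : near (emb l T') S' := by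
  exact BTS.near_mono (emb_mono h) hS hn

/-- [BTR-E1] (`BTP.mem_sites`) -/
theorem mem_cyl {k : ℕ} {Q : Box d} {v : Site (d + l)} :
    v ∈ sites (cyl l k Q) ↔ cc (ps v) ≤ Q ∧ ∀ i : Fin l, 1 ≤ v (hi d l i) ∧ v (hi d l i) ≤ k := by
  rw [mem_sites]
  constructor
  · intro h
    refine ⟨?_, fun i => ⟨?_, ?_⟩⟩
    · rintro ⟨i, b⟩
      have h1 := h (lo d l i, b)
      rw [e1a_cyl_lo] at h1
      exact h1
    · have h1 := h (hi d l i, false)
      rw [e1a_cyl_hi] at h1
      have h2 : - v (hi d l i) ≤ -1 := h1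
      omega
    · have h1 := h (hi d l i, true)
      rw [e1a_cyl_hi] at h1
      exact h1
  · rintro ⟨h1, h2⟩ ⟨i, b⟩
    revert b
    refine Fin.addCases (fun i b => ?_) (fun i b => ?_) i
    · rw [e1a_cyl_lo]
      exact h1 (i, b)
    · rw [e1a_cyl_hi]
      cases b
      · show - v (hi d l i) ≤ -1
        have := (h2 i).1
        omega
      · exact (h2 i).2

theorem cyl_mono {k : ℕ} {Q Q' : Box d} (h : Q ≤ Q') : cyl l k Q ≤ cyl l k Q' := by
  rintro ⟨i, b⟩
  refine Fin.addCases (fun i => ?_) (fun i => ?_) i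
  · rw [e1a_cyl_lo, e1a_cyl_lo]
    exact h (i, b)
  · rw [e1a_cyl_hi, e1a_cyl_hi]

theorem pr_cyl (k : ℕ) (Q : Box d) : pr (cyl l k Q) = Q := by
  funext j
  exact e1a_cyl_lo k Q j.1 j.2

end BTR
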