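import Pool.Agent.BTR.D1
import Pool.Agent.BTS.E1
import Pool.Agent.BTP.B6
import Pool.Agent.BTR.E1a
set_option autoImplicit false

open scoped Classical
open Finset

/-! # Columns and small boxes: basic facts -/

namespace BTR
open BTP BTS

variable {d l : ℕ}

/-- [BTR-E1] PROOF. Induction on `Gen` (`pr_cc`, `pr_sup`). -/
theorem Gen_pr_le {S : Box (d + l)} {W : Finset (Site (d + l))} (hg : Gen S W) {Q : Box d}
    (h : ∀ v ∈ W, cc (ps v) ≤ Q) : pr S ≤ Q := by
  induction hg with
  | single v =>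
    rw [pr_cc]
    exact h v (Finset.mem_singleton_self v)
  | merge hR hS hd hn ihR ihS =>
    rw [pr_sup]
    exact sup_le (ihR fun v hv => h v (Finset.mem_union_left _ hv))
      (ihS fun v hv => h v (Finset.mem_union_right _ hv))

/-- [BTR-E1] PROOF. `Gen.le_of`, `mem_cyl`, `mem_sites`. -/
theorem Gen_le_cyl {S : Box (d + l)} {W : Finset (Site (d + l))} (hg : Gen S W) {k : ℕ} {Q : Box d}
    (h : W ⊆ sites (cyl l k Q)) : S ≤ cyl l k Q := by
  exact hg.le_of fun v hv => mem_sites.1 (h hv)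

/-- [BTR-E1] a generated column: basic facts (induction on `CGen`; `Gen.ne`, `Gen.nonempty`, `Gen.le`, `pr_cc`, `pr_mono`) -/
theorem CGen_ne {h : ℕ} {T : Box d} {W : Finset (Site (d + l))} (hg : CGen l h T W) : Ne T := by
  induction hg with
  | base hS h1 h2 => exact ne_pr hS.ne
  | cs hT hS hh hd hn ihT => exact ihT.sup_left
  | cc hT hT' hd hn ihT ihT' => exact ihT.sup_left

theorem CGen_nonempty {h : ℕ} {T : Box d} {W : Finset (Site (d + l))} (hg : CGen l h T W) :
    W.Nonempty := by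
  induction hg with
  | base hS h1 h2 => exact hS.nonempty
  | cs hT hS hh hd hn ihT => exact ihT.mono Finset.subset_union_left
  | cc hT hT' hd hn ihT ihT' => exact ihT.mono Finset.subset_union_left

theorem CGen_le {h : ℕ} {T : Box d} {W : Finset (Site (d + l))} (hg : CGen l h T W) :
    ∀ v ∈ W, cc (ps v) ≤ T := by
  have key : ∀ {S : Box (d + l)} {W : Finset (Site (d + l))}, Gen S W → ∀ v ∈ W, cc (ps v) ≤ pr S := by
    intro S W hS v hv
    rw [← pr_cc]
    exact pr_mono (hS.le v hv)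
  induction hg with
  | base hS h1 h2 => exact key hS
  | cs hT hS hh hd hn ihT =>
    intro v hv
    rcases Finset.mem_union.1 hv with hv | hv
    · exact (ihT v hv).trans le_sup_left
    · exact (key hS v hv).trans le_sup_right
  | cc hT hT' hd hn ihT ihT' =>
    intro v hv
    rcases Finset.mem_union.1 hv with hv | hv
    · exact (ihT v hv).trans le_sup_left
    · exact (ihT' v hv).trans le_sup_right

theorem CGen_le_of {h : ℕ} {T : Box d} {W : Finset (Site (d + l))} (hg : CGen l h T W) {Q : Box d}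
    (hQ : ∀ v ∈ W, cc (ps v) ≤ Q) : T ≤ Q := by
  induction hg with
  | base hS h1 h2 => exact Gen_pr_le hS hQ
  | cs hT hS hh hd hn ihT =>
    exact sup_le (ihT fun v hv => hQ v (Finset.mem_union_left _ hv))
      (Gen_pr_le hS fun v hv => hQ v (Finset.mem_union_right _ hv))
  | cc hT hT' hd hn ihT ihT' =>
    exact sup_le (ihT fun v hv => hQ v (Finset.mem_union_left _ hv))
      (ihT' fun v hv => hQ v (Finset.mem_union_right _ hv))

theorem Inc_CIG (h : ℕ) (Q : Box d) : Inc (CIG l h Q) := by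
  rintro U U' hU ⟨W, hW, hg⟩
  exact ⟨W, hW.trans hU, hg⟩

theorem Inc_Gw (h : ℕ) (T Q : Box d) : Inc (Gw l h T Q) := by
  rintro U U' hU ⟨W, hW, hg⟩
  exact ⟨W, hW.trans hU, hg⟩

theorem Inc_Gv {n : ℕ} (S : Box n) (v : Site n) : Inc (Gv S v) := by
  rintro U U' hU ⟨W, hW, hg⟩
  exact ⟨W, hW.trans hU, hg⟩

end BTR
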