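import Pool.Agent.BTR.E1
import Pool.Agent.BTP.B3
set_option autoImplicit false

open scoped Classical
open Finset

/-! # The final family of columns and small boxes, and its closedness -/

namespace BTR
open BTP BTS

variable {d l h : ℕ}

/-- a family of columns and small boxes generated by disjoint subsets of `U` and covering `U` -/
structure Fam (l h : ℕ) (U : Finset (Site (d + l))) (C : Finset (Box d × Finset (Site (d + l))))
    (M : Finset (Box (d + l) × Finset (Site (d + l)))) : Prop where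
  col : ∀ c ∈ C, CGen l h c.1 c.2 ∧ c.2 ⊆ U
  sml : ∀ s ∈ M, Gen s.1 s.2 ∧ s.2 ⊆ U ∧ Ys s.1 < h
  dcc : ∀ c ∈ C, ∀ c' ∈ C, c ≠ c' → Disjoint c.2 c'.2
  dss : ∀ s ∈ M, ∀ s' ∈ M, s ≠ s' → Disjoint s.2 s'.2
  dcs : ∀ c ∈ C, ∀ s ∈ M, Disjoint c.2 s.2
  cov : ∀ v ∈ U, (∃ c ∈ C, cc (ps v) ≤ c.1) ∨ ∃ s ∈ M, cc v ≤ s.1

/-- `Fam` without the covering condition -/
structure e5a_Pre (l h : ℕ) (U : Finset (Site (d + l))) (C : Finset (Box d × Finset (Site (d + l))))
    (M : Finset (Box (d + l) × Finset (Site (d + l)))) : Prop where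
  col : ∀ c ∈ C, CGen l h c.1 c.2 ∧ c.2 ⊆ U
  sml : ∀ s ∈ M, Gen s.1 s.2 ∧ s.2 ⊆ U ∧ Ys s.1 < h
  dcc : ∀ c ∈ C, ∀ c' ∈ C, c ≠ c' → Disjoint c.2 c'.2
  dss : ∀ s ∈ M, ∀ s' ∈ M, s ≠ s' → Disjoint s.2 s'.2
  dcs : ∀ c ∈ C, ∀ s ∈ M, Disjoint c.2 s.2

theorem e5a_mono {U : Finset (Site (d + l))} {C C' : Finset (Box d × Finset (Site (d + l)))}
    {M M' : Finset (Box (d + l) × Finset (Site (d + l)))} (hF : Fam l h U C M) (hC : C' ⊆ C)
    (hM : M' ⊆ M) : e5a_Pre l h U C' M' :=
  ⟨fun c hc => hF.col c (hC hc), fun s hs => hF.sml s (hM hs),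
    fun c hc c' hc' => hF.dcc c (hC hc) c' (hC hc'),
    fun s hs s' hs' => hF.dss s (hM hs) s' (hM hs'),
    fun c hc s hs => hF.dcs c (hC hc) s (hM hs)⟩

theorem e5a_insC {U : Finset (Site (d + l))} {C : Finset (Box d × Finset (Site (d + l)))}
    {M : Finset (Box (d + l) × Finset (Site (d + l)))} (hF : e5a_Pre l h U C M) {T : Box d}
    {W : Finset (Site (d + l))} (hT : CGen l h T W) (hW : W ⊆ U) (h1 : ∀ c ∈ C, Disjoint W c.2)
    (h2 : ∀ s ∈ M, Disjoint W s.2) : e5a_Pre l h U (insert (T, W) C) M := by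
  refine ⟨?_, hF.sml, ?_, hF.dss, ?_⟩
  · intro c hc
    rcases Finset.mem_insert.1 hc with rfl | hc
    · exact ⟨hT, hW⟩
    · exact hF.col c hc
  · intro c hc c' hc' hne
    rcases Finset.mem_insert.1 hc with rfl | hc
    · rcases Finset.mem_insert.1 hc' with rfl | hc'
      · exact absurd rfl hne
      · exact h1 c' hc'
    · rcases Finset.mem_insert.1 hc' with rfl | hc'
      · exact (h1 c hc).symm
      · exact hF.dcc c hc c' hc' hne
  · intro c hc s hs
    rcases Finset.mem_insert.1 hc with rfl | hc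
    · exact h2 s hs
    · exact hF.dcs c hc s hs

theorem e5a_insM {U : Finset (Site (d + l))} {C : Finset (Box d × Finset (Site (d + l)))}
    {M : Finset (Box (d + l) × Finset (Site (d + l)))} (hF : e5a_Pre l h U C M) {S : Box (d + l)}
    {W : Finset (Site (d + l))} (hS : Gen S W) (hW : W ⊆ U) (hh : Ys S < h)
    (h1 : ∀ c ∈ C, Disjoint c.2 W) (h2 : ∀ s ∈ M, Disjoint W s.2) :
    e5a_Pre l h U C (insert (S, W) M) := by
  refine ⟨hF.col, ?_, hF.dcc, ?_, ?_⟩
  · intro s hs
    rcases Finset.mem_insert.1 hs with rfl | hs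
    · exact ⟨hS, hW, hh⟩
    · exact hF.sml s hs
  · intro s hs s' hs' hne
    rcases Finset.mem_insert.1 hs with rfl | hs
    · rcases Finset.mem_insert.1 hs' with rfl | hs'
      · exact absurd rfl hne
      · exact h2 s' hs'
    · rcases Finset.mem_insert.1 hs' with rfl | hs'
      · exact (h2 s hs).symm
      · exact hF.dss s hs s' hs' hne
  · intro c hc s hs
    rcases Finset.mem_insert.1 hs with rfl | hs
    · exact h1 c hc
    · exact hF.dcs c hc s hs

theorem e5a_fam {U : Finset (Site (d + l))} {C : Finset (Box d × Finset (Site (d + l)))}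
    {M : Finset (Box (d + l) × Finset (Site (d + l)))} (hF : e5a_Pre l h U C M)
    (hc : ∀ v ∈ U, (∃ c ∈ C, cc (ps v) ≤ c.1) ∨ ∃ s ∈ M, cc v ≤ s.1) : Fam l h U C M :=
  ⟨hF.col, hF.sml, hF.dcc, hF.dss, hF.dcs, hc⟩

theorem e5a_card2 {α : Type*} [DecidableEq α] {S : Finset α} {c c' : α} (hc : c ∈ S) (hc' : c' ∈ S)
    (hne : c ≠ c') : ((S.erase c).erase c').card + 2 = S.card := by
  have hcc : c' ∈ S.erase c := Finset.mem_erase.2 ⟨hne.symm, hc'⟩
  rw [Finset.card_erase_of_mem hcc, Finset.card_erase_of_mem hc]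
  have h4 : 0 < (S.erase c).card := Finset.card_pos.2 ⟨_, hcc⟩
  rw [Finset.card_erase_of_mem hc] at h4
  omega

theorem e5a_card1 {α : Type*} [DecidableEq α] {S : Finset α} {c : α} (hc : c ∈ S) :
    (S.erase c).card + 1 = S.card := by
  rw [Finset.card_erase_of_mem hc]
  have h4 : 0 < S.card := Finset.card_pos.2 ⟨_, hc⟩
  omega

theorem e5a_mem2 {α : Type*} [DecidableEq α] {S : Finset α} {c c' e : α} (he : e ∈ (S.erase c).erase c') :
    e ≠ c' ∧ e ≠ c ∧ e ∈ S := by
  obtain ⟨e1, he⟩ := Finset.mem_erase.1 he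
  obtain ⟨e2, he⟩ := Finset.mem_erase.1 he
  exact ⟨e1, e2, he⟩

theorem e5a_aux (U : Finset (Site (d + l))) (n : ℕ) :
    ∀ (C : Finset (Box d × Finset (Site (d + l))))
      (M : Finset (Box (d + l) × Finset (Site (d + l)))), C.card + M.card = n →
      Fam l h U C M →
    ∃ (C : Finset (Box d × Finset (Site (d + l)))) (M : Finset (Box (d + l) × Finset (Site (d + l)))),
      Fam l h U C M ∧ (∀ c ∈ C, ∀ c' ∈ C, c ≠ c' → ¬ near c.1 c'.1) ∧
      (∀ s ∈ M, ∀ s' ∈ M, s ≠ s' → ¬ near s.1 s'.1) ∧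
      ∀ c ∈ C, ∀ s ∈ M, ¬ near (emb l c.1) s.1 := by
  induction n using Nat.strong_induction_on with
  | _ n ih =>
    intro C M hcard hF
    by_cases hA : ∀ c ∈ C, ∀ c' ∈ C, c ≠ c' → ¬ near c.1 c'.1
    swap
    · push Not at hA
      obtain ⟨c, hc, c', hc', hne, hn⟩ := hA
      have hk := e5a_card2 hc hc' hne
      have hi := Finset.card_insert_le (c.1 ⊔ c'.1, c.2 ∪ c'.2) ((C.erase c).erase c')
      refine ih ((insert (c.1 ⊔ c'.1, c.2 ∪ c'.2) ((C.erase c).erase c')).card + M.card)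
        (by omega) _ M rfl (e5a_fam (e5a_insC (e5a_mono hF ?_ Finset.Subset.rfl)
          (CGen.cc (hF.col c hc).1 (hF.col c' hc').1 (hF.dcc c hc c' hc' hne) hn) ?_ ?_ ?_) ?_)
      · exact (Finset.erase_subset _ _).trans (Finset.erase_subset _ _)
      · exact Finset.union_subset (hF.col c hc).2 (hF.col c' hc').2
      · intro e he
        obtain ⟨e1, e2, e3⟩ := e5a_mem2 he
        exact Finset.disjoint_union_left.2 ⟨hF.dcc c hc e e3 e2.symm, hF.dcc c' hc' e e3 e1.symm⟩
      · intro s hs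
        exact Finset.disjoint_union_left.2 ⟨hF.dcs c hc s hs, hF.dcs c' hc' s hs⟩
      · intro v hv
        rcases hF.cov v hv with ⟨e, he, hve⟩ | hr
        · left
          by_cases hec : e = c
          · subst hec
            exact ⟨_, Finset.mem_insert_self _ _, le_trans hve le_sup_left⟩
          · by_cases hec' : e = c'
            · subst hec'
              exact ⟨_, Finset.mem_insert_self _ _, le_trans hve le_sup_right⟩
            · exact ⟨e, Finset.mem_insert_of_mem
                (Finset.mem_erase.2 ⟨hec', Finset.mem_erase.2 ⟨hec, he⟩⟩), hve⟩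
        · exact Or.inr hr
    by_cases hB : ∀ c ∈ C, ∀ s ∈ M, ¬ near (emb l c.1) s.1
    swap
    · push Not at hB
      obtain ⟨c, hc, s, hs, hn⟩ := hB
      have hk := e5a_card1 hc
      have hk2 := e5a_card1 hs
      have hi := Finset.card_insert_le (c.1 ⊔ pr s.1, c.2 ∪ s.2) (C.erase c)
      refine ih ((insert (c.1 ⊔ pr s.1, c.2 ∪ s.2) (C.erase c)).card + (M.erase s).card)
        (by omega) _ _ rfl (e5a_fam (e5a_insC (e5a_mono hF (Finset.erase_subset _ _)
          (Finset.erase_subset _ _)) (CGen.cs (hF.col c hc).1 (hF.sml s hs).1 (hF.sml s hs).2.2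
            (hF.dcs c hc s hs) hn) ?_ ?_ ?_) ?_)
      · exact Finset.union_subset (hF.col c hc).2 (hF.sml s hs).2.1
      · intro e he
        obtain ⟨e2, e3⟩ := Finset.mem_erase.1 he
        exact Finset.disjoint_union_left.2 ⟨hF.dcc c hc e e3 e2.symm, (hF.dcs e e3 s hs).symm⟩
      · intro e he
        obtain ⟨e2, e3⟩ := Finset.mem_erase.1 he
        exact Finset.disjoint_union_left.2 ⟨hF.dcs c hc e e3, hF.dss s hs e e3 e2.symm⟩
      · intro v hv
        rcases hF.cov v hv with ⟨e, he, hve⟩ | ⟨e, he, hve⟩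
        · left
          by_cases hec : e = c
          · subst hec
            exact ⟨_, Finset.mem_insert_self _ _, le_trans hve le_sup_left⟩
          · exact ⟨e, Finset.mem_insert_of_mem (Finset.mem_erase.2 ⟨hec, he⟩), hve⟩
        · by_cases hes : e = s
          · subst hes
            left
            refine ⟨_, Finset.mem_insert_self _ _, le_trans ?_ le_sup_right⟩
            rw [← pr_cc]
            exact pr_mono hve
          · exact Or.inr ⟨e, Finset.mem_erase.2 ⟨hes, he⟩, hve⟩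
    by_cases hD : ∀ s ∈ M, ∀ s' ∈ M, s ≠ s' → ¬ near s.1 s'.1
    · exact ⟨C, M, hF, hA, hD, hB⟩
    · push Not at hD
      obtain ⟨s, hs, s', hs', hne, hn⟩ := hD
      have hk := e5a_card2 hs hs' hne
      have hg : Gen (s.1 ⊔ s'.1) (s.2 ∪ s'.2) :=
        Gen.merge (hF.sml s hs).1 (hF.sml s' hs').1 (hF.dss s hs s' hs' hne) hn
      have hU : s.2 ∪ s'.2 ⊆ U := Finset.union_subset (hF.sml s hs).2.1 (hF.sml s' hs').2.1
      have hd1 : ∀ c ∈ C, Disjoint c.2 (s.2 ∪ s'.2) := fun c hc =>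
        Finset.disjoint_union_right.2 ⟨hF.dcs c hc s hs, hF.dcs c hc s' hs'⟩
      have hd2 : ∀ e ∈ (M.erase s).erase s', Disjoint (s.2 ∪ s'.2) e.2 := by
        intro e he
        obtain ⟨e1, e2, e3⟩ := e5a_mem2 he
        exact Finset.disjoint_union_left.2 ⟨hF.dss s hs e e3 e2.symm, hF.dss s' hs' e e3 e1.symm⟩
      have hsub : (M.erase s).erase s' ⊆ M :=
        (Finset.erase_subset _ _).trans (Finset.erase_subset _ _)
      by_cases hY : Ys (s.1 ⊔ s'.1) < h
      · have hi := Finset.card_insert_le (s.1 ⊔ s'.1, s.2 ∪ s'.2) ((M.erase s).erase s')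
        refine ih (C.card + (insert (s.1 ⊔ s'.1, s.2 ∪ s'.2) ((M.erase s).erase s')).card)
          (by omega) C _ rfl (e5a_fam (e5a_insM (e5a_mono hF Finset.Subset.rfl hsub)
            hg hU hY hd1 hd2) ?_)
        intro v hv
        rcases hF.cov v hv with hr | ⟨e, he, hve⟩
        · exact Or.inl hr
        · right
          by_cases hec : e = s
          · subst hec
            exact ⟨_, Finset.mem_insert_self _ _, le_trans hve le_sup_left⟩
          · by_cases hec' : e = s'
            · subst hec'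
              exact ⟨_, Finset.mem_insert_self _ _, le_trans hve le_sup_right⟩
            · exact ⟨e, Finset.mem_insert_of_mem
                (Finset.mem_erase.2 ⟨hec', Finset.mem_erase.2 ⟨hec, he⟩⟩), hve⟩
      · have hY2 : Ys (s.1 ⊔ s'.1) ≤ 2 * h := by
          have h5 := Ys_sup_le (hF.sml s hs).1.ne (hF.sml s' hs').1.ne hn
          have h6 := (hF.sml s hs).2.2
          have h7 := (hF.sml s' hs').2.2
          omega
        have hi := Finset.card_insert_le (pr (s.1 ⊔ s'.1), s.2 ∪ s'.2) C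
        refine ih ((insert (pr (s.1 ⊔ s'.1), s.2 ∪ s'.2) C).card +
          ((M.erase s).erase s').card) (by omega) _ _ rfl
          (e5a_fam (e5a_insC (e5a_mono hF Finset.Subset.rfl hsub)
            (CGen.base hg (not_lt.1 hY) hY2) hU (fun c hc => (hd1 c hc).symm) hd2) ?_)
        intro v hv
        rcases hF.cov v hv with ⟨e, he, hve⟩ | ⟨e, he, hve⟩
        · exact Or.inl ⟨e, Finset.mem_insert_of_mem he, hve⟩
        · by_cases hec : e = s
          · subst hec
            left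
            refine ⟨_, Finset.mem_insert_self _ _, ?_⟩
            rw [← pr_cc]
            exact pr_mono (le_trans hve le_sup_left)
          · by_cases hec' : e = s'
            · subst hec'
              left
              refine ⟨_, Finset.mem_insert_self _ _, ?_⟩
              rw [← pr_cc]
              exact pr_mono (le_trans hve le_sup_right)
            · exact Or.inr ⟨e, Finset.mem_erase.2 ⟨hec', Finset.mem_erase.2 ⟨hec, he⟩⟩, hve⟩

/-- [BTR-E5a] the final family.
PROOF. As `BTP.spanning` (file BTP/B3.lean, `b3_aux`): strong induction on `C.card + M.card`. Start: `C = ∅`, `M` = the pairs `(cc v, {v})`, `v ∈ U` (`Ys (cc v) = 0 < h` by `hh`).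
If two different elements of `C` are near: remove both and insert `(c.1 ⊔ c'.1, c.2 ∪ c'.2)` (`CGen.cc`). If `c ∈ C`, `s ∈ M` with `near (emb l c.1) s.1`: remove both, insert `(c.1 ⊔ pr s.1, c.2 ∪ s.2)` into `C` (`CGen.cs`).
If two different elements `s, s'` of `M` are near: remove both; if `Ys (s.1 ⊔ s'.1) < h` insert `(s.1 ⊔ s'.1, s.2 ∪ s'.2)` into `M` (`Gen.merge`); otherwise `h ≤ Ys (s.1 ⊔ s'.1) ≤ (h-1) + (h-1) + 2 = 2h` (`Ys_sup_le`), insert `(pr (s.1 ⊔ s'.1), s.2 ∪ s'.2)` into `C` (`CGen.base`).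
In all cases `C.card + M.card` becomes smaller and all properties remain (covering: `le_sup_left/right`, `pr_mono`, `pr_sup`, `pr_cc`). -/
theorem spanning' (hh : 1 ≤ h) (U : Finset (Site (d + l))) :
    ∃ (C : Finset (Box d × Finset (Site (d + l)))) (M : Finset (Box (d + l) × Finset (Site (d + l)))),
      Fam l h U C M ∧ (∀ c ∈ C, ∀ c' ∈ C, c ≠ c' → ¬ near c.1 c'.1) ∧
      (∀ s ∈ M, ∀ s' ∈ M, s ≠ s' → ¬ near s.1 s'.1) ∧
      ∀ c ∈ C, ∀ s ∈ M, ¬ near (emb l c.1) s.1 := by
  refine e5a_aux U _ ∅ (U.image fun v => ((cc v, {v}) : Box (d + l) × Finset (Site (d + l)))) rfl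
    ⟨?_, ?_, ?_, ?_, ?_, ?_⟩
  · intro c hc
    exact absurd hc (Finset.notMem_empty c)
  · intro c hc
    obtain ⟨v, hv, rfl⟩ := Finset.mem_image.1 hc
    refine ⟨Gen.single v, Finset.singleton_subset_iff.2 hv, ?_⟩
    show Ys (cc v) < h
    rw [Ys_cc]
    exact_mod_cast hh
  · intro c hc
    exact absurd hc (Finset.notMem_empty c)
  · intro c hc c' hc' hne
    obtain ⟨v, hv, rfl⟩ := Finset.mem_image.1 hc
    obtain ⟨v', hv', rfl⟩ := Finset.mem_image.1 hc'
    refine Finset.disjoint_singleton.2 ?_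
    rintro rfl
    exact hne rfl
  · intro c hc
    exact absurd hc (Finset.notMem_empty c)
  · intro v hv
    exact Or.inr ⟨_, Finset.mem_image_of_mem _ hv, le_rfl⟩

end BTR
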