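import Pool.Agent.BTR.E1
import Pool.Agent.BTP.B3
import Pool.Agent.BTP.B4
import Pool.Agent.BTR.E5a
set_option autoImplicit false

open scoped Classical
open Finset

/-! # The final family of columns and small boxes, and its closedness -/

namespace BTR
open BTP BTS

variable {d l h : ℕ}

/-- the site is covered -/
def Cov (C : Finset (Box d × Finset (Site (d + l)))) (M : Finset (Box (d + l) × Finset (Site (d + l))))
    (v : Site (d + l)) : Prop := (∃ c ∈ C, cc (ps v) ≤ c.1) ∨ ∃ s ∈ M, cc v ≤ s.1

theorem e5b_sum {n : ℕ} (v : Site n) (j : Dir n) : ∑ i, |stp v j i - v i| = 1 := by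
  rw [Finset.sum_eq_single j.1]
  · unfold stp
    rw [Function.update_self]
    cases j.2 <;> simp
  · intro b _ hb
    unfold stp
    rw [Function.update_of_ne hb]
    simp
  · intro h
    exact absurd (Finset.mem_univ _) h

theorem e5b_self {n : ℕ} (v : Site n) (j : Dir n) :
    stp v j j.1 = v j.1 + (if j.2 = true then 1 else -1) := by
  unfold stp
  rw [Function.update_self]

theorem e5b_ne {n : ℕ} (v : Site n) (j : Dir n) {i : Fin n} (h : i ≠ j.1) : stp v j i = v i := by
  unfold stp
  rw [Function.update_of_ne h]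

theorem e5b_inj {n : ℕ} {v : Site n} {i j : Dir n} (hij : i ≠ j) : stp v i ≠ stp v j := by
  intro h
  apply hij
  have h1 : i.1 = j.1 := by
    by_contra hne
    have e := congrFun h i.1
    rw [e5b_self, e5b_ne v j hne] at e
    split_ifs at e <;> omega
  have h2 : i.2 = j.2 := by
    have e := congrFun h i.1
    rw [e5b_self] at e
    rw [h1, e5b_self] at e
    cases hi : i.2 <;> cases hj : j.2 <;> simp [hi, hj] at e ⊢
  exact Prod.ext h1 h2

/-- [BTR-E5b] distance of two boxes containing neighbours of a site (as `BTP.near_of_neighbours`) -/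
theorem near_stp {n : ℕ} {R S : Box n} {v : Site n} {i j : Dir n} (h : cc (stp v i) ≤ R)
    (h' : cc (stp v j) ≤ S) : near R S :=
  near_of_neighbours (le_of_eq (e5b_sum v i)) (le_of_eq (e5b_sum v j)) h h'

/-- [BTR-E5b] two neighbours of `v` in different directions in one box: then `v` is in the box.
PROOF. `stp v i` and `stp v j` differ from `v` by `±1` in one coordinate. For each direction `m`: `cc v m ≤ cc (stp v i) m` unless `m = opp i`, and `cc v m ≤ cc (stp v j) m` unless `m = opp j`; `opp i ≠ opp j`. -/
theorem le_of_two {n : ℕ} {R : Box n} {v : Site n} {i j : Dir n} (hij : i ≠ j)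
    (h : cc (stp v i) ≤ R) (h' : cc (stp v j) ≤ R) : cc v ≤ R :=
  two_neighbours (e5b_sum v i) (e5b_sum v j) (e5b_inj hij) h h'

end BTR
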