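import Pool.Agent.BTR.E1
import Pool.Agent.BTP.B3
import Pool.Agent.BTR.E5a
import Pool.Agent.BTR.E5b
set_option autoImplicit false

open scoped Classical
open Finset

/-! # The final family of columns and small boxes, and its closedness -/

namespace BTR
open BTP BTS

variable {d l h : ℕ}

theorem e5c_emb_lo (T : Box d) (a : Fin d) (b : Bool) : emb l T (lo d l a, b) = T (a, b) := by
  unfold emb
  simp only [Fin.addCases_left]

theorem e5c_emb_hi (T : Box d) (a : Fin l) (b : Bool) :
    emb l T (hi d l a, b) = if b = true then 1 else -1 := by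
  unfold emb
  simp only [Fin.addCases_right]

theorem e5c_lo_ne_hi (a : Fin d) (b : Fin l) : lo d l a ≠ hi d l b := by
  intro h
  have := congrArg Fin.val h
  simp only [Fin.val_castAdd, Fin.val_natAdd] at this
  omega

theorem e5c_cases (i : Fin (d + l)) : (∃ a : Fin d, i = lo d l a) ∨ ∃ b : Fin l, i = hi d l b := by
  refine Fin.addCases (fun a => Or.inl ⟨a, rfl⟩) (fun b => Or.inr ⟨b, rfl⟩) i

/-- a step in a thick direction does not change the projection -/
theorem e5c_ps_hi (v : Site (d + l)) (b : Fin l) (s : Bool) : ps (stp v (hi d l b, s)) = ps v := by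
  funext a
  unfold ps
  exact e5b_ne v _ (e5c_lo_ne_hi a b)

/-- a step in a long direction is a step of the projection -/
theorem e5c_ps_lo (v : Site (d + l)) (a : Fin d) (s : Bool) :
    ps (stp v (lo d l a, s)) = stp (ps v) (a, s) := by
  funext a'
  by_cases h : a' = a
  · subst h
    rw [e5b_self (ps v) (a', s)]
    unfold ps
    exact e5b_self v (lo d l a', s)
  · rw [e5b_ne (ps v) (a, s) h]
    unfold ps
    refine e5b_ne v _ ?_
    intro h'
    apply h
    have := congrArg Fin.val h'
    simp only [Fin.val_castAdd] at this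
    exact Fin.ext this

theorem e5c_sum (v : Site (d + l)) (j : Dir (d + l)) :
    ∑ i, |ps (stp v j) i - ps v i| ≤ 1 := by
  obtain ⟨j1, s⟩ := j
  rcases e5c_cases j1 with ⟨a, rfl⟩ | ⟨b, rfl⟩
  · rw [e5c_ps_lo]
    exact le_of_eq (e5b_sum _ _)
  · rw [e5c_ps_hi]
    simp

/-- [BTR-E5c] the family is closed. Threshold `l + 2`, helpers `Olow`, all heights `≥ 1`.
PROOF. Suppose `v` is not covered. Let `A` be the set of directions `j` with `stp v j` covered, `B` those with `stp v j ∈ Olow`; `l + 2 ≤ (A ∪ B).card ≤ A.card + B.card` (definition of `nbr`, `hX`). `B ⊆ {(hi i, false) : ht v i = 1}` (`hv`; only a step down in a thick direction with height `1` leads to height `≤ 0`), so `B.card ≤ l`, and if `B.card = l` then all heights of `v` are `1`.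
Two different directions `i, j ∈ A`: they are not in the same column (for a column `c`: if `i` is a thick direction then `ps (stp v i) = ps v`, so `v` would be in the column; if both are long, `le_of_two` for `ps v`), not in two different columns (`near_stp` for `ps v`, `¬ near`), not in one small box (`le_of_two`), not in two different small boxes (`near_stp`). So one is in a column and the other in a small box, and `A.card ≤ 2`; hence `A.card = 2`, `B.card = l`, all heights of `v` are `1`.
Let `stp v i` be in the column `c` (`i` is a long direction), `stp v j` in the small box `s`. Then `near (emb l c.1) s.1` by `near_stp`: `cc (stp v i) ≤ emb l c.1` as the heights of `stp v i` are `1`. Contradiction. -/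
theorem cov_closed {C : Finset (Box d × Finset (Site (d + l)))}
    {M : Finset (Box (d + l) × Finset (Site (d + l)))}
    (h1 : ∀ c ∈ C, ∀ c' ∈ C, c ≠ c' → ¬ near c.1 c'.1)
    (h2 : ∀ s ∈ M, ∀ s' ∈ M, s ≠ s' → ¬ near s.1 s'.1)
    (h3 : ∀ c ∈ C, ∀ s ∈ M, ¬ near (emb l c.1) s.1)
    {X : Finset (Site (d + l))} (hX : ∀ u ∈ X, Cov C M u) {v : Site (d + l)}
    (hv : ∀ i : Fin l, 1 ≤ v (hi d l i)) (hn : l + 2 ≤ nbr (Olow d l) X v) : Cov C M v := by
  by_contra hcov
  -- the directions covered by columns and by small boxes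
  set Ac : Finset (Dir (d + l)) :=
    Finset.univ.filter (fun j => ∃ c ∈ C, cc (ps (stp v j)) ≤ c.1) with hAc
  set As : Finset (Dir (d + l)) :=
    Finset.univ.filter (fun j => ∃ s ∈ M, cc (stp v j) ≤ s.1) with hAs
  set F : Finset (Fin l) := Finset.univ.filter (fun i => v (hi d l i) = 1) with hF
  set B : Finset (Dir (d + l)) := F.image (fun i => ((hi d l i, false) : Dir (d + l))) with hB
  have hsub : Finset.univ.filter (fun j : Dir (d + l) => stp v j ∈ X ∨ stp v j ∈ Olow d l) ⊆
      (Ac ∪ As) ∪ B := by
    intro j hj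
    rw [Finset.mem_filter] at hj
    rcases hj.2 with hj | hj
    · rcases hX _ hj with hc | hs
      · exact Finset.mem_union_left _ (Finset.mem_union_left _
          (Finset.mem_filter.mpr ⟨Finset.mem_univ _, hc⟩))
      · exact Finset.mem_union_left _ (Finset.mem_union_right _
          (Finset.mem_filter.mpr ⟨Finset.mem_univ _, hs⟩))
    · obtain ⟨i, hi0⟩ := hj
      apply Finset.mem_union_right
      have hji : hi d l i = j.1 := by
        by_contra hne
        rw [e5b_ne v j hne] at hi0
        have := hv i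
        omega
      have hself := e5b_self v j
      rw [← hji] at hself
      rw [hself] at hi0
      have hvi := hv i
      have hj2 : j.2 = false := by
        by_contra hne
        rw [Bool.not_eq_false] at hne
        rw [hne] at hi0
        simp at hi0
        omega
      rw [hj2] at hi0
      simp only [Bool.false_eq_true, if_false] at hi0
      rw [hB, Finset.mem_image]
      refine ⟨i, Finset.mem_filter.mpr ⟨Finset.mem_univ _, by omega⟩, ?_⟩
      exact Prod.ext hji hj2.symm
  have hAc1 : Ac.card ≤ 1 := by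
    rw [Finset.card_le_one]
    intro i hi' j hj
    by_contra hij
    rw [hAc, Finset.mem_filter] at hi' hj
    obtain ⟨c, hc, hci⟩ := hi'.2
    obtain ⟨c', hc', hcj⟩ := hj.2
    by_cases hcc : c = c'
    · subst hcc
      obtain ⟨i1, si⟩ := i
      obtain ⟨j1, sj⟩ := j
      rcases e5c_cases i1 with ⟨a, rfl⟩ | ⟨b, rfl⟩
      · rcases e5c_cases j1 with ⟨a', rfl⟩ | ⟨b', rfl⟩
        · rw [e5c_ps_lo] at hci hcj
          apply hcov
          left
          refine ⟨c, hc, le_of_two (i := (a, si)) (j := (a', sj)) ?_ hci hcj⟩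
          intro h
          apply hij
          have ha : a = a' := congrArg Prod.fst h
          have hs : si = sj := congrArg Prod.snd h
          rw [ha, hs]
        · rw [e5c_ps_hi] at hcj
          exact hcov (Or.inl ⟨c, hc, hcj⟩)
      · rw [e5c_ps_hi] at hci
        exact hcov (Or.inl ⟨c, hc, hci⟩)
    · exact h1 c hc c' hc' hcc (near_of_neighbours (e5c_sum v i) (e5c_sum v j) hci hcj)
  have hAs1 : As.card ≤ 1 := by
    rw [Finset.card_le_one]
    intro i hi' j hj
    by_contra hij
    rw [hAs, Finset.mem_filter] at hi' hj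
    obtain ⟨s, hs, hsi⟩ := hi'.2
    obtain ⟨s', hs', hsj⟩ := hj.2
    by_cases hss : s = s'
    · subst hss
      exact hcov (Or.inr ⟨s, hs, le_of_two hij hsi hsj⟩)
    · exact h2 s hs s' hs' hss (near_stp hsi hsj)
  have hcard : l + 2 ≤ ((Ac ∪ As) ∪ B).card := le_trans hn (Finset.card_le_card hsub)
  have hc1 := Finset.card_union_le (Ac ∪ As) B
  have hc2 := Finset.card_union_le Ac As
  have hc3 : B.card ≤ F.card := Finset.card_image_le
  have hc4 : F.card ≤ l := by
    have := Finset.card_filter_le (Finset.univ : Finset (Fin l)) (fun i => v (hi d l i) = 1)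
    rw [Finset.card_univ, Fintype.card_fin] at this
    exact this
  have hAcp : 0 < Ac.card := by omega
  have hAsp : 0 < As.card := by omega
  have hFl : F.card = l := by omega
  have hFu : F = Finset.univ := by
    apply Finset.eq_univ_of_card
    rw [hFl, Fintype.card_fin]
  have hht : ∀ i : Fin l, v (hi d l i) = 1 := by
    intro i
    have : i ∈ F := by rw [hFu]; exact Finset.mem_univ _
    rw [hF, Finset.mem_filter] at this
    exact this.2
  obtain ⟨i, hiA⟩ := Finset.card_pos.mp hAcp
  obtain ⟨j, hjA⟩ := Finset.card_pos.mp hAsp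
  rw [hAc, Finset.mem_filter] at hiA
  rw [hAs, Finset.mem_filter] at hjA
  obtain ⟨c, hc, hci⟩ := hiA.2
  obtain ⟨s, hs, hsj⟩ := hjA.2
  refine h3 c hc s hs (near_stp (v := v) (i := i) (j := j) ?_ hsj)
  obtain ⟨i1, si⟩ := i
  rcases e5c_cases i1 with ⟨a, rfl⟩ | ⟨b, rfl⟩
  · intro m
    obtain ⟨m1, sm⟩ := m
    rcases e5c_cases m1 with ⟨a', rfl⟩ | ⟨b', rfl⟩
    · rw [e5c_emb_lo]
      have := hci (a', sm)
      exact this
    · rw [e5c_emb_hi]
      unfold BTP.cc
      have e : stp v (lo d l a, si) (hi d l b') = 1 := by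
        rw [e5b_ne v (lo d l a, si) (fun h => e5c_lo_ne_hi a b' h.symm)]
        exact hht b'
      simp only [e]
      exact le_refl _
  · exfalso
    rw [e5c_ps_hi] at hci
    exact hcov (Or.inl ⟨c, hc, hci⟩)

/-- [BTR-E5c] a set built from the seeds `U` is covered. PROOF. Induction on `Bu` (all sites of `X` have heights `≥ 1`), `cov_closed`. -/
theorem cov_Bu {U : Finset (Site (d + l))} {C : Finset (Box d × Finset (Site (d + l)))}
    {M : Finset (Box (d + l) × Finset (Site (d + l)))}
    (h1 : ∀ c ∈ C, ∀ c' ∈ C, c ≠ c' → ¬ near c.1 c'.1)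
    (h2 : ∀ s ∈ M, ∀ s' ∈ M, s ≠ s' → ¬ near s.1 s'.1)
    (h3 : ∀ c ∈ C, ∀ s ∈ M, ¬ near (emb l c.1) s.1)
    (hU : ∀ u ∈ U, Cov C M u) {X : Finset (Site (d + l))}
    (hX1 : ∀ u ∈ X, ∀ i : Fin l, 1 ≤ u (hi d l i)) (hX : Bu (l + 2) (Olow d l) U X) :
    ∀ u ∈ X, Cov C M u := by
  induction hX with
  | nil => intro u hu; exact absurd hu (Finset.notMem_empty _)
  | @add X v hB hv ih =>
    have ih' := ih (fun u hu => hX1 u (Finset.mem_insert_of_mem hu))
    intro u hu
    rcases Finset.mem_insert.mp hu with rfl | hu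
    · rcases hv with hv | hv
      · exact hU _ hv
      · exact cov_closed h1 h2 h3 ih' (hX1 u (Finset.mem_insert_self _ _)) hv
    · exact ih' u hu

end BTR
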