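import Pool.Agent.UBT.F1

set_option autoImplicit false

open Filter

/-! # [BTR-FA] Numbers: from towers to the second order term (helper30) -/

namespace BTR
open UBT

/-- the choice of `A` for given `Λ` (the iterated logarithm of `n`) -/
theorem n2_choice {κ : ℕ} (hκ : 1 ≤ κ) {l C : ℝ} (hl : 0 < l) (hC : 0 < C) : ∃ C' : ℝ, 0 < C' ∧
    Tendsto (fun Λ : ℝ => Λ / l + (1 / l + 2 * C ^ 2 / l ^ 2) * Real.sqrt Λ) atTop atTop ∧
    ∀ᶠ Λ in atTop, ∀ A : ℝ, A = Λ / l + (1 / l + 2 * C ^ 2 / l ^ 2) * Real.sqrt Λ →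
      A ^ 4 ≤ Real.exp Λ ∧ Λ ≤ l * A - C * Real.sqrt A ∧
      (l / Λ - C' / Λ ^ ((3 : ℝ) / 2)) ^ κ ≤ 1 - Real.exp (-(A⁻¹ ^ κ)) := by
  set K := 1 / l + 2 * C ^ 2 / l ^ 2 with hK
  have hK0 : 0 < K := by positivity
  have hK1 : 1 ≤ l * K := by
    have h1 : l * K = 1 + l * (2 * C ^ 2 / l ^ 2) := by rw [hK]; field_simp
    have h2 : 0 ≤ l * (2 * C ^ 2 / l ^ 2) := by positivity
    linarith
  have hK2 : 2 * C ^ 2 ≤ l ^ 2 * K := by
    have h1 : l ^ 2 * K = l + 2 * C ^ 2 := by rw [hK]; field_simp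
    linarith
  have hsq : Tendsto Real.sqrt atTop atTop := Real.tendsto_sqrt_atTop
  set C' := l ^ 2 * (K + 1) with hC'
  have hC'0 : 0 < C' := by positivity
  refine ⟨C', hC'0, ?_, ?_⟩
  · refine tendsto_atTop_mono' atTop ?_ (hsq.const_mul_atTop hK0)
    filter_upwards [eventually_ge_atTop (0 : ℝ)] with Λ hΛ
    have : 0 ≤ Λ / l := by positivity
    linarith
  · have hexp : ∀ᶠ Λ : ℝ in atTop, (2 * K * Λ) ^ 4 ≤ Real.exp Λ := by
      filter_upwards [Real.tendsto_exp_div_pow_atTop 4 |>.eventually_ge_atTop ((2 * K) ^ 4),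
        eventually_gt_atTop (0 : ℝ)] with Λ h1 h2
      rw [mul_pow]
      rwa [le_div_iff₀ (by positivity)] at h1
    filter_upwards [eventually_ge_atTop (1 : ℝ), hsq.eventually_ge_atTop (C' / l + 1),
      eventually_ge_atTop l, hexp] with Λ h1 h2 h2' h2''
    rintro A hA
    have hΛ0 : 0 < Λ := by linarith
    set R := Real.sqrt Λ with hR
    have hR1 : 1 ≤ R := Real.one_le_sqrt.2 h1
    have hR0 : 0 < R := by linarith
    have hRR : R * R = Λ := Real.mul_self_sqrt hΛ0.le
    have hRΛ : R ≤ Λ := by rw [← hRR]; exact le_mul_of_one_le_left hR0.le hR1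
    have hA0 : 0 < A := by rw [hA]; positivity
    have hlA : l * A = Λ + l * K * R := by rw [hA]; field_simp
    have h4 : A ≤ 2 * K * Λ := by
      have h5 : Λ / l ≤ K * Λ := by
        rw [div_le_iff₀ hl]
        have := mul_le_mul_of_nonneg_right hK1 hΛ0.le
        linarith
      have h6 : K * R ≤ K * Λ := mul_le_mul_of_nonneg_left hRΛ hK0.le
      rw [hA]
      linarith
    refine ⟨(pow_le_pow_left₀ hA0.le h4 4).trans h2'', ?_⟩
    constructor
    · -- `C √A ≤ l K R`
      have h3 : C * Real.sqrt A ≤ l * K * R := by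
        refine le_of_sq_le_sq ?_ (by positivity)
        rw [mul_pow, Real.sq_sqrt hA0.le]
        calc C ^ 2 * A ≤ C ^ 2 * (2 * K * Λ) := mul_le_mul_of_nonneg_left h4 (by positivity)
          _ = 2 * C ^ 2 * (K * Λ) := by ring
          _ ≤ l ^ 2 * K * (K * Λ) := mul_le_mul_of_nonneg_right hK2 (by positivity)
          _ = (l * K * R) ^ 2 := by rw [← hRR]; ring
      linarith
    · have h32 : Λ ^ ((3 : ℝ) / 2) = Λ * R := by
        rw [show (3 : ℝ) / 2 = 1 + 1 / 2 by norm_num, Real.rpow_add hΛ0, Real.rpow_one,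
          ← Real.sqrt_eq_rpow]
      set y := l / Λ - C' / Λ ^ ((3 : ℝ) / 2) with hy
      have hyR : y * (R * Λ) = l * R - C' := by rw [hy, h32]; field_simp
      have hCR : C' + l ≤ l * R := by
        have h3 : l * (C' / l + 1) ≤ l * R := mul_le_mul_of_nonneg_left h2 hl.le
        have h4 : l * (C' / l + 1) = C' + l := by field_simp
        linarith
      have hy0 : 0 < y := by
        by_contra hcon
        rw [not_lt] at hcon
        have h3 : y * (R * Λ) ≤ 0 := mul_nonpos_of_nonpos_of_nonneg hcon (by positivity)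
        linarith
      have hA1 : 1 ≤ A := by
        have h3 : 1 ≤ Λ / l := by rwa [le_div_iff₀ hl, one_mul]
        have h4 : 0 ≤ K * R := by positivity
        rw [hA]
        linarith
      -- `A y ≤ 1 - l / R`
      have hAy : l * A * y * R = (R + l * K) * (l * R - C') / R := by
        rw [hlA, ← hyR, ← hRR]
        field_simp
      have hAy2 : A * y ≤ 1 - A⁻¹ := by
        have h3 : l * A * y * R ≤ l * R - l ^ 2 := by
          rw [hAy, div_le_iff₀ hR0]
          have h4 : 0 ≤ l * K * C' := by positivity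
          have h5 : C' = l ^ 2 * K + l ^ 2 := by rw [hC']; ring
          have h6 : (R + l * K) * (l * R - C') = l * R * R + l ^ 2 * K * R - C' * R - l * K * C' := by
            ring
          have h7 : C' * R = l ^ 2 * K * R + l ^ 2 * R := by rw [h5]; ring
          linarith
        have h4 : A⁻¹ ≤ l / R := by
          rw [inv_eq_one_div, div_le_div_iff₀ hA0 hR0, one_mul, hlA]
          have : 0 ≤ l * K * R := by positivity
          linarith
        have h5 : A * y ≤ 1 - l / R := by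
          have h6 : A * y * (l * R) ≤ (1 - l / R) * (l * R) := by
            have h7 : (1 - l / R) * (l * R) = l * R - l ^ 2 := by field_simp
            rw [h7]
            linarith
          exact le_of_mul_le_mul_right h6 (by positivity)
        linarith
      have hyA : y ≤ A⁻¹ * (1 - A⁻¹) := by
        rw [inv_mul_eq_div, le_div_iff₀ hA0]
        linarith
      have hAi0 : 0 < A⁻¹ := by positivity
      have hAi1 : A⁻¹ ≤ 1 := inv_le_one_of_one_le₀ hA1
      have h3 : y ^ κ ≤ A⁻¹ ^ κ * (1 - A⁻¹) := by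
        calc y ^ κ ≤ (A⁻¹ * (1 - A⁻¹)) ^ κ := pow_le_pow_left₀ hy0.le hyA κ
          _ = A⁻¹ ^ κ * (1 - A⁻¹) ^ κ := mul_pow _ _ _
          _ ≤ A⁻¹ ^ κ * (1 - A⁻¹) := by
              refine mul_le_mul_of_nonneg_left ?_ (by positivity)
              calc (1 - A⁻¹) ^ κ ≤ (1 - A⁻¹) ^ 1 :=
                    pow_le_pow_of_le_one (by linarith) (by linarith) hκ
                _ = 1 - A⁻¹ := pow_one _
      refine h3.trans ?_
      set q := A⁻¹ ^ κ with hq
      have hq0 : 0 < q := by positivity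
      have hqA : q ≤ A⁻¹ := by
        calc q ≤ A⁻¹ ^ 1 := pow_le_pow_of_le_one hAi0.le hAi1 hκ
          _ = A⁻¹ := pow_one _
      have h4 : q * (1 - A⁻¹) ≤ q * (1 - q) := mul_le_mul_of_nonneg_left (by linarith) hq0.le
      have h5 : Real.exp (-q) ≤ 1 / (1 + q) := by
        rw [Real.exp_neg, inv_eq_one_div]
        exact one_div_le_one_div_of_le (by linarith) (by linarith [Real.add_one_le_exp q])
      have h6 : 1 / (1 + q) ≤ 1 - q * (1 - q) := by
        rw [div_le_iff₀ (by linarith)]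
        have h7 : (1 - q * (1 - q)) * (1 + q) = 1 + q ^ 3 := by ring
        rw [h7]
        have : 0 ≤ q ^ 3 := by positivity
        linarith
      linarith

/-- the lower bound for the critical probability in terms of iterated logarithms -/
theorem lower_final {κ j : ℕ} (hκ : 1 ≤ κ) {l C : ℝ} (hl : 0 < l) (hC : 0 < C) {F : ℕ → ℝ}
    (h : ∀ᶠ L : ℝ in atTop, ∀ q p : ℝ, q * Real.exp L ^ κ = 1 → p = 1 - Real.exp (-q) →
      ∀ n : ℕ, Real.exp L ^ 4 ≤ (n : ℝ) →
        (n : ℝ) ≤ tow (j + 1) (l * Real.exp L - C * Real.exp (L / 2)) → p ≤ F n) :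
    ∃ C' : ℝ, 0 < C' ∧ ∀ᶠ n : ℕ in atTop,
      (l / Real.log^[j + 1] (n : ℝ) - C' / (Real.log^[j + 1] (n : ℝ)) ^ ((3 : ℝ) / 2)) ^ κ ≤ F n := by
  obtain ⟨C', hC', hA, hev⟩ := n2_choice hκ hl hC
  refine ⟨C', hC', ?_⟩
  have hL : Tendsto (fun n : ℕ => Real.log^[j + 1] (n : ℝ)) atTop atTop := iter_log_tendsto (j + 1)
  have hLA := (Real.tendsto_log_atTop.comp (hA.comp hL)).eventually h
  filter_upwards [hLA, hL.eventually hev, tow_iter_log (j + 1), (hA.comp hL).eventually_gt_atTop 0] with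
    n h1 h2 h3 h4
  obtain ⟨h45, h5, h6⟩ := h2 _ rfl
  simp only [Function.comp_apply] at h1 h4
  set Λ := Real.log^[j + 1] (n : ℝ) with hΛ
  set A := Λ / l + (1 / l + 2 * C ^ 2 / l ^ 2) * Real.sqrt Λ with hAdef
  refine h6.trans ?_
  have h7 : Real.exp (Real.log A) = A := Real.exp_log h4
  have h8 : Real.exp (Real.log A / 2) = Real.sqrt A := by
    rw [Real.sqrt_eq_rpow, Real.rpow_def_of_pos h4]
    ring_nf
  refine h1 (A⁻¹ ^ κ) _ ?_ rfl n ?_ ?_
  · rw [h7, ← mul_pow, inv_mul_cancel₀ h4.ne', one_pow]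
  · rw [h7, ← h3, tow_succ']
    exact h45.trans (le_tow j _)
  · rw [h7, h8, ← h3]
    exact tow_mono (j + 1) h5

end BTR
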