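import Pool.Agent.BTR.D2
import Pool.Agent.BTP.T2

set_option autoImplicit false

open scoped Classical
open Finset

/-! # [BTR-FB] From percolation of the finite box (as in the frozen statement) to the process `Bu` (helper30) -/

namespace BTR.F
open BTP BTR

/-- percolation in `[0, n-1]^d` with threshold `r`, as in the frozen statement -/
def PercR (d r n : ℕ) (A : Finset (Fin d → Fin n)) : Prop :=
  ∀ S : Finset (Fin d → Fin n), A ⊆ S →
    (∀ v : Fin d → Fin n,
      r ≤ (Finset.univ.filter (fun u : Fin d → Fin n =>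
        u ∈ S ∧ ∑ i, |((u i : ℕ) : ℤ) - ((v i : ℕ) : ℤ)| = 1)).card → v ∈ S) →
    S = Finset.univ

/-- the probability of percolation -/
noncomputable def percR (d r n : ℕ) (p : ℝ) : ℝ := ∑ A : Finset (Fin d → Fin n),
  (if PercR d r n A then p ^ A.card * (1 - p) ^ (Fintype.card (Fin d → Fin n) - A.card) else 0)

theorem Bu_mono_seeds {d r : ℕ} {O : Set (Site d)} {U U' X : Finset (Site d)} (hU : U ⊆ U')
    (h : Bu r O U X) : Bu r O U' X := by
  induction h with
  | nil => exact Bu.nil
  | add _ hv ih => exact Bu.add ih (hv.imp (fun h => hU h) id)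

theorem Inc_Bu {d r : ℕ} {O : Set (Site d)} {X : Finset (Site d)} :
    Inc (fun U : Finset (Site d) => Bu r O U X) := fun _ _ h hb => Bu_mono_seeds h hb

theorem n3_nbr {d r n : ℕ} {X : Finset (Site d)} {v : Fin d → Fin n}
    (hv : r ≤ (Finset.univ.filter (fun u : Fin d → Fin n =>
        u ∈ Finset.univ.filter (fun w => t1_e d n w ∈ X) ∧
          ∑ i, |((u i : ℕ) : ℤ) - ((v i : ℕ) : ℤ)| = 1)).card) :
    r ≤ nbr ∅ X (t1_e d n v) := by
  refine hv.trans ?_
  unfold nbr
  have h1 : ((Finset.univ.filter (fun u : Fin d → Fin n =>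
        u ∈ Finset.univ.filter (fun w => t1_e d n w ∈ X) ∧
          ∑ i, |((u i : ℕ) : ℤ) - ((v i : ℕ) : ℤ)| = 1)).map (t1_e d n)) ⊆
      (Finset.univ.filter (fun j : Dir d => stp (t1_e d n v) j ∈ X ∨
        stp (t1_e d n v) j ∈ (∅ : Set (Site d)))).image (stp (t1_e d n v)) := by
    intro w hw
    obtain ⟨u, hu, rfl⟩ := Finset.mem_map.1 hw
    rw [Finset.mem_filter, Finset.mem_filter] at hu
    obtain ⟨_, ⟨_, huX⟩, hd⟩ := hu
    -- the direction
    have hd' : ∑ i, |t1_e d n u i - t1_e d n v i| = 1 := by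
      simpa only [t1_e_apply] using hd
    have hne : ∃ i, t1_e d n u i ≠ t1_e d n v i := by
      by_contra hcon
      push Not at hcon
      have : ∑ i, |t1_e d n u i - t1_e d n v i| = 0 :=
        Finset.sum_eq_zero fun i _ => by rw [hcon i, sub_self, abs_zero]
      omega
    obtain ⟨i, hi⟩ := hne
    obtain ⟨h1, h2⟩ := b4_unique hd' hi
    have hst : stp (t1_e d n v) (i, decide (t1_e d n v i < t1_e d n u i)) = t1_e d n u := by
      funext m
      unfold stp
      by_cases hm : m = i
      · subst hm
        rw [Function.update_self]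
        by_cases hlt : t1_e d n v m < t1_e d n u m
        · rw [abs_of_pos (by omega)] at h1
          simp only [hlt, decide_true, if_true]
          omega
        · rw [abs_of_neg (by omega)] at h1
          simp only [hlt, decide_false, Bool.false_eq_true, if_false]
          omega
      · rw [Function.update_of_ne hm]
        exact (h2 m hm).symm
    rw [Finset.mem_image]
    refine ⟨(i, decide (t1_e d n v i < t1_e d n u i)), ?_, hst⟩
    rw [Finset.mem_filter]
    exact ⟨Finset.mem_univ _, Or.inl (by rw [hst]; exact huX)⟩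
  have h2 := (Finset.card_le_card h1).trans Finset.card_image_le
  rw [Finset.card_map] at h2
  convert h2

theorem n3_perc {d r n : ℕ} {A : Finset (Fin d → Fin n)} (hA : PercR d r n A) :
    Bu r ∅ (A.map (t1_e d n)) (sites (Wn d n)) := by
  -- a maximal built set
  have hne : ((sites (Wn d n)).powerset.filter (fun X => Bu r ∅ (A.map (t1_e d n)) X)).Nonempty :=
    ⟨∅, by rw [Finset.mem_filter]; exact ⟨Finset.empty_mem_powerset _, Bu.nil⟩⟩
  obtain ⟨X, hX, hmax⟩ := Finset.exists_max_image _ Finset.card hne
  rw [Finset.mem_filter, Finset.mem_powerset] at hX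
  obtain ⟨hXs, hXb⟩ := hX
  have hadd : ∀ v ∈ sites (Wn d n), (v ∈ A.map (t1_e d n) ∨ r ≤ nbr ∅ X v) → v ∈ X := by
    intro v hvs hv
    by_contra hvX
    have h1 := hmax (insert v X) (by
      rw [Finset.mem_filter, Finset.mem_powerset]
      exact ⟨Finset.insert_subset hvs hXs, Bu.add hXb hv⟩)
    rw [Finset.card_insert_of_notMem hvX] at h1
    omega
  have h1 := hA (Finset.univ.filter (fun v => t1_e d n v ∈ X)) ?_ ?_
  · have h2 : X = sites (Wn d n) := by
      apply Finset.Subset.antisymm hXs
      intro w hw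
      obtain ⟨v, rfl⟩ := t1_e_surj hw
      have : v ∈ Finset.univ.filter (fun v => t1_e d n v ∈ X) := by
        rw [h1]; exact Finset.mem_univ _
      exact (Finset.mem_filter.mp this).2
    rw [← h2]
    exact hXb
  · intro v hv
    rw [Finset.mem_filter]
    exact ⟨Finset.mem_univ _, hadd _ (t1_e_mem v) (Or.inl (Finset.mem_map_of_mem _ hv))⟩
  · intro v hv
    rw [Finset.mem_filter]
    exact ⟨Finset.mem_univ _, hadd _ (t1_e_mem v) (Or.inr (n3_nbr hv))⟩

/-- transfer of the probability -/
theorem percR_le {d r n : ℕ} {p : ℝ} (hp0 : 0 ≤ p) (hp1 : p ≤ 1) :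
    percR d r n p ≤ Pr (sites (Wn d n)) p (fun U => Bu r ∅ U (sites (Wn d n))) := by
  unfold percR Pr
  have hcard : (sites (Wn d n)).card = Fintype.card (Fin d → Fin n) := by
    rw [← t1_map_univ, Finset.card_map, Finset.card_univ]
  rw [hcard, ← Finset.sum_filter]
  have h1 : ∑ A ∈ (Finset.univ.filter (fun A => PercR d r n A)),
        p ^ A.card * (1 - p) ^ (Fintype.card (Fin d → Fin n) - A.card) =
      ∑ U ∈ (Finset.univ.filter (fun A => PercR d r n A)).map
          (Finset.mapEmbedding (t1_e d n)).toEmbedding,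
        p ^ U.card * (1 - p) ^ (Fintype.card (Fin d → Fin n) - U.card) := by
    rw [Finset.sum_map]
    apply Finset.sum_congr rfl
    intro A _
    simp only [RelEmbedding.coe_toEmbedding, Finset.mapEmbedding_apply, Finset.card_map]
  rw [h1]
  apply Finset.sum_le_sum_of_subset_of_nonneg
  · intro U hU
    obtain ⟨A, hA, rfl⟩ := Finset.mem_map.mp hU
    rw [Finset.mem_filter] at hA
    simp only [RelEmbedding.coe_toEmbedding, Finset.mapEmbedding_apply]
    rw [Finset.mem_filter, Finset.mem_powerset]
    refine ⟨?_, n3_perc hA.2⟩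
    rw [← t1_map_univ]
    exact Finset.map_subset_map.mpr (Finset.subset_univ _)
  · intro U _ _
    have : 0 ≤ 1 - p := by linarith
    positivity

/-- a lower bound for the critical probability, in the form of the frozen statement -/
theorem le_pcR {d r n : ℕ} {p : ℝ} (hp0 : 0 ≤ p) (hp1 : p ≤ 1)
    (h : Pr (sites (Wn d n)) p (fun U => Bu r ∅ U (sites (Wn d n))) < 1 / 2) :
    p ≤ sInf {p : ℝ | 0 ≤ p ∧ p ≤ 1 ∧ (1:ℝ)/2 ≤ ∑ A : Finset (Fin d → Fin n),
            (if (∀ S : Finset (Fin d → Fin n), A ⊆ S →
                (∀ v : Fin d → Fin n,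
                  r ≤ (Finset.univ.filter (fun u : Fin d → Fin n =>
                    u ∈ S ∧ ∑ i, |((u i : ℕ) : ℤ) - ((v i : ℕ) : ℤ)| = 1)).card → v ∈ S) →
                S = Finset.univ)
            then p ^ A.card * (1 - p) ^ (Fintype.card (Fin d → Fin n) - A.card) else 0)} := by
  have key : p ≤ sInf {p' : ℝ | 0 ≤ p' ∧ p' ≤ 1 ∧ (1 : ℝ) / 2 ≤ percR d r n p'} := by
    have h1 : percR d r n 1 = 1 := by
      unfold percR
      rw [Finset.sum_eq_single (Finset.univ : Finset (Fin d → Fin n))]
      · have hp : PercR d r n (Finset.univ : Finset (Fin d → Fin n)) := fun S hS _ =>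
          Finset.univ_subset_iff.mp hS
        rw [if_pos hp, Finset.card_univ, Nat.sub_self, pow_zero, one_pow, one_mul]
      · intro A _ hA
        have hlt : A.card < Fintype.card (Fin d → Fin n) := by
          rw [← Finset.card_univ]
          exact Finset.card_lt_card (Finset.ssubset_univ_iff.mpr hA)
        have h0 : Fintype.card (Fin d → Fin n) - A.card ≠ 0 := by omega
        rw [sub_self, zero_pow h0, mul_zero]
        split_ifs <;> rfl
      · intro h'
        exact absurd (Finset.mem_univ _) h'
    refine le_csInf ⟨1, zero_le_one, le_rfl, ?_⟩ ?_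
    · rw [h1]
      norm_num
    · rintro p' ⟨h0', h1', hh⟩
      by_contra hlt
      rw [not_le] at hlt
      have h2 := percR_le (d := d) (r := r) (n := n) h0' h1'
      have h3 := Pr_mono_p h0' hlt.le hp1 (sites (Wn d n))
        (fun U : Finset (Site d) => Bu r ∅ U (sites (Wn d n))) Inc_Bu
      linarith
  refine key.trans (le_of_eq ?_)
  congr 1
  ext p'
  have hs : percR d r n p' = ∑ A : Finset (Fin d → Fin n),
            (if (∀ S : Finset (Fin d → Fin n), A ⊆ S →
                (∀ v : Fin d → Fin n,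
                  r ≤ (Finset.univ.filter (fun u : Fin d → Fin n =>
                    u ∈ S ∧ ∑ i, |((u i : ℕ) : ℤ) - ((v i : ℕ) : ℤ)| = 1)).card → v ∈ S) →
                S = Finset.univ)
            then p' ^ A.card * (1 - p') ^ (Fintype.card (Fin d → Fin n) - A.card) else 0) := by
    unfold percR PercR
    refine Finset.sum_congr rfl fun A _ => ?_
    congr
  simp only [Set.mem_setOf_eq, hs]

end BTR.F
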