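import Pool.Agent.BTR.FA
import Pool.Agent.BTR.FB
import Pool.Agent.BTS.F4
import Pool.Agent.UBT.H3

set_option autoImplicit false

open scoped Classical
open Filter

/-! # [BTR-FC] Assembly of S19297 from `FIN` (helper30) -/

namespace BTR.F
open BTP BTR

/-- the final form of the level induction (helper97): for `A = exp L`, `q A^(D-1) = 1`, `p = 1 - exp(-q)` the box of side
`n`, `A^4 ≤ n ≤ exp^[l+1] (λ A - C √A)`, is filled with probability less than one half -/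
def FIN (D l : ℕ) : Prop := ∃ C : ℝ, 0 < C ∧ ∀ᶠ L : ℝ in atTop, ∀ q p : ℝ,
  q * Real.exp L ^ (D - 1) = 1 → p = 1 - Real.exp (-q) → ∀ n : ℕ, Real.exp L ^ 4 ≤ (n : ℝ) →
    (n : ℝ) ≤ UBT.tow (l + 1) (lamk (D - 1) (l + 1) * Real.exp L - C * Real.exp (L / 2)) →
    Pr (sites (Wn (D + l) n)) p (fun U => Bu (l + 2) ∅ U (sites (Wn (D + l) n))) < 1 / 2

/-- the lower bound from `FIN` -/
theorem lower_of_FIN {D l : ℕ} (hD : 2 ≤ D) (hF : FIN D l) : ∃ C : ℝ, 0 < C ∧ ∀ᶠ n : ℕ in atTop,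
    (lamk (D - 1) (l + 1) / Real.log^[l + 1] (n : ℝ) -
      C / (Real.log^[l + 1] (n : ℝ)) ^ ((3 : ℝ) / 2)) ^ (D - 1) ≤
    sInf {p : ℝ | 0 ≤ p ∧ p ≤ 1 ∧ (1:ℝ)/2 ≤ ∑ A : Finset (Fin (D + l) → Fin n),
            (if (∀ S : Finset (Fin (D + l) → Fin n), A ⊆ S →
                (∀ v : Fin (D + l) → Fin n,
                  l + 2 ≤ (Finset.univ.filter (fun u : Fin (D + l) → Fin n =>
                    u ∈ S ∧ ∑ i, |((u i : ℕ) : ℤ) - ((v i : ℕ) : ℤ)| = 1)).card → v ∈ S) →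
                S = Finset.univ)
            then p ^ A.card * (1 - p) ^ (Fintype.card (Fin (D + l) → Fin n) - A.card) else 0)} := by
  obtain ⟨C, hC, hF⟩ := hF
  refine lower_final (κ := D - 1) (by omega) (BTG.lamk_pos _ (by omega)) hC ?_
  filter_upwards [hF] with L hL q p hq hp n hn4 hn
  have hq0 : 0 < q := by
    have h1 : 0 < Real.exp L ^ (D - 1) := by positivity
    by_contra hcon
    rw [not_lt] at hcon
    have := mul_nonpos_of_nonpos_of_nonneg hcon h1.le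
    linarith
  have he1 : Real.exp (-q) ≤ 1 := Real.exp_le_one_iff.2 (by linarith)
  have he0 : 0 < Real.exp (-q) := Real.exp_pos _
  exact le_pcR (by linarith) (by linarith) (hL q p hq hp n hn4 hn)

/-- the lower bound for threshold two -/
theorem lower_two {d : ℕ} (hd : 2 ≤ d) : ∃ C : ℝ, 0 < C ∧ ∀ᶠ n : ℕ in atTop,
    (lamk (d - 1) 1 / Real.log n - C / (Real.log n) ^ ((3 : ℝ) / 2)) ^ (d - 1) ≤
    sInf {p : ℝ | 0 ≤ p ∧ p ≤ 1 ∧ (1:ℝ)/2 ≤ ∑ A : Finset (Fin d → Fin n),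
            (if (∀ S : Finset (Fin d → Fin n), A ⊆ S →
                (∀ v : Fin d → Fin n,
                  2 ≤ (Finset.univ.filter (fun u : Fin d → Fin n =>
                    u ∈ S ∧ ∑ i, |((u i : ℕ) : ℤ) - ((v i : ℕ) : ℤ)| = 1)).card → v ∈ S) →
                S = Finset.univ)
            then p ^ A.card * (1 - p) ^ (Fintype.card (Fin d → Fin n) - A.card) else 0)} := by
  obtain ⟨C, hC, N, hN⟩ := BTS.main_result d hd
  refine ⟨C, hC, ?_⟩
  filter_upwards [eventually_ge_atTop N] with n hn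
  have h1 : lamk (d - 1) 1 = ∫ z in Set.Ioi (0 : ℝ), - Real.log (((1 - Real.exp (-(z ^ (d - 1)))) +
      Real.sqrt ((1 - Real.exp (-(z ^ (d - 1)))) * (4 - 3 * (1 - Real.exp (-(z ^ (d - 1))))))) / 2) :=
    BTG.lamk_one_eq d
  rw [h1]
  exact (hN n hn).2

/-- S19297 from `FIN` -/
theorem main_of_FIN (hF : ∀ D l : ℕ, 2 ≤ D → 1 ≤ l → FIN D l) :
  ∀ d r : ℕ, 2 ≤ r → r ≤ d →
    ∃ lam c C : ℝ, 0 < lam ∧ 0 < c ∧ c ≤ C ∧ ∃ N : ℕ, ∀ n : ℕ, N ≤ n →
      (lam / Real.log^[r-1] (n:ℝ) - C / (Real.log^[r-1] (n:ℝ)) ^ ((3:ℝ)/2)) ^ (d - r + 1)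
        ≤ sInf {p : ℝ | 0 ≤ p ∧ p ≤ 1 ∧ (1:ℝ)/2 ≤ ∑ A : Finset (Fin d → Fin n),
            (if (∀ S : Finset (Fin d → Fin n), A ⊆ S →
                (∀ v : Fin d → Fin n,
                  r ≤ (Finset.univ.filter (fun u : Fin d → Fin n =>
                    u ∈ S ∧ ∑ i, |((u i : ℕ) : ℤ) - ((v i : ℕ) : ℤ)| = 1)).card → v ∈ S) →
                S = Finset.univ)
            then p ^ A.card * (1 - p) ^ (Fintype.card (Fin d → Fin n) - A.card) else 0)}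
      ∧ sInf {p : ℝ | 0 ≤ p ∧ p ≤ 1 ∧ (1:ℝ)/2 ≤ ∑ A : Finset (Fin d → Fin n),
            (if (∀ S : Finset (Fin d → Fin n), A ⊆ S →
                (∀ v : Fin d → Fin n,
                  r ≤ (Finset.univ.filter (fun u : Fin d → Fin n =>
                    u ∈ S ∧ ∑ i, |((u i : ℕ) : ℤ) - ((v i : ℕ) : ℤ)| = 1)).card → v ∈ S) →
                S = Finset.univ)
            then p ^ A.card * (1 - p) ^ (Fintype.card (Fin d → Fin n) - A.card) else 0)}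
        ≤ (lam / Real.log^[r-1] (n:ℝ) - c / (Real.log^[r-1] (n:ℝ)) ^ ((3:ℝ)/2)) ^ (d - r + 1) := by
  intro d r hr hrd
  obtain ⟨c, hc, hup⟩ := UBT.upper_bound hr hrd
  have hlam : 0 < lamk (d - r + 1) (r - 1) := BTG.lamk_pos _ (by omega)
  have hlow : ∃ C : ℝ, 0 < C ∧ ∀ᶠ n : ℕ in atTop,
      (lamk (d - r + 1) (r - 1) / Real.log^[r-1] (n:ℝ) -
        C / (Real.log^[r-1] (n:ℝ)) ^ ((3:ℝ)/2)) ^ (d - r + 1)
        ≤ sInf {p : ℝ | 0 ≤ p ∧ p ≤ 1 ∧ (1:ℝ)/2 ≤ ∑ A : Finset (Fin d → Fin n),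
            (if (∀ S : Finset (Fin d → Fin n), A ⊆ S →
                (∀ v : Fin d → Fin n,
                  r ≤ (Finset.univ.filter (fun u : Fin d → Fin n =>
                    u ∈ S ∧ ∑ i, |((u i : ℕ) : ℤ) - ((v i : ℕ) : ℤ)| = 1)).card → v ∈ S) →
                S = Finset.univ)
            then p ^ A.card * (1 - p) ^ (Fintype.card (Fin d → Fin n) - A.card) else 0)} := by
    rcases Nat.lt_or_ge r 3 with h3 | h3
    · obtain rfl : r = 2 := by omega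
      obtain ⟨C, hC, h⟩ := lower_two hrd
      refine ⟨C, hC, ?_⟩
      rw [show d - 2 + 1 = d - 1 by omega, show 2 - 1 = 1 by norm_num]
      exact h
    · obtain ⟨l, rfl⟩ : ∃ l, r = l + 2 := ⟨r - 2, by omega⟩
      obtain ⟨D, rfl⟩ : ∃ D, d = D + l := ⟨d - l, by omega⟩
      obtain ⟨C, hC, h⟩ := lower_of_FIN (D := D) (l := l) (by omega) (hF D l (by omega) (by omega))
      refine ⟨C, hC, ?_⟩
      rw [show D + l - (l + 2) + 1 = D - 1 by omega, show l + 2 - 1 = l + 1 by omega]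
      exact h
  obtain ⟨C, hC, hlow⟩ := hlow
  exact UBT.combine hlam hc hC hup hlow

end BTR.F
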