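import Pool.Agent.BTR.D2
import Pool.Agent.BTP.P5

set_option autoImplicit false

/-! # Definitions for part (2) of the lower bound: from `one_corner` to the `r`-neighbour process on `[n]^d`

A structure `(J, T)` is a box `T` with a set `J` of thick directions; the helpers are `Oj J T` (everything
outside the range of `T` in a thick direction). `k` is the thickness `⌈A⌉`. -/

open scoped Classical
open Finset

namespace BTR
open BTP

variable {d : ℕ}

/-- the connected component of `x` in `X` -/
noncomputable def cmp (X : Finset (Site d)) (x : Site d) : Finset (Site d) :=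
  X.filter (fun v => Relation.ReflTransGen (fun a b => b ∈ X ∧ adj a b) x v)

/-- the box `T` with the range in direction `i` replaced by `[a, b]` -/
def slb (T : Box d) (i : Fin d) (a b : ℤ) : Box d :=
  fun j => if j.1 = i then (if j.2 = true then b else -a) else T j

/-- the box of the sites within distance `m` of `x` in every direction -/
def bx (x : Site d) (m : ℕ) : Box d := fun j => cc x j + m

/-- the part of `T` within distance `m` of `x` in the directions outside `J` -/
noncomputable def win (J : Finset (Fin d)) (T : Box d) (x : Site d) (m : ℕ) : Box d :=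
  fun j => if j.1 ∈ J then T j else min (T j) (bx x m j)

/-- all extents of `X` in the directions of `I` are at most `s` -/
def Ele (I : Finset (Fin d)) (X : Finset (Site d)) (s : ℤ) : Prop :=
  ∀ i ∈ I, ∀ u ∈ X, ∀ v ∈ X, v i - u i ≤ s

/-- some extent of `X` in a direction of `I` is at least `s` -/
def Ege (I : Finset (Fin d)) (X : Finset (Site d)) (s : ℤ) : Prop :=
  ∃ i ∈ I, ∃ u ∈ X, ∃ v ∈ X, s ≤ v i - u i

/-- the event: `x` lies in a connected set built in the structure `(J, T)` whose largest extent in the
directions of `I` is in `[y, 2y+1]` -/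
def FE (r : ℕ) (J : Finset (Fin d)) (T : Box d) (I : Finset (Fin d)) (x : Site d) (y : ℕ)
    (U : Finset (Site d)) : Prop :=
  ∃ X : Finset (Site d), X ⊆ sites T ∧ Cn X ∧ Bu r (Oj J T) U X ∧ x ∈ X ∧
    Ele I X (2 * y + 1) ∧ Ege I X y

/-- the sub-slab number `a` of `T` in direction `i`, of thickness `k`, counted from the low side -/
def sbl (T : Box d) (i : Fin d) (k : ℕ) (a : ℤ) : Box d :=
  slb T i (- T (i, false) + a * k) (- T (i, false) + a * k + k - 1)

/-- the number of the sub-slab containing `x` -/
def idx (T : Box d) (i : Fin d) (k : ℕ) (x : Site d) : ℤ := (x i + T (i, false)) / (k : ℤ)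

/-- the event: a chain of `n` disjointly built components of sub-slabs, starting at `x` -/
def chE (r : ℕ) (J : Finset (Fin d)) (T : Box d) (i : Fin d) (k : ℕ) :
    ℕ → Site d → Finset (Site d) → Prop
  | 0, _, _ => True
  | n + 1, x, U => ∃ t : ℕ,
      dis (FE r J (sbl T i k (idx T i k x)) Finset.univ x (2 ^ t - 1))
        (fun U' => ∃ x' ∈ sites (bx x (2 * 2 ^ t)), chE r J T i k n x' U') U

/-- the thickness `d (⌊log₂ m⌋ + 1) k` of the slabs used for boxes of side at most `m` -/
def Kf (d k m : ℕ) : ℕ := d * (Nat.log 2 m + 1) * k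

/-- slabs of thickness `K` (all other thick sides `k`, long sides at most `m`, `j` thick directions) are
crossed with probability at most `1/4` -/
def HC (d r k : ℕ) (p : ℝ) (j K m : ℕ) : Prop :=
  ∀ J : Finset (Fin d), J.card = j → ∀ i ∈ J, ∀ T : Box d, Ne T → (∀ i' ∈ J, i' ≠ i → sd T i' = k) →
    sd T i = K → (∀ i', i' ∉ J → sd T i' ≤ m) → Pr (sites T) p (Cr r J T i) ≤ 1 / 4

/-- the kernel bound for structures with `j` thick directions, all of thickness `k`, long sides at most `m` -/
def HF (d r k : ℕ) (p : ℝ) (j m : ℕ) : Prop :=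
  ∀ J : Finset (Fin d), J.card = j → ∀ T : Box d, Ne T → (∀ i ∈ J, sd T i = k) →
    (∀ i, i ∉ J → sd T i ≤ m) → ∀ (x : Site d) (y : ℕ), y ≤ m →
    ((y : ℝ) + 1) * (4 * y + 5) ^ d * Pr (sites T) p (FE r J T Finset.univ x y) ≤ 1 / 32

end BTR
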