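import Pool.Agent.BTR.K1a
import Pool.Agent.BTR.KD
import Pool.Agent.BTP.B6

set_option autoImplicit false

open scoped Classical
open Finset

namespace BTR
open BTP

variable {d : ℕ}

theorem k1b_slb_ne {T : Box d} {i : Fin d} {a b : ℤ} {j : Dir d} (h : j.1 ≠ i) : slb T i a b j = T j := by
  unfold slb
  rw [if_neg h]

theorem k1b_slb_true {T : Box d} {i : Fin d} {a b : ℤ} : slb T i a b (i, true) = b := by
  unfold slb
  rw [if_pos rfl, if_pos rfl]

theorem k1b_slb_false {T : Box d} {i : Fin d} {a b : ℤ} : slb T i a b (i, false) = -a := by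
  unfold slb
  rw [if_pos rfl, if_neg Bool.false_ne_true]

/-- membership in a box, coordinate by coordinate (`BTP.mem_sites`, or unfold `sites`, `Finset.mem_Icc`, `Pi.le_def`) -/
theorem mem_sites' {T : Box d} {v : Site d} :
    v ∈ sites T ↔ ∀ i, - T (i, false) ≤ v i ∧ v i ≤ T (i, true) := by
  unfold sites
  rw [Finset.mem_Icc, Pi.le_def, Pi.le_def]
  exact forall_and.symm

theorem mem_bx {x v : Site d} {m : ℕ} : v ∈ sites (bx x m) ↔ ∀ i, |v i - x i| ≤ m := by
  rw [mem_sites']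
  refine forall_congr' fun i => ?_
  show -(cc x (i, false) + m) ≤ v i ∧ v i ≤ cc x (i, true) + m ↔ _
  rw [b1_cct, b1_ccf, abs_le]
  constructor <;> rintro ⟨h1, h2⟩ <;> constructor <;> linarith

theorem Ne_bx (x : Site d) (m : ℕ) : Ne (bx x m) := by
  intro i
  show 0 ≤ cc x (i, true) + m + (cc x (i, false) + m)
  rw [b1_cct, b1_ccf]
  have : (0 : ℤ) ≤ m := Int.natCast_nonneg m
  linarith

theorem sd_bx (x : Site d) (m : ℕ) (i : Fin d) : sd (bx x m) i = 2 * m + 1 := by
  show (cc x (i, true) + m + (cc x (i, false) + m) + 1).toNat = 2 * m + 1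
  rw [b1_cct, b1_ccf, show x i + (m : ℤ) + (-x i + m) + 1 = ((2 * m + 1 : ℕ) : ℤ) by push_cast; ring,
    Int.toNat_natCast]

/-- `BTP.card_sites` (file BTP/B6) and `sd_bx` -/
theorem card_bx (x : Site d) (m : ℕ) : (sites (bx x m)).card = (2 * m + 1) ^ d := by
  rw [card_sites (Ne_bx x m), Finset.prod_congr rfl (fun i _ => sd_bx x m i), Finset.prod_const,
    Finset.card_univ, Fintype.card_fin]

theorem mem_slb {T : Box d} {i : Fin d} {a b : ℤ} {v : Site d} : v ∈ sites (slb T i a b) ↔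
    (∀ i', i' ≠ i → - T (i', false) ≤ v i' ∧ v i' ≤ T (i', true)) ∧ a ≤ v i ∧ v i ≤ b := by
  rw [mem_sites']
  constructor
  · intro h
    refine ⟨fun i' hi' => ?_, ?_⟩
    · have h1 := h i'
      rw [k1b_slb_ne (j := (i', false)) hi', k1b_slb_ne (j := (i', true)) hi'] at h1
      exact h1
    · have h1 := h i
      rw [k1b_slb_true, k1b_slb_false, neg_neg] at h1
      exact h1
  · rintro ⟨h1, h2⟩ i'
    by_cases hi : i' = i
    · subst hi
      rw [k1b_slb_true, k1b_slb_false, neg_neg]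
      exact h2
    · rw [k1b_slb_ne (j := (i', false)) hi, k1b_slb_ne (j := (i', true)) hi]
      exact h1 i' hi

theorem mem_win {J : Finset (Fin d)} {T : Box d} {x v : Site d} {m : ℕ} : v ∈ sites (win J T x m) ↔
    v ∈ sites T ∧ ∀ i, i ∉ J → |v i - x i| ≤ m := by
  have key : ∀ i, (-(win J T x m (i, false)) ≤ v i ∧ v i ≤ win J T x m (i, true)) ↔
      ((-T (i, false) ≤ v i ∧ v i ≤ T (i, true)) ∧ (i ∉ J → |v i - x i| ≤ m)) := by
    intro i
    unfold win
    by_cases hi : i ∈ J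
    · rw [if_pos hi, if_pos hi]
      exact ⟨fun h => ⟨h, fun h' => absurd hi h'⟩, fun h => h.1⟩
    · rw [if_neg hi, if_neg hi, neg_le, le_min_iff, le_min_iff, abs_le]
      unfold bx
      rw [b1_cct, b1_ccf]
      constructor
      · rintro ⟨⟨h1, h2⟩, h3, h4⟩
        exact ⟨⟨by linarith, h3⟩, fun _ => ⟨by linarith, by linarith⟩⟩
      · rintro ⟨⟨h1, h2⟩, h3⟩
        obtain ⟨h4, h5⟩ := h3 hi
        exact ⟨⟨by linarith, by linarith⟩, h2, by linarith⟩
  rw [mem_sites', mem_sites']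
  constructor
  · intro h
    exact ⟨fun i => ((key i).1 (h i)).1, fun i => ((key i).1 (h i)).2⟩
  · rintro ⟨h1, h2⟩ i
    exact (key i).2 ⟨h1 i, h2 i⟩

/-- `slb` in directions other than `i` is `T` -/
theorem slb_ne {T : Box d} {i : Fin d} {a b : ℤ} {j : Dir d} (h : j.1 ≠ i) : slb T i a b j = T j := by
  exact k1b_slb_ne h

theorem slb_true {T : Box d} {i : Fin d} {a b : ℤ} : slb T i a b (i, true) = b := by
  exact k1b_slb_true

theorem slb_false {T : Box d} {i : Fin d} {a b : ℤ} : slb T i a b (i, false) = -a := by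
  exact k1b_slb_false

/-- `Oj` depends only on the ranges in the directions of `J` -/
theorem Oj_congr {J : Finset (Fin d)} {T T' : Box d} (h : ∀ i ∈ J, ∀ b, T (i, b) = T' (i, b)) :
    Oj J T = Oj J T' := by
  ext u
  constructor
  · rintro ⟨i, hi, h1⟩
    refine ⟨i, hi, ?_⟩
    rw [← h i hi false, ← h i hi true]
    exact h1
  · rintro ⟨i, hi, h1⟩
    refine ⟨i, hi, ?_⟩
    rw [h i hi false, h i hi true]
    exact h1

theorem Oj_win (J : Finset (Fin d)) (T : Box d) (x : Site d) (m : ℕ) : Oj J (win J T x m) = Oj J T := by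
  exact Oj_congr fun i hi b => if_pos hi

theorem Oj_empty (T : Box d) : Oj ∅ T = ∅ := by
  ext u
  constructor
  · rintro ⟨i, hi, -⟩
    exact absurd hi (Finset.notMem_empty i)
  · intro h
    exact absurd h (Set.notMem_empty u)

/-- `idx T i k x = a` iff the coordinate `x i` is in the range of `sbl T i k a` (`Int.ediv_eq_iff`-type lemmas, or
`Int.emod_nonneg`, `Int.emod_lt_of_pos`, `Int.ediv_add_emod` (or `Int.mul_ediv_add_emod`) and `nlinarith`) -/
theorem idx_eq_iff {T : Box d} {i : Fin d} {k : ℕ} (hk : 1 ≤ k) {x : Site d} {a : ℤ} :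
    idx T i k x = a ↔ - T (i, false) + a * k ≤ x i ∧ x i ≤ - T (i, false) + a * k + k - 1 := by
  have hk0 : (0 : ℤ) < k := by exact_mod_cast hk
  have h0 := Int.emod_nonneg (x i + T (i, false)) hk0.ne'
  have h1 := Int.emod_lt_of_pos (x i + T (i, false)) hk0
  have h2 := Int.mul_ediv_add_emod (x i + T (i, false)) k
  unfold idx
  constructor
  · rintro rfl
    constructor <;> linarith
  · rintro ⟨h3, h4⟩
    exact ((Int.ediv_emod_unique (r := x i + T (i, false) - k * a) (q := a) hk0).2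
      ⟨by ring, by linarith, by linarith⟩).1

/-- adjacent sites are in the same or in neighbouring sub-slabs (`adj_abs`; `Int.ediv_le_ediv`, and
`(z + 1) / k ≤ z / k + 1` as `k ≥ 1`) -/
theorem idx_adj {T : Box d} {i : Fin d} {k : ℕ} (hk : 1 ≤ k) {u v : Site d} (h : adj u v) :
    idx T i k v ≤ idx T i k u + 1 := by
  have hk0 : (0 : ℤ) < k := by exact_mod_cast hk
  have h1 := (abs_le.1 (adj_abs h i)).2
  unfold idx
  rw [← Int.add_mul_ediv_right (u i + T (i, false)) 1 hk0.ne']
  refine Int.ediv_le_ediv hk0 ?_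
  have hk1 : (1 : ℤ) ≤ k := hk0
  linarith

end BTR
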