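import Pool.Agent.BTR.K2a
import Pool.Agent.BTR.K1

set_option autoImplicit false

open scoped Classical
open Finset

namespace BTR
open BTP

variable {d : ℕ}

/-- `Bu.mono` -/
theorem Inc_FE (r : ℕ) (J : Finset (Fin d)) (T : Box d) (I : Finset (Fin d)) (x : Site d) (y : ℕ) :
    Inc (FE r J T I x y) := by
  rintro U U' hU ⟨X, h1, h2, h3, h4⟩
  exact ⟨X, h1, h2, h3.mono (fun _ h => h) hU, h4⟩

theorem Inc_Cr (r : ℕ) (J : Finset (Fin d)) (T : Box d) (i : Fin d) : Inc (Cr r J T i) := by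
  rintro U U' hU ⟨X, h1, h2, h3, h4⟩
  exact ⟨X, h1, h2, h3.mono (fun _ h => h) hU, h4⟩

/-- cases on `n`; `BTP.Inc_dis` (file BTP/P4) or by hand: `dis` is increasing -/
theorem Inc_chE (r : ℕ) (J : Finset (Fin d)) (T : Box d) (i : Fin d) (k n : ℕ) (x : Site d) :
    Inc (chE r J T i k n x) := by
  cases n with
  | zero => exact fun _ _ _ h => h
  | succ n =>
    rintro U U' hU ⟨t, ht⟩
    exact ⟨t, Inc_dis U U' hU ht⟩

/-- the event depends only on the seeds inside the box: the witness `X ⊆ sites T` is built from `U ∩ X ⊆ U ∩ sites T` (`Bu.inter`, `Bu.mono`) -/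
theorem FE_inter {r : ℕ} {J : Finset (Fin d)} {T : Box d} {I : Finset (Fin d)} {x : Site d} {y : ℕ}
    {U : Finset (Site d)} (h : FE r J T I x y U) : FE r J T I x y (U ∩ sites T) := by
  obtain ⟨X, h1, h2, h3, h4⟩ := h
  exact ⟨X, h1, h2, h3.inter.mono (fun _ h => h)
    (Finset.inter_subset_inter (fun _ h => h) h1), h4⟩

theorem Cr_inter {r : ℕ} {J : Finset (Fin d)} {T : Box d} {i : Fin d}
    {U : Finset (Site d)} (h : Cr r J T i U) : Cr r J T i (U ∩ sites T) := by
  obtain ⟨X, h1, h2, h3, h4⟩ := h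
  exact ⟨X, h1, h2, h3.inter.mono (fun _ h => h)
    (Finset.inter_subset_inter (fun _ h => h) h1), h4⟩

end BTR
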