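import Pool.Agent.BTR.K3a
import Pool.Agent.BTR.K2

set_option autoImplicit false

open scoped Classical
open Finset

namespace BTR
open BTP

variable {d : ℕ}

/-- [BTR-K3] last exit: a path from a point of `C` to a point outside `C` in `X` leaves `C` for the last time: it contains a path in `X \ C`, from a neighbour of a point of `C`.
PROOF. Induction on the path (last step): for the endpoint `v`, either `v ∈ C`, or there are `c ∈ C`, `w ∈ X \ C`, `adj c w` and a path of `X \ C` from `w` to `v`. -/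
theorem last_exit {X C : Finset (Site d)} {u v : Site d} (hu : u ∈ C)
    (h : Relation.ReflTransGen (fun a b => b ∈ X ∧ adj a b) u v) (hv : v ∉ C) :
    ∃ c ∈ C, ∃ w ∈ X \ C, adj c w ∧
      Relation.ReflTransGen (fun a b => b ∈ X \ C ∧ adj a b) w v := by
  have key : v ∈ C ∨ ∃ c ∈ C, ∃ w ∈ X \ C, adj c w ∧
      Relation.ReflTransGen (fun a b => b ∈ X \ C ∧ adj a b) w v := by
    clear hv
    induction h with
    | refl => exact Or.inl hu
    | @tail v1 v2 _ h2 ih =>
      by_cases hc : v2 ∈ C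
      · exact Or.inl hc
      · have hm : v2 ∈ X \ C := Finset.mem_sdiff.2 ⟨h2.1, hc⟩
        rcases ih with h3 | ⟨c, hcC, w, hw, hcw, hp⟩
        · exact Or.inr ⟨v1, h3, v2, hm, h2.2, Relation.ReflTransGen.refl⟩
        · exact Or.inr ⟨c, hcC, w, hw, hcw, hp.tail ⟨hm, h2.2⟩⟩
  exact key.resolve_left hv

/-- [BTR-K3] crossing piece: a connected set with a point at height `≤ a` and a point at height `≥ b` has a component of its part between the heights `a` and `b` that touches both heights.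
PROOF. Let `Y = X.filter (a ≤ v i ∧ v i ≤ b)`. Induction on the path from `u` (last step). For the endpoint `v` one of the following holds: (1) there are `x, y ∈ Y` with `x i = a`, `y i = b`, `y ∈ cmp Y x`; (2) `v i ≤ a`; (3) `v ∈ Y` and there is `x ∈ Y` with `x i = a`, `v ∈ cmp Y x`.
(Start: (2); if `v ∈ X` has `v i = a` then `x = v` also gives (3).) Step `v → v'`, `|v' i - v i| ≤ 1` (`adj_abs`): in case (2), if `v' i ≤ a` (2) again, otherwise `v' i = a + 1`, `v i = a`, `x = v`, `v' ∈ Y` (as `a + 1 ≤ b`) and `v'` is in its component. In case (3): if `v i = b` then (1) holds with `y = v`; otherwise `v' i ≤ b`, and either `v' i < a` (2), or `v' ∈ Y` (3).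
At the end point `w` (`b ≤ w i`): (2) is impossible, (3) gives `w i = b` and (1). Here all points of the path are in `X` (the start `u` by assumption). -/
theorem cross_piece {X : Finset (Site d)} (hX : Cn X) (i : Fin d) {a b : ℤ} (hab : a < b)
    {u w : Site d} (hu : u ∈ X) (hw : w ∈ X) (hua : u i ≤ a) (hwb : b ≤ w i) :
    ∃ x y : Site d, x ∈ X ∧ y ∈ X ∧ x i = a ∧ y i = b ∧
      y ∈ cmp (X.filter (fun v => a ≤ v i ∧ v i ≤ b)) x := by
  set Y := X.filter (fun v => a ≤ v i ∧ v i ≤ b) with hY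
  have hmY : ∀ v, v ∈ Y ↔ v ∈ X ∧ a ≤ v i ∧ v i ≤ b := fun v => by
    rw [hY, Finset.mem_filter]
  have key : ∀ v, Relation.ReflTransGen (fun a b => b ∈ X ∧ adj a b) u v →
      (∃ x ∈ Y, ∃ y ∈ Y, x i = a ∧ y i = b ∧ y ∈ BTR.cmp Y x) ∨ (v ∈ X ∧ v i ≤ a) ∨
        (v ∈ Y ∧ ∃ x ∈ Y, x i = a ∧ v ∈ BTR.cmp Y x) := by
    intro v h
    induction h with
    | refl => exact Or.inr (Or.inl ⟨hu, hua⟩)
    | @tail v1 v2 _ h2 ih =>
      have hab2 := abs_le.1 (adj_abs h2.2 i)
      rcases ih with h3 | ⟨h3, h4⟩ | ⟨h3, x, hx, hxa, hc⟩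
      · exact Or.inl h3
      · by_cases h5 : v2 i ≤ a
        · exact Or.inr (Or.inl ⟨h2.1, h5⟩)
        · have h6 : v1 i = a := by omega
          have h7 : v1 ∈ Y := (hmY v1).2 ⟨h3, by omega, by omega⟩
          have h8 : v2 ∈ Y := (hmY v2).2 ⟨h2.1, by omega, by omega⟩
          exact Or.inr (Or.inr ⟨h8, v1, h7, h6, cmp_closed (self_mem_cmp h7) h8 h2.2⟩)
      · have h4 := (hmY v1).1 h3
        by_cases h5 : v1 i = b
        · exact Or.inl ⟨x, hx, v1, h3, hxa, h5, hc⟩
        · by_cases h6 : v2 i < a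
          · exact Or.inr (Or.inl ⟨h2.1, h6.le⟩)
          · have h8 : v2 ∈ Y := (hmY v2).2 ⟨h2.1, by omega, by omega⟩
            exact Or.inr (Or.inr ⟨h8, x, hx, hxa, cmp_closed hc h8 h2.2⟩)
  rcases key w (hX.2 u hu w hw) with ⟨x, hx, y, hy, hxa, hyb, hc⟩ | ⟨_, h4⟩ | ⟨h3, x, hx, hxa, hc⟩
  · exact ⟨x, y, ((hmY x).1 hx).1, ((hmY y).1 hy).1, hxa, hyb, hc⟩
  · omega
  · have h5 := (hmY w).1 h3
    exact ⟨x, w, ((hmY x).1 hx).1, hw, hxa, by omega, hc⟩

end BTR
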