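import Pool.Agent.BTR.K5a
import Pool.Agent.BTR.K3

set_option autoImplicit false

open scoped Classical
open Finset

namespace BTR
open BTP

variable {d : ℕ}

/-- [BTR-K5] Aizenman-Lebowitz, for components. PROOF. Induction on `h`. `nil`: no `x`. `add`: `X = insert v X₀`. If some component of `X₀` has an extent `≥ y` in a direction of `I`, use the induction hypothesis (and `X₀ ⊆ X`). Otherwise `h' : ∀ x ∈ X₀, Ele I (cmp X₀ x) (y - 1)` (negate `Ege`, integers).
If `v ∉ cmp X x`, then `cmp X x ⊆ X₀` and it is contained in the component `cmp X₀ x` (a path of `X` from `x` never visits `v`, otherwise `v ∈ cmp X x`), whose extents are `≤ y - 1`: contradiction with `hE`.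
If `v ∈ cmp X x`: `cmp X x = cmp X v` (or just use `cmp X v`, which contains `cmp X x` by `path_symm` and `trans`). The witness is `X' = cmp X v`: `Cn_cmp`; built by `Bu.cmp`, `Bu.mono`; extents `≤ 2y ≤ 2y + 1` by `near_new`; extent `≥ y` from `hE`. -/
theorem AL_cmp {r : ℕ} {O : Set (Site d)} {U X : Finset (Site d)} (h : Bu r O U X)
    (I : Finset (Fin d)) (y : ℕ) : ∀ x ∈ X, Ege I (cmp X x) y →
    ∃ X' : Finset (Site d), X' ⊆ X ∧ Cn X' ∧ Bu r O U X' ∧ Ele I X' (2 * y + 1) ∧ Ege I X' y := by
  induction h with
  | nil => intro x hx; simp at hx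
  | @add X₀ v hX hv ih =>
    intro x hx hE
    by_cases hbig : ∃ z ∈ X₀, Ege I (cmp X₀ z) y
    · obtain ⟨z, hz, hzE⟩ := hbig
      obtain ⟨X', h1, h2⟩ := ih z hz hzE
      exact ⟨X', h1.trans (Finset.subset_insert _ _), h2⟩
    · have h' : ∀ z ∈ X₀, Ele I (cmp X₀ z) ((y : ℤ) - 1) := by
        intro z hz i hi u hu w hw
        by_contra hc
        exact hbig ⟨z, hz, i, hi, u, hu, w, hw, by omega⟩
      by_cases hvx : v ∈ cmp (insert v X₀) x
      · have hvX : v ∈ insert v X₀ := Finset.mem_insert_self _ _
        refine ⟨cmp (insert v X₀) v, cmp_sub _ _, Cn_cmp hvX, ?_, ?_, ?_⟩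
        · have hB : Bu r O U (insert v X₀) := Bu.add hX hv
          exact (hB.cmp v).mono (Set.Subset.refl _) Finset.inter_subset_left
        · intro i hi a ha b hb
          have h1 := near_new h' ha hi
          have h2 := near_new h' hb hi
          rw [abs_le] at h1 h2
          omega
        · obtain ⟨i, hi, a, ha, b, hb, hab⟩ := hE
          have hsub : ∀ c ∈ cmp (insert v X₀) x, c ∈ cmp (insert v X₀) v := by
            intro c hc
            rw [mem_cmp] at hc hvx ⊢
            exact ⟨hc.1, (path_symm hx hvx.2).trans hc.2⟩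
          exact ⟨i, hi, a, hsub a ha, b, hsub b hb, hab⟩
      · exfalso
        have hself := self_mem_cmp hx
        have hxv : x ≠ v := by
          intro h0
          rw [h0] at hvx hself
          exact hvx hself
        have hx0 : x ∈ X₀ := by
          rcases Finset.mem_insert.mp hx with h0 | h0
          · exact absurd h0 hxv
          · exact h0
        have hsub : ∀ c, Relation.ReflTransGen (fun a b => b ∈ insert v X₀ ∧ adj a b) x c →
            c ∈ cmp X₀ x := by
          intro c hc
          induction hc with
          | refl => exact self_mem_cmp hx0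
          | @tail a b hab hstep ih2 =>
            obtain ⟨hb, hadj⟩ := hstep
            have hbX : b ∈ X₀ := by
              rcases Finset.mem_insert.mp hb with h0 | h0
              · exfalso
                apply hvx
                rw [← h0]
                rw [mem_cmp, h0]
                refine ⟨Finset.mem_insert_self _ _, ?_⟩
                rw [h0] at hadj
                exact hab.tail ⟨Finset.mem_insert_self _ _, hadj⟩
              · exact h0
            exact cmp_closed ih2 hbX hadj
        obtain ⟨i, hi, a, ha, b, hb, hab⟩ := hE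
        have h5 := h' x hx0 i hi a (hsub a (mem_cmp.mp ha).2) b (hsub b (mem_cmp.mp hb).2)
        omega

/-- [BTR-K5] Aizenman-Lebowitz for a connected set (`cmp_of_Cn`) -/
theorem AL {r : ℕ} {O : Set (Site d)} {U X : Finset (Site d)} (hB : Bu r O U X) (hC : Cn X)
    (I : Finset (Fin d)) (y : ℕ) (hE : Ege I X y) :
    ∃ X' : Finset (Site d), X' ⊆ X ∧ Cn X' ∧ Bu r O U X' ∧ Ele I X' (2 * y + 1) ∧ Ege I X' y := by
  obtain ⟨x, hx⟩ := hC.1
  exact AL_cmp hB I y x hx (by rw [cmp_of_Cn hC hx]; exact hE)

end BTR
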