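import Pool.Agent.BTR.K3

set_option autoImplicit false

open scoped Classical
open Finset

namespace BTR
open BTP

variable {d : ℕ}

/-- [BTR-K5] every connected set has a scale `t`: `2^t - 1 ≤` largest extent `≤ 2 (2^t - 1) + 1`, and `2^t ≤ B` if all extents are less than `B`.
PROOF. `0 < d` so the set of all `v i - u i` (`i`, `u, v ∈ X`) is finite and not empty; it contains `0`; let `e ≥ 0` be its maximum, `t = Nat.log 2 (e + 1)` (as a natural number): `2^t ≤ e + 1 < 2^(t+1)` (`Nat.pow_log_le_self`, `Nat.lt_pow_succ_log_self`). -/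
theorem scale (hd : 0 < d) {X : Finset (Site d)} (hX : X.Nonempty) {B : ℕ}
    (hB : Ele Finset.univ X ((B : ℤ) - 1)) :
    ∃ t : ℕ, 2 ^ t ≤ B ∧ Ele Finset.univ X (2 * ((2 ^ t - 1 : ℕ) : ℤ) + 1) ∧
      Ege Finset.univ X ((2 ^ t - 1 : ℕ) : ℤ) := by
  obtain ⟨x0, hx0⟩ := hX
  obtain ⟨E, hE⟩ : ∃ E : Finset ℤ, E = ((Finset.univ : Finset (Fin d)) ×ˢ (X ×ˢ X)).image
      (fun p => p.2.2 p.1 - p.2.1 p.1) := ⟨_, rfl⟩
  have hmem : ∀ i : Fin d, ∀ u ∈ X, ∀ v ∈ X, v i - u i ∈ E := by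
    intro i u hu v hv
    rw [hE, mem_image]
    exact ⟨(i, u, v), by simp [hu, hv], rfl⟩
  have h0 : (0 : ℤ) ∈ E := by
    have := hmem ⟨0, hd⟩ x0 hx0 x0 hx0
    simpa using this
  have hne : E.Nonempty := ⟨0, h0⟩
  have he0 : 0 ≤ E.max' hne := E.le_max' 0 h0
  obtain ⟨n, hn⟩ := Int.eq_ofNat_of_zero_le he0
  have hle : ∀ i : Fin d, ∀ u ∈ X, ∀ v ∈ X, v i - u i ≤ (n : ℤ) := by
    intro i u hu v hv
    rw [← hn]
    exact E.le_max' _ (hmem i u hu v hv)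
  obtain ⟨i, u, hu, v, hv, hval⟩ : ∃ i : Fin d, ∃ u ∈ X, ∃ v ∈ X, v i - u i = (n : ℤ) := by
    have := E.max'_mem hne
    rw [hn, hE, mem_image] at this
    obtain ⟨⟨i, u, v⟩, hp, hpv⟩ := this
    simp only [mem_product, mem_univ, true_and] at hp
    exact ⟨i, u, hp.1, v, hp.2, hpv⟩
  have h1 : 2 ^ (Nat.log 2 (n + 1)) ≤ n + 1 := Nat.pow_log_le_self 2 (by omega)
  have h2 : n + 1 < 2 ^ (Nat.log 2 (n + 1) + 1) := Nat.lt_pow_succ_log_self (by norm_num) _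
  have h3 : 1 ≤ 2 ^ (Nat.log 2 (n + 1)) := Nat.one_le_two_pow
  refine ⟨Nat.log 2 (n + 1), ?_, ?_, ?_⟩
  · have := hB i (mem_univ _) u hu v hv
    omega
  · intro i _ u hu v hv
    have := hle i u hu v hv
    rw [pow_succ] at h2
    omega
  · refine ⟨i, mem_univ _, u, hu, v, hv, ?_⟩
    omega

end BTR
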