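import Pool.Agent.BTR.K7a
import Pool.Agent.BTR.K5
import Pool.Agent.BTP.B3
import Pool.Agent.BTP.B4
import Pool.Agent.BTP.B5

set_option autoImplicit false

open scoped Classical
open Finset

namespace BTR
open BTP

variable {d : ℕ}

/-- [BTR-K7] domination by the two-neighbour process: in a structure with `|J| + 2 ≤ r` and thick sides at least two, a connected built set lies in a box generated (in the two-neighbour sense) by seeds of the set.
PROOF. `Bu.inter`: `X` is built from `U ∩ X`. `BTP.spanning (U ∩ X)` gives a family `𝓒` of boxes (each `Gen c.1 c.2`, `c.2 ⊆ U ∩ X`), covering `U ∩ X`, pairwise not `near`.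
Claim: every built `Y ⊆ X` (from `U ∩ X`) is covered by `𝓒`: induction on `Bu`: the new site `v` is a seed, or has `r` directions `j` with `stp v j ∈ Y₀` or helper; by `helper_card` there are at least two directions `j ≠ j'` with `stp v j, stp v j' ∈ Y₀`; these two different sites (`stp_inj`) are covered by boxes of `𝓒`; they are at distance one from `v` (`adj_sum`), so the two boxes are `near` (`BTP.near_of_neighbours`), hence equal, and `v` is in the box by `BTP.two_neighbours`.
Then all of `X` is in one box: adjacent sites of `X` are in `near` boxes (`near_of_neighbours` with `u = v`: distances `0` and `1`), hence in the same box: induction along the paths of `Cn X`. -/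
theorem domin {r : ℕ} {J : Finset (Fin d)} (hJ : J.card + 2 ≤ r) {T : Box d}
    (hT : ∀ i ∈ J, 2 ≤ sd T i) {U X : Finset (Site d)} (hX : X ⊆ sites T) (hB : Bu r (Oj J T) U X)
    (hC : Cn X) : ∃ (S : Box d) (W : Finset (Site d)), W ⊆ U ∩ X ∧ Gen S W ∧ ∀ v ∈ X, cc v ≤ S := by
  obtain ⟨𝓒, hG, hcov, hfar⟩ := spanning (U ∩ X)
  have claim : ∀ Y : Finset (Site d), Bu r (Oj J T) (U ∩ X) Y → Y ⊆ X →
      ∀ v ∈ Y, ∃ c ∈ 𝓒, cc v ≤ c.1 := by
    intro Y hY
    induction hY with
    | nil => intro _ v hv; exact absurd hv (Finset.notMem_empty v)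
    | @add Y₀ v hY₀ hv ih =>
      intro hYX w hw
      have ih' := ih (fun u hu => hYX (Finset.mem_insert_of_mem hu))
      rcases Finset.mem_insert.1 hw with rfl | hw
      · rcases hv with hv | hv
        · exact hcov w hv
        · have hvT : w ∈ sites T := hX (hYX (Finset.mem_insert_self _ _))
          have h1 := helper_card hT hvT
          have h2 : (Finset.univ.filter (fun j : Dir d => stp w j ∈ Y₀ ∨ stp w j ∈ Oj J T)).card ≤
              (Finset.univ.filter (fun j : Dir d => stp w j ∈ Y₀)).card +
              (Finset.univ.filter (fun j : Dir d => stp w j ∈ Oj J T)).card := by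
            rw [Finset.filter_or]
            exact Finset.card_union_le _ _
          have h3 : 1 < (Finset.univ.filter (fun j : Dir d => stp w j ∈ Y₀)).card := by
            unfold nbr at hv
            omega
          obtain ⟨j, hj, j', hj', hne⟩ := Finset.one_lt_card.1 h3
          have hj1 := (Finset.mem_filter.1 hj).2
          have hj2 := (Finset.mem_filter.1 hj').2
          obtain ⟨c, hc, hcj⟩ := ih' _ hj1
          obtain ⟨c', hc', hcj'⟩ := ih' _ hj2
          have hs1 := adj_sum (adj_stp w j)
          have hs2 := adj_sum (adj_stp w j')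
          have hnear := near_of_neighbours hs1.le hs2.le hcj hcj'
          have hcc : c = c' := by
            by_contra hcon
            exact hfar c hc c' hc' hcon hnear
          subst hcc
          refine ⟨c, hc, two_neighbours hs1 hs2 ?_ hcj hcj'⟩
          intro heq
          exact hne (stp_inj w heq)
      · exact ih' w hw
  have hall := claim X hB.inter (Finset.Subset.refl X)
  obtain ⟨x₀, hx₀⟩ := hC.1
  obtain ⟨c₀, hc₀, hcx⟩ := hall x₀ hx₀
  refine ⟨c₀.1, c₀.2, (hG c₀ hc₀).2, (hG c₀ hc₀).1, ?_⟩
  intro v hv
  have hpath := hC.2 x₀ hx₀ v hv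
  clear hv
  induction hpath with
  | refl => exact hcx
  | @tail a b _ hab ih =>
    obtain ⟨hbX, hadj⟩ := hab
    obtain ⟨c', hc', hcb⟩ := hall b hbX
    have hs0 : ∑ i, |a i - a i| ≤ 1 := by simp
    have hs1 := (adj_sum hadj).le
    have hnear := near_of_neighbours hs0 hs1 ih hcb
    have hcc : c₀ = c' := by
      by_contra hcon
      exact hfar c₀ hc₀ c' hc' hcon hnear
    rw [hcc]
    exact hcb

end BTR
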