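import Pool.Agent.BTR.K5
import Pool.Agent.BTP.B3
import Pool.Agent.BTP.B4
import Pool.Agent.BTP.B5

set_option autoImplicit false

open scoped Classical
open Finset

namespace BTR
open BTP

variable {d : ℕ}

/-- [BTR-K7] every generated box of extent `≥ h ≥ 1` contains a generated box of extent in `[h, 2h]`.
PROOF. `BTP.exitD` with `D R := Ys R < h` (`D (cc v)`: `Ys_cc`): boxes `R, S` with `Ys R, Ys S ≤ h - 1`, `near R S`, `¬ Ys (R ⊔ S) < h`; `Gen.merge`; `Ys (R ⊔ S) ≤ Ys R + Ys S + 2 ≤ 2h` (`BTP.Ys_sup_le`, `Gen.ne`). -/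
theorem gen_first {h : ℕ} (hh : 1 ≤ h) {S : Box d} {W : Finset (Site d)} (hg : Gen S W)
    (hS : (h : ℤ) ≤ Ys S) : ∃ (S' : Box d) (W' : Finset (Site d)), W' ⊆ W ∧ Gen S' W' ∧ S' ≤ S ∧
      (h : ℤ) ≤ Ys S' ∧ Ys S' ≤ 2 * h := by
  have hh0 : (1 : ℤ) ≤ h := by exact_mod_cast hh
  obtain ⟨R, S', WR, WS, h1, h2, h3, h4, h5, h6, h7, h8, h9, h10⟩ :=
    BTP.exitD (fun R : Box d => Ys R < h) (fun v => by
      show Ys (cc v) < h
      rw [Ys_cc]
      linarith) hg (not_lt.2 hS)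
  have h1' : Ys R < h := h1
  have h2' : Ys S' < h := h2
  have h3' : ¬ Ys (R ⊔ S') < h := h3
  refine ⟨R ⊔ S', WR ∪ WS, Finset.union_subset h9 h10, Gen.merge h6 h7 h8 h4, h5,
    not_lt.1 h3', ?_⟩
  have h11 := Ys_sup_le h6.ne h7.ne h4
  have h12 : Ys R ≤ h - 1 := Int.le_sub_one_of_lt h1'
  have h13 : Ys S' ≤ h - 1 := Int.le_sub_one_of_lt h2'
  linarith

/-- [BTR-K7] the box generated in `domin` has extent at least the extent of `X` in any direction: if `cc u ≤ S`, `cc v ≤ S` then `v i - u i ≤ Ys S`. PROOF. `v i ≤ S (i, true)`, `- u i ≤ S (i, false)`, and the other axes have nonnegative sums (`Gen.ne`, `BTP.b1_Ys`). -/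
theorem ext_le_Ys {S : Box d} {W : Finset (Site d)} (hg : Gen S W) {u v : Site d} (hu : cc u ≤ S)
    (hv : cc v ≤ S) (i : Fin d) : v i - u i ≤ Ys S := by
  have h1 : v i ≤ S (i, true) := by
    have := hv (i, true)
    rwa [b1_cct] at this
  have h2 : - u i ≤ S (i, false) := by
    have := hu (i, false)
    rwa [b1_ccf] at this
  rw [b1_Ys]
  have h3 : S (i, true) + S (i, false) ≤ ∑ i : Fin d, (S (i, true) + S (i, false)) :=
    Finset.single_le_sum (f := fun i : Fin d => S (i, true) + S (i, false))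
      (fun i _ => hg.ne i) (Finset.mem_univ i)
  linarith

end BTR
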