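import Pool.Agent.BTR.K12a
import Pool.Agent.BTR.K7
import Pool.Agent.BTP.S3

set_option autoImplicit false

open scoped Classical
open Finset

namespace BTR
open BTP

variable {d : ℕ}

/-- [BTR-K12] generated boxes of extent at least `h` inside `V` are unlikely.
PROOF. By `gen_first` (and `Gen.le_of`, `W ⊆ U ⊆ sites V`) the event implies: some box `S' ≤ V`, `Ne S'`, `h ≤ Ys S' ≤ 2h`, has `IG S' U`. These boxes form a finite set `𝓢` (subsets of `Fintype.piFinset (fun j => Finset.Icc (- V (opp j)) (V j))`; from `Ne S'`, `S' ≤ V`: `S' j ≥ - S' (opp j) ≥ - V (opp j)`). `Pr_union`, `BTP.Pr_IG_le` with `m = (h + 2) / 2` (`2m ≤ h + 2 ≤ Ys S' + 3`), `Ys S' + 1 ≤ 2h + 1`, `card_small`. -/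
theorem small_box {V : Box d} (hV : Ne V) {h : ℕ} (hh : 1 ≤ h) {p : ℝ} (hp0 : 0 ≤ p) (hp1 : p ≤ 1) :
    Pr (sites V) p (fun U => ∃ (S : Box d) (W : Finset (Site d)), W ⊆ U ∧ Gen S W ∧ (h : ℤ) ≤ Ys S) ≤
      ((sites V).card : ℝ) * (2 * h + 1) ^ d * ((2 * h + 1) ^ d * p) ^ ((h + 2) / 2) := by
  let 𝓢 : Finset (Box d) :=
    (Fintype.piFinset (fun j : Dir d => Finset.Icc (-V (j.1, !j.2)) (V j))).filter
      (fun S => Ne S ∧ S ≤ V ∧ (h : ℤ) ≤ Ys S ∧ Ys S ≤ 2 * h)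
  have h1 : Pr (sites V) p (fun U => ∃ (S : Box d) (W : Finset (Site d)), W ⊆ U ∧ Gen S W ∧
      (h : ℤ) ≤ Ys S) ≤ Pr (sites V) p (fun U => ∃ S ∈ 𝓢, IG S U) := by
    refine Pr_mono hp0 hp1 ?_
    rintro U hU ⟨S, W, hWU, hG, hS⟩
    obtain ⟨S', W', hW', hG', -, h2, h3⟩ := gen_first hh hG hS
    have hNe : Ne S' := hG'.ne
    have hle : S' ≤ V := hG'.le_of fun v hv => mem_sites.1 (hU (hWU (hW' hv)))
    refine ⟨S', ?_, W', hW'.trans hWU, hG'⟩
    rw [Finset.mem_filter, Fintype.mem_piFinset]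
    refine ⟨fun j => ?_, hNe, hle, h2, h3⟩
    rw [Finset.mem_Icc]
    obtain ⟨i, b⟩ := j
    have h4 := hNe i
    have h5 : S' (i, true) ≤ V (i, true) := hle (i, true)
    have h6 : S' (i, false) ≤ V (i, false) := hle (i, false)
    cases b
    · simp only [Bool.not_false]
      constructor <;> omega
    · simp only [Bool.not_true]
      constructor <;> omega
  have h2 : Pr (sites V) p (fun U => ∃ S ∈ 𝓢, IG S U) ≤ ∑ S ∈ 𝓢, Pr (sites V) p (IG S) :=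
    Pr_union hp0 hp1 𝓢 (fun S => IG S)
  have h3 : ∑ S ∈ 𝓢, Pr (sites V) p (IG S) ≤
      ∑ _S ∈ 𝓢, ((2 * (h : ℝ) + 1) ^ d * p) ^ ((h + 2) / 2) := by
    refine Finset.sum_le_sum fun S hS => ?_
    have hS' := (Finset.mem_filter.1 hS).2
    obtain ⟨a1, a2, a3, a4⟩ := hS'
    have hm : 2 * (((h + 2) / 2 : ℕ) : ℤ) ≤ Ys S + 3 := by omega
    refine (Pr_IG_le hp0 hp1 (sites V) S a1 _ hm).trans ?_
    have a5 : (Ys S : ℝ) ≤ 2 * h := by exact_mod_cast a4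
    have a6 : (0 : ℝ) ≤ (Ys S : ℝ) := by
      have : (0 : ℤ) ≤ Ys S := by omega
      exact_mod_cast this
    apply pow_le_pow_left₀ (by positivity)
    apply mul_le_mul_of_nonneg_right _ hp0
    exact pow_le_pow_left₀ (by positivity) (by linarith) d
  rw [Finset.sum_const, nsmul_eq_mul] at h3
  have h4 : (𝓢.card : ℝ) ≤ ((sites V).card : ℝ) * (2 * h + 1) ^ d := by
    have h5 := card_small hV h 𝓢 (fun S hS => by
      obtain ⟨a1, a2, a3, a4⟩ := (Finset.mem_filter.1 hS).2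
      exact ⟨a1, a2, a4⟩)
    have h6 : (𝓢.card : ℝ) ≤ (((2 * h + 1) ^ d * (sites V).card : ℕ) : ℝ) := by exact_mod_cast h5
    push_cast at h6
    linarith
  have h5 : (0 : ℝ) ≤ ((2 * (h : ℝ) + 1) ^ d * p) ^ ((h + 2) / 2) := by positivity
  exact h1.trans (h2.trans (h3.trans (mul_le_mul_of_nonneg_right h4 h5)))

end BTR
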