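import Pool.Agent.BTR.K4a
import Pool.Agent.BTR.K3

set_option autoImplicit false

open scoped Classical
open Finset

namespace BTR
open BTP

variable {d : ℕ}

/-- [BTR-K4] a connected built set of `(J, T)` reaching from height `≤ a` to height `≥ b` in direction `i` crosses the slab of heights `[a, b]`, using only seeds in the slab.
PROOF. `cross_piece` gives `x, y`; the witness is `C = cmp (X.filter _) x`. `C ⊆ sites (slb T i a b)` by `mem_slb` (`X ⊆ sites T`), `Cn_cmp` (`x` is in the filter), built: `slb_restrict`, then `Bu.cmp`, and `Bu.mono` for the seeds (`C ⊆ sites (slb T i a b)`). It contains `x`, with `x i = a = - slb T i a b (i, false)`, and `y` with `y i = b`. -/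
theorem Cr_slab {r : ℕ} {J : Finset (Fin d)} {T : Box d} {U X : Finset (Site d)}
    (hX : X ⊆ sites T) (hC : Cn X) (hB : Bu r (Oj J T) U X) (i : Fin d) {a b : ℤ} (hab : a < b)
    (hin : i ∈ J → - T (i, false) ≤ a ∧ b ≤ T (i, true)) {u w : Site d} (hu : u ∈ X) (hw : w ∈ X)
    (hua : u i ≤ a) (hwb : b ≤ w i) :
    Cr r (insert i J) (slb T i a b) i (U ∩ sites (slb T i a b)) := by
  obtain ⟨x, y, hxX, hyX, hxa, hyb, hy⟩ := cross_piece hC i hab hu hw hua hwb
  have hxY : x ∈ X.filter (fun v => a ≤ v i ∧ v i ≤ b) :=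
    Finset.mem_filter.2 ⟨hxX, hxa.ge, by rw [hxa]; exact hab.le⟩
  have hsub : cmp (X.filter (fun v => a ≤ v i ∧ v i ≤ b)) x ⊆ sites (slb T i a b) := by
    intro v hv
    have h1 := Finset.mem_filter.1 (cmp_sub _ _ hv)
    rw [mem_slb]
    exact ⟨fun i' _ => mem_sites'.1 (hX h1.1) i', h1.2⟩
  refine ⟨cmp (X.filter (fun v => a ≤ v i ∧ v i ≤ b)) x, hsub, Cn_cmp hxY, ?_,
    ⟨x, self_mem_cmp hxY, ?_⟩, ⟨y, hy, ?_⟩⟩
  · refine Bu.mono (Bu.cmp (slb_restrict hX hB i hin) x) (le_refl _) ?_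
    intro v hv
    rw [Finset.mem_inter] at hv ⊢
    exact ⟨hv.1, hsub hv.2⟩
  · rw [slb_false, neg_neg]
    exact hxa
  · rw [slb_true]
    exact hyb

/-- [BTR-K4] crossing of a thick slab (`i ∈ J`) implies crossing of its lowest `k` rows. `Cr_slab` with `a = - T (i, false)`, `b = a + k - 1 ≤ T (i, true)`; `insert i J = J`. -/
theorem Cr_low {r : ℕ} {J : Finset (Fin d)} {T : Box d} {i : Fin d} (hi : i ∈ J) {k : ℕ} (hk : 2 ≤ k)
    (hT : k ≤ sd T i) {U : Finset (Site d)} (h : Cr r J T i U) :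
    Cr r J (sbl T i k 0) i (U ∩ sites (sbl T i k 0)) := by
  obtain ⟨X, hXT, hCn, hBu, ⟨u, hu, hui⟩, ⟨w, hw, hwi⟩⟩ := h
  have h1 : (sd T i : ℤ) = T (i, true) + T (i, false) + 1 := by
    unfold sd at hT ⊢
    omega
  have h2 : (k : ℤ) ≤ T (i, true) + T (i, false) + 1 := by
    rw [← h1]
    exact_mod_cast hT
  have h3 : (2 : ℤ) ≤ (k : ℤ) := by exact_mod_cast hk
  have hJ : insert i J = J := Finset.insert_eq_of_mem hi
  have key := Cr_slab (r := r) (J := J) (U := U) hXT hCn hBu i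
    (a := - T (i, false) + 0 * (k : ℤ)) (b := - T (i, false) + 0 * (k : ℤ) + k - 1)
    (by omega) (fun _ => ⟨by omega, by omega⟩) hu hw (by omega) (by omega)
  rw [hJ] at key
  exact key

end BTR
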