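import Pool.Agent.BTR.K11
import Pool.Agent.BTR.K12
import Pool.Agent.BTR.K4
import Pool.Agent.BTP.P2

set_option autoImplicit false

open scoped Classical
open Finset

namespace BTR
open BTP

variable {d : ℕ}

theorem h2b_sd_self {T : Box d} {i : Fin d} {k : ℕ} (hk : 1 ≤ k) (a : ℤ) :
    sd (sbl T i k a) i = k := by
  unfold sd sbl
  rw [slb_true, slb_false]
  omega

theorem h2b_sd_ne {T : Box d} {i i' : Fin d} {k : ℕ} (a : ℤ) (h : i' ≠ i) :
    sd (sbl T i k a) i' = sd T i' := by
  unfold sd sbl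
  rw [slb_ne (by simpa using h), slb_ne (by simpa using h)]

theorem h2b_Ne {T : Box d} (hT : Ne T) {i : Fin d} {k : ℕ} (hk : 1 ≤ k) (a : ℤ) :
    Ne (sbl T i k a) := by
  intro i'
  by_cases h : i' = i
  · subst h
    unfold sbl
    rw [slb_true, slb_false]
    omega
  · unfold sbl
    rw [slb_ne (by simpa using h), slb_ne (by simpa using h)]
    exact hT i'

/-- the event of the sub-slabs -/
def h2b_G (d h : ℕ) (U : Finset (Site d)) : Prop :=
  ∃ (S : Box d) (W : Finset (Site d)), W ⊆ U ∧ Gen S W ∧ (h : ℤ) ≤ Ys S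

theorem h2b_inc (h : ℕ) : Inc (h2b_G d h) := by
  rintro U U' hU ⟨S, W, hW, hg, hS⟩
  exact ⟨S, W, hW.trans hU, hg, hS⟩

theorem h2b_disj {V : Box d} {i : Fin d} {h : ℕ} {a a' : ℕ} (ha : a < a') :
    Disjoint (sites (sbl V i (h + 1) (a : ℤ))) (sites (sbl V i (h + 1) (a' : ℤ))) := by
  rw [Finset.disjoint_left]
  intro v hv hv'
  unfold sbl at hv hv'
  rw [mem_slb] at hv hv'
  have h1 := hv.2.2
  have h2 := hv'.2.1
  push_cast at h1 h2
  have h3 : ((a : ℤ) + 1) * (h + 1) ≤ a' * (h + 1) := by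
    apply mul_le_mul_of_nonneg_right _ (by omega)
    exact_mod_cast ha
  linarith

theorem h2b_event {r : ℕ} {J : Finset (Fin d)} (hJ : J.card + 2 ≤ r) {V : Box d} (hV : Ne V)
    {k h : ℕ} (hk : ∀ i ∈ J, sd V i = k) (hh : 1 ≤ h) (hhk : h + 1 ≤ k)
    {i : Fin d} (hi : i ∈ J) {U : Finset (Site d)} (hU : Cr r J V i U) :
    ∀ a ∈ range (k / (h + 1)), h2b_G d h (U ∩ sites (sbl V i (h + 1) (a : ℤ))) := by
  intro a ha
  obtain ⟨X, hX, hC, hB, ⟨u, hu, hu'⟩, ⟨w, hw, hw'⟩⟩ := hU
  have ha' : a < k / (h + 1) := mem_range.mp ha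
  have hak : (a + 1) * (h + 1) ≤ k :=
    le_trans (Nat.mul_le_mul_right _ ha') (Nat.div_mul_le_self k (h + 1))
  have hsd := hk i hi
  have hVi := hV i
  unfold sd at hsd
  have hak' : ((a : ℤ) + 1) * ((h : ℤ) + 1) ≤ k := by exact_mod_cast hak
  have hakz : (a : ℤ) * ((h : ℤ) + 1) + (h + 1) ≤ k := by linarith
  have hkz : (k : ℤ) = V (i, true) + V (i, false) + 1 := by omega
  have ha0 : (0 : ℤ) ≤ (a : ℤ) * ((h : ℤ) + 1) := by positivity
  have hcr := Cr_slab (r := r) (J := J) (T := V) hX hC hB i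
    (a := - V (i, false) + (a : ℤ) * ((h + 1 : ℕ) : ℤ))
    (b := - V (i, false) + (a : ℤ) * ((h + 1 : ℕ) : ℤ) + ((h + 1 : ℕ) : ℤ) - 1)
    (by push_cast; omega) (fun _ => by push_cast; constructor <;> linarith) hu hw
    (by rw [hu']; push_cast; linarith) (by rw [hw']; push_cast; linarith)
  rw [Finset.insert_eq_self.mpr hi] at hcr
  change Cr r J (sbl V i (h + 1) a) i (U ∩ sites (sbl V i (h + 1) a)) at hcr
  obtain ⟨Y, hY, hYC, hYB, ⟨u', hu1, hu2⟩, ⟨w', hw1, hw2⟩⟩ := hcr
  have hT : ∀ i' ∈ J, 2 ≤ sd (sbl V i (h + 1) (a : ℤ)) i' := by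
    intro i' hi'
    by_cases hii : i' = i
    · rw [hii, h2b_sd_self (by omega)]
      omega
    · rw [h2b_sd_ne _ hii, hk i' hi']
      omega
  obtain ⟨S, W, hW, hg, hS⟩ := domin hJ hT hY hYB hYC
  refine ⟨S, W, hW.trans Finset.inter_subset_left, hg, ?_⟩
  have hext := ext_le_Ys hg (hS u' hu1) (hS w' hw1) i
  rw [hu2, hw2] at hext
  unfold sbl at hext
  rw [slb_true, slb_false] at hext
  push_cast at hext
  linarith

/-- [BTR-H2] a thin crossing (no growth through the long directions needed): the slab `(J, V)`, all thick sides `k`, is crossed in the thick direction `i` with tiny probability.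
PROOF. `n = k / (h+1)` sub-slabs `sbl V i (h+1) a`, `a < n`, inside the range of `V` in direction `i` (`n (h+1) ≤ k = sd V i`). For a crossing set `X` (from height `- V (i, false)` to height `V (i, true)`) `Cr_slab` (file K4; `insert i J = J`; heights `a₀ < b₀ = a₀ + h`) gives in each of them a crossing set `Y`, built from `U ∩ sites (sbl ..)`, connected, touching both sides;
`domin` (for `T := sbl V i (h+1) a`: thick sides `k ≥ 2` and `h + 1 ≥ 2`): a box `S ⊇ Y`, `Gen S W`, `W ⊆ (U ∩ sites (sbl ..))`, `h ≤ Ys S` (`ext_le_Ys`). So the event implies `∀ a ∈ range n, G (U ∩ sites (sbl V i (h+1) a))` with `G` as in `FE_small2`. The sub-slabs are disjoint: `Pr_disj`; each factor: `small_box`, `(sites (sbl ..)).card ≤ Q^d` (`BTP.card_sites`, all sides `≤ Q`: `sd (sbl ..) i = h + 1 ≤ k ≤ Q`). -/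
theorem thin_cross {r : ℕ} {J : Finset (Fin d)} (hJ : J.card + 2 ≤ r) {V : Box d} (hV : Ne V)
    {k h Q : ℕ} (hk : ∀ i ∈ J, sd V i = k) (hh : 1 ≤ h) (hhk : h + 1 ≤ k)
    (hQ : ∀ i, sd V i ≤ Q) {p : ℝ} (hp0 : 0 ≤ p) (hp2 : p ≤ 1 / 2) {i : Fin d} (hi : i ∈ J) :
    Pr (sites V) p (Cr r J V i) ≤
      ((Q : ℝ) ^ d * (2 * h + 1) ^ d * ((2 * h + 1) ^ d * p) ^ ((h + 2) / 2)) ^ (k / (h + 1)) := by
  have hp1 : p ≤ 1 := by linarith
  calc Pr (sites V) p (Cr r J V i)
      ≤ Pr (sites V) p (fun U => ∀ a ∈ range (k / (h + 1)),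
          h2b_G d h (U ∩ sites (sbl V i (h + 1) (a : ℤ)))) :=
        Pr_mono hp0 hp1 fun U _ hU => h2b_event hJ hV hk hh hhk hi hU
    _ ≤ ∏ a ∈ range (k / (h + 1)), Pr (sites (sbl V i (h + 1) (a : ℤ))) p (h2b_G d h) := by
        apply Pr_disj hp0 hp2 (sites V) (range (k / (h + 1)))
          (fun a => sites (sbl V i (h + 1) (a : ℤ))) _ (fun _ => h2b_G d h)
          (fun _ _ => h2b_inc h)
        intro a _ a' _ hne
        rcases lt_or_gt_of_ne hne with hlt | hlt
        · exact h2b_disj hlt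
        · exact (h2b_disj hlt).symm
    _ ≤ ∏ _a ∈ range (k / (h + 1)),
          ((Q : ℝ) ^ d * (2 * h + 1) ^ d * ((2 * h + 1) ^ d * p) ^ ((h + 2) / 2)) := by
        apply Finset.prod_le_prod
        · intro a _
          exact Pr_nonneg hp0 hp1
        · intro a _
          have hNe : Ne (sbl V i (h + 1) (a : ℤ)) := h2b_Ne hV (by omega) a
          refine le_trans (small_box hNe hh hp0 hp1) ?_
          have hcard : (((sites (sbl V i (h + 1) (a : ℤ))).card : ℕ) : ℝ) ≤ (Q : ℝ) ^ d := by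
            rw [card_sites hNe]
            push_cast
            calc ∏ i' : Fin d, (sd (sbl V i (h + 1) (a : ℤ)) i' : ℝ)
                ≤ ∏ _i' : Fin d, (Q : ℝ) := by
                  apply Finset.prod_le_prod
                  · intro i' _
                    exact Nat.cast_nonneg _
                  · intro i' _
                    by_cases hii : i' = i
                    · rw [hii, h2b_sd_self (by omega)]
                      have h1 := hQ i
                      rw [hk i hi] at h1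
                      exact_mod_cast le_trans hhk h1
                    · rw [h2b_sd_ne _ hii]
                      exact_mod_cast hQ i'
              _ = (Q : ℝ) ^ d := by simp
          gcongr
    _ = _ := by
        rw [Finset.prod_const, Finset.card_range]

end BTR
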