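import Pool.Agent.BTR.H1
import Pool.Agent.BTR.H2

set_option autoImplicit false

open scoped Classical
open Finset

namespace BTR
open BTP

variable {d : ℕ}

/-- monotonicity of the polynomial factor -/
theorem h3_mul {a b q : ℝ} (ha : 0 ≤ a) (hab : a ≤ b) (hq : 0 ≤ q) (d : ℕ) :
    (a + 1) * (4 * a + 5) ^ d * ((4 * a + 3) ^ d * q) ≤ (b + 1) * (4 * b + 5) ^ (2 * d) * q := by
  have h1 : (4 * a + 5) ^ d ≤ (4 * b + 5) ^ d := pow_le_pow_left₀ (by linarith) (by linarith) d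
  have h2 : (4 * a + 3) ^ d ≤ (4 * b + 5) ^ d := pow_le_pow_left₀ (by linarith) (by linarith) d
  have h3 : (0 : ℝ) ≤ (4 * a + 5) ^ d := pow_nonneg (by linarith) d
  have h4 : (0 : ℝ) ≤ (4 * a + 3) ^ d := pow_nonneg (by linarith) d
  have h5 : (0 : ℝ) ≤ (4 * b + 5) ^ d := pow_nonneg (by linarith) d
  have h6 : (4 * b + 5) ^ (2 * d) = (4 * b + 5) ^ d * (4 * b + 5) ^ d := by
    rw [two_mul, pow_add]
  rw [h6]
  calc (a + 1) * (4 * a + 5) ^ d * ((4 * a + 3) ^ d * q)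
      = (a + 1) * ((4 * a + 5) ^ d * (4 * a + 3) ^ d) * q := by ring
    _ ≤ (b + 1) * ((4 * b + 5) ^ d * (4 * b + 5) ^ d) * q := by
        apply mul_le_mul_of_nonneg_right _ hq
        apply mul_le_mul (by linarith) _ (mul_nonneg h3 h4) (by linarith)
        exact mul_le_mul h1 h2 h4 h5

/-- [BTR-H3] the kernel bound at one level from the crossing bound one level below.
PROOF. Let `J, T, x, y ≤ m` as in `HF`. Write `P` for the probability.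
`y < h`: `FE_small1`; `(y+1)(4y+5)^d (4y+3)^d p ≤ (h+1)(4h+5)^(2d) p` and `c1`.
`h ≤ y < y0`: `FE_small2`, `(y+1)(4y+5)^d (4y+3)^d ≤ (y0+1)(4y0+5)^(2d)` and `c2`.
`y0 ≤ y ≤ ys`: `tail_prob` with `K = Kf d k (4y+3)` (`2 ≤ k ≤ Kf`) and `hC`, `c3`.
`ys < y`: `FE_large` with `y' = ys` and `tail_prob` for `ys`; `(y+1)(4y+5)^d (4y+3)^d ≤ (m+1)(4m+5)^(2d)` and `c4`. -/
theorem step1 {r k j m ys y0 h : ℕ} {p : ℝ} (hd : 1 ≤ d) (hp0 : 0 ≤ p) (hp2 : p ≤ 1 / 2)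
    (hk : 2 ≤ k) (hj : j + 2 ≤ r) (hh : 1 ≤ h) (hk0 : k ≤ y0) (hys : y0 ≤ ys)
    (hC : ∀ y : ℕ, y0 ≤ y → y ≤ ys → HC d r k p (j + 1) (Kf d k (4 * y + 3)) (4 * y + 3))
    (c1 : ((h : ℝ) + 1) * (4 * h + 5) ^ (2 * d) * p ≤ 1 / 32)
    (c2 : ((y0 : ℝ) + 1) * (4 * y0 + 5) ^ (2 * d) *
      ((2 * h + 1) ^ d * ((2 * h + 1) ^ d * p) ^ ((h + 2) / 2)) ≤ 1 / 32)
    (c3 : ∀ y : ℕ, y0 ≤ y → ((y : ℝ) + 1) * (4 * y + 5) ^ d *
      (d * (4 * y + 5) * (1 / 4 : ℝ) ^ (y / Kf d k (4 * y + 3) - 1)) ≤ 1 / 32)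
    (c4 : ((m : ℝ) + 1) * (4 * m + 5) ^ (2 * d) *
      (d * (4 * ys + 5) * (1 / 4 : ℝ) ^ (ys / Kf d k (4 * ys + 3) - 1)) ≤ 1 / 32) :
    HF d r k p j m := by
  intro J hJc T hT hk1 hm x y hy
  have hp1 : p ≤ 1 := by linarith
  have hJ2 : J.card + 2 ≤ r := by omega
  have hT2 : ∀ i ∈ J, 2 ≤ sd T i := fun i hi => by rw [hk1 i hi]; exact_mod_cast hk
  have hy0 : (0 : ℝ) ≤ (y : ℝ) := Nat.cast_nonneg _
  have hh0 : (0 : ℝ) ≤ (h : ℝ) := Nat.cast_nonneg _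
  have hf0 : (0 : ℝ) ≤ ((y : ℝ) + 1) * (4 * y + 5) ^ d := by positivity
  have hKf : ∀ z : ℕ, 2 ≤ Kf d k z := by
    intro z
    rw [Kf]
    calc 2 = 1 * 1 * 2 := by norm_num
      _ ≤ d * (Nat.log 2 z + 1) * k := Nat.mul_le_mul (Nat.mul_le_mul hd (by omega)) hk
  rcases lt_or_ge y h with h1 | h1
  · have h2 := FE_small1 (r := r) hJ2 hT2 hp0 hp1 x y
    have h3 : (y : ℝ) ≤ (h : ℝ) := by exact_mod_cast h1.le
    calc ((y : ℝ) + 1) * (4 * y + 5) ^ d * Pr (sites T) p (FE r J T Finset.univ x y)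
        ≤ ((y : ℝ) + 1) * (4 * y + 5) ^ d * ((4 * y + 3) ^ d * p) :=
          mul_le_mul_of_nonneg_left h2 hf0
      _ ≤ ((h : ℝ) + 1) * (4 * h + 5) ^ (2 * d) * p := h3_mul hy0 h3 hp0 d
      _ ≤ 1 / 32 := c1
  rcases lt_or_ge y y0 with h2 | h2
  · have h3 := FE_small2 (r := r) hJ2 hT2 hp0 hp1 hh x h1
    have h4 : (y : ℝ) ≤ (y0 : ℝ) := by exact_mod_cast h2.le
    have h5 : (0 : ℝ) ≤ (2 * (h : ℝ) + 1) ^ d * ((2 * (h : ℝ) + 1) ^ d * p) ^ ((h + 2) / 2) := by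
      positivity
    calc ((y : ℝ) + 1) * (4 * y + 5) ^ d * Pr (sites T) p (FE r J T Finset.univ x y)
        ≤ ((y : ℝ) + 1) * (4 * y + 5) ^ d *
            ((4 * y + 3) ^ d * (2 * h + 1) ^ d * ((2 * h + 1) ^ d * p) ^ ((h + 2) / 2)) :=
          mul_le_mul_of_nonneg_left h3 hf0
      _ = ((y : ℝ) + 1) * (4 * y + 5) ^ d *
            ((4 * y + 3) ^ d * ((2 * h + 1) ^ d * ((2 * h + 1) ^ d * p) ^ ((h + 2) / 2))) := by
          ring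
      _ ≤ ((y0 : ℝ) + 1) * (4 * y0 + 5) ^ (2 * d) *
            ((2 * h + 1) ^ d * ((2 * h + 1) ^ d * p) ^ ((h + 2) / 2)) := h3_mul hy0 h4 h5 d
      _ ≤ 1 / 32 := c2
  have tl : ∀ (x' : Site d) (z : ℕ), y0 ≤ z → z ≤ ys →
      Pr (sites T) p (FE r J T Finset.univ x' z) ≤
        d * (4 * z + 5) * (1 / 4 : ℝ) ^ (z / Kf d k (4 * z + 3) - 1) := by
    intro x' z hz hz'
    have hCz := hC z hz hz'
    rw [← hJc] at hCz
    exact tail_prob hp0 hp2 hk1 (hk0.trans hz) (hKf _) hCz x'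
  rcases le_or_gt y ys with h3 | h3
  · calc ((y : ℝ) + 1) * (4 * y + 5) ^ d * Pr (sites T) p (FE r J T Finset.univ x y)
        ≤ ((y : ℝ) + 1) * (4 * y + 5) ^ d *
            (d * (4 * y + 5) * (1 / 4 : ℝ) ^ (y / Kf d k (4 * y + 3) - 1)) :=
          mul_le_mul_of_nonneg_left (tl x y h2 h3) hf0
      _ ≤ 1 / 32 := c3 y h2
  · have h4 := FE_large hp0 hp1 (J := J) (T := T) (r := r) h3.le
      (fun x' => tl x' ys hys le_rfl) x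
    have h5 : (y : ℝ) ≤ (m : ℝ) := by exact_mod_cast hy
    have h6 : (0 : ℝ) ≤ d * (4 * (ys : ℝ) + 5) * (1 / 4 : ℝ) ^ (ys / Kf d k (4 * ys + 3) - 1) := by
      positivity
    calc ((y : ℝ) + 1) * (4 * y + 5) ^ d * Pr (sites T) p (FE r J T Finset.univ x y)
        ≤ ((y : ℝ) + 1) * (4 * y + 5) ^ d * ((4 * y + 3) ^ d *
            (d * (4 * ys + 5) * (1 / 4 : ℝ) ^ (ys / Kf d k (4 * ys + 3) - 1))) :=
          mul_le_mul_of_nonneg_left h4 hf0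
      _ ≤ ((m : ℝ) + 1) * (4 * m + 5) ^ (2 * d) *
            (d * (4 * ys + 5) * (1 / 4 : ℝ) ^ (ys / Kf d k (4 * ys + 3) - 1)) :=
          h3_mul hy0 h5 h6 d
      _ ≤ 1 / 32 := c4

/-- `HF` is monotone in `m` -/
theorem HF_mono {r k j m m' : ℕ} {p : ℝ} (h : m' ≤ m) (hF : HF d r k p j m) : HF d r k p j m' := by
  intro J hJ T hT hk hm x y hy
  exact hF J hJ T hT hk (fun i hi => (hm i hi).trans (by exact_mod_cast h)) x y (hy.trans h)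

end BTR
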