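import Pool.Agent.BTR.K11a
import Pool.Agent.BTP.P5
import Pool.Agent.BTP.P6

set_option autoImplicit false

open scoped Classical
open Finset

namespace BTR
open BTP

/-- [BTR-K11] product bound for increasing events on disjoint sets. PROOF. `F t U := E t (U ∩ B t)` is increasing; the event implies `BTP.disF s F` with `W t = U ∩ B t`; `BTP.bkF`, `Pr_sub` (`Finset.prod_le_prod`). -/
theorem Pr_disj {α ι : Type*} [DecidableEq α] {p : ℝ} (hp0 : 0 ≤ p) (hp2 : p ≤ 1 / 2)
    (V : Finset α) (s : Finset ι) (B : ι → Finset α)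
    (hB : ∀ t ∈ s, ∀ t' ∈ s, t ≠ t' → Disjoint (B t) (B t')) (E : ι → Finset α → Prop)
    (hE : ∀ t ∈ s, Inc (E t)) :
    Pr V p (fun U => ∀ t ∈ s, E t (U ∩ B t)) ≤ ∏ t ∈ s, Pr (B t) p (E t) := by
  have hp1 : p ≤ 1 := by linarith
  have h1 : Pr V p (fun U => ∀ t ∈ s, E t (U ∩ B t)) ≤
      Pr V p (disF s (fun t U => E t (U ∩ B t))) := by
    refine Pr_mono hp0 hp1 (fun U _ hU => ⟨fun t => U ∩ B t, fun t ht => ⟨Finset.inter_subset_left, ?_⟩,
      fun t ht t' ht' hne => ?_⟩)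
    · show E t (U ∩ B t ∩ B t)
      rw [Finset.inter_assoc, Finset.inter_self]
      exact hU t ht
    · exact (hB t ht t' ht' hne).mono Finset.inter_subset_right Finset.inter_subset_right
  have h2 : Pr V p (disF s (fun t U => E t (U ∩ B t))) ≤
      ∏ t ∈ s, Pr V p (fun U => E t (U ∩ B t)) :=
    bkF hp0 hp2 V s (fun t U => E t (U ∩ B t)) (fun t ht U U' hUU hE' =>
      hE t ht _ _ (Finset.inter_subset_inter_right hUU) hE')
  exact (h1.trans h2).trans (Finset.prod_le_prod (fun t _ => Pr_nonneg hp0 hp1)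
    (fun t ht => Pr_sub hp0 hp1 V (B t) (hE t ht)))

end BTR
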