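import Pool.Agent.BTP.P5
import Pool.Agent.BTP.P6

set_option autoImplicit false

open scoped Classical
open Finset

namespace BTR
open BTP

/-- [BTR-K11] transport along a bijection (`Finset.sum_bij` or `Finset.sum_nbij'` on the powersets; `Finset.powerset_map`, `Finset.card_map`; or induction on `V` with `Pr_insert`, `Finset.map_insert`) -/
theorem Pr_map {α : Type*} {p : ℝ} (φ : α ≃ α) (V : Finset α) (E : Finset α → Prop) :
    Pr (V.map φ.toEmbedding) p E = Pr V p (fun U => E (U.map φ.toEmbedding)) := by
  induction V using Finset.induction_on generalizing E with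
  | empty => rw [Finset.map_empty, Pr_empty, Pr_empty, Finset.map_empty]
  | insert v V hv ih =>
    have hv' : φ.toEmbedding v ∉ V.map φ.toEmbedding := by
      rw [Finset.mem_map']
      exact hv
    rw [Finset.map_insert, Pr_insert hv', Pr_insert hv, ih, ih]
    simp only [Finset.map_insert]

end BTR
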