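import Pool.Agent.BTR.K8a
import Pool.Agent.BTR.K4
import Pool.Agent.BTR.K5

set_option autoImplicit false

open scoped Classical
open Finset

namespace BTR
open BTP

variable {d : ℕ}

/-- [BTR-K8] a path in `X` climbing `n` sub-slabs gives a chain of `n + 1` disjointly built components.
PROOF. Induction on `n` for all `X`, `u`. Let `a = idx u`, `Y = X.filter (idx = a)`, `C = cmp Y u`; `comp_FE` gives the scale `t`, the witness of the first event is `U ∩ C`. For the second event of `dis` take the seeds `U ∩ (X \ C)` (disjoint from `U ∩ C`, both `⊆ U ∩ X`).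
`n = 0`: it is enough that some `x'` is in the ball (`x' = u`; `chE .. 0 = True`).
`n + 1`: `w ∉ C` as `idx w ≥ a + n + 1 ≠ a` (points of `C ⊆ Y` have index `a`). `last_exit`: `c ∈ C`, `u' ∈ X \ C`, `adj c u'`, and a path in `X \ C` from `u'` to `w`. `|u' i - u i| ≤ (2·2^t - 1) + 1` (`Ele` of `C`, `adj_abs`), so `u' ∈ sites (bx u (2·2^t))`. `idx u' ≤ idx c + 1 = a + 1` (`idx_adj`), so `idx u' + n ≤ idx w`.
The hypothesis `hB` for `X \ C`: for an index `b ≠ a`, `(X \ C).filter (idx = b) = X.filter (idx = b)`; for `b = a`, `(X \ C).filter (idx = a) = Y \ C`, built by `Bu.sdiff_cmp` (and `Bu.mono` for the seeds). The induction hypothesis gives `chE (n+1) u' (U ∩ (X \ C))`. -/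
theorem chain_of_path (hd : 0 < d) {r : ℕ} {J : Finset (Fin d)} {T : Box d} {i : Fin d} {k : ℕ}
    (hk : 1 ≤ k) {U : Finset (Site d)} (n : ℕ) : ∀ (X : Finset (Site d)), X ⊆ sites T →
    (∀ b : ℤ, Bu r (Oj J (sbl T i k b)) U (X.filter (fun v => idx T i k v = b))) →
    ∀ u w : Site d, u ∈ X → Relation.ReflTransGen (fun a b => b ∈ X ∧ adj a b) u w →
    idx T i k u + n ≤ idx T i k w → chE r J T i k (n + 1) u (U ∩ X) := by
  induction n with
  | zero =>
    intro X hX hB u w hu _ _
    obtain ⟨t, hFE, -⟩ := comp_FE hd hk hX hu (hB _)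
    have hCX : cmp (X.filter (fun v => idx T i k v = idx T i k u)) u ⊆ X :=
      (cmp_sub _ _).trans (Finset.filter_subset _ _)
    refine ⟨t, U ∩ cmp (X.filter (fun v => idx T i k v = idx T i k u)) u, ∅, Finset.disjoint_empty_right _,
      Finset.inter_subset_inter_left hCX, Finset.empty_subset _, hFE, u, ?_, trivial⟩
    rw [mem_bx]
    intro i'
    rw [sub_self, abs_zero]
    exact Int.natCast_nonneg _
  | succ n ih =>
    intro X hX hB u w hu hp hw
    obtain ⟨t, hFE, hE⟩ := comp_FE hd hk hX hu (hB _)
    set Y := X.filter (fun v => idx T i k v = idx T i k u) with hY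
    set C := cmp Y u with hC
    have huY : u ∈ Y := Finset.mem_filter.2 ⟨hu, rfl⟩
    have huC : u ∈ C := self_mem_cmp huY
    have hCY : C ⊆ Y := cmp_sub _ _
    have hCX : C ⊆ X := hCY.trans (Finset.filter_subset _ _)
    have hCi : ∀ c ∈ C, idx T i k c = idx T i k u := fun c hc => (Finset.mem_filter.1 (hCY hc)).2
    have hwC : w ∉ C := by
      intro h
      have h1 := hCi w h
      push_cast at hw
      omega
    obtain ⟨c, hc, u', hu', hadj, hp'⟩ := last_exit huC hp hwC
    have hB' : ∀ b : ℤ, Bu r (Oj J (sbl T i k b)) U ((X \ C).filter (fun v => idx T i k v = b)) := by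
      intro b
      by_cases hb : b = idx T i k u
      · subst hb
        have e : (X \ C).filter (fun v => idx T i k v = idx T i k u) = Y \ C := by
          ext v
          simp only [hY, Finset.mem_filter, Finset.mem_sdiff]
          tauto
        rw [e]
        exact ((hB (idx T i k u)).sdiff_cmp u).mono (le_refl _) Finset.inter_subset_left
      · have e : (X \ C).filter (fun v => idx T i k v = b) = X.filter (fun v => idx T i k v = b) := by
          ext v
          simp only [Finset.mem_filter, Finset.mem_sdiff]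
          constructor
          · rintro ⟨⟨h1, -⟩, h2⟩
            exact ⟨h1, h2⟩
          · rintro ⟨h1, h2⟩
            refine ⟨⟨h1, fun h3 => hb ?_⟩, h2⟩
            rw [← h2, hCi v h3]
        rw [e]
        exact hB b
    have h1 := idx_adj (T := T) (i := i) hk hadj
    rw [hCi c hc] at h1
    have h2 := ih (X \ C) (Finset.sdiff_subset.trans hX) hB' u' w hu' hp' (by push_cast at hw ⊢; omega)
    refine ⟨t, U ∩ C, U ∩ (X \ C), ?_, Finset.inter_subset_inter_left hCX,
      Finset.inter_subset_inter_left Finset.sdiff_subset, hFE, u', ?_, h2⟩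
    · exact (Finset.disjoint_sdiff).mono Finset.inter_subset_right Finset.inter_subset_right
    · rw [mem_bx]
      intro i'
      have h3 := hE i' (Finset.mem_univ _) u huC c hc
      have h4 := hE i' (Finset.mem_univ _) c hc u huC
      have h5 := abs_le.1 (adj_abs hadj i')
      push_cast
      rw [abs_le]
      constructor <;> linarith

end BTR
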