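import Pool.Agent.BTR.K8b
import Pool.Agent.BTR.K4
import Pool.Agent.BTR.K5

set_option autoImplicit false

open scoped Classical
open Finset

namespace BTR
open BTP

variable {d : ℕ}

/-- [BTR-K8] a crossing of a slab of thickness `N k` (`i ∈ J`) gives a chain of `N` components starting in the lowest sub-slab.
PROOF. `X` the crossing set, `u i = - T (i, false)` (index `0`), `w i = T (i, true)` (index `N - 1`, from `sd T i = N k` and `idx_eq_iff`). `hB`: for every `b`, `X.filter (idx = b) = X.filter (a₀ ≤ v i ∧ v i ≤ b₀)` with the end points of `sbl T i k b` (`idx_eq_iff`); for `0 ≤ b < N` the slab is inside the range of `T` and `slb_restrict` applies (`insert i J = J`); for other `b` the filter is empty (`X ⊆ sites T`), `Bu.nil`.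
`chain_of_path` with `n = N - 1`, then `Inc_chE` (`U ∩ X ⊆ U`). `u ∈ sites (sbl T i k 0)` by `mem_slb`. -/
theorem Cr_chain (hd : 0 < d) {r : ℕ} {J : Finset (Fin d)} {T : Box d} {i : Fin d} (hi : i ∈ J)
    {k N : ℕ} (hk : 1 ≤ k) (hN : 1 ≤ N) (hT : sd T i = N * k) {U : Finset (Site d)}
    (h : Cr r J T i U) : ∃ u ∈ sites (sbl T i k 0), chE r J T i k N u U := by
  obtain ⟨X, hX, hC, hB, ⟨u, hu, hui⟩, w, hw, hwi⟩ := h
  have hkZ : (1 : ℤ) ≤ (k : ℤ) := by exact_mod_cast hk
  have hNZ : (1 : ℤ) ≤ (N : ℤ) := by exact_mod_cast hN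
  have hNk : (1 : ℤ) ≤ (N : ℤ) * k := by nlinarith
  have hsd : T (i, true) + T (i, false) + 1 = (N : ℤ) * k := by
    unfold sd at hT
    have h1 : ((T (i, true) + T (i, false) + 1).toNat : ℤ) = (N : ℤ) * k := by
      rw [hT]
      push_cast
      ring
    rcases le_or_gt 0 (T (i, true) + T (i, false) + 1) with h2 | h2
    · rw [Int.toNat_of_nonneg h2] at h1
      exact h1
    · rw [Int.toNat_of_nonpos h2.le] at h1
      push_cast at h1
      omega
  have hidu : idx T i k u = 0 := by
    rw [idx_eq_iff hk]
    rw [hui]
    constructor <;> linarith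
  have hidw : idx T i k w = (N : ℤ) - 1 := by
    rw [idx_eq_iff hk]
    rw [hwi]
    constructor <;> nlinarith
  have hB' : ∀ b : ℤ, Bu r (Oj J (sbl T i k b)) U (X.filter (fun v => idx T i k v = b)) := by
    intro b
    have hfe : X.filter (fun v => idx T i k v = b) = X.filter (fun v =>
        - T (i, false) + b * k ≤ v i ∧ v i ≤ - T (i, false) + b * k + k - 1) := by
      apply Finset.filter_congr
      intro v _
      exact idx_eq_iff hk
    by_cases hb : 0 ≤ b ∧ b < N
    · rw [hfe]
      have h1 := slb_restrict hX hB i (a := - T (i, false) + b * k)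
        (b := - T (i, false) + b * k + k - 1) (fun _ => by
          constructor
          · nlinarith [hb.1]
          · have h2 : b + 1 ≤ N := hb.2
            nlinarith)
      rw [Finset.insert_eq_of_mem hi] at h1
      exact h1
    · have hemp : X.filter (fun v => idx T i k v = b) = ∅ := by
        rw [hfe]
        apply Finset.filter_eq_empty_iff.2
        intro v hv hvb
        have h1 := (mem_sites'.1 (hX hv)) i
        apply hb
        constructor
        · by_contra h2
          push Not at h2
          have h3 : b + 1 ≤ 0 := h2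
          nlinarith [h1.1, hvb.2]
        · by_contra h2
          push Not at h2
          nlinarith [h1.2, hvb.1]
      rw [hemp]
      exact Bu.nil
  refine ⟨u, ?_, ?_⟩
  · unfold sbl
    rw [mem_slb]
    refine ⟨fun i' _ => mem_sites'.1 (hX hu) i', ?_, ?_⟩
    · rw [hui]; linarith
    · rw [hui]; linarith
  · have h1 := chain_of_path hd hk (N - 1) X hX hB' u w hu (hC.2 u hu w hw) (by
      rw [hidu, hidw]
      push_cast [Nat.cast_sub hN]
      linarith)
    rw [Nat.sub_add_cancel hN] at h1
    exact Inc_chE r J T i k N u _ _ Finset.inter_subset_left h1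

end BTR
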