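import Pool.Agent.BTR.H4a
import Pool.Agent.BTR.K8
import Pool.Agent.BTR.K11
import Pool.Agent.BTP.P4
import Pool.Agent.BTP.B6

set_option autoImplicit false

open scoped Classical
open Finset

namespace BTR
open BTP

variable {d : ℕ}

/-- [BTR-H4] the probability of a chain. PROOF. Induction on `n` for all `x`. `n = 0`: `Pr_le_one`.
`n + 1`: write `T' = sbl T i k (idx T i k x)`, `y = 2^t - 1`, so `y + 1 = 2^t` and `4y + 5 = 4·2^t + 1`. The event is contained in the union over `t ∈ range (Nat.log 2 m + 1)` (`FE_scale`) of `dis (FE .. x y) (G t)`, `G t U' = ∃ x' ∈ sites (bx x (2·2^t)), chE .. n x' U'` (increasing: `Inc_chE`).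
`Pr_union`, `BTP.bk` (file P4): `≤ ∑_t Pr V (FE) Pr V (G t)`. `Pr V p (FE ..) ≤ Pr (sites T') p (FE ..)` (`FE_inter`, `Pr_mono`, `Pr_sub`, `Inc_FE`), which is `≤ (1/32) / (2^t (4·2^t+1)^d)` by `hF` (`y ≤ m` as `2^t ≤ m`; `Nat.pow_log_le_self`). `Pr V (G t) ≤ (4·2^t+1)^d (1/16)^n` (`Pr_union`, `card_bx`, induction hypothesis).
The sum is at most `(1/16)^n (1/32) ∑_t 2^(-t) ≤ (1/16)^n (1/16)`. -/
theorem Pr_chE {r : ℕ} {J : Finset (Fin d)} {T : Box d} {i : Fin d} {k m : ℕ} (hm : 1 ≤ m) {p : ℝ}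
    (hp0 : 0 ≤ p) (hp2 : p ≤ 1 / 2) (hs : ∀ (a : ℤ) (i' : Fin d), sd (sbl T i k a) i' ≤ m)
    (hF : ∀ (a : ℤ) (x : Site d) (y : ℕ), y ≤ m → ((y : ℝ) + 1) * (4 * y + 5) ^ d *
      Pr (sites (sbl T i k a)) p (FE r J (sbl T i k a) Finset.univ x y) ≤ 1 / 32)
    (V : Finset (Site d)) (n : ℕ) (x : Site d) :
    Pr V p (chE r J T i k n x) ≤ (1 / 16 : ℝ) ^ n := by
  have hp1 : p ≤ 1 := by linarith
  induction n generalizing x with
  | zero =>
    rw [pow_zero]
    exact Pr_le_one hp0 hp1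
  | succ n ih =>
    let F : ℕ → Finset (Site d) → Prop := fun t =>
      FE r J (sbl T i k (idx T i k x)) Finset.univ x (2 ^ t - 1)
    let G : ℕ → Finset (Site d) → Prop := fun t U' =>
      ∃ x' ∈ sites (bx x (2 * 2 ^ t)), chE r J T i k n x' U'
    have hFI : ∀ t, Inc (F t) := fun t => Inc_FE _ _ _ _ _ _
    have hGI : ∀ t, Inc (G t) := by
      intro t U U' hU h
      obtain ⟨x', hx', h2⟩ := h
      exact ⟨x', hx', Inc_chE r J T i k n x' U U' hU h2⟩
    have h1 : Pr V p (chE r J T i k (n + 1) x) ≤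
        Pr V p (fun U => ∃ t ∈ Finset.range (Nat.log 2 m + 1), dis (F t) (G t) U) := by
      refine Pr_mono hp0 hp1 ?_
      intro U _ hU
      obtain ⟨t, ht⟩ := hU
      obtain ⟨W, W', w1, w2, w3, w4, w5⟩ := ht
      exact ⟨t, FE_scale (hs _) w4, W, W', w1, w2, w3, w4, w5⟩
    have h2 : ∀ t ∈ Finset.range (Nat.log 2 m + 1),
        Pr V p (dis (F t) (G t)) ≤ (1 / 16 : ℝ) ^ n * (1 / 32) * (1 / 2) ^ t := by
      intro t ht
      have ht2 : 2 ^ t ≤ m := by
        rw [Finset.mem_range] at ht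
        exact (Nat.pow_le_pow_right (by norm_num) (by omega)).trans
          (Nat.pow_log_le_self 2 (by omega))
      have hcast : (((2 ^ t - 1 : ℕ)) : ℝ) = 2 ^ t - 1 := by
        rw [Nat.cast_sub Nat.one_le_two_pow]
        push_cast
        ring
      have a1 : Pr V p (F t) ≤ Pr (sites (sbl T i k (idx T i k x))) p (F t) := by
        refine le_trans ?_ (Pr_sub hp0 hp1 V (sites (sbl T i k (idx T i k x))) (hFI t))
        exact Pr_mono hp0 hp1 fun U _ hU => FE_inter hU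
      have a2 := hF (idx T i k x) x (2 ^ t - 1) (by omega)
      rw [hcast] at a2
      have e1 : (2 : ℝ) ^ t - 1 + 1 = 2 ^ t := by ring
      have e2 : 4 * ((2 : ℝ) ^ t - 1) + 5 = 4 * 2 ^ t + 1 := by ring
      rw [e1, e2] at a2
      have a3 : Pr V p (G t) ≤ (4 * (2 : ℝ) ^ t + 1) ^ d * (1 / 16) ^ n := by
        refine (Pr_union hp0 hp1 (sites (bx x (2 * 2 ^ t))) (fun x' U' =>
          chE r J T i k n x' U')).trans ?_
        refine (Finset.sum_le_sum fun x' _ => ih x').trans ?_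
        rw [Finset.sum_const, nsmul_eq_mul, card_bx]
        apply le_of_eq
        push_cast
        ring
      have a4 : Pr V p (dis (F t) (G t)) ≤ Pr V p (F t) * Pr V p (G t) :=
        BTP.bk hp0 hp2 V _ _ (hFI t) (hGI t)
      refine a4.trans ?_
      have b0 : (0 : ℝ) < 2 ^ t := by positivity
      have b1 : (0 : ℝ) ≤ (1 / 16) ^ n := by positivity
      have b2 : Pr V p (F t) * Pr V p (G t) ≤
          Pr (sites (sbl T i k (idx T i k x))) p (F t) * ((4 * (2 : ℝ) ^ t + 1) ^ d * (1 / 16) ^ n) :=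
        mul_le_mul a1 a3 (Pr_nonneg hp0 hp1) (Pr_nonneg hp0 hp1)
      refine b2.trans ?_
      have b3 : (1 / 2 : ℝ) ^ t = 1 / 2 ^ t := by rw [one_div_pow]
      rw [b3, mul_one_div, le_div_iff₀ b0]
      have b4 := mul_le_mul_of_nonneg_right a2 b1
      calc Pr (sites (sbl T i k (idx T i k x))) p (F t) *
            ((4 * (2 : ℝ) ^ t + 1) ^ d * (1 / 16) ^ n) * 2 ^ t
          = 2 ^ t * (4 * 2 ^ t + 1) ^ d * Pr (sites (sbl T i k (idx T i k x))) p (F t) *
            (1 / 16) ^ n := by ring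
        _ ≤ 1 / 32 * (1 / 16) ^ n := b4
        _ = (1 / 16) ^ n * (1 / 32) := by ring
    refine h1.trans ((Pr_union hp0 hp1 _ (fun t U => dis (F t) (G t) U)).trans ?_)
    refine (Finset.sum_le_sum h2).trans ?_
    rw [← Finset.mul_sum]
    have h3 : ∑ t ∈ Finset.range (Nat.log 2 m + 1), (1 / 2 : ℝ) ^ t ≤ 2 := by
      have := (summable_geometric_two).sum_le_tsum (Finset.range (Nat.log 2 m + 1))
        (fun t _ => by positivity)
      rw [tsum_geometric_two] at this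
      exact this
    have h4 : (0 : ℝ) ≤ (1 / 16) ^ n * (1 / 32) := by positivity
    calc (1 / 16 : ℝ) ^ n * (1 / 32) * ∑ t ∈ Finset.range (Nat.log 2 m + 1), (1 / 2 : ℝ) ^ t
        ≤ (1 / 16 : ℝ) ^ n * (1 / 32) * 2 := mul_le_mul_of_nonneg_left h3 h4
      _ = (1 / 16) ^ (n + 1) := by ring

end BTR
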