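import Pool.Agent.BTR.H4b
import Pool.Agent.BTR.K8
import Pool.Agent.BTR.K11
import Pool.Agent.BTP.P4
import Pool.Agent.BTP.B6

set_option autoImplicit false

open scoped Classical
open Finset

namespace BTR
open BTP

variable {d : ℕ}

/-- [BTR-H4] the crossing bound from the kernel bound at the same level.
PROOF. Let `J, i, T` as in `HC`, `N = d (Nat.log 2 m + 1)`, `Kf d k m = N k`. `Cr_chain`: the event is contained in the union over `u ∈ sites (sbl T i k 0)` of `chE .. N u`. All sides of `sbl T i k a` are `≤ m` (`sd_sbl_self`, `sd_sbl_ne`: `k` or long), so it has at most `m^d` sites (`BTP.card_sites`), and `HF` applies to it (`Ne_sbl`). `Pr_union`, `Pr_chE`: `≤ m^d (1/16)^N`. Since `m < 2^(Nat.log 2 m + 1)` (`Nat.lt_pow_succ_log_self`), `16^N = (2^(Nat.log 2 m + 1))^(4d) ≥ m^(4d)`, so the bound is `≤ m^(-3d) ≤ 1/8` (`m ≥ 2`, `d ≥ 1`). -/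
theorem step2 {r k j m : ℕ} {p : ℝ} (hd : 1 ≤ d) (hp0 : 0 ≤ p) (hp2 : p ≤ 1 / 2) (hk : 1 ≤ k)
    (hkm : k ≤ m) (hm : 2 ≤ m) (hF : HF d r k p j m) : HC d r k p j (Kf d k m) m := by
  intro J hJ i hi T hT hTk hTi hTl
  have hN1 : 1 ≤ d * (Nat.log 2 m + 1) := Nat.mul_pos hd (Nat.succ_pos _)
  have hp1 : p ≤ 1 := by linarith
  have hTi' : sd T i = d * (Nat.log 2 m + 1) * k := by rw [hTi]; rfl
  have hs : ∀ (a : ℤ) (i' : Fin d), sd (sbl T i k a) i' ≤ m := by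
    intro a i'
    by_cases h : i' = i
    · subst h
      rw [sd_sbl_self hk a]
      exact hkm
    · rw [sd_sbl_ne a h]
      by_cases hJ' : i' ∈ J
      · rw [hTk i' hJ' h]
        exact hkm
      · exact hTl i' hJ'
  have hFa : ∀ (a : ℤ) (x : Site d) (y : ℕ), y ≤ m → ((y : ℝ) + 1) * (4 * y + 5) ^ d *
      Pr (sites (sbl T i k a)) p (FE r J (sbl T i k a) Finset.univ x y) ≤ 1 / 32 := by
    intro a x y hy
    refine hF J hJ (sbl T i k a) (Ne_sbl hT hk a) ?_ (fun i' _ => hs a i') x y hy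
    intro i' hi'
    by_cases h : i' = i
    · subst h
      exact sd_sbl_self hk a
    · rw [sd_sbl_ne a h]
      exact hTk i' hi' h
  have h1 : Pr (sites T) p (Cr r J T i) ≤ ∑ u ∈ sites (sbl T i k 0),
      Pr (sites T) p (chE r J T i k (d * (Nat.log 2 m + 1)) u) := by
    refine le_trans ?_ (Pr_union hp0 hp1 _ _)
    refine Pr_mono hp0 hp1 fun U _ hU => ?_
    exact Cr_chain hd hi hk hN1 hTi' hU
  have h2 : ∑ u ∈ sites (sbl T i k 0), Pr (sites T) p (chE r J T i k (d * (Nat.log 2 m + 1)) u) ≤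
      (((sites (sbl T i k 0)).card : ℕ) : ℝ) * (1 / 16 : ℝ) ^ (d * (Nat.log 2 m + 1)) := by
    rw [← nsmul_eq_mul]
    exact Finset.sum_le_card_nsmul _ _ _ fun u _ =>
      Pr_chE (by omega) hp0 hp2 hs hFa _ (d * (Nat.log 2 m + 1)) u
  have h3 : (((sites (sbl T i k 0)).card : ℕ) : ℝ) ≤ (m : ℝ) ^ d := by
    rw [card_sites (Ne_sbl hT hk 0)]
    push_cast
    calc ∏ i' : Fin d, (sd (sbl T i k 0) i' : ℝ) ≤ ∏ _i' : Fin d, (m : ℝ) := by
          apply Finset.prod_le_prod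
          · intro i' _
            exact Nat.cast_nonneg _
          · intro i' _
            exact_mod_cast hs 0 i'
      _ = (m : ℝ) ^ d := by simp
  have h4 : (m : ℝ) ^ (4 * d) ≤ 16 ^ (d * (Nat.log 2 m + 1)) := by
    have h5 : m ≤ 2 ^ (Nat.log 2 m + 1) := (Nat.lt_pow_succ_log_self (by norm_num) m).le
    have h6 : (m : ℝ) ≤ 2 ^ (Nat.log 2 m + 1) := by exact_mod_cast h5
    calc (m : ℝ) ^ (4 * d) ≤ (2 ^ (Nat.log 2 m + 1)) ^ (4 * d) :=
          pow_le_pow_left₀ (Nat.cast_nonneg _) h6 _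
      _ = 16 ^ (d * (Nat.log 2 m + 1)) := by
        rw [← pow_mul, show (16 : ℝ) = 2 ^ 4 by norm_num, ← pow_mul]
        congr 1
        ring
  have hm2 : (2 : ℝ) ≤ m := by exact_mod_cast hm
  have h7 : (8 : ℝ) ≤ (m : ℝ) ^ (3 * d) := by
    calc (8 : ℝ) = 2 ^ 3 := by norm_num
      _ ≤ (m : ℝ) ^ 3 := pow_le_pow_left₀ (by norm_num) hm2 3
      _ ≤ (m : ℝ) ^ (3 * d) := pow_le_pow_right₀ (by linarith) (by omega)
  have h8 : (m : ℝ) ^ d * 8 ≤ 16 ^ (d * (Nat.log 2 m + 1)) := by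
    calc (m : ℝ) ^ d * 8 ≤ (m : ℝ) ^ d * (m : ℝ) ^ (3 * d) :=
          mul_le_mul_of_nonneg_left h7 (by positivity)
      _ = (m : ℝ) ^ (4 * d) := by
        rw [← pow_add]
        congr 1
        ring
      _ ≤ _ := h4
  have h9 : (0 : ℝ) < 16 ^ (d * (Nat.log 2 m + 1)) := by positivity
  calc Pr (sites T) p (Cr r J T i)
      ≤ (((sites (sbl T i k 0)).card : ℕ) : ℝ) * (1 / 16 : ℝ) ^ (d * (Nat.log 2 m + 1)) :=
        h1.trans h2
    _ ≤ (m : ℝ) ^ d * (1 / 16 : ℝ) ^ (d * (Nat.log 2 m + 1)) :=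
        mul_le_mul_of_nonneg_right h3 (by positivity)
    _ = (m : ℝ) ^ d / 16 ^ (d * (Nat.log 2 m + 1)) := by
        rw [one_div, inv_pow]
        rfl
    _ ≤ 1 / 4 := by
        rw [div_le_div_iff₀ h9 (by norm_num)]
        have h10 : (0 : ℝ) ≤ (m : ℝ) ^ d := by positivity
        linarith

end BTR
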