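import Pool.Agent.BTR.K9
import Pool.Agent.BTR.H3
import Pool.Agent.BTR.H4

set_option autoImplicit false

open scoped Classical
open Finset

namespace BTR
open BTP

variable {d : ℕ}

/-- [BTR-H5] the kernel bound with no thick directions bounds the probability that the whole box is built.
PROOF. `FE_of_built` for the site `x = 0` (it is in `sites (Wn d n)`: `BTP.mem_Wn`): `Pr_mono`; `HF` for `J = ∅`, `T = Wn d n` (`BTP.sd_Wn`: sides `n ≤ m`; nonempty), `y = n - 1 ≤ m`: `Pr ≤ 1/32` as `(y+1)(4y+5)^d ≥ 1`. -/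
theorem built_small {r k n m : ℕ} {p : ℝ} (hd : 1 ≤ d) (hp0 : 0 ≤ p) (hp1 : p ≤ 1) (hn : 1 ≤ n)
    (hnm : n ≤ m) (hF : HF d r k p 0 m) :
    Pr (sites (Wn d n)) p (fun U => Bu r ∅ U (sites (Wn d n))) ≤ 1 / 32 := by
  have hNe : Ne (Wn d n) := by
    intro i
    unfold Wn
    simp only [if_true]
    simp
    exact_mod_cast hn
  have h0 : (fun _ => 0 : Site d) ∈ sites (Wn d n) := by
    rw [mem_Wn]
    intro i
    constructor
    · exact le_refl _
    · exact_mod_cast hn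
  have h1 : Pr (sites (Wn d n)) p (fun U => Bu r ∅ U (sites (Wn d n))) ≤
      Pr (sites (Wn d n)) p (FE r ∅ (Wn d n) Finset.univ (fun _ => 0) (n - 1)) :=
    Pr_mono hp0 hp1 fun U _ hU => FE_of_built (by omega) hn hU h0
  have h2 := hF ∅ Finset.card_empty (Wn d n) hNe (fun i hi => absurd hi (Finset.notMem_empty i))
    (fun i _ => by rw [sd_Wn hn]; exact hnm) (fun _ => 0) (n - 1) (by omega)
  have h3 : 0 ≤ Pr (sites (Wn d n)) p (FE r ∅ (Wn d n) Finset.univ (fun _ => 0) (n - 1)) :=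
    Pr_nonneg hp0 hp1
  have h4 : (1 : ℝ) ≤ (((n - 1 : ℕ) : ℝ) + 1) * (4 * ((n - 1 : ℕ) : ℝ) + 5) ^ d := by
    have h5 : (0 : ℝ) ≤ ((n - 1 : ℕ) : ℝ) := Nat.cast_nonneg _
    have h6 : (1 : ℝ) ≤ (4 * ((n - 1 : ℕ) : ℝ) + 5) ^ d := one_le_pow₀ (by linarith)
    nlinarith
  nlinarith

end BTR
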