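import Pool.Agent.BTR.K2

set_option autoImplicit false

open scoped Classical
open Finset

namespace BTR
open BTP

variable {d : ℕ}

/-- the lattice automorphism `(φ v) i = v (π i) + c i` if `s i = true`, `- v (π i) + c i` if `s i = false` -/
def aut (π : Equiv.Perm (Fin d)) (s : Fin d → Bool) (c : Site d) : Site d ≃ Site d where
  toFun v := fun i => (if s i = true then v (π i) else - v (π i)) + c i
  invFun w := fun i => if s (π.symm i) = true then w (π.symm i) - c (π.symm i)
    else c (π.symm i) - w (π.symm i)
  left_inv v := by
    funext i
    by_cases h : s (π.symm i) = true <;> simp [h]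
  right_inv w := by
    funext i
    by_cases h : s i = true <;> simp [h]

/-- its action on the directions -/
def autD (π : Equiv.Perm (Fin d)) (s : Fin d → Bool) : Equiv.Perm (Dir d) where
  toFun j := (π.symm j.1, if s (π.symm j.1) = true then j.2 else !j.2)
  invFun j := (π j.1, if s j.1 = true then j.2 else !j.2)
  left_inv j := by
    obtain ⟨i, b⟩ := j
    by_cases h : s (π.symm i) = true <;> simp [h]
  right_inv j := by
    obtain ⟨i, b⟩ := j
    by_cases h : s i = true <;> simp [h]

/-- [BTR-K10] `aut` maps neighbours to neighbours. PROOF. `funext i`; if `π i = j.1` (i.e. `i = π.symm j.1`) the coordinate changes by `± 1` (cases on `s i`, `j.2`), otherwise it is unchanged (`stp_ne`). -/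
theorem aut_stp (π : Equiv.Perm (Fin d)) (s : Fin d → Bool) (c : Site d) (v : Site d) (j : Dir d) :
    aut π s c (stp v j) = stp (aut π s c v) (autD π s j) := by
  obtain ⟨i0, b⟩ := j
  funext i
  show (if s i = true then stp v (i0, b) (π i) else - stp v (i0, b) (π i)) + c i =
    Function.update (aut π s c v) (π.symm i0)
      (aut π s c v (π.symm i0) + if (if s (π.symm i0) = true then b else !b) = true then 1 else -1) i
  unfold stp
  by_cases h : i = π.symm i0
  · subst h
    rw [Function.update_self]
    show _ = (if s (π.symm i0) = true then v (π (π.symm i0)) else - v (π (π.symm i0))) +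
      c (π.symm i0) + _
    rw [Equiv.apply_symm_apply, Function.update_self]
    cases hs : s (π.symm i0) <;> cases b <;> simp <;> ring
  · have h1 : π i ≠ i0 := fun h2 => h (by rw [← h2, Equiv.symm_apply_apply])
    rw [Function.update_of_ne h, Function.update_of_ne h1]
    rfl

/-- the image of a box -/
def autB (π : Equiv.Perm (Fin d)) (s : Fin d → Bool) (c : Site d) (V : Box d) : Box d :=
  fun j => V (π j.1, if s j.1 = true then j.2 else !j.2) + (if j.2 = true then c j.1 else - c j.1)

/-- [BTR-K10] (`mem_sites'`, the inverse of `aut`) -/
theorem sites_aut (π : Equiv.Perm (Fin d)) (s : Fin d → Bool) (c : Site d) (V : Box d) :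
    (sites V).map (aut π s c).toEmbedding = sites (autB π s c V) := by
  ext w
  rw [Finset.mem_map_equiv, mem_sites', mem_sites']
  have key : ∀ i, (- V (π i, false) ≤ (aut π s c).symm w (π i) ∧
      (aut π s c).symm w (π i) ≤ V (π i, true)) ↔
      (- autB π s c V (i, false) ≤ w i ∧ w i ≤ autB π s c V (i, true)) := by
    intro i
    have h1 : (aut π s c).symm w (π i) = if s (π.symm (π i)) = true then w (π.symm (π i)) - c (π.symm (π i))
      else c (π.symm (π i)) - w (π.symm (π i)) := rfl
    rw [h1, Equiv.symm_apply_apply]
    unfold autB
    cases hs : s i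
    · simp
      constructor
      · rintro ⟨h2, h3⟩
        constructor <;> linarith
      · rintro ⟨h2, h3⟩
        constructor <;> linarith
    · simp
  constructor
  · intro h i
    exact (key i).1 (h (π i))
  · intro h i
    have h2 := (key (π.symm i)).2 (h (π.symm i))
    rwa [Equiv.apply_symm_apply] at h2

theorem sd_autB (π : Equiv.Perm (Fin d)) (s : Fin d → Bool) (c : Site d) (V : Box d) (i : Fin d) :
    sd (autB π s c V) i = sd V (π i) := by
  unfold sd
  congr 2
  show autB π s c V (i, true) + autB π s c V (i, false) = _
  unfold autB
  cases hs : s i <;> simp <;> ring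

theorem Ne_autB (π : Equiv.Perm (Fin d)) (s : Fin d → Bool) (c : Site d) {V : Box d} (hV : Ne V) :
    Ne (autB π s c V) := by
  intro i
  have h1 := hV (π i)
  have h2 : autB π s c V (i, true) + autB π s c V (i, false) = V (π i, true) + V (π i, false) := by
    unfold autB
    cases hs : s i <;> simp <;> ring
  rw [h2]
  exact h1

end BTR
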