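import Pool.Agent.BTR.K2

set_option autoImplicit false

open scoped Classical
open Finset

namespace BTR
open BTP

variable {d : ℕ}

/-- [BTR-K10] a permutation of the coordinates moving the directions `hi` onto `J`: the `lo` directions go to the complement.
PROOF. `J` and `Finset.univ.image (hi D l)` have the same cardinality `l` (`Fin.natAdd` is injective); bijections `Fin l ≃ J` and `Fin D ≃ Jᶜ` (`Finset.equivOfCardEq` or `Fintype.equivOfCardEq`, `|Jᶜ| = D`) and `finSumFinEquiv : Fin D ⊕ Fin l ≃ Fin (D + l)`, `Equiv.Set.sumCompl` or `Equiv.sumCompl`. -/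
theorem exists_perm {D l : ℕ} {J : Finset (Fin (D + l))} (hJ : J.card = l) :
    ∃ π : Equiv.Perm (Fin (D + l)), (∀ i : Fin l, π (hi D l i) ∈ J) ∧ ∀ i : Fin D, π (lo D l i) ∉ J := by
  have e1 : Fin l ≃ {x // x ∈ J} := (Finset.equivFinOfCardEq hJ).symm
  have hc : Fintype.card {x // x ∉ J} = D := by
    rw [Fintype.card_subtype_compl, Fintype.card_fin, Fintype.card_coe, hJ]
    omega
  have e2 : Fin D ≃ {x // x ∉ J} := (Fintype.equivFinOfCardEq hc).symm
  let π : Equiv.Perm (Fin (D + l)) := finSumFinEquiv.symm.trans ((Equiv.sumComm (Fin D) (Fin l)).trans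
    ((Equiv.sumCongr e1 e2).trans (Equiv.sumCompl (fun x => x ∈ J))))
  refine ⟨π, ?_, ?_⟩
  · intro i
    have h1 : π (hi D l i) = (e1 i).1 := by
      show (Equiv.sumCompl (fun x => x ∈ J)) ((Equiv.sumCongr e1 e2)
        ((Equiv.sumComm (Fin D) (Fin l)) (finSumFinEquiv.symm (Fin.natAdd D i)))) = _
      rw [finSumFinEquiv_symm_apply_natAdd]
      rfl
    rw [h1]
    exact (e1 i).2
  · intro i
    have h1 : π (lo D l i) = (e2 i).1 := by
      show (Equiv.sumCompl (fun x => x ∈ J)) ((Equiv.sumCongr e1 e2)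
        ((Equiv.sumComm (Fin D) (Fin l)) (finSumFinEquiv.symm (Fin.castAdd l i)))) = _
      rw [finSumFinEquiv_symm_apply_castAdd]
      rfl
    rw [h1]
    exact (e2 i).2

end BTR
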