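import Pool.Agent.BTR.K6a
import Pool.Agent.BTR.K4
import Pool.Agent.BTR.K5

set_option autoImplicit false

open scoped Classical
open Finset

namespace BTR
open BTP

variable {d : ℕ}

/-- [BTR-K6] the combinatorics of the tail: a connected built set with largest extent in `[y, 2y+1]`, `y` at least the thickness of the thick directions, crosses `y / K - 1` disjoint slabs of thickness `K` of its window, in a direction `i` that is not thick; the slabs are structures with the thick directions `insert i J`.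
PROOF. Let `X` be the set; `Ege` gives `i, u, w ∈ X` with `y ≤ w i - u i`. If `i ∈ J` then `w i - u i ≤ sd T i - 1 < y` (`mem_sites'`, `hT`; unfold `sd`), so `i ∉ J`. `X ⊆ sites (win J T x (2y+1))` (`sub_win`); `Oj J (win ..) = Oj J T` (`Oj_win`).
`slab_count` with `α = u i`, `β = w i`, `x i` (`|u i - x i| ≤ 2y+1` from `Ele`). For each `t`: `Cr_slab` (`T := win ..`, `hin` is void) with `u, w`: `a := x i + (a + t) K`, `b := a + K - 1 > a` as `K ≥ 2`. -/
theorem tail_comb {r : ℕ} {J : Finset (Fin d)} {T : Box d} {x : Site d} {y K : ℕ} (hK : 2 ≤ K)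
    (hT : ∀ i ∈ J, sd T i ≤ y) {U : Finset (Site d)} (h : FE r J T Finset.univ x y U) :
    ∃ i, i ∉ J ∧ ∃ a : ℤ, |a| ≤ 2 * y + 2 ∧ ∀ t : ℕ, t < y / K - 1 →
      Cr r (insert i J) (slw J T x (2 * y + 1) K i (a + t)) i
        (U ∩ sites (slw J T x (2 * y + 1) K i (a + t))) := by
  obtain ⟨X, hXT, hC, hB, hx, hE, i, -, u, hu, w, hw, huw⟩ := h
  have hiJ : i ∉ J := by
    intro hi
    have h1 := hT i hi
    have h2 := mem_sites'.1 (hXT hu) i
    have h3 := mem_sites'.1 (hXT hw) i
    unfold sd at h1
    omega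
  have hXW : X ⊆ sites (win J T x (2 * y + 1)) := by
    refine sub_win hXT hx ?_
    intro i' _ u' hu' v' hv'
    have h1 := hE i' (Finset.mem_univ i') u' hu' v' hv'
    push_cast
    exact h1
  have hB' : Bu r (Oj J (win J T x (2 * y + 1))) U X := by
    rw [Oj_win]
    exact hB
  have hux : |u i - x i| ≤ 2 * (y : ℤ) + 1 := by
    have h1 := hE i (Finset.mem_univ i) x hx u hu
    have h2 := hE i (Finset.mem_univ i) u hu x hx
    rw [abs_le]
    constructor <;> omega
  obtain ⟨a, ha, hat⟩ := slab_count (K := K) (y := y) (x := x i) (α := u i) (β := w i)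
    (by omega) (by omega) hux
  refine ⟨i, hiJ, a, ha, fun t ht => ?_⟩
  obtain ⟨h1, h2⟩ := hat t ht
  exact Cr_slab hXW hC hB' i (by omega) (fun h => absurd h hiJ) hu hw h1 h2

end BTR
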