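import Pool.Agent.BTR.K6a
import Pool.Agent.BTR.K4
import Pool.Agent.BTR.K5

set_option autoImplicit false

open scoped Classical
open Finset

namespace BTR
open BTP

variable {d : ℕ}

/-- [BTR-K6] slabs with different numbers are disjoint (`mem_slb`: the heights are in disjoint intervals) -/
theorem slw_disj {J : Finset (Fin d)} {T : Box d} {x : Site d} {m K : ℕ} {i : Fin d} {a b : ℤ}
    (hab : a ≠ b) : Disjoint (sites (slw J T x m K i a)) (sites (slw J T x m K i b)) := by
  rw [Finset.disjoint_left]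
  intro v hva hvb
  have h1 := (mem_slb.1 hva).2
  have h2 := (mem_slb.1 hvb).2
  have hK : (0 : ℤ) ≤ K := Int.natCast_nonneg K
  rcases lt_or_gt_of_ne hab with h | h
  · have h3 : (a + 1) * (K : ℤ) ≤ b * K := mul_le_mul_of_nonneg_right (by omega) hK
    rw [add_mul, one_mul] at h3
    omega
  · have h3 : (b + 1) * (K : ℤ) ≤ a * K := mul_le_mul_of_nonneg_right (by omega) hK
    rw [add_mul, one_mul] at h3
    omega

/-- [BTR-K6] the shape of the slabs of the window: `sd` and `Ne` of `slb (win J T x m)`; `x ∈ sites T` makes the window nonempty -/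
theorem Ne_slw {J : Finset (Fin d)} {T : Box d} {x : Site d} (hx : x ∈ sites T) {m K : ℕ} (hK : 1 ≤ K)
    (i : Fin d) (a : ℤ) : Ne (slw J T x m K i a) := by
  intro i'
  unfold slw
  by_cases h : i' = i
  · subst h
    rw [slb_true, slb_false]
    omega
  · rw [slb_ne (j := (i', true)) h, slb_ne (j := (i', false)) h]
    have h1 : x ∈ sites (win J T x m) := by
      rw [mem_win]
      refine ⟨hx, fun i _ => ?_⟩
      rw [sub_self, abs_zero]
      exact Int.natCast_nonneg m
    have h2 := mem_sites'.1 h1 i'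
    omega

theorem sd_slw_self {J : Finset (Fin d)} {T : Box d} {x : Site d} {m K : ℕ} (hK : 1 ≤ K)
    (i : Fin d) (a : ℤ) : sd (slw J T x m K i a) i = K := by
  unfold sd slw
  rw [slb_true, slb_false]
  omega

theorem sd_slw_mem {J : Finset (Fin d)} {T : Box d} {x : Site d} {m K : ℕ}
    {i i' : Fin d} (a : ℤ) (h : i' ≠ i) (hJ : i' ∈ J) : sd (slw J T x m K i a) i' = sd T i' := by
  unfold sd slw
  rw [slb_ne (j := (i', true)) h, slb_ne (j := (i', false)) h]
  unfold win
  rw [if_pos (show ((i', true) : Dir d).1 ∈ J from hJ), if_pos (show ((i', false) : Dir d).1 ∈ J from hJ)]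

theorem sd_slw_le {J : Finset (Fin d)} {T : Box d} {x : Site d} (hx : x ∈ sites T) {m K : ℕ}
    {i i' : Fin d} (a : ℤ) (h : i' ≠ i) (hJ : i' ∉ J) : sd (slw J T x m K i a) i' ≤ 2 * m + 1 := by
  unfold sd slw
  rw [slb_ne (j := (i', true)) h, slb_ne (j := (i', false)) h]
  unfold win
  rw [if_neg (show ¬ ((i', true) : Dir d).1 ∈ J from hJ), if_neg (show ¬ ((i', false) : Dir d).1 ∈ J from hJ)]
  have h1 : bx x m (i', true) = x i' + m := rfl
  have h2 : bx x m (i', false) = -x i' + m := rfl
  rw [h1, h2]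
  have h3 := min_le_right (T (i', true)) (x i' + (m : ℤ))
  have h4 := min_le_right (T (i', false)) (-x i' + (m : ℤ))
  omega

end BTR
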