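import Pool.Agent.BTR.K4
import Pool.Agent.BTR.K5

set_option autoImplicit false

open scoped Classical
open Finset

namespace BTR
open BTP

variable {d : ℕ}

/-- the event `FE` for large `y` implies the event for a smaller scale at a point near `x`: `AL` (`I = univ`, scale `y'`); the new set is not empty (`Ege`), its points are within distance `2y+1` of `x` (`Ele` of the old set; `mem_bx`) -/
theorem FE_descend {r : ℕ} {J : Finset (Fin d)} {T : Box d} {x : Site d} {y y' : ℕ} (hy : y' ≤ y)
    {U : Finset (Site d)} (h : FE r J T Finset.univ x y U) :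
    ∃ x' ∈ sites (bx x (2 * y + 1)), FE r J T Finset.univ x' y' U := by
  obtain ⟨X, hXT, hC, hB, hx, hE, hG⟩ := h
  obtain ⟨X', hX', hC', hB', hE', hG'⟩ := AL hB hC Finset.univ y' (by
    obtain ⟨i, hi, u, hu, v, hv, huv⟩ := hG
    refine ⟨i, hi, u, hu, v, hv, ?_⟩
    have h1 : (y' : ℤ) ≤ y := by exact_mod_cast hy
    omega)
  obtain ⟨x', hx'⟩ := hC'.1
  refine ⟨x', ?_, X', hX'.trans hXT, hC', hB', hx', hE', hG'⟩
  rw [mem_bx]
  intro i
  have h1 := hE i (Finset.mem_univ i) x hx x' (hX' hx')
  have h2 := hE i (Finset.mem_univ i) x' (hX' hx') x hx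
  rw [abs_le]
  push_cast
  constructor <;> omega

end BTR
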