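import Pool.Agent.BTR.H6a
import Pool.Agent.BTR.K4
import Pool.Agent.BTR.K6
import Pool.Agent.BTR.K10
import Pool.Agent.BTR.K11

set_option autoImplicit false

open scoped Classical
open Finset

namespace BTR
open BTP

variable {d : ℕ}

theorem h6b_win {J : Finset (Fin d)} {T : Box d} {x : Site d} {m : ℕ} {i : Fin d} (hi : i ∈ J)
    (b : Bool) : win J T x m (i, b) = T (i, b) := by
  unfold win
  exact if_pos hi

/-- a set inside the window that touches both sides -/
theorem h6b_cr {r : ℕ} {J : Finset (Fin d)} {T : Box d} {x : Site d} {m : ℕ} {i : Fin d}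
    {U X : Finset (Site d)} (hX : X ⊆ sites (win J T x m)) (hC : Cn X) (hB : Bu r (Oj J T) U X)
    (h1 : ∃ u ∈ X, u i = - win J T x m (i, false)) (h2 : ∃ u ∈ X, u i = win J T x m (i, true)) :
    Cr r J (win J T x m) i (U ∩ sites (win J T x m)) := by
  apply Cr_inter
  refine ⟨X, hX, hC, ?_, h1, h2⟩
  rw [Oj_win]
  exact hB

/-- [BTR-H6] decomposition of a crossing at level `0` into windows of radius `2y+1` in the long directions.
PROOF. Let `X` be the crossing set (direction `i ∈ J`), write `V x = win J T x (2y+1)`; `Oj J (V x) = Oj J T` (`Oj_win`), and `V x` has the range of `T` in the directions of `J`.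
If `¬ Ege Jᶜ X y`: then `Ele Jᶜ X (y-1)`, for any `x ∈ X`: `X ⊆ sites (V x)` (`sub_win`), so `Cr r J (V x) i U`, and `Cr_inter`.
If `Ege Jᶜ X y`: `AL` with `I = Jᶜ` gives `X'`, extents in `Jᶜ` at most `2y+1`, one of them at least `y`; `x ∈ X'`; `X' ⊆ sites (V x)`. If `X'` touches both sides in a direction `i' ∈ J`: `Cr r J (V x) i' U`. Otherwise `one_sided` gives `s` and `CE r J (V x) s y U`; the seeds: `Bu.inter`, `Bu.mono`. -/
theorem level0_comb {r : ℕ} {J : Finset (Fin d)} {T : Box d} {i : Fin d} (hi : i ∈ J) (y : ℕ)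
    {U : Finset (Site d)} (h : Cr r J T i U) :
    (∃ x ∈ sites T, ∃ i' ∈ J, Cr r J (win J T x (2 * y + 1)) i'
      (U ∩ sites (win J T x (2 * y + 1)))) ∨
    (∃ x ∈ sites T, ∃ s : Fin d → Bool, CE r J (win J T x (2 * y + 1)) s y
      (U ∩ sites (win J T x (2 * y + 1)))) := by
  obtain ⟨X, hXT, hC, hB, h1, h2⟩ := h
  by_cases hE : Ege Jᶜ X y
  · obtain ⟨X', hX'X, hC', hB', hle, hge⟩ := AL hB hC Jᶜ y hE
    obtain ⟨x, hx⟩ := hC'.1
    have hsub : X' ⊆ sites (win J T x (2 * y + 1)) := by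
      refine sub_win (hX'X.trans hXT) hx ?_
      push_cast
      exact hle
    by_cases ht : ∃ i' ∈ J, (∃ u ∈ X', u i' = - win J T x (2 * y + 1) (i', false)) ∧
        ∃ u ∈ X', u i' = win J T x (2 * y + 1) (i', true)
    · obtain ⟨i', hi', h3, h4⟩ := ht
      exact Or.inl ⟨x, hXT (hX'X hx), i', hi', h6b_cr hsub hC' hB' h3 h4⟩
    · right
      have hB2 : Bu r (Oj J (win J T x (2 * y + 1))) U X' := by
        rw [Oj_win]
        exact hB'
      obtain ⟨s, hs⟩ := one_sided hsub hB2 (fun i' hi' hcon => ht ⟨i', hi', hcon⟩)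
      refine ⟨x, hXT (hX'X hx), s, X', hsub, hC', ?_, ?_⟩
      · exact hs.inter.mono le_rfl (Finset.inter_subset_inter_left hsub)
      · obtain ⟨j, hj, u, hu, v, hv, huv⟩ := hge
        refine ⟨j, Finset.mem_compl.1 hj, u, hu, v, hv, ?_⟩
        have h5 : ((y : ℤ) : ℝ) ≤ ((v j - u j : ℤ) : ℝ) := Int.cast_le.2 huv
        push_cast at h5
        exact h5
  · left
    obtain ⟨x, hx⟩ := hC.1
    have hle : Ele Jᶜ X ((2 * y + 1 : ℕ) : ℤ) := by
      intro j hj u hu v hv
      by_contra hcon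
      rw [not_le] at hcon
      apply hE
      refine ⟨j, hj, u, hu, v, hv, ?_⟩
      push_cast at hcon
      omega
    have hsub : X ⊆ sites (win J T x (2 * y + 1)) := sub_win hXT hx hle
    refine ⟨x, hXT hx, i, hi, h6b_cr hsub hC hB ?_ ?_⟩
    · rw [h6b_win hi]
      exact h1
    · rw [h6b_win hi]
      exact h2

end BTR
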