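import Pool.Agent.BTR.H6b
import Pool.Agent.BTR.K4
import Pool.Agent.BTR.K6
import Pool.Agent.BTR.K10
import Pool.Agent.BTR.K11

set_option autoImplicit false

open scoped Classical
open Finset

namespace BTR
open BTP

variable {d : ℕ}

/-- the shape of the windows (`win`, `bx`; unfold `sd`; `x ∈ sites T`, `mem_sites'`) -/
theorem Ne_win {J : Finset (Fin d)} {T : Box d} (hT : Ne T) {x : Site d} (hx : x ∈ sites T) (m : ℕ) :
    Ne (win J T x m) := by
  rw [mem_sites'] at hx
  intro i
  have h1 := hx i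
  have h2 := hT i
  unfold win
  by_cases hi : i ∈ J
  · simp only [hi, if_true]
    exact h2
  · simp only [hi, if_false]
    unfold bx cc
    simp only [if_true, Bool.false_eq_true, if_false]
    have e1 : x i ≤ min (T (i, true)) (x i + (m : ℤ)) := le_min h1.2 (by omega)
    have e2 : - x i ≤ min (T (i, false)) (- x i + (m : ℤ)) := le_min (by omega) (by omega)
    omega

theorem sd_win_mem {J : Finset (Fin d)} {T : Box d} {x : Site d} {m : ℕ} {i : Fin d} (hi : i ∈ J) :
    sd (win J T x m) i = sd T i := by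
  unfold sd win
  simp only [hi, if_true]

theorem sd_win_le {J : Finset (Fin d)} {T : Box d} {x : Site d} (hx : x ∈ sites T) {m : ℕ}
    {i : Fin d} (hi : i ∉ J) : sd (win J T x m) i ≤ 2 * m + 1 := by
  unfold sd win
  simp only [hi, if_false]
  unfold bx cc
  simp only [if_true, Bool.false_eq_true, if_false]
  have e1 : min (T (i, true)) (x i + (m : ℤ)) ≤ x i + m := min_le_right _ _
  have e2 : min (T (i, false)) (- x i + (m : ℤ)) ≤ - x i + m := min_le_right _ _
  omega

/-- [BTR-H6] the probability of a crossing at level `0`. PROOF. `level0_comb`, `Pr_or`, `Pr_union` (over `x ∈ sites T`, `i' ∈ J`, and over `x ∈ sites T`, all `s : Fin d → Bool`: `2^d` of them), `Pr_sub` (`Inc_Cr`, `Inc_CE`). -/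
theorem level0_prob {r : ℕ} {p : ℝ} (hp0 : 0 ≤ p) (hp1 : p ≤ 1) {J : Finset (Fin d)} {T : Box d}
    {i : Fin d} (hi : i ∈ J) (y : ℕ) {b1 b2 : ℝ}
    (h1 : ∀ x ∈ sites T, ∀ i' ∈ J, Pr (sites (win J T x (2 * y + 1))) p
      (Cr r J (win J T x (2 * y + 1)) i') ≤ b1)
    (h2 : ∀ x ∈ sites T, ∀ s : Fin d → Bool, Pr (sites (win J T x (2 * y + 1))) p
      (CE r J (win J T x (2 * y + 1)) s y) ≤ b2) :
    Pr (sites T) p (Cr r J T i) ≤ ((sites T).card : ℝ) * (d * b1 + 2 ^ d * b2) := by
  have step0 : Pr (sites T) p (Cr r J T i) ≤ Pr (sites T) p (fun U =>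
      (∃ x ∈ sites T, ∃ i' ∈ J, Cr r J (win J T x (2 * y + 1)) i'
        (U ∩ sites (win J T x (2 * y + 1)))) ∨
      (∃ x ∈ sites T, ∃ s ∈ (Finset.univ : Finset (Fin d → Bool)),
        CE r J (win J T x (2 * y + 1)) s y (U ∩ sites (win J T x (2 * y + 1))))) := by
    apply Pr_mono hp0 hp1
    intro U _ hU
    rcases level0_comb hi y hU with h | ⟨x, hx, s, hs⟩
    · exact Or.inl h
    · exact Or.inr ⟨x, hx, s, Finset.mem_univ _, hs⟩
  have hA : Pr (sites T) p (fun U => ∃ x ∈ sites T, ∃ i' ∈ J, Cr r J (win J T x (2 * y + 1)) i'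
        (U ∩ sites (win J T x (2 * y + 1)))) ≤ ((sites T).card : ℝ) * (d * b1) := by
    refine le_trans (Pr_union hp0 hp1 (sites T) (fun x U => ∃ i' ∈ J,
      Cr r J (win J T x (2 * y + 1)) i' (U ∩ sites (win J T x (2 * y + 1))))) ?_
    rw [← nsmul_eq_mul]
    apply Finset.sum_le_card_nsmul
    intro x hx
    refine le_trans (Pr_union hp0 hp1 J (fun i' U =>
      Cr r J (win J T x (2 * y + 1)) i' (U ∩ sites (win J T x (2 * y + 1))))) ?_
    have hb : 0 ≤ b1 := le_trans (Pr_nonneg hp0 hp1) (h1 x hx i hi)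
    have hs : ∑ i' ∈ J, Pr (sites T) p (fun U =>
        Cr r J (win J T x (2 * y + 1)) i' (U ∩ sites (win J T x (2 * y + 1)))) ≤
        J.card • b1 := by
      apply Finset.sum_le_card_nsmul
      intro i' hi'
      exact le_trans (Pr_sub hp0 hp1 _ _ (Inc_Cr r J (win J T x (2 * y + 1)) i')) (h1 x hx i' hi')
    refine le_trans hs ?_
    rw [nsmul_eq_mul]
    apply mul_le_mul_of_nonneg_right _ hb
    have : J.card ≤ d := by
      have := Finset.card_le_univ J
      rwa [Fintype.card_fin] at this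
    exact_mod_cast this
  have hB : Pr (sites T) p (fun U => ∃ x ∈ sites T, ∃ s ∈ (Finset.univ : Finset (Fin d → Bool)),
        CE r J (win J T x (2 * y + 1)) s y (U ∩ sites (win J T x (2 * y + 1)))) ≤
        ((sites T).card : ℝ) * (2 ^ d * b2) := by
    refine le_trans (Pr_union hp0 hp1 (sites T) (fun x U =>
      ∃ s ∈ (Finset.univ : Finset (Fin d → Bool)),
        CE r J (win J T x (2 * y + 1)) s y (U ∩ sites (win J T x (2 * y + 1))))) ?_
    rw [← nsmul_eq_mul]
    apply Finset.sum_le_card_nsmul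
    intro x hx
    refine le_trans (Pr_union hp0 hp1 (Finset.univ : Finset (Fin d → Bool)) (fun s U =>
        CE r J (win J T x (2 * y + 1)) s y (U ∩ sites (win J T x (2 * y + 1))))) ?_
    have hs : ∑ s ∈ (Finset.univ : Finset (Fin d → Bool)), Pr (sites T) p (fun U =>
        CE r J (win J T x (2 * y + 1)) s y (U ∩ sites (win J T x (2 * y + 1)))) ≤
        (Finset.univ : Finset (Fin d → Bool)).card • b2 := by
      apply Finset.sum_le_card_nsmul
      intro s _
      exact le_trans (Pr_sub hp0 hp1 _ _ (Inc_CE r J (win J T x (2 * y + 1)) s y)) (h2 x hx s)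
    refine le_trans hs (le_of_eq ?_)
    rw [nsmul_eq_mul, Finset.card_univ]
    simp
  refine le_trans step0 (le_trans (Pr_or hp0 hp1) ?_)
  rw [mul_add]
  exact add_le_add hA hB

end BTR
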