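import Pool.Agent.BTR.H6a
import Pool.Agent.BTR.K4
import Pool.Agent.BTR.K6
import Pool.Agent.BTR.K10
import Pool.Agent.BTR.K11

set_option autoImplicit false

open scoped Classical
open Finset

namespace BTR
open BTP

variable {d : ℕ}

theorem h6d_aut_apply (π : Equiv.Perm (Fin d)) (s : Fin d → Bool) (c : Site d) (v : Site d) (i : Fin d) :
    aut π s c v i = (if s i = true then v (π i) else - v (π i)) + c i := rfl

theorem h6d_cases {D l : ℕ} (i : Fin (D + l)) :
    (∃ a : Fin D, i = lo D l a) ∨ ∃ b : Fin l, i = hi D l b :=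
  Fin.addCases (fun a => Or.inl ⟨a, rfl⟩) (fun b => Or.inr ⟨b, rfl⟩) i

/-- [BTR-H6] transport of the one-sided event to the one-corner structure.
PROOF. `exists_perm` gives `π` with `π (hi i) ∈ J`, `π (lo i) ∉ J`. Signs `σ i := if π i ∈ J then s (π i) else true`; translations `c i := 0` if `π i ∉ J`; if `π i ∈ J`: `c i = V (π i, false) + 1` if `s (π i) = true`, `c i = V (π i, true) + 1` if `s (π i) = false`. `φ = aut π σ c`, `V' = autB π σ c V`.
`V' (hi i, false) = -1`, `V' (hi i, true) = sd V (π (hi i)) = k`, `sd V' (lo i) = sd V (π (lo i)) ≤ Q` (`sd_autB`), `Ne_autB`. `φ '' Os J V s = Olow D l` (only `⊆` is needed): `u ∈ Os` with `i₀ = π (hi i)` (every `i₀ ∈ J` is of this form: if `π⁻¹ i₀ = lo j` then `i₀ ∉ J`; use `Fin.addCases` or `finSumFinEquiv`) has `(φ u) (hi i) ≤ 0`.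
So for `U ⊆ sites V`: `CE (l+2) J V s S U → OCE D l V' S (U.map φ)` (`Bu.map`, `Cn.map`, `sites_aut`; `Lg` in direction `i₀ ∉ J`, `i₀ = π (lo j)`, `σ = true`: the coordinate `lo j` of `φ u` is `u i₀`). `Pr_mono`, `Pr_map` (`sites V' = (sites V).map φ`), `hOC`. -/
theorem corner_prob {D l k Q : ℕ} {p b S : ℝ} (hp0 : 0 ≤ p) (hp1 : p ≤ 1)
    (hOC : ∀ V' : Box (D + l), Ne V' → (∀ i : Fin l, V' (hi D l i, false) ≤ -1) →
      (∀ i : Fin l, V' (hi D l i, true) ≤ k) → (∀ i : Fin D, sd V' (lo D l i) ≤ Q) →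
      Pr (sites V') p (OCE D l V' S) ≤ b)
    {J : Finset (Fin (D + l))} (hJ : J.card = l) {V : Box (D + l)} (hV : Ne V)
    (hk : ∀ i ∈ J, sd V i = k) (hQ : ∀ i, i ∉ J → sd V i ≤ Q) (s : Fin (D + l) → Bool) :
    Pr (sites V) p (CE (l + 2) J V s S) ≤ b := by
  obtain ⟨π, hπ1, hπ2⟩ := exists_perm hJ
  obtain ⟨σ, hσ⟩ : ∃ σ : Fin (D + l) → Bool, ∀ i, σ i = if π i ∈ J then s (π i) else true :=
    ⟨_, fun _ => rfl⟩
  obtain ⟨c, hc⟩ : ∃ c : Site (D + l), ∀ i, c i = if π i ∈ J then
      (if s (π i) = true then V (π i, false) + 1 else V (π i, true) + 1) else 0 :=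
    ⟨_, fun _ => rfl⟩
  have hkk : ∀ i ∈ J, V (i, true) + V (i, false) + 1 = k := by
    intro i hi
    have h1 := hk i hi
    have h2 := hV i
    unfold sd at h1
    omega
  have hb := hOC (autB π σ c V) (Ne_autB π σ c hV) ?_ ?_ ?_
  · refine le_trans ?_ hb
    rw [← sites_aut, Pr_map]
    apply Pr_mono hp0 hp1
    intro U _ hU
    obtain ⟨X, hXV, hXc, hXB, i₀, hi₀, hLg⟩ := hU
    refine ⟨X.map (aut π σ c).toEmbedding, ?_, Cn.map (aut_stp π σ c) hXc, ?_, ?_⟩
    · rw [← sites_aut]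
      exact Finset.map_subset_map.mpr hXV
    · refine Bu.mono (Bu.map (aut_stp π σ c) hXB) ?_ (Finset.Subset.refl _)
      rintro _ ⟨u, ⟨j, hj, hu⟩, rfl⟩
      rcases h6d_cases (π.symm j) with ⟨a, ha⟩ | ⟨b', hb'⟩
      · exfalso
        apply hπ2 a
        rw [← ha, Equiv.apply_symm_apply]
        exact hj
      · have hπb : π (hi D l b') = j := by rw [← hb', Equiv.apply_symm_apply]
        refine ⟨b', ?_⟩
        show aut π σ c u (hi D l b') ≤ 0
        rw [h6d_aut_apply, hσ, hc, hπb]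
        simp only [hj, if_true]
        rcases hu with ⟨hs, hu⟩ | ⟨hs, hu⟩
        · simp only [hs, if_true]
          omega
        · simp only [hs, Bool.false_eq_true, if_false]
          omega
    · obtain ⟨u, hu, v, hv, huv⟩ := hLg
      rcases h6d_cases (π.symm i₀) with ⟨a, ha⟩ | ⟨b', hb'⟩
      · have hπa : π (lo D l a) = i₀ := by rw [← ha, Equiv.apply_symm_apply]
        refine ⟨a, aut π σ c u, Finset.mem_map_of_mem _ hu, aut π σ c v,
          Finset.mem_map_of_mem _ hv, ?_⟩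
        rw [h6d_aut_apply, h6d_aut_apply, hσ, hc, hπa]
        simp only [hi₀, if_false, if_true, add_zero]
        exact huv
      · exfalso
        apply hi₀
        have := hπ1 b'
        rwa [← hb', Equiv.apply_symm_apply] at this
  · intro i
    unfold autB
    have h := hπ1 i
    simp only [hσ, hc, h, if_true, Bool.false_eq_true, if_false]
    cases hs : s (π (hi D l i)) <;> simp
  · intro i
    unfold autB
    have h := hπ1 i
    have h2 := hkk _ h
    simp only [hσ, hc, h, if_true]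
    cases hs : s (π (hi D l i)) <;> simp <;> omega
  · intro i
    rw [sd_autB]
    exact hQ _ (hπ2 i)

end BTR
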