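import Pool.Agent.BTR.H2
import Pool.Agent.BTR.H6

set_option autoImplicit false

open scoped Classical
open Finset

namespace BTR
open BTP

/-- [BTR-H7] level `0`: the crossing bound for slabs with all thick sides `k` (`|J| = l`, threshold `l + 2`).
PROOF. Let `J, i, T` as in `HC` (all thick sides are `k`, long sides at most `m`). `level0_prob` with `y = y0`, `b1 = ((4 y0 + 3)^d (2h+1)^d ((2h+1)^d p)^((h+2)/2))^(k/(h+1))` from `thin_cross` (`J.card + 2 = l + 2`; `Ne_win`, `sd_win_mem`, `sd_win_le`; all sides of the window are `≤ 4 y0 + 3` as `k ≤ y0`), `b2 = b` from `corner_prob` with `S = y0`, `Q = 4 y0 + 3`.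
`(sites T).card = ∏ sd T i ≤ m^D k^l` (`BTP.card_sites`, `Finset.prod_mul_prod_compl`, `|J| = l`, `|Jᶜ| = D`). `hnum`. -/
theorem level0 {D l k h y0 m : ℕ} {p b : ℝ} (hp0 : 0 ≤ p) (hp2 : p ≤ 1 / 2) (hh : 1 ≤ h)
    (hhk : h + 1 ≤ k) (hk0 : k ≤ y0)
    (hOC : ∀ V' : Box (D + l), Ne V' → (∀ i : Fin l, V' (hi D l i, false) ≤ -1) →
      (∀ i : Fin l, V' (hi D l i, true) ≤ k) → (∀ i : Fin D, sd V' (lo D l i) ≤ 4 * y0 + 3) →
      Pr (sites V') p (OCE D l V' y0) ≤ b)
    (hnum : ((m : ℝ) ^ D * k ^ l) * ((D + l : ℕ) * ((((4 * y0 + 3 : ℕ) : ℝ) ^ (D + l) *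
      (2 * h + 1) ^ (D + l) * ((2 * h + 1) ^ (D + l) * p) ^ ((h + 2) / 2)) ^ (k / (h + 1))) +
      2 ^ (D + l) * b) ≤ 1 / 4) :
    HC (D + l) (l + 2) k p l k m := by
  have hp1 : p ≤ 1 := by linarith
  intro J hJ i hi' T hT hTk hTi hTm
  have hTall : ∀ i' ∈ J, sd T i' = k := by
    intro i' hi''
    by_cases h1 : i' = i
    · rw [h1]; exact hTi
    · exact hTk i' hi'' h1
  -- the box `V'` of the hypothesis is not empty: `b ≥ 0`
  have hb0 : 0 ≤ b := by
    let V' : Box (D + l) := fun j => if j.2 = true then 1 else -1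
    have hV : Ne V' := by
      intro i
      simp [V']
    refine (Pr_nonneg hp0 hp1).trans (hOC V' hV ?_ ?_ ?_)
    · intro i
      simp [V']
    · intro i
      simp only [V', if_true]
      have : 1 ≤ k := by omega
      exact_mod_cast this
    · intro i
      simp [V', sd]
  have hQ : ∀ x ∈ sites T, ∀ i', sd (win J T x (2 * y0 + 1)) i' ≤ 4 * y0 + 3 := by
    intro x hx i'
    by_cases h1 : i' ∈ J
    · rw [sd_win_mem h1, hTall i' h1]
      omega
    · have := sd_win_le (m := 2 * y0 + 1) hx h1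
      omega
  have h1 := level0_prob (r := l + 2) hp0 hp1 (J := J) (T := T) hi' y0
    (b1 := ((((4 * y0 + 3 : ℕ) : ℝ) ^ (D + l) *
      (2 * h + 1) ^ (D + l) * ((2 * h + 1) ^ (D + l) * p) ^ ((h + 2) / 2)) ^ (k / (h + 1))))
    (b2 := b) ?_ ?_
  · refine h1.trans (le_trans (mul_le_mul_of_nonneg_right ?_ (by positivity)) hnum)
    rw [card_sites hT]
    push_cast
    rw [← Finset.prod_mul_prod_compl J]
    rw [mul_comm]
    have hJc : (Jᶜ).card = D := by
      rw [Finset.card_compl, Fintype.card_fin, hJ]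
      omega
    have e1 : ∏ i' ∈ Jᶜ, (sd T i' : ℝ) ≤ (m : ℝ) ^ D := by
      have e3 : ∏ i' ∈ Jᶜ, (sd T i' : ℝ) ≤ ∏ _i' ∈ Jᶜ, (m : ℝ) := by
        refine Finset.prod_le_prod (fun i' _ => Nat.cast_nonneg _) ?_
        intro i' hi''
        exact_mod_cast hTm i' (Finset.mem_compl.1 hi'')
      rw [Finset.prod_const, hJc] at e3
      exact e3
    have e2 : ∏ i' ∈ J, (sd T i' : ℝ) = (k : ℝ) ^ l := by
      rw [Finset.prod_congr rfl (fun i' hi'' => by rw [hTall i' hi'']), Finset.prod_const, hJ]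
    rw [e2]
    exact mul_le_mul_of_nonneg_right e1 (by positivity)
  · intro x hx i' hi''
    refine thin_cross (k := k) (by omega) (Ne_win hT hx _) ?_ hh hhk (hQ x hx) hp0 hp2 hi''
    intro i'' h2
    rw [sd_win_mem h2, hTall i'' h2]
  · intro x hx s
    refine corner_prob (k := k) (Q := 4 * y0 + 3) hp0 hp1 hOC hJ (Ne_win hT hx _) ?_ ?_ s
    · intro i'' h2
      rw [sd_win_mem h2, hTall i'' h2]
    · intro i'' _
      exact hQ x hx i''

end BTR
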