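import Pool.Agent.BTR.KD

set_option autoImplicit false

open scoped Classical
open Finset Filter

namespace BTR
open BTP

/-- thickness of the slabs, `⌈A⌉`, `A = exp L` -/
noncomputable def kL (L : ℝ) : ℕ := ⌈Real.exp L⌉₊
/-- the size of small boxes -/
noncomputable def hL (L : ℝ) : ℕ := ⌈L⌉₊
/-- the size `⌈A³⌉` of the windows of level `0` -/
noncomputable def yL (L : ℝ) : ℕ := ⌈Real.exp L ^ 3⌉₊
/-- `λ A - C √A - 3 s L` -/
noncomputable def xL (lm C L : ℝ) (s : ℕ) : ℝ := lm * Real.exp L - C * Real.exp (L / 2) - 3 * s * L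
/-- the largest scale controlled at level `s` -/
noncomputable def YL (lm C L : ℝ) (s : ℕ) : ℕ := ⌊Real.exp^[s + 1] (xL lm C L s)⌋₊

end BTR
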