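import Pool.Agent.BTR.N1a
import Pool.Agent.BTR.ND
import Pool.Agent.BTP.A1

set_option autoImplicit false

open scoped Classical
open Finset Filter

namespace BTR
open BTP

theorem n1b_hL {L : ℝ} (hL0 : 0 ≤ L) : (hL L : ℝ) ≤ L + 1 := (Nat.ceil_lt_add_one hL0).le

theorem n1b_pow (n : ℕ) {c ε : ℝ} (hc : 0 ≤ c) (hε : 0 < ε) : ∀ᶠ L : ℝ in atTop, (c * L) ^ n * Real.exp (-L) ≤ ε := by
  have h1 := (Real.tendsto_pow_mul_exp_neg_atTop_nhds_zero n).const_mul (c ^ n)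
  rw [mul_zero] at h1
  filter_upwards [h1.eventually_lt_const hε] with L hL
  rw [mul_pow, mul_assoc]
  exact hL.le

theorem n1b_quart (d : ℕ) : ∀ᶠ L : ℝ in atTop, (3 * L) ^ d ≤ Real.exp (L / 4) := by
  have h1 := n1b_pow d (c := 12) (by norm_num) one_pos
  have h2 : Tendsto (fun L : ℝ => L / 4) atTop atTop := tendsto_id.atTop_div_const (by norm_num)
  filter_upwards [h2.eventually h1] with L hL
  rw [show (12 : ℝ) * (L / 4) = 3 * L by ring, Real.exp_neg] at hL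
  have h3 : (3 * L) ^ d * (Real.exp (L / 4))⁻¹ ≤ 1 := hL
  rw [← div_eq_mul_inv, div_le_one (Real.exp_pos _)] at h3
  exact h3

/-- [BTR-N1] very small scales: a power of `L` against `exp(-L)` -/
theorem n1_c1 (d : ℕ) : ∀ᶠ L : ℝ in atTop, ∀ p : ℝ, 0 ≤ p → p ≤ Real.exp (-L) →
    ((hL L : ℝ) + 1) * (4 * hL L + 5) ^ (2 * d) * p ≤ 1 / 32 := by
  filter_upwards [n1b_pow (2 * d + 1) (c := 5) (ε := 1 / 32) (by norm_num) (by norm_num), eventually_ge_atTop (9 : ℝ)] with L hL1 hL2 p hp0 hp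
  have h1 := n1b_hL (L := L) (by linarith)
  have h0 : (0 : ℝ) ≤ hL L := Nat.cast_nonneg _
  have h2 : (hL L : ℝ) + 1 ≤ 5 * L := by linarith
  have h3 : (4 : ℝ) * hL L + 5 ≤ 5 * L := by linarith
  calc ((hL L : ℝ) + 1) * (4 * hL L + 5) ^ (2 * d) * p ≤ (5 * L) * (5 * L) ^ (2 * d) * Real.exp (-L) := by
        gcongr
    _ = (5 * L) ^ (2 * d + 1) * Real.exp (-L) := by rw [pow_succ']
    _ ≤ 1 / 32 := hL1

/-- [BTR-N1] small boxes. PROOF. For large `L`: `(2h+1)^d ≤ (2L+3)^d ≤ exp(L/4)`, so `(2h+1)^d p ≤ exp(-3L/4) ≤ 1`; the exponent `(h+2)/2` (natural numbers) is at least `(h+1)/2 ≥ L/2`. The product is at most `exp(L/4 - 3L²/8) ≤ exp(-L²/5)`. -/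
theorem n1_small (d : ℕ) : ∀ᶠ L : ℝ in atTop, ∀ p : ℝ, 0 ≤ p → p ≤ Real.exp (-L) →
    (2 * (hL L : ℝ) + 1) ^ d * ((2 * (hL L : ℝ) + 1) ^ d * p) ^ ((hL L + 2) / 2) ≤
      Real.exp (-(L ^ 2 / 5)) := by
  filter_upwards [n1b_quart d, eventually_ge_atTop (9 : ℝ)] with L hL1 hL2 p hp0 hp
  have h1 := n1b_hL (L := L) (by linarith)
  have h0 : (0 : ℝ) ≤ hL L := Nat.cast_nonneg _
  have h00 : L ≤ hL L := Nat.le_ceil L
  have h2 : (2 * (hL L : ℝ) + 1) ^ d ≤ Real.exp (L / 4) := by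
    refine le_trans ?_ hL1
    gcongr
    linarith
  have h3 : (2 * (hL L : ℝ) + 1) ^ d * p ≤ Real.exp (-(3 * L / 4)) := by
    calc (2 * (hL L : ℝ) + 1) ^ d * p ≤ Real.exp (L / 4) * Real.exp (-L) := by gcongr
      _ = Real.exp (-(3 * L / 4)) := by
          rw [← Real.exp_add]
          congr 1
          ring
  have h4 : L / 2 ≤ ((hL L + 2) / 2 : ℕ) := by
    have h5 : hL L + 1 ≤ 2 * ((hL L + 2) / 2) := by omega
    have h6 : ((hL L + 1 : ℕ) : ℝ) ≤ ((2 * ((hL L + 2) / 2) : ℕ) : ℝ) := by exact_mod_cast h5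
    push_cast at h6
    push_cast
    linarith
  calc (2 * (hL L : ℝ) + 1) ^ d * ((2 * (hL L : ℝ) + 1) ^ d * p) ^ ((hL L + 2) / 2)
      ≤ Real.exp (L / 4) * Real.exp (-(3 * L / 4)) ^ ((hL L + 2) / 2) := by gcongr
    _ = Real.exp (L / 4) * Real.exp (((hL L + 2) / 2 : ℕ) * (-(3 * L / 4))) := by rw [Real.exp_nat_mul]
    _ = Real.exp (L / 4 + ((hL L + 2) / 2 : ℕ) * (-(3 * L / 4))) := by rw [Real.exp_add]
    _ ≤ Real.exp (-(L ^ 2 / 5)) := by
        apply Real.exp_le_exp.2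
        have h7 : L / 2 * (3 * L / 4) ≤ ((hL L + 2) / 2 : ℕ) * (3 * L / 4) :=
          mul_le_mul_of_nonneg_right h4 (by linarith)
        nlinarith

/-- [BTR-N1] PROOF. `n1_small`; `yL ≤ exp(3L) + 1`, so `(y+1)(4y+5)^(2d) ≤ exp((2d+1)(3L+3))` for large `L`. -/
theorem n1_c2 (d : ℕ) : ∀ᶠ L : ℝ in atTop, ∀ p : ℝ, 0 ≤ p → p ≤ Real.exp (-L) →
    ((yL L : ℝ) + 1) * (4 * yL L + 5) ^ (2 * d) *
      ((2 * (hL L : ℝ) + 1) ^ d * ((2 * (hL L : ℝ) + 1) ^ d * p) ^ ((hL L + 2) / 2)) ≤ 1 / 32 := by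
  filter_upwards [n1_small d, eventually_ge_atTop (13 : ℝ), eventually_ge_atTop (5 * (4 * (2 * d + 1) + 1) : ℝ)] with L hL1 hL2 hL3 p hp0 hp
  have h1 : (yL L : ℝ) ≤ Real.exp L ^ 3 + 1 := (Nat.ceil_lt_add_one (by positivity)).le
  have h0 : (0 : ℝ) ≤ yL L := Nat.cast_nonneg _
  have hE : 13 ≤ Real.exp L := by
    have := Real.add_one_le_exp L
    linarith
  have hE3 : (1 : ℝ) ≤ Real.exp L ^ 3 := one_le_pow₀ (by linarith)
  have hE4 : 13 * Real.exp L ^ 3 ≤ Real.exp L ^ 4 := by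
    calc 13 * Real.exp L ^ 3 ≤ Real.exp L * Real.exp L ^ 3 := by gcongr
      _ = Real.exp L ^ 4 := by ring
  have h2 : (yL L : ℝ) + 1 ≤ Real.exp L ^ 4 := by linarith
  have h3 : (4 : ℝ) * yL L + 5 ≤ Real.exp L ^ 4 := by linarith
  have h4 := hL1 p hp0 hp
  calc ((yL L : ℝ) + 1) * (4 * yL L + 5) ^ (2 * d) *
      ((2 * (hL L : ℝ) + 1) ^ d * ((2 * (hL L : ℝ) + 1) ^ d * p) ^ ((hL L + 2) / 2))
      ≤ (Real.exp L ^ 4) * (Real.exp L ^ 4) ^ (2 * d) * Real.exp (-(L ^ 2 / 5)) := by gcongr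
    _ = Real.exp (((4 * (2 * d + 1) : ℕ) : ℝ) * L) * Real.exp (-(L ^ 2 / 5)) := by
        rw [Real.exp_nat_mul]
        ring
    _ = Real.exp (((4 * (2 * d + 1) : ℕ) : ℝ) * L + -(L ^ 2 / 5)) := by rw [Real.exp_add]
    _ ≤ Real.exp (-L) := by
        apply Real.exp_le_exp.2
        push_cast
        nlinarith
    _ ≤ 1 / 32 := by
        have h5 : (32 : ℝ) ≤ Real.exp L := by
          have h6 : (13 : ℝ) ≤ Real.exp L := hE
          have h7 := Real.add_one_le_exp (L / 2)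
          have h8 : Real.exp L = Real.exp (L / 2) * Real.exp (L / 2) := by
            rw [← Real.exp_add]
            congr 1
            ring
          rw [h8]
          nlinarith
        rw [Real.exp_neg, inv_eq_one_div]
        exact one_div_le_one_div_of_le (by norm_num) h5

end BTR
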