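import Pool.Agent.BTR.N1b
import Pool.Agent.BTR.ND
import Pool.Agent.BTP.A1

set_option autoImplicit false

open scoped Classical
open Finset Filter

namespace BTR
open BTP

theorem n1c_alg {L E n : ℝ} (hL : 4 ≤ L) (hE : 4 * (L + 2) ≤ E) (h : E ≤ (L + 2) * (n + 1)) : E ≤ 2 * L * n := by
  by_contra hc
  rw [not_le] at hc
  have h1 : 2 * L * E ≤ (L + 2) * (2 * L * n + 2 * L) := by
    calc 2 * L * E ≤ 2 * L * ((L + 2) * (n + 1)) := by gcongr
      _ = _ := by ring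
  have h2 : (L + 2) * (2 * L * n + 2 * L) < (L + 2) * (E + 2 * L) := by
    apply mul_lt_mul_of_pos_left _ (by linarith)
    linarith
  have h3 : (L / 2) * (4 * (L + 2)) ≤ (L - 2) * E := by
    have hE0 : 0 ≤ E := by linarith
    calc (L / 2) * (4 * (L + 2)) ≤ (L / 2) * E := by gcongr
      _ ≤ (L - 2) * E := by
          apply mul_le_mul_of_nonneg_right _ hE0
          linarith
  nlinarith

/-- [BTR-N1] thin crossings. PROOF. By `n1_small` and `(4 yL + 3)^d ≤ exp(4 d L)` (`n1_par`) the base is at most `exp(4dL - L²/5) ≤ exp(-L²/6)`; the exponent `k/(h+1)` (natural numbers) is at least `exp L/(L+2) - 1 ≥ exp L/(2L)` for large `L`. -/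
theorem n1_thin (d : ℕ) : ∀ᶠ L : ℝ in atTop, ∀ p : ℝ, 0 ≤ p → p ≤ Real.exp (-L) →
    ((((4 * yL L + 3 : ℕ) : ℝ) ^ d * (2 * (hL L : ℝ) + 1) ^ d *
      ((2 * (hL L : ℝ) + 1) ^ d * p) ^ ((hL L + 2) / 2)) ^ (kL L / (hL L + 1))) ≤
      Real.exp (-(L * Real.exp L / 12)) := by
  filter_upwards [n1_small d, n1_par, eventually_ge_atTop (24 : ℝ), eventually_ge_atTop (120 * d : ℝ)] with L hL1 hpar hL2 hL3 p hp0 hp
  obtain ⟨-, -, -, -, hk1, -, -, -, hh1, -, -, hy1⟩ := hpar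
  have hs := hL1 p hp0 hp
  have hbase : ((4 * yL L + 3 : ℕ) : ℝ) ^ d * (2 * (hL L : ℝ) + 1) ^ d *
      ((2 * (hL L : ℝ) + 1) ^ d * p) ^ ((hL L + 2) / 2) ≤ Real.exp (-(L ^ 2 / 6)) := by
    calc ((4 * yL L + 3 : ℕ) : ℝ) ^ d * (2 * (hL L : ℝ) + 1) ^ d *
          ((2 * (hL L : ℝ) + 1) ^ d * p) ^ ((hL L + 2) / 2)
        = ((4 * yL L + 3 : ℕ) : ℝ) ^ d * ((2 * (hL L : ℝ) + 1) ^ d *
          ((2 * (hL L : ℝ) + 1) ^ d * p) ^ ((hL L + 2) / 2)) := by ring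
      _ ≤ (Real.exp L ^ 4) ^ d * Real.exp (-(L ^ 2 / 5)) := by gcongr
      _ = Real.exp (((4 * d : ℕ) : ℝ) * L) * Real.exp (-(L ^ 2 / 5)) := by
          rw [Real.exp_nat_mul, pow_mul]
      _ = Real.exp (((4 * d : ℕ) : ℝ) * L + -(L ^ 2 / 5)) := by rw [Real.exp_add]
      _ ≤ Real.exp (-(L ^ 2 / 6)) := by
          apply Real.exp_le_exp.2
          push_cast
          nlinarith
  have hn : Real.exp L ≤ 2 * L * ((kL L / (hL L + 1) : ℕ) : ℝ) := by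
    refine n1c_alg (by linarith) ?_ ?_
    · have h1 := Real.add_one_le_exp (L / 2)
      have h2 : Real.exp L = Real.exp (L / 2) * Real.exp (L / 2) := by
        rw [← Real.exp_add]
        congr 1
        ring
      rw [h2]
      nlinarith
    · have h1 : kL L < (hL L + 1) * (kL L / (hL L + 1) + 1) := Nat.lt_mul_div_succ _ (Nat.succ_pos _)
      have h2 : (kL L : ℝ) < ((hL L : ℝ) + 1) * (((kL L / (hL L + 1) : ℕ) : ℝ) + 1) := by exact_mod_cast h1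
      calc Real.exp L ≤ kL L := hk1
        _ ≤ ((hL L : ℝ) + 1) * (((kL L / (hL L + 1) : ℕ) : ℝ) + 1) := h2.le
        _ ≤ (L + 2) * (((kL L / (hL L + 1) : ℕ) : ℝ) + 1) := by
            apply mul_le_mul_of_nonneg_right _ (by positivity)
            linarith
  have hb0 : 0 ≤ ((4 * yL L + 3 : ℕ) : ℝ) ^ d * (2 * (hL L : ℝ) + 1) ^ d *
      ((2 * (hL L : ℝ) + 1) ^ d * p) ^ ((hL L + 2) / 2) := by positivity
  calc (((4 * yL L + 3 : ℕ) : ℝ) ^ d * (2 * (hL L : ℝ) + 1) ^ d *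
      ((2 * (hL L : ℝ) + 1) ^ d * p) ^ ((hL L + 2) / 2)) ^ (kL L / (hL L + 1))
      ≤ Real.exp (-(L ^ 2 / 6)) ^ (kL L / (hL L + 1)) := pow_le_pow_left₀ hb0 hbase _
    _ = Real.exp (((kL L / (hL L + 1) : ℕ) : ℝ) * (-(L ^ 2 / 6))) := by rw [Real.exp_nat_mul]
    _ ≤ Real.exp (-(L * Real.exp L / 12)) := by
        apply Real.exp_le_exp.2
        have h3 : L / 12 * Real.exp L ≤ L / 12 * (2 * L * ((kL L / (hL L + 1) : ℕ) : ℝ)) := by gcongr
        nlinarith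

end BTR
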