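import Pool.Agent.BTR.N1a
import Pool.Agent.BTR.ND
import Pool.Agent.BTP.A1

set_option autoImplicit false

open scoped Classical
open Finset Filter

namespace BTR
open BTP

/-- [BTR-N1] the numerical condition of level `0`. PROOF. `m ≤ 4 exp(x₀) + 3 ≤ 7 exp(x₀)`, `x₀ = lm e^L - (C+1) e^(L/2) ≥ 0` for large `L`; `k ≤ 2 e^L`. The first term is at most `7^D 2^l d exp(D lm e^L + l L - L e^L/12) ≤ 1/8`,
the second `7^D 2^l 2^d exp(D lm e^L - D (C+1) e^(L/2) + l L - D e^L lm + C e^(L/2)) ≤ 7^D 2^(l+d) exp(l L - e^(L/2)) ≤ 1/8` (`D ≥ 1`). -/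
theorem n1_level0 {D l : ℕ} (hD : 1 ≤ D) {lm C : ℝ} (hlm : 0 < lm) (hC : 0 < C) :
    ∀ᶠ L : ℝ in atTop,
    (((4 * YL lm (C + 1) L 0 + 3 : ℕ) : ℝ) ^ D * (kL L : ℝ) ^ l) *
      ((D + l : ℕ) * Real.exp (-(L * Real.exp L / 12)) +
        2 ^ (D + l) * Real.exp (-(D * Real.exp L * lm) + C * Real.exp (L / 2))) ≤ 1 / 4 := by
  set K1 : ℝ := 7 ^ D * 2 ^ l * ((D + l : ℕ) : ℝ) with hK1
  set K2 : ℝ := 7 ^ D * 2 ^ l * 2 ^ (D + l) with hK2
  have hK10 : 0 ≤ K1 := by positivity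
  have hK20 : 0 ≤ K2 := by positivity
  have hD1 : (1 : ℝ) ≤ (D : ℝ) := by exact_mod_cast hD
  filter_upwards [ev_exp ((l : ℝ) + 1) 1, ev_le (8 * K1), ev_le (8 * K2), ev_le 1,
    ev_le (12 * (D * lm + 1)), ev_le (2 * ((C + 1) / lm)), n1_par] with L h1 h2 h3 h4 h5 h6 hpar
  have hk : (kL L : ℝ) ≤ 2 * Real.exp L := hpar.2.2.2.2.2.1
  set x : ℝ := lm * Real.exp L - (C + 1) * Real.exp (L / 2) with hx
  have hxL : xL lm (C + 1) L 0 = x := by
    unfold xL
    rw [hx]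
    push_cast
    ring
  have hE : Real.exp L = Real.exp (L / 2) * Real.exp (L / 2) := by
    rw [← Real.exp_add]
    congr 1
    ring
  have hx0 : 0 ≤ x := by
    have h7 : (C + 1) / lm ≤ Real.exp (L / 2) := by
      have := Real.add_one_le_exp (L / 2)
      linarith
    rw [div_le_iff₀ hlm] at h7
    have h8 : (C + 1) * Real.exp (L / 2) ≤ Real.exp (L / 2) * lm * Real.exp (L / 2) :=
      mul_le_mul_of_nonneg_right h7 (Real.exp_pos _).le
    rw [hx, hE]
    linarith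
  have hY : (YL lm (C + 1) L 0 : ℝ) ≤ Real.exp x := by
    unfold YL
    rw [hxL]
    exact Nat.floor_le (Real.exp_pos _).le
  have hm : ((4 * YL lm (C + 1) L 0 + 3 : ℕ) : ℝ) ≤ 7 * Real.exp x := by
    push_cast
    have h7 : 1 ≤ Real.exp x := Real.one_le_exp hx0
    linarith
  have hmD : ((4 * YL lm (C + 1) L 0 + 3 : ℕ) : ℝ) ^ D ≤ 7 ^ D * Real.exp (D * x) := by
    calc ((4 * YL lm (C + 1) L 0 + 3 : ℕ) : ℝ) ^ D ≤ (7 * Real.exp x) ^ D :=
          pow_le_pow_left₀ (Nat.cast_nonneg _) hm D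
      _ = 7 ^ D * Real.exp (D * x) := by rw [mul_pow, Real.exp_nat_mul]
  have hkl : (kL L : ℝ) ^ l ≤ 2 ^ l * Real.exp (l * L) := by
    calc (kL L : ℝ) ^ l ≤ (2 * Real.exp L) ^ l := pow_le_pow_left₀ (Nat.cast_nonneg _) hk l
      _ = 2 ^ l * Real.exp (l * L) := by rw [mul_pow, Real.exp_nat_mul]
  have hpre : ((4 * YL lm (C + 1) L 0 + 3 : ℕ) : ℝ) ^ D * (kL L : ℝ) ^ l ≤
      7 ^ D * 2 ^ l * Real.exp (D * x + l * L) := by
    calc ((4 * YL lm (C + 1) L 0 + 3 : ℕ) : ℝ) ^ D * (kL L : ℝ) ^ l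
        ≤ (7 ^ D * Real.exp (D * x)) * (2 ^ l * Real.exp (l * L)) :=
          mul_le_mul hmD hkl (by positivity) (by positivity)
      _ = 7 ^ D * 2 ^ l * Real.exp (D * x + l * L) := by rw [Real.exp_add]; ring
  -- the two exponents
  have hlL : ((l : ℝ) + 1) * L ≤ Real.exp (L / 4) := by
    rw [pow_one] at h1
    exact h1
  have he1 : Real.exp (L / 4) ≤ Real.exp (L / 2) := Real.exp_le_exp.mpr (by linarith)
  have he2 : Real.exp (L / 4) ≤ Real.exp L := Real.exp_le_exp.mpr (by linarith)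
  have hexp1 : D * x + l * L + -(L * Real.exp L / 12) ≤ -L := by
    have h7 : x ≤ lm * Real.exp L := by
      have : 0 ≤ (C + 1) * Real.exp (L / 2) := by positivity
      linarith
    have h8 : (D : ℝ) * x ≤ D * (lm * Real.exp L) := mul_le_mul_of_nonneg_left h7 (by linarith)
    have h9 : (D * lm + 1) * Real.exp L ≤ L / 12 * Real.exp L :=
      mul_le_mul_of_nonneg_right (by linarith) (Real.exp_pos _).le
    linarith
  have hexp2 : D * x + l * L + (-(D * Real.exp L * lm) + C * Real.exp (L / 2)) ≤ -L := by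
    have h7 : (D : ℝ) * x = D * Real.exp L * lm - D * ((C + 1) * Real.exp (L / 2)) := by
      rw [hx]
      ring
    have h8 : (C + 1) * Real.exp (L / 2) ≤ D * ((C + 1) * Real.exp (L / 2)) :=
      le_mul_of_one_le_left (by positivity) hD1
    rw [h7]
    linarith
  have hLe : L ≤ Real.exp L := by
    have := Real.add_one_le_exp L
    linarith
  have hneg : Real.exp (-L) * Real.exp L = 1 := by
    rw [← Real.exp_add, neg_add_cancel, Real.exp_zero]
  have hA : K1 * Real.exp (-L) ≤ 1 / 8 := by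
    have h7 : 8 * K1 * Real.exp (-L) ≤ Real.exp L * Real.exp (-L) :=
      mul_le_mul_of_nonneg_right (by linarith) (Real.exp_pos _).le
    rw [mul_comm (Real.exp L), hneg] at h7
    linarith
  have hB : K2 * Real.exp (-L) ≤ 1 / 8 := by
    have h7 : 8 * K2 * Real.exp (-L) ≤ Real.exp L * Real.exp (-L) :=
      mul_le_mul_of_nonneg_right (by linarith) (Real.exp_pos _).le
    rw [mul_comm (Real.exp L), hneg] at h7
    linarith
  have hsum0 : 0 ≤ ((D + l : ℕ) : ℝ) * Real.exp (-(L * Real.exp L / 12)) +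
        2 ^ (D + l) * Real.exp (-(D * Real.exp L * lm) + C * Real.exp (L / 2)) := by positivity
  calc (((4 * YL lm (C + 1) L 0 + 3 : ℕ) : ℝ) ^ D * (kL L : ℝ) ^ l) *
      ((D + l : ℕ) * Real.exp (-(L * Real.exp L / 12)) +
        2 ^ (D + l) * Real.exp (-(D * Real.exp L * lm) + C * Real.exp (L / 2)))
      ≤ (7 ^ D * 2 ^ l * Real.exp (D * x + l * L)) *
      ((D + l : ℕ) * Real.exp (-(L * Real.exp L / 12)) +
        2 ^ (D + l) * Real.exp (-(D * Real.exp L * lm) + C * Real.exp (L / 2))) :=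
        mul_le_mul_of_nonneg_right hpre hsum0
    _ = K1 * Real.exp (D * x + l * L + -(L * Real.exp L / 12)) +
        K2 * Real.exp (D * x + l * L + (-(D * Real.exp L * lm) + C * Real.exp (L / 2))) := by
        rw [Real.exp_add (D * x + l * L) (-(L * Real.exp L / 12)),
          Real.exp_add (D * x + l * L) (-(D * Real.exp L * lm) + C * Real.exp (L / 2)), hK1, hK2]
        ring
    _ ≤ K1 * Real.exp (-L) + K2 * Real.exp (-L) :=
        add_le_add (mul_le_mul_of_nonneg_left (Real.exp_le_exp.mpr hexp1) hK10)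
          (mul_le_mul_of_nonneg_left (Real.exp_le_exp.mpr hexp2) hK20)
    _ ≤ 1 / 4 := by linarith

end BTR
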