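import Pool.Agent.BTR.N2a
import Pool.Agent.BTR.ND
import Pool.Agent.BTP.A1

set_option autoImplicit false

open scoped Classical
open Finset Filter

namespace BTR
open BTP

theorem n2b_aux (d : ℕ) (C : ℝ) (hC : 0 ≤ C) : ∀ᶠ s : ℝ in atTop,
    6 * d * (3 + s) * ((d + 2) * (3 + s) + C) ≤ Real.exp (2 * s / 3) := by
  have h1 : Tendsto (fun s : ℝ => 2 * s / 3) atTop atTop := by
    have : Tendsto (fun s : ℝ => (2 / 3) * s) atTop atTop :=
      tendsto_id.const_mul_atTop (by norm_num)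
    refine this.congr (fun s => by ring)
  have h2 := (Real.tendsto_exp_div_pow_atTop 2).comp h1
  have h3 := h2.eventually_ge_atTop (24 * d * (4 * (d + 2) + C) * (9 / 4))
  filter_upwards [h3, eventually_ge_atTop (1 : ℝ)] with s hs hs1
  simp only [Function.comp_apply] at hs
  have hpos : 0 < (2 * s / 3) ^ 2 := by positivity
  rw [le_div_iff₀ hpos] at hs
  have hd : (0 : ℝ) ≤ d := Nat.cast_nonneg d
  calc 6 * d * (3 + s) * ((d + 2) * (3 + s) + C)
      ≤ 6 * d * (4 * s) * ((d + 2) * (4 * s) + C * s) := by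
        have a1 : 3 + s ≤ 4 * s := by linarith
        have a2 : C ≤ C * s := by nlinarith
        gcongr
    _ = 24 * d * (4 * (d + 2) + C) * (9 / 4) * (2 * s / 3) ^ 2 := by ring
    _ ≤ _ := hs

/-- [BTR-N2] the tail condition. PROOF. Let `w = log(4y+5)`. `e^(3L) ≤ y`, `k ≤ 2 e^L ≤ 2 y^(1/3)`; `Kf_le`: `b = Kf ≤ 6 d y^(1/3) w` (`4y + 3 ≥ 8`), and `x = y^(2/3)/(6 d w)` satisfies `x b ≤ y`. `quarter_pow`: the quantity is at most `16 d exp((d+2) w - y^(2/3)/(6 d w)) ≤ 1/32` once `y ≥ y₁(d)`: `y^(2/3)` against `w² = log(4y+5)²` (`isLittleO`: powers of the logarithm; if real powers are unpleasant use `z = y^(1/3)` i.e. `y ≥ z³`, `e^L ≤ z`). `yL L → ∞`. (`d = 0`: `0 ≤ 1/32`; assume `1 ≤ d`.) -/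
theorem n2_c3 {d : ℕ} (hd : 1 ≤ d) : ∀ᶠ L : ℝ in atTop, ∀ y : ℕ, yL L ≤ y →
    ((y : ℝ) + 1) * (4 * y + 5) ^ d *
      (d * (4 * y + 5) * (1 / 4 : ℝ) ^ (y / Kf d (kL L) (4 * y + 3) - 1)) ≤ 1 / 32 := by
  have hd0 : (1 : ℝ) ≤ d := by exact_mod_cast hd
  have hC : 0 ≤ Real.log (512 * d) := Real.log_nonneg (by linarith)
  obtain ⟨s0, hs0⟩ := eventually_atTop.mp (n2b_aux d (Real.log (512 * d)) hC)
  filter_upwards [eventually_ge_atTop (max s0 2)] with L hL y hy
  have hL0 : s0 ≤ L := le_trans (le_max_left _ _) hL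
  have hL2 : 2 ≤ L := le_trans (le_max_right _ _) hL
  have hz1 : 1 ≤ Real.exp L := by
    have := Real.add_one_le_exp L
    linarith
  have hz0 : 0 < Real.exp L := Real.exp_pos L
  have hyz : Real.exp L ^ 3 ≤ y := by
    have h1 : Real.exp L ^ 3 ≤ (yL L : ℝ) := Nat.le_ceil _
    have h2 : (yL L : ℝ) ≤ y := by exact_mod_cast hy
    linarith
  have hz3 : 3 ≤ Real.exp L := by
    have := Real.add_one_le_exp L
    linarith
  have hy27 : (27 : ℝ) ≤ y := by
    have : (3 : ℝ) ^ 3 ≤ Real.exp L ^ 3 := by gcongr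
    linarith
  have hy0 : (0 : ℝ) < y := by linarith
  have hlogy : 3 * L ≤ Real.log y := by
    rw [Real.le_log_iff_exp_le hy0]
    have : Real.exp (3 * L) = Real.exp L ^ 3 := by
      rw [← Real.exp_nat_mul]; norm_num
    rw [this]; exact hyz
  have hmain := hs0 (Real.log y) (by linarith)
  set w := Real.log (4 * (y : ℝ) + 5) with hw
  set C := Real.log (512 * (d : ℝ)) with hCdef
  have hw0 : 0 ≤ w := Real.log_nonneg (by linarith)
  have hw3 : w ≤ 3 + Real.log y := by
    have h1 : 4 * (y : ℝ) + 5 ≤ Real.exp 3 * y := by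
      have h2 : (8 : ℝ) ≤ Real.exp 3 := by
        have h3 : (2 : ℝ) ≤ Real.exp 1 := by
          have := Real.add_one_le_exp 1
          linarith
        calc (8 : ℝ) = 2 ^ 3 := by norm_num
          _ ≤ Real.exp 1 ^ 3 := by gcongr
          _ = Real.exp 3 := by rw [← Real.exp_nat_mul]; norm_num
      nlinarith
    calc w ≤ Real.log (Real.exp 3 * y) := Real.log_le_log (by linarith) h1
      _ = 3 + Real.log y := by
        rw [Real.log_mul (Real.exp_pos 3).ne' hy0.ne', Real.log_exp]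
  -- the thickness
  set b := Kf d (kL L) (4 * y + 3) with hb
  have hkpos : 0 < kL L := Nat.ceil_pos.mpr hz0
  have hbpos : 0 < b := by
    rw [hb]; unfold Kf
    exact Nat.mul_pos (Nat.mul_pos (by omega) (Nat.succ_pos _)) hkpos
  have hk2 : (kL L : ℝ) ≤ 2 * Real.exp L := by
    have h1 : (kL L : ℝ) < Real.exp L + 1 := Nat.ceil_lt_add_one hz0.le
    linarith
  have hy27n : 27 ≤ y := by exact_mod_cast hy27
  have hbw : (b : ℝ) ≤ 6 * d * Real.exp L * w := by
    have h1 : (b : ℝ) ≤ 3 * d * (kL L) * Real.log ((4 * y + 3 : ℕ) : ℝ) :=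
      Kf_le (by omega)
    have h2 : Real.log ((4 * y + 3 : ℕ) : ℝ) ≤ w := by
      apply Real.log_le_log
      · push_cast; linarith
      · push_cast; linarith
    calc (b : ℝ) ≤ 3 * d * (kL L) * Real.log ((4 * y + 3 : ℕ) : ℝ) := h1
      _ ≤ 3 * d * (2 * Real.exp L) * w := by gcongr
      _ = _ := by ring
  have hxb : ((d + 2) * w + C) * b ≤ y := by
    have hx0 : 0 ≤ (d + 2) * w + C := by positivity
    calc ((d + 2) * w + C) * b ≤ ((d + 2) * w + C) * (6 * d * Real.exp L * w) :=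
          mul_le_mul_of_nonneg_left hbw hx0
      _ = Real.exp L * (6 * d * w * ((d + 2) * w + C)) := by ring
      _ ≤ Real.exp L * (6 * d * (3 + Real.log y) * ((d + 2) * (3 + Real.log y) + C)) := by
          gcongr
      _ ≤ Real.exp L * Real.exp (2 * Real.log y / 3) := by gcongr
      _ ≤ Real.exp (Real.log y / 3) * Real.exp (2 * Real.log y / 3) := by
          gcongr
          linarith
      _ = y := by
          rw [← Real.exp_add, show Real.log (y : ℝ) / 3 + 2 * Real.log y / 3 = Real.log y by ring,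
            Real.exp_log hy0]
  have hq := quarter_pow hbpos hxb
  have hexp : Real.exp (-((d + 2) * w + C)) = 1 / ((4 * (y : ℝ) + 5) ^ (d + 2) * (512 * d)) := by
    rw [Real.exp_neg, Real.exp_add, hCdef, Real.exp_log (by positivity)]
    have : Real.exp ((d + 2) * w) = (4 * (y : ℝ) + 5) ^ (d + 2) := by
      rw [hw, show ((d : ℝ) + 2) = ((d + 2 : ℕ) : ℝ) by push_cast; ring, Real.exp_nat_mul,
        Real.exp_log (by positivity)]
    rw [this, one_div]
  rw [hexp] at hq
  have ht : (0 : ℝ) < 4 * y + 5 := by linarith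
  calc ((y : ℝ) + 1) * (4 * y + 5) ^ d * (d * (4 * y + 5) * (1 / 4 : ℝ) ^ (y / b - 1))
      ≤ (4 * (y : ℝ) + 5) * (4 * y + 5) ^ d * (d * (4 * y + 5) *
          (16 * (1 / ((4 * (y : ℝ) + 5) ^ (d + 2) * (512 * d))))) := by
        gcongr
        all_goals linarith
    _ = 1 / 32 := by
        rw [pow_add]
        field_simp
        norm_num

end BTR
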