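import Pool.Agent.BTR.N3a
import Pool.Agent.BTR.N2

set_option autoImplicit false

open scoped Classical
open Finset Filter

namespace BTR
open BTP

theorem n3b_succ (lm C L : ℝ) (s : ℕ) : xL lm C L (s + 1) = xL lm C L s - 3 * L := by
  unfold xL
  push_cast
  ring

/-- [BTR-N3] the loss of `3L` from one level to the next is enough. Write `x = x_s`, `x_(s+1) = x - 3L`.
PROOF. `s = 0`: `K e^L x exp(x - 3L) ≤ exp x` iff `K e^L x ≤ e^(3L)`; `x ≤ lm e^L`. `s ≥ 1`: `z = exp^[s] x ≥ exp(x) ≥ e^L` (`n3_x`, `n3_le_iter`), `z' = exp^[s] (x - 3L) ≤ z/2` (`n3_half`); `K e^L z exp z' ≤ K z² exp(z/2) ≤ exp z` for `z` large (`z → ∞` as `z ≥ x ≥ L`). -/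
theorem n3_key {lm C : ℝ} (hlm : 0 < lm) (hC : 0 ≤ C) {K : ℝ} (hK : 0 ≤ K) (s : ℕ) :
    ∀ᶠ L : ℝ in atTop, K * Real.exp L * Real.exp^[s] (xL lm C L s) *
      Real.exp^[s + 1] (xL lm C L (s + 1)) ≤ Real.exp^[s + 1] (xL lm C L s) := by
  cases s with
  | zero =>
    filter_upwards [Real.tendsto_exp_atTop.eventually_ge_atTop (K * lm)] with L hL
    show K * Real.exp L * xL lm C L 0 * Real.exp (xL lm C L (0 + 1)) ≤ Real.exp (xL lm C L 0)
    rw [n3b_succ]
    have hx : xL lm C L 0 ≤ lm * Real.exp L := by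
      unfold xL
      have := mul_nonneg hC (Real.exp_pos (L / 2)).le
      push_cast
      linarith
    generalize xL lm C L 0 = x at hx ⊢
    have h1 : Real.exp x = Real.exp (x - 3 * L) * (Real.exp L * Real.exp L * Real.exp L) := by
      rw [← Real.exp_add, ← Real.exp_add, ← Real.exp_add]
      congr 1
      ring
    rw [h1]
    have hE := Real.exp_pos L
    generalize Real.exp L = E at hL hx hE
    have h2 : K * E * x ≤ K * E * (lm * E) := mul_le_mul_of_nonneg_left hx (by positivity)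
    have h3 : K * E * (lm * E) ≤ E * E * E := by
      have := mul_le_mul_of_nonneg_right hL (show 0 ≤ E * E by positivity)
      nlinarith
    calc K * E * x * Real.exp (x - 3 * L) ≤ E * E * E * Real.exp (x - 3 * L) :=
          mul_le_mul_of_nonneg_right (le_trans h2 h3) (Real.exp_pos _).le
      _ = _ := by ring
  | succ n =>
    filter_upwards [n3_x (C := C) hlm 4 (n + 1), eventually_ge_atTop (1 : ℝ), eventually_ge_atTop (48 * K)] with L hx hL hLK
    rw [n3b_succ lm C L (n + 1)]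
    generalize xL lm C L (n + 1) = x at hx ⊢
    have hhalf := n3_half n hL (show 1 ≤ x - 3 * L by linarith)
    rw [Function.iterate_succ_apply' Real.exp (n + 1), Function.iterate_succ_apply' Real.exp (n + 1)]
    have hzL : Real.exp L ≤ Real.exp^[n + 1] x := by
      rw [Function.iterate_succ_apply']
      exact Real.exp_le_exp.2 (le_trans (by linarith) (n3_le_iter n x))
    have hzx : x ≤ Real.exp^[n + 1] x := n3_le_iter (n + 1) x
    generalize Real.exp^[n + 1] x = z at hhalf hzL hzx ⊢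
    generalize Real.exp^[n + 1] (x - 3 * L) = z' at hhalf ⊢
    have hz0 : 0 ≤ z := by linarith
    have hE := Real.exp_pos L
    have h1 : Real.exp z' ≤ Real.exp (z / 2) := Real.exp_le_exp.2 hhalf
    have h2 : Real.exp z = Real.exp (z / 2) * Real.exp (z / 2) := by
      rw [← Real.exp_add]
      congr 1
      ring
    have h3 : K * z * z ≤ Real.exp (z / 2) := by
      have h4 := Real.pow_div_factorial_le_exp (z / 2) (by linarith) 3
      have h5 : ((Nat.factorial 3 : ℕ) : ℝ) = 6 := by norm_num [Nat.factorial]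
      rw [h5] at h4
      refine le_trans ?_ h4
      have h6 : 48 * K ≤ z := by linarith
      have h7 : 48 * K * (z * z) ≤ z * (z * z) := mul_le_mul_of_nonneg_right h6 (by positivity)
      nlinarith
    calc K * Real.exp L * z * Real.exp z' ≤ K * z * z * Real.exp (z / 2) := by
          refine mul_le_mul ?_ h1 (Real.exp_pos _).le (by positivity)
          exact mul_le_mul_of_nonneg_right (mul_le_mul_of_nonneg_left hzL hK) hz0
      _ ≤ Real.exp (z / 2) * Real.exp (z / 2) := mul_le_mul_of_nonneg_right h3 (Real.exp_pos _).le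
      _ = Real.exp z := h2.symm

/-- [BTR-N3] `exp^[s] (x_s) ≤ exp^[s+1] (x_(s+1))` eventually. PROOF. `x_s ≤ exp(x_s - 3L)`: as `x_s ≥ 6 L` (`n3_x`), `exp(x_s - 3L) ≥ exp(x_s/2) ≥ x_s`-like for large `x_s`. Then `n3_iter_mono`, `Function.iterate_succ_apply`. -/
theorem n3_next {lm C : ℝ} (hlm : 0 < lm) (s : ℕ) :
    ∀ᶠ L : ℝ in atTop, Real.exp^[s] (xL lm C L s) ≤ Real.exp^[s + 1] (xL lm C L (s + 1)) := by
  filter_upwards [n3_x (C := C) hlm 6 s, eventually_ge_atTop (0 : ℝ)] with L hx hL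
  rw [n3b_succ lm C L s, Function.iterate_succ_apply]
  generalize xL lm C L s = x at hx ⊢
  refine n3_iter_mono s ?_
  have h1 : Real.exp (x / 2) ≤ Real.exp (x - 3 * L) := Real.exp_le_exp.2 (by linarith)
  have h2 := Real.quadratic_le_exp_of_nonneg (show 0 ≤ x / 2 by linarith)
  nlinarith [sq_nonneg (x / 2 - 1)]

/-- [BTR-N3] the scales are large: `yL L ≤ YL s`. PROOF. `Nat.le_floor`; `yL ≤ exp(3L) + 1 ≤ exp(4L) ≤ exp(x_s) ≤ exp^[s+1] x_s`. -/
theorem n3_Y {lm C : ℝ} (hlm : 0 < lm) (s : ℕ) : ∀ᶠ L : ℝ in atTop, yL L ≤ YL lm C L s := by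
  filter_upwards [n3_x (C := C) hlm 4 s, eventually_ge_atTop (1 : ℝ)] with L hx hL
  unfold yL YL
  refine Nat.le_floor ?_
  have hE := Real.exp_pos L
  have h1 : ((⌈Real.exp L ^ 3⌉₊ : ℕ) : ℝ) < Real.exp L ^ 3 + 1 := Nat.ceil_lt_add_one (by positivity)
  have h2 : Real.exp (4 * L) = Real.exp L ^ 3 * Real.exp L := by
    rw [← Real.exp_nat_mul, ← Real.exp_add]
    congr 1
    push_cast
    ring
  have h3 : 2 ≤ Real.exp L := by
    have := Real.add_one_le_exp L
    linarith
  have h4 : 1 ≤ Real.exp L ^ 3 := one_le_pow₀ (by linarith)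
  have h5 : Real.exp (4 * L) ≤ Real.exp (xL lm C L s) := Real.exp_le_exp.2 hx
  have h6 : Real.exp (xL lm C L s) ≤ Real.exp^[s + 1] (xL lm C L s) := by
    rw [Function.iterate_succ_apply]
    exact n3_le_iter s _
  have h7 : Real.exp L ^ 3 + 1 ≤ Real.exp (4 * L) := by
    rw [h2]
    nlinarith
  linarith

end BTR
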