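import Pool.Agent.BTR.N3b
import Pool.Agent.BTR.N2

set_option autoImplicit false

open scoped Classical
open Finset Filter

namespace BTR
open BTP

/-- [BTR-N3] the condition `c4` at level `s`. PROOF. Let `v = exp^[s] x_s`, `E = exp v = exp^[s+1] x_s`, `Y = ⌊E⌋`, `u = exp^[s+1] x_(s+1)`, so `Y' := YL (s+1) = ⌊exp u⌋`; `v ≤ u` (`n3_next`), `v → ∞` (`v ≥ x_s ≥ L`).
`m = 4Y' + 3`: `(m+1)(4m+5)^(2d) ≤ (4m+5)^(2d+1) ≤ exp((2d+1)(u+4))` (`4m + 5 ≤ 16 e^u + 17 ≤ 33 e^u ≤ e^(u+4)`). `d (4Y+5) ≤ 9 d e^v`.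
`b = Kf d k (4Y+3) ≤ 3 d k log(4Y+3) ≤ 3 d (2 e^L) (v + 2) ≤ 12 d e^L v`; `x = E/(24 d e^L v)` satisfies `x b ≤ E/2 ≤ Y`. `quarter_pow`: the quantity is at most `exp((2d+1)(u+4)) 9 d e^v 16 exp(-x)`, and `x ≥ (2d + 10) u` by `n3_key` with `K = 24 d (2d+10)`.
So it is at most `144 d exp((2d+1)(u+4) + u - (2d+10) u) = 144 d exp(8d + 4 - 8u) ≤ 1/32` for large `u`. -/
theorem n3_c4 {d : ℕ} (hd : 1 ≤ d) {lm C : ℝ} (hlm : 0 < lm) (hC : 0 ≤ C) (s : ℕ) :
    ∀ᶠ L : ℝ in atTop, (((4 * YL lm C L (s + 1) + 3 : ℕ) : ℝ) + 1) *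
      (4 * ((4 * YL lm C L (s + 1) + 3 : ℕ) : ℝ) + 5) ^ (2 * d) *
      (d * (4 * (YL lm C L s : ℝ) + 5) *
        (1 / 4 : ℝ) ^ (YL lm C L s / Kf d (kL L) (4 * YL lm C L s + 3) - 1)) ≤ 1 / 32 := by
  have hd0 : (1 : ℝ) ≤ d := by exact_mod_cast hd
  have hK : (0 : ℝ) ≤ 24 * d * (2 * d + 10) := by positivity
  filter_upwards [n3_key hlm hC hK s, n3_next (C := C) hlm s, n3_x (C := C) hlm 1 s,
    eventually_ge_atTop (max 2 (8 * d + 4 + Real.log (4608 * d)))] with L hkey hnext hx hL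
  have hL2 : 2 ≤ L := le_trans (le_max_left _ _) hL
  have hLC : 8 * d + 4 + Real.log (4608 * d) ≤ L := le_trans (le_max_right _ _) hL
  set v := Real.exp^[s] (xL lm C L s) with hv
  set u := Real.exp^[s + 1] (xL lm C L (s + 1)) with hu
  have hY : YL lm C L s = ⌊Real.exp v⌋₊ := by
    unfold YL
    rw [Function.iterate_succ_apply']
  have hY' : YL lm C L (s + 1) = ⌊Real.exp u⌋₊ := by
    unfold YL
    rw [Function.iterate_succ_apply']
  have hE : Real.exp^[s + 1] (xL lm C L s) = Real.exp v := by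
    rw [Function.iterate_succ_apply']
  rw [hE] at hkey
  have hvL : L ≤ v := by
    have h1 := n3_le_iter s (xL lm C L s)
    linarith
  have huv : v ≤ u := hnext
  have hv2 : 2 ≤ v := by linarith
  have hu2 : 2 ≤ u := by linarith
  rw [hY, hY']
  set Y := ⌊Real.exp v⌋₊ with hYd
  set Y' := ⌊Real.exp u⌋₊ with hYd'
  have e1 : (2.7 : ℝ) ≤ Real.exp 1 := by
    have := Real.exp_one_gt_d9
    linarith
  have e2 : (7 : ℝ) ≤ Real.exp 2 := by
    calc (7 : ℝ) ≤ 2.7 ^ 2 := by norm_num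
      _ ≤ Real.exp 1 ^ 2 := by gcongr
      _ = Real.exp 2 := by rw [← Real.exp_nat_mul]; norm_num
  have e4 : (33 : ℝ) ≤ Real.exp 4 := by
    calc (33 : ℝ) ≤ 2.7 ^ 4 := by norm_num
      _ ≤ Real.exp 1 ^ 4 := by gcongr
      _ = Real.exp 4 := by rw [← Real.exp_nat_mul]; norm_num
  have hEv7 : 7 ≤ Real.exp v := le_trans e2 (Real.exp_le_exp.mpr hv2)
  have hEu7 : 7 ≤ Real.exp u := le_trans e2 (Real.exp_le_exp.mpr hu2)
  have hYle : (Y : ℝ) ≤ Real.exp v := Nat.floor_le (Real.exp_pos v).le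
  have hY'le : (Y' : ℝ) ≤ Real.exp u := Nat.floor_le (Real.exp_pos u).le
  have hYge : Real.exp v / 2 ≤ Y := by
    have : Real.exp v < (Y : ℝ) + 1 := Nat.lt_floor_add_one _
    linarith
  have hY3 : (3 : ℝ) ≤ Y := by linarith
  have hY3n : 3 ≤ Y := by exact_mod_cast hY3
  -- first factor
  have hY0 : (0 : ℝ) ≤ Y := Nat.cast_nonneg _
  have hY0' : (0 : ℝ) ≤ Y' := Nat.cast_nonneg _
  have hm5 : 4 * ((4 * Y' + 3 : ℕ) : ℝ) + 5 ≤ Real.exp (u + 4) := by
    rw [Real.exp_add]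
    push_cast
    nlinarith
  have hfirst : (((4 * Y' + 3 : ℕ) : ℝ) + 1) * (4 * ((4 * Y' + 3 : ℕ) : ℝ) + 5) ^ (2 * d) ≤
      Real.exp ((2 * d + 1) * (u + 4)) := by
    calc (((4 * Y' + 3 : ℕ) : ℝ) + 1) * (4 * ((4 * Y' + 3 : ℕ) : ℝ) + 5) ^ (2 * d)
        ≤ Real.exp (u + 4) * Real.exp (u + 4) ^ (2 * d) := by
          have : ((4 * Y' + 3 : ℕ) : ℝ) + 1 ≤ Real.exp (u + 4) := by
            refine le_trans ?_ hm5
            push_cast
            linarith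
          gcongr
      _ = Real.exp ((2 * d + 1) * (u + 4)) := by
          rw [← Real.exp_nat_mul, ← Real.exp_add]
          congr 1
          push_cast
          ring
  have hsecond : d * (4 * (Y : ℝ) + 5) ≤ 9 * d * Real.exp v := by
    have : 4 * (Y : ℝ) + 5 ≤ 9 * Real.exp v := by linarith
    calc d * (4 * (Y : ℝ) + 5) ≤ d * (9 * Real.exp v) := by gcongr
      _ = _ := by ring
  -- thickness
  set b := Kf d (kL L) (4 * Y + 3) with hb
  have hz0 : 0 < Real.exp L := Real.exp_pos L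
  have hz1 : 1 ≤ Real.exp L := by
    have := Real.add_one_le_exp L
    linarith
  have hkpos : 0 < kL L := Nat.ceil_pos.mpr hz0
  have hbpos : 0 < b := by
    rw [hb]; unfold Kf
    exact Nat.mul_pos (Nat.mul_pos (by omega) (Nat.succ_pos _)) hkpos
  have hk2 : (kL L : ℝ) ≤ 2 * Real.exp L := by
    have h1 : (kL L : ℝ) < Real.exp L + 1 := Nat.ceil_lt_add_one hz0.le
    linarith
  have hbw : (b : ℝ) ≤ 12 * d * Real.exp L * v := by
    have h1 : (b : ℝ) ≤ 3 * d * (kL L) * Real.log ((4 * Y + 3 : ℕ) : ℝ) :=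
      Kf_le (by omega)
    have h2 : Real.log ((4 * Y + 3 : ℕ) : ℝ) ≤ 2 * v := by
      have h3 : ((4 * Y + 3 : ℕ) : ℝ) ≤ Real.exp (v + 2) := by
        rw [Real.exp_add]
        push_cast
        nlinarith
      have h4 : (0 : ℝ) < ((4 * Y + 3 : ℕ) : ℝ) := by positivity
      have h5 := Real.log_le_log h4 h3
      rw [Real.log_exp] at h5
      linarith
    have h3 : 0 ≤ Real.log ((4 * Y + 3 : ℕ) : ℝ) := Real.log_natCast_nonneg _
    calc (b : ℝ) ≤ 3 * d * (kL L) * Real.log ((4 * Y + 3 : ℕ) : ℝ) := h1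
      _ ≤ 3 * d * (2 * Real.exp L) * (2 * v) := by gcongr
      _ = _ := by ring
  have hxb : ((2 * d + 10) * u) * b ≤ Y := by
    have hx0 : 0 ≤ (2 * d + 10) * u := by positivity
    calc ((2 * d + 10) * u) * b ≤ ((2 * d + 10) * u) * (12 * d * Real.exp L * v) :=
          mul_le_mul_of_nonneg_left hbw hx0
      _ = (24 * d * (2 * d + 10) * Real.exp L * v * u) / 2 := by ring
      _ ≤ Real.exp v / 2 := by linarith
      _ ≤ Y := hYge
  have hq := quarter_pow hbpos hxb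
  have hq0 : (0 : ℝ) ≤ (1 / 4 : ℝ) ^ (Y / b - 1) := by positivity
  calc (((4 * Y' + 3 : ℕ) : ℝ) + 1) * (4 * ((4 * Y' + 3 : ℕ) : ℝ) + 5) ^ (2 * d) *
      (d * (4 * (Y : ℝ) + 5) * (1 / 4 : ℝ) ^ (Y / b - 1))
      ≤ Real.exp ((2 * d + 1) * (u + 4)) *
        (9 * d * Real.exp u * (16 * Real.exp (-((2 * d + 10) * u)))) := by
        have hvu : Real.exp v ≤ Real.exp u := Real.exp_le_exp.mpr huv
        have h1 : d * (4 * (Y : ℝ) + 5) ≤ 9 * d * Real.exp u :=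
          le_trans hsecond (by gcongr)
        gcongr
    _ = 144 * d * Real.exp ((2 * d + 1) * (u + 4) + (u + -((2 * d + 10) * u))) := by
        rw [Real.exp_add _ (u + _), Real.exp_add u]
        ring
    _ = 144 * d * Real.exp (8 * d + 4 - 8 * u) := by
        congr 2
        ring
    _ ≤ 144 * d * Real.exp (-Real.log (4608 * d)) := by
        gcongr
        linarith
    _ = 1 / 32 := by
        rw [Real.exp_neg, Real.exp_log (by positivity)]
        field_simp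
        norm_num

end BTR
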