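import Pool.Agent.BTR.OC
import Pool.Agent.BTR.H5
import Pool.Agent.BTR.H7
import Pool.Agent.BTR.N1
import Pool.Agent.BTR.N3
import Pool.Agent.BTG.G4

set_option autoImplicit false

open scoped Classical
open Finset Filter

namespace BTR
open BTP

/-- the one-corner event is antitone in the size -/
theorem n4_OCE {D l : ℕ} {V : Box (D + l)} {s s' : ℝ} (h : s ≤ s') {U : Finset (Site (D + l))}
    (hU : OCE D l V s' U) : OCE D l V s U := by
  obtain ⟨X, h1, h2, h3, i, u, hu, v, hv, h4⟩ := hU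
  exact ⟨X, h1, h2, h3, i, u, hu, v, hv, h.trans h4⟩

/-- [BTR-N4] the size of the box as a function of `A = exp L`.
PROOF. `one_corner D l hD` gives `C₁`; take `C = C₁ + 2`, `lm = lamk (D-1) (l+1) > 0` (`BTG.lamk_pos`). For large `L` (all the eventual facts; for `s < l`, `s ≤ l` use `eventually_all_finset` or `Filter.eventually_all_finite`): parameters `d = D + l`, `k = kL L`, `h = hL L`, `y0 = yL L`, `Y = YL lm (C₁+1) L`, `b = exp(-(D e^L lm) + C₁ e^(L/2))`.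
`level0` with `m = 4 Y 0 + 3`: `hOC` from `one_corner` (`k ≤ exp L ^ 2`, `4 y0 + 3 ≤ exp L ^ 4`; the event `OCE .. y0` implies `OCE .. (exp L ^ 3)` as `exp L ^ 3 ≤ y0`: `Lg` is antitone in `s`), `hnum` from `n1_thin`, `n1_level0`. For `m' ≤ 4 Y 0 + 3`: `HC_mono`, `HC_low` with `N = d (Nat.log 2 m' + 1)` give `hC0`.
`levels` (`c1`: `n1_c1`, `c2`: `n1_c2`, `c3`: `n2_c3`, `c4`: `n3_c4`, `hY`: `n3_Y`). `built_small` with `m = 4 Y l + 3`: `n ≤ Y l` by `Nat.le_floor`, as `lm e^L - (C₁+2) e^(L/2) ≤ x_l` for large `L` (`3 l L ≤ e^(L/2)`) and `n3_iter_mono`. `1/32 < 1/2`. -/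
theorem world0 (D l : ℕ) (hD : 2 ≤ D) (hl : 1 ≤ l) : ∃ C : ℝ, 0 < C ∧ ∀ᶠ L : ℝ in atTop,
    ∀ q p : ℝ, q * Real.exp L ^ (D - 1) = 1 → p = 1 - Real.exp (-q) → ∀ n : ℕ, 1 ≤ n →
    (n : ℝ) ≤ Real.exp^[l + 1] (lamk (D - 1) (l + 1) * Real.exp L - C * Real.exp (L / 2)) →
    Pr (sites (Wn (D + l) n)) p (fun U => Bu (l + 2) ∅ U (sites (Wn (D + l) n))) < 1 / 2 := by
  obtain ⟨C₁, hC₁, hOC⟩ := one_corner D l hD
  have hlm : 0 < lamk (D - 1) (l + 1) := BTG.lamk_pos (l + 1) (by omega)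
  refine ⟨C₁ + 2, by linarith, ?_⟩
  generalize lamk (D - 1) (l + 1) = lm at hlm hOC ⊢
  have e8 : ∀ᶠ L : ℝ in atTop, ∀ s ∈ Finset.range l,
      (((4 * YL lm (C₁ + 1) L (s + 1) + 3 : ℕ) : ℝ) + 1) *
      (4 * ((4 * YL lm (C₁ + 1) L (s + 1) + 3 : ℕ) : ℝ) + 5) ^ (2 * (D + l)) *
      ((D + l : ℕ) * (4 * (YL lm (C₁ + 1) L s : ℝ) + 5) *
        (1 / 4 : ℝ) ^ (YL lm (C₁ + 1) L s / Kf (D + l) (kL L) (4 * YL lm (C₁ + 1) L s + 3) - 1))
        ≤ 1 / 32 := by
    rw [Filter.eventually_all_finset]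
    intro s _
    exact n3_c4 (by omega) hlm (by linarith) s
  have e9 : ∀ᶠ L : ℝ in atTop, ∀ s ∈ Finset.range l, yL L ≤ YL lm (C₁ + 1) L s := by
    rw [Filter.eventually_all_finset]
    intro s _
    exact n3_Y hlm s
  filter_upwards [hOC, n1_p hD, n1_par, n1_c1 (D + l), n1_c2 (D + l), n1_thin (D + l),
    n1_level0 (D := D) (l := l) (by omega) hlm hC₁, n2_c3 (d := D + l) (by omega), e8, e9,
    ev_exp (3 * l) 1, eventually_ge_atTop (0 : ℝ)]
    with L a0 a1 a2 a3 a4 a5 a6 a7 a8 a9 a10 a11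
  intro q p hq hp n hn hnn
  obtain ⟨hp0, hp2, hpe⟩ := a1 q p hq hp
  obtain ⟨b1, b2, b3, b4, b5, b6, b7, b8, b9, b10, b11, b12⟩ := a2
  have hp1 : p ≤ 1 := by linarith
  -- level 0
  have h0 : HC (D + l) (l + 2) (kL L) p l (kL L) (4 * YL lm (C₁ + 1) L 0 + 3) := by
    refine level0 (h := hL L) (y0 := yL L)
      (b := Real.exp (-(D * Real.exp L * lm) + C₁ * Real.exp (L / 2))) hp0 hp2 b2 b3 b4 ?_ ?_
    · intro V' hV hlow hhigh hlong
      refine (Pr_mono hp0 hp1 fun U _ hU => n4_OCE b10 hU).trans ?_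
      refine a0 q p hq hp V' hV hlow (fun i => ?_) (fun i => ?_)
      · refine le_trans ?_ b7
        exact_mod_cast hhigh i
      · refine le_trans ?_ b12
        exact_mod_cast hlong i
    · refine le_trans ?_ a6
      refine mul_le_mul_of_nonneg_left ?_ (by positivity)
      have := a5 p hp0 hpe
      gcongr
  -- all levels
  have hY0 : 1 ≤ l := hl
  have hF : HF (D + l) (l + 2) (kL L) p 0 (4 * YL lm (C₁ + 1) L l + 3) := by
    refine levels (y0 := yL L) (h := hL L) (by omega) hl hp0 hp2 b1 b2 b4 (YL lm (C₁ + 1) L)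
      (fun s hs => a9 s (Finset.mem_range.2 hs)) ?_ (a3 p hp0 hpe) (a4 p hp0 hpe) a7
      (fun s hs => a8 s (Finset.mem_range.2 hs))
    intro m' _ hm'
    have h1 := HC_low hp0 hp1 b1 (N := (D + l) * (Nat.log 2 m' + 1))
      (Nat.mul_pos (by omega) (Nat.succ_pos _)) (HC_mono hm' h0)
    exact h1
  -- the box is small
  have hnY : n ≤ YL lm (C₁ + 1) L l := by
    unfold YL
    apply Nat.le_floor
    refine hnn.trans (n3_iter_mono (l + 1) ?_)
    unfold xL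
    have h1 : Real.exp (L / 4) ≤ Real.exp (L / 2) := Real.exp_le_exp.mpr (by linarith)
    rw [pow_one] at a10
    nlinarith
  have h2 := built_small (by omega) hp0 hp1 hn (show n ≤ 4 * YL lm (C₁ + 1) L l + 3 by omega) hF
  refine h2.trans_lt (by norm_num)

end BTR
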