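import Pool.Agent.BTR.FC
import Pool.Agent.BTR.N4

set_option autoImplicit false

open scoped Classical
open Filter

/-! # [BTR-FD] `FIN` from `world0` (helper30) -/

namespace BTR.F
open BTP BTR

theorem tow_eq (n : ℕ) (x : ℝ) : UBT.tow n x = Real.exp^[n] x := rfl

/-- the form of the level induction used by the assembly, from `world0` -/
theorem FIN_of_world0 (D l : ℕ) (hD : 2 ≤ D) (hl : 1 ≤ l) : FIN D l := by
  obtain ⟨C, hC, h⟩ := world0 D l hD hl
  refine ⟨C, hC, ?_⟩
  filter_upwards [h] with L hL q p hq hp n hn4 hn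
  refine hL q p hq hp n ?_ hn
  have h0 : (0 : ℝ) < Real.exp L ^ 4 := by positivity
  have h1 : (0 : ℝ) < (n : ℝ) := lt_of_lt_of_le h0 hn4
  exact_mod_cast h1

end BTR.F
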