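import Pool.Agent.BTR.G1
import Pool.Agent.BTG.G3
set_option autoImplicit false

namespace BTR
open BTP

/-! ## The derivative of `g_k`

Notation: `v = e^{-z}`, `w = e^{g(z)}`, `x = w - 1`, `s = 1 - (1-v) w`. Then `x > 0`, `s + x = v w`, and `gk_eq` reads `x = v^k w s`. -/

/-- `x = e^g - 1` -/
noncomputable def xk (k : ℕ) (z : ℝ) : ℝ := Real.exp (gk k z) - 1
/-- `s = 1 - (1 - e^{-z}) e^g` -/
noncomputable def sk (k : ℕ) (z : ℝ) : ℝ := 1 - (1 - Real.exp (-z)) * Real.exp (gk k z)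
/-- the derivative of `g_k` -/
noncomputable def dk (k : ℕ) (z : ℝ) : ℝ :=
  -(xk k z * (((k : ℝ) + 1) * sk k z + xk k z) / (xk k z + sk k z - sk k z * xk k z))

theorem g2a_w {k : ℕ} {z : ℝ} (hz : 0 < z) : 1 < Real.exp (gk k z) :=
  Real.one_lt_exp_iff.2 (gk_pos hz)

theorem g2a_v {z : ℝ} (hz : 0 < z) : Real.exp (-z) ≤ 1 :=
  Real.exp_le_one_iff.2 (by linarith)

theorem g2a_V {k : ℕ} {z : ℝ} (hz : 0 < z) : Real.exp (-(k * z)) ≤ 1 :=
  Real.exp_le_one_iff.2 (by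
    have h : 0 ≤ (k : ℝ) * z := by positivity
    linarith)

/-- [BTR-G2] -/
theorem xk_pos {k : ℕ} {z : ℝ} (hz : 0 < z) : 0 < xk k z := by
  unfold xk
  have h := g2a_w (k := k) hz
  linarith
/-- [BTR-G2] (definition) -/
theorem sk_add_xk (k : ℕ) (z : ℝ) : sk k z + xk k z = Real.exp (-z) * (1 + xk k z) := by
  unfold xk sk
  ring
/-- [BTR-G2] PROOF. `gk_eq`: `w - 1 = V w - V(1-v) w² = V w s`. -/
theorem xk_eq {k : ℕ} {z : ℝ} (hz : 0 < z) :
    xk k z = Real.exp (-(k * z)) * (1 + xk k z) * sk k z := by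
  have h := gk_eq (k := k) hz
  unfold xk sk
  linear_combination h
theorem g2a_s_pos {k : ℕ} {z : ℝ} (hz : 0 < z) : 0 < sk k z := by
  have hx := xk_pos (k := k) hz
  have h2 := xk_eq (k := k) hz
  have hV := Real.exp_pos (-(k * z))
  have h3 : 0 < (Real.exp (-(k * z)) * (1 + xk k z)) * sk k z := by
    rw [← h2]
    exact hx
  exact pos_of_mul_pos_right h3 (by positivity)

/-- [BTR-G2] PROOF. `s = v w/(1 + V w)` from the two relations, `V ≤ 1 ≤ w`: `s ≥ v w/(1 + w) ≥ v/2`. -/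
theorem sk_ge {k : ℕ} {z : ℝ} (hz : 0 < z) : Real.exp (-z) / 2 ≤ sk k z := by
  have hv := Real.exp_pos (-z)
  have hV := Real.exp_pos (-(k * z))
  have hV1 := g2a_V (k := k) hz
  have hx := xk_pos (k := k) hz
  have h1 := sk_add_xk k z
  have h2 := xk_eq (k := k) hz
  have hs := g2a_s_pos (k := k) hz
  have h3 : sk k z * (1 + Real.exp (-(k * z)) * (1 + xk k z)) = Real.exp (-z) * (1 + xk k z) := by
    linear_combination h1 - h2
  have h4 : Real.exp (-(k * z)) * (1 + xk k z) ≤ 1 + xk k z := by nlinarith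
  have h5 : Real.exp (-z) * (1 + xk k z) ≤ (2 * sk k z) * (1 + xk k z) := by
    rw [← h3]
    nlinarith
  have h6 := le_of_mul_le_mul_right h5 (by linarith)
  linarith
/-- [BTR-G2] (`w ≥ 1`) -/
theorem sk_le {k : ℕ} {z : ℝ} (hz : 0 < z) : sk k z ≤ Real.exp (-z) := by
  have hv1 := g2a_v hz
  have hw := g2a_w (k := k) hz
  unfold sk
  nlinarith
/-- [BTR-G2] `Dn = x + s - s x > 0`. PROOF. `s ≤ 1`: `Dn ≥ s`? `x - s x = x (1 - s) ≥ 0`. -/
theorem Dn_ge {k : ℕ} {z : ℝ} (hz : 0 < z) : sk k z ≤ xk k z + sk k z - sk k z * xk k z := by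
  have hx := xk_pos (k := k) hz
  have h1 := sk_le (k := k) hz
  have h2 := g2a_v hz
  nlinarith [mul_nonneg hx.le (show 0 ≤ 1 - sk k z by linarith)]
/-- [BTR-G2] PROOF. `x (1-s) = x (1-v) w ≤ s` as `s - x(1-v)w = s (1 - V(1-v) w²) ≥ 0` by `gk_eq` (`V (1-v) w² ≤ 1`, `x = V w s`). -/
theorem Dn_le {k : ℕ} {z : ℝ} (hz : 0 < z) : xk k z + sk k z - sk k z * xk k z ≤ 2 * sk k z := by
  have hV1 := g2a_V (k := k) hz
  have hx := xk_pos (k := k) hz
  have hs := g2a_s_pos (k := k) hz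
  have h2 := xk_eq (k := k) hz
  have h := gk_eq (k := k) hz
  have hw := g2a_w (k := k) hz
  have h3 : xk k z * (1 - sk k z) = sk k z * (1 - (1 - Real.exp (-(k * z))) * Real.exp (gk k z)) := by
    have e1 : 1 - sk k z = (1 - Real.exp (-z)) * Real.exp (gk k z) := by
      unfold sk
      ring
    have e2 : 1 + xk k z = Real.exp (gk k z) := by
      unfold xk
      ring
    rw [e2] at h2
    rw [e1]
    linear_combination ((1 - Real.exp (-z)) * Real.exp (gk k z)) * h2 + sk k z * h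
  have h4 : 0 ≤ (1 - Real.exp (-(k * z))) * Real.exp (gk k z) :=
    mul_nonneg (by linarith) (by linarith)
  nlinarith [mul_nonneg hs.le h4]

theorem g2a_neg_dk_ge {k : ℕ} {z : ℝ} (hz : 0 < z) : xk k z ≤ -dk k z := by
  have hx := xk_pos (k := k) hz
  have hs := g2a_s_pos (k := k) hz
  have hD := Dn_ge (k := k) hz
  have hDp : 0 < xk k z + sk k z - sk k z * xk k z := lt_of_lt_of_le hs hD
  unfold dk
  rw [neg_neg, le_div_iff₀ hDp]
  apply mul_le_mul_of_nonneg_left _ hx.le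
  have h1 : 0 ≤ (k : ℝ) * sk k z := by positivity
  have h2 : 0 ≤ sk k z * xk k z := by positivity
  nlinarith

/-- [BTR-G2] the derivative. `k ≥ 1`.
PROOF. `g_k` is differentiable (`bk k` at `u = 1 - e^{-z} ∈ (0,1)`: square root of a positive number, `Real.log` of a positive number). Let `g'` be the derivative; differentiate `gk_eq` (the left side is constant on `(0, ∞)`): with `V = e^{-kz}`:
`k V w - k V (1-v) w² + V v w² + g' [(1-V) w + 2 V (1-v) w²] = 0`. Here `k V w (1 - (1-v) w) + V v w² = V w (k s + v w) = V w ((k+1) s + x)` (`v w = s + x`), and `(1-V) w + 2V(1-v)w² = 1 + V(1-v)w²`, `V w s = x`. So `s g' (1 + V(1-v) w²) = -x ((k+1)s + x)` and `s (1 + V(1-v)w²) = s + x (1-v) w = s + x(1 - s)`. -/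
theorem gk_deriv {k : ℕ} (hk : 1 ≤ k) {z : ℝ} (hz : 0 < z) : HasDerivAt (gk k) (dk k z) z := by
  have hk' := hk
  have h := BTG.gk_deriv k hz
  refine h.congr_deriv ?_
  have hb := BTG.bz_pos k hz
  have hb1 := BTG.bz_lt_one k hz
  have hv := BTG.vz_pos k z
  have hd := BTG.disc_z k hz
  have hsq := BTG.bz_sq k hz
  have hw : Real.exp (gk k z) = (BTG.bz k z)⁻¹ := by
    rw [BTG.gk_eq, Real.exp_neg, Real.exp_log hb]
  have hx : xk k z = (1 - BTG.bz k z) / BTG.bz k z := by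
    unfold xk
    rw [hw]
    field_simp
  have hs : sk k z = (1 - BTG.bz k z) / BTG.vz k z := by
    unfold sk
    rw [hw, eq_div_iff hv.ne']
    have hb' := hb.ne'
    field_simp
    linear_combination hsq
  unfold dk BTG.Dm
  rw [hx, hs]
  generalize BTG.bz k z = b at *
  generalize BTG.vz k z = V at *
  have hb' := hb.ne'
  have hv' := hv.ne'
  have hd' := hd.ne'
  have h1b : 1 - b ≠ 0 := by
    have : 0 < 1 - b := by linarith
    exact this.ne'
  have e1 : (1 - b) / b + (1 - b) / V - (1 - b) / V * ((1 - b) / b) =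
      (1 - b) * (2 * b - 1 + V) / (b * V) := by
    field_simp
    ring
  rw [e1]
  congr 1
  rw [div_eq_div_iff (mul_ne_zero hb' hd') (div_ne_zero (mul_ne_zero h1b hd') (mul_ne_zero hb' hv'))]
  field_simp

/-- [BTR-G2] PROOF. `(k+1) s + x ≥ Dn` (`s x ≥ 0`), so `-g' ≥ x = V w s ≥ e^{-kz} e^{-z}/2`. -/
theorem dk_le {k : ℕ} {z : ℝ} (hz : 0 < z) : dk k z ≤ -(Real.exp (-(((k : ℝ) + 1) * z)) / 2) := by
  have hV := Real.exp_pos (-(k * z))
  have hv := Real.exp_pos (-z)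
  have hx := xk_pos (k := k) hz
  have hs := g2a_s_pos (k := k) hz
  have h1 := g2a_neg_dk_ge (k := k) hz
  have h2 := xk_eq (k := k) hz
  have h3 := sk_ge (k := k) hz
  have e : Real.exp (-(((k : ℝ) + 1) * z)) = Real.exp (-(k * z)) * Real.exp (-z) := by
    rw [← Real.exp_add]
    congr 1
    ring
  have h4 : Real.exp (-(k * z)) * Real.exp (-z) / 2 ≤ xk k z := by
    have h5 : Real.exp (-(k * z)) * (Real.exp (-z) / 2) ≤ Real.exp (-(k * z)) * sk k z :=
      mul_le_mul_of_nonneg_left h3 hV.le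
    have h6 : Real.exp (-(k * z)) * sk k z ≤ xk k z := by
      have h7 : 0 ≤ Real.exp (-(k * z)) * sk k z * xk k z := by positivity
      nlinarith
    linarith
  rw [e]
  linarith

/-- [BTR-G2] PROOF. `-g' ≥ x (2s + x)/(2s) ≥ x + x²/2 = (w² - 1)/2` (`Dn_le`, `s ≤ 1`, `k ≥ 1`). By `gk_eq`: `1 ≤ k z w + z w²` (`1 - e^{-t} ≤ t`, `V ≤ 1`), `w ≤ √((1+z)/z)` (`exp_gk_sq`), so `k z w ≤ k √(z(1+z)) ≤ 1/4` (`z ≤ 1/(32k²) ≤ 1/32`: `k² z (1+z) ≤ (1/32)(33/32) ≤ 1/16`), so `w² ≥ 3/(4z)` and `(3/(4z) - 1)/2 ≥ 1/(4z)` as `z ≤ 1/4`. -/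
theorem dk_le_small {k : ℕ} (hk : 1 ≤ k) {z : ℝ} (hz : 0 < z) (h : z ≤ 1 / (32 * (k : ℝ) ^ 2)) :
    dk k z ≤ -(1 / (4 * z)) := by
  have hk1 : (1 : ℝ) ≤ k := by exact_mod_cast hk
  have hx := xk_pos (k := k) hz
  have hs := g2a_s_pos (k := k) hz
  have hs1 : sk k z ≤ 1 := (sk_le hz).trans (g2a_v hz)
  have hD := Dn_ge (k := k) hz
  have hD2 := Dn_le (k := k) hz
  have hDp : 0 < xk k z + sk k z - sk k z * xk k z := lt_of_lt_of_le hs hD
  -- the bound `-g' ≥ (w² - 1)/2`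
  have h1 : (Real.exp (gk k z) ^ 2 - 1) / 2 ≤
      xk k z * (((k : ℝ) + 1) * sk k z + xk k z) / (xk k z + sk k z - sk k z * xk k z) := by
    rw [le_div_iff₀ hDp]
    have e : Real.exp (gk k z) = 1 + xk k z := by
      unfold xk
      ring
    rw [e]
    have e2 : ((1 + xk k z) ^ 2 - 1) / 2 = xk k z * (1 + xk k z / 2) := by ring
    rw [e2, mul_assoc]
    apply mul_le_mul_of_nonneg_left _ hx.le
    have h2 : (1 + xk k z / 2) * (xk k z + sk k z - sk k z * xk k z) ≤ (1 + xk k z / 2) * (2 * sk k z) :=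
      mul_le_mul_of_nonneg_left hD2 (by linarith)
    have h3 : 0 ≤ ((k : ℝ) - 1) * sk k z := mul_nonneg (by linarith) hs.le
    have h4 : 0 ≤ xk k z * (1 - sk k z) := mul_nonneg hx.le (by linarith)
    nlinarith
  have hz4 : z ≤ 1 / 32 := by
    refine h.trans ?_
    apply one_div_le_one_div_of_le (by norm_num)
    nlinarith
  have hkz : (k : ℝ) ^ 2 * z ≤ 1 / 32 := by
    have h2 : z * (32 * (k : ℝ) ^ 2) ≤ 1 := by
      rwa [le_div_iff₀ (by positivity)] at h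
    linarith
  have hw := g2a_w (k := k) hz
  have hw2 := exp_gk_sq hk hz
  have hwz : z * Real.exp (gk k z) ^ 2 ≤ 1 + z := by
    rw [le_div_iff₀ hz] at hw2
    linarith
  have hkzw : (k : ℝ) * z * Real.exp (gk k z) ≤ 1 / 4 := by
    apply (pow_le_pow_iff_left₀ (by positivity) (by norm_num) two_ne_zero).1
    have e : ((k : ℝ) * z * Real.exp (gk k z)) ^ 2 = ((k : ℝ) ^ 2 * z) * (z * Real.exp (gk k z) ^ 2) := by ring
    rw [e]
    have h2 : ((k : ℝ) ^ 2 * z) * (z * Real.exp (gk k z) ^ 2) ≤ (1 / 32) * (1 + z) :=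
      mul_le_mul hkz hwz (by positivity) (by norm_num)
    linarith
  have hgk := gk_eq (k := k) hz
  have hV : 1 - Real.exp (-(k * z)) ≤ k * z := by
    have := Real.add_one_le_exp (-((k : ℝ) * z))
    linarith
  have hv : 1 - Real.exp (-z) ≤ z := by
    have := Real.add_one_le_exp (-z)
    linarith
  have h5 : (1 - Real.exp (-(k * z))) * Real.exp (gk k z) ≤ k * z * Real.exp (gk k z) :=
    mul_le_mul_of_nonneg_right hV (by linarith)
  have h6 : Real.exp (-(k * z)) * (1 - Real.exp (-z)) * Real.exp (gk k z) ^ 2 ≤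
      z * Real.exp (gk k z) ^ 2 := by
    apply mul_le_mul_of_nonneg_right _ (by positivity)
    have h7 := g2a_V (k := k) hz
    have h8 := g2a_v hz
    have h9 := Real.exp_pos (-(k * z))
    nlinarith
  have h7 : 3 / 4 ≤ z * Real.exp (gk k z) ^ 2 := by linarith
  have h8 : 1 / (4 * z) ≤ (Real.exp (gk k z) ^ 2 - 1) / 2 := by
    rw [div_le_iff₀ (by positivity)]
    nlinarith
  unfold dk
  linarith

end BTR
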