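import Pool.Agent.BTR.G1
import Pool.Agent.BTR.G2a
set_option autoImplicit false

namespace BTR
open BTP

/-! ## The derivative of `g_k`

Notation: `v = e^{-z}`, `w = e^{g(z)}`, `x = w - 1`, `s = 1 - (1-v) w`. Then `x > 0`, `s + x = v w`, and `gk_eq` reads `x = v^k w s`. -/

/-- [BTR-G2] the derivatives of `x` and `s`: `x' = w g'`, `s' = -v w - (1-v) w g' = -(1-s) g' - (x+s)`. -/
theorem xk_deriv {k : ℕ} (hk : 1 ≤ k) {z : ℝ} (hz : 0 < z) :
    HasDerivAt (xk k) ((1 + xk k z) * dk k z) z := by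
  have h := ((gk_deriv hk hz).exp).sub_const 1
  have e : (1 + xk k z) * dk k z = Real.exp (gk k z) * dk k z := by
    unfold xk; ring
  rw [e]
  exact h
theorem sk_deriv {k : ℕ} (hk : 1 ≤ k) {z : ℝ} (hz : 0 < z) :
    HasDerivAt (sk k) (-((1 - sk k z) * dk k z) - (xk k z + sk k z)) z := by
  have h1 : HasDerivAt (fun z : ℝ => Real.exp (-z)) (Real.exp (-z) * (-1)) z :=
    ((hasDerivAt_id z).neg).exp
  have h2 : HasDerivAt (fun z : ℝ => 1 - (1 - Real.exp (-z)) * Real.exp (gk k z))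
      (-((-(Real.exp (-z) * (-1))) * Real.exp (gk k z) +
        (1 - Real.exp (-z)) * (Real.exp (gk k z) * dk k z))) z :=
    ((h1.const_sub 1).mul (gk_deriv hk hz).exp).const_sub 1
  have e1 := sk_add_xk k z
  have e2 : Real.exp (gk k z) = 1 + xk k z := by unfold xk; ring
  have e3 : (1 - Real.exp (-z)) * Real.exp (gk k z) = 1 - sk k z := by unfold sk; ring
  have e : -((1 - sk k z) * dk k z) - (xk k z + sk k z) =
      -((-(Real.exp (-z) * (-1))) * Real.exp (gk k z) +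
        (1 - Real.exp (-z)) * (Real.exp (gk k z) * dk k z)) := by
    rw [← mul_assoc (1 - Real.exp (-z)), e3, add_comm (xk k z), e1, e2]
    ring
  rw [e]
  exact h2

/-- [BTR-G2] a bound used for the convexity: `(k-1) x² (1-s) ≤ x (1+x) s`.
PROOF. If `x = 0` trivial. `1 - v^k ≥ (1-v) k v^k` (`v^i ≥ v^k` for `i < k`), and `(1-V) w ≤ 1` (`gk_eq`), so `k (1-s) V = k (1-v) w V ≤ (1 - V) w ≤ 1`. With `V = x/(w s)`: `k (1-s) x ≤ w s`. Multiply by `x`. -/
theorem sk_bound {k : ℕ} (hk : 1 ≤ k) {z : ℝ} (hz : 0 < z) :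
    ((k : ℝ) - 1) * xk k z ^ 2 * (1 - sk k z) ≤ xk k z * (1 + xk k z) * sk k z := by
  have hx := xk_pos (k := k) hz
  have hxe := xk_eq (k := k) hz
  have hge := gk_eq (k := k) hz
  have hs := sk_ge (k := k) hz
  set w := Real.exp (gk k z) with hw
  set V := Real.exp (-(k * z)) with hV
  set v := Real.exp (-z) with hv
  have hv0 : 0 < v := Real.exp_pos _
  have hv1 : v ≤ 1 := by rw [hv]; exact Real.exp_le_one_iff.mpr (by linarith)
  have hw0 : 0 < w := Real.exp_pos _
  have hV0 : 0 < V := Real.exp_pos _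
  have hVv : V = v ^ k := by
    rw [hV, hv, ← Real.exp_nat_mul]; congr 1; ring
  have h1s : 1 - sk k z = (1 - v) * w := by unfold sk; ring
  have hxw : 1 + xk k z = w := by unfold xk; ring
  -- `k (1 - v) v^k ≤ 1 - v^k`
  have hgeom : (k : ℝ) * (1 - v) * v ^ k ≤ 1 - v ^ k := by
    have h1 : (∑ i ∈ Finset.range k, v ^ i) * (1 - v) = 1 - v ^ k := geom_sum_mul_neg v k
    have h2 : (k : ℝ) * v ^ k ≤ ∑ i ∈ Finset.range k, v ^ i := by
      have h3 : ∑ i ∈ Finset.range k, v ^ k ≤ ∑ i ∈ Finset.range k, v ^ i := by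
        apply Finset.sum_le_sum
        intro i hi
        exact pow_le_pow_of_le_one hv0.le hv1 (Finset.mem_range.mp hi).le
      simpa using h3
    have h4 := mul_le_mul_of_nonneg_right h2 (by linarith : (0 : ℝ) ≤ 1 - v)
    rw [h1] at h4
    linarith
  have hA : (1 - V) * w ≤ 1 := by
    have : 0 ≤ V * (1 - v) * w ^ 2 := by
      apply mul_nonneg (mul_nonneg hV0.le (by linarith)) (sq_nonneg _)
    linarith
  have hB : (k : ℝ) * ((1 - v) * w) * V ≤ 1 := by
    have h5 := mul_le_mul_of_nonneg_right hgeom hw0.le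
    rw [← hVv] at h5
    calc (k : ℝ) * ((1 - v) * w) * V = (k : ℝ) * (1 - v) * V * w := by ring
      _ ≤ (1 - V) * w := h5
      _ ≤ 1 := hA
  have hs0 : 0 ≤ sk k z := by linarith [hv0]
  rw [h1s, hxw]
  rw [hxw] at hxe
  have h6 : (k : ℝ) * ((1 - v) * w) * xk k z ≤ w * sk k z := by
    have h7 : (k : ℝ) * ((1 - v) * w) * xk k z = ((k : ℝ) * ((1 - v) * w) * V) * (w * sk k z) := by
      rw [hxe]; ring
    rw [h7]
    have := mul_le_mul_of_nonneg_right hB (mul_nonneg hw0.le hs0)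
    linarith
  have h8 := mul_le_mul_of_nonneg_left h6 hx.le
  have h9 : 0 ≤ xk k z ^ 2 * ((1 - v) * w) :=
    mul_nonneg (sq_nonneg _) (mul_nonneg (by linarith) hw0.le)
  nlinarith [h8, h9]

/-- [BTR-G2] the second derivative is at least `e^{-(k+1)z}/4`.
PROOF. Let `y = -g' = N/Dn`, `N = x((k+1)s + x)`, `Dn = x + s - s x`, `κ = k+1`. With `x' = -(1+x) y`, `s' = (1-s) y - (x+s)`: `N' Dn - N Dn' = s' x² (k + x) + x' (κ s² + 2 x s + x² (1-s))` (ring), hence
`-y' Dn² = y [(1+x)(κ s² + 2xs) - (k-1) x² (1-s)] + x² (k+x)(x+s)` (ring). By `sk_bound` the bracket is at least `(1+x)(κs² + 2xs) - x(1+x)s = (1+x) s (κ s + x)`. So `-y' ≥ y (1+x) s (κs+x)/Dn² = x (1+x) s (κ s+x)²/Dn³ ≥ x (1+x) s/Dn` (`κ s + x ≥ Dn`).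
`x = V w s`, `Dn ≤ x + s = v w`: `x (1+x) s/Dn ≥ V w s · w s/(v w) = V w s²/v ≥ V w v/4 ≥ e^{-(k+1)z}/4` (`sk_ge`, `w ≥ 1`). -/
theorem dk_deriv {k : ℕ} (hk : 1 ≤ k) {z : ℝ} (hz : 0 < z) :
    ∃ D, HasDerivAt (dk k) D z ∧ Real.exp (-(((k : ℝ) + 1) * z)) / 4 ≤ D := by
  have hx' := xk_deriv hk hz
  have hs' := sk_deriv hk hz
  have hxp := xk_pos (k := k) hz
  have hxe := xk_eq (k := k) hz
  have hsx := sk_add_xk k z
  have hsg := sk_ge (k := k) hz
  have hDg := Dn_ge (k := k) hz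
  have hbd := sk_bound hk hz
  have hv0 : 0 < Real.exp (-z) := Real.exp_pos _
  have hs0 : 0 < sk k z := by linarith
  have hD0 : 0 < xk k z + sk k z - sk k z * xk k z := by linarith
  have hN : HasDerivAt (fun z => xk k z * (((k : ℝ) + 1) * sk k z + xk k z))
      ((1 + xk k z) * dk k z * (((k : ℝ) + 1) * sk k z + xk k z) +
        xk k z * (((k : ℝ) + 1) * (-((1 - sk k z) * dk k z) - (xk k z + sk k z)) +
          (1 + xk k z) * dk k z)) z :=
    hx'.mul ((hs'.const_mul _).add hx')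
  have hDn : HasDerivAt (fun z => xk k z + sk k z - sk k z * xk k z)
      ((1 + xk k z) * dk k z + (-((1 - sk k z) * dk k z) - (xk k z + sk k z)) -
        ((-((1 - sk k z) * dk k z) - (xk k z + sk k z)) * xk k z +
          sk k z * ((1 + xk k z) * dk k z))) z :=
    (hx'.add hs').sub (hs'.mul hx')
  have hdk := (hN.div hDn hD0.ne').neg
  refine ⟨_, hdk, ?_⟩
  have hdkv : dk k z = -(xk k z * (((k : ℝ) + 1) * sk k z + xk k z) /
      (xk k z + sk k z - sk k z * xk k z)) := rfl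
  have hE : Real.exp (-(((k : ℝ) + 1) * z)) = Real.exp (-(k * z)) * Real.exp (-z) := by
    rw [← Real.exp_add]; congr 1; ring
  rw [hE]
  have hV0 : 0 < Real.exp (-(k * z)) := Real.exp_pos _
  have hk0 : (1 : ℝ) ≤ k := by exact_mod_cast hk
  generalize hxg : xk k z = x at *
  generalize hsg' : sk k z = s at *
  generalize hyg : dk k z = g at *
  generalize hVg : Real.exp (-(k * z)) = V at *
  generalize hvg : Real.exp (-z) = v at *
  -- `y = -g`
  have hy : -g * (x + s - s * x) = x * (((k : ℝ) + 1) * s + x) := by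
    rw [hdkv, neg_neg, div_mul_cancel₀ _ hD0.ne']
  have hy0 : 0 ≤ -g := by
    rw [hdkv, neg_neg]
    apply div_nonneg _ hD0.le
    positivity
  have key : -(((1 + x) * g * (((k : ℝ) + 1) * s + x) +
        x * (((k : ℝ) + 1) * (-((1 - s) * g) - (x + s)) + (1 + x) * g)) *
          (x + s - s * x) -
        x * (((k : ℝ) + 1) * s + x) * ((1 + x) * g + (-((1 - s) * g) - (x + s)) -
        ((-((1 - s) * g) - (x + s)) * x + s * ((1 + x) * g)))) =
      -g * ((1 + x) * (((k : ℝ) + 1) * s ^ 2 + 2 * x * s) - ((k : ℝ) - 1) * x ^ 2 * (1 - s)) +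
        x ^ 2 * ((k : ℝ) + x) * (x + s) := by
    ring
  have hbr : (1 + x) * s * (((k : ℝ) + 1) * s + x) ≤
      (1 + x) * (((k : ℝ) + 1) * s ^ 2 + 2 * x * s) - ((k : ℝ) - 1) * x ^ 2 * (1 - s) := by
    nlinarith [hbd]
  have h1 : -g * ((1 + x) * s * (((k : ℝ) + 1) * s + x)) ≤
      -(((1 + x) * g * (((k : ℝ) + 1) * s + x) +
        x * (((k : ℝ) + 1) * (-((1 - s) * g) - (x + s)) + (1 + x) * g)) *
          (x + s - s * x) -
        x * (((k : ℝ) + 1) * s + x) * ((1 + x) * g + (-((1 - s) * g) - (x + s)) -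
        ((-((1 - s) * g) - (x + s)) * x + s * ((1 + x) * g)))) := by
    rw [key]
    have h2 := mul_le_mul_of_nonneg_left hbr hy0
    have h3 : 0 ≤ x ^ 2 * ((k : ℝ) + x) * (x + s) := by positivity
    linarith
  have hDle : x + s - s * x ≤ ((k : ℝ) + 1) * s + x := by
    nlinarith [mul_pos hs0 hxp, mul_nonneg (by linarith : (0 : ℝ) ≤ k) hs0.le]
  -- lower bound `x (1+x) s / Dn`
  have h4 : x * (1 + x) * s * (x + s - s * x) ≤ -g * ((1 + x) * s * (((k : ℝ) + 1) * s + x)) := by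
    -- multiply by `Dn`
    have h5 : x * (1 + x) * s * (x + s - s * x) * (x + s - s * x) ≤
        -g * ((1 + x) * s * (((k : ℝ) + 1) * s + x)) * (x + s - s * x) := by
      have h6 : -g * ((1 + x) * s * (((k : ℝ) + 1) * s + x)) * (x + s - s * x) =
          (x * (1 + x) * s) * ((((k : ℝ) + 1) * s + x) * (((k : ℝ) + 1) * s + x)) := by
        calc -g * ((1 + x) * s * (((k : ℝ) + 1) * s + x)) * (x + s - s * x)
            = (-g * (x + s - s * x)) * ((1 + x) * s * (((k : ℝ) + 1) * s + x)) := by ring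
          _ = _ := by rw [hy]; ring
      rw [h6]
      have h7 : (x + s - s * x) * (x + s - s * x) ≤
          (((k : ℝ) + 1) * s + x) * (((k : ℝ) + 1) * s + x) :=
        mul_le_mul hDle hDle hD0.le (by linarith)
      have h8 : 0 ≤ x * (1 + x) * s := by positivity
      have := mul_le_mul_of_nonneg_left h7 h8
      linarith
    exact le_of_mul_le_mul_right h5 hD0
  have h9 : (V * v / 4) * (x + s - s * x) ≤ x * (1 + x) * s := by
    have h10 : x + s - s * x ≤ v * (1 + x) := by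
      have := mul_pos hs0 hxp
      linarith
    have h11 : (V * v / 4) * (x + s - s * x) ≤ (V * v / 4) * (v * (1 + x)) :=
      mul_le_mul_of_nonneg_left h10 (by positivity)
    have h12 : v * v / 4 ≤ s * s := by nlinarith
    have h13 : (V * (1 + x)) * (v * v / 4) ≤ (V * (1 + x)) * (s * s) :=
      mul_le_mul_of_nonneg_left h12 (by positivity)
    have h14 : (V * (1 + x)) * (s * s) ≤ (V * (1 + x) * (s * s)) * (1 + x) := by
      have : 0 ≤ V * (1 + x) * (s * s) := by positivity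
      nlinarith
    have h15 : x * (1 + x) * s = (V * (1 + x) * (s * s)) * (1 + x) := by
      calc x * (1 + x) * s = (V * (1 + x) * s) * (1 + x) * s := by rw [← hxe]
        _ = _ := by ring
    linarith
  rw [← neg_div, le_div_iff₀ (by positivity)]
  calc V * v / 4 * (x + s - s * x) ^ 2 = ((V * v / 4) * (x + s - s * x)) * (x + s - s * x) := by ring
    _ ≤ (x * (1 + x) * s) * (x + s - s * x) := mul_le_mul_of_nonneg_right h9 hD0.le
    _ ≤ _ := h4
    _ ≤ _ := h1

/-- [BTR-G2] strong convexity. PROOF. `z ↦ dk k z + e^{-(k+1)z}/(4(k+1))` has nonnegative derivative on `(0, ∞)` (`dk_deriv`): `monotoneOn_of_deriv_nonneg` on the convex set `Ioi 0`. -/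
theorem dk_incr {k : ℕ} (hk : 1 ≤ k) {x y : ℝ} (hx : 0 < x) (hxy : x ≤ y) :
    dk k x + (Real.exp (-(((k : ℝ) + 1) * x)) - Real.exp (-(((k : ℝ) + 1) * y))) / (4 * ((k : ℝ) + 1)) ≤
      dk k y := by
  have hk0 : (0 : ℝ) < (k : ℝ) + 1 := by positivity
  have hder : ∀ z : ℝ, 0 < z → ∃ D, 0 ≤ D ∧ HasDerivAt
      (fun z => dk k z + Real.exp (-(((k : ℝ) + 1) * z)) / (4 * ((k : ℝ) + 1))) D z := by
    intro z hz
    obtain ⟨D, hD, hDb⟩ := dk_deriv hk hz
    have h1 : HasDerivAt (fun z : ℝ => Real.exp (-(((k : ℝ) + 1) * z)))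
        (Real.exp (-(((k : ℝ) + 1) * z)) * (-(((k : ℝ) + 1) * 1))) z :=
      (((hasDerivAt_id z).const_mul ((k : ℝ) + 1)).neg).exp
    refine ⟨_, ?_, hD.add (h1.div_const (4 * ((k : ℝ) + 1)))⟩
    have h2 : Real.exp (-(((k : ℝ) + 1) * z)) * (-(((k : ℝ) + 1) * 1)) / (4 * ((k : ℝ) + 1)) =
        -(Real.exp (-(((k : ℝ) + 1) * z)) / 4) := by
      field_simp
    rw [h2]
    linarith
  have hmono : MonotoneOn (fun z => dk k z + Real.exp (-(((k : ℝ) + 1) * z)) / (4 * ((k : ℝ) + 1)))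
      (Set.Ioi 0) := by
    apply monotoneOn_of_deriv_nonneg (convex_Ioi 0)
    · intro z hz
      obtain ⟨D, _, hD⟩ := hder z hz
      exact hD.continuousAt.continuousWithinAt
    · intro z hz
      rw [interior_Ioi] at hz
      obtain ⟨D, _, hD⟩ := hder z hz
      exact hD.differentiableAt.differentiableWithinAt
    · intro z hz
      rw [interior_Ioi] at hz
      obtain ⟨D, hD0, hD⟩ := hder z hz
      rw [hD.deriv]
      exact hD0
  have h := hmono (Set.mem_Ioi.mpr hx) (Set.mem_Ioi.mpr (hx.trans_le hxy)) hxy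
  simp only at h
  rw [sub_div]
  linarith

end BTR
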