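import Pool.Agent.BTR.K6
import Pool.Agent.BTR.K11

set_option autoImplicit false

open scoped Classical
open Finset

namespace BTR
open BTP

variable {d : ℕ}

/-- [BTR-H1] large scales: `FE_descend`, `Pr_union` over `sites (bx x (2y+1))` (`card_bx`: `(4y+3)^d` sites) -/
theorem FE_large {r : ℕ} {p : ℝ} (hp0 : 0 ≤ p) (hp1 : p ≤ 1) {J : Finset (Fin d)} {T : Box d}
    {y y' : ℕ} (hy : y' ≤ y) {b : ℝ}
    (hb : ∀ x' : Site d, Pr (sites T) p (FE r J T Finset.univ x' y') ≤ b) (x : Site d) :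
    Pr (sites T) p (FE r J T Finset.univ x y) ≤ (4 * y + 3) ^ d * b := by
  calc Pr (sites T) p (FE r J T Finset.univ x y)
      ≤ Pr (sites T) p (fun U => ∃ x' ∈ sites (bx x (2 * y + 1)),
          FE r J T Finset.univ x' y' U) :=
        Pr_mono hp0 hp1 fun U _ hU => FE_descend hy hU
    _ ≤ ∑ x' ∈ sites (bx x (2 * y + 1)), Pr (sites T) p (FE r J T Finset.univ x' y') :=
        Pr_union hp0 hp1 _ _
    _ ≤ ∑ _x' ∈ sites (bx x (2 * y + 1)), b := Finset.sum_le_sum fun x' _ => hb x'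
    _ = (4 * y + 3) ^ d * b := by
        rw [Finset.sum_const, nsmul_eq_mul, card_bx]
        have h8 : 2 * (2 * y + 1) + 1 = 4 * y + 3 := by ring
        rw [h8]
        push_cast
        ring

end BTR
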