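import Pool.Agent.BTR.K6
import Pool.Agent.BTR.K11

set_option autoImplicit false

open scoped Classical
open Finset

namespace BTR
open BTP

variable {d : ℕ}

/-- [BTR-H1] the tail from the crossing bound one level below.
PROOF. If `x ∉ sites T` the event is impossible (`x ∈ X ⊆ sites T`), `Pr_false`/`Pr_mono`. Otherwise `tail_comb` (`sd T i = k ≤ y`) puts the event in the union over `i ∉ J` and `a ∈ Finset.Icc (-(2y+2)) (2y+2)` (`4y+5` values) of
`∀ t ∈ range (y / K - 1), Cr r (insert i J) (slw .. (a + t)) i (U ∩ sites (slw .. (a + t)))`. `Pr_union` (over `Finset.univ ×ˢ Icc`), `Pr_disj` (`slw_disj`, `Inc_Cr`), and each factor is at most `1/4` by `hC` (`(insert i J).card = J.card + 1`, `Ne_slw`, `sd_slw_self`, `sd_slw_mem`, `sd_slw_le` with `2 (2y+1) + 1 = 4y+3`). -/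
theorem tail_prob {r k K : ℕ} {p : ℝ} (hp0 : 0 ≤ p) (hp2 : p ≤ 1 / 2) {J : Finset (Fin d)}
    {T : Box d} (hJ : ∀ i ∈ J, sd T i = k) {y : ℕ} (hky : k ≤ y) (hK : 2 ≤ K)
    (hC : HC d r k p (J.card + 1) K (4 * y + 3)) (x : Site d) :
    Pr (sites T) p (FE r J T Finset.univ x y) ≤ d * (4 * y + 5) * (1 / 4 : ℝ) ^ (y / K - 1) := by
  have hp1 : p ≤ 1 := by linarith
  by_cases hx : x ∈ sites T
  · set n : ℕ := y / K - 1 with hn
    set W : Fin d → ℤ → Box d := fun i a => slw J T x (2 * y + 1) K i a with hW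
    set E : Fin d × ℤ → Finset (Site d) → Prop := fun q U =>
      q.1 ∉ J ∧ ∀ t ∈ Finset.range n, Cr r (insert q.1 J) (W q.1 (q.2 + t)) q.1
        (U ∩ sites (W q.1 (q.2 + t))) with hE
    set s : Finset (Fin d × ℤ) :=
      (Finset.univ : Finset (Fin d)) ×ˢ Finset.Icc (-(2 * (y : ℤ) + 2)) (2 * (y : ℤ) + 2) with hs
    have h1 : Pr (sites T) p (FE r J T Finset.univ x y) ≤
        Pr (sites T) p (fun U => ∃ q ∈ s, E q U) := by
      refine Pr_mono hp0 hp1 fun U _ hU => ?_
      obtain ⟨i, hi, a, ha, ht⟩ := tail_comb hK (fun i hi => (hJ i hi).le.trans hky) hU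
      refine ⟨(i, a), ?_, hi, fun t htn => ht t (Finset.mem_range.1 htn)⟩
      rw [hs, Finset.mem_product, Finset.mem_Icc]
      exact ⟨Finset.mem_univ _, abs_le.1 ha⟩
    have h2 : ∀ q ∈ s, Pr (sites T) p (E q) ≤ (1 / 4 : ℝ) ^ n := by
      rintro ⟨i, a⟩ _
      by_cases hi : i ∈ J
      · have h3 : Pr (sites T) p (E (i, a)) ≤ Pr (sites T) p (fun _ => False) :=
          Pr_mono hp0 hp1 fun U _ hU => hU.1 hi
        rw [Pr_false] at h3
        exact h3.trans (by positivity)
      · have h3 : Pr (sites T) p (E (i, a)) ≤ Pr (sites T) p (fun U =>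
            ∀ t ∈ Finset.range n, (fun t : ℕ => Cr r (insert i J) (W i (a + t)) i) t
              (U ∩ (fun t : ℕ => sites (W i (a + t))) t)) :=
          Pr_mono hp0 hp1 fun U _ hU => hU.2
        refine h3.trans ((Pr_disj hp0 hp2 (sites T) (Finset.range n)
          (fun t : ℕ => sites (W i (a + t))) ?_
          (fun t : ℕ => Cr r (insert i J) (W i (a + t)) i) fun t _ => Inc_Cr _ _ _ _).trans ?_)
        · intro t _ t' _ htt
          refine slw_disj ?_
          intro h4
          exact htt (by exact_mod_cast add_left_cancel h4)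
        · refine (Finset.prod_le_prod (fun t _ => Pr_nonneg hp0 hp1) fun t _ => ?_).trans
            (le_of_eq (Finset.prod_const (1 / 4 : ℝ)) |>.trans (le_of_eq ?_))
          · refine hC (insert i J) (Finset.card_insert_of_notMem hi) i (Finset.mem_insert_self i J)
              (W i (a + t)) (Ne_slw hx (by omega) i _) ?_ (sd_slw_self (by omega) i _) ?_
            · intro i' hi' hne
              have h5 : i' ∈ J := Finset.mem_of_mem_insert_of_ne hi' hne
              exact (sd_slw_mem _ hne h5).trans (hJ i' h5)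
            · intro i' hi'
              have h5 : i' ≠ i := fun h => hi' (h ▸ Finset.mem_insert_self i J)
              have h6 : i' ∉ J := fun h => hi' (Finset.mem_insert_of_mem h)
              have h7 := sd_slw_le (m := 2 * y + 1) (K := K) hx (a + (t : ℤ)) h5 h6
              have h8 : 2 * (2 * y + 1) + 1 = 4 * y + 3 := by ring
              exact h7.trans h8.le
          · rw [Finset.card_range]
    have h3 : (s.card : ℝ) = d * (4 * y + 5) := by
      have h4 : s.card = d * (4 * y + 5) := by
        rw [hs, Finset.card_product, Finset.card_univ, Fintype.card_fin, Int.card_Icc]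
        congr 1
        omega
      rw [h4]
      push_cast
      ring
    calc Pr (sites T) p (FE r J T Finset.univ x y)
        ≤ Pr (sites T) p (fun U => ∃ q ∈ s, E q U) := h1
      _ ≤ ∑ q ∈ s, Pr (sites T) p (E q) := Pr_union hp0 hp1 s E
      _ ≤ ∑ _q ∈ s, (1 / 4 : ℝ) ^ n := Finset.sum_le_sum h2
      _ = d * (4 * y + 5) * (1 / 4 : ℝ) ^ n := by
          rw [Finset.sum_const, nsmul_eq_mul, h3]
  · have h1 : Pr (sites T) p (FE r J T Finset.univ x y) ≤ Pr (sites T) p (fun _ => False) := by
      refine Pr_mono hp0 hp1 fun U _ hU => ?_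
      obtain ⟨X, hXT, _, _, hxX, _⟩ := hU
      exact hx (hXT hxX)
    rw [Pr_false] at h1
    exact h1.trans (by positivity)

end BTR
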