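import Pool.Agent.BTR.K11
import Pool.Agent.BTR.K12
import Pool.Agent.BTR.K4
import Pool.Agent.BTP.P2

set_option autoImplicit false

open scoped Classical
open Finset

namespace BTR
open BTP

variable {d : ℕ}

/-- a set of extents at most `m` containing `x` lies in the box around `x` -/
theorem h2a_sub {X : Finset (Site d)} {x : Site d} {m : ℕ} (hx : x ∈ X)
    (he : Ele Finset.univ X (m : ℤ)) : ∀ v ∈ X, v ∈ sites (bx x m) := by
  intro v hv
  rw [mem_bx]
  intro i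
  have h1 := he i (Finset.mem_univ i) x hx v hv
  have h2 := he i (Finset.mem_univ i) v hv x hx
  rw [abs_le]
  constructor <;> linarith

/-- [BTR-H2] very small scales: some seed lies within distance `2y+1` of `x`.
PROOF. `domin` gives `W ⊆ U ∩ X`, `W` not empty (`Gen.nonempty`); `X ⊆ sites (bx x (2y+1))` by `Ele` (`mem_bx`). So the event implies `1 ≤ (U ∩ sites (bx x (2y+1))).card`; `BTP.Pr_card_ge` with `k = 1`, `card_bx` (`2(2y+1)+1 = 4y+3`). -/
theorem FE_small1 {r : ℕ} {J : Finset (Fin d)} (hJ : J.card + 2 ≤ r) {T : Box d}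
    (hT : ∀ i ∈ J, 2 ≤ sd T i) {p : ℝ} (hp0 : 0 ≤ p) (hp1 : p ≤ 1) (x : Site d) (y : ℕ) :
    Pr (sites T) p (FE r J T Finset.univ x y) ≤ (4 * y + 3) ^ d * p := by
  refine (Pr_mono hp0 hp1 ?_).trans
    ((Pr_card_ge (sites T) (sites (bx x (2 * y + 1))) hp0 hp1 1).trans ?_)
  · rintro U - ⟨X, hXT, hC, hB, hx, hE, -⟩
    obtain ⟨S, W, hW, hG, -⟩ := domin hJ hT hXT hB hC
    obtain ⟨w, hw⟩ := hG.nonempty
    have hw' := Finset.mem_inter.mp (hW hw)
    have hE' : Ele Finset.univ X ((2 * y + 1 : ℕ) : ℤ) := by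
      push_cast
      exact hE
    refine Finset.card_pos.mpr ⟨w, ?_⟩
    exact (@Finset.mem_inter _ (fun a b => Classical.propDecidable (a = b)) _ _ _).mpr ⟨hw'.1, h2a_sub hx hE' w hw'.2⟩
  · rw [card_bx, pow_one]
    apply le_of_eq
    push_cast
    ring

/-- [BTR-H2] small scales. PROOF. Let `G U := ∃ S W, W ⊆ U ∧ Gen S W ∧ h ≤ Ys S` (increasing). `domin` and `ext_le_Ys` (the extent of `X` is at least `y ≥ h` in some direction): the event implies `G (U ∩ sites (bx x (2y+1)))` (`W ⊆ U ∩ X`). `Pr_sub`, `small_box` (`V = bx x (2y+1)`, `card_bx`). -/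
theorem FE_small2 {r : ℕ} {J : Finset (Fin d)} (hJ : J.card + 2 ≤ r) {T : Box d}
    (hT : ∀ i ∈ J, 2 ≤ sd T i) {p : ℝ} (hp0 : 0 ≤ p) (hp1 : p ≤ 1) {h : ℕ} (hh : 1 ≤ h) (x : Site d)
    {y : ℕ} (hy : h ≤ y) : Pr (sites T) p (FE r J T Finset.univ x y) ≤
      (4 * y + 3) ^ d * (2 * h + 1) ^ d * ((2 * h + 1) ^ d * p) ^ ((h + 2) / 2) := by
  have hI : Inc (fun U : Finset (Site d) => ∃ (S : Box d) (W : Finset (Site d)),
      W ⊆ U ∧ Gen S W ∧ (h : ℤ) ≤ Ys S) := by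
    rintro U U' hUU ⟨S, W, hW, h1⟩
    exact ⟨S, W, hW.trans hUU, h1⟩
  refine (Pr_mono hp0 hp1 ?_).trans
    ((Pr_sub hp0 hp1 (sites T) (sites (bx x (2 * y + 1))) hI).trans
      ((small_box (Ne_bx x (2 * y + 1)) hh hp0 hp1).trans ?_))
  · rintro U - ⟨X, hXT, hC, hB, hx, hE, i, -, u, hu, v, hv, huv⟩
    obtain ⟨S, W, hW, hG, hS⟩ := domin hJ hT hXT hB hC
    have hE' : Ele Finset.univ X ((2 * y + 1 : ℕ) : ℤ) := by
      push_cast
      exact hE
    refine ⟨S, W, ?_, hG, ?_⟩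
    · intro w hw
      have hw' := Finset.mem_inter.mp (hW hw)
      exact Finset.mem_inter.mpr ⟨hw'.1, h2a_sub hx hE' w hw'.2⟩
    · have h1 := ext_le_Ys hG (hS u hu) (hS v hv) i
      have h2 : (h : ℤ) ≤ (y : ℤ) := by exact_mod_cast hy
      linarith
  · rw [card_bx]
    apply le_of_eq
    push_cast
    ring

end BTR
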