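import Pool.Agent.BTR.K8
import Pool.Agent.BTR.K11
import Pool.Agent.BTP.P4
import Pool.Agent.BTP.B6

set_option autoImplicit false

open scoped Classical
open Finset

namespace BTR
open BTP

variable {d : ℕ}

/-- [BTR-H4] the shape of the sub-slabs (`sbl`, `slb_ne`, `slb_true`, `slb_false`; unfold `sd`) -/
theorem sd_sbl_self {T : Box d} {i : Fin d} {k : ℕ} (hk : 1 ≤ k) (a : ℤ) : sd (sbl T i k a) i = k := by
  rw [sd, sbl, slb_true, slb_false]
  have h : (-T (i, false) + a * (k : ℤ) + k - 1) + -(-T (i, false) + a * (k : ℤ)) + 1 = (k : ℤ) := by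
    ring
  rw [h, Int.toNat_natCast]

theorem sd_sbl_ne {T : Box d} {i i' : Fin d} {k : ℕ} (a : ℤ) (h : i' ≠ i) :
    sd (sbl T i k a) i' = sd T i' := by
  rw [sd, sd, sbl, slb_ne (j := (i', true)) h, slb_ne (j := (i', false)) h]

theorem Ne_sbl {T : Box d} (hT : Ne T) {i : Fin d} {k : ℕ} (hk : 1 ≤ k) (a : ℤ) :
    Ne (sbl T i k a) := by
  intro i'
  by_cases h : i' = i
  · subst h
    rw [sbl, slb_true, slb_false]
    have h1 : (1 : ℤ) ≤ (k : ℤ) := by exact_mod_cast hk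
    linarith
  · rw [sbl, slb_ne (j := (i', true)) h, slb_ne (j := (i', false)) h]
    exact hT i'

/-- [BTR-H4] the scales of the event `FE` are bounded: `FE .. (2^t - 1)` in a nonempty box with all sides at most `m` implies `t < Nat.log 2 m + 1`.
PROOF. `Ege`: `2^t - 1 ≤ v i - u i ≤ sd T i - 1 ≤ m - 1` (`mem_sites'`), so `2^t ≤ m`, `Nat.le_log_of_pow_le` (or `Nat.pow_le_iff_le_log`). -/
theorem FE_scale {r : ℕ} {J : Finset (Fin d)} {T : Box d} {m : ℕ} (hm : ∀ i, sd T i ≤ m) {x : Site d}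
    {t : ℕ} {U : Finset (Site d)} (h : FE r J T Finset.univ x (2 ^ t - 1) U) :
    t ∈ Finset.range (Nat.log 2 m + 1) := by
  obtain ⟨X, hXT, -, -, -, -, i, -, u, hu, v, hv, huv⟩ := h
  have h1 := (mem_sites'.1 (hXT hu) i).1
  have h2 := (mem_sites'.1 (hXT hv) i).2
  have h3 : T (i, true) + T (i, false) + 1 ≤ (m : ℤ) := by
    have h4 := hm i
    rw [sd, Int.toNat_le] at h4
    exact h4
  have h5 : 1 ≤ 2 ^ t := Nat.one_le_two_pow
  have h6 : ((2 ^ t - 1 : ℕ) : ℤ) = ((2 ^ t : ℕ) : ℤ) - 1 := by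
    rw [Nat.cast_sub h5]
    norm_num
  rw [h6] at huv
  have h7 : ((2 ^ t : ℕ) : ℤ) ≤ (m : ℤ) := by linarith
  have h8 : 2 ^ t ≤ m := by exact_mod_cast h7
  rw [Finset.mem_range]
  exact Nat.lt_succ_of_le (Nat.le_log_of_pow_le (by norm_num) h8)

/-- [BTR-H4] thicker slabs: `Cr_low` (the slab `sbl T i k 0` has all thick sides `k`), `Pr_mono`, `Pr_sub` (`Inc_Cr`). -/
theorem HC_low {r k j m N : ℕ} {p : ℝ} (hp0 : 0 ≤ p) (hp1 : p ≤ 1) (hk : 2 ≤ k) (hN : 1 ≤ N)
    (h : HC d r k p j k m) : HC d r k p j (N * k) m := by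
  intro J hJ i hi T hT hk1 hK hm
  have hk0 : 1 ≤ k := by omega
  have hkK : k ≤ sd T i := by
    rw [hK]
    exact_mod_cast Nat.le_mul_of_pos_left k hN
  calc Pr (sites T) p (Cr r J T i)
      ≤ Pr (sites T) p (fun U => Cr r J (sbl T i k 0) i (U ∩ sites (sbl T i k 0))) :=
        Pr_mono hp0 hp1 (fun U _ hU => Cr_low hi hk hkK hU)
    _ ≤ Pr (sites (sbl T i k 0)) p (Cr r J (sbl T i k 0) i) :=
        Pr_sub hp0 hp1 _ _ (Inc_Cr r J _ i)
    _ ≤ 1 / 4 := by
        refine h J hJ i hi (sbl T i k 0) (Ne_sbl hT hk0 0) ?_ (by rw [sd_sbl_self hk0]) ?_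
        · intro i' hi' hne
          rw [sd_sbl_ne 0 hne]
          exact hk1 i' hi' hne
        · intro i' hi'
          have hne : i' ≠ i := fun he => hi' (he ▸ hi)
          rw [sd_sbl_ne 0 hne]
          exact hm i' hi'

/-- `HC` is monotone in `m` -/
theorem HC_mono {r k j K m m' : ℕ} {p : ℝ} (hm : m' ≤ m) (h : HC d r k p j K m) :
    HC d r k p j K m' := by
  intro J hJ i hi T hT hk1 hK hm2
  exact h J hJ i hi T hT hk1 hK (fun i' hi' => (hm2 i' hi').trans (by exact_mod_cast hm))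

end BTR
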