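import Pool.Agent.BTR.K9
import Pool.Agent.BTR.H3
import Pool.Agent.BTR.H4

set_option autoImplicit false

open scoped Classical
open Finset

namespace BTR
open BTP

variable {d : ℕ}

/-- [BTR-H5] all levels. `Y s` is the largest scale controlled at level `s`.
PROOF. Claim, by induction on `s`, `s < l`: for all `m'` with `y0 ≤ m' ≤ 4 Y s + 3`: `HC d (l+2) k p (l - s) (Kf d k m') m'`.
`s = 0`: `hC0`. Step from `s` to `s + 1 < l`: `step1` with `j = l - s - 1` (`j + 1 = l - s`, `j + 2 ≤ l + 2`), `ys = Y s`, `m = 4 Y (s+1) + 3` (`hC`: the claim for `m' = 4y+3`, `y0 ≤ y ≤ Y s`) gives `HF .. (l-s-1) (4 Y (s+1) + 3)`; `HF_mono` for `m'`, then `step2` (`k ≤ y0 ≤ m'`, `2 ≤ k`).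
Finally `step1` for `s = l - 1`, `j = 0`, `m = 4 Y l + 3`. -/
theorem levels {l k y0 h : ℕ} {p : ℝ} (hd : 1 ≤ d) (hl : 1 ≤ l) (hp0 : 0 ≤ p) (hp2 : p ≤ 1 / 2)
    (hk : 2 ≤ k) (hh : 1 ≤ h) (hk0 : k ≤ y0) (Y : ℕ → ℕ) (hY : ∀ s, s < l → y0 ≤ Y s)
    (hC0 : ∀ m' : ℕ, y0 ≤ m' → m' ≤ 4 * Y 0 + 3 → HC d (l + 2) k p l (Kf d k m') m')
    (c1 : ((h : ℝ) + 1) * (4 * h + 5) ^ (2 * d) * p ≤ 1 / 32)
    (c2 : ((y0 : ℝ) + 1) * (4 * y0 + 5) ^ (2 * d) *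
      ((2 * h + 1) ^ d * ((2 * h + 1) ^ d * p) ^ ((h + 2) / 2)) ≤ 1 / 32)
    (c3 : ∀ y : ℕ, y0 ≤ y → ((y : ℝ) + 1) * (4 * y + 5) ^ d *
      (d * (4 * y + 5) * (1 / 4 : ℝ) ^ (y / Kf d k (4 * y + 3) - 1)) ≤ 1 / 32)
    (c4 : ∀ s : ℕ, s < l → (((4 * Y (s + 1) + 3 : ℕ) : ℝ) + 1) *
      (4 * ((4 * Y (s + 1) + 3 : ℕ) : ℝ) + 5) ^ (2 * d) *
      (d * (4 * (Y s : ℝ) + 5) * (1 / 4 : ℝ) ^ (Y s / Kf d k (4 * Y s + 3) - 1)) ≤ 1 / 32) :
    HF d (l + 2) k p 0 (4 * Y l + 3) := by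
  have step : ∀ s, s < l → (∀ m' : ℕ, y0 ≤ m' → m' ≤ 4 * Y s + 3 →
      HC d (l + 2) k p (l - s) (Kf d k m') m') →
      HF d (l + 2) k p (l - s - 1) (4 * Y (s + 1) + 3) := by
    intro s hs hC
    refine step1 (ys := Y s) (y0 := y0) (h := h) hd hp0 hp2 hk (by omega) hh hk0 (hY s hs) ?_ c1 c2 c3
      (c4 s hs)
    intro y hy0 hys
    have h1 := hC (4 * y + 3) (by omega) (by omega)
    rw [show l - s = l - s - 1 + 1 by omega] at h1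
    exact h1
  have claim : ∀ s, s < l → ∀ m' : ℕ, y0 ≤ m' → m' ≤ 4 * Y s + 3 →
      HC d (l + 2) k p (l - s) (Kf d k m') m' := by
    intro s
    induction s with
    | zero =>
      intro _ m' h1 h2
      exact hC0 m' h1 h2
    | succ s ih =>
      intro hs m' h1 h2
      have h3 := step s (by omega) (ih (by omega))
      rw [show l - (s + 1) = l - s - 1 by omega]
      exact step2 hd hp0 hp2 (by omega) (by omega) (by omega) (HF_mono h2 h3)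
  have h5 := step (l - 1) (by omega) (claim (l - 1) (by omega))
  rw [show l - (l - 1) - 1 = 0 by omega, show l - 1 + 1 = l by omega] at h5
  exact h5

end BTR
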