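import Pool.Agent.BTR.K4
import Pool.Agent.BTR.K6
import Pool.Agent.BTR.K10
import Pool.Agent.BTR.K11

set_option autoImplicit false

open scoped Classical
open Finset

namespace BTR
open BTP

variable {d : ℕ}

/-- helpers on one side of every thick direction: below the box if `s i = true`, above it if `s i = false` -/
def Os (J : Finset (Fin d)) (V : Box d) (s : Fin d → Bool) : Set (Site d) :=
  {u | ∃ i ∈ J, (s i = true ∧ u i < - V (i, false)) ∨ (s i = false ∧ V (i, true) < u i)}

/-- the event: a connected set with an extent at least `S` in a long direction is built with the one-sided helpers -/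
def CE (r : ℕ) (J : Finset (Fin d)) (V : Box d) (s : Fin d → Bool) (S : ℝ) (U : Finset (Site d)) :
    Prop :=
  ∃ X : Finset (Site d), X ⊆ sites V ∧ Cn X ∧ Bu r (Os J V s) U X ∧ ∃ i, i ∉ J ∧ Lg X i S

theorem Inc_CE (r : ℕ) (J : Finset (Fin d)) (V : Box d) (s : Fin d → Bool) (S : ℝ) :
    Inc (CE r J V s S) := by
  rintro U U' hU ⟨X, hX, hc, hB, hi⟩
  exact ⟨X, hX, hc, hB.mono (Set.Subset.refl _) hU, hi⟩

/-- [BTR-H6] a built set that does not touch both sides of any thick direction is built with one-sided helpers.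
PROOF. `s i := true` iff no point of `X` has `u i = V (i, true)`. `Bu.restrict` with `Y = X`: let `v ∈ X ⊆ sites V`, `stp v j ∈ Oj J V`: some `i ∈ J` with `stp v j i` outside the range (so `i = j.1`, `stp_ne`, `mem_sites'`). If `stp v j i > V (i, true)`, then `v i = V (i, true)` (`stp_self`), so `s i = false`. If `stp v j i < - V (i, false)`, then `v i = - V (i, false)`, so by `h` no point of `X` has `u i = V (i, true)`: `s i = true`. -/
theorem one_sided {r : ℕ} {J : Finset (Fin d)} {V : Box d} {U X : Finset (Site d)}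
    (hX : X ⊆ sites V) (hB : Bu r (Oj J V) U X)
    (h : ∀ i ∈ J, ¬ ((∃ u ∈ X, u i = - V (i, false)) ∧ ∃ u ∈ X, u i = V (i, true))) :
    ∃ s : Fin d → Bool, Bu r (Os J V s) U X := by
  refine ⟨fun i => decide (¬ ∃ u ∈ X, u i = V (i, true)), ?_⟩
  refine hB.restrict (Finset.Subset.refl X) ?_ (fun v _ j h1 h2 => absurd h1 h2) (fun v _ h => h)
  intro v hv j hj
  obtain ⟨i, hiJ, hor⟩ := hj
  have hvs := mem_sites'.mp (hX hv) i
  have hij : i = j.1 := by
    by_contra hne
    rw [stp_ne v j hne] at hor
    rcases hor with h1 | h1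
    · exact absurd hvs.1 (not_le.mpr h1)
    · exact absurd hvs.2 (not_le.mpr h1)
  subst hij
  refine ⟨j.1, hiJ, ?_⟩
  have hst := stp_self v j
  rcases hor with h1 | h1
  · left
    refine ⟨?_, h1⟩
    have hv1 : v j.1 = - V (j.1, false) := by
      rw [hst] at h1
      split_ifs at h1 <;> omega
    have := h j.1 hiJ
    simp only [decide_eq_true_eq]
    intro h2
    exact this ⟨⟨v, hv, hv1⟩, h2⟩
  · right
    refine ⟨?_, h1⟩
    have hv1 : v j.1 = V (j.1, true) := by
      rw [hst] at h1
      split_ifs at h1 <;> omega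
    simp only [decide_eq_false_iff_not, not_not]
    exact ⟨v, hv, hv1⟩

end BTR
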