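import Pool.Agent.BTR.R5
import Pool.Agent.BTR.A1
import Pool.Agent.BTS.A2
set_option autoImplicit false

open scoped Classical
open Finset

namespace BTR
open BTP BTS

variable {d lt : ℕ} (a : Pc d lt)

/-- the counts of the first layer after one more level in direction `j`, if all new sites are unexplored (`lt + 1` heights) -/
noncomputable def sh1 (lt : ℕ) (T : Box d) (j : Dir d) (m : Dir d → ℝ) (i : Dir d) : ℝ :=
  if i.1 = j.1 then m i else m i + ((lt : ℝ) + 1) * ∏ l ∈ (Finset.univ.erase i.1).erase j.1, (sd T l : ℝ)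
/-- the counts of the second layer (one height) -/
noncomputable def sh2 (T : Box d) (j : Dir d) (m : Dir d → ℝ) (i : Dir d) : ℝ :=
  if i.1 = j.1 then m i else m i + ∏ l ∈ (Finset.univ.erase i.1).erase j.1, (sd T l : ℝ)
noncomputable def sh3 (T : Box d) (j : Dir d) (m : Dir d → Dir d → ℝ) (i i' : Dir d) : ℝ :=
  if i.1 = j.1 ∨ i'.1 = j.1 ∨ i.1 = i'.1 then m i i' else
    m i i' + ∏ l ∈ ((Finset.univ.erase i.1).erase i'.1).erase j.1, (sd T l : ℝ)

/-- [BTR-I1] the bounds for the values of the directions. PROOF. `bv_ge`, `th_le`; `exp gm ≥ 1`. -/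
theorem th_le_bT (T : Box d) {m1 m2 : Dir d → ℝ} (h1 : ∀ i, 0 ≤ m1 i) (h2 : ∀ i, 0 ≤ m2 i)
    (l : Dir d) : a.th T l.1 ≤ a.bT T m1 m2 l := by
  have h := th_le a T l.1
  exact bv_ge a.hq.le (Real.one_le_exp (gm_nonneg a T l.1)) (by linarith) (h1 l) (h2 l)

/-- [BTR-I1] PROOF. `bvk_le_one` with `z = z T l.1`, `gm_nonneg`. -/
theorem bT_le_one (T : Box d) {m1 m2 : Dir d → ℝ} {l : Dir d} (h1 : 0 ≤ m1 l) (h2 : 0 ≤ m2 l)
    (h1' : a.q * m1 l ≤ ((lt : ℝ) + 1) * a.z T l.1) (h2' : a.q * m2 l ≤ a.z T l.1) :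
    a.bT T m1 m2 l ≤ 1 := by
  have h := th_le a T l.1
  have hg := gm_nonneg a T l.1
  unfold Pc.gm at hg
  exact bvk_le_one a.hq.le (z_pos a T l.1) (th_pos a T l.1).le (by linarith) hg h1 h1' h2 h2'

/-- [BTR-I1] PROOF. `bvk_mono`. -/
theorem bT_mono (T : Box d) {m1 m2 m1' m2' : Dir d → ℝ} {l : Dir d} (h1 : 0 ≤ m1 l)
    (h1' : m1 l ≤ m1' l) (h2 : 0 ≤ m2 l) (h2' : m2 l ≤ m2' l) (h : a.q * m2' l ≤ a.z T l.1) :
    a.bT T m1 m2 l ≤ a.bT T m1' m2' l := by
  have ht := th_le a T l.1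
  have hg := gm_nonneg a T l.1
  unfold Pc.gm at hg
  exact bvk_mono a.hq.le (z_pos a T l.1) (th_pos a T l.1).le (by linarith) hg h1 h1' h2 h2' h

/-- the exponent of the change of the value of the direction `l` -/
noncomputable def be (T : Box d) (j l : Dir d) : ℝ :=
  if l.1 = j.1 then 1 / (4 * a.X T j.1) else
    7 * ((lt : ℝ) + 1) * ((1 + a.z T l.1) / (a.th T l.1 * a.X T j.1))

/-- [BTR-I1] the change of the value of one direction (cf. BTS/I1a.lean).
PROOF. `l.1 = j.1`: the counts do not change, `bv_param` with `e = 1/(8X₀)` (`gm_up_le`), `e' = 0` (`th_up_same`). `l.1 ≠ j.1`: `bvk_shift` at the new parameters, with `Δ = ∏`, `qΔ ≤ z_l/X₀` (`q_prod_le'`), `exp(gm')² ≤ (1+z')/z' ≤ (1+z)/z` (`exp_gm_sq`, `z_le_up`), `θ' ≥ θ(1 - 1/X₀) ≥ 0.99 θ` (`th_le_up`, `X₀ ≥ 100`):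
factor `≤ 1 + 3.04 (lt+1)(1+z)/(θ X₀)`; then `bv_param` with `e = 1/(8X₀)`, `e' = (1+z)/X₀` (`th_up_le`). Total exponent `≤ 1/(4X₀) + (1+z)/X₀ + 3.04 (lt+1)(1+z)/(θX₀) ≤ 7 (lt+1)(1+z)/(θX₀)` as `θ ≤ 1/64`. -/
theorem bT_step {T : Box d} (hT : Ne T) (j l : Dir d) {m1 m2 : Dir d → ℝ} (h1 : ∀ i, 0 ≤ m1 i)
    (h2 : ∀ i, 0 ≤ m2 i) :
    a.bT (up T j) (sh1 lt T j m1) (sh2 T j m2) l ≤ Real.exp (be a T j l) * a.bT T m1 m2 l := by
  have hX0 : 100 ≤ a.X T j.1 := a.hH1.trans (X_ge a T j.1)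
  have hX0p : 0 < a.X T j.1 := by linarith
  have hx1 : 1 ≤ Real.exp (a.gm T l.1) := Real.one_le_exp (gm_nonneg a T l.1)
  have hx1' : 1 ≤ Real.exp (a.gm (up T j) l.1) := Real.one_le_exp (gm_nonneg a (up T j) l.1)
  have hth := th_pos a T l.1
  have hth' := th_pos a (up T j) l.1
  have hthle := th_le a T l.1
  have hthle' := th_le a (up T j) l.1
  have he : 0 ≤ 1 / (8 * a.X T j.1) := by positivity
  have hgm := gm_up_le a hT j l.1
  have hk1 : (1 : ℝ) ≤ (lt : ℝ) + 1 := by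
    have : (0 : ℝ) ≤ (lt : ℝ) := Nat.cast_nonneg lt
    linarith
  have hxx : Real.exp (a.gm (up T j) l.1) ≤ Real.exp (a.gm T l.1) * Real.exp (1 / (8 * a.X T j.1)) := by
    rw [← Real.exp_add]
    exact Real.exp_le_exp.2 hgm
  by_cases hl : l.1 = j.1
  · have e1 : sh1 lt T j m1 l = m1 l := by unfold sh1; rw [if_pos hl]
    have e2 : sh2 T j m2 l = m2 l := by unfold sh2; rw [if_pos hl]
    have e3 : be a T j l = 2 * (1 / (8 * a.X T j.1)) + 0 := by
      unfold be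
      rw [if_pos hl]
      field_simp
      norm_num
    rw [e3]
    unfold Pc.bT
    rw [e1, e2]
    apply bv_param a.hq.le hx1 hth.le he le_rfl hxx (Real.exp_pos _).le _ (h1 l) (h2 l)
    rw [Real.exp_zero, mul_one, hl]
    exact th_up_same a hT j
  · set D : ℝ := ∏ m ∈ (Finset.univ.erase l.1).erase j.1, (sd T m : ℝ) with hDdef
    have hD0 : 0 ≤ D := Finset.prod_nonneg (fun m _ => Nat.cast_nonneg _)
    have e1 : sh1 lt T j m1 l = m1 l + ((lt : ℝ) + 1) * D := by unfold sh1; rw [if_neg hl]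
    have e2 : sh2 T j m2 l = m2 l + D := by unfold sh2; rw [if_neg hl]
    have hqD : a.q * D ≤ a.z T l.1 / a.X T j.1 := q_prod_le' a hl
    have hz := z_pos a T l.1
    have hz' := z_pos a (up T j) l.1
    have hzle := z_le_up a hT j l.1
    have hx2 : Real.exp (a.gm (up T j) l.1) ^ 2 ≤ (1 + a.z T l.1) / a.z T l.1 := by
      refine (exp_gm_sq a (up T j) l.1).trans ?_
      rw [add_div, add_div, div_self hz.ne', div_self hz'.ne']
      have := one_div_le_one_div_of_le hz hzle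
      linarith
    have htl := th_le_up a hT j l.1
    have hX1 : 1 / a.X T j.1 ≤ 1 / 100 := one_div_le_one_div_of_le (by norm_num) hX0
    have hth2 : 0.99 * a.th T l.1 ≤ a.th (up T j) l.1 := by
      have : a.th T l.1 * 0.99 ≤ a.th T l.1 * (1 - 1 / a.X T j.1) :=
        mul_le_mul_of_nonneg_left (by linarith) hth.le
      linarith
    have hshift := bvk_shift (lt := lt) (q := a.q) (x := Real.exp (a.gm (up T j) l.1))
      (th := a.th (up T j) l.1)
      (m1 := m1 l) (m2 := m2 l) (D := D) a.hq.le hx1' hth' (by linarith) (h1 l) (h2 l) hD0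
    have hpar := bv_param (q := a.q) (x := Real.exp (a.gm T l.1))
      (x' := Real.exp (a.gm (up T j) l.1)) (th := a.th T l.1) (th' := a.th (up T j) l.1)
      (n1 := m1 l) (n2 := m2 l) (e := 1 / (8 * a.X T j.1)) (e' := (1 + a.z T l.1) / a.X T j.1)
      a.hq.le hx1 hth.le he (by positivity) hxx (Real.exp_pos _).le (th_up_le a hT j l.1)
      (h1 l) (h2 l)
    set w : ℝ := (1 + a.z T l.1) / (a.th T l.1 * a.X T j.1) with hw
    have hw0 : 0 ≤ w := by positivity
    have hqD0 : 0 ≤ a.q * D := mul_nonneg a.hq.le hD0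
    have hfac : 3 * ((lt : ℝ) + 1) * (a.q * D) * Real.exp (a.gm (up T j) l.1) ^ 2 /
        a.th (up T j) l.1 ≤ 3.04 * (((lt : ℝ) + 1) * w) := by
      have s1 : (a.q * D) * Real.exp (a.gm (up T j) l.1) ^ 2 ≤ (1 + a.z T l.1) / a.X T j.1 := by
        calc (a.q * D) * Real.exp (a.gm (up T j) l.1) ^ 2
            ≤ a.z T l.1 / a.X T j.1 * ((1 + a.z T l.1) / a.z T l.1) :=
              mul_le_mul hqD hx2 (by positivity) (by positivity)
          _ = _ := by field_simp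
      calc 3 * ((lt : ℝ) + 1) * (a.q * D) * Real.exp (a.gm (up T j) l.1) ^ 2 / a.th (up T j) l.1
          = ((lt : ℝ) + 1) * (3 * ((a.q * D) * Real.exp (a.gm (up T j) l.1) ^ 2) /
              a.th (up T j) l.1) := by ring
        _ ≤ ((lt : ℝ) + 1) * (3 * ((1 + a.z T l.1) / a.X T j.1) / (0.99 * a.th T l.1)) := by
          apply mul_le_mul_of_nonneg_left _ (by linarith)
          apply div_le_div₀ (by positivity) (by linarith) (by positivity) hth2
        _ = (3 / 0.99) * (((lt : ℝ) + 1) * w) := by rw [hw]; field_simp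
        _ ≤ 3.04 * (((lt : ℝ) + 1) * w) := by
          apply mul_le_mul_of_nonneg_right _ (by positivity)
          norm_num
    have hexp2 : 1 + 3 * ((lt : ℝ) + 1) * (a.q * D) * Real.exp (a.gm (up T j) l.1) ^ 2 /
        a.th (up T j) l.1 ≤ Real.exp (3.04 * (((lt : ℝ) + 1) * w)) := by
      have := Real.add_one_le_exp (3.04 * (((lt : ℝ) + 1) * w))
      linarith
    have hbv0 : 0 ≤ bv a.q (Real.exp (a.gm T l.1)) (a.th T l.1) (m1 l) (m2 l) :=
      bv_nonneg a.hq.le hx1 hth.le (h1 l) (h2 l)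
    have hfac0 : 0 ≤ 1 + 3 * ((lt : ℝ) + 1) * (a.q * D) * Real.exp (a.gm (up T j) l.1) ^ 2 /
        a.th (up T j) l.1 := by
      positivity
    have hbe : be a T j l = 7 * ((lt : ℝ) + 1) * w := by unfold be; rw [if_neg hl]
    have hww : w ≤ ((lt : ℝ) + 1) * w := by
      have := mul_le_mul_of_nonneg_right hk1 hw0
      linarith
    have hfin : 2 * (1 / (8 * a.X T j.1)) + (1 + a.z T l.1) / a.X T j.1 +
        3.04 * (((lt : ℝ) + 1) * w) ≤ 7 * ((lt : ℝ) + 1) * w := by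
      have s1 : (1 + a.z T l.1) / a.X T j.1 = a.th T l.1 * w := by rw [hw]; field_simp
      have s2 : a.th T l.1 * w ≤ 1 / 64 * w := mul_le_mul_of_nonneg_right hthle hw0
      have s3 : 2 * (1 / (8 * a.X T j.1)) ≤ (1 + a.z T l.1) / a.X T j.1 := by
        rw [show 2 * (1 / (8 * a.X T j.1)) = (1 / 4) / a.X T j.1 by field_simp; norm_num]
        apply div_le_div_of_nonneg_right _ hX0p.le
        linarith
      linarith
    unfold Pc.bT
    rw [e1, e2, hbe]
    refine hshift.trans ?_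
    refine (mul_le_mul hpar hexp2 hfac0 (mul_nonneg (Real.exp_pos _).le hbv0)).trans ?_
    rw [mul_right_comm, ← Real.exp_add]
    exact mul_le_mul_of_nonneg_right (Real.exp_le_exp.2 hfin) hbv0

end BTR
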