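import Pool.Agent.BTR.V14b
import Pool.Agent.BTR.V11
import Pool.Agent.BTR.G3

set_option autoImplicit false

open scoped Classical
open Finset

namespace BTR
open BTP BTS

variable {d lt : ℕ} (a : Pc d lt)

theorem v14c_f_le (n : ℕ) : a.f n ≤ 4 * max (n : ℝ) a.H1 := by
  have hK := a.hK
  have hH1 := a.hH1
  have hKH := a.hKH
  have hH := a.hH
  set X : ℝ := max (n : ℝ) a.H1 with hX
  have h1 : (n : ℝ) ≤ X := le_max_left _ _
  have h2 : a.H1 ≤ X := le_max_right _ _
  have h3 : a.K * Real.sqrt n ≤ X := by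
    have k1 : a.K ≤ Real.sqrt X := by
      apply Real.le_sqrt_of_sq_le
      linarith
    have k2 : Real.sqrt n ≤ Real.sqrt X := Real.sqrt_le_sqrt h1
    calc a.K * Real.sqrt n ≤ Real.sqrt X * Real.sqrt X :=
          mul_le_mul k1 k2 (Real.sqrt_nonneg _) (Real.sqrt_nonneg _)
      _ = X := Real.mul_self_sqrt (by linarith)
  have h4 : a.f n = (n : ℝ) + a.K * Real.sqrt n + a.H := rfl
  rw [h4, hH]
  linarith

theorem v14c_f_two (n : ℕ) : a.f (n + 1) ≤ 2 * a.f n := by
  have hK := a.hK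
  have hH1 := a.hH1
  have hKH := a.hKH
  have hH := a.hH
  have h1 := f_incr_le a n
  have h2 := f_ge_H a n
  nlinarith

/-- the constants -/
theorem v14c_R0 : (lt : ℝ) + 2 ≤ a.R0 / 32 := by
  have hR0 := a.hR0
  have hk : (1 : ℝ) ≤ (lt : ℝ) + 1 := by
    have : (0 : ℝ) ≤ lt := Nat.cast_nonneg lt
    linarith
  have hk2 : (1 : ℝ) ≤ ((lt : ℝ) + 1) ^ 2 := one_le_pow₀ hk
  have he := Real.add_one_le_exp ((lt : ℝ) + 2)
  have he0 := Real.exp_pos ((lt : ℝ) + 2)
  have h1 : Real.exp ((lt : ℝ) + 2) ≤ ((lt : ℝ) + 1) ^ 2 * Real.exp ((lt : ℝ) + 2) :=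
    le_mul_of_one_le_left he0.le hk2
  linarith

/-- [BTR-V14c] comparison.
PROOF. Let `X = max n H₁`, `y₂ = q φ(n+1) S`, `y₁ = q φ(n) S ≥ y₂/2`, `R₀ X ≤ 2 m`. By `diff_long` the second difference is at most `(4/m) min 1 (g(w/2)) ≤ (8/(R₀X)) min 1 (g(w/2))`, `w = q φ(m) S`.
With `k = lt+1`, `κ = lt+2`: if `y₂ ≤ 1`: `8/(R₀X) ≤ e^{-κ}/(2048k²X)` as `R₀ ≥ 16384 k² e^κ` (`hR0`). If `y₂ > 1`: `w/2 = (φ(m)/(2φ(n))) y₁ ≥ (m/(8X)) y₁ ≥ (R₀/16)(y₂/2) = (R₀/32) y₂ ≥ 1` (`f ≤ 4X`), `g(w/2) ≤ 2 e^{-w/2}` (`gk_tail`), so the second difference is at most `(16/(R₀X)) e^{-(R₀/32) y₂}`, and `32768k²/R₀ ≤ 2e^{-κ} ≤ 1`, `R₀/32 ≥ κ` (cf. BTS/V14c.lean).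
So the second difference is at most half of the lower bound of `diff_short`. -/
theorem diff_cmp {S : ℝ} (hS : 0 < S) {n m : ℕ} (h : a.q * (a.f (n + 1) * S) ≤ a.Z)
    (hR : a.R0 * max (n : ℝ) a.H1 ≤ 2 * m) :
    a.G (a.f m * S) - a.G (a.f (m + 1) * S) +
        Real.exp (-(((lt : ℝ) + 2) * (a.q * (a.f (n + 1) * S)))) /
          (2048 * ((lt : ℝ) + 1) ^ 2 * max (n : ℝ) a.H1) ≤
      a.G (a.f n * S) - a.G (a.f (n + 1) * S) := by
  have hq := a.hq
  have hH1 := a.hH1
  have hR0 := a.hR0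
  have hR0k := v14c_R0 a
  have hshort := diff_short a hS n h
  have hf4 := v14c_f_le a n
  have hf2 := v14c_f_two a n
  have hfm := f_ge_self a m
  set X : ℝ := max (n : ℝ) a.H1 with hX
  set y : ℝ := a.q * (a.f (n + 1) * S) with hy
  have hXH : a.H1 ≤ X := le_max_right _ _
  have hX0 : 0 < X := by linarith
  have hk : (1 : ℝ) ≤ (lt : ℝ) + 1 := by
    have : (0 : ℝ) ≤ lt := Nat.cast_nonneg lt
    linarith
  have hk2 : (1 : ℝ) ≤ ((lt : ℝ) + 1) ^ 2 := one_le_pow₀ hk
  set c : ℝ := ((lt : ℝ) + 1) ^ 2 with hc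
  set κ : ℝ := (lt : ℝ) + 2 with hκ
  have hκ2 : 2 ≤ κ := by
    have : (0 : ℝ) ≤ lt := Nat.cast_nonneg lt
    rw [hκ]; linarith
  have heκ0 := Real.exp_pos κ
  have heκ : 3 ≤ Real.exp κ := by
    have := Real.add_one_le_exp κ
    linarith
  have hcX : 0 < c * X := mul_pos (by linarith) hX0
  have hXm : 8192 * (Real.exp κ * (c * X)) ≤ m := by
    have h1 : 16384 * c * Real.exp κ * X ≤ a.R0 * X := mul_le_mul_of_nonneg_right hR0 hX0.le
    nlinarith
  have hXm2 : 16384 * (c * X) ≤ m := by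
    have h1 : 3 * (c * X) ≤ Real.exp κ * (c * X) := mul_le_mul_of_nonneg_right heκ hcX.le
    linarith
  have hcX1 : X ≤ c * X := le_mul_of_one_le_left hX0.le hk2
  have hm0 : (0 : ℝ) < m := by linarith
  have hmH : a.H1 ≤ m := by linarith
  have hlong := diff_long a hS hmH
  have hXc : 0 < 2048 * c * X := by positivity
  have hkey : 4 / (m : ℝ) * min 1 (gk (lt + 1) (a.q * (a.f m * S) / 2)) ≤
      Real.exp (-(κ * y)) / (2048 * c * X) := by
    have h4m : 0 < 4 / (m : ℝ) := by positivity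
    rcases le_or_gt y 1 with hy1 | hy1
    · have h1 : 4 / (m : ℝ) * min 1 (gk (lt + 1) (a.q * (a.f m * S) / 2)) ≤ 4 / (m : ℝ) := by
        have := mul_le_mul_of_nonneg_left (min_le_left 1 (gk (lt + 1) (a.q * (a.f m * S) / 2))) h4m.le
        linarith
      have h2 : 4 / (m : ℝ) ≤ Real.exp (-κ) / (2048 * c * X) := by
        rw [div_le_div_iff₀ hm0 hXc]
        have h3 : Real.exp (-κ) * Real.exp κ = 1 := by
          rw [← Real.exp_add, neg_add_cancel, Real.exp_zero]
        have h4 := mul_le_mul_of_nonneg_left hXm (Real.exp_pos (-κ)).le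
        have h5 : Real.exp (-κ) * (8192 * (Real.exp κ * (c * X))) =
            8192 * (c * X) * (Real.exp (-κ) * Real.exp κ) := by ring
        rw [h5, h3] at h4
        linarith
      have h3 : Real.exp (-κ) / (2048 * c * X) ≤ Real.exp (-(κ * y)) / (2048 * c * X) := by
        apply div_le_div_of_nonneg_right _ hXc.le
        apply Real.exp_le_exp.2
        nlinarith
      linarith
    · have hqS : 0 < a.q * S := mul_pos hq hS
      have hyX : y ≤ 8 * X * (a.q * S) := by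
        have h1 : a.f (n + 1) ≤ 8 * X := by linarith
        have h2 := mul_le_mul_of_nonneg_right h1 hqS.le
        have h3 : y = a.f (n + 1) * (a.q * S) := by rw [hy]; ring
        rw [h3]
        exact h2
      have hR0p : 0 < a.R0 / 32 := by linarith
      have hw : a.R0 / 32 * y ≤ a.q * (a.f m * S) / 2 := by
        have h1 : a.R0 * X / 2 ≤ a.f m := by linarith
        have h2 := mul_le_mul_of_nonneg_right h1 hqS.le
        have h3 : a.q * (a.f m * S) = a.f m * (a.q * S) := by ring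
        have h4 := mul_le_mul_of_nonneg_left hyX hR0p.le
        rw [h3]
        have h5 : a.R0 / 32 * (8 * X * (a.q * S)) = a.R0 * X / 2 * (a.q * S) / 2 := by ring
        rw [h5] at h4
        linarith
      have hw2 : κ * y ≤ a.q * (a.f m * S) / 2 :=
        (mul_le_mul_of_nonneg_right hR0k (by linarith)).trans hw
      have hg : gk (lt + 1) (a.q * (a.f m * S) / 2) ≤ 2 * Real.exp (-(κ * y)) := by
        refine (gk_tail (k := lt + 1) (Nat.succ_pos _) (by nlinarith)).trans ?_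
        have : Real.exp (-(a.q * (a.f m * S) / 2)) ≤ Real.exp (-(κ * y)) := by
          apply Real.exp_le_exp.2
          linarith
        linarith
      have h1 : 4 / (m : ℝ) * min 1 (gk (lt + 1) (a.q * (a.f m * S) / 2)) ≤
          4 / (m : ℝ) * (2 * Real.exp (-(κ * y))) :=
        mul_le_mul_of_nonneg_left ((min_le_right _ _).trans hg) h4m.le
      refine h1.trans ?_
      have he := Real.exp_pos (-(κ * y))
      rw [div_mul_eq_mul_div, div_le_div_iff₀ hm0 hXc]
      have h2 := mul_le_mul_of_nonneg_left hXm2 he.le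
      linarith
  have e : Real.exp (-(κ * y)) / (1024 * c * X) = 2 * (Real.exp (-(κ * y)) / (2048 * c * X)) := by
    have hc0 : c ≠ 0 := by positivity
    field_simp
    ring
  rw [e] at hshort
  linarith

end BTR
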