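import Pool.Agent.BTR.V12
import Pool.Agent.BTS.V13

set_option autoImplicit false

open scoped Classical
open Finset

namespace BTR
open BTP BTS

variable {d lt : ℕ} (a : Pc d lt)

theorem v17_f {m : ℕ} {M : ℝ} (hm : (m : ℝ) ≤ M) (hH : a.H1 ≤ M) : a.f m ≤ 4 * M := by
  have h1 := a.hH1
  have hK := a.hKH
  have hH' := a.hH
  have hM : 0 ≤ M := by linarith
  have e1 : a.K ≤ Real.sqrt M := Real.le_sqrt_of_sq_le (hK.trans hH)
  have e2 : Real.sqrt m ≤ Real.sqrt M := Real.sqrt_le_sqrt hm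
  have e3 : a.K * Real.sqrt m ≤ Real.sqrt M * Real.sqrt M :=
    mul_le_mul e1 e2 (Real.sqrt_nonneg _) (Real.sqrt_nonneg _)
  rw [Real.mul_self_sqrt hM] at e3
  show (m : ℝ) + a.K * Real.sqrt m + a.H ≤ 4 * M
  linarith

/-- [BTR-V17] the shape of a cheap box with large faces.
PROOF. Suppose `Xm < e₀A`; let `X_i = Xm` (`Xm_spec`) and `X_k` maximal; `zm = z_k = q ∏_{l≠k} X_l ≥ 1/8` (`zm_eq`). If `X_i = X_k` then all sides are `Xm < e₀ A` and `zm = q Xm^{d-1} < e₀^{d-1} ≤ 1/8` (`he0E`: `8 e₀ ≤ 8 e₀ (4E)^{d-2} ≤ 1`), a contradiction (take `i ≠ k` in all cases). So `q X_i ∏_{l≠i,k} X_l ≥ 1/8`, `∏_{l ≠ i,k} X_l > A^{d-1}/(8 e₀ A) = A^{d-2}/(8e₀) ≥ (4EA)^{d-2}` (`hqA`, `he0E`).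
For `d = 2` this is `1 > 1`. For `d ≥ 3`: `X_k^{d-2} ≥ ∏ > (4EA)^{d-2}`, `X_k > 4EA ≥ H₁` (`hEA2`), so `x k = X_k > 4EA`. Let `m0 = ⌊EA⌋₊ ≥ EA/2` (`EA ≥ 10`), `m0 ≤ x k`. `GP.Psi_ge_min`: `Ps ≥ m0 G(∏_{j≠k} φ(min (x j) m0))`, and `∏ ≤ φ(x i) φ(m0)^{d-2} ≤ 4 X_i (4EA)^{d-2}` (`f_le`; `φ(m0) ≤ 4 max m0 H₁ ≤ 4EA`), `q ∏ ≤ 4 e₀ A (4EA)^{d-2}/A^{d-1} = 4e₀(4E)^{d-2} ≤ 1/2 ≤ 1`.
`G ≥ G at q y = 1 ≥ g(1) - c₁ - c₀ ≥ g(1)/2` (`G_anti`, `G_ge`, `hc01`). `Ps ≥ (EA/2) g(1)/2 ≥ 2dAλ` (`hEA`), a contradiction. -/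
theorem shape {T : Box d} (hT : Ne T) (hz : 1 / 8 ≤ a.zm T) (hP : a.Ps T < 2 * (d * a.A * lamk (d - 1) (lt + 1))) :
    a.e0 * a.A ≤ a.Xm T := by
  by_contra hcon
  rw [not_le] at hcon
  have hd := a.hd
  have hA := a.hA
  have hA0 : 0 < a.A := by linarith
  have hE := a.hE
  have he0 := a.he0
  have hq := a.hq
  have hH1 := a.hH1
  -- the largest side
  have : Nonempty (Fin d) := ⟨⟨0, by omega⟩⟩
  obtain ⟨k, -, hk⟩ := Finset.exists_max_image (Finset.univ : Finset (Fin d)) (a.X T)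
    Finset.univ_nonempty
  have hk' : ∀ l, a.X T l ≤ a.X T k := fun l => hk l (Finset.mem_univ l)
  obtain ⟨⟨i₀, hi₀⟩, hmin⟩ := Xm_spec a T
  -- `i ≠ k` with `X_i = Xm`
  obtain ⟨i, hik, hi⟩ : ∃ i, i ≠ k ∧ a.X T i = a.Xm T := by
    by_cases h : i₀ = k
    · obtain ⟨j, hj⟩ : ∃ j : Fin d, j ≠ k := by
        have : Nontrivial (Fin d) := Fin.nontrivial_iff_two_le.2 hd
        exact exists_ne k
      refine ⟨j, hj, le_antisymm ?_ (hmin j)⟩
      rw [hi₀, h]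
      exact hk' j
    · exact ⟨i₀, h, hi₀.symm⟩
  have hXi : a.X T i < a.e0 * a.A := by rw [hi]; exact hcon
  have hXi0 : 0 < a.X T i := X_pos a T i
  have hzk : a.zm T = a.z T k := zm_eq a hk'
  have hmem : i ∈ Finset.univ.erase k := Finset.mem_erase.2 ⟨hik, Finset.mem_univ _⟩
  have hcard : ((Finset.univ.erase k).erase i).card = d - 2 := by
    rw [Finset.card_erase_of_mem hmem, Finset.card_erase_of_mem (Finset.mem_univ k),
      Finset.card_univ, Fintype.card_fin]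
    omega
  have hz2 : a.z T k = a.q * (a.X T i * ∏ l ∈ (Finset.univ.erase k).erase i, a.X T l) := by
    rw [Finset.mul_prod_erase _ _ hmem]
    rfl
  have hprod : ∏ l ∈ (Finset.univ.erase k).erase i, a.X T l ≤ a.X T k ^ (d - 2) := by
    rw [← hcard, ← Finset.prod_const]
    exact Finset.prod_le_prod (fun l _ => (X_pos a T l).le) fun l _ => hk' l
  have hpp : 0 < ∏ l ∈ (Finset.univ.erase k).erase i, a.X T l :=
    Finset.prod_pos fun l _ => X_pos a T l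
  have hpow : a.q * (a.A * a.A ^ (d - 2)) = 1 := by
    have h1 : a.A * a.A ^ (d - 2) = a.A ^ (d - 1) := by
      rw [← pow_succ']
      congr 1
      omega
    rw [h1]
    exact a.hqA
  -- the largest side is large
  have hXk : 4 * a.E * a.A < a.X T k := by
    refine lt_of_pow_lt_pow_left₀ (d - 2) (X_pos a T k).le (lt_of_lt_of_le ?_ hprod)
    generalize ∏ l ∈ (Finset.univ.erase k).erase i, a.X T l = W at *
    have h1 : 1 / 8 ≤ a.q * (a.X T i * W) := by rw [← hz2, ← hzk]; exact hz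
    have h2 : a.q * (a.X T i * W) < a.q * (a.e0 * a.A * W) :=
      mul_lt_mul_of_pos_left (mul_lt_mul_of_pos_right hXi hpp) hq
    have h3 : 1 < 8 * a.e0 * (a.q * a.A) * W := by nlinarith
    have h4 := a.he0E
    rw [mul_pow]
    have hA2 : 0 < a.A ^ (d - 2) := pow_pos hA0 _
    have hE2 : 0 < (4 * a.E) ^ (d - 2) := pow_pos (by linarith) _
    generalize a.A ^ (d - 2) = A2 at *
    generalize (4 * a.E) ^ (d - 2) = E2 at *
    -- 8 e0 E2 ≤ 1, q A A2 = 1, 1 < 8 e0 q A W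
    have h5 : A2 < 8 * a.e0 * W := by
      have h6 := mul_lt_mul_of_pos_right h3 hA2
      have h7 : 8 * a.e0 * (a.q * a.A) * W * A2 = 8 * a.e0 * W * (a.q * (a.A * A2)) := by ring
      rw [h7, hpow] at h6
      linarith
    have h8 : E2 * A2 < E2 * (8 * a.e0 * W) := mul_lt_mul_of_pos_left h5 hE2
    have h9 : E2 * (8 * a.e0 * W) ≤ 1 * W := by
      have : E2 * (8 * a.e0 * W) = (8 * a.e0 * E2) * W := by ring
      rw [this]
      exact mul_le_mul_of_nonneg_right h4 hpp.le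
    linarith
  have hEA2 := a.hEA2
  have hEA10 : 10 ≤ a.E * a.A := by nlinarith
  have hxk : a.X T k = (sd T k : ℝ) := by
    have h1 : a.X T k = max (sd T k : ℝ) a.H1 := rfl
    rw [h1]
    apply max_eq_left
    by_contra h2
    rw [not_le] at h2
    rw [max_eq_right h2.le] at h1
    nlinarith
  have hm1 : ((⌊a.E * a.A⌋₊ : ℕ) : ℝ) ≤ a.E * a.A := Nat.floor_le (by linarith)
  have hm2 : a.E * a.A / 2 ≤ ((⌊a.E * a.A⌋₊ : ℕ) : ℝ) := by
    have := Nat.lt_floor_add_one (a.E * a.A)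
    linarith
  have hmk : ⌊a.E * a.A⌋₊ ≤ sd T k := by
    have h1 : ((⌊a.E * a.A⌋₊ : ℕ) : ℝ) ≤ (sd T k : ℝ) := by
      rw [← hxk]
      nlinarith
    exact_mod_cast h1
  have hgp := gp a
  have hPsi := hgp.Psi_ge_min (sd T) k hmk
  generalize ⌊a.E * a.A⌋₊ = m0 at *
  have hle : ∏ j ∈ Finset.univ.erase k, a.f (min (sd T j) m0) ≤
      4 * a.X T i * (4 * (a.E * a.A)) ^ (d - 2) := by
    rw [← Finset.mul_prod_erase _ _ hmem]
    apply mul_le_mul
    · exact (hgp.mono (min_le_left _ _)).trans (f_le a T i)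
    · rw [← hcard, ← Finset.prod_const]
      apply Finset.prod_le_prod
      · exact fun l _ => (hgp.pos _).le
      · intro l _
        exact (hgp.mono (min_le_right _ _)).trans (v17_f a hm1 hEA2)
    · exact Finset.prod_nonneg fun l _ => (hgp.pos _).le
    · linarith
  have hpos : 0 < ∏ j ∈ Finset.univ.erase k, a.f (min (sd T j) m0) :=
    Finset.prod_pos fun l _ => hgp.pos _
  have hG := G_ge a hpos
  generalize ∏ j ∈ Finset.univ.erase k, a.f (min (sd T j) m0) = y at *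
  have hqy : a.q * y ≤ 1 := by
    have h4 := a.he0E
    have h1 : a.q * y ≤ a.q * (4 * (a.e0 * a.A) * (4 * (a.E * a.A)) ^ (d - 2)) := by
      apply mul_le_mul_of_nonneg_left _ hq.le
      refine hle.trans (mul_le_mul_of_nonneg_right (by linarith) ?_)
      exact pow_nonneg (by nlinarith) _
    have h2 : a.q * (4 * (a.e0 * a.A) * (4 * (a.E * a.A)) ^ (d - 2)) =
        4 * a.e0 * (4 * a.E) ^ (d - 2) * (a.q * (a.A * a.A ^ (d - 2))) := by
      rw [← mul_assoc 4 a.E a.A, mul_pow (4 * a.E) a.A]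
      ring
    rw [h2, hpow] at h1
    linarith
  have hqy0 : 0 < a.q * y := mul_pos hq hpos
  have hg1 : gk (lt + 1) 1 ≤ gk (lt + 1) (a.q * y) := gk_anti (k := lt + 1) hqy0 hqy
  have hZ := a.hZ
  have hmn : 0 ≤ min (a.q * y) a.Z := le_min hqy0.le (by linarith)
  have hc1 := a.hc1
  have hfr : a.c1 / (1 + min (a.q * y) a.Z) ^ 2 ≤ a.c1 := by
    apply div_le_self hc1.le
    nlinarith
  have hc01 := a.hc01
  have hGy : gk (lt + 1) 1 / 2 ≤ a.G y := by linarith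
  have hg1p : 0 < gk (lt + 1) 1 := gk_pos (k := lt + 1) one_pos
  have hfin : a.E * a.A / 2 * (gk (lt + 1) 1 / 2) ≤ a.Ps T := by
    refine le_trans ?_ hPsi
    exact mul_le_mul hm2 hGy (by linarith) (by linarith)
  have hEA := a.hEA
  have h10 : 8 * d * lamk (d - 1) (lt + 1) * a.A ≤ a.E * gk (lt + 1) 1 * a.A := mul_le_mul_of_nonneg_right hEA hA0.le
  nlinarith

end BTR
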