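import Pool.Agent.BTR.I1
import Pool.Agent.BTR.E7
import Pool.Agent.BTR.V18
set_option autoImplicit false

open scoped Classical
open Finset

/-! # The values in a state `(T, D)`; one level, many levels (port of BTS/I2a.lean, I2b.lean) -/

namespace BTR
open BTP BTS

variable {d lt : ℕ} (a : Pc d lt)

/-- [BTR-I2a] (`th_le_bT`) -/
theorem th_le_bD (T : Box d) (D : Finset (Site (d + lt))) (l : Dir d) : a.th T l.1 ≤ a.bD T D l := by
  unfold Pc.bD
  exact th_le_bT a T (fun _ => Nat.cast_nonneg _) (fun _ => Nat.cast_nonneg _) l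

theorem bD_nonneg (T : Box d) (D : Finset (Site (d + lt))) (l : Dir d) : 0 ≤ a.bD T D l :=
  (th_pos a T l.1).le.trans (th_le_bD a T D l)

theorem i2a_n1 {T : Box d} (hT : Ne T) (D : Finset (Site (d + lt))) (l : Dir d) :
    (n1 lt T D l : ℝ) ≤ ((lt : ℝ) + 1) * ∏ m ∈ Finset.univ.erase l.1, (sd T m : ℝ) := by
  have h2 : ((n1 lt T D l : ℕ) : ℝ) ≤ (((lt + 1) * ∏ m ∈ Finset.univ.erase l.1, sd T m : ℕ) : ℝ) :=
    Nat.cast_le.2 (n1_le hT D l)
  rw [Nat.cast_mul, Nat.cast_prod, Nat.cast_add, Nat.cast_one] at h2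
  exact h2

theorem i2a_n2 {T : Box d} (hT : Ne T) (D : Finset (Site (d + lt))) (l : Dir d) :
    (n2 lt T D l : ℝ) ≤ ∏ m ∈ Finset.univ.erase l.1, (sd T m : ℝ) := by
  have h2 : ((n2 lt T D l : ℕ) : ℝ) ≤ ((∏ m ∈ Finset.univ.erase l.1, sd T m : ℕ) : ℝ) :=
    Nat.cast_le.2 (n2_le hT D l)
  rwa [Nat.cast_prod] at h2

theorem i2a_q1 {T : Box d} (hT : Ne T) (D : Finset (Site (d + lt))) (l : Dir d) :
    a.q * (n1 lt T D l : ℝ) ≤ ((lt : ℝ) + 1) * a.z T l.1 := by
  have h1 := mul_le_mul_of_nonneg_left (i2a_n1 hT D l) a.hq.le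
  have h2 : (0 : ℝ) ≤ (lt : ℝ) + 1 := by positivity
  have h3 := mul_le_mul_of_nonneg_left (q_prod_le a (T := T) l.1) h2
  calc a.q * (n1 lt T D l : ℝ) ≤ a.q * (((lt : ℝ) + 1) * ∏ m ∈ Finset.univ.erase l.1, (sd T m : ℝ)) := h1
    _ = ((lt : ℝ) + 1) * (a.q * ∏ m ∈ Finset.univ.erase l.1, (sd T m : ℝ)) := by ring
    _ ≤ _ := h3

theorem i2a_q2 {T : Box d} (hT : Ne T) (D : Finset (Site (d + lt))) (l : Dir d) :
    a.q * (n2 lt T D l : ℝ) ≤ a.z T l.1 :=
  (mul_le_mul_of_nonneg_left (i2a_n2 hT D l) a.hq.le).trans (q_prod_le a (T := T) l.1)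

/-- [BTR-I2a] (`bT_le_one`, `n1_le`, `n2_le`, `q_prod_le`) -/
theorem bD_le_one {T : Box d} (hT : Ne T) (D : Finset (Site (d + lt))) (l : Dir d) :
    a.bD T D l ≤ 1 := by
  unfold Pc.bD
  exact bT_le_one a T (Nat.cast_nonneg _) (Nat.cast_nonneg _) (i2a_q1 a hT D l) (i2a_q2 a hT D l)

theorem eD_nonneg (T : Box d) (D : Finset (Site (d + lt))) (i j : Dir d) : 0 ≤ a.eD T D i j := by
  unfold Pc.eD Pc.eT
  exact mul_nonneg (mul_nonneg a.hq.le (Nat.cast_nonneg _)) (Real.exp_pos _).le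

theorem eD_symm (T : Box d) (D : Finset (Site (d + lt))) (i j : Dir d) :
    a.eD T D i j = a.eD T D j i := by
  unfold Pc.eD Pc.eT
  beta_reduce
  rw [n3_symm T D i j, add_comm (a.gm T i.1)]

theorem eD_same (T : Box d) (D : Finset (Site (d + lt))) {i j : Dir d} (h : i.1 = j.1) :
    a.eD T D i j = 0 := by
  unfold Pc.eD Pc.eT
  beta_reduce
  rw [n3_same T D h]
  simp

/-- [BTR-I2a] PROOF. `0` if `i.1 = j.1`; otherwise `n3_le`, `sd ≤ X`, `edge_le`. -/
theorem eD_le {T : Box d} (hT : Ne T) (D : Finset (Site (d + lt))) (i j : Dir d) :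
    a.eD T D i j ≤ EE a T i.1 j.1 := by
  by_cases h : i.1 = j.1
  · rw [eD_same a T D h]
    exact Real.sqrt_nonneg _
  · refine le_trans ?_ (edge_le a h)
    unfold Pc.eD Pc.eT
    beta_reduce
    refine mul_le_mul_of_nonneg_right (mul_le_mul_of_nonneg_left ?_ a.hq.le) (Real.exp_pos _).le
    have h2 : ((n3 lt T D i j : ℕ) : ℝ) ≤
        ((∏ m ∈ (Finset.univ.erase i.1).erase j.1, sd T m : ℕ) : ℝ) :=
      Nat.cast_le.2 (n3_le hT D i j)
    rw [Nat.cast_prod] at h2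
    exact h2.trans (Finset.prod_le_prod (fun _ _ => Nat.cast_nonneg _)
      (fun m _ => X_ge_sd a T m))

/-- [BTR-I2a] fewer sites: smaller values (`bT_mono`, `n1_mono`, `n2_mono`; the bound `q n2 ≤ z` as in `bD_le_one`) -/
theorem bD_mono {T : Box d} (hT : Ne T) {D D' : Finset (Site (d + lt))} (h : D' ⊆ D) (l : Dir d) :
    a.bD T D' l ≤ a.bD T D l := by
  unfold Pc.bD
  exact bT_mono a T (Nat.cast_nonneg _) (Nat.cast_le.2 (n1_mono h l)) (Nat.cast_nonneg _)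
    (Nat.cast_le.2 (n2_mono h l)) (i2a_q2 a hT D l)

theorem eD_mono (T : Box d) {D D' : Finset (Site (d + lt))} (h : D' ⊆ D) (i j : Dir d) :
    a.eD T D' i j ≤ a.eD T D i j := by
  unfold Pc.eD Pc.eT
  beta_reduce
  refine mul_le_mul_of_nonneg_right (mul_le_mul_of_nonneg_left ?_ a.hq.le) (Real.exp_pos _).le
  exact Nat.cast_le.2 (n3_mono h i j)

/-- [BTR-I2a] PROOF. `n1_up`, `n1_up_same`, `n2_up`, `n2_up_same`: the counts of `(up T j, D')` are at most `sh1`, `sh2` of those of `(T, D)`; `bT_mono` (cf. BTS/I2a.lean `bD_up_le`). -/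
theorem bD_up_le {T : Box d} (hT : Ne T) (j l : Dir d) (hl : l ≠ j) {D D' : Finset (Site (d + lt))}
    (h : D' ⊆ D) : a.bD (up T j) D' l ≤
      a.bT (up T j) (sh1 lt T j (fun j => n1 lt T D j)) (sh2 T j (fun j => n2 lt T D j)) l := by
  have key1 : (n1 lt (up T j) D' l : ℝ) ≤ sh1 lt T j (fun j => (n1 lt T D j : ℝ)) l := by
    unfold sh1
    beta_reduce
    by_cases hlj : l.1 = j.1
    · rw [if_pos hlj]
      exact Nat.cast_le.2 (n1_up_same h hlj hl)
    · rw [if_neg hlj]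
      have h2 : ((n1 lt (up T j) D' l : ℕ) : ℝ) ≤ ((n1 lt T D l +
          (lt + 1) * ∏ m ∈ (Finset.univ.erase l.1).erase j.1, sd T m : ℕ) : ℝ) :=
        Nat.cast_le.2 (n1_up hT h hlj)
      rw [Nat.cast_add, Nat.cast_mul, Nat.cast_prod, Nat.cast_add, Nat.cast_one] at h2
      exact h2
  have key2 : (n2 lt (up T j) D' l : ℝ) ≤ sh2 T j (fun j => (n2 lt T D j : ℝ)) l := by
    unfold sh2
    beta_reduce
    by_cases hlj : l.1 = j.1
    · rw [if_pos hlj]
      exact Nat.cast_le.2 (n2_up_same h hlj hl)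
    · rw [if_neg hlj]
      have h2 : ((n2 lt (up T j) D' l : ℕ) : ℝ) ≤ ((n2 lt T D l +
          ∏ m ∈ (Finset.univ.erase l.1).erase j.1, sd T m : ℕ) : ℝ) :=
        Nat.cast_le.2 (n2_up hT h hlj)
      rw [Nat.cast_add, Nat.cast_prod] at h2
      exact h2
  have hsd : ∀ m, m ≠ j.1 → (sd (up T j) m : ℝ) = sd T m := by
    intro m hm
    rw [sd_up hT j, Function.update_of_ne hm]
  have hz : a.q * sh2 T j (fun j => (n2 lt T D j : ℝ)) l ≤ a.z (up T j) l.1 := by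
    unfold sh2
    beta_reduce
    by_cases hlj : l.1 = j.1
    · rw [if_pos hlj]
      refine le_trans (mul_le_mul_of_nonneg_left (i2a_n2 hT D l) a.hq.le) ?_
      refine le_trans (le_of_eq ?_) (q_prod_le a (T := up T j) l.1)
      congr 1
      refine Finset.prod_congr rfl fun m hm => ?_
      rw [hsd m (fun hmj => (Finset.mem_erase.1 hm).1 (hmj.trans hlj.symm))]
    · rw [if_neg hlj]
      refine le_trans (mul_le_mul_of_nonneg_left ?_ a.hq.le) (q_prod_le a (T := up T j) l.1)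
      have hj : j.1 ∈ Finset.univ.erase l.1 :=
        Finset.mem_erase.2 ⟨fun h => hlj h.symm, Finset.mem_univ _⟩
      rw [← Finset.mul_prod_erase (Finset.univ.erase l.1) (fun m => (sd (up T j) m : ℝ)) hj]
      have h1 := i2a_n2 hT D l
      rw [← Finset.mul_prod_erase (Finset.univ.erase l.1) (fun m => (sd T m : ℝ)) hj] at h1
      have h2 : ∏ m ∈ (Finset.univ.erase l.1).erase j.1, (sd (up T j) m : ℝ) =
          ∏ m ∈ (Finset.univ.erase l.1).erase j.1, (sd T m : ℝ) :=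
        Finset.prod_congr rfl fun m hm => hsd m (Finset.mem_erase.1 hm).1
      have h3 : (sd (up T j) j.1 : ℝ) = sd T j.1 + 1 := by
        rw [sd_up hT j, Function.update_self]
        push_cast
        ring
      rw [h2, h3]
      linarith
  unfold Pc.bD
  exact bT_mono a (up T j) (Nat.cast_nonneg _) key1 (Nat.cast_nonneg _) key2 hz

/-- [BTR-I2a] PROOF. `n3_up`, `n3_up_same`, `n3 = 0` for equal axes. -/
theorem eD_up_le {T : Box d} (hT : Ne T) {j i i' : Dir d} (hi : i ≠ j) (hi' : i' ≠ j)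
    {D D' : Finset (Site (d + lt))} (h : D' ⊆ D) :
    a.eD (up T j) D' i i' ≤ a.eT (up T j) (sh3 T j (fun i j => n3 lt T D i j)) i i' := by
  unfold Pc.eD Pc.eT
  beta_reduce
  refine mul_le_mul_of_nonneg_right (mul_le_mul_of_nonneg_left ?_ a.hq.le) (Real.exp_pos _).le
  unfold sh3
  beta_reduce
  by_cases h1 : i.1 = i'.1
  · rw [if_pos (Or.inr (Or.inr h1)), n3_same _ _ h1, Nat.cast_zero]
    exact Nat.cast_nonneg _
  by_cases h2 : i.1 = j.1 ∨ i'.1 = j.1
  · rw [if_pos (by tauto)]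
    exact Nat.cast_le.2 (n3_up_same h h2 hi hi')
  · rw [if_neg (by tauto)]
    push Not at h2
    have h3 : ((n3 lt (up T j) D' i i' : ℕ) : ℝ) ≤ ((n3 lt T D i i' +
        ∏ m ∈ ((Finset.univ.erase i.1).erase i'.1).erase j.1, sd T m : ℕ) : ℝ) :=
      Nat.cast_le.2 (n3_up hT h h2.1 h2.2 h1)
    rw [Nat.cast_add, Nat.cast_prod] at h3
    exact h3

end BTR
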