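import Pool.Agent.BTR.I1
import Pool.Agent.BTR.E7
import Pool.Agent.BTR.V18
import Pool.Agent.BTR.I2a
set_option autoImplicit false

open scoped Classical
open Finset

/-! # The values in a state `(T, D)`; one level, many levels (port of BTS/I2a.lean, I2b.lean) -/

namespace BTR
open BTP BTS

variable {d lt : ℕ} (a : Pc d lt)

/-- [BTR-I2b] one level more, without the direction `j` (cf. BTS/I2b.lean). PROOF. `bD_up_le`, `eD_up_le` (replace the values outside `O` by `Phi_congr`), `Phi_mono`, `Phi_step`. -/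
theorem PhiD_step {T : Box d} (hT : Ne T) (hD : a.InD T) {j : Dir d} {O : Finset (Dir d)}
    (hO : j ∉ O) {D D' : Finset (Site (d + lt))} (h : D' ⊆ D) :
    Phi O (a.bD (up T j) D') (a.eD (up T j) D') ≤
      Real.exp (LS a T j.1) * Phi O (a.bD T D) (a.eD T D) := by
  have hne : ∀ l ∈ O, l ≠ j := fun l hl h1 => hO (h1 ▸ hl)
  set e1 : Dir d → Dir d → ℝ := fun i i' => if i ∈ O ∧ i' ∈ O then a.eD (up T j) D' i i' else 0
    with he1
  have h1 : Phi O (a.bD (up T j) D') (a.eD (up T j) D') = Phi O (a.bD (up T j) D') e1 := by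
    refine Phi_congr (fun _ _ => rfl) fun i hi i' hi' _ => ?_
    rw [he1]
    simp only
    rw [if_pos ⟨hi, hi'⟩]
  rw [h1]
  have h2 : Phi O (a.bD (up T j) D') e1 ≤
      Phi O (a.bT (up T j) (sh1 lt T j (fun j => (n1 lt T D j : ℝ)))
        (sh2 T j (fun j => (n2 lt T D j : ℝ))))
        (a.eT (up T j) (sh3 T j (fun i j => (n3 lt T D i j : ℝ)))) := by
    refine Phi_mono (fun l _ => bD_nonneg a _ _ l) (fun l hl => bD_up_le a hT j l (hne l hl) h)
      (fun i i' => ?_) fun i i' => ?_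
    · rw [he1]
      simp only
      split_ifs
      · exact eD_nonneg a _ _ _ _
      · exact le_rfl
    · rw [he1]
      simp only
      split_ifs with h3
      · exact eD_up_le a hT (hne i h3.1) (hne i' h3.2) h
      · unfold Pc.eT
        exact mul_nonneg (mul_nonneg a.hq.le (i1b_sh3_nonneg T j (fun _ _ => Nat.cast_nonneg _) i i'))
          (Real.exp_pos _).le
  exact h2.trans (Phi_step a hT hD hO (fun _ => Nat.cast_nonneg _) (fun _ => Nat.cast_nonneg _)
    (fun _ _ => Nat.cast_nonneg _))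

/-- [BTR-I2b] PROOF. The same with `prod_step`. -/
theorem prodD_step {T : Box d} (hT : Ne T) {j : Dir d} {O : Finset (Dir d)}
    (hO : j ∉ O) {D D' : Finset (Site (d + lt))} (h : D' ⊆ D) :
    ∏ l ∈ O, a.bD (up T j) D' l ≤ Real.exp (LS a T j.1) * ∏ l ∈ O, a.bD T D l := by
  have hne : ∀ l ∈ O, l ≠ j := fun l hl h1 => hO (h1 ▸ hl)
  refine (Finset.prod_le_prod (fun l _ => bD_nonneg a _ _ l)
    fun l hl => bD_up_le a hT j l (hne l hl) h).trans ?_
  exact prod_step a hT hO (fun _ => Nat.cast_nonneg _) (fun _ => Nat.cast_nonneg _)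

theorem i2b_sum {T : Box d} (hT : Ne T) (j : Dir d) (O : Finset (Dir d))
    (D : Finset (Site (d + lt))) :
    ∑ l ∈ O.erase j, a.eD T D j l / a.th T l.1 ≤
      2 * ∑ m ∈ Finset.univ.erase j.1, EE a T j.1 m / a.th T m := by
  have hE : ∀ m, 0 ≤ EE a T j.1 m / a.th T m := fun m =>
    div_nonneg (Real.sqrt_nonneg _) (th_pos a T m).le
  have h1 : ∀ l : Dir d, a.eD T D j l / a.th T l.1 ≤
      if l.1 = j.1 then 0 else EE a T j.1 l.1 / a.th T l.1 := by
    intro l
    split_ifs with h2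
    · rw [eD_same a T D h2.symm, zero_div]
    · exact div_le_div_of_nonneg_right (eD_le a hT D j l) (th_pos a T l.1).le
  calc ∑ l ∈ O.erase j, a.eD T D j l / a.th T l.1
      ≤ ∑ l ∈ O.erase j, (if l.1 = j.1 then 0 else EE a T j.1 l.1 / a.th T l.1) :=
        Finset.sum_le_sum fun l _ => h1 l
    _ ≤ ∑ l : Dir d, (if l.1 = j.1 then 0 else EE a T j.1 l.1 / a.th T l.1) := by
        refine Finset.sum_le_sum_of_subset_of_nonneg (Finset.subset_univ _) fun l _ _ => ?_
        split_ifs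
        · exact le_rfl
        · exact hE _
    _ = 2 * ∑ m : Fin d, (if m = j.1 then 0 else EE a T j.1 m / a.th T m) := by
        rw [Fintype.sum_prod_type, Finset.mul_sum]
        refine Finset.sum_congr rfl fun m _ => ?_
        simp only
        rw [Finset.sum_const, Finset.card_univ, Fintype.card_bool]
        simp
    _ = 2 * ∑ m ∈ Finset.univ.erase j.1, EE a T j.1 m / a.th T m := by
        congr 1
        rw [← Finset.add_sum_erase _ _ (Finset.mem_univ j.1), if_pos rfl, zero_add]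
        refine Finset.sum_congr rfl fun m hm => ?_
        rw [if_neg (Finset.ne_of_mem_erase hm)]

/-- [BTR-I2b] the value with a fresh direction `j`.
PROOF. `Phi_le_erase` with `b j ≤ 1`; `∑_{l ∈ O.erase j} e j l/θ_l ≤ 2 ∑_{m≠j.1} EE/θ_m` (two directions per axis, `eD_le`, `e j l = 0` for `l.1 = j.1`). (cf. BTS/I2b.lean) -/
theorem Phi_fresh {T : Box d} (hT : Ne T) (j : Dir d) (O : Finset (Dir d))
    (D : Finset (Site (d + lt))) :
    Phi O (a.bD T D) (a.eD T D) ≤
      (1 + 4 * ∑ m ∈ Finset.univ.erase j.1, EE a T j.1 m / a.th T m) *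
        Phi (O.erase j) (a.bD T D) (a.eD T D) := by
  have hP : 0 ≤ Phi (O.erase j) (a.bD T D) (a.eD T D) :=
    Phi_nonneg (fun l _ => bD_nonneg a _ _ l) (eD_nonneg a T D)
  have h1 := Phi_le_erase (O := O) (j := j) (a.bD T D) (fun l => a.th T l.1) (a.eD T D)
    (eD_symm a T D) (eD_nonneg a T D) (fun l => th_pos a T l.1) (fun l _ => th_le_bD a T D l)
    (bD_le_one a hT D j)
  refine h1.trans (mul_le_mul_of_nonneg_right ?_ hP)
  have h2 := i2b_sum a hT j O D
  linarith

/-- [BTR-I2b] PROOF. `X' ≥ X`, `z'_i = z_i` (`i = j.1`), `1 + z'_m ≤ (1 + 1/X₀)(1 + z_m)`, `θ' ≥ θ (1 - 1/X₀)`, `X₀ ≥ 100`. (BTS/I2b.lean) -/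
theorem EE_up {T : Box d} (hT : Ne T) (j : Dir d) {m : Fin d} (hm : m ≠ j.1) :
    EE a (up T j) j.1 m / a.th (up T j) m ≤ 2 * (EE a T j.1 m / a.th T m) := by
  have hX0 : 100 ≤ a.X T j.1 := a.hH1.trans (X_ge a T j.1)
  have hXp : 0 < a.X T j.1 := X_pos a T j.1
  have hXm := X_pos a T m
  have hzm := z_pos a T m
  have hz := z_pos a T j.1
  have ht := th_pos a T m
  have ht' := th_pos a (up T j) m
  have h1 := z_up_le a hT j m
  have h2 := th_le_up a hT j m
  have h3 : 1 / a.X T j.1 ≤ 1 / 100 := one_div_le_one_div_of_le (by norm_num) hX0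
  have h3' : 0 < 1 / a.X T j.1 := one_div_pos.2 hXp
  -- the weight
  have hEE : EE a (up T j) j.1 m ≤ 11 / 10 * EE a T j.1 m := by
    unfold EE
    rw [z_up_same a hT j, X_up_ne a hT hm]
    have h4 : (11 / 10 : ℝ) = Real.sqrt ((11 / 10) ^ 2) := (Real.sqrt_sq (by norm_num)).symm
    rw [h4, ← Real.sqrt_mul (by positivity)]
    refine Real.sqrt_le_sqrt ?_
    have h5 : (1 + a.z (up T j) m) / a.X (up T j) j.1 ≤ (11 / 10) ^ 2 * ((1 + a.z T m) / a.X T j.1) := by
      have h6 : (1 + a.z (up T j) m) ≤ (11 / 10) ^ 2 * (1 + a.z T m) := by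
        have : a.z T m * (1 + 1 / a.X T j.1) ≤ a.z T m * (1 + 1 / 100) :=
          mul_le_mul_of_nonneg_left (by linarith) hzm.le
        linarith
      rw [← mul_div_assoc]
      exact div_le_div₀ (by positivity) h6 hXp (X_le_up a hT j j.1)
    have h7 : 0 ≤ (1 + a.z T j.1) / a.X T m := by positivity
    calc (1 + a.z T j.1) / a.X T m * ((1 + a.z (up T j) m) / a.X (up T j) j.1)
        ≤ (1 + a.z T j.1) / a.X T m * ((11 / 10) ^ 2 * ((1 + a.z T m) / a.X T j.1)) :=
          mul_le_mul_of_nonneg_left h5 h7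
      _ = _ := by ring
  have hth : 9 / 10 * a.th T m ≤ a.th (up T j) m := by
    refine le_trans ?_ h2
    rw [mul_comm]
    exact mul_le_mul_of_nonneg_left (by linarith) ht.le
  have hE0 : 0 ≤ EE a T j.1 m := Real.sqrt_nonneg _
  calc EE a (up T j) j.1 m / a.th (up T j) m
      ≤ (11 / 10 * EE a T j.1 m) / (9 / 10 * a.th T m) :=
        div_le_div₀ (by positivity) hEE (by positivity) hth
    _ = (11 / 9) * (EE a T j.1 m / a.th T m) := by
        field_simp
    _ ≤ 2 * (EE a T j.1 m / a.th T m) :=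
        mul_le_mul_of_nonneg_right (by norm_num) (div_nonneg hE0 ht.le)

end BTR
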