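import Pool.Agent.BTR.I1
import Pool.Agent.BTR.E7
import Pool.Agent.BTR.V18
import Pool.Agent.BTR.I2a
import Pool.Agent.BTR.I2b
set_option autoImplicit false

open scoped Classical
open Finset

/-! # The values in a state `(T, D)`; one level, many levels (port of BTS/I2a.lean, I2b.lean) -/

namespace BTR
open BTP BTS

variable {d lt : ℕ} (a : Pc d lt)

theorem i2c_erase {A : Finset (Dir d)} {j : Dir d} (hj : j ∈ A) {b : Dir d → ℝ}
    {e : Dir d → Dir d → ℝ} {c : ℝ} (hc0 : 0 < c) (hb : ∀ j, c ≤ b j) (he : ∀ i j, 0 ≤ e i j)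
    (hs : ∀ i j, e i j = e j i) : Phi (A.erase j) b e ≤ Phi A b e / c := by
  have hb0 : ∀ l, 0 ≤ b l := fun l => hc0.le.trans (hb l)
  rw [le_div_iff₀ hc0, Phi_split hj b e hs]
  have h1 : 0 ≤ Phi (A.erase j) b e := Phi_nonneg (fun l _ => hb0 l) he
  have h2 : 0 ≤ ∑ l ∈ A.erase j, e j l * ∏ m ∈ (A.erase j).erase l, b m :=
    Finset.sum_nonneg fun l _ => mul_nonneg (he j l) (Finset.prod_nonneg fun m _ => hb0 m)
  have h3 : Phi (A.erase j) b e * c ≤ b j * Phi (A.erase j) b e := by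
    rw [mul_comm]
    exact mul_le_mul_of_nonneg_right (hb j) h1
  linarith

theorem i2c_sdiff {A B : Finset (Dir d)} {b : Dir d → ℝ} {e : Dir d → Dir d → ℝ} {c : ℝ}
    (hc0 : 0 < c) (hb : ∀ j, c ≤ b j) (he : ∀ i j, 0 ≤ e i j)
    (hs : ∀ i j, e i j = e j i) :
    Phi (A \ B) b e ≤ Phi A b e / c ^ (A ∩ B).card := by
  induction B using Finset.induction_on with
  | empty => simp
  | insert j B hjB ih =>
    by_cases hjA : j ∈ A
    · have h1 : A \ insert j B = (A \ B).erase j := by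
        ext x
        simp only [Finset.mem_sdiff, Finset.mem_insert, Finset.mem_erase]
        tauto
      have h2 : (A ∩ insert j B).card = (A ∩ B).card + 1 := by
        rw [Finset.inter_insert_of_mem hjA, Finset.card_insert_of_notMem]
        intro h
        exact hjB (Finset.mem_inter.1 h).2
      rw [h1, h2, pow_succ, ← div_div]
      refine (i2c_erase (Finset.mem_sdiff.2 ⟨hjA, hjB⟩) hc0 hb he hs).trans ?_
      exact div_le_div_of_nonneg_right ih hc0.le
    · have h1 : A \ insert j B = A \ B := by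
        ext x
        simp only [Finset.mem_sdiff, Finset.mem_insert]
        constructor
        · rintro ⟨hx, hx2⟩
          exact ⟨hx, fun h => hx2 (Or.inr h)⟩
        · rintro ⟨hx, hx2⟩
          refine ⟨hx, ?_⟩
          rintro (h | h)
          · exact hjA (h ▸ hx)
          · exact hx2 h
      have h2 : A ∩ insert j B = A ∩ B := Finset.inter_insert_of_notMem hjA
      rw [h1, h2]
      exact ih

/-- [BTR-I2c] deleting directions: `0 < c ≤ 1` is a lower bound for the values, at most `m` directions are deleted.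
PROOF. By induction on `B` (or directly with `B' = A ∩ B`, `A \ B = A \ B'`): for `j ∈ A`, `b j * Phi (A.erase j) b e ≤ Phi A b e` (`A2a.Phi_split` needs symmetric `e`; or term by term: each term of `Phi (A.erase j)`, multiplied by `b j`, is a term of `Phi A`), so `Phi (A.erase j) ≤ Phi A / c`. `c^m ≤ c^{|A ∩ B|}`. -/
theorem Phi_sdiff_le {A B : Finset (Dir d)} {b : Dir d → ℝ} {e : Dir d → Dir d → ℝ} {c : ℝ}
    (hc0 : 0 < c) (hc1 : c ≤ 1) (hb : ∀ j, c ≤ b j) (he : ∀ i j, 0 ≤ e i j)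
    (hs : ∀ i j, e i j = e j i) {m : ℕ} (hm : (A ∩ B).card ≤ m) :
    Phi (A \ B) b e ≤ Phi A b e / c ^ m := by
  have hb0 : ∀ l, 0 ≤ b l := fun l => hc0.le.trans (hb l)
  refine (i2c_sdiff hc0 hb he hs).trans ?_
  refine div_le_div_of_nonneg_left (Phi_nonneg (fun l _ => hb0 l) he) (pow_pos hc0 m) ?_
  exact pow_le_pow_of_le_one hc0.le hc1 hm

theorem i2c_ka : (2 * (d : ℝ)) ^ 2 ≤ a.ka ^ 2 := by
  have h := i1b_ka a
  have h0 : (0 : ℝ) ≤ d := Nat.cast_nonneg d
  exact pow_le_pow_left₀ (by linarith) (by linarith) 2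

/-- [BTR-I2c] the edges are small. PROOF. `eD_le`, `EE_le`: `e i j ≤ θ_i θ_j/ka²`, `θ ≤ bD`; each term of the double sum is at most `∏_O b/ka²`, and there are at most `(2d)²` of them, `(2d)² ≤ ka²` (`hka`). -/
theorem Phi_le_prod {T : Box d} (hT : Ne T) (hD : a.InD T) (O : Finset (Dir d))
    (D : Finset (Site (d + lt))) :
    Phi O (a.bD T D) (a.eD T D) ≤ 2 * ∏ l ∈ O, a.bD T D l := by
  have hka : 0 < a.ka := r4a_ka_pos a
  have hka2 : 0 < a.ka ^ 2 := pow_pos hka 2
  have hb0 : ∀ l, 0 ≤ a.bD T D l := bD_nonneg a T D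
  set P : ℝ := ∏ l ∈ O, a.bD T D l with hP
  have hP0 : 0 ≤ P := Finset.prod_nonneg fun l _ => hb0 l
  have hterm : ∀ i ∈ O, ∀ j ∈ O.erase i,
      a.eD T D i j * ∏ l ∈ (O.erase i).erase j, a.bD T D l ≤ P / a.ka ^ 2 := by
    intro i hi j hj
    have h1 : a.eD T D i j ≤ a.th T i.1 * a.th T j.1 / a.ka ^ 2 :=
      (eD_le a hT D i j).trans (EE_le a hD i.1 j.1)
    have h2 : a.th T i.1 * a.th T j.1 ≤ a.bD T D i * a.bD T D j :=
      mul_le_mul (th_le_bD a T D i) (th_le_bD a T D j) (th_pos a T j.1).le (hb0 i)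
    have h3 : 0 ≤ ∏ l ∈ (O.erase i).erase j, a.bD T D l := Finset.prod_nonneg fun l _ => hb0 l
    have h4 : a.eD T D i j ≤ a.bD T D i * a.bD T D j / a.ka ^ 2 :=
      h1.trans (div_le_div_of_nonneg_right h2 hka2.le)
    have h5 : P = a.bD T D i * (a.bD T D j * ∏ l ∈ (O.erase i).erase j, a.bD T D l) := by
      rw [Finset.mul_prod_erase _ _ hj, Finset.mul_prod_erase _ _ hi]
    rw [h5]
    calc a.eD T D i j * ∏ l ∈ (O.erase i).erase j, a.bD T D l
        ≤ a.bD T D i * a.bD T D j / a.ka ^ 2 * ∏ l ∈ (O.erase i).erase j, a.bD T D l :=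
          mul_le_mul_of_nonneg_right h4 h3
      _ = _ := by ring
  have hcard : (O.card : ℝ) ≤ 2 * d := by
    have h1 : O.card ≤ d * 2 := by
      have h2 := Finset.card_le_univ O
      rwa [Fintype.card_prod, Fintype.card_fin, Fintype.card_bool] at h2
    have h3 : ((O.card : ℕ) : ℝ) ≤ ((d * 2 : ℕ) : ℝ) := by exact_mod_cast h1
    push_cast at h3
    linarith
  have hq : 0 ≤ P / a.ka ^ 2 := div_nonneg hP0 hka2.le
  have hd0 : (0 : ℝ) ≤ 2 * d := by positivity
  have hsum : ∑ i ∈ O, ∑ j ∈ O.erase i, a.eD T D i j * ∏ l ∈ (O.erase i).erase j, a.bD T D l ≤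
      P := by
    calc ∑ i ∈ O, ∑ j ∈ O.erase i, a.eD T D i j * ∏ l ∈ (O.erase i).erase j, a.bD T D l
        ≤ ∑ i ∈ O, ∑ _j ∈ O.erase i, P / a.ka ^ 2 :=
          Finset.sum_le_sum fun i hi => Finset.sum_le_sum fun j hj => hterm i hi j hj
      _ ≤ ∑ _i ∈ O, (2 * d) * (P / a.ka ^ 2) := by
          refine Finset.sum_le_sum fun i _ => ?_
          rw [Finset.sum_const, nsmul_eq_mul]
          refine mul_le_mul_of_nonneg_right ?_ hq
          have h6 : ((O.erase i).card : ℝ) ≤ (O.card : ℝ) := by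
            exact_mod_cast Finset.card_le_card (Finset.erase_subset i O)
          linarith
      _ = O.card * ((2 * d) * (P / a.ka ^ 2)) := by
          rw [Finset.sum_const, nsmul_eq_mul]
      _ ≤ (2 * d) * ((2 * d) * (P / a.ka ^ 2)) :=
          mul_le_mul_of_nonneg_right hcard (mul_nonneg hd0 hq)
      _ = (2 * (d : ℝ)) ^ 2 / a.ka ^ 2 * P := by ring
      _ ≤ 1 * P := by
          refine mul_le_mul_of_nonneg_right ?_ hP0
          rw [div_le_one hka2]
          exact i2c_ka a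
      _ = P := one_mul P
  unfold Phi
  linarith

/-- [BTR-I2c] `thm` is a lower bound for all `th`. PROOF. `zm ≤ z_i` (`zm_spec`). -/
theorem thm_le (T : Box d) (i : Fin d) : a.thm T ≤ a.th T i := by
  unfold Pc.thm Pc.th
  refine min_le_min le_rfl ?_
  have hka : 0 < a.ka := r4a_ka_pos a
  have hXm := r4a_Xm_pos a T
  have hz := (zm_spec a T).2 i
  refine mul_le_mul (mul_le_mul_of_nonneg_left (Real.sqrt_le_sqrt ?_) hka.le)
    (Real.exp_le_exp.2 hz) (Real.exp_pos _).le (mul_nonneg hka.le (Real.sqrt_nonneg _))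
  exact div_le_div_of_nonneg_right (by linarith) hXm.le

theorem thm_pos (T : Box d) : 0 < a.thm T := by
  unfold Pc.thm
  have hka : 0 < a.ka := r4a_ka_pos a
  have hXm := r4a_Xm_pos a T
  have hz := zm_pos a T
  refine lt_min (by norm_num) ?_
  have h1 : 0 < Real.sqrt ((1 + a.zm T) / a.Xm T) := Real.sqrt_pos.2 (by positivity)
  exact mul_pos (mul_pos hka h1) (Real.exp_pos _)

theorem thm_le_one (T : Box d) : a.thm T ≤ 1 := by
  unfold Pc.thm
  exact (min_le_left _ _).trans (by norm_num)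

end BTR
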