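import Pool.Agent.BTR.I1
import Pool.Agent.BTR.E7
import Pool.Agent.BTR.V18
import Pool.Agent.BTR.I2a
import Pool.Agent.BTR.I2b
import Pool.Agent.BTR.I2c
set_option autoImplicit false

open scoped Classical
open Finset

/-! # The values in a state `(T, D)`; one level, many levels (port of BTS/I2a.lean, I2b.lean) -/

namespace BTR
open BTP BTS

variable {d lt : ℕ} (a : Pc d lt)

theorem i2d_up_le {T T' : Box d} (h : T ≤ T') {j : Dir d} (hj : T j < T' j) : up T j ≤ T' := by
  intro l
  by_cases hl : l = j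
  · subst hl
    rw [up_self]
    exact Int.add_one_le_iff.2 hj
  · rw [up_ne T hl]
    exact h l

theorem i2d_Ys_up (T : Box d) (j : Dir d) : Ys (up T j) = Ys T + 1 := by
  unfold Ys
  rw [← Finset.add_sum_erase _ _ (Finset.mem_univ j), ← Finset.add_sum_erase _ T (Finset.mem_univ j),
    up_self, Finset.sum_congr rfl fun l hl => up_ne T (Finset.ne_of_mem_erase hl)]
  ring

theorem i2d_exists {T T' : Box d} (h : T ≤ T') {n : ℕ} (hn : Ys T' - Ys T = ((n + 1 : ℕ) : ℤ)) :
    ∃ j, T j < T' j := by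
  by_contra hcon
  push Not at hcon
  have h2 : T = T' := le_antisymm h fun j => hcon j
  subst h2
  push_cast at hn
  omega

/-- each level costs at most `gam` -/
theorem i2d_Ps {T T' : Box d} (hT : Ne T) (h : T ≤ T') {n : ℕ} (hn : Ys T' - Ys T = (n : ℤ)) :
    a.Ps T' ≤ a.Ps T + n * a.gam := by
  induction n generalizing T with
  | zero =>
    have h1 : T = T' := by
      by_contra hne
      have := Ys_lt h hne
      omega
    subst h1
    simp
  | succ n ih =>
    obtain ⟨j, hj⟩ := i2d_exists h hn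
    have h4 := i2d_Ys_up T j
    have h5 := ih (ne_up hT j) (i2d_up_le h hj) (by rw [h4]; push_cast at hn; omega)
    have h6 := Ps_up_gam a hT j
    push_cast
    linarith

/-- the losses are at most `ρ` -/
theorem i2d_loss {T : Box d} (hT : Ne T) (hD : a.InD T)
    (hP : a.Ps T < 2 * (d * a.A * lamk (d - 1) (lt + 1))) (i : Fin d) :
    LS a T i ≤ 1 / (100 * (2 * a.h + 2 * d + 2)) ∧
      4 * ∑ m ∈ Finset.univ.erase i, EE a T i m / a.th T m ≤
        1 / (100 * (2 * a.h + 2 * d + 2)) := by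
  have h1 := loss a (exp_zm_le a hT hD hP) i
  have h2 := rq_le a hD i
  have hz : ∀ l, 0 < a.z T l := fun l => z_pos a T l
  have ht : ∀ l, 0 < a.th T l := fun l => th_pos a T l
  have hX : ∀ l, 0 < a.X T l := fun l => X_pos a T l
  have hl : (0 : ℝ) ≤ (lt : ℝ) := Nat.cast_nonneg lt
  have hs : 0 ≤ ∑ m ∈ Finset.univ.erase i, EE a T i m / a.th T m :=
    Finset.sum_nonneg fun m _ => div_nonneg (Real.sqrt_nonneg _) (ht m).le
  have hLS : 0 ≤ LS a T i := by
    unfold LS
    have h3 : 0 ≤ ∑ l ∈ Finset.univ.erase i, (1 + a.z T l) / (a.th T l * a.X T i) := by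
      refine Finset.sum_nonneg fun l _ => ?_
      have := hz l
      have := ht l
      have := hX i
      positivity
    have h4 : 0 ≤ 2 / a.X T i := div_nonneg (by norm_num) (hX i).le
    have h5 : 0 ≤ 14 * ((lt : ℝ) + 1) * ∑ l ∈ Finset.univ.erase i, (1 + a.z T l) /
        (a.th T l * a.X T i) := mul_nonneg (by positivity) h3
    linarith
  have hth : 0 ≤ 2 * a.th T i * Real.exp (-(((lt : ℝ) + 2) * a.z T i)) := by
    have := ht i
    positivity
  have h8 : 0 ≤ 8 / a.X T i := div_nonneg (by norm_num) (hX i).le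
  have hNC : 0 ≤ a.NC T i := by
    unfold Pc.NC Pc.rr
    have := hz i
    positivity
  constructor
  · linarith
  · linarith

/-- removing fresh directions -/
theorem i2d_fresh {T : Box d} (hT : Ne T) (hD : a.InD T)
    (hP : a.Ps T < 2 * (d * a.A * lamk (d - 1) (lt + 1))) (O K : Finset (Dir d))
    (D : Finset (Site (d + lt))) :
    Phi O (a.bD T D) (a.eD T D) ≤ Real.exp (K.card * (1 / (100 * (2 * a.h + 2 * d + 2)))) *
      Phi (O \ K) (a.bD T D) (a.eD T D) := by
  induction K using Finset.induction_on with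
  | empty => simp
  | insert j K hj ih =>
    have hnn : 0 ≤ Phi ((O \ K).erase j) (a.bD T D) (a.eD T D) :=
      Phi_nonneg (fun l _ => bD_nonneg a T D l) (eD_nonneg a T D)
    have h1 := Phi_fresh a hT j (O \ K) D
    have h2 := (i2d_loss a hT hD hP j.1).2
    have h3 : 1 + 4 * ∑ m ∈ Finset.univ.erase j.1, EE a T j.1 m / a.th T m ≤
        Real.exp (1 / (100 * (2 * a.h + 2 * d + 2))) := by
      have := Real.add_one_le_exp (1 / (100 * (2 * (a.h : ℝ) + 2 * d + 2)))
      linarith
    have h4 : O \ insert j K = (O \ K).erase j := by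
      ext x
      simp only [Finset.mem_sdiff, Finset.mem_insert, Finset.mem_erase, not_or]
      tauto
    rw [h4, Finset.card_insert_of_notMem hj]
    push_cast
    rw [add_mul, one_mul, Real.exp_add, mul_assoc]
    refine ih.trans (mul_le_mul_of_nonneg_left ?_ (Real.exp_pos _).le)
    exact h1.trans (mul_le_mul_of_nonneg_right h3 hnn)

/-- growing in other directions -/
theorem i2d_grow {T T' : Box d} (hT : Ne T) (h : T ≤ T') (hD : a.InD T') {n : ℕ}
    (hn : Ys T' - Ys T = (n : ℤ))
    (hP : a.Ps T + n * a.gam < 2 * (d * a.A * lamk (d - 1) (lt + 1))) {O : Finset (Dir d)}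
    (hO : ∀ j ∈ O, T' j = T j) {D D' : Finset (Site (d + lt))} (hDD : D' ⊆ D) :
    Phi O (a.bD T' D') (a.eD T' D') ≤ Real.exp (n * (1 / (100 * (2 * a.h + 2 * d + 2)))) *
      Phi O (a.bD T D) (a.eD T D) := by
  induction n generalizing T D with
  | zero =>
    have h1 : T = T' := by
      by_contra hne
      have := Ys_lt h hne
      omega
    subst h1
    rw [Nat.cast_zero, zero_mul, Real.exp_zero, one_mul]
    exact Phi_mono (fun l _ => bD_nonneg a T D' l) (fun l _ => bD_mono a hT hDD l)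
      (eD_nonneg a T D') (eD_mono a T hDD)
  | succ n ih =>
    obtain ⟨j, hj⟩ := i2d_exists h hn
    have h4 := i2d_Ys_up T j
    have hg := a.hgam0
    have hpg := Ps_up_gam a hT j
    have hn0 : (0 : ℝ) ≤ n := Nat.cast_nonneg n
    push_cast at hP
    have hjO : j ∉ O := fun hjO => by
      have := hO j hjO
      omega
    have h5 := ih (T := up T j) (D := D') (ne_up hT j) (i2d_up_le h hj)
      (by rw [h4]; push_cast at hn; omega) (by linarith)
      (fun l hl => by
        have hlj : l ≠ j := fun h1 => hjO (h1 ▸ hl)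
        rw [up_ne T hlj]
        exact hO l hl) (Finset.Subset.refl _)
    have hDT : a.InD T := InD_mono a hT h hD
    have h6 := PhiD_step a hT hDT hjO hDD
    have hPT : a.Ps T < 2 * (d * a.A * lamk (d - 1) (lt + 1)) := by nlinarith
    have h7 := (i2d_loss a hT hDT hPT j.1).1
    have hnn : 0 ≤ Phi O (a.bD T D) (a.eD T D) :=
      Phi_nonneg (fun l _ => bD_nonneg a T D l) (eD_nonneg a T D)
    refine h5.trans ?_
    push_cast
    rw [add_mul, one_mul, Real.exp_add, mul_assoc]
    refine mul_le_mul_of_nonneg_left ?_ (Real.exp_pos _).le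
    exact h6.trans (mul_le_mul_of_nonneg_right (Real.exp_le_exp.2 h7) hnn)

/-- [BTR-I2d] many levels: the directions which grow are deleted, the others change by at most a factor `2`.
PROOF. Claim 1 (removing fresh directions at `T'`): for `K ⊆ O`, `Phi O (bD T' D') (eD T' D') ≤ exp (K.card * ρ) * Phi (O \ K) ..`, `ρ = 1/(100 (2h+2d+2))`: induction on `K` with `Phi_fresh`; `4 ∑ EE/θ ≤ rq ≤ ρ` (`loss` needs `exp_zm_le` for `T'`, `rq_le`; all other terms of `loss` are `≥ 0`). `K.card ≤ 2d`.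
Claim 2: for a set `O'` of directions in which `T' j = T j` and `T ≤ T'`, `Phi O' (bD T' D') (eD T' D') ≤ exp (n ρ) * Phi O' (bD T D) (eD T D)`, `n = Ys T' - Ys T`: induction on `n` (generalising `T`, or walking back from `T'`): `n = 0`: `T' = T`, `Phi_mono`, `bD_mono`, `eD_mono`. Otherwise some `T j < T' j`, `T₁ = up T j ≤ T'`, `j ∉ O'`; `PhiD_step` for `T → T₁` (with `D' = D`) and `LS ≤ rq ≤ ρ` (`loss`, `exp_zm_le`: `Ps T + n gam < 2Λ`, `Ps_up_gam`); the induction hypothesis for `T₁`.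
Now `O = grw T' Q`, `K = O ∩ grw T T'`, `O \ K = (grw T Q) \ (grw T T')` (if `T j = T' j` then `T j < Q j ↔ T' j < Q j`; `T ≤ T'`). Total `exp ((2d + 2h + 2) ρ) ≤ exp (1/100) ≤ 2`. `InD T'`, `InD T₁`: `InD_mono`. -/
theorem many_steps {T T' Q : Box d} {D D' : Finset (Site (d + lt))} (hT : Ne T) (hTT : T ≤ T')
    (hTQ : T' ≤ Q) (hQ : a.InD Q) (hY : Ys T' ≤ Ys T + (2 * a.h + 2))
    (hP : a.Ps T + (2 * a.h + 2) * a.gam < 2 * (d * a.A * lamk (d - 1) (lt + 1))) (h : D' ⊆ D) :
    Phi (grw T' Q) (a.bD T' D') (a.eD T' D') ≤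
      2 * Phi (grw T Q \ grw T T') (a.bD T D) (a.eD T D) := by
  obtain ⟨n, hn⟩ : ∃ n : ℕ, Ys T' - Ys T = n :=
    ⟨(Ys T' - Ys T).toNat, (Int.toNat_of_nonneg (by linarith [Ys_mono hTT])).symm⟩
  have hg := a.hgam0
  have hn2 : (n : ℤ) ≤ 2 * a.h + 2 := by omega
  have hn3 : (n : ℝ) ≤ 2 * a.h + 2 := by exact_mod_cast hn2
  have hng : (n : ℝ) * a.gam ≤ (2 * a.h + 2) * a.gam := mul_le_mul_of_nonneg_right hn3 hg
  have hT' : Ne T' := fun i => le_trans (hT i) (add_le_add (hTT _) (hTT _))
  have hD' : a.InD T' := InD_mono a hT' hTQ hQ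
  have hPT' : a.Ps T' < 2 * (d * a.A * lamk (d - 1) (lt + 1)) := by
    have := i2d_Ps a hT hTT hn
    linarith
  have h1 := i2d_fresh a hT' hD' hPT' (grw T' Q) (grw T T') D'
  have hset : grw T' Q \ grw T T' = grw T Q \ grw T T' := by
    ext j
    unfold grw
    simp only [Finset.mem_sdiff, Finset.mem_filter, Finset.mem_univ, true_and, not_lt]
    have := hTT j
    constructor
    · rintro ⟨h2, h3⟩
      exact ⟨lt_of_le_of_lt this h2, h3⟩
    · rintro ⟨h2, h3⟩
      exact ⟨lt_of_le_of_lt h3 h2, h3⟩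
  rw [hset] at h1
  have h2 := i2d_grow a hT hTT hD' hn (by linarith) (O := grw T Q \ grw T T')
    (fun j hj => by
      unfold grw at hj
      simp only [Finset.mem_sdiff, Finset.mem_filter, Finset.mem_univ, true_and, not_lt] at hj
      exact le_antisymm hj.2 (hTT j)) h
  have hnn : 0 ≤ Phi (grw T Q \ grw T T') (a.bD T D) (a.eD T D) :=
    Phi_nonneg (fun l _ => bD_nonneg a T D l) (eD_nonneg a T D)
  have hcard : ((grw T T').card : ℝ) ≤ 2 * d := by
    have h3 : (grw T T').card ≤ (Finset.univ : Finset (Dir d)).card :=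
      Finset.card_le_card (Finset.subset_univ _)
    have h4 : (Finset.univ : Finset (Dir d)).card = 2 * d := by
      rw [Finset.card_univ]
      unfold Dir
      rw [Fintype.card_prod, Fintype.card_fin, Fintype.card_bool, mul_comm]
    rw [h4] at h3
    exact_mod_cast h3
  refine h1.trans ((mul_le_mul_of_nonneg_left h2 (Real.exp_pos _).le).trans ?_)
  rw [← mul_assoc, ← Real.exp_add, ← add_mul]
  refine mul_le_mul_of_nonneg_right ?_ hnn
  have hh0 : (0 : ℝ) ≤ a.h := Nat.cast_nonneg _
  have hd0 : (0 : ℝ) ≤ d := Nat.cast_nonneg _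
  have hM : (0 : ℝ) < 2 * a.h + 2 * d + 2 := by positivity
  have hle : (((grw T T').card : ℝ) + n) * (1 / (100 * (2 * a.h + 2 * d + 2))) ≤ 1 / 100 := by
    rw [mul_one_div, div_le_div_iff₀ (by positivity) (by norm_num)]
    nlinarith
  have h6 : Real.exp (1 / 100 : ℝ) ≤ 2 := by
    have h7 := Real.exp_bound_div_one_sub_of_interval (x := 1 / 100) (by norm_num) (by norm_num)
    have h8 : (1 : ℝ) / (1 - 1 / 100) ≤ 2 := by norm_num
    linarith
  exact (Real.exp_le_exp.2 hle).trans h6

end BTR
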