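import Pool.Agent.BTR.I2
import Pool.Agent.BTR.V18
set_option autoImplicit false

open scoped Classical
open Finset

/-! # The step inequalities (port of BTS/I3a, I3b, I3c), with room for the compounds (`NC`) -/

namespace BTR
open BTP BTS

variable {d lt : ℕ} (a : Pc d lt)

/-- [BTR-I3a] the open directions after one step -/
theorem grw_up (T Q : Box d) (j : Dir d) : (grw (up T j) Q).erase j = (grw T Q).erase j := by
  ext l
  simp only [grw, Finset.mem_erase, Finset.mem_filter, Finset.mem_univ, true_and]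
  constructor
  · rintro ⟨h1, h2⟩
    exact ⟨h1, by rwa [up_ne T h1] at h2⟩
  · rintro ⟨h1, h2⟩
    exact ⟨h1, by rwa [up_ne T h1]⟩

theorem mem_grw {T Q : Box d} {j : Dir d} (h : up T j ≤ Q) : j ∈ grw T Q := by
  simp only [grw, Finset.mem_filter, Finset.mem_univ, true_and]
  have h1 := h j
  rw [up_self] at h1
  exact lt_of_lt_of_le (lt_add_one (T j)) h1

theorem NC_nonneg (T : Box d) (i : Fin d) : 0 ≤ a.NC T i := by
  unfold Pc.NC Pc.rr
  have h1 := z_pos a T i
  have h2 := (Real.exp_pos (-(a.zm T))).le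
  have h3 := Real.sqrt_nonneg (a.Xm T)
  exact mul_nonneg (by positivity) (div_nonneg (mul_nonneg (by linarith) h2) h3)

/-- [BTR-I3a] the step inequality for one level (cf. BTS/I3a.lean).
PROOF. `Phi_fresh` at `up T j`, `grw_up`, `EE_up`, `PhiD_step` (with `O = (grw T Q).erase j`): `Ph (up T j) Q D' ≤ (1 + 8 ∑ EE/θ) exp(LS) Phi ((grw T Q).erase j) ..`. `slack` and `loss` (`exp_zm_le`): `Ps (up T j) - Ps T + LS + 8 ∑ EE/θ ≤ g - 2θe^{-κz} - NC = gm - NC`. -/
theorem step_one {T Q : Box d} {j : Dir d} {D D' : Finset (Site (d + lt))} (hT : Ne T)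
    (hQ : a.InD Q) (hj : up T j ≤ Q) (hP : a.Ps T < 2 * (d * a.A * lamk (d - 1) (lt + 1)))
    (h : D' ⊆ D) :
    Real.exp (a.Ps (up T j) - a.Ps T) * a.Ph (up T j) Q D' ≤
      Real.exp (a.gm T j.1 - a.NC T j.1) * Phi ((grw T Q).erase j) (a.bD T D) (a.eD T D) := by
  have hT' := ne_up hT j
  have hD' : a.InD (up T j) := InD_mono a hT' hj hQ
  have hD : a.InD T := InD_mono a hT ((le_up T j).trans hj) hQ
  have hz := exp_zm_le a hT hD hP
  have hsl := slack a j hT hD' hP
  have hlo := loss a hz j.1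
  set S := ∑ m ∈ Finset.univ.erase j.1, EE a T j.1 m / a.th T m with hS
  have hS0 : 0 ≤ S := Finset.sum_nonneg fun m _ =>
    div_nonneg (Real.sqrt_nonneg _) (th_pos a T m).le
  have hS' : ∑ m ∈ Finset.univ.erase j.1, EE a (up T j) j.1 m / a.th (up T j) m ≤ 2 * S := by
    rw [hS, Finset.mul_sum]
    exact Finset.sum_le_sum fun m hm => EE_up a hT j (Finset.ne_of_mem_erase hm)
  have hPhi0 : 0 ≤ Phi ((grw T Q).erase j) (a.bD T D) (a.eD T D) :=
    Phi_nonneg (fun l _ => bD_nonneg a T D l) (eD_nonneg a T D)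
  have hPhi1 : 0 ≤ Phi ((grw T Q).erase j) (a.bD (up T j) D') (a.eD (up T j) D') :=
    Phi_nonneg (fun l _ => bD_nonneg a (up T j) D' l) (eD_nonneg a (up T j) D')
  have h1 : a.Ph (up T j) Q D' ≤ Real.exp (8 * S + LS a T j.1) *
      Phi ((grw T Q).erase j) (a.bD T D) (a.eD T D) := by
    show Phi (grw (up T j) Q) (a.bD (up T j) D') (a.eD (up T j) D') ≤ _
    have h2 := Phi_fresh a hT' j (grw (up T j) Q) D'
    rw [grw_up] at h2
    have h3 := PhiD_step a hT hD (Finset.notMem_erase j (grw T Q)) h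
    calc _ ≤ _ := h2
      _ ≤ Real.exp (8 * S) * Phi ((grw T Q).erase j) (a.bD (up T j) D') (a.eD (up T j) D') := by
          refine mul_le_mul_of_nonneg_right ?_ hPhi1
          have h4 := Real.add_one_le_exp (8 * S)
          linarith
      _ ≤ Real.exp (8 * S) * (Real.exp (LS a T j.1) *
            Phi ((grw T Q).erase j) (a.bD T D) (a.eD T D)) :=
          mul_le_mul_of_nonneg_left h3 (Real.exp_pos _).le
      _ = _ := by rw [Real.exp_add]; ring
  calc Real.exp (a.Ps (up T j) - a.Ps T) * a.Ph (up T j) Q D'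
      ≤ Real.exp (a.Ps (up T j) - a.Ps T) * (Real.exp (8 * S + LS a T j.1) *
          Phi ((grw T Q).erase j) (a.bD T D) (a.eD T D)) :=
        mul_le_mul_of_nonneg_left h1 (Real.exp_pos _).le
    _ = Real.exp (a.Ps (up T j) - a.Ps T + (8 * S + LS a T j.1)) *
          Phi ((grw T Q).erase j) (a.bD T D) (a.eD T D) := by rw [← mul_assoc, ← Real.exp_add]
    _ ≤ _ := by
        refine mul_le_mul_of_nonneg_right (Real.exp_le_exp.2 ?_) hPhi0
        have h5 : a.gm T j.1 = gk (lt + 1) (a.z T j.1) -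
            2 * a.th T j.1 * Real.exp (-(((lt : ℝ) + 2) * a.z T j.1)) := rfl
        have h6 : 0 ≤ 8 / a.X T j.1 := div_nonneg (by norm_num) (X_pos a T j.1).le
        rw [h5]
        linarith

end BTR
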