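import Pool.Agent.BTR.I2
import Pool.Agent.BTR.V18
import Pool.Agent.BTR.I3a
set_option autoImplicit false

open scoped Classical
open Finset

/-! # The step inequalities (port of BTS/I3a, I3b, I3c), with room for the compounds (`NC`) -/

namespace BTR
open BTP BTS

variable {d lt : ℕ} (a : Pc d lt)

theorem i3b_sum_nonneg (T : Box d) (i : Fin d) :
    0 ≤ ∑ m ∈ Finset.univ.erase i, EE a T i m / a.th T m :=
  Finset.sum_nonneg (fun m _ => div_nonneg (Real.sqrt_nonneg _) (th_pos a T m).le)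

/-- [BTR-I3b] the step inequality for two levels (cf. BTS/I3b.lean).
PROOF. `T₁ = up T j`, `T₂ = up T₁ j`. `Phi_fresh` at `T₂`, `EE_up` (from `T₁`), `PhiD_step` twice: factor `(1 + 8 ∑ EE(T₁)/θ(T₁)) exp(LS T₁ + LS T)`. `slack` for `T` and `T₁` (`z_up_same`), `loss` for `T` and `T₁`: the exponent is at most `2 g - 2θ(T)e^{-κz} - 2θ(T₁)e^{-κz} - 8/X(T) - NC(T) - NC(T₁)`, and `θ(T₁) ≥ θ(T)(1 - 1/X)` (`th_le_up`), so it is at most `2 gm T j.1 - NC T j.1`. -/
theorem step_two {T Q : Box d} {j : Dir d} {D D' : Finset (Site (d + lt))} (hT : Ne T)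
    (hQ : a.InD Q) (hj : up (up T j) j ≤ Q)
    (hP : a.Ps T + a.gam < 2 * (d * a.A * lamk (d - 1) (lt + 1))) (h : D' ⊆ D) :
    Real.exp (a.Ps (up (up T j) j) - a.Ps T) * a.Ph (up (up T j) j) Q D' ≤
      Real.exp (2 * a.gm T j.1 - a.NC T j.1) * Phi ((grw T Q).erase j) (a.bD T D) (a.eD T D) := by
  set T1 : Box d := up T j with hT1def
  set T2 : Box d := up T1 j with hT2def
  have hT1 : Ne T1 := ne_up hT j
  have hT2 : Ne T2 := ne_up hT1 j
  have hD2 : a.InD T2 := InD_mono a hT2 hj hQ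
  have hD1 : a.InD T1 := InD_mono a hT1 (le_up T1 j) hD2
  have hD0 : a.InD T := InD_mono a hT (le_up T j) hD1
  have hP0 : a.Ps T < 2 * (d * a.A * lamk (d - 1) (lt + 1)) := by linarith [a.hgam0]
  have hP1 : a.Ps T1 < 2 * (d * a.A * lamk (d - 1) (lt + 1)) := (Ps_up_gam a hT j).trans_lt hP
  have hO : j ∉ (grw T Q).erase j := Finset.notMem_erase _ _
  have hgrw : (grw T2 Q).erase j = (grw T Q).erase j := by
    rw [hT2def, grw_up, hT1def, grw_up]
  set O := (grw T Q).erase j with hOdef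
  set P0 := Phi O (a.bD T D) (a.eD T D) with hP0def
  have hP0n : 0 ≤ P0 := Phi_nonneg (fun l _ => bD_nonneg a T D l) (fun i i' => eD_nonneg a T D i i')
  set S1 := ∑ m ∈ Finset.univ.erase j.1, EE a T1 j.1 m / a.th T1 m with hS1
  set S0 := ∑ m ∈ Finset.univ.erase j.1, EE a T j.1 m / a.th T m with hS0
  have hS1n : 0 ≤ S1 := i3b_sum_nonneg a T1 j.1
  have hS0n : 0 ≤ S0 := i3b_sum_nonneg a T j.1
  have hfr := Phi_fresh a hT2 j (grw T2 Q) D'
  rw [hgrw] at hfr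
  have hE2 : ∑ m ∈ Finset.univ.erase j.1, EE a T2 j.1 m / a.th T2 m ≤ 2 * S1 := by
    rw [hS1, Finset.mul_sum]
    exact Finset.sum_le_sum (fun m hm => EE_up a hT1 j (Finset.ne_of_mem_erase hm))
  have hst1 := PhiD_step a hT1 hD1 (j := j) (O := O) hO h
  have hst0 := PhiD_step a hT hD0 (j := j) (O := O) hO (Finset.Subset.refl D)
  have hPhn : 0 ≤ Phi O (a.bD T2 D') (a.eD T2 D') :=
    Phi_nonneg (fun l _ => bD_nonneg a T2 D' l) (fun i i' => eD_nonneg a T2 D' i i')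
  have hPh : a.Ph T2 Q D' ≤ Real.exp (8 * S1 + LS a T1 j.1 + LS a T j.1) * P0 := by
    unfold Pc.Ph
    calc Phi (grw T2 Q) (a.bD T2 D') (a.eD T2 D')
        ≤ (1 + 4 * ∑ m ∈ Finset.univ.erase j.1, EE a T2 j.1 m / a.th T2 m) *
          Phi O (a.bD T2 D') (a.eD T2 D') := hfr
      _ ≤ Real.exp (8 * S1) * Phi O (a.bD T2 D') (a.eD T2 D') := by
          refine mul_le_mul_of_nonneg_right ?_ hPhn
          have := Real.add_one_le_exp (8 * S1)
          linarith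
      _ ≤ Real.exp (8 * S1) * (Real.exp (LS a T1 j.1) * (Real.exp (LS a T j.1) * P0)) := by
          refine mul_le_mul_of_nonneg_left ?_ (Real.exp_pos _).le
          exact hst1.trans (mul_le_mul_of_nonneg_left hst0 (Real.exp_pos _).le)
      _ = Real.exp (8 * S1 + LS a T1 j.1 + LS a T j.1) * P0 := by
          rw [Real.exp_add, Real.exp_add]
          ring
  have hs0 := slack a j hT hD1 hP0
  have hs1 := slack a j hT1 hD2 hP1
  rw [← hT1def] at hs0
  rw [← hT2def] at hs1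
  have hz1 : a.z T1 j.1 = a.z T j.1 := z_up_same a hT j
  have hl0 := loss a (exp_zm_le a hT hD0 hP0) j.1
  have hl1 := loss a (exp_zm_le a hT1 hD1 hP1) j.1
  rw [← hS0] at hl0
  rw [← hS1] at hl1
  rw [hz1] at hs1 hl1
  have hN1 := NC_nonneg a T1 j.1
  have hth : a.th T j.1 * (1 - 1 / a.X T j.1) ≤ a.th T1 j.1 := th_le_up a hT j j.1
  have hthp := th_pos a T j.1
  have hthl := th_le a T j.1
  have hX := X_pos a T j.1
  have hX1 := X_pos a T1 j.1
  have hX1' : 0 ≤ 8 / a.X T1 j.1 := by positivity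
  have hzp := z_pos a T j.1
  have hl : (0 : ℝ) ≤ (lt : ℝ) := Nat.cast_nonneg lt
  set e := Real.exp (-(((lt : ℝ) + 2) * a.z T j.1)) with hedef
  have he0 : 0 < e := Real.exp_pos _
  have he1 : e ≤ 1 := Real.exp_le_one_iff.2 (by
    have : 0 ≤ ((lt : ℝ) + 2) * a.z T j.1 := by positivity
    linarith)
  have hgm : a.gm T j.1 = gk (lt + 1) (a.z T j.1) - 2 * a.th T j.1 * e := rfl
  have hX0' : 0 < 1 / a.X T j.1 := by positivity
  have h8 : 8 / a.X T j.1 = 8 * (1 / a.X T j.1) := by ring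
  have hthe : a.th T j.1 * e ≤ 1 := by nlinarith
  have h1 : a.th T j.1 * (1 - 1 / a.X T j.1) * e ≤ a.th T1 j.1 * e :=
    mul_le_mul_of_nonneg_right hth he0.le
  have h2 : a.th T j.1 * e * (1 / a.X T j.1) ≤ 1 * (1 / a.X T j.1) :=
    mul_le_mul_of_nonneg_right hthe hX0'.le
  have h3 : a.th T j.1 * (1 - 1 / a.X T j.1) * e =
      a.th T j.1 * e - a.th T j.1 * e * (1 / a.X T j.1) := by ring
  have hexp : a.Ps T2 - a.Ps T + (8 * S1 + LS a T1 j.1 + LS a T j.1) ≤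
      2 * a.gm T j.1 - a.NC T j.1 := by
    rw [hgm]
    rw [h8] at hl0
    have e1 : 2 * a.th T1 j.1 * e = 2 * (a.th T1 j.1 * e) := by ring
    have e2 : 2 * a.th T j.1 * e = 2 * (a.th T j.1 * e) := by ring
    rw [e1] at hl1
    rw [e2] at hl0 ⊢
    linarith
  calc Real.exp (a.Ps T2 - a.Ps T) * a.Ph T2 Q D'
      ≤ Real.exp (a.Ps T2 - a.Ps T) * (Real.exp (8 * S1 + LS a T1 j.1 + LS a T j.1) * P0) :=
        mul_le_mul_of_nonneg_left hPh (Real.exp_pos _).le
    _ = Real.exp (a.Ps T2 - a.Ps T + (8 * S1 + LS a T1 j.1 + LS a T j.1)) * P0 := by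
        rw [Real.exp_add (a.Ps T2 - a.Ps T)]; ring
    _ ≤ Real.exp (2 * a.gm T j.1 - a.NC T j.1) * P0 :=
        mul_le_mul_of_nonneg_right (Real.exp_le_exp.2 hexp) hP0n

end BTR
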