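import Pool.Agent.BTR.I2
import Pool.Agent.BTR.V18
import Pool.Agent.BTR.I3a
import Pool.Agent.BTR.I3b
set_option autoImplicit false

open scoped Classical
open Finset

/-! # The step inequalities (port of BTS/I3a, I3b, I3c), with room for the compounds (`NC`) -/

namespace BTR
open BTP BTS

variable {d lt : ℕ} (a : Pc d lt)

lemma i3c_EE_nonneg (T : Box d) (i l : Fin d) : 0 ≤ EE a T i l := Real.sqrt_nonneg _

/-- the exponent of one step -/
lemma i3c_exp {T : Box d} {i : Dir d} (hT : Ne T) (hD : a.InD (up T i))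
    (hP : a.Ps T < 2 * (d * a.A * lamk (d - 1) (lt + 1))) :
    a.Ps (up T i) + LS a T i.1 + 8 / a.X T i.1 ≤ a.Ps T + a.gm T i.1 := by
  have h0 := InD_mono a hT (le_up T i) hD
  have h1 := slack a i hT hD hP
  have h2 := loss a (exp_zm_le a hT h0 hP) i.1
  have h3 : 0 ≤ ∑ l ∈ Finset.univ.erase i.1, EE a T i.1 l / a.th T l :=
    Finset.sum_nonneg fun l _ => div_nonneg (i3c_EE_nonneg a T i.1 l) (th_pos a T l).le
  have h4 := NC_nonneg a T i.1
  unfold Pc.gm
  linarith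

lemma i3c_ka : 1000 * (d : ℝ) ≤ a.ka := by
  refine le_trans ?_ a.hka
  have hd : 2 ≤ d := a.hd
  have h1 : d < 10 ^ d := Nat.lt_pow_self (by norm_num)
  have h2 : (d : ℝ) ≤ 10 ^ d := by exact_mod_cast h1.le
  have h3 : (1000 : ℝ) * d ≤ 10 ^ 3 * 10 ^ d := by
    have : (1000 : ℝ) = 10 ^ 3 := by norm_num
    rw [this]
    exact mul_le_mul_of_nonneg_left h2 (by positivity)
  refine h3.trans ?_
  rw [← pow_add]
  exact pow_le_pow_right₀ (by norm_num) (by omega)

lemma i3c_num : 1 + (2 * (d : ℝ)) ^ 2 * (1 / a.ka ^ 2) + (8 * d + 2) * (1 / (64 * a.ka ^ 2)) ≤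
    8 / 5 := by
  have hd : (2 : ℝ) ≤ d := by exact_mod_cast a.hd
  have hka := i3c_ka a
  have h1 : (1000 * (d : ℝ)) ^ 2 ≤ a.ka ^ 2 := by
    apply pow_le_pow_left₀ (by positivity) hka
  have h2 : 0 < (1000 * (d : ℝ)) ^ 2 := by positivity
  have h3 : 1 / a.ka ^ 2 ≤ 1 / (1000 * (d : ℝ)) ^ 2 := one_div_le_one_div_of_le h2 h1
  have h4 : 1 / (64 * a.ka ^ 2) = 1 / 64 * (1 / a.ka ^ 2) := by
    rw [one_div_mul_one_div]
  have h5 : (2 * (d : ℝ)) ^ 2 * (1 / a.ka ^ 2) ≤ (2 * (d : ℝ)) ^ 2 * (1 / (1000 * (d : ℝ)) ^ 2) := by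
    gcongr
  have h6 : (2 * (d : ℝ)) ^ 2 * (1 / (1000 * (d : ℝ)) ^ 2) = 4 / 1000000 := by
    have : (d : ℝ) ≠ 0 := by positivity
    field_simp
    norm_num
  have h7 : (8 * (d : ℝ) + 2) * (1 / (64 * a.ka ^ 2)) ≤ (2 * (d : ℝ)) ^ 2 * (1 / a.ka ^ 2) := by
    rw [h4]
    have h8 : 0 ≤ 1 / a.ka ^ 2 := by positivity
    have h9 : (8 * (d : ℝ) + 2) * (1 / 64) ≤ (2 * (d : ℝ)) ^ 2 := by nlinarith
    calc (8 * (d : ℝ) + 2) * (1 / 64 * (1 / a.ka ^ 2)) =
        (8 * (d : ℝ) + 2) * (1 / 64) * (1 / a.ka ^ 2) := by ring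
      _ ≤ _ := by gcongr
  linarith

/-- [BTR-I3c] the step inequality for an edge (cf. BTS/I3c.lean).
PROOF. `T₁ = up T i`, `T₂ = up T₁ j`. `Phi_edge` at `T₂` with `th l = th T₂ l.1`, `ρ = 1/ka²`, `δ = 1/(64 ka²)` (`eD_le`, `EE_le`, `th_le`, `bD_le_one`): `Ph T₂ Q D' ≤ (1 + 4d²/ka² + (8d+2)/(64ka²)) ∏ ≤ 1.5 ∏_{((grw T₂ Q).erase i).erase j} bD T₂ D'`, `grw_up` twice, `prodD_step` twice (`i`, `j` are not in the product): factor `exp(LS T i + LS T₁ j)`.
`slack` for `(T, i)`, `(T₁, j)` and `loss`: the exponent is at most `gm T i.1 + gm T₁ j.1 ≤ gm T i.1 + gm T j.1 + 1/800` (`gm_up_le`). `1.5 e^{1/800} ≤ 8/5`. -/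
theorem step_edge {T Q : Box d} {i j : Dir d} (hij : i.1 ≠ j.1) {D D' : Finset (Site (d + lt))}
    (hT : Ne T) (hQ : a.InD Q) (hj : up (up T i) j ≤ Q)
    (hP : a.Ps T + a.gam < 2 * (d * a.A * lamk (d - 1) (lt + 1))) (h : D' ⊆ D) :
    Real.exp (a.Ps (up (up T i) j) - a.Ps T) * a.Ph (up (up T i) j) Q D' ≤
      8 / 5 * Real.exp (a.gm T i.1 + a.gm T j.1) *
        ∏ l ∈ ((grw T Q).erase i).erase j, a.bD T D l := by
  have hne : i ≠ j := fun h0 => hij (by rw [h0])
  have hT1 : Ne (up T i) := ne_up hT i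
  have hT2 : Ne (up (up T i) j) := ne_up hT1 j
  have hD2 : a.InD (up (up T i) j) := InD_mono a hT2 hj hQ
  have hD1 : a.InD (up T i) := InD_mono a hT1 (le_up _ j) hD2
  have hP0 : a.Ps T < 2 * (d * a.A * lamk (d - 1) (lt + 1)) := by
    have := a.hgam0
    linarith
  have hP1 : a.Ps (up T i) < 2 * (d * a.A * lamk (d - 1) (lt + 1)) := by
    have := Ps_up_gam a hT i
    linarith
  have e1 := i3c_exp a hT hD1 hP0
  have e2 := i3c_exp a hT1 hD2 hP1
  have e3 := gm_up_le a hT i j.1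
  have x1 := X_pos a T i.1
  have x2 := X_pos a (up T i) j.1
  have e4 : 1 / (8 * a.X T i.1) ≤ 8 / a.X T i.1 := by
    rw [div_le_div_iff₀ (by positivity) x1]
    nlinarith
  have e5 : 0 ≤ 8 / a.X (up T i) j.1 := by positivity
  have hexp : a.Ps (up (up T i) j) - a.Ps T + (LS a (up T i) j.1 + LS a T i.1) ≤
      a.gm T i.1 + a.gm T j.1 := by linarith
  have hset : ((grw (up (up T i) j) Q).erase i).erase j = ((grw T Q).erase i).erase j := by
    rw [Finset.erase_right_comm, grw_up, Finset.erase_right_comm, grw_up]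
  have hka : 0 < a.ka := by
    have hd : (2 : ℝ) ≤ d := by exact_mod_cast a.hd
    have := i3c_ka a
    linarith
  have hee : ∀ l m : Dir d, a.eD (up (up T i) j) D' l m ≤
      1 / a.ka ^ 2 * (a.th (up (up T i) j) l.1 * a.th (up (up T i) j) m.1) := by
    intro l m
    refine (eD_le a hT2 D' l m).trans ((EE_le a hD2 l.1 m.1).trans (le_of_eq ?_))
    ring
  have hee2 : ∀ l m : Dir d, a.eD (up (up T i) j) D' l m ≤
      1 / (64 * a.ka ^ 2) * a.th (up (up T i) j) m.1 := by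
    intro l m
    refine (hee l m).trans ?_
    have t1 := th_le a (up (up T i) j) l.1
    have t2 := th_pos a (up (up T i) j) m.1
    calc 1 / a.ka ^ 2 * (a.th (up (up T i) j) l.1 * a.th (up (up T i) j) m.1) ≤
        1 / a.ka ^ 2 * (1 / 64 * a.th (up (up T i) j) m.1) := by gcongr
      _ = _ := by
        field_simp
  have hPhi := Phi_edge (O := grw (up (up T i) j) Q) hne (a.bD (up (up T i) j) D')
    (fun l => a.th (up (up T i) j) l.1) (a.eD (up (up T i) j) D')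
    (δ := 1 / (64 * a.ka ^ 2)) (ρ := 1 / a.ka ^ 2) (by positivity) (by positivity)
    (fun l => th_pos a _ _) (fun l _ => th_le_bD a _ _ l) (bD_le_one a hT2 D' i)
    (bD_le_one a hT2 D' j) (eD_nonneg a _ _) (eD_symm a _ _)
    (fun l _ m _ _ _ _ _ _ => hee l m)
    (fun m _ _ _ => ⟨hee2 i m, hee2 j m⟩)
    ((hee2 i j).trans (by
      have t1 := th_le a (up (up T i) j) j.1
      have t2 : 0 ≤ 1 / (64 * a.ka ^ 2) := by positivity
      nlinarith))
  have hPh : a.Ph (up (up T i) j) Q D' = Phi (grw (up (up T i) j) Q)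
      (a.bD (up (up T i) j) D') (a.eD (up (up T i) j) D') := rfl
  rw [← hPh, hset] at hPhi
  have p0 : ∀ (T' : Box d) (D0 : Finset (Site (d + lt))),
      0 ≤ ∏ l ∈ ((grw T Q).erase i).erase j, a.bD T' D0 l :=
    fun T' D0 => Finset.prod_nonneg fun l _ => bD_nonneg a T' D0 l
  have s1 := prodD_step a hT1 (j := j) (O := ((grw T Q).erase i).erase j)
    (Finset.notMem_erase _ _) (Finset.Subset.refl D')
  have s2 := prodD_step a hT (j := i) (O := ((grw T Q).erase i).erase j)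
    (fun hm => (Finset.notMem_erase i _) (Finset.mem_of_mem_erase hm)) h
  have num := i3c_num a
  calc Real.exp (a.Ps (up (up T i) j) - a.Ps T) * a.Ph (up (up T i) j) Q D' ≤
      Real.exp (a.Ps (up (up T i) j) - a.Ps T) *
        (8 / 5 * (Real.exp (LS a (up T i) j.1) * (Real.exp (LS a T i.1) *
          ∏ l ∈ ((grw T Q).erase i).erase j, a.bD T D l))) := by
        gcongr
        refine hPhi.trans ?_
        have s3 : ∏ l ∈ ((grw T Q).erase i).erase j, a.bD (up (up T i) j) D' l ≤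
            Real.exp (LS a (up T i) j.1) * (Real.exp (LS a T i.1) *
              ∏ l ∈ ((grw T Q).erase i).erase j, a.bD T D l) := by
          refine s1.trans ?_
          gcongr
        exact mul_le_mul num s3 (p0 _ _) (by norm_num)
    _ = 8 / 5 * Real.exp (a.Ps (up (up T i) j) - a.Ps T + (LS a (up T i) j.1 + LS a T i.1)) *
          ∏ l ∈ ((grw T Q).erase i).erase j, a.bD T D l := by
        rw [Real.exp_add (a.Ps (up (up T i) j) - a.Ps T), Real.exp_add (LS a (up T i) j.1)]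
        ring
    _ ≤ _ := by
        have := p0 T D
        gcongr

end BTR
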