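import Pool.Agent.BTR.K2

set_option autoImplicit false

open scoped Classical
open Finset

namespace BTR
open BTP

variable {d : ℕ}

/-- [BTR-K10] a bijection `φ` of the lattice that maps neighbours to neighbours (`τ` on the directions) transports built sets.
PROOF. Induction on `h`: `Finset.map_insert`; `nbr O X v ≤ nbr (φ '' O) (X.map φ) (φ v)`: the map `τ` is injective on the directions `j` with `stp v j ∈ X ∪ O`, and `φ (stp v j) = stp (φ v) (τ j)`. -/
theorem Bu.map {φ : Site d ≃ Site d} {τ : Equiv.Perm (Dir d)}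
    (hφ : ∀ v j, φ (stp v j) = stp (φ v) (τ j)) {r : ℕ} {O : Set (Site d)} {U X : Finset (Site d)}
    (h : Bu r O U X) : Bu r (φ '' O) (U.map φ.toEmbedding) (X.map φ.toEmbedding) := by
  induction h with
  | nil =>
    rw [Finset.map_empty]
    exact Bu.nil
  | @add X v hX hv ih =>
    rw [Finset.map_insert]
    refine Bu.add ih ?_
    rcases hv with hv | hv
    · left
      exact (Finset.mem_map' φ.toEmbedding).2 hv
    · right
      refine hv.trans ?_
      unfold nbr
      refine Finset.card_le_card_of_injOn τ ?_ τ.injective.injOn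
      intro j hj
      rw [Finset.mem_coe, Finset.mem_filter] at hj ⊢
      refine ⟨Finset.mem_univ _, ?_⟩
      have h1 : stp (φ.toEmbedding v) (τ j) = φ (stp v j) := (hφ v j).symm
      rw [h1]
      rcases hj.2 with h2 | h2
      · left
        exact (Finset.mem_map' φ.toEmbedding).2 h2
      · right
        exact ⟨_, h2, rfl⟩

theorem Cn.map {φ : Site d ≃ Site d} {τ : Equiv.Perm (Dir d)}
    (hφ : ∀ v j, φ (stp v j) = stp (φ v) (τ j)) {X : Finset (Site d)} (h : Cn X) :
    Cn (X.map φ.toEmbedding) := by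
  refine ⟨h.1.map, ?_⟩
  intro u hu v hv
  obtain ⟨u', hu', rfl⟩ := Finset.mem_map.1 hu
  obtain ⟨v', hv', rfl⟩ := Finset.mem_map.1 hv
  refine Relation.ReflTransGen.lift (r := fun a b => b ∈ X ∧ adj a b)
    (p := fun a b => b ∈ X.map φ.toEmbedding ∧ adj a b) φ ?_ u' v' (h.2 u' hu' v' hv')
  rintro a b ⟨hb, j, rfl⟩
  exact ⟨(Finset.mem_map' φ.toEmbedding).2 hb, τ j, hφ a j⟩

end BTR
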