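import Pool.Agent.BTP.P5
import Pool.Agent.BTP.P6

set_option autoImplicit false

open scoped Classical
open Finset

namespace BTR
open BTP

theorem k11a_step {α : Type*} {p : ℝ} (hp0 : 0 ≤ p) (hp1 : p ≤ 1) {V : Finset α} {v : α} (hv : v ∉ V)
    {E : Finset α → Prop} (hE : Inc E) : Pr V p E ≤ Pr (insert v V) p E := by
  rw [Pr_insert hv]
  have h1 : Pr V p E ≤ Pr V p (fun U => E (insert v U)) :=
    Pr_mono hp0 hp1 fun U _ hU => hE _ _ (Finset.subset_insert v U) hU
  have h2 := mul_le_mul_of_nonneg_left h1 hp0
  linarith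

/-- [BTR-K11] an increasing event on a larger ground set is more likely (`BTP.Pr_insert`: `Pr (insert v V) p E = (1-p) Pr V p E + p Pr V p (E (insert v ·)) ≥ Pr V p E`; induction on `V' \ V` or on `V'`) -/
theorem Pr_mono_set {α : Type*} {p : ℝ} (hp0 : 0 ≤ p) (hp1 : p ≤ 1) {V V' : Finset α} (h : V ⊆ V')
    {E : Finset α → Prop} (hE : Inc E) : Pr V p E ≤ Pr V' p E := by
  have key : ∀ D : Finset α, Pr V p E ≤ Pr (V ∪ D) p E := by
    intro D
    induction D using Finset.induction_on with
    | empty => rw [Finset.union_empty]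
    | insert v D _ ih =>
      rw [Finset.union_insert]
      by_cases hv : v ∈ V ∪ D
      · rw [Finset.insert_eq_of_mem hv]
        exact ih
      · exact ih.trans (k11a_step hp0 hp1 hv hE)
  have h2 := key V'
  rwa [Finset.union_eq_right.2 h] at h2

theorem k11a_eq {α : Type*} {p : ℝ} (V B : Finset α) :
    ∀ E : Finset α → Prop, Pr V p (fun U => E (U ∩ B)) = Pr (V ∩ B) p E := by
  induction V using Finset.induction_on with
  | empty =>
    intro E
    rw [Finset.empty_inter, Pr_empty, Pr_empty, Finset.empty_inter]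
  | insert v V hv ih =>
    intro E
    rw [Pr_insert hv]
    by_cases hB : v ∈ B
    · have h1 : (fun U => E (insert v U ∩ B)) = (fun U => (fun W => E (insert v W)) (U ∩ B)) := by
        funext U
        rw [Finset.insert_inter_of_mem hB]
      have hv' : v ∉ V ∩ B := fun h => hv (Finset.mem_inter.1 h).1
      rw [h1, ih E, ih (fun W => E (insert v W)), Finset.insert_inter_of_mem hB, Pr_insert hv']
    · have h1 : (fun U => E (insert v U ∩ B)) = (fun U => E (U ∩ B)) := by
        funext U
        rw [Finset.insert_inter_of_notMem hB]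
      rw [h1, ih E, Finset.insert_inter_of_notMem hB]
      ring

theorem k11a_le {α : Type*} {p : ℝ} (hp0 : 0 ≤ p) (hp1 : p ≤ 1) (V B : Finset α)
    {E : Finset α → Prop} (hE : Inc E) : Pr V p (fun U => E (U ∩ B)) ≤ Pr B p E := by
  rw [k11a_eq]
  exact Pr_mono_set hp0 hp1 Finset.inter_subset_right hE

/-- [BTR-K11] an event that depends only on the points in `B`. PROOF. Induction on `V` (`Pr_insert`), or: by `Pr_mono_set` we may enlarge `B`; show `Pr V p (fun U => E (U ∩ B)) = Pr (V ∩ B) p E`
by induction on `V` for all events: for `v ∈ B` insert `v` on both sides; for `v ∉ B` the two terms of `Pr_insert` are equal. Then `V ∩ B ⊆ B` and `Pr_mono_set`. -/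
theorem Pr_sub {α : Type*} [DecidableEq α] {p : ℝ} (hp0 : 0 ≤ p) (hp1 : p ≤ 1) (V B : Finset α)
    {E : Finset α → Prop} (hE : Inc E) : Pr V p (fun U => E (U ∩ B)) ≤ Pr B p E := by
  have h1 : Pr V p (fun U => E (U ∩ B)) =
      Pr V p (fun U => E (@Inter.inter (Finset α)
        (@Finset.instInter α (fun a b => Classical.propDecidable (a = b))) U B)) := by
    refine Pr_congr fun U _ => ?_
    have : U ∩ B = @Inter.inter (Finset α)
        (@Finset.instInter α (fun a b => Classical.propDecidable (a = b))) U B := by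
      ext x
      simp only [Finset.mem_inter]
    rw [this]
  rw [h1]
  exact k11a_le hp0 hp1 V B hE

end BTR
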