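import Pool.Agent.BTR.K7
import Pool.Agent.BTP.S3

set_option autoImplicit false

open scoped Classical
open Finset

namespace BTR
open BTP

variable {d : ℕ}

/-- [BTR-K12] the number of boxes `S ≤ V` of extent at most `2h`: `BTP.card_S` (file BTP/S3) with the record `μ = 0` (no active direction, so `ina μ = univ`) and `h := 2h + 1`; `BTP.card_sites`.
The boxes form a finite set: they are in `Fintype.piFinset`/`Finset.Icc` of functions `Dir d → ℤ` with `S j ≤ V j` and `S j ≥ - V (opp j)` (as `Ne S`); state for any finite set of such boxes. -/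
theorem card_small {V : Box d} (hV : Ne V) (h : ℕ) (𝓢 : Finset (Box d))
    (h𝓢 : ∀ S ∈ 𝓢, Ne S ∧ S ≤ V ∧ Ys S ≤ 2 * h) :
    𝓢.card ≤ (2 * h + 1) ^ d * (sites V).card := by
  have h1 := card_S (h := 2 * h + 1) hV ((fun _ => 0, fun _ => 0) : Rec d) 𝓢 (by
    intro S hS
    obtain ⟨a, b, c⟩ := h𝓢 S hS
    refine ⟨a, b, ?_, fun j hj => absurd hj (lt_irrefl _)⟩
    push_cast
    linarith)
  have h2 : ina ((fun _ => 0, fun _ => 0) : Rec d) = Finset.univ := by
    ext i
    simp [ina, eR]
  rw [h2] at h1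
  rw [card_sites hV]
  exact h1

end BTR
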