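import Pool.Agent.BTR.KD
import Pool.Agent.BTP.B6

set_option autoImplicit false

open scoped Classical
open Finset

namespace BTR
open BTP

variable {d : ℕ}

/-- [BTR-K1] unfold `stp`, `Function.update`. -/
theorem stp_self (v : Site d) (j : Dir d) : stp v j j.1 = v j.1 + (if j.2 = true then 1 else -1) := by
  unfold stp
  rw [Function.update_self]

theorem stp_ne (v : Site d) (j : Dir d) {i : Fin d} (h : i ≠ j.1) : stp v j i = v i := by
  unfold stp
  rw [Function.update_of_ne h]

/-- two directions with the same neighbour are equal (the neighbour differs from `v` exactly in coordinate `j.1`, by `±1`) -/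
theorem stp_inj (v : Site d) : Function.Injective (stp v) := by
  rintro ⟨i, a⟩ ⟨j, b⟩ h
  have h1 := congrFun h i
  rw [show stp v (i, a) i = v i + (if a = true then 1 else -1) from stp_self v (i, a)] at h1
  by_cases hij : i = j
  · subst hij
    rw [show stp v (i, b) i = v i + (if b = true then 1 else -1) from stp_self v (i, b)] at h1
    have h2 := add_left_cancel h1
    cases a <;> cases b <;> simp_all
  · rw [stp_ne v (j, b) hij] at h1
    exfalso
    cases a <;> simp at h1

theorem adj_stp (v : Site d) (j : Dir d) : adj v (stp v j) := ⟨j, rfl⟩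

/-- `u = stp (stp u j) (opp j)` -/
theorem stp_opp (v : Site d) (j : Dir d) : stp (stp v j) (opp j) = v := by
  funext i
  obtain ⟨a, b⟩ := j
  by_cases h : i = a
  · subst h
    rw [show stp (stp v (i, b)) (opp (i, b)) i =
      stp v (i, b) i + (if (!b) = true then 1 else -1) from stp_self _ (opp (i, b))]
    rw [show stp v (i, b) i = v i + (if b = true then 1 else -1) from stp_self v (i, b)]
    cases b <;> simp
  · rw [stp_ne _ (opp (a, b)) h, stp_ne _ (a, b) h]

theorem adj_symm {u v : Site d} (h : adj u v) : adj v u := by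
  obtain ⟨j, rfl⟩ := h
  exact ⟨opp j, (stp_opp u j).symm⟩

/-- `∑ i, |v i - u i| = 1`: one coordinate changes by one (`Finset.sum_eq_single`) -/
theorem adj_sum {u v : Site d} (h : adj u v) : ∑ i, |v i - u i| = 1 := by
  obtain ⟨j, rfl⟩ := h
  rw [Finset.sum_eq_single j.1]
  · rw [stp_self, add_sub_cancel_left]
    split_ifs <;> simp
  · intro b _ hb
    rw [stp_ne u j hb, sub_self, abs_zero]
  · intro h
    exact absurd (Finset.mem_univ _) h

theorem adj_abs {u v : Site d} (h : adj u v) (i : Fin d) : |v i - u i| ≤ 1 := by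
  rw [← adj_sum h]
  exact Finset.single_le_sum (f := fun i => |v i - u i|) (fun _ _ => abs_nonneg _)
    (Finset.mem_univ i)

/-- conversely, sites at `ℓ¹`-distance one are adjacent (`BTP.b4_unique` in file BTP/B4 gives the coordinate; or by hand) -/
theorem adj_of_sum {u v : Site d} (h : ∑ i, |v i - u i| = 1) : adj u v := by
  have hex : ∃ i, v i ≠ u i := by
    by_contra hne
    push Not at hne
    have h0 : ∑ i, |v i - u i| = 0 := by
      apply Finset.sum_eq_zero
      intro i _
      rw [hne i, sub_self, abs_zero]
    rw [h0] at h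
    exact absurd h (by norm_num)
  obtain ⟨i, hi⟩ := hex
  rw [← Finset.add_sum_erase _ _ (Finset.mem_univ i)] at h
  have h1 : 0 ≤ ∑ x ∈ Finset.univ.erase i, |v x - u x| :=
    Finset.sum_nonneg (fun _ _ => abs_nonneg _)
  have h2 : 1 ≤ |v i - u i| := Int.one_le_abs (sub_ne_zero.mpr hi)
  have h3 : ∑ x ∈ Finset.univ.erase i, |v x - u x| = 0 := by omega
  have h4 := (Finset.sum_eq_zero_iff_of_nonneg (fun _ _ => abs_nonneg _)).mp h3
  have h5 : |v i - u i| = 1 := by omega
  have key : ∀ b : Bool, v i = u i + (if b = true then 1 else -1) → adj u v := by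
    intro b hb
    refine ⟨(i, b), ?_⟩
    funext l
    by_cases hl : l = i
    · subst hl
      rw [hb]
      exact (stp_self u (l, b)).symm
    · rw [stp_ne u (i, b) hl]
      have h6 := h4 l (Finset.mem_erase.mpr ⟨hl, Finset.mem_univ l⟩)
      rw [abs_eq_zero] at h6
      omega
  rcases (abs_eq (by norm_num : (0 : ℤ) ≤ 1)).mp h5 with h6 | h6
  · exact key true (by rw [if_pos rfl]; omega)
  · exact key false (by rw [if_neg (by simp)]; omega)

end BTR
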