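import Pool.Agent.BTR.K1

set_option autoImplicit false

open scoped Classical
open Finset

namespace BTR
open BTP

variable {d : ℕ}

/-- `nbr` is monotone; more precisely only the directions matter (`Finset.card_le_card`) -/
theorem nbr_le {O O' : Set (Site d)} {X X' : Finset (Site d)} {v : Site d}
    (h : ∀ j : Dir d, (stp v j ∈ X ∨ stp v j ∈ O) → (stp v j ∈ X' ∨ stp v j ∈ O')) :
    nbr O X v ≤ nbr O' X' v := by
  unfold nbr
  refine Finset.card_le_card fun j hj => ?_
  rw [mem_filter] at *
  exact ⟨hj.1, h j hj.2⟩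

/-- [BTR-K2] restriction of a built set to a subset `Y`: it is enough that the helpers and the sites of `X \ Y` next to `Y` are helpers of the new structure.
PROOF. Induction on `h` for all `Y`. `nil`: `Y = ∅`. `add`: `X = insert v X₀`, `Y ⊆ insert v X₀`, `Y₀ = Y ∩ X₀` (or `Y.filter (· ∈ X₀)`).
The hypotheses hold for `(X₀, Y₀)`: for `w ∈ Y₀`, if `stp w j ∈ X₀` and `stp w j ∉ Y₀` then `stp w j ∈ X` and `stp w j ∉ Y`. So `Y₀` is built.
If `v ∉ Y` then `Y = Y₀`. If `v ∈ Y`: `Y = insert v Y₀`; if `v ∈ U` then `v ∈ U'`; if `r ≤ nbr O X₀ v`, then `nbr O X₀ v ≤ nbr O' Y₀ v` by `nbr_le`: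
a direction with `stp v j ∈ X₀` has `stp v j ∈ Y₀` or `stp v j ∉ Y` (then it is in `X \ Y`, so in `O'`); a direction with `stp v j ∈ O` has `stp v j ∈ O'`. -/
theorem Bu.restrict {r : ℕ} {O O' : Set (Site d)} {U U' X : Finset (Site d)} (h : Bu r O U X) :
    ∀ {Y : Finset (Site d)}, Y ⊆ X →
    (∀ v ∈ Y, ∀ j : Dir d, stp v j ∈ O → stp v j ∈ O') →
    (∀ v ∈ Y, ∀ j : Dir d, stp v j ∈ X → stp v j ∉ Y → stp v j ∈ O') →
    (∀ v ∈ Y, v ∈ U → v ∈ U') → Bu r O' U' Y := by
  induction h with
  | nil =>
    intro Y hY _ _ _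
    rw [Finset.subset_empty] at hY
    subst hY
    exact Bu.nil
  | @add X₀ v hX hv ih =>
    intro Y hY h1 h2 h3
    have hY0 : Y.filter (· ∈ X₀) ⊆ X₀ := fun w hw => (mem_filter.1 hw).2
    have hB : Bu r O' U' (Y.filter (· ∈ X₀)) :=
      ih hY0 (fun w hw j hj => h1 w (mem_filter.1 hw).1 j hj)
        (fun w hw j hj hj2 => h2 w (mem_filter.1 hw).1 j (mem_insert_of_mem hj)
          (fun hY => hj2 (mem_filter.2 ⟨hY, hj⟩)))
        (fun w hw => h3 w (mem_filter.1 hw).1)
    by_cases hvY : v ∈ Y
    · have hYe : Y = insert v (Y.filter (· ∈ X₀)) := by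
        ext w
        rw [mem_insert, mem_filter]
        constructor
        · intro hw
          rcases mem_insert.1 (hY hw) with h | h
          · left
            exact h
          · right
            exact ⟨hw, h⟩
        · rintro (rfl | h)
          · exact hvY
          · exact h.1
      rw [hYe]
      refine Bu.add hB ?_
      rcases hv with hv | hv
      · left
        exact h3 v hvY hv
      · right
        refine hv.trans (nbr_le fun j hj => ?_)
        rcases hj with hj | hj
        · by_cases hjY : stp v j ∈ Y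
          · left
            exact mem_filter.2 ⟨hjY, hj⟩
          · right
            exact h2 v hvY j (mem_insert_of_mem hj) hjY
        · right
          exact h1 v hvY j hj
    · have hYe : Y = Y.filter (· ∈ X₀) := by
        ext w
        rw [mem_filter]
        constructor
        · intro hw
          refine ⟨hw, ?_⟩
          rcases mem_insert.1 (hY hw) with h | h
          · subst h
            exact absurd hw hvY
          · exact h
        · exact And.left
      rw [hYe]
      exact hB

/-- `Bu.restrict` with `Y = X` -/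
theorem Bu.mono {r : ℕ} {O O' : Set (Site d)} {U U' X : Finset (Site d)} (h : Bu r O U X)
    (hO : O ⊆ O') (hU : U ⊆ U') : Bu r O' U' X := by
  exact h.restrict (Finset.Subset.refl X) (fun v _ j hj => hO hj) (fun v _ j hj hj2 => absurd hj hj2)
    (fun v _ hv => hU hv)

/-- `Bu.restrict` with `Y = X`: only the seeds in `X` matter -/
theorem Bu.inter {r : ℕ} {O : Set (Site d)} {U X : Finset (Site d)} (h : Bu r O U X) :
    Bu r O (U ∩ X) X := by
  exact h.restrict (Finset.Subset.refl X) (fun v _ j hj => hj) (fun v _ j hj hj2 => absurd hj hj2)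
    (fun v hvX hvU => mem_inter.2 ⟨hvU, hvX⟩)

end BTR
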