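import Pool.Agent.BTR.K2

set_option autoImplicit false

open scoped Classical
open Finset

namespace BTR
open BTP

variable {d : ℕ}

theorem mem_cmp {X : Finset (Site d)} {x v : Site d} :
    v ∈ cmp X x ↔ v ∈ X ∧ Relation.ReflTransGen (fun a b => b ∈ X ∧ adj a b) x v := by
  unfold BTR.cmp
  rw [Finset.mem_filter]

theorem cmp_sub (X : Finset (Site d)) (x : Site d) : cmp X x ⊆ X := by
  intro v hv
  exact (mem_cmp.1 hv).1

theorem self_mem_cmp {X : Finset (Site d)} {x : Site d} (hx : x ∈ X) : x ∈ cmp X x := by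
  exact mem_cmp.2 ⟨hx, Relation.ReflTransGen.refl⟩

/-- [BTR-K3] a path in `X` from a point of `X` can be reversed. PROOF. Induction on the path, `adj_symm`. -/
theorem path_symm {X : Finset (Site d)} {u v : Site d} (hu : u ∈ X)
    (h : Relation.ReflTransGen (fun a b => b ∈ X ∧ adj a b) u v) :
    Relation.ReflTransGen (fun a b => b ∈ X ∧ adj a b) v u := by
  have key : v ∈ X ∧ Relation.ReflTransGen (fun a b => b ∈ X ∧ adj a b) v u := by
    induction h with
    | refl => exact ⟨hu, Relation.ReflTransGen.refl⟩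
    | tail _ h2 ih => exact ⟨h2.1, Relation.ReflTransGen.head ⟨ih.1, adj_symm h2.2⟩ ih.2⟩
  exact key.2

theorem cmp_closed {X : Finset (Site d)} {x v w : Site d} (hv : v ∈ cmp X x) (hw : w ∈ X)
    (h : adj v w) : w ∈ cmp X x := by
  exact mem_cmp.2 ⟨hw, (mem_cmp.1 hv).2.tail ⟨hw, h⟩⟩

/-- a path of `X` starting in a set `Y ⊆ X` closed in `X` under adjacency stays in `Y` and is a path of `Y` (induction on the path) -/
theorem path_in {X Y : Finset (Site d)} (hY : ∀ v ∈ Y, ∀ w ∈ X, adj v w → w ∈ Y) {u v : Site d}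
    (hu : u ∈ Y) (h : Relation.ReflTransGen (fun a b => b ∈ X ∧ adj a b) u v) :
    v ∈ Y ∧ Relation.ReflTransGen (fun a b => b ∈ Y ∧ adj a b) u v := by
  induction h with
  | refl => exact ⟨hu, Relation.ReflTransGen.refl⟩
  | tail _ h2 ih =>
    have h3 := hY _ ih.1 _ h2.1 h2.2
    exact ⟨h3, ih.2.tail ⟨h3, h2.2⟩⟩

/-- the component is connected. PROOF. `path_in` for `Y = cmp X x` gives paths inside the component from `x`; `path_symm`, `trans`. -/
theorem Cn_cmp {X : Finset (Site d)} {x : Site d} (hx : x ∈ X) : Cn (cmp X x) := by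
  have hcl : ∀ v ∈ BTR.cmp X x, ∀ w ∈ X, adj v w → w ∈ BTR.cmp X x :=
    fun v hv w hw h => cmp_closed hv hw h
  have hself := self_mem_cmp hx
  have hp : ∀ v ∈ BTR.cmp X x,
      Relation.ReflTransGen (fun a b => b ∈ BTR.cmp X x ∧ adj a b) x v :=
    fun v hv => (path_in hcl hself (mem_cmp.1 hv).2).2
  exact ⟨⟨x, hself⟩, fun u hu v hv => (path_symm hself (hp u hu)).trans (hp v hv)⟩

theorem cmp_of_Cn {X : Finset (Site d)} (h : Cn X) {x : Site d} (hx : x ∈ X) : cmp X x = X := by
  ext v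
  rw [mem_cmp]
  exact ⟨fun h1 => h1.1, fun h1 => ⟨h1, h.2 x hx v h1⟩⟩

/-- the component of a built set is built from the seeds inside it. PROOF. `Bu.restrict`: a neighbour of `v ∈ cmp X x` in `X` is in `cmp X x` (`cmp_closed`). -/
theorem Bu.cmp {r : ℕ} {O : Set (Site d)} {U X : Finset (Site d)} (h : Bu r O U X) (x : Site d) :
    Bu r O (U ∩ cmp X x) (cmp X x) := by
  refine h.restrict (cmp_sub X x) (fun _ _ _ h1 => h1) (fun v hv j h1 h2 => ?_)
    (fun v hv h1 => Finset.mem_inter.2 ⟨h1, hv⟩)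
  exact absurd (cmp_closed hv h1 (adj_stp v j)) h2

/-- removing a component from a built set: the rest is built from the seeds outside. PROOF. `Bu.restrict` with `Y = X \ cmp X x`: a neighbour in `X` of `v ∈ Y` is not in the component (`cmp_closed`, `adj_symm`), so it is in `Y`. -/
theorem Bu.sdiff_cmp {r : ℕ} {O : Set (Site d)} {U X : Finset (Site d)} (h : Bu r O U X)
    (x : Site d) : Bu r O (U ∩ (X \ BTR.cmp X x)) (X \ BTR.cmp X x) := by
  refine h.restrict Finset.sdiff_subset (fun _ _ _ h1 => h1) (fun v hv j h1 h2 => ?_)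
    (fun v hv h1 => Finset.mem_inter.2 ⟨h1, hv⟩)
  exfalso
  rw [Finset.mem_sdiff] at hv
  have h3 : stp v j ∈ BTR.cmp X x := by
    by_contra h4
    exact h2 (Finset.mem_sdiff.2 ⟨h1, h4⟩)
  exact hv.2 (cmp_closed h3 hv.1 (adj_symm (adj_stp v j)))

end BTR
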