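import Pool.Agent.BTR.K3

set_option autoImplicit false

open scoped Classical
open Finset

namespace BTR
open BTP

variable {d : ℕ}

/-- [BTR-K4] the part of a built set between the heights `a` and `b` in direction `i` is built when everything outside these heights is infected.
PROOF. `Bu.restrict` with `Y = X.filter _`, `U' = U`. Let `v ∈ Y ⊆ sites T` (`mem_sites'`).
(helpers) `stp v j ∈ Oj J T`: some `i' ∈ J` has `stp v j i'` outside the range of `T`. If `i' ≠ i`: `slb T i a b` has the same range in direction `i'` (`slb_ne`), so `stp v j ∈ Oj (insert i J) (slb T i a b)`. If `i' = i ∈ J`: `[a, b]` is inside the range of `T` by `hin`, so `stp v j i` is outside `[a, b]` (`slb_true`, `slb_false`).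
(other sites) `stp v j ∈ X \ Y`: its height is outside `[a, b]`; the direction `i` is in `insert i J`. -/
theorem slb_restrict {r : ℕ} {J : Finset (Fin d)} {T : Box d} {U X : Finset (Site d)}
    (hX : X ⊆ sites T) (hB : Bu r (Oj J T) U X) (i : Fin d) {a b : ℤ}
    (hin : i ∈ J → - T (i, false) ≤ a ∧ b ≤ T (i, true)) :
    Bu r (Oj (insert i J) (slb T i a b)) U (X.filter (fun v => a ≤ v i ∧ v i ≤ b)) := by
  refine hB.restrict (Finset.filter_subset _ _) ?_ ?_ (fun _ _ h => h)
  · intro v _ j hj
    obtain ⟨i', hi', h⟩ := hj
    by_cases hii : i' = i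
    · subst hii
      obtain ⟨h1, h2⟩ := hin hi'
      refine ⟨i', Finset.mem_insert_self _ _, ?_⟩
      rw [slb_false, slb_true]
      rcases h with h | h
      · left; omega
      · right; omega
    · refine ⟨i', Finset.mem_insert_of_mem hi', ?_⟩
      rw [slb_ne (j := (i', false)) hii, slb_ne (j := (i', true)) hii]
      exact h
  · intro v _ j hjX hjY
    refine ⟨i, Finset.mem_insert_self _ _, ?_⟩
    rw [slb_false, slb_true]
    by_contra hcon
    push Not at hcon
    apply hjY
    rw [Finset.mem_filter]
    exact ⟨hjX, by omega, by omega⟩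

end BTR
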