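import Pool.Agent.BTR.K3

set_option autoImplicit false

open scoped Classical
open Finset

namespace BTR
open BTP

variable {d : ℕ}

/-- [BTR-K5] the first step out of `v`: a site of the component of `v` in `insert v X₀` is `v` or lies in the component in `X₀` of a neighbour of `v`.
PROOF. Induction on the path from `v` (last step `a → b`, `b ∈ insert v X₀`): if `b = v`, left; otherwise `b ∈ X₀`, and either `a = v` (then `b = stp v j`, `self_mem_cmp`) or `a ∈ cmp X₀ (stp v j)` and `cmp_closed`. -/
theorem path_insert {X₀ : Finset (Site d)} {v w : Site d} (hw : w ∈ cmp (insert v X₀) v) :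
    w = v ∨ ∃ j : Dir d, stp v j ∈ X₀ ∧ w ∈ cmp X₀ (stp v j) := by
  have hp := (mem_cmp.mp hw).2
  clear hw
  induction hp with
  | refl => exact Or.inl rfl
  | @tail a b hab hstep ih =>
    obtain ⟨hb, hadj⟩ := hstep
    rcases Finset.mem_insert.mp hb with hbv | hbX
    · exact Or.inl hbv
    · right
      rcases ih with hav | ⟨j, hj, ha⟩
      · rw [hav] at hadj
        obtain ⟨j, hj⟩ := hadj
        rw [hj] at hbX ⊢
        exact ⟨j, hbX, self_mem_cmp hbX⟩
      · exact ⟨j, hj, cmp_closed ha hbX hadj⟩

/-- [BTR-K5] if all components of `X₀` have extents `< y` in the directions of `I`, all points of the component of `v` in `insert v X₀` are within distance `y` of `v` in these directions.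
PROOF. `path_insert`: `|w i - v i| ≤ |w i - (stp v j) i| + 1` (`adj_abs`), and `w`, `stp v j` are in the component `cmp X₀ (stp v j)`, so `|w i - (stp v j) i| ≤ y - 1` (use the hypothesis in both orders). For `w = v` it is trivial (`y : ℕ`). -/
theorem near_new {X₀ : Finset (Site d)} {v : Site d} {I : Finset (Fin d)} {y : ℕ}
    (h : ∀ x ∈ X₀, Ele I (cmp X₀ x) ((y : ℤ) - 1)) {w : Site d} (hw : w ∈ cmp (insert v X₀) v)
    {i : Fin d} (hi : i ∈ I) : |w i - v i| ≤ y := by
  rcases path_insert hw with hwv | ⟨j, hj, hwj⟩
  · rw [hwv, sub_self, abs_zero]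
    exact Int.natCast_nonneg y
  · have h1 := h _ hj i hi _ hwj _ (self_mem_cmp hj)
    have h2 := h _ hj i hi _ (self_mem_cmp hj) _ hwj
    have h3 := adj_abs (adj_stp v j) i
    rw [abs_le] at h3 ⊢
    constructor <;> omega

end BTR
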