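import Pool.Agent.BTR.K4
import Pool.Agent.BTR.K5

set_option autoImplicit false

open scoped Classical
open Finset

namespace BTR
open BTP

variable {d : ℕ}

/-- the slab number `a` (in direction `i`, thickness `K`, counted from `x`) of the window of radius `m` around `x` -/
noncomputable def slw (J : Finset (Fin d)) (T : Box d) (x : Site d) (m K : ℕ) (i : Fin d) (a : ℤ) : Box d :=
  slb (win J T x m) i (x i + a * K) (x i + a * K + K - 1)

/-- [BTR-K6] a set containing `x` with extents `≤ m` in the directions outside `J` lies in the window. `mem_win`; `|v i - x i| ≤ m` from `Ele` used in both orders. -/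
theorem sub_win {J : Finset (Fin d)} {T : Box d} {x : Site d} {m : ℕ} {X : Finset (Site d)}
    (hX : X ⊆ sites T) (hx : x ∈ X) (hE : Ele (Jᶜ) X m) : X ⊆ sites (win J T x m) := by
  intro v hv
  rw [mem_win]
  refine ⟨hX hv, fun i hi => ?_⟩
  have hi' : i ∈ Jᶜ := Finset.mem_compl.2 hi
  have h1 := hE i hi' x hx v hv
  have h2 := hE i hi' v hv x hx
  rw [abs_le]
  constructor <;> linarith

/-- [BTR-K6] integers: an interval of length at least `y` near `x` contains `y / K - 1` consecutive slabs.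
PROOF. `a = ⌈(α - x) / K⌉`, i.e. `a = -((x - α) / K)` (integer division): `x + a K ≥ α` and `x + a K ≤ α + K - 1`. `|a| ≤ |α - x| + 1`. For `t < y / K - 1` (natural numbers): `(t + 2) K ≤ y`, so `x + (a + t) K + K - 1 ≤ α + (t + 2) K - 2 ≤ α + y - 2 ≤ β`. -/
theorem slab_count {K y : ℕ} (hK : 1 ≤ K) {x α β : ℤ} (h : α + y ≤ β) (hx : |α - x| ≤ 2 * y + 1) :
    ∃ a : ℤ, |a| ≤ 2 * y + 2 ∧ ∀ t : ℕ, t < y / K - 1 →
      α ≤ x + (a + t) * K ∧ x + (a + t) * K + K - 1 ≤ β := by
  have hK0 : (1 : ℤ) ≤ K := by exact_mod_cast hK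
  obtain ⟨z, hz⟩ : ∃ z, z = x - α := ⟨_, rfl⟩
  obtain ⟨q, hq⟩ : ∃ q, q = z / (K : ℤ) := ⟨_, rfl⟩
  obtain ⟨r, hr⟩ : ∃ r, r = z % (K : ℤ) := ⟨_, rfl⟩
  have h1 : (K : ℤ) * q + r = z := by
    rw [hq, hr]
    exact Int.mul_ediv_add_emod z K
  have h2 : 0 ≤ r := by
    rw [hr]
    exact Int.emod_nonneg z (by linarith)
  have h3 : r < K := by
    rw [hr]
    exact Int.emod_lt_of_pos z (by linarith)
  have h4 : |q| ≤ |z| := by
    rcases le_total 0 z with hz0 | hz0
    · have hq0 : 0 ≤ q := by
        by_contra hc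
        have : q ≤ -1 := by linarith [Int.add_one_le_iff.2 (not_le.1 hc)]
        nlinarith
      rw [abs_of_nonneg hz0, abs_of_nonneg hq0]
      nlinarith
    · have hq0 : q ≤ 0 := by
        by_contra hc
        have : 1 ≤ q := Int.add_one_le_iff.2 (not_le.1 hc)
        nlinarith
      rw [abs_of_nonpos hz0, abs_of_nonpos hq0]
      have : z ≤ q := by
        by_contra hc
        have h5 : q + 1 ≤ z := Int.add_one_le_iff.2 (not_le.1 hc)
        have h6 : (K : ℤ) * (q + 1) ≤ 1 * (q + 1) :=
          mul_le_mul_of_nonpos_right hK0 (by linarith)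
        linarith
      linarith
  refine ⟨-q, ?_, fun t ht => ?_⟩
  · rw [abs_neg]
    have h5 : |z| = |α - x| := by
      rw [hz, abs_sub_comm]
    linarith
  · have h5 : (t + 2) * K ≤ y := by
      rw [← Nat.le_div_iff_mul_le (by omega)]
      omega
    have h6 : ((t : ℤ) + 2) * K ≤ y := by exact_mod_cast h5
    have h7 : 0 ≤ (t : ℤ) * K := mul_nonneg (Int.natCast_nonneg t) (by linarith)
    have h8 : x + (-q + t) * K = α + r + t * K := by
      have : x = α + z := by rw [hz]; ring
      rw [this, ← h1]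
      ring
    rw [h8]
    constructor
    · linarith
    · linarith

end BTR
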