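import Pool.Agent.BTR.K5
import Pool.Agent.BTP.B3
import Pool.Agent.BTP.B4
import Pool.Agent.BTP.B5

set_option autoImplicit false

open scoped Classical
open Finset

namespace BTR
open BTP

variable {d : ℕ}

/-- [BTR-K7] a site of `T` has at most one helper direction in each thick axis of at least two rows.
PROOF. If `stp v j ∈ Oj J T` with `v ∈ sites T` (`mem_sites'`), then `j.1 ∈ J` (coordinates `≠ j.1` are unchanged, `stp_ne`) and `v` is in the last row: `v j.1 = T (j.1, true)` if `j.2 = true`, `v j.1 = - T (j.1, false)` if `j.2 = false` (`stp_self`). Both are impossible for the same axis as `2 ≤ sd T j.1`. So `j ↦ j.1` is injective on the helper directions, with values in `J` (`Finset.card_le_card_of_injOn`). -/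
theorem helper_card {J : Finset (Fin d)} {T : Box d} (hT : ∀ i ∈ J, 2 ≤ sd T i) {v : Site d}
    (hv : v ∈ sites T) :
    (Finset.univ.filter (fun j : Dir d => stp v j ∈ Oj J T)).card ≤ J.card := by
  have key : ∀ j : Dir d, stp v j ∈ Oj J T → j.1 ∈ J ∧ (j.2 = true → v j.1 = T (j.1, true)) ∧
      (j.2 = false → v j.1 = - T (j.1, false)) := by
    rintro j ⟨i, hi, hout⟩
    have hvi := mem_sites'.1 hv i
    by_cases hij : i = j.1
    · subst hij
      rw [stp_self] at hout
      refine ⟨hi, ?_, ?_⟩
      · intro hb
        rw [if_pos hb] at hout
        omega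
      · intro hb
        rw [if_neg (by rw [hb]; decide)] at hout
        omega
    · exfalso
      rw [stp_ne v j hij] at hout
      omega
  refine Finset.card_le_card_of_injOn (fun j => j.1) ?_ ?_
  · intro j hj
    have hj' := (Finset.mem_filter.1 (Finset.mem_coe.1 hj)).2
    exact Finset.mem_coe.2 (key j hj').1
  · intro j hj j' hj' heq
    have h1 := key j (Finset.mem_filter.1 (Finset.mem_coe.1 hj)).2
    have h2 := key j' (Finset.mem_filter.1 (Finset.mem_coe.1 hj')).2
    have heq' : j.1 = j'.1 := heq
    have hsd := hT j.1 h1.1
    unfold sd at hsd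
    have hb : j.2 = j'.2 := by
      by_contra hne
      rcases Bool.eq_false_or_eq_true j.2 with hb1 | hb1
      · have hb2 : j'.2 = false := by
          rcases Bool.eq_false_or_eq_true j'.2 with h | h
          · exact absurd (hb1.trans h.symm) hne
          · exact h
        have e1 := h1.2.1 hb1
        have e2 := h2.2.2 hb2
        rw [← heq'] at e2
        omega
      · have hb2 : j'.2 = true := by
          rcases Bool.eq_false_or_eq_true j'.2 with h | h
          · exact h
          · exact absurd (hb1.trans h.symm) hne
        have e1 := h1.2.2 hb1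
        have e2 := h2.2.1 hb2
        rw [← heq'] at e2
        omega
    exact Prod.ext heq' hb

end BTR
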