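import Pool.Agent.BTR.K4
import Pool.Agent.BTR.K5

set_option autoImplicit false

open scoped Classical
open Finset

namespace BTR
open BTP

variable {d : ℕ}

/-- [BTR-K8] one component of a sub-slab: `C = cmp (X.filter (idx = a)) x` gives the event `FE` at some scale.
PROOF. `C ⊆ sites (sbl T i k a)`: `mem_sites'` for `T`, `mem_slb`, `idx_eq_iff`. `Cn_cmp`, `Bu.cmp`. All extents of `C` are at most `B - 1` if all sides of `sbl T i k a` are at most `B` (`mem_sites'`); `scale`. -/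
theorem comp_FE (hd : 0 < d) {r : ℕ} {J : Finset (Fin d)} {T : Box d} {i : Fin d} {k : ℕ} (hk : 1 ≤ k)
    {U X : Finset (Site d)} (hX : X ⊆ sites T) {x : Site d} (hx : x ∈ X)
    (hB : Bu r (Oj J (sbl T i k (idx T i k x))) U (X.filter (fun v => idx T i k v = idx T i k x))) :
    ∃ t : ℕ, FE r J (sbl T i k (idx T i k x)) Finset.univ x (2 ^ t - 1)
        (U ∩ cmp (X.filter (fun v => idx T i k v = idx T i k x)) x) ∧
      Ele Finset.univ (cmp (X.filter (fun v => idx T i k v = idx T i k x)) x) (2 * 2 ^ t - 1) := by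
  have hxF : x ∈ X.filter (fun v => idx T i k v = idx T i k x) := Finset.mem_filter.2 ⟨hx, rfl⟩
  set C := cmp (X.filter (fun v => idx T i k v = idx T i k x)) x with hC
  have hsub : C ⊆ sites (sbl T i k (idx T i k x)) := by
    intro v hv
    have h1 := Finset.mem_filter.1 (cmp_sub _ _ hv)
    have h2 := mem_sites'.1 (hX h1.1)
    have h3 := (idx_eq_iff hk).1 h1.2
    unfold sbl
    rw [mem_slb]
    exact ⟨fun i' _ => h2 i', h3⟩
  have hCn : Cn C := Cn_cmp hxF
  have hBC := hB.cmp x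
  obtain ⟨M, hM⟩ := Finset.exists_le ((Finset.univ ×ˢ (C ×ˢ C)).image
    (fun q : Fin d × (Site d × Site d) => q.2.2 q.1 - q.2.1 q.1))
  have hE : Ele Finset.univ C (((M + 1).toNat : ℤ) - 1) := by
    intro i' _ u hu v hv
    have h1 := hM (v i' - u i') (Finset.mem_image.2 ⟨(i', (u, v)), Finset.mem_product.2
      ⟨Finset.mem_univ _, Finset.mem_product.2 ⟨hu, hv⟩⟩, rfl⟩)
    have h2 := Int.self_le_toNat (M + 1)
    omega
  obtain ⟨t, -, h1, h2⟩ := scale hd ⟨x, self_mem_cmp hxF⟩ hE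
  refine ⟨t, ⟨C, hsub, hCn, hBC, self_mem_cmp hxF, h1, h2⟩, ?_⟩
  have h3 : 2 * ((2 ^ t - 1 : ℕ) : ℤ) + 1 = 2 * 2 ^ t - 1 := by
    rw [Nat.cast_sub Nat.one_le_two_pow]
    push_cast
    ring
  rw [← h3]
  exact h1

end BTR
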