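import Pool.Agent.BTR.K3
import Pool.Agent.BTP.B4
import Pool.Agent.BTP.B6
import Pool.Agent.BTP.P6

set_option autoImplicit false

open scoped Classical
open Finset

namespace BTR
open BTP

variable {d : ℕ}

/-- [BTR-K9] a nonempty box is connected. PROOF. For `u, v ∈ sites T`, induction on `∑ i, |v i - u i|`: if it is `0` then `u = v`; otherwise choose `i` with `u i ≠ v i` and `j = (i, u i < v i)`; `stp u j` is in the box (its coordinate `i` is between `u i` and `v i`), and the sum decreases by one. -/
theorem Cn_sites {T : Box d} (hT : Ne T) : Cn (sites T) := by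
  refine ⟨⟨fun i => - T (i, false), ?_⟩, ?_⟩
  · rw [mem_sites']
    intro i
    have := hT i
    exact ⟨le_rfl, by omega⟩
  · intro u hu v hv
    have key : ∀ n : ℕ, ∀ u ∈ sites T, ∑ i, |v i - u i| = (n : ℤ) →
        Relation.ReflTransGen (fun a b => b ∈ sites T ∧ adj a b) u v := by
      intro n
      induction n with
      | zero =>
        intro u hu hs
        have h1 : ∀ i, |v i - u i| = 0 := by
          intro i
          have h2 := (Finset.sum_eq_zero_iff_of_nonneg (fun i _ => abs_nonneg (v i - u i))).1
            (by simpa using hs)
          exact h2 i (Finset.mem_univ i)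
        have h3 : u = v := by
          funext i
          have := abs_eq_zero.1 (h1 i)
          omega
        rw [h3]
      | succ n ih =>
        intro u hu hs
        obtain ⟨i, hi⟩ : ∃ i, u i ≠ v i := by
          by_contra hc
          push Not at hc
          have h1 : ∑ i, |v i - u i| = 0 := by
            apply Finset.sum_eq_zero
            intro i _
            rw [hc i, sub_self, abs_zero]
          rw [h1] at hs
          push_cast at hs
          omega
        have hu' := mem_sites'.1 hu
        have hv' := mem_sites'.1 hv
        -- the step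
        obtain ⟨j, hj, hji⟩ : ∃ j : Dir d, j.1 = i ∧ (stp u j i = u i + 1 ∧ u i < v i ∨
            stp u j i = u i - 1 ∧ v i < u i) := by
          rcases lt_or_gt_of_ne hi with hlt | hlt
          · refine ⟨(i, true), rfl, Or.inl ⟨?_, hlt⟩⟩
            have h1 := stp_self u (i, true)
            simpa using h1
          · refine ⟨(i, false), rfl, Or.inr ⟨?_, hlt⟩⟩
            have h1 := stp_self u (i, false)
            have h2 : stp u (i, false) i = u i + (-1) := by simpa using h1
            omega
        have hne : ∀ l, l ≠ i → stp u j l = u l := fun l hl => stp_ne u j (by rw [hj]; exact hl)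
        have hmem : stp u j ∈ sites T := by
          rw [mem_sites']
          intro l
          by_cases hl : l = i
          · subst hl
            have a1 := hu' l
            have a2 := hv' l
            rcases hji with ⟨b1, b2⟩ | ⟨b1, b2⟩
            · rw [b1]; omega
            · rw [b1]; omega
          · rw [hne l hl]
            exact hu' l
        have hsum : ∑ l, |v l - stp u j l| = (n : ℤ) := by
          rw [← Finset.add_sum_erase _ _ (Finset.mem_univ i)] at hs ⊢
          have h1 : ∑ l ∈ Finset.univ.erase i, |v l - stp u j l| =
              ∑ l ∈ Finset.univ.erase i, |v l - u l| := by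
            refine Finset.sum_congr rfl fun l hl => ?_
            rw [hne l (Finset.mem_erase.1 hl).1]
          have h2 : |v i - stp u j i| = |v i - u i| - 1 := by
            rcases hji with ⟨b1, b2⟩ | ⟨b1, b2⟩
            · rw [b1, abs_of_nonneg (by omega), abs_of_nonneg (by omega)]
              ring
            · rw [b1, abs_of_nonpos (by omega), abs_of_nonpos (by omega)]
              ring
          rw [h1, h2]
          push_cast at hs
          linarith
        exact Relation.ReflTransGen.head ⟨hmem, adj_stp u j⟩ (ih _ hmem hsum)
    have hnn : 0 ≤ ∑ i, |v i - u i| := Finset.sum_nonneg fun i _ => abs_nonneg _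
    exact key (∑ i, |v i - u i|).toNat u hu (Int.toNat_of_nonneg hnn).symm

/-- [BTR-K9] if the whole box `[0, n-1]^d` is built then the event `FE` holds at the scale `n - 1` for every site of the box.
PROOF. Witness `X = sites (Wn d n)`: `Cn_sites`, `Oj_empty`; extents `≤ n - 1` (`BTP.mem_Wn`), and the extent in the direction `⟨0, hd⟩` is `n - 1` (the sites `0` and `fun _ => n - 1`). -/
theorem FE_of_built (hd : 0 < d) {r n : ℕ} (hn : 1 ≤ n) {U : Finset (Site d)}
    (h : Bu r ∅ U (sites (Wn d n))) {x : Site d} (hx : x ∈ sites (Wn d n)) :
    FE r ∅ (Wn d n) Finset.univ x (n - 1) U := by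
  have hNe : Ne (Wn d n) := by
    intro i
    unfold Wn
    simp
    omega
  refine ⟨sites (Wn d n), Finset.Subset.refl _, Cn_sites hNe, ?_, hx, ?_, ?_⟩
  · rw [Oj_empty]
    exact h
  · intro i _ u hu v hv
    have h1 := mem_Wn.1 hu i
    have h2 := mem_Wn.1 hv i
    have h3 : ((n - 1 : ℕ) : ℤ) = (n : ℤ) - 1 := by omega
    rw [h3]
    omega
  · refine ⟨⟨0, hd⟩, Finset.mem_univ _, (fun _ => 0), ?_, (fun _ => (n : ℤ) - 1), ?_, ?_⟩
    · rw [mem_Wn]
      intro i
      exact ⟨le_rfl, by omega⟩
    · rw [mem_Wn]
      intro i
      constructor
      · show (0 : ℤ) ≤ (n : ℤ) - 1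
        omega
      · show (n : ℤ) - 1 < n
        omega
    · show ((n - 1 : ℕ) : ℤ) ≤ (n : ℤ) - 1 - 0
      omega

end BTR
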