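import Pool.Agent.BTR.M4a
import Pool.Agent.BTR.S10
import Pool.Agent.BTR.J2
import Pool.Agent.BTR.E2
import Pool.Agent.BTS.Q1
set_option autoImplicit false

open scoped Classical
open Finset

/-! # Base boxes, small merges, exit of the cheap columns (port of BTS/M4a, M4b) -/

namespace BTR
open BTP BTS

variable {d l : ℕ} (a : Pc d l)

theorem m4b_AB : 0 ≤ a.A ∧ a.A ≤ a.B := by
  have hA := a.hA
  have hZ := a.hZ
  have hB := a.hB
  have h4 : (1 : ℝ) ≤ 4 ^ d := one_le_pow₀ (by norm_num)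
  have h5 : (1 : ℝ) ≤ 4 ^ d * a.Z := by nlinarith
  have h6 : a.A ≤ 4 ^ d * a.Z * a.A := le_mul_of_one_le_left (by linarith) h5
  exact ⟨by linarith, h6.trans hB⟩

theorem m4b_B1 : 1 ≤ a.B := by linarith [a.hHB, a.hH1]

theorem m4b_logB : 0 ≤ (d : ℝ) * Real.log a.B :=
  mul_nonneg (Nat.cast_nonneg _) (Real.log_nonneg (m4b_B1 a))

/-- [BTR-M4b] PROOF. `card_sub_cyl` with `M = B` (`hD.2`), `kk ≤ A² ≤ B²` (`hkk`, `hB`: `A ≤ B`). -/
theorem card_sub_cyl_kk {Q : Box d} (hQ : Ne Q) (hD : a.InD Q) :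
    ((sub (cyl l a.kk Q)).card : ℝ) ≤ a.B ^ (2 * d + 4 * l) := by
  have h1 := card_sub_cyl (l := l) hQ (k := a.kk) hD.2
  obtain ⟨hA0, hAB⟩ := m4b_AB a
  have hB0 : 0 ≤ a.B := hA0.trans hAB
  have h2 : (a.kk : ℝ) ≤ a.B ^ 2 := a.hkk.trans (pow_le_pow_left₀ hA0 hAB 2)
  have h3 : (a.kk : ℝ) ^ (2 * l) ≤ a.B ^ (4 * l) := by
    calc (a.kk : ℝ) ^ (2 * l) ≤ (a.B ^ 2) ^ (2 * l) := pow_le_pow_left₀ (Nat.cast_nonneg _) h2 _
      _ = a.B ^ (4 * l) := by rw [← pow_mul]; congr 1; ring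
  refine h1.trans ?_
  rw [pow_add]
  exact mul_le_mul_of_nonneg_left h3 (pow_nonneg hB0 _)

/-- [BTR-M4b] a column generated by `V` and contained in `R`: its boxes are in the cylinder. PROOF. `Gen_pr_le`/`Gen.le`, `Rg`. -/
theorem small_mem_cyl {V WS : Finset (Site (d + l))} {k : ℕ} (hV : Rg l k V) {S : Box (d + l)}
    (hg : Gen S WS) (hW : WS ⊆ V) {R : Box d} (h : pr S ≤ R) : S ∈ sub (cyl l k R) := by
  rw [BTP.mem_sub]
  refine ⟨hg.ne, hg.le_of ?_⟩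
  intro v hv
  have h1 : cc (ps v) ≤ R := by
    rw [← pr_cc]
    exact (pr_mono (hg.le v hv)).trans h
  rintro ⟨i, b⟩
  refine Fin.addCases (fun i => ?_) (fun i => ?_) i
  · rw [e1a_cyl_lo]
    exact h1 (i, b)
  · rw [e1a_cyl_hi]
    have h2 := hV v (hW hv) i
    unfold hi at h2
    cases b
    · simp only [cc, Bool.false_eq_true, if_false]
      omega
    · simp only [cc, if_true]
      exact h2.2

/-- [BTR-M4b] expensive columns (cf. BTS/M4b.lean). Let `Λ = d A λ`.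
PROOF. `CGen_exit` with `D T := Ps T ≤ Λ` (`hb`: `Ps (pr S) ≤ (Ys (pr S) + d) γ ≤ (2h + d) γ ≤ Λ` by `Ps_le`, `Ys_pr_le`, `hLm`): for `U ⊆ V`, `CIG R U` implies `∃ (T, S) ∈ sub R ×ˢ sub (cyl l kk R)` with `dis (CIG T) (IG S) U` (`small_mem_cyl`, `CGen_ne`), or `∃ (T, T') ∈ sub R ×ˢ sub R` with `dis (CIG T) (CIG T') U`. `Pr_or`, `Pr_union`, `BTP.bk` (`Inc_CIG`, `Inc_IG`).
First kind: `Pr (CIG T) Pr (IG S) ≤ exp(-P - Ps T) Pr (IG S) ≤ exp(-P - Ps (T ⊔ pr S)) ≤ exp(-P - Λ)` (`IH`, `small_merge`, `InD_mono`). Second kind: `IH` twice and `Ps_merge`: `exp(-2P - Ps T - Ps T') ≤ exp(-2P + 2γ - Λ)`. At most `B^{2d} B^{2d+4l} + B^{4d}` pairs (`card_sub`, `card_sub_cyl_kk`, `B ≥ 1`); `hcnt`. -/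
theorem exit_bound {R : Box d} (hR : Ne R) (hD : a.InD R)
    (hP : d * a.A * lamk (d - 1) (l + 1) < a.Ps R)
    (IH : ∀ T : Box d, Ne T → T ≤ R → a.Ps T ≤ d * a.A * lamk (d - 1) (l + 1) →
      ∀ V : Finset (Site (d + l)), Rg l a.kk V → Pr V a.p (CIG l a.h T) ≤ Real.exp (-a.P - a.Ps T))
    {V : Finset (Site (d + l))} (hV : Rg l a.kk V) :
    Pr V a.p (CIG l a.h R) ≤ Real.exp (-(d * a.A * lamk (d - 1) (l + 1)) - a.P / 2) := by
  obtain ⟨Lam, hLam⟩ : ∃ L : ℝ, L = d * a.A * lamk (d - 1) (l + 1) := ⟨_, rfl⟩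
  rw [← hLam] at hP IH ⊢
  have hg := a.hgam0
  have hPp := a.hP
  have hB1 := m4b_B1 a
  have hp0 := p_nonneg a
  have hp1 := p_le_one a
  have hb : ∀ S : Box (d + l), Ne S → Ys S ≤ 2 * a.h → a.Ps (pr S) ≤ Lam := by
    intro S hS hY
    have e3 := Ps_le a (ne_pr hS)
    have e4 : ((Ys (pr S) : ℤ) : ℝ) ≤ 2 * (a.h : ℝ) := by exact_mod_cast (Ys_pr_le hS).trans hY
    have e5 : ((Ys (pr S) : ℝ) + d) * a.gam ≤ (2 * (a.h : ℝ) + d) * a.gam :=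
      mul_le_mul_of_nonneg_right (by linarith) hg
    have e6 := a.hLm
    have e7 := m4b_logB a
    have e8 : (0 : ℝ) ≤ (2 * (a.h : ℝ) + 8) * a.gam := mul_nonneg (by positivity) hg
    rw [hLam]
    nlinarith
  set s1 : Finset (Box d × Box (d + l)) := (sub R ×ˢ sub (cyl l a.kk R)).filter (fun y =>
    a.Ps y.1 ≤ Lam ∧ Lam < a.Ps (y.1 ⊔ pr y.2) ∧ near (emb l y.1) y.2 ∧ Ys y.2 < a.h) with hs1
  set s2 : Finset (Box d × Box d) := (sub R ×ˢ sub R).filter (fun y =>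
    a.Ps y.1 ≤ Lam ∧ a.Ps y.2 ≤ Lam ∧ Lam < a.Ps (y.1 ⊔ y.2) ∧ near y.1 y.2) with hs2
  have h1 : Pr V a.p (CIG l a.h R) ≤ Pr V a.p (fun U =>
      (∃ y ∈ s1, dis (CIG l a.h y.1) (IG y.2) U) ∨ (∃ y ∈ s2, dis (CIG l a.h y.1) (CIG l a.h y.2) U)) := by
    refine Pr_mono hp0 hp1 ?_
    rintro U hU ⟨W, hWU, hG⟩
    rcases CGen_exit (fun T => a.Ps T ≤ Lam) hb hG (not_le.2 hP) with
      ⟨T, S, WT, WS, a1, a2, a3, a4, a5, a6, a7, a8, a9, a10⟩ |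
      ⟨T, T', WT, WS, a1, a2, a3, a4, a5, a6, a7, a8, a9, a10⟩
    · left
      refine ⟨(T, S), ?_, WT, WS, a8, a9.trans hWU, a10.trans hWU, ⟨WT, Finset.Subset.refl _, a6⟩,
        ⟨WS, Finset.Subset.refl _, a7⟩⟩
      rw [hs1, Finset.mem_filter, Finset.mem_product, BTP.mem_sub]
      exact ⟨⟨⟨CGen_ne a6, le_sup_left.trans a5⟩,
        small_mem_cyl hV a7 (a10.trans (hWU.trans hU)) (le_sup_right.trans a5)⟩,
        a1, not_le.1 a2, a3, a4⟩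
    · right
      refine ⟨(T, T'), ?_, WT, WS, a8, a9.trans hWU, a10.trans hWU, ⟨WT, Finset.Subset.refl _, a6⟩,
        ⟨WS, Finset.Subset.refl _, a7⟩⟩
      rw [hs2, Finset.mem_filter, Finset.mem_product, BTP.mem_sub, BTP.mem_sub]
      exact ⟨⟨⟨CGen_ne a6, le_sup_left.trans a5⟩, ⟨CGen_ne a7, le_sup_right.trans a5⟩⟩,
        a1, a2, not_le.1 a3, a4⟩
  have h2 : Pr V a.p (fun U =>
      (∃ y ∈ s1, dis (CIG l a.h y.1) (IG y.2) U) ∨ (∃ y ∈ s2, dis (CIG l a.h y.1) (CIG l a.h y.2) U)) ≤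
      ∑ y ∈ s1, Pr V a.p (dis (CIG l a.h y.1) (IG y.2)) +
      ∑ y ∈ s2, Pr V a.p (dis (CIG l a.h y.1) (CIG l a.h y.2)) :=
    (Pr_or hp0 hp1).trans (add_le_add
      (Pr_union (V := V) hp0 hp1 s1 (fun y => dis (CIG l a.h y.1) (IG y.2)))
      (Pr_union (V := V) hp0 hp1 s2 (fun y => dis (CIG l a.h y.1) (CIG l a.h y.2))))
  have h3 : ∑ y ∈ s1, Pr V a.p (dis (CIG l a.h y.1) (IG y.2)) ≤
      ∑ _y ∈ s1, Real.exp (-a.P + 2 * a.gam - Lam) := by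
    refine Finset.sum_le_sum fun y hy => ?_
    rw [hs1, Finset.mem_filter, Finset.mem_product, BTP.mem_sub, BTP.mem_sub] at hy
    obtain ⟨⟨⟨b1, b2⟩, ⟨b3, b4⟩⟩, b5, b6, b7, b8⟩ := hy
    refine (BTP.bk hp0 a.hp2 V _ _ (Inc_CIG _ _) (Inc_IG _)).trans ?_
    have e1 := IH y.1 b1 b2 b5 V hV
    have e2 := small_merge a b1 (InD_mono a b1 b2 hD) b3 b7 b8 V
    have e3 : Pr V a.p (IG y.2) ≤ Real.exp (a.Ps y.1 - a.Ps (y.1 ⊔ pr y.2)) := by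
      have e4 : Real.exp (a.Ps y.1 - a.Ps (y.1 ⊔ pr y.2)) * Real.exp (a.Ps (y.1 ⊔ pr y.2) - a.Ps y.1) = 1 := by
        rw [← Real.exp_add]
        simp
      have e5 : 0 < Real.exp (a.Ps (y.1 ⊔ pr y.2) - a.Ps y.1) := Real.exp_pos _
      rw [← e4] at e2
      exact le_of_mul_le_mul_right e2 e5
    calc Pr V a.p (CIG l a.h y.1) * Pr V a.p (IG y.2)
        ≤ Real.exp (-a.P - a.Ps y.1) * Real.exp (a.Ps y.1 - a.Ps (y.1 ⊔ pr y.2)) :=
          mul_le_mul e1 e3 (Pr_nonneg hp0 hp1) (Real.exp_pos _).le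
      _ = Real.exp (-a.P - a.Ps (y.1 ⊔ pr y.2)) := by
          rw [← Real.exp_add]
          congr 1
          ring
      _ ≤ _ := Real.exp_le_exp.2 (by linarith)
  have h3' : ∑ y ∈ s2, Pr V a.p (dis (CIG l a.h y.1) (CIG l a.h y.2)) ≤
      ∑ _y ∈ s2, Real.exp (-a.P + 2 * a.gam - Lam) := by
    refine Finset.sum_le_sum fun y hy => ?_
    rw [hs2, Finset.mem_filter, Finset.mem_product, BTP.mem_sub, BTP.mem_sub] at hy
    obtain ⟨⟨⟨b1, b2⟩, ⟨b3, b4⟩⟩, b5, b6, b7, b8⟩ := hy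
    refine (BTP.bk hp0 a.hp2 V _ _ (Inc_CIG _ _) (Inc_CIG _ _)).trans ?_
    have e1 := IH y.1 b1 b2 b5 V hV
    have e2 := IH y.2 b3 b4 b6 V hV
    have e3 := Ps_merge a b1 b3 b8
    calc Pr V a.p (CIG l a.h y.1) * Pr V a.p (CIG l a.h y.2)
        ≤ Real.exp (-a.P - a.Ps y.1) * Real.exp (-a.P - a.Ps y.2) :=
          mul_le_mul e1 e2 (Pr_nonneg hp0 hp1) (Real.exp_pos _).le
      _ = Real.exp (-a.P - a.Ps y.1 + (-a.P - a.Ps y.2)) := by rw [← Real.exp_add]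
      _ ≤ _ := Real.exp_le_exp.2 (by linarith)
  have hBn : ∀ n : ℕ, (0 : ℝ) ≤ a.B ^ n := fun n => pow_nonneg (by linarith) n
  have c1 := card_sub hR hD.2
  have h4 : (s1.card : ℝ) ≤ a.B ^ (4 * d + 4 * l) := by
    have e1 : (s1.card : ℝ) ≤ ((sub R).card : ℝ) * ((sub (cyl l a.kk R)).card : ℝ) := by
      rw [← Nat.cast_mul, ← Finset.card_product]
      exact_mod_cast Finset.card_filter_le _ _
    have e2 := card_sub_cyl_kk a hR hD
    have e3 : a.B ^ (4 * d + 4 * l) = a.B ^ (2 * d) * a.B ^ (2 * d + 4 * l) := by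
      rw [← pow_add]
      congr 1
      ring
    rw [e3]
    exact e1.trans (mul_le_mul c1 e2 (Nat.cast_nonneg _) (hBn _))
  have h4' : (s2.card : ℝ) ≤ a.B ^ (4 * d + 4 * l) := by
    have e1 : (s2.card : ℝ) ≤ ((sub R).card : ℝ) * ((sub R).card : ℝ) := by
      rw [← Nat.cast_mul, ← Finset.card_product]
      exact_mod_cast Finset.card_filter_le _ _
    have e3 : a.B ^ (2 * d) * a.B ^ (2 * d) ≤ a.B ^ (4 * d + 4 * l) := by
      rw [← pow_add]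
      exact pow_le_pow_right₀ hB1 (by omega)
    exact e1.trans ((mul_le_mul c1 c1 (Nat.cast_nonneg _) (hBn _)).trans e3)
  rw [Finset.sum_const, nsmul_eq_mul] at h3 h3'
  obtain ⟨X, hX⟩ : ∃ X : ℝ, X = Real.exp (-a.P + 2 * a.gam - Lam) := ⟨_, rfl⟩
  rw [← hX] at h3 h3'
  have hX0 : 0 ≤ X := by rw [hX]; exact (Real.exp_pos _).le
  have h5 : (s1.card : ℝ) * X ≤ a.B ^ (4 * d + 4 * l) * X := mul_le_mul_of_nonneg_right h4 hX0
  have h5' : (s2.card : ℝ) * X ≤ a.B ^ (4 * d + 4 * l) * X := mul_le_mul_of_nonneg_right h4' hX0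
  have h6 : X = Real.exp (2 * a.gam) * Real.exp (-a.P - Lam) := by
    rw [hX, ← Real.exp_add]
    congr 1
    ring
  have h7 : Real.exp (-Lam - a.P / 2) = Real.exp (a.P / 2) * Real.exp (-a.P - Lam) := by
    rw [← Real.exp_add]
    congr 1
    ring
  have h8 := a.hcnt
  have hE0 : (0 : ℝ) ≤ a.B ^ (4 * d + 4 * l) * Real.exp (2 * a.gam) :=
    mul_nonneg (hBn _) (Real.exp_pos _).le
  have h9 : 2 * (a.B ^ (4 * d + 4 * l) * Real.exp (2 * a.gam)) ≤ Real.exp (a.P / 2) := by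
    have e1 : 16 * a.B ^ (4 * d + 4 * l) * Real.exp (2 * a.gam) =
        16 * (a.B ^ (4 * d + 4 * l) * Real.exp (2 * a.gam)) := by ring
    rw [e1] at h8
    linarith
  have h10 : 2 * (a.B ^ (4 * d + 4 * l) * X) ≤ Real.exp (-Lam - a.P / 2) := by
    rw [h6, h7]
    have e1 := mul_le_mul_of_nonneg_right h9 (Real.exp_pos (-a.P - Lam)).le
    have e2 : 2 * (a.B ^ (4 * d + 4 * l) * (Real.exp (2 * a.gam) * Real.exp (-a.P - Lam))) =
        2 * (a.B ^ (4 * d + 4 * l) * Real.exp (2 * a.gam)) * Real.exp (-a.P - Lam) := by ring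
    rw [e2]
    exact e1
  linarith

end BTR
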