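import Pool.Agent.BTR.S10b
import Pool.Agent.BTS.Q2
import Pool.Agent.BTP.B5
import Pool.Agent.BTP.C1

set_option autoImplicit false

open scoped Classical
open Finset

/-! # Base boxes, small merges, number of boxes in a cylinder (helper69) -/

namespace BTR
open BTP BTS

variable {d l : ℕ} (a : Pc d l)

/-- [BTR-M4] base boxes. PROOF. `Pr_IG_le` with `m = ⌈(Ys S + 2)/2⌉`, `hbase`, `Ps_le`, `Ys_pr_le`. -/
theorem base (V : Finset (Site (d + l))) {S : Box (d + l)} (hS : Ne S) (h1 : (a.h : ℤ) ≤ Ys S)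
    (h2 : Ys S ≤ 2 * a.h + 2) : Pr V a.p (IG S) ≤ Real.exp (-(2 * a.P) - a.Ps (pr S)) := by
  obtain ⟨Y, hY⟩ : ∃ Y : ℕ, Ys S = Y := ⟨(Ys S).toNat, (Int.toNat_of_nonneg (Ys_nonneg hS)).symm⟩
  have h0 := Ys_pr_le hS
  rw [hY] at h1 h2 h0
  have h3 := Pr_IG_le (p_nonneg a) (p_le_one a) V S hS ((Y + 3) / 2) (by rw [hY]; omega)
  have h4 := a.hbase Y ((Y + 3) / 2) (by omega) (by omega) (by omega)
  have h5 := Ps_le a (ne_pr hS)
  have h6 : ((Ys (pr S) : ℝ) + d) * a.gam ≤ ((Y : ℝ) + d) * a.gam := by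
    have : (Ys (pr S) : ℝ) ≤ (Y : ℝ) := by exact_mod_cast h0
    exact mul_le_mul_of_nonneg_right (by linarith) a.hgam0
  rw [hY] at h3
  push_cast at h3 h4
  refine h3.trans (h4.trans (Real.exp_le_exp.2 ?_))
  linarith

/-- [BTR-M4] a small box `S` merged with the column `R` costs nothing.
PROOF. `y = Ys S < h`, `m = ms y`, `y + 2 ≤ 2m`. `Pr_small`, `grow_any`: the product is at most `((y+1)^(d+l) p e^{2g(zm R)})^m ≤ (h^(d+l) (1+Z)/H₁)^m ≤ 1` (`p_exp_le`, `hHs`). -/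
theorem small_merge {R : Box d} {S : Box (d + l)} (hR : Ne R) (hD : a.InD R) (hS : Ne S)
    (hn : near (emb l R) S) (hY : Ys S < a.h) (V : Finset (Site (d + l))) :
    Pr V a.p (IG S) * Real.exp (a.Ps (R ⊔ pr S) - a.Ps R) ≤ 1 := by
  obtain ⟨y, hy⟩ : ∃ y : ℕ, Ys S = y := ⟨(Ys S).toNat, (Int.toNat_of_nonneg (Ys_nonneg hS)).symm⟩
  rw [hy] at hY
  have hyh : y + 1 ≤ a.h := by
    have : y < a.h := by exact_mod_cast hY
    omega
  have h1 := Pr_small a hS hy V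
  have h2 := grow_any a hR hS hn hy
  have h3 := p_exp_le a hD
  have hg : 0 ≤ gk (l + 1) (a.zm R) := gk_nonneg (k := l + 1) (zm_pos a R)
  have hp := p_nonneg a
  have hm : (y : ℝ) + 2 ≤ 2 * (ms y : ℝ) := by
    have : y + 2 ≤ 2 * ms y := by unfold ms; omega
    exact_mod_cast this
  have h4 : Real.exp (a.Ps (R ⊔ pr S) - a.Ps R) ≤ (Real.exp (gk (l + 1) (a.zm R)) ^ 2) ^ ms y := by
    rw [← pow_mul, ← Real.exp_nat_mul]
    apply Real.exp_le_exp.2
    push_cast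
    have h5 : ((y : ℝ) + 2) * gk (l + 1) (a.zm R) ≤ 2 * (ms y : ℝ) * gk (l + 1) (a.zm R) :=
      mul_le_mul_of_nonneg_right hm hg
    linarith
  have hH1 : 0 < a.H1 := by linarith [a.hH1]
  have hZ := a.hZ
  have hd := a.hd
  have h6 : ((y : ℝ) + 1) ^ (d + l) * ((1 + a.Z) / a.H1) ≤ 1 := by
    rw [← mul_div_assoc, div_le_one hH1]
    have h7 := a.hHs
    have hh1 : (1 : ℝ) ≤ a.h := by exact_mod_cast a.hh
    have h8 : ((y : ℝ) + 1) ^ (d + l) ≤ (2 * (a.h : ℝ) + 7) ^ (9 * (d + l)) := by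
      have h9 : (y : ℝ) + 1 ≤ 2 * (a.h : ℝ) + 7 := by
        have : (y : ℝ) + 1 ≤ a.h := by exact_mod_cast hyh
        linarith
      calc ((y : ℝ) + 1) ^ (d + l) ≤ (2 * (a.h : ℝ) + 7) ^ (d + l) := pow_le_pow_left₀ (by positivity) h9 _
        _ ≤ (2 * (a.h : ℝ) + 7) ^ (9 * (d + l)) := pow_le_pow_right₀ (by linarith) (by omega)
    have h10 : (1 : ℝ) ≤ 10 ^ (8 * (d + l)) * a.h := by
      have : (1 : ℝ) ≤ 10 ^ (8 * (d + l)) := one_le_pow₀ (by norm_num)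
      nlinarith
    have h11 : 0 ≤ (2 * (a.h : ℝ) + 7) ^ (9 * (d + l)) := by positivity
    have h12 : (2 * (a.h : ℝ) + 7) ^ (9 * (d + l)) ≤
        10 ^ (8 * (d + l)) * (a.h : ℝ) * (2 * (a.h : ℝ) + 7) ^ (9 * (d + l)) :=
      le_mul_of_one_le_left h11 h10
    calc ((y : ℝ) + 1) ^ (d + l) * (1 + a.Z) ≤ (2 * (a.h : ℝ) + 7) ^ (9 * (d + l)) * (1 + a.Z) :=
          mul_le_mul_of_nonneg_right h8 (by linarith)
      _ ≤ 10 ^ (8 * (d + l)) * (a.h : ℝ) * (2 * (a.h : ℝ) + 7) ^ (9 * (d + l)) * (1 + a.Z) :=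
          mul_le_mul_of_nonneg_right h12 (by linarith)
      _ ≤ 10 ^ (8 * (d + l)) * (a.h : ℝ) * (2 * (a.h : ℝ) + 7) ^ (9 * (d + l)) * (1 + a.Z) ^ 2 := by
          apply mul_le_mul_of_nonneg_left _ (by positivity)
          nlinarith
      _ ≤ a.H1 := h7
  have h13 : ((y : ℝ) + 1) ^ (d + l) * a.p * Real.exp (gk (l + 1) (a.zm R)) ^ 2 ≤ 1 := by
    refine le_trans ?_ h6
    rw [mul_assoc]
    exact mul_le_mul_of_nonneg_left h3 (by positivity)
  calc Pr V a.p (IG S) * Real.exp (a.Ps (R ⊔ pr S) - a.Ps R)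
      ≤ (((y : ℝ) + 1) ^ (d + l) * a.p) ^ ms y * (Real.exp (gk (l + 1) (a.zm R)) ^ 2) ^ ms y :=
        mul_le_mul h1 h4 (Real.exp_pos _).le (by positivity)
    _ = (((y : ℝ) + 1) ^ (d + l) * a.p * Real.exp (gk (l + 1) (a.zm R)) ^ 2) ^ ms y := by rw [← mul_pow]
    _ ≤ 1 := pow_le_one₀ (by positivity) h13

/-- the sides of the cylinder -/
theorem sd_cyl_lo (k : ℕ) (Q : Box d) (i : Fin d) : sd (cyl l k Q) (lo d l i) = sd Q i := by
  simp [sd, cyl, lo]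

theorem sd_cyl_hi (k : ℕ) (Q : Box d) (i : Fin l) : sd (cyl l k Q) (hi d l i) = k := by
  simp [sd, cyl, hi]

/-- [BTR-M4] number of boxes in a cylinder (cf. BTP `card_sub`) -/
theorem card_sub_cyl {Q : Box d} (hQ : Ne Q) {k : ℕ} {M : ℝ} (hM : ∀ i, (sd Q i : ℝ) ≤ M) :
    ((sub (cyl l k Q)).card : ℝ) ≤ M ^ (2 * d) * (k : ℝ) ^ (2 * l) := by
  unfold sub
  have h1 : (((Finset.Icc (fun j => - (cyl l k Q) (opp j)) (cyl l k Q)).filter (fun T => Ne T)).card : ℝ) ≤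
      ((Finset.Icc (fun j => - (cyl l k Q) (opp j)) (cyl l k Q)).card : ℝ) := by
    exact_mod_cast Finset.card_filter_le _ _
  refine h1.trans ?_
  rw [Pi.card_Icc]
  have h2 : ∀ j : Dir (d + l), (Finset.Icc (- (cyl l k Q) (opp j)) ((cyl l k Q) j)).card = sd (cyl l k Q) j.1 := by
    intro j
    rw [Int.card_Icc]
    obtain ⟨i, b⟩ := j
    unfold sd opp
    cases b
    · simp only [Bool.not_false]
      congr 1
      ring
    · simp only [Bool.not_true]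
      congr 1
      ring
  simp only [h2]
  rw [Fintype.prod_prod_type]
  simp only [Fintype.prod_bool]
  rw [Fin.prod_univ_add]
  have h3 : ∀ i : Fin d, sd (cyl l k Q) (Fin.castAdd l i) = sd Q i := fun i => sd_cyl_lo k Q i
  have h4 : ∀ i : Fin l, sd (cyl l k Q) (Fin.natAdd d i) = k := fun i => sd_cyl_hi k Q i
  simp only [h3, h4]
  push_cast
  have h5 : ∏ i : Fin d, ((sd Q i : ℝ) * (sd Q i : ℝ)) ≤ M ^ (2 * d) := by
    calc ∏ i : Fin d, ((sd Q i : ℝ) * (sd Q i : ℝ)) ≤ ∏ _i : Fin d, (M * M) := by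
          apply Finset.prod_le_prod (fun i _ => by positivity)
          intro i _
          exact mul_le_mul (hM i) (hM i) (Nat.cast_nonneg _) ((Nat.cast_nonneg _).trans (hM i))
      _ = M ^ (2 * d) := by
          rw [Finset.prod_const, Finset.card_univ, Fintype.card_fin, ← pow_two, ← pow_mul]
  have h6 : ∏ _i : Fin l, ((k : ℝ) * (k : ℝ)) = (k : ℝ) ^ (2 * l) := by
    rw [Finset.prod_const, Finset.card_univ, Fintype.card_fin, ← pow_two, ← pow_mul]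
  rw [h6]
  exact mul_le_mul_of_nonneg_right h5 (by positivity)

end BTR
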