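import Pool.Agent.BTR.ND
import Pool.Agent.BTP.A1

set_option autoImplicit false

open scoped Classical
open Finset Filter

namespace BTR
open BTP

/-- [BTR-N1] PROOF. `q = exp(-(D-1)L)`: `0 < q ≤ exp(-L)` as `D ≥ 2`, `L ≥ 0`; `1 - exp(-q) ≤ q` (`Real.add_one_le_exp`), `exp(-L) ≤ 1/2` for `L ≥ 1`. -/
theorem n1_p {D : ℕ} (hD : 2 ≤ D) : ∀ᶠ L : ℝ in atTop, ∀ q p : ℝ,
    q * Real.exp L ^ (D - 1) = 1 → p = 1 - Real.exp (-q) →
    0 ≤ p ∧ p ≤ 1 / 2 ∧ p ≤ Real.exp (-L) := by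
  filter_upwards [eventually_ge_atTop (1 : ℝ)] with L hL q p hq hp
  have hA2 : (2 : ℝ) ≤ Real.exp L := by
    have := Real.add_one_le_exp L
    linarith
  have hA0 : 0 < Real.exp L := Real.exp_pos L
  have hq0 : 0 < q := by
    by_contra h
    push Not at h
    have h1 : q * Real.exp L ^ (D - 1) ≤ 0 :=
      mul_nonpos_of_nonpos_of_nonneg h (by positivity)
    linarith
  have hle : Real.exp L ≤ Real.exp L ^ (D - 1) :=
    le_self_pow₀ (by linarith) (by omega)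
  have h1 : q * Real.exp L ≤ 1 := by
    rw [← hq]
    exact mul_le_mul_of_nonneg_left hle hq0.le
  have h2 : q ≤ Real.exp (-L) := by
    rw [Real.exp_neg, ← one_div, le_div_iff₀ hA0]
    exact h1
  have h3 : Real.exp (-L) ≤ 1 / 2 := by
    rw [Real.exp_neg, ← one_div]
    exact one_div_le_one_div_of_le (by norm_num) hA2
  have h4 : p ≤ q := by
    have := Real.add_one_le_exp (-q)
    linarith
  have h5 : Real.exp (-q) ≤ 1 := Real.exp_le_one_iff.2 (by linarith)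
  exact ⟨by linarith, by linarith, by linarith⟩

/-- [BTR-N1] elementary facts on the parameters (`Nat.ceil_lt_add_one`, `Nat.le_ceil`; `BTP.ev_exp` in file BTP/A1 compares powers with the exponential) -/
theorem n1_par : ∀ᶠ L : ℝ in atTop, 2 ≤ kL L ∧ 1 ≤ hL L ∧ hL L + 1 ≤ kL L ∧ kL L ≤ yL L ∧
    Real.exp L ≤ kL L ∧ (kL L : ℝ) ≤ 2 * Real.exp L ∧ (kL L : ℝ) ≤ Real.exp L ^ 2 ∧
    L ≤ hL L ∧ (hL L : ℝ) ≤ L + 1 ∧ Real.exp L ^ 3 ≤ yL L ∧ (yL L : ℝ) ≤ Real.exp (3 * L) + 1 ∧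
    ((4 * yL L + 3 : ℕ) : ℝ) ≤ Real.exp L ^ 4 := by
  filter_upwards [eventually_ge_atTop (2 : ℝ)] with L hL2
  have hq := Real.quadratic_le_exp_of_nonneg (show (0 : ℝ) ≤ L by linarith)
  have hA5 : (5 : ℝ) ≤ Real.exp L := by nlinarith
  have hAL : L + 2 ≤ Real.exp L := by nlinarith
  have hA0 : 0 < Real.exp L := Real.exp_pos L
  have k1 : Real.exp L ≤ kL L := Nat.le_ceil _
  have k2 : (kL L : ℝ) < Real.exp L + 1 := Nat.ceil_lt_add_one hA0.le
  have h1 : L ≤ hL L := Nat.le_ceil _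
  have h2 : (hL L : ℝ) < L + 1 := Nat.ceil_lt_add_one (by linarith)
  have hA3 : 0 ≤ Real.exp L ^ 3 := by positivity
  have y1 : Real.exp L ^ 3 ≤ yL L := Nat.le_ceil _
  have y2 : (yL L : ℝ) < Real.exp L ^ 3 + 1 := Nat.ceil_lt_add_one hA3
  have hAA3 : Real.exp L ≤ Real.exp L ^ 3 := le_self_pow₀ (by linarith) (by norm_num)
  have hA2 : 2 * Real.exp L ≤ Real.exp L ^ 2 := by nlinarith
  refine ⟨?_, ?_, ?_, ?_, k1, by linarith, by linarith, h1, h2.le, y1, ?_, ?_⟩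
  · have : (2 : ℝ) ≤ kL L := by linarith
    exact_mod_cast this
  · have : (1 : ℝ) ≤ hL L := by linarith
    exact_mod_cast this
  · have : ((hL L + 1 : ℕ) : ℝ) ≤ kL L := by
      push_cast
      linarith
    exact_mod_cast this
  · exact Nat.ceil_mono hAA3
  · have : Real.exp (3 * L) = Real.exp L ^ 3 := by
      rw [← Real.exp_nat_mul]
      norm_num
    rw [this]
    exact y2.le
  · push_cast
    have h3 : Real.exp L ^ 4 = Real.exp L ^ 3 * Real.exp L := by ring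
    have h4 : (125 : ℝ) ≤ Real.exp L ^ 3 := by
      have := pow_le_pow_left₀ (by norm_num : (0 : ℝ) ≤ 5) hA5 3
      linarith
    rw [h3]
    nlinarith

end BTR
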