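import Pool.Agent.BTR.ND
import Pool.Agent.BTP.A1

set_option autoImplicit false

open scoped Classical
open Finset Filter

namespace BTR
open BTP

/-- [BTR-N2] the thickness function: for `m ≥ 8` and `k ≥ 1`: `Kf d k m ≤ 3 d k log m`. PROOF. `Nat.log 2 m ≤ log m / log 2` (`Real.natLog_le_logb` or `Nat.pow_log_le_self` and `Real.log_le_log`), `1 / log 2 ≤ 3/2`, `1 ≤ (3/2) log m`. -/
theorem Kf_le {d k m : ℕ} (hm : 8 ≤ m) : (Kf d k m : ℝ) ≤ 3 * d * k * Real.log m := by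
  have hm0 : (0 : ℝ) < m := by
    have : 0 < m := by omega
    exact_mod_cast this
  have hl2 : (0.6931471803 : ℝ) < Real.log 2 := Real.log_two_gt_d9
  have h8 : 3 * Real.log 2 ≤ Real.log m := by
    have h1 : Real.log ((2 : ℝ) ^ 3) ≤ Real.log m := by
      refine Real.log_le_log (by norm_num) ?_
      have : ((8 : ℕ) : ℝ) ≤ m := by exact_mod_cast hm
      norm_num at this ⊢
      exact this
    rw [Real.log_pow] at h1
    exact_mod_cast h1
  have hN : (Nat.log 2 m : ℝ) * Real.log 2 ≤ Real.log m := by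
    have h1 : 2 ^ Nat.log 2 m ≤ m := Nat.pow_log_le_self 2 (by omega)
    have h2 : ((2 : ℝ) ^ Nat.log 2 m) ≤ m := by exact_mod_cast h1
    have h3 := Real.log_le_log (by positivity) h2
    rwa [Real.log_pow] at h3
  have hlm : (0 : ℝ) < Real.log m := by linarith
  have hN0 : (0 : ℝ) ≤ (Nat.log 2 m : ℝ) := Nat.cast_nonneg _
  have hN2 : (Nat.log 2 m : ℝ) ≤ 3 / 2 * Real.log m := by nlinarith
  have h1 : (Nat.log 2 m : ℝ) + 1 ≤ 3 * Real.log m := by linarith
  have hdk : (0 : ℝ) ≤ (d : ℝ) * k := by positivity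
  rw [Kf]
  push_cast
  calc (d : ℝ) * ((Nat.log 2 m : ℝ) + 1) * k = (d : ℝ) * k * ((Nat.log 2 m : ℝ) + 1) := by ring
    _ ≤ (d : ℝ) * k * (3 * Real.log m) := mul_le_mul_of_nonneg_left h1 hdk
    _ = 3 * d * k * Real.log m := by ring

/-- [BTR-N2] natural division in an exponent: `(1/4)^(a/b - 1) ≤ 16 exp(-x)` if `x b ≤ a`, `b > 0`. PROOF. `a / b ≥ a/b - 1` (reals; `Nat.lt_succ_mul_div`-type lemma, `Nat.div_add_mod`, `Nat.mod_lt`), so the exponent is at least `x - 2`; `(1/4)^e ≤ exp(-e)` as `log 4 ≥ 1`; `exp 2 ≤ 16`. (If `a/b = 0` the natural subtraction gives exponent `0` and `x < 1`... the bound `1 ≤ 16 exp(-x)` holds as `x ≤ a/b < 1`.) -/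
theorem quarter_pow {a b : ℕ} (hb : 0 < b) {x : ℝ} (hx : x * b ≤ a) :
    (1 / 4 : ℝ) ^ (a / b - 1) ≤ 16 * Real.exp (-x) := by
  set e : ℕ := a / b - 1 with he
  have hb' : (0 : ℝ) < b := by exact_mod_cast hb
  have h1 : a < (e + 2) * b := by
    have h2 : a < (a / b + 1) * b := by
      have h3 := Nat.div_add_mod a b
      have h5 := Nat.mod_lt a hb
      nlinarith
    have h4 : a / b + 1 ≤ e + 2 := by omega
    exact h2.trans_le (Nat.mul_le_mul_right b h4)
  have h2 : x < (e : ℝ) + 2 := by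
    have h3 : (a : ℝ) < ((e : ℝ) + 2) * b := by exact_mod_cast h1
    exact lt_of_mul_lt_mul_right (hx.trans_lt h3) hb'.le
  have hexp1 : Real.exp 1 < 2.7182818286 := Real.exp_one_lt_d9
  have h4 : (1 / 4 : ℝ) ≤ Real.exp (-1) := by
    rw [Real.exp_neg, one_div]
    exact inv_anti₀ (Real.exp_pos 1) (by linarith)
  have h5 : (1 / 4 : ℝ) ^ e ≤ Real.exp (-(e : ℝ)) := by
    have h6 := pow_le_pow_left₀ (by norm_num : (0 : ℝ) ≤ 1 / 4) h4 e
    rwa [← Real.exp_nat_mul, mul_neg, mul_one] at h6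
  have h7 : Real.exp (-(e : ℝ)) ≤ Real.exp 2 * Real.exp (-x) := by
    rw [← Real.exp_add]
    exact Real.exp_le_exp.2 (by linarith)
  have h8 : Real.exp 2 ≤ 16 := by
    have h9 : Real.exp 2 = Real.exp 1 ^ 2 := by
      rw [← Real.exp_nat_mul]
      norm_num
    rw [h9]
    nlinarith [Real.exp_pos 1]
  exact (h5.trans h7).trans (mul_le_mul_of_nonneg_right h8 (Real.exp_pos _).le)

end BTR
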