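import Pool.Agent.BTR.N2

set_option autoImplicit false

open scoped Classical
open Finset Filter

namespace BTR
open BTP

/-- [BTR-N3] `x_s ≥ K L` eventually, for every `K` (`x_s ≥ lm e^L - C e^(L/2) - 3 s L`, `e^(L/2)` is eventually large: `lm e^L ≥ 2 C e^(L/2)` and `lm e^L / 2 ≥ (K + 3 s) L`) -/
theorem n3_x {lm C : ℝ} (hlm : 0 < lm) (K : ℝ) (s : ℕ) :
    ∀ᶠ L : ℝ in atTop, K * L ≤ xL lm C L s := by
  have h1 : Tendsto (fun L : ℝ => Real.exp (L / 2)) atTop atTop :=
    Real.tendsto_exp_atTop.comp (tendsto_id.atTop_div_const (by norm_num))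
  filter_upwards [h1.eventually_ge_atTop (((|K| + 3 * s) * 2 + |C|) / lm), eventually_ge_atTop (0 : ℝ)] with L hy hL
  unfold xL
  have hy0 : 0 < Real.exp (L / 2) := Real.exp_pos _
  have hsq : Real.exp L = Real.exp (L / 2) * Real.exp (L / 2) := by
    rw [← Real.exp_add]
    congr 1
    ring
  have hL2 : L ≤ 2 * Real.exp (L / 2) := by
    have := Real.add_one_le_exp (L / 2)
    linarith
  rw [div_le_iff₀ hlm] at hy
  rw [hsq]
  generalize Real.exp (L / 2) = y at hy hy0 hL2
  have hs : (0 : ℝ) ≤ (s : ℝ) := Nat.cast_nonneg s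
  have e1 : K * L ≤ |K| * (2 * y) :=
    le_trans (mul_le_mul_of_nonneg_right (le_abs_self K) hL) (mul_le_mul_of_nonneg_left hL2 (abs_nonneg K))
  have e2 : 3 * (s : ℝ) * L ≤ 3 * s * (2 * y) := mul_le_mul_of_nonneg_left hL2 (by positivity)
  have e3 : C * y ≤ |C| * y := mul_le_mul_of_nonneg_right (le_abs_self C) hy0.le
  have e4 : ((|K| + 3 * s) * 2 + |C|) * y ≤ y * lm * y := mul_le_mul_of_nonneg_right hy hy0.le
  nlinarith

/-- [BTR-N3] `x ≤ exp^[n] x` for all `x` (`Real.add_one_le_exp`) -/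
theorem n3_le_iter (n : ℕ) (x : ℝ) : x ≤ Real.exp^[n] x := by
  induction n with
  | zero => exact le_refl x
  | succ n ih =>
    rw [Function.iterate_succ_apply']
    have := Real.add_one_le_exp (Real.exp^[n] x)
    linarith

/-- [BTR-N3] `exp^[n]` is monotone -/
theorem n3_iter_mono (n : ℕ) : Monotone (Real.exp^[n]) := by
  exact Real.exp_strictMono.monotone.iterate n

/-- [BTR-N3] `exp^[n+1] (x - 3L) ≤ exp^[n+1] x / 2` for `L ≥ 1`, `x - 3L ≥ 1`. PROOF. Induction on `n`. `n = 0`: `exp(-3L) ≤ 1/2`. Step: `z' ≤ z/2` with `z = exp^[n+1] x ≥ 2` gives `z' ≤ z - 1`, `exp z' ≤ exp z / e`. (`Function.iterate_succ_apply'`.) -/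
theorem n3_half (n : ℕ) {x L : ℝ} (hL : 1 ≤ L) (hx : 1 ≤ x - 3 * L) :
    Real.exp^[n + 1] (x - 3 * L) ≤ Real.exp^[n + 1] x / 2 := by
  induction n with
  | zero =>
    show Real.exp (x - 3 * L) ≤ Real.exp x / 2
    have h1 : Real.exp x = Real.exp (x - 3 * L) * Real.exp (3 * L) := by
      rw [← Real.exp_add]
      congr 1
      ring
    have h2 : 2 ≤ Real.exp (3 * L) := by
      have := Real.add_one_le_exp (3 * L)
      linarith
    rw [h1]
    nlinarith [Real.exp_pos (x - 3 * L)]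
  | succ n ih =>
    rw [Function.iterate_succ_apply' Real.exp (n + 1), Function.iterate_succ_apply' Real.exp (n + 1)]
    have h0 : x ≤ Real.exp^[n + 1] x := n3_le_iter (n + 1) x
    generalize Real.exp^[n + 1] x = z at ih h0 ⊢
    generalize Real.exp^[n + 1] (x - 3 * L) = z' at ih ⊢
    have hz : z' ≤ z - 1 := by linarith
    have h1 : Real.exp z = Real.exp (z - 1) * Real.exp 1 := by
      rw [← Real.exp_add]
      congr 1
      ring
    have h2 : 2 ≤ Real.exp 1 := by
      have := Real.add_one_le_exp (1 : ℝ)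
      linarith
    have h3 : Real.exp z' ≤ Real.exp (z - 1) := Real.exp_le_exp.2 hz
    rw [h1]
    nlinarith [Real.exp_pos (z - 1)]

end BTR
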