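import Pool.Agent.BTR.CH3

set_option autoImplicit false

open scoped Classical
open Finset Filter

namespace BTR
open BTP

/-- [BTR-OC] the one-corner theorem (part (1) of the project, helper67): `A = exp L`, `q A^(D-1) = 1`, `p = 1 - exp(-q)`. The thick coordinates of `V` are `≥ 1` and at most `A²`, the long sides of `V` are at most `A^4`. -/
theorem one_corner (D l : ℕ) (hD : 2 ≤ D) : ∃ C : ℝ, 0 < C ∧ ∀ᶠ L : ℝ in atTop,
    ∀ q p : ℝ, q * Real.exp L ^ (D - 1) = 1 → p = 1 - Real.exp (-q) →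
    ∀ V : Box (D + l), Ne V → (∀ i : Fin l, V (hi D l i, false) ≤ -1) →
    (∀ i : Fin l, (V (hi D l i, true) : ℝ) ≤ Real.exp L ^ 2) →
    (∀ i : Fin D, (sd V (lo D l i) : ℝ) ≤ Real.exp L ^ 4) →
    Pr (sites V) p (OCE D l V (Real.exp L ^ 3)) ≤
      Real.exp (-(D * Real.exp L * lamk (D - 1) (l + 1)) + C * Real.exp (L / 2)) := by
  exact one_corner' D l hD

end BTR
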