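import Pool.Agent.BTR.V11
import Pool.Agent.BTR.G3

set_option autoImplicit false

open scoped Classical
open Finset

namespace BTR
open BTP BTS

variable {d lt : ℕ} (a : Pc d lt)

/-! ## The parameters of a box and their variation -/

theorem r4a_ka_pos : 0 < a.ka := by
  have h1 := a.hka
  have h2 : (0 : ℝ) < 10 ^ (4 * (d + lt)) := by positivity
  linarith

theorem r4a_H1_pos : 0 < a.H1 := by
  have := a.hH1
  linarith

theorem r4a_Xm_pos (T : Box d) : 0 < a.Xm T := lt_of_lt_of_le (r4a_H1_pos a) (Xm_ge a T)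

/-- [BTR-R4a] (`ka > 0`) -/
theorem th_pos (T : Box d) (i : Fin d) : 0 < a.th T i := by
  unfold Pc.th
  apply lt_min (by norm_num)
  have h1 := r4a_ka_pos a
  have h2 : 0 < (1 + a.z T i) / a.Xm T :=
    div_pos (by have := z_pos a T i; linarith) (r4a_Xm_pos a T)
  have h3 := Real.sqrt_pos.2 h2
  have h4 := Real.exp_pos (a.z T i)
  positivity

theorem th_le (T : Box d) (i : Fin d) : a.th T i ≤ 1 / 64 := by
  unfold Pc.th
  exact min_le_left _ _

/-- [BTR-R4a] PROOF. `gk_ge`, `th_le`. -/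
theorem gm_nonneg (T : Box d) (i : Fin d) : 0 ≤ a.gm T i := by
  unfold Pc.gm
  have h1 := gk_ge (k := lt + 1) (z_pos a T i)
  have h0 : (((lt + 1 : ℕ) : ℝ) + 1) = (lt : ℝ) + 2 := by push_cast; ring
  rw [h0] at h1
  have h2 := th_le a T i
  have h3 := Real.exp_pos (-(((lt : ℝ) + 2) * a.z T i))
  nlinarith [mul_le_mul_of_nonneg_right h2 h3.le]

theorem gm_le (T : Box d) (i : Fin d) : a.gm T i ≤ gk (lt + 1) (a.z T i) := by
  unfold Pc.gm
  have h2 := th_pos a T i
  have h3 := Real.exp_pos (-(((lt : ℝ) + 2) * a.z T i))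
  have : 0 ≤ 2 * a.th T i * Real.exp (-(((lt : ℝ) + 2) * a.z T i)) := by positivity
  linarith

/-- [BTR-R4a] PROOF. `e^{gm} ≤ e^{g}`, `exp_gk_sq`. -/
theorem exp_gm_sq (T : Box d) (i : Fin d) :
    Real.exp (a.gm T i) ^ 2 ≤ (1 + a.z T i) / a.z T i := by
  refine le_trans ?_ (exp_gk_sq (k := lt + 1) (Nat.succ_pos _) (z_pos a T i))
  exact pow_le_pow_left₀ (Real.exp_pos _).le (Real.exp_le_exp.2 (gm_le a T i)) 2

theorem r4a_le_up (T : Box d) (j : Dir d) : T ≤ up T j := by
  intro k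
  unfold up
  by_cases h : k = j
  · subst h
    rw [Function.update_self]
    exact (Int.lt_succ (T k)).le
  · rw [Function.update_of_ne h]

theorem r4a_sd_up_ne (T : Box d) {j : Dir d} {l : Fin d} (h : l ≠ j.1) : sd (up T j) l = sd T l := by
  unfold sd up
  have h1 : ((l, true) : Dir d) ≠ j := by
    intro hh; apply h; rw [← hh]
  have h2 : ((l, false) : Dir d) ≠ j := by
    intro hh; apply h; rw [← hh]
  rw [Function.update_of_ne h1, Function.update_of_ne h2]

theorem r4a_sd_up_same {T : Box d} (hT : Ne T) (j : Dir d) : sd (up T j) j.1 = sd T j.1 + 1 := by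
  obtain ⟨i, b⟩ := j
  have h1 := hT i
  cases b
  · unfold sd up
    have h2 : ((i, true) : Dir d) ≠ (i, false) := by
      intro hh
      have := congrArg Prod.snd hh
      simp at this
    rw [Function.update_of_ne h2, Function.update_self]
    show (T (i, true) + (T (i, false) + 1) + 1).toNat = (T (i, true) + T (i, false) + 1).toNat + 1
    omega
  · unfold sd up
    have h2 : ((i, false) : Dir d) ≠ (i, true) := by
      intro hh
      have := congrArg Prod.snd hh
      simp at this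
    rw [Function.update_of_ne h2, Function.update_self]
    show (T (i, true) + 1 + T (i, false) + 1).toNat = (T (i, true) + T (i, false) + 1).toNat + 1
    omega

theorem X_up_ne {T : Box d} (hT : Ne T) {j : Dir d} {l : Fin d} (h : l ≠ j.1) :
    a.X (up T j) l = a.X T l := by
  unfold Pc.X xt
  rw [r4a_sd_up_ne T h]

theorem X_up_le {T : Box d} (hT : Ne T) (j : Dir d) : a.X (up T j) j.1 ≤ a.X T j.1 + 1 := by
  unfold Pc.X xt
  rw [r4a_sd_up_same hT j]
  push_cast
  apply max_le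
  · have := le_max_left (sd T j.1 : ℝ) a.H1
    linarith
  · have := le_max_right (sd T j.1 : ℝ) a.H1
    linarith

theorem X_le_up {T : Box d} (hT : Ne T) (j : Dir d) (l : Fin d) : a.X T l ≤ a.X (up T j) l :=
  X_mono a hT (r4a_le_up T j) l

theorem z_up_same {T : Box d} (hT : Ne T) (j : Dir d) : a.z (up T j) j.1 = a.z T j.1 := by
  unfold Pc.z face
  congr 1
  apply Finset.prod_congr rfl
  intro l hl
  exact X_up_ne a hT (Finset.ne_of_mem_erase hl)

theorem z_le_up {T : Box d} (hT : Ne T) (j : Dir d) (l : Fin d) : a.z T l ≤ a.z (up T j) l :=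
  z_mono a hT (r4a_le_up T j) l

theorem r4a_z_split (T : Box d) {i l : Fin d} (h : i ≠ l) :
    a.z T i = a.q * (a.X T l * ∏ m ∈ (Finset.univ.erase i).erase l, a.X T m) := by
  unfold Pc.z face
  rw [← Finset.mul_prod_erase (Finset.univ.erase i) (a.X T)
    (Finset.mem_erase.2 ⟨fun hh => h hh.symm, Finset.mem_univ l⟩)]

theorem z_up_le {T : Box d} (hT : Ne T) (j : Dir d) (l : Fin d) :
    a.z (up T j) l ≤ a.z T l * (1 + 1 / a.X T j.1) := by
  have hX := X_pos a T j.1
  have hz := z_pos a T l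
  by_cases h : l = j.1
  · subst h
    rw [z_up_same a hT j]
    have : 0 ≤ 1 / a.X T j.1 := by positivity
    nlinarith
  · rw [r4a_z_split a (up T j) h, r4a_z_split a T h]
    have h1 : ∏ m ∈ (Finset.univ.erase l).erase j.1, a.X (up T j) m =
        ∏ m ∈ (Finset.univ.erase l).erase j.1, a.X T m := by
      apply Finset.prod_congr rfl
      intro m hm
      exact X_up_ne a hT (Finset.ne_of_mem_erase hm)
    rw [h1]
    have h2 : 0 ≤ ∏ m ∈ (Finset.univ.erase l).erase j.1, a.X T m :=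
      Finset.prod_nonneg (fun m _ => (X_pos a T m).le)
    have h3 := X_up_le a hT j
    have h4 : a.q * (a.X T j.1 * ∏ m ∈ (Finset.univ.erase l).erase j.1, a.X T m) *
        (1 + 1 / a.X T j.1) =
        a.q * ((a.X T j.1 + 1) * ∏ m ∈ (Finset.univ.erase l).erase j.1, a.X T m) := by
      field_simp
    rw [h4]
    exact mul_le_mul_of_nonneg_left (mul_le_mul_of_nonneg_right h3 h2) a.hq.le

theorem Xm_le_up {T : Box d} (hT : Ne T) (j : Dir d) : a.Xm T ≤ a.Xm (up T j) := by
  obtain ⟨i, hi⟩ := (Xm_spec a (up T j)).1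
  rw [hi]
  exact le_trans ((Xm_spec a T).2 i) (X_le_up a hT j i)

/-- [BTR-R4a] PROOF. If `Xm T` is attained at some `l ≠ j.1` then `Xm (up T j) ≤ X T l = Xm T`. Otherwise `Xm T = X T j.1` and `Xm (up T j) ≤ X T j.1 + 1`. -/
theorem Xm_up_le {T : Box d} (hT : Ne T) (j : Dir d) :
    a.Xm (up T j) ≤ a.Xm T * (1 + 1 / a.X T j.1) := by
  have hX := X_pos a T j.1
  have hm := r4a_Xm_pos a T
  obtain ⟨i, hi⟩ := (Xm_spec a T).1
  by_cases h : i = j.1
  · have h1 : a.Xm (up T j) ≤ a.X (up T j) j.1 := (Xm_spec a (up T j)).2 j.1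
    have h2 := X_up_le a hT j
    rw [hi, h]
    have h3 : a.X T j.1 * (1 + 1 / a.X T j.1) = a.X T j.1 + 1 := by field_simp
    rw [h3]
    linarith
  · have h1 : a.Xm (up T j) ≤ a.X (up T j) i := (Xm_spec a (up T j)).2 i
    rw [X_up_ne a hT h, ← hi] at h1
    have : 0 ≤ 1 / a.X T j.1 := by positivity
    nlinarith

/-- [BTR-R4a] the layer has few sites. PROOF. `q ∏_{m≠i} sd ≤ z_i` (`X_ge_sd`). -/
theorem q_prod_le {T : Box d} (i : Fin d) :
    a.q * ∏ m ∈ Finset.univ.erase i, (sd T m : ℝ) ≤ a.z T i := by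
  unfold Pc.z face
  apply mul_le_mul_of_nonneg_left _ a.hq.le
  exact Finset.prod_le_prod (fun m _ => Nat.cast_nonneg _) (fun m _ => X_ge_sd a T m)

/-- [BTR-R4a] the new sites of a layer. PROOF. `q ∏_{m ≠ i,l} sd ≤ q ∏_{m≠i,l} X = z_i/X_l`. -/
theorem q_prod_le' {T : Box d} {i l : Fin d} (h : i ≠ l) :
    a.q * ∏ m ∈ (Finset.univ.erase i).erase l, (sd T m : ℝ) ≤ a.z T i / a.X T l := by
  have hX := X_pos a T l
  rw [r4a_z_split a T h, le_div_iff₀ hX]
  have h1 : ∏ m ∈ (Finset.univ.erase i).erase l, (sd T m : ℝ) ≤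
      ∏ m ∈ (Finset.univ.erase i).erase l, a.X T m :=
    Finset.prod_le_prod (fun m _ => Nat.cast_nonneg _) (fun m _ => X_ge_sd a T m)
  calc a.q * (∏ m ∈ (Finset.univ.erase i).erase l, (sd T m : ℝ)) * a.X T l
      = a.q * (a.X T l * ∏ m ∈ (Finset.univ.erase i).erase l, (sd T m : ℝ)) := by ring
    _ ≤ _ := mul_le_mul_of_nonneg_left (mul_le_mul_of_nonneg_left h1 hX.le) a.hq.le

end BTR
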