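import Pool.Agent.BTR.R4

set_option autoImplicit false

open scoped Classical
open Finset

namespace BTR
open BTP BTS

variable {d lt : ℕ} (a : Pc d lt)

/-- the loss by the growth in axis `i` -/
noncomputable def LS (T : Box d) (i : Fin d) : ℝ :=
  14 * ((lt : ℝ) + 1) * ∑ l ∈ Finset.univ.erase i, (1 + a.z T l) / (a.th T l * a.X T i) + 2 / a.X T i

theorem r5_ka : 1 ≤ a.ka := by
  have h1 := a.hka
  have h2 : (1 : ℝ) ≤ 10 ^ (4 * (d + lt)) := one_le_pow₀ (by norm_num)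
  linarith

theorem r5_C3_pos : 0 < a.C3 := by
  have h1 := r5_ka a
  have hC := a.hC3
  have h4 : (0 : ℝ) ≤ 3000 * ((lt : ℝ) + 1) * (d : ℝ) ^ 2 := by positivity
  have h5 : (0 : ℝ) < 10 ^ (8 * (d + lt)) := by positivity
  linarith

theorem r5_div_le {T : Box d} (hz : Real.exp (a.zm T) ≤ Real.sqrt (a.Xm T)) (i : Fin d) :
    (1 + a.z T i) / a.Xm T ≤ (1 + a.z T i) * Real.exp (-(a.zm T)) / Real.sqrt (a.Xm T) := by
  have hm := r4a_Xm_pos a T
  have hs : 0 < Real.sqrt (a.Xm T) := Real.sqrt_pos.2 hm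
  have hzi := z_pos a T i
  have h1 : 1 / a.Xm T ≤ Real.exp (-(a.zm T)) / Real.sqrt (a.Xm T) := by
    rw [Real.exp_neg, div_le_div_iff₀ hm hs, one_mul]
    have h2 : Real.sqrt (a.Xm T) * Real.sqrt (a.Xm T) = a.Xm T := Real.mul_self_sqrt hm.le
    have hE := Real.exp_pos (a.zm T)
    have h3 : (Real.exp (a.zm T))⁻¹ * a.Xm T =
        Real.sqrt (a.Xm T) * (Real.sqrt (a.Xm T) * (Real.exp (a.zm T))⁻¹) := by
      rw [← h2]
      have h4 : Real.sqrt (Real.sqrt (a.Xm T) * Real.sqrt (a.Xm T)) = Real.sqrt (a.Xm T) := by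
        rw [h2]
      rw [h4]
      ring
    rw [h3]
    have h5 : 1 ≤ Real.sqrt (a.Xm T) * (Real.exp (a.zm T))⁻¹ := by
      rw [← div_eq_mul_inv, le_div_iff₀ hE, one_mul]
      exact hz
    nlinarith
  calc (1 + a.z T i) / a.Xm T = (1 + a.z T i) * (1 / a.Xm T) := by ring
    _ ≤ (1 + a.z T i) * (Real.exp (-(a.zm T)) / Real.sqrt (a.Xm T)) :=
      mul_le_mul_of_nonneg_left h1 (by linarith)
    _ = _ := by ring

theorem r5_sqrt_exp (T : Box d) (l i : Fin d) :
    Real.sqrt (1 + a.z T l) * Real.exp (-(a.z T l)) ≤ (1 + a.z T i) * Real.exp (-(a.zm T)) := by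
  have hzl := z_pos a T l
  have hzi := z_pos a T i
  have hm := zm_pos a T
  have h1 := (zm_spec a T).2 l
  have h2 := (zm_spec a T).2 i
  have h3 : Real.sqrt (1 + a.z T l) ≤ (1 + a.z T i) * Real.exp (a.z T l - a.zm T) := by
    apply Real.sqrt_le_iff.2
    constructor
    · positivity
    · have h4 : 1 + (a.z T l - a.zm T) ≤ Real.exp (a.z T l - a.zm T) := by
        have := Real.add_one_le_exp (a.z T l - a.zm T); linarith
      have h5 : 1 ≤ Real.exp (a.z T l - a.zm T) := Real.one_le_exp (by linarith)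
      have h6 : 1 + a.z T l ≤ (1 + a.z T i) * Real.exp (a.z T l - a.zm T) := by
        have : (1 + a.z T i) * (1 + (a.z T l - a.zm T)) ≤
            (1 + a.z T i) * Real.exp (a.z T l - a.zm T) :=
          mul_le_mul_of_nonneg_left h4 (by linarith)
        nlinarith
      have h7 : 1 ≤ (1 + a.z T i) * Real.exp (a.z T l - a.zm T) := by nlinarith
      nlinarith
  calc Real.sqrt (1 + a.z T l) * Real.exp (-(a.z T l))
      ≤ ((1 + a.z T i) * Real.exp (a.z T l - a.zm T)) * Real.exp (-(a.z T l)) :=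
        mul_le_mul_of_nonneg_right h3 (Real.exp_pos _).le
    _ = (1 + a.z T i) * (Real.exp (a.z T l - a.zm T) * Real.exp (-(a.z T l))) := by ring
    _ = _ := by
      rw [← Real.exp_add]
      congr 2
      ring

/-- splitting a quotient by `θ` -/
theorem r5_split (T : Box d) (l : Fin d) {c : ℝ} (hc : 0 ≤ c) :
    c / a.th T l ≤ 64 * c +
      c / (a.ka * Real.sqrt ((1 + a.z T l) / a.Xm T) * Real.exp (a.z T l)) := by
  have hz := z_pos a T l
  have hm := r4a_Xm_pos a T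
  have hka := r4a_ka_pos a
  have hs : 0 < Real.sqrt ((1 + a.z T l) / a.Xm T) := Real.sqrt_pos.2 (by positivity)
  have hy : 0 < a.ka * Real.sqrt ((1 + a.z T l) / a.Xm T) * Real.exp (a.z T l) := by positivity
  unfold Pc.th
  rcases min_choice (1 / 64 : ℝ) (a.ka * Real.sqrt ((1 + a.z T l) / a.Xm T) * Real.exp (a.z T l))
    with h | h
  · rw [h]
    have h1 : c / (1 / 64 : ℝ) = 64 * c := by ring
    rw [h1]
    have : 0 ≤ c / (a.ka * Real.sqrt ((1 + a.z T l) / a.Xm T) * Real.exp (a.z T l)) := by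
      positivity
    linarith
  · rw [h]
    linarith

/-- [BTR-R5] PROOF. Let `r = (1 + z_i) e^{-zm}/√Xm`. By `hz`, `(1+z_i)/Xm ≤ r`. If `θ_l = 1/64`: `(1+z_l)/(θ_l X_i) = 64 (1+z_l)/X_i ≤ 64 (1+z_i)/Xm` (`one_add_z_div`). Otherwise `θ_l = ka √((1+z_l)/Xm) e^{z_l}` and `(1+z_l)/(θ_l X_i) = √(1+z_l) e^{-z_l} √Xm/(ka X_i) ≤ √(1+zm) e^{-zm}/(ka √Xm) ≤ r` (`X_i ≥ Xm`; `√(1+z) e^{-z}` is decreasing: `√((1+z)/(1+zm)) ≤ e^{z-zm}`). -/
theorem loss1 {T : Box d} (hz : Real.exp (a.zm T) ≤ Real.sqrt (a.Xm T)) (i l : Fin d) :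
    (1 + a.z T l) / (a.th T l * a.X T i) ≤
      65 * ((1 + a.z T i) * Real.exp (-(a.zm T)) / Real.sqrt (a.Xm T)) := by
  have hzl := z_pos a T l
  have hzi := z_pos a T i
  have hm := r4a_Xm_pos a T
  have hXi := X_pos a T i
  have hka := r5_ka a
  have hd : (2 : ℝ) ≤ d := by exact_mod_cast a.hd
  have hs : 0 < Real.sqrt (a.Xm T) := Real.sqrt_pos.2 hm
  have hsl : 0 < Real.sqrt (1 + a.z T l) := Real.sqrt_pos.2 (by linarith)
  have h0 := r5_div_le a hz i
  have h1 : (1 + a.z T l) / (a.th T l * a.X T i) = ((1 + a.z T l) / a.X T i) / a.th T l := by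
    rw [div_div, mul_comm]
  rw [h1]
  refine le_trans (r5_split a T l (by positivity)) ?_
  have h2 : 64 * ((1 + a.z T l) / a.X T i) ≤
      64 * ((1 + a.z T i) * Real.exp (-(a.zm T)) / Real.sqrt (a.Xm T)) :=
    mul_le_mul_of_nonneg_left (le_trans (one_add_z_div a T i l) h0) (by norm_num)
  have h3 : (1 + a.z T l) / a.X T i /
      (a.ka * Real.sqrt ((1 + a.z T l) / a.Xm T) * Real.exp (a.z T l)) ≤
      (1 + a.z T i) * Real.exp (-(a.zm T)) / Real.sqrt (a.Xm T) := by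
    rw [Real.sqrt_div (by linarith)]
    have h4 : (1 + a.z T l) / a.X T i /
        (a.ka * (Real.sqrt (1 + a.z T l) / Real.sqrt (a.Xm T)) * Real.exp (a.z T l)) =
        (Real.sqrt (1 + a.z T l) * Real.exp (-(a.z T l))) *
          (Real.sqrt (a.Xm T) / (a.X T i * a.ka)) := by
      rw [Real.exp_neg]
      have h5 : 1 + a.z T l = Real.sqrt (1 + a.z T l) * Real.sqrt (1 + a.z T l) :=
        (Real.mul_self_sqrt (by linarith)).symm
      have hE := Real.exp_pos (a.z T l)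
      have hka' : 0 < a.ka := r4a_ka_pos a
      rw [div_div, div_eq_iff (by positivity)]
      field_simp
      rw [Real.sq_sqrt (by linarith)]
    rw [h4]
    have h6 : Real.sqrt (a.Xm T) / (a.X T i * a.ka) ≤ 1 / Real.sqrt (a.Xm T) := by
      have hka' : 0 < a.ka := r4a_ka_pos a
      rw [div_le_div_iff₀ (by positivity) hs, Real.mul_self_sqrt hm.le, one_mul]
      have h7 := (Xm_spec a T).2 i
      nlinarith
    calc (Real.sqrt (1 + a.z T l) * Real.exp (-(a.z T l))) *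
          (Real.sqrt (a.Xm T) / (a.X T i * a.ka))
        ≤ ((1 + a.z T i) * Real.exp (-(a.zm T))) * (1 / Real.sqrt (a.Xm T)) := by
          apply mul_le_mul (r5_sqrt_exp a T l i) h6
          · have hka' : 0 < a.ka := r4a_ka_pos a
            positivity
          · positivity
      _ = _ := by ring
  linarith

/-- [BTR-R5] PROOF. `EE ≤ √((1+z_i)/X_l) √((1+z_l)/X_i)`. If `θ_l = 1/64`: `EE/θ_l ≤ 64 (1+z_i)/Xm ≤ 64 r` (`one_add_z_div` for both factors). Otherwise `EE/θ_l = √((1+z_i) Xm/(X_i X_l)) e^{-z_l}/ka ≤ √(1+z_i) e^{-zm}/√Xm ≤ r`. -/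
theorem loss2 {T : Box d} (hz : Real.exp (a.zm T) ≤ Real.sqrt (a.Xm T)) (i l : Fin d) :
    EE a T i l / a.th T l ≤
      65 * ((1 + a.z T i) * Real.exp (-(a.zm T)) / Real.sqrt (a.Xm T)) := by
  have hzl := z_pos a T l
  have hzi := z_pos a T i
  have hm := r4a_Xm_pos a T
  have hXi := X_pos a T i
  have hXl := X_pos a T l
  have hka := r5_ka a
  have hka' : 0 < a.ka := r4a_ka_pos a
  have hd : (2 : ℝ) ≤ d := by exact_mod_cast a.hd
  have hs : 0 < Real.sqrt (a.Xm T) := Real.sqrt_pos.2 hm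
  have h0 := r5_div_le a hz i
  have hEE : 0 ≤ EE a T i l := Real.sqrt_nonneg _
  refine le_trans (r5_split a T l hEE) ?_
  have h1 : EE a T i l ≤ (1 + a.z T i) / a.Xm T := by
    unfold EE
    apply Real.sqrt_le_iff.2
    constructor
    · positivity
    · rw [pow_two]
      apply mul_le_mul _ (one_add_z_div a T i l) (by positivity) (by positivity)
      exact div_le_div_of_nonneg_left (by linarith) hm ((Xm_spec a T).2 l)
  have h2 : EE a T i l ≤ Real.sqrt ((1 + a.z T l) / a.Xm T) * Real.sqrt ((1 + a.z T i) / a.Xm T) := by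
    unfold EE
    rw [← Real.sqrt_mul (by positivity)]
    apply Real.sqrt_le_sqrt
    have e1 : (1 + a.z T i) / a.X T l ≤ (1 + a.z T i) / a.Xm T :=
      div_le_div_of_nonneg_left (by linarith) hm ((Xm_spec a T).2 l)
    have e2 : (1 + a.z T l) / a.X T i ≤ (1 + a.z T l) / a.Xm T :=
      div_le_div_of_nonneg_left (by linarith) hm ((Xm_spec a T).2 i)
    calc _ ≤ (1 + a.z T i) / a.Xm T * ((1 + a.z T l) / a.Xm T) :=
          mul_le_mul e1 e2 (by positivity) (by positivity)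
      _ = _ := by ring
  have hsl : 0 < Real.sqrt ((1 + a.z T l) / a.Xm T) := Real.sqrt_pos.2 (by positivity)
  have h3 : EE a T i l / (a.ka * Real.sqrt ((1 + a.z T l) / a.Xm T) * Real.exp (a.z T l)) ≤
      (1 + a.z T i) * Real.exp (-(a.zm T)) / Real.sqrt (a.Xm T) := by
    have hE := Real.exp_pos (a.z T l)
    rw [div_le_iff₀ (by positivity)]
    refine le_trans h2 ?_
    have h4 : Real.sqrt ((1 + a.z T i) / a.Xm T) ≤ (1 + a.z T i) / Real.sqrt (a.Xm T) := by
      rw [Real.sqrt_div (by linarith)]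
      apply div_le_div_of_nonneg_right _ hs.le
      apply Real.sqrt_le_iff.2
      constructor
      · linarith
      · nlinarith
    have h5 : 1 ≤ a.ka * (Real.exp (-(a.zm T)) * Real.exp (a.z T l)) := by
      rw [← Real.exp_add]
      have h6 : 1 ≤ Real.exp (-(a.zm T) + a.z T l) :=
        Real.one_le_exp (by have := (zm_spec a T).2 l; linarith)
      have h7 : 1 ≤ a.ka := by linarith
      nlinarith
    have h8 : 0 ≤ Real.sqrt ((1 + a.z T l) / a.Xm T) * ((1 + a.z T i) / Real.sqrt (a.Xm T)) := by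
      positivity
    calc Real.sqrt ((1 + a.z T l) / a.Xm T) * Real.sqrt ((1 + a.z T i) / a.Xm T)
        ≤ Real.sqrt ((1 + a.z T l) / a.Xm T) * ((1 + a.z T i) / Real.sqrt (a.Xm T)) :=
          mul_le_mul_of_nonneg_left h4 hsl.le
      _ ≤ (Real.sqrt ((1 + a.z T l) / a.Xm T) * ((1 + a.z T i) / Real.sqrt (a.Xm T))) *
          (a.ka * (Real.exp (-(a.zm T)) * Real.exp (a.z T l))) :=
          le_mul_of_one_le_right h8 h5
      _ = _ := by ring
  linarith

/-- [BTR-R5] PROOF. `2 θ_i e^{-κz_i} ≤ 2 ka √((1+z_i)/Xm) e^{-z_i} ≤ 2 ka r` (`κ = lt + 2 ≥ 2`). -/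
theorem loss3 {T : Box d} (i : Fin d) : 2 * a.th T i * Real.exp (-(((lt : ℝ) + 2) * a.z T i)) ≤
      2 * a.ka * ((1 + a.z T i) * Real.exp (-(a.zm T)) / Real.sqrt (a.Xm T)) := by
  have hzi := z_pos a T i
  have hm := r4a_Xm_pos a T
  have hka' : 0 < a.ka := r4a_ka_pos a
  have hl0 : (0 : ℝ) ≤ lt := Nat.cast_nonneg lt
  have hs : 0 < Real.sqrt (a.Xm T) := Real.sqrt_pos.2 hm
  have h1 : a.th T i ≤ a.ka * Real.sqrt ((1 + a.z T i) / a.Xm T) * Real.exp (a.z T i) := by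
    unfold Pc.th
    exact min_le_right _ _
  have h0 : Real.exp (-(((lt : ℝ) + 2) * a.z T i)) ≤ Real.exp (-(2 * a.z T i)) := by
    apply Real.exp_le_exp.2
    have := mul_nonneg hl0 hzi.le
    nlinarith
  have h2 : a.th T i * Real.exp (-(((lt : ℝ) + 2) * a.z T i)) ≤
      a.ka * Real.sqrt ((1 + a.z T i) / a.Xm T) * Real.exp (a.z T i) *
        Real.exp (-(2 * a.z T i)) :=
    mul_le_mul h1 h0 (Real.exp_pos _).le (by positivity)
  have h3 : a.ka * Real.sqrt ((1 + a.z T i) / a.Xm T) * Real.exp (a.z T i) *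
        Real.exp (-(2 * a.z T i)) =
      a.ka * ((Real.sqrt (1 + a.z T i) * Real.exp (-(a.z T i))) / Real.sqrt (a.Xm T)) := by
    rw [Real.sqrt_div (by linarith)]
    have h4 : Real.exp (-(a.z T i)) = Real.exp (a.z T i) * Real.exp (-(2 * a.z T i)) := by
      rw [← Real.exp_add]
      congr 1
      ring
    rw [h4]
    ring
  have h5 : (Real.sqrt (1 + a.z T i) * Real.exp (-(a.z T i))) / Real.sqrt (a.Xm T) ≤
      (1 + a.z T i) * Real.exp (-(a.zm T)) / Real.sqrt (a.Xm T) :=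
    div_le_div_of_nonneg_right (r5_sqrt_exp a T i i) hs.le
  have h6 := mul_le_mul_of_nonneg_left h5 hka'.le
  rw [h3] at h2
  nlinarith

/-- [BTR-R5] the total loss is at most the required slack.
PROOF. `loss1`, `loss2`, `loss3`, `1/X_i ≤ (1+z_i)/Xm ≤ r`: total at most `(14·65 (lt+1)(d-1) + 24·65 (d-1) + 2 ka + 10 + 10^(8(d+lt))) r ≤ C₃ r` (`hC3`, `(14+24)·65 = 2470`, `2470 (lt+1) d + 10 ≤ 3000 (lt+1) d²`). Port of BTS/R5.lean with the additional term `NC` (definition in D1.lean). -/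
theorem loss {T : Box d} (hz : Real.exp (a.zm T) ≤ Real.sqrt (a.Xm T)) (i : Fin d) :
    LS a T i + 24 * ∑ l ∈ Finset.univ.erase i, EE a T i l / a.th T l +
      2 * a.th T i * Real.exp (-(((lt : ℝ) + 2) * a.z T i)) + 8 / a.X T i + a.NC T i ≤ a.rq T i := by
  have hzi := z_pos a T i
  have hm := r4a_Xm_pos a T
  have hXi := X_pos a T i
  have hka' : 0 < a.ka := r4a_ka_pos a
  have hl0 : (0 : ℝ) ≤ lt := Nat.cast_nonneg lt
  have hs : 0 < Real.sqrt (a.Xm T) := Real.sqrt_pos.2 hm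
  have hd : (2 : ℝ) ≤ d := by exact_mod_cast a.hd
  have hC := a.hC3
  have h0 := r5_div_le a hz i
  have h3 := loss3 a (T := T) i
  have hNC : a.NC T i = 10 ^ (8 * (d + lt)) *
      ((1 + a.z T i) * Real.exp (-(a.zm T)) / Real.sqrt (a.Xm T)) := rfl
  set r := (1 + a.z T i) * Real.exp (-(a.zm T)) / Real.sqrt (a.Xm T) with hr
  have hr0 : 0 ≤ r := by rw [hr]; positivity
  have hcard : ((Finset.univ.erase i).card : ℝ) ≤ d := by
    have : (Finset.univ.erase i).card ≤ (Finset.univ : Finset (Fin d)).card :=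
      Finset.card_le_card (Finset.erase_subset _ _)
    rw [Finset.card_univ, Fintype.card_fin] at this
    exact_mod_cast this
  have hS1 : ∑ l ∈ Finset.univ.erase i, (1 + a.z T l) / (a.th T l * a.X T i) ≤ d * (65 * r) := by
    refine le_trans (Finset.sum_le_sum (fun l _ => loss1 a hz i l)) ?_
    rw [Finset.sum_const, nsmul_eq_mul]
    exact mul_le_mul_of_nonneg_right hcard (by positivity)
  have hS2 : ∑ l ∈ Finset.univ.erase i, EE a T i l / a.th T l ≤ d * (65 * r) := by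
    refine le_trans (Finset.sum_le_sum (fun l _ => loss2 a hz i l)) ?_
    rw [Finset.sum_const, nsmul_eq_mul]
    exact mul_le_mul_of_nonneg_right hcard (by positivity)
  have hS1' := mul_le_mul_of_nonneg_left hS1 (by positivity : (0 : ℝ) ≤ 14 * ((lt : ℝ) + 1))
  have h4 : 1 / a.X T i ≤ r := by
    refine le_trans ?_ h0
    have h5 := (Xm_spec a T).2 i
    calc 1 / a.X T i ≤ 1 / a.Xm T := one_div_le_one_div_of_le hm h5
      _ ≤ (1 + a.z T i) / a.Xm T := div_le_div_of_nonneg_right (by linarith) hm.le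
  have h5 : 2 / a.X T i = 2 * (1 / a.X T i) := by ring
  have h6 : 8 / a.X T i = 8 * (1 / a.X T i) := by ring
  have h7 : a.rq T i = a.C3 * r := by
    rw [hr]
    unfold Pc.rq
    ring
  have h10 : 14 * ((lt : ℝ) + 1) * (d * 65) + 24 * (d * 65) + 10 ≤
      3000 * ((lt : ℝ) + 1) * (d : ℝ) ^ 2 := by
    have e1 : (d : ℝ) * 2 ≤ (d : ℝ) ^ 2 := by nlinarith
    have e2 : (0 : ℝ) ≤ (lt : ℝ) * (d : ℝ) := by positivity
    have e3 : (lt : ℝ) * ((d : ℝ) * 2) ≤ (lt : ℝ) * (d : ℝ) ^ 2 := mul_le_mul_of_nonneg_left e1 hl0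
    nlinarith
  have h8 : 14 * ((lt : ℝ) + 1) * (d * 65) + 24 * (d * 65) + 10 + 2 * a.ka +
      10 ^ (8 * (d + lt)) ≤ a.C3 := by linarith
  have h9 := mul_le_mul_of_nonneg_right h8 hr0
  unfold LS
  rw [h7, h5, h6, hNC]
  have e1 : 14 * ((lt : ℝ) + 1) * (d * (65 * r)) = 14 * ((lt : ℝ) + 1) * (d * 65) * r := by ring
  have e2 : 24 * (d * (65 * r)) = 24 * (d * 65) * r := by ring
  have e3 : (14 * ((lt : ℝ) + 1) * (d * 65) + 24 * (d * 65) + 10 + 2 * a.ka +
      10 ^ (8 * (d + lt))) * r = 14 * ((lt : ℝ) + 1) * (d * 65) * r + 24 * (d * 65) * r + 10 * r +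
      2 * a.ka * r + 10 ^ (8 * (d + lt)) * r := by ring
  rw [e1] at hS1'
  rw [e3] at h9
  have hS2' : 24 * ∑ l ∈ Finset.univ.erase i, EE a T i l / a.th T l ≤ 24 * (d * 65) * r := by
    rw [← e2]
    exact mul_le_mul_of_nonneg_left hS2 (by norm_num)
  linarith

/-- [BTR-R5] the required slack is small. PROOF. `rq ≤ C₃ (1 + Z)/√H₁ ≤ 1/(100 (2h + 2d + 2))` (`hsm`). -/
theorem rq_le {T : Box d} (hD : a.InD T) (i : Fin d) :
    a.rq T i ≤ 1 / (100 * (2 * a.h + 2 * d + 2)) := by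
  have hzi := z_pos a T i
  have hm := r4a_Xm_pos a T
  have hH := r4a_H1_pos a
  have hzZ : a.z T i ≤ a.Z := le_trans (z_le_zf a T i) (hD.1 i)
  have hC := r5_C3_pos a
  have hs : 0 < Real.sqrt (a.Xm T) := Real.sqrt_pos.2 hm
  have hsH : 0 < Real.sqrt a.H1 := Real.sqrt_pos.2 hH
  have hE : Real.exp (-(a.zm T)) ≤ 1 := by
    rw [Real.exp_le_one_iff]
    have := zm_pos a T
    linarith
  unfold Pc.rq
  rw [div_le_div_iff₀ hs (by positivity)]
  have h1 : Real.sqrt a.H1 ≤ Real.sqrt (a.Xm T) := Real.sqrt_le_sqrt (Xm_ge a T)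
  have h2 := a.hsm
  have h3 : a.C3 * (1 + a.z T i) * Real.exp (-(a.zm T)) ≤ a.C3 * (1 + a.Z) * 1 := by
    apply mul_le_mul _ hE (Real.exp_pos _).le
    · have := a.hZ; positivity
    · exact mul_le_mul_of_nonneg_left (by linarith) hC.le
  have h4 : (0 : ℝ) ≤ 100 * (2 * a.h + 2 * d + 2) := by positivity
  have h5 := mul_le_mul_of_nonneg_right h3 h4
  nlinarith
/-- [BTR-R5] (`rq_le`, `h ≥ 1`, `d ≥ 2`) -/
theorem rq_le' {T : Box d} (hD : a.InD T) (i : Fin d) : a.rq T i ≤ 1 / 100 := by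
  refine (rq_le a hD i).trans ?_
  have h1 : (0 : ℝ) ≤ a.h := Nat.cast_nonneg _
  have h2 : (0 : ℝ) ≤ d := Nat.cast_nonneg _
  apply one_div_le_one_div_of_le (by norm_num)
  linarith

theorem rq_nonneg (T : Box d) (i : Fin d) : 0 ≤ a.rq T i := by
  have hzi := z_pos a T i
  have hC := r5_C3_pos a
  unfold Pc.rq
  positivity

end BTR
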