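import Pool.Agent.BTR.V12
import Pool.Agent.BTR.E1
import Pool.Agent.BTS.S10a
import Pool.Agent.BTP.S3

set_option autoImplicit false

open scoped Classical
open Finset

/-! # Probability of a small box, and the cost of the growth by it (helper69) -/

namespace BTR
open BTP BTS

variable {d l : ℕ} (a : Pc d l)

/-- [BTR-S10a] the probability of a small box. (`Pr_IG_le` with `m = ms y`) -/
theorem Pr_small {S : Box (d + l)} (hS : Ne S) {y : ℕ} (hy : Ys S = y) (V : Finset (Site (d + l))) :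
    Pr V a.p (IG S) ≤ (((y : ℝ) + 1) ^ (d + l) * a.p) ^ ms y := by
  have h1 := Pr_IG_le (p_nonneg a) (p_le_one a) V S hS (ms y) (by
    rw [hy]
    unfold ms
    omega)
  rw [hy] at h1
  simpa using h1

/-- the growth of the sides by the box `S` near the foot -/
theorem total_pr {T : Box d} {S : Box (d + l)} (hT : Ne T) (hS : Ne S) (hn : near (emb l T) S) {y : ℕ}
    (hy : Ys S = y) : ∑ i, ((sd (T ⊔ pr S) i : ℝ) - sd T i) ≤ y + 2 := by
  have h1 := Ys_pr_le hS
  have h0 := Ys_nonneg (ne_pr hS)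
  obtain ⟨y', hy'⟩ : ∃ y' : ℕ, Ys (pr S) = y' := ⟨(Ys (pr S)).toNat, (Int.toNat_of_nonneg h0).symm⟩
  have h2 := s10a_total hT (ne_pr hS) (near_of_emb hn) hy'
  have h3 : (y' : ℝ) ≤ y := by
    have : (y' : ℤ) ≤ y := by omega
    exact_mod_cast this
  linarith

/-- [BTR-S10a] the cost of the growth by `S` in at least two long axes (BTS: `grow_two`) -/
theorem grow_two {T : Box d} {S : Box (d + l)} (hT : Ne T) (hS : Ne S) (hn : near (emb l T) S) {y : ℕ}
    (hy : Ys S = y) {j j' : Dir d} (hj : j.1 ≠ j'.1) (h : T j < pr S j) (h' : T j' < pr S j') :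
    a.Ps (T ⊔ pr S) ≤ a.Ps T + gk (l + 1) (a.z T j.1) + gk (l + 1) (a.z T j'.1) + y * gk (l + 1) (a.zm T) := by
  have hm : ∀ i, gk (l + 1) (a.z T i) ≤ gk (l + 1) (a.zm T) := fun i =>
    gk_anti (k := l + 1) (zm_pos a T) ((zm_spec a T).2 i)
  have hg0 : 0 ≤ gk (l + 1) (a.zm T) := gk_nonneg (k := l + 1) (zm_pos a T)
  have h1 := Ps_grow a hT (le_sup_left : T ≤ T ⊔ pr S)
  have htot := total_pr hT hS hn hy
  have h2 : ∑ i, ((sd (T ⊔ pr S) i : ℝ) - sd T i) * gk (l + 1) (a.z T i) ≤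
      ∑ i, ((if i = j.1 then gk (l + 1) (a.z T i) else 0) + (if i = j'.1 then gk (l + 1) (a.z T i) else 0) +
        (((sd (T ⊔ pr S) i : ℝ) - sd T i) - (if i = j.1 then 1 else 0) -
          (if i = j'.1 then 1 else 0)) * gk (l + 1) (a.zm T)) := by
    refine Finset.sum_le_sum fun i _ => ?_
    have hl := hm i
    have h0 := s10a_g_nonneg (S := pr S) hT i
    by_cases e1 : i = j.1
    · have e2 : ¬ (i = j'.1) := fun e => hj (e1.symm.trans e)
      rw [if_pos e1, if_neg e2, if_pos e1, if_neg e2]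
      have h3 : 1 ≤ (sd (T ⊔ pr S) i : ℝ) - sd T i := by
        rw [e1]
        exact s10a_g_one hT h
      nlinarith
    · rw [if_neg e1, if_neg e1]
      by_cases e2 : i = j'.1
      · rw [if_pos e2, if_pos e2]
        have h3 : 1 ≤ (sd (T ⊔ pr S) i : ℝ) - sd T i := by
          rw [e2]
          exact s10a_g_one hT h'
        nlinarith
      · rw [if_neg e2, if_neg e2]
        nlinarith
  have h3 : ∑ i, ((if i = j.1 then gk (l + 1) (a.z T i) else 0) + (if i = j'.1 then gk (l + 1) (a.z T i) else 0) +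
        (((sd (T ⊔ pr S) i : ℝ) - sd T i) - (if i = j.1 then 1 else 0) -
          (if i = j'.1 then 1 else 0)) * gk (l + 1) (a.zm T)) =
      gk (l + 1) (a.z T j.1) + gk (l + 1) (a.z T j'.1) +
        (∑ i, ((sd (T ⊔ pr S) i : ℝ) - sd T i) - 1 - 1) * gk (l + 1) (a.zm T) := by
    rw [Finset.sum_add_distrib, Finset.sum_add_distrib, ← Finset.sum_mul,
      Finset.sum_sub_distrib, Finset.sum_sub_distrib]
    simp
  have h4 : (∑ i, ((sd (T ⊔ pr S) i : ℝ) - sd T i) - 1 - 1) * gk (l + 1) (a.zm T) ≤ y * gk (l + 1) (a.zm T) :=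
    mul_le_mul_of_nonneg_right (by linarith) hg0
  linarith

/-- [BTR-S10a] PROOF. `Ps_grow`, total growth at most `y + 2`. -/
theorem grow_any {T : Box d} {S : Box (d + l)} (hT : Ne T) (hS : Ne S) (hn : near (emb l T) S) {y : ℕ}
    (hy : Ys S = y) : a.Ps (T ⊔ pr S) ≤ a.Ps T + (y + 2) * gk (l + 1) (a.zm T) := by
  have hm : ∀ i, gk (l + 1) (a.z T i) ≤ gk (l + 1) (a.zm T) := fun i =>
    gk_anti (k := l + 1) (zm_pos a T) ((zm_spec a T).2 i)
  have hg0 : 0 ≤ gk (l + 1) (a.zm T) := gk_nonneg (k := l + 1) (zm_pos a T)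
  have h1 := Ps_grow a hT (le_sup_left : T ≤ T ⊔ pr S)
  have htot := total_pr hT hS hn hy
  have h2 : ∑ i, ((sd (T ⊔ pr S) i : ℝ) - sd T i) * gk (l + 1) (a.z T i) ≤
      (∑ i, ((sd (T ⊔ pr S) i : ℝ) - sd T i)) * gk (l + 1) (a.zm T) := by
    rw [Finset.sum_mul]
    exact Finset.sum_le_sum fun i _ => mul_le_mul_of_nonneg_left (hm i) (s10a_g_nonneg hT i)
  have h3 : (∑ i, ((sd (T ⊔ pr S) i : ℝ) - sd T i)) * gk (l + 1) (a.zm T) ≤ (y + 2) * gk (l + 1) (a.zm T) :=
    mul_le_mul_of_nonneg_right htot hg0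
  linarith

/-- [BTR-S10a] the cost of the growth by `S` in the axis `i` only: if no other side grows, `Ps` grows by at most `(y+2) g(z_i)` -/
theorem grow_one {T : Box d} {S : Box (d + l)} (hT : Ne T) (hS : Ne S) (hn : near (emb l T) S) {y : ℕ}
    (hy : Ys S = y) {i : Fin d} (h : ∀ j : Dir d, T j < pr S j → j.1 = i) :
    a.Ps (T ⊔ pr S) ≤ a.Ps T + (y + 2) * gk (l + 1) (a.z T i) := by
  have hg0 : 0 ≤ gk (l + 1) (a.z T i) := gk_nonneg (k := l + 1) (z_pos a T i)
  have h1 := Ps_grow a hT (le_sup_left : T ≤ T ⊔ pr S)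
  have htot := total_pr hT hS hn hy
  have h0 : ∀ m, m ≠ i → (sd (T ⊔ pr S) m : ℝ) - sd T m = 0 := by
    intro m hm
    have e : ∀ b : Bool, (T ⊔ pr S) (m, b) = T (m, b) := by
      intro b
      have : pr S (m, b) ≤ T (m, b) := by
        by_contra hc
        exact hm (h (m, b) (not_le.1 hc))
      exact sup_eq_left.2 this
    have e2 : sd (T ⊔ pr S) m = sd T m := by
      unfold sd
      rw [e, e]
    rw [e2, sub_self]
  have h2 : ∑ m, ((sd (T ⊔ pr S) m : ℝ) - sd T m) * gk (l + 1) (a.z T m) =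
      ∑ m, ((sd (T ⊔ pr S) m : ℝ) - sd T m) * gk (l + 1) (a.z T i) := by
    refine Finset.sum_congr rfl fun m _ => ?_
    by_cases hm : m = i
    · rw [hm]
    · rw [h0 m hm, zero_mul, zero_mul]
  rw [h2, ← Finset.sum_mul] at h1
  have h3 : (∑ m, ((sd (T ⊔ pr S) m : ℝ) - sd T m)) * gk (l + 1) (a.z T i) ≤ (y + 2) * gk (l + 1) (a.z T i) :=
    mul_le_mul_of_nonneg_right htot hg0
  linarith

end BTR
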