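import Pool.Agent.BTR.G8
import Pool.Agent.BTP.V0
import Pool.Agent.BTP.B1
import Pool.Agent.BTS.E3

set_option autoImplicit false

open scoped Classical
open Finset

namespace BTR
open BTP BTS

variable {d lt : ℕ} (a : Pc d lt)

theorem v11a_K0 : 0 ≤ a.K := by linarith [a.hK]

theorem v11a_H1 : 0 ≤ a.H1 := by linarith [a.hH1]

theorem v11a_H : 0 < a.H := by linarith [a.hH1, a.hH]

theorem v11a_K : a.K ≤ Real.sqrt a.H1 := by
  exact Real.le_sqrt_of_sq_le a.hKH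

theorem v11a_f (m : ℕ) : a.f m = (m : ℝ) + a.K * Real.sqrt m + a.H := rfl

/-! ## Gauge and simple facts on the parameters -/

/-- [BTR-V11a] PROOF. `G_convex`, `G_anti`, `G_nonneg`; `φ(m) = m + K√m + H` (as in `BTP.Par.gp`). -/
theorem gp : GP a.G a.f := by
  have hK := v11a_K0 a
  refine ⟨G_convex a, G_anti a, fun z => G_nonneg a z, ?_, ?_, ?_⟩
  · intro m
    have h1 : 0 ≤ a.K * Real.sqrt m := mul_nonneg hK (Real.sqrt_nonneg _)
    have h2 := v11a_H a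
    have h3 : (0 : ℝ) ≤ m := Nat.cast_nonneg m
    rw [v11a_f]
    linarith
  · intro m n h
    have h1 : (m : ℝ) ≤ n := by exact_mod_cast h
    have h2 := mul_le_mul_of_nonneg_left (Real.sqrt_le_sqrt h1) hK
    rw [v11a_f, v11a_f]
    linarith
  · intro m
    have h0 : (0 : ℝ) ≤ m := Nat.cast_nonneg m
    have h1 : Real.sqrt m + Real.sqrt (m + 2 : ℝ) ≤ 2 * Real.sqrt (m + 1 : ℝ) := by
      have e0 := Real.sq_sqrt h0
      have e1 := Real.sq_sqrt (show (0 : ℝ) ≤ m + 1 by linarith)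
      have e2 := Real.sq_sqrt (show (0 : ℝ) ≤ m + 2 by linarith)
      rw [← pow_le_pow_iff_left₀ (add_nonneg (Real.sqrt_nonneg _) (Real.sqrt_nonneg _))
        (mul_nonneg two_pos.le (Real.sqrt_nonneg _)) two_ne_zero]
      nlinarith [sq_nonneg (Real.sqrt m - Real.sqrt (m + 2 : ℝ))]
    have h2 := mul_le_mul_of_nonneg_left h1 hK
    rw [v11a_f, v11a_f, v11a_f]
    push_cast
    linarith

/-- [BTR-V11a] PROOF. `x ≤ H₁`: `φ ≥ 2 H₁ ≥ H₁ + K√H₁` (`K ≤ √H₁`); `x > H₁`: `φ ≥ x + K√x`. -/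
theorem f_ge (T : Box d) (i : Fin d) : a.X T i + a.K * Real.sqrt (a.X T i) ≤ a.f (sd T i) := by
  have hK := v11a_K0 a
  have hX : a.X T i = max (sd T i : ℝ) a.H1 := rfl
  rw [v11a_f]
  rcases le_total (sd T i : ℝ) a.H1 with h | h
  · rw [hX, max_eq_right h]
    have h1 : a.K * Real.sqrt a.H1 ≤ a.H1 := by
      calc a.K * Real.sqrt a.H1 ≤ Real.sqrt a.H1 * Real.sqrt a.H1 :=
            mul_le_mul_of_nonneg_right (v11a_K a) (Real.sqrt_nonneg _)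
        _ = a.H1 := Real.mul_self_sqrt (v11a_H1 a)
    have h2 : 0 ≤ a.K * Real.sqrt (sd T i : ℝ) := mul_nonneg hK (Real.sqrt_nonneg _)
    have h3 : (0 : ℝ) ≤ sd T i := Nat.cast_nonneg _
    have h4 := a.hH
    linarith
  · rw [hX, max_eq_left h]
    have h2 := v11a_H a
    linarith

/-- [BTR-V11a] PROOF. `K√x ≤ √H₁ √X ≤ X`, `H = 2H₁ ≤ 2X`. -/
theorem f_le (T : Box d) (i : Fin d) : a.f (sd T i) ≤ 4 * a.X T i := by
  have hX : a.X T i = max (sd T i : ℝ) a.H1 := rfl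
  have h1 : (sd T i : ℝ) ≤ a.X T i := by rw [hX]; exact le_max_left _ _
  have h2 : a.H1 ≤ a.X T i := by rw [hX]; exact le_max_right _ _
  have h0 : 0 ≤ a.X T i := (v11a_H1 a).trans h2
  have h3 : a.K * Real.sqrt (sd T i : ℝ) ≤ a.X T i := by
    calc a.K * Real.sqrt (sd T i : ℝ) ≤ Real.sqrt (a.X T i) * Real.sqrt (a.X T i) := by
          apply mul_le_mul ((v11a_K a).trans (Real.sqrt_le_sqrt h2)) (Real.sqrt_le_sqrt h1)
            (Real.sqrt_nonneg _) (Real.sqrt_nonneg _)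
      _ = a.X T i := Real.mul_self_sqrt h0
  have h4 := a.hH
  rw [v11a_f]
  linarith

theorem v11a_incr (m : ℕ) : a.f (m + 1) - a.f m =
    1 + a.K * (Real.sqrt ((m : ℝ) + 1) - Real.sqrt m) := by
  rw [v11a_f, v11a_f]
  push_cast
  ring

theorem f_incr_ge (m : ℕ) : 1 ≤ a.f (m + 1) - a.f m := by
  rw [v11a_incr]
  have h1 : Real.sqrt m ≤ Real.sqrt ((m : ℝ) + 1) := Real.sqrt_le_sqrt (by linarith)
  have h2 : 0 ≤ a.K * (Real.sqrt ((m : ℝ) + 1) - Real.sqrt m) :=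
    mul_nonneg (v11a_K0 a) (by linarith)
  linarith

theorem f_incr_le (m : ℕ) : a.f (m + 1) - a.f m ≤ 1 + a.K := by
  rw [v11a_incr]
  have h0 : (0 : ℝ) ≤ m := Nat.cast_nonneg m
  have h1 : Real.sqrt ((m : ℝ) + 1) ≤ Real.sqrt m + 1 := by
    rw [Real.sqrt_le_left (by positivity)]
    nlinarith [Real.sq_sqrt h0, Real.sqrt_nonneg (m : ℝ)]
  have h2 : a.K * (Real.sqrt ((m : ℝ) + 1) - Real.sqrt m) ≤ a.K * 1 :=
    mul_le_mul_of_nonneg_left (by linarith) (v11a_K0 a)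
  linarith

/-- [BTR-V11a] (`√(m+1) - √m ≤ 1/(2√m)`, `K ≤ √H₁ ≤ √m`) -/
theorem f_incr_le' {m : ℕ} (hm : a.H1 ≤ m) : a.f (m + 1) - a.f m ≤ 2 := by
  rw [v11a_incr]
  have h0 : (0 : ℝ) ≤ m := Nat.cast_nonneg m
  have hK : a.K ≤ Real.sqrt m := (v11a_K a).trans (Real.sqrt_le_sqrt hm)
  have h1 : Real.sqrt m ≤ Real.sqrt ((m : ℝ) + 1) := Real.sqrt_le_sqrt (by linarith)
  have e0 := Real.sq_sqrt h0
  have e1 := Real.sq_sqrt (show (0 : ℝ) ≤ m + 1 by linarith)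
  have h2 : a.K * (Real.sqrt ((m : ℝ) + 1) - Real.sqrt m) ≤
      Real.sqrt m * (Real.sqrt ((m : ℝ) + 1) - Real.sqrt m) :=
    mul_le_mul_of_nonneg_right hK (by linarith)
  have h3 : Real.sqrt m * (Real.sqrt ((m : ℝ) + 1) - Real.sqrt m) ≤ 1 := by
    nlinarith [Real.sqrt_nonneg (m : ℝ), sq_nonneg (Real.sqrt ((m : ℝ) + 1) - Real.sqrt m)]
  linarith

theorem f_ge_self (m : ℕ) : (m : ℝ) ≤ a.f m := by
  have h1 : 0 ≤ a.K * Real.sqrt (m : ℝ) := mul_nonneg (v11a_K0 a) (Real.sqrt_nonneg _)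
  have h2 := v11a_H a
  rw [v11a_f]
  linarith

theorem f_ge_H (m : ℕ) : a.H ≤ a.f m := by
  have h1 : 0 ≤ a.K * Real.sqrt (m : ℝ) := mul_nonneg (v11a_K0 a) (Real.sqrt_nonneg _)
  have h2 : (0 : ℝ) ≤ m := Nat.cast_nonneg m
  rw [v11a_f]
  linarith

/-- [BTR-V11a] basic facts -/
theorem p_nonneg : 0 ≤ a.p := by
  have h1 : Real.exp (-a.q) ≤ 1 := Real.exp_le_one_iff.2 (by linarith [a.hq])
  rw [a.hp]
  linarith

theorem p_le_q : a.p ≤ a.q := by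
  have h1 := Real.add_one_le_exp (-a.q)
  rw [a.hp]
  linarith

theorem p_le_one : a.p ≤ 1 := by
  have h1 := Real.exp_pos (-a.q)
  rw [a.hp]
  linarith

end BTR
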