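import Pool.Agent.BTR.V12

set_option autoImplicit false

open scoped Classical
open Finset

namespace BTR
open BTP BTS

variable {d lt : ℕ} (a : Pc d lt)

/-- [BTR-V19] a box with one side larger than `B`, all faces `≤ Z`.
PROOF. As `BTP.Ps_long`: let `x k > B`, `X_l = X T l`; choose `i ≠ k` with minimal `X_i` among `l ≠ k` (`d ≥ 2`). `N = ∏_{l ≠ i, k} X_l` (`d - 2` factors). Face `i`: `q X_k N ≤ z_i ≤ zf_i ≤ Z`, so `N ≤ Z A^{d-1}/X_k < Z A^{d-1}/B ≤ A^{d-2}/4^d` (`hB`). If `d = 2`: `N = 1`, contradiction. If `d ≥ 3`: `X_i^{d-2} ≤ N ≤ A^{d-2}` so `X_i ≤ A`. Hence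
`q ∏_{j≠k} X_j = q X_i N ≤ 4^{-d}`, and by `f_le` `q ∏_{j≠k} φ(x j) ≤ 4^{d-1} 4^{-d} ≤ 1`, `G(..) ≥ g(1) - c₁ - c₀ ≥ g(1)/2` (`G_anti`, `G_ge`, `hc01`). `GP.Psi_ge`: `Ps ≥ x k g(1)/2 ≥ B g(1)/2 ≥ d A λ` (`hB2`). -/
theorem Ps_long {T : Box d} (hT : Ne T) (hf : ∀ i, a.zf T i ≤ a.Z) (k : Fin d)
    (hk : a.B < sd T k) : d * a.A * lamk (d - 1) (lt + 1) ≤ a.Ps T := by
  have hd := a.hd
  have hA := a.hA
  have hq := a.hq
  have hXpos : ∀ l, 0 < a.X T l := X_pos a T
  obtain ⟨i, hik, hmin⟩ : ∃ i, i ≠ k ∧ ∀ l, l ≠ k → a.X T i ≤ a.X T l := by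
    have hne : (Finset.univ.erase k : Finset (Fin d)).Nonempty := by
      rw [← Finset.card_pos, Finset.card_erase_of_mem (Finset.mem_univ k), Finset.card_univ,
        Fintype.card_fin]
      omega
    obtain ⟨i, hi, hi'⟩ := Finset.exists_min_image _ (a.X T) hne
    exact ⟨i, Finset.ne_of_mem_erase hi, fun l hl => hi' l (Finset.mem_erase.2 ⟨hl, Finset.mem_univ l⟩)⟩
  obtain ⟨N, hN⟩ : ∃ N, N = ∏ l ∈ (Finset.univ.erase k).erase i, a.X T l := ⟨_, rfl⟩
  have hNpos : 0 < N := by rw [hN]; exact Finset.prod_pos fun l _ => hXpos l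
  have hprodk : ∏ l ∈ Finset.univ.erase k, a.X T l = a.X T i * N := by
    rw [hN]
    exact (Finset.mul_prod_erase _ _ (Finset.mem_erase.2 ⟨hik, Finset.mem_univ i⟩)).symm
  have hprodi : ∏ l ∈ Finset.univ.erase i, a.X T l = a.X T k * N := by
    rw [hN, Finset.erase_right_comm]
    exact (Finset.mul_prod_erase _ _ (Finset.mem_erase.2 ⟨hik.symm, Finset.mem_univ k⟩)).symm
  have hface : a.q * (a.X T k * N) ≤ a.Z := by
    have h1 := (z_le_zf a T i).trans (hf i)
    unfold Pc.z face at h1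
    rw [hprodi] at h1
    exact h1
  have hXk : a.B ≤ a.X T k := hk.le.trans (X_ge_sd a T k)
  have hZ : 0 < a.Z := lt_of_lt_of_le one_pos a.hZ
  have h4 : (0 : ℝ) < 4 ^ d := by positivity
  have hstar : a.q * (4 ^ d * a.A * N) ≤ 1 := by
    have e1 : a.q * (4 ^ d * a.Z * a.A * N) ≤ a.Z := by
      refine le_trans ?_ hface
      apply mul_le_mul_of_nonneg_left _ hq.le
      exact mul_le_mul_of_nonneg_right (a.hB.trans hXk) hNpos.le
    have e2 : a.Z * (a.q * (4 ^ d * a.A * N)) ≤ a.Z * 1 := by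
      calc a.Z * (a.q * (4 ^ d * a.A * N)) = a.q * (4 ^ d * a.Z * a.A * N) := by ring
        _ ≤ a.Z := e1
        _ = a.Z * 1 := (mul_one _).symm
    exact le_of_mul_le_mul_left e2 hZ
  have hXiA : a.X T i ≤ a.A := by
    by_contra hc
    rw [not_le] at hc
    have e1 : a.A ^ (d - 2) ≤ N := by
      have e2 : ∏ _l ∈ (Finset.univ.erase k).erase i, a.A ≤ N := by
        rw [hN]
        apply Finset.prod_le_prod
        · intro l _
          linarith
        · intro l hl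
          have h1 := hmin l (Finset.ne_of_mem_erase (Finset.mem_of_mem_erase hl))
          linarith
      rw [Finset.prod_const, Finset.card_erase_of_mem
        (Finset.mem_erase.2 ⟨hik, Finset.mem_univ i⟩), Finset.card_erase_of_mem (Finset.mem_univ k),
        Finset.card_univ, Fintype.card_fin] at e2
      exact e2
    have e3 : a.A * a.A ^ (d - 2) = a.A ^ (d - 1) := by
      rw [← pow_succ']
      congr 1
      omega
    have e4 : a.q * (4 ^ d * a.A * a.A ^ (d - 2)) ≤ 1 := by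
      refine le_trans ?_ hstar
      apply mul_le_mul_of_nonneg_left _ hq.le
      exact mul_le_mul_of_nonneg_left e1 (by positivity)
    have e5 : a.q * (4 ^ d * a.A * a.A ^ (d - 2)) = 4 ^ d * (a.q * a.A ^ (d - 1)) := by
      rw [← e3]
      ring
    rw [e5, a.hqA, mul_one] at e4
    have e6 : (4 : ℝ) ^ 1 ≤ 4 ^ d := pow_le_pow_right₀ (by norm_num) (by omega)
    linarith
  have hpos0 : 0 < ∏ j ∈ Finset.univ.erase k, a.f (sd T j) :=
    Finset.prod_pos fun j _ => (gp a).pos _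
  have hprod : a.q * ∏ j ∈ Finset.univ.erase k, a.f (sd T j) ≤ 1 := by
    have e1 : ∏ j ∈ Finset.univ.erase k, a.f (sd T j) ≤
        ∏ j ∈ Finset.univ.erase k, (4 * a.X T j) := by
      apply Finset.prod_le_prod
      · intro j _
        exact ((gp a).pos _).le
      · intro j _
        exact f_le a T j
    rw [Finset.prod_mul_distrib, Finset.prod_const, Finset.card_erase_of_mem (Finset.mem_univ k),
      Finset.card_univ, Fintype.card_fin, hprodk] at e1
    have e2 : (4 : ℝ) * 4 ^ (d - 1) = 4 ^ d := by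
      rw [← pow_succ']
      congr 1
      omega
    have e3 : a.q * ∏ j ∈ Finset.univ.erase k, a.f (sd T j) ≤
        a.q * (4 ^ (d - 1) * (a.A * N)) := by
      apply mul_le_mul_of_nonneg_left _ hq.le
      refine e1.trans ?_
      apply mul_le_mul_of_nonneg_left _ (by positivity)
      exact mul_le_mul_of_nonneg_right hXiA hNpos.le
    have e4 : 4 * (a.q * (4 ^ (d - 1) * (a.A * N))) ≤ 1 := by
      calc 4 * (a.q * (4 ^ (d - 1) * (a.A * N))) = a.q * (4 * 4 ^ (d - 1) * a.A * N) := by ring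
        _ = a.q * (4 ^ d * a.A * N) := by rw [e2]
        _ ≤ 1 := hstar
    have e5 : 0 ≤ a.q * (4 ^ (d - 1) * (a.A * N)) := by positivity
    linarith
  have hGk : gk (lt + 1) 1 / 2 ≤ a.G (∏ j ∈ Finset.univ.erase k, a.f (sd T j)) := by
    have hpos : 0 < a.q * ∏ j ∈ Finset.univ.erase k, a.f (sd T j) := mul_pos hq hpos0
    have e1 := gk_anti (k := lt + 1) hpos hprod
    have e2 := a.hc01
    have e3 := G_ge a hpos0
    have e4 : a.c1 / (1 + min (a.q * ∏ j ∈ Finset.univ.erase k, a.f (sd T j)) a.Z) ^ 2 ≤ a.c1 := by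
      have e5 : 0 ≤ min (a.q * ∏ j ∈ Finset.univ.erase k, a.f (sd T j)) a.Z := le_min hpos.le hZ.le
      apply div_le_self a.hc1.le
      nlinarith
    linarith
  have hB0 : 0 ≤ a.B := by linarith [a.hHB, a.hH1]
  have hg1 : 0 ≤ gk (lt + 1) 1 := gk_nonneg (k := lt + 1) one_pos
  unfold Pc.Ps
  refine le_trans ?_ ((gp a).Psi_ge (sd T) k)
  refine a.hB2.trans ?_
  exact mul_le_mul hk.le hGk (by linarith) (Nat.cast_nonneg _)

end BTR
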