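import Pool.Agent.BTR.V11
import Pool.Agent.BTR.G3
import Pool.Agent.BTR.G4

set_option autoImplicit false

open scoped Classical
open Finset

namespace BTR
open BTP BTS

variable {d lt : ℕ} (a : Pc d lt)

/-- the number of terms -/
noncomputable def MM : ℕ := ⌈2 * a.A * Real.log a.A⌉₊

/-- the error in the value of the potential -/
noncomputable def Er : ℝ := d * (d * Real.log a.A + 1 + 4 * a.c1 * a.A + gk (lt + 1) a.Z * MM a +
  70 * d * (a.K * Real.sqrt a.A + a.H * (1 + Real.log a.A)))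

theorem Er_nonneg : 0 ≤ Er a := by
  unfold Er
  have h1 := a.hc1
  have h2 := a.hK
  have h3 : 0 ≤ a.H := by rw [a.hH]; linarith [a.hH1]
  have h4 : 0 ≤ Real.log a.A := Real.log_nonneg (by linarith [a.hA])
  have h6 : (0 : ℝ) ≤ MM a := Nat.cast_nonneg _
  have h7 : (0 : ℝ) ≤ d := Nat.cast_nonneg _
  have h8 : 0 ≤ Real.sqrt a.A := Real.sqrt_nonneg _
  have h9 : 0 ≤ a.K := by linarith
  have h10 : 0 ≤ a.A := by linarith [a.hA]
  have h11 : 0 ≤ gk (lt + 1) a.Z := gk_nonneg (k := lt + 1) (by linarith [a.hZ])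
  positivity

/-- [BTR-V20a] PROOF. `z/2 ≤ 1`: `g(z/2) ≤ g(1/2) ≤ 2` (`gk_up`). `z ≥ 2`: `g(z/2) ≤ 2 e^{-z/2}` (`gk_tail`) and `z² e^{-z/2} ≤ 4` (`e^{z/2} ≥ (z/2)²/2 + ..`: `e^x ≥ 1 + x + x²/2 + x³/6 ≥ x²`). -/
theorem gk_half_le {lt : ℕ} {z : ℝ} (hz : 1 ≤ z) : gk (lt + 1) (z / 2) ≤ 8 / z ^ 2 := by
  have hz0 : 0 < z := by linarith
  by_cases h : z ≤ 2
  · have h1 : gk (lt + 1) (z / 2) ≤ gk (lt + 1) (1 / 2) := gk_anti (k := lt + 1) (by norm_num) (by linarith)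
    have h2 : gk (lt + 1) (1 / 2) ≤ Real.log ((1 + 1 / 2) / (1 / 2)) / 2 := gk_up (k := lt + 1) (Nat.succ_pos _) (by norm_num)
    have h3 : Real.log ((1 + 1 / 2) / (1 / 2) : ℝ) ≤ 2 := by
      have := Real.log_le_sub_one_of_pos (x := (1 + 1 / 2) / (1 / 2)) (by norm_num)
      norm_num at this ⊢
      linarith
    have h4 : 2 ≤ 8 / z ^ 2 := by
      rw [le_div_iff₀ (by positivity)]
      nlinarith
    linarith
  · rw [not_le] at h
    have h1 : gk (lt + 1) (z / 2) ≤ 2 * Real.exp (-(z / 2)) := gk_tail (k := lt + 1) (Nat.succ_pos _) (by linarith)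
    have h2 := Real.sum_le_exp_of_nonneg (x := z / 2) (by linarith) 4
    have h3 : (z / 2) ^ 2 ≤ Real.exp (z / 2) := by
      refine le_trans ?_ h2
      simp only [Finset.sum_range_succ, Finset.sum_range_zero, Nat.factorial]
      norm_num
      have hx : 0 ≤ z - 2 := by linarith
      nlinarith [mul_nonneg hx hx, mul_nonneg (mul_nonneg hx hx) hx]
    refine h1.trans ?_
    rw [Real.exp_neg, ← div_eq_mul_inv, div_le_div_iff₀ (Real.exp_pos _) (by positivity)]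
    nlinarith

theorem v20a_H_pos : 0 < a.H := by rw [a.hH]; linarith [a.hH1]

/-- the gauge: `f m = m (1 + K/√m + H/m)` -/
theorem v20a_f {m : ℕ} (h1 : 1 ≤ m) :
    a.f m = m * (1 + (a.K / Real.sqrt m + a.H / m)) := by
  have hm : (0 : ℝ) < m := by exact_mod_cast h1
  have hs : 0 < Real.sqrt m := Real.sqrt_pos.2 hm
  have hss : Real.sqrt m * Real.sqrt m = m := Real.mul_self_sqrt hm.le
  unfold Pc.f ph
  have e1 : (m : ℝ) * (a.K / Real.sqrt m) = a.K * Real.sqrt m := by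
    rw [mul_div_assoc', div_eq_iff hs.ne']
    calc (m : ℝ) * a.K = a.K * (Real.sqrt m * Real.sqrt m) := by rw [hss]; ring
      _ = a.K * Real.sqrt m * Real.sqrt m := by ring
  have e2 : (m : ℝ) * (a.H / m) = a.H := by
    field_simp
  rw [mul_add, mul_add, e1, e2, mul_one]
  ring

theorem v20a_q (y : ℝ) : a.q * y ^ (d - 1) = (y / a.A) ^ (d - 1) := by
  have hA : 0 < a.A := by linarith [a.hA]
  have h1 := a.hqA
  rw [div_pow, eq_div_iff (pow_pos hA _).ne']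
  calc a.q * y ^ (d - 1) * a.A ^ (d - 1) = (a.q * a.A ^ (d - 1)) * y ^ (d - 1) := by ring
    _ = y ^ (d - 1) := by rw [h1, one_mul]

theorem v20a_ratio {m : ℕ} (h1 : 1 ≤ m) :
    a.q * a.f m ^ (d - 1) = ((m : ℝ) / a.A) ^ (d - 1) *
      (1 + (a.K / Real.sqrt m + a.H / m)) ^ (d - 1) := by
  rw [v20a_q, v20a_f a h1, ← mul_pow]
  congr 1
  ring

theorem v20a_eps_nonneg (m : ℕ) : 0 ≤ a.K / Real.sqrt m + a.H / m := by
  have h2 := a.hK
  have h3 := v20a_H_pos a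
  have h4 : (0 : ℝ) ≤ m := Nat.cast_nonneg _
  have h5 := Real.sqrt_nonneg (m : ℝ)
  have h6 : 0 ≤ a.K := by linarith
  positivity

/-- [BTR-V20a] the gauge. PROOF. `z = q m^{d-1} = (m/A)^{d-1}` (`hqA`), `z' = q φ(m)^{d-1} = z (1 + K/√m + H/m)^{d-1}`.
`m ≤ A`: `g(z) - g(z') ≤ log(z'/z) ≤ (d-1)(K/√m + H/m)` (`gk_log`). `m > A`: `ε = K/√m + H/m ≤ K/√A + H/A ≤ 1/d`, `(1+ε)^{d-1} - 1 ≤ 2dε`; `gk_sub_le`, `gk_half_le`: `≤ 2 · 2dε · 8/z² ≤ 32 d (K/√A + H/A)(A/m)²` (`z ≥ m/A`). -/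
theorem gauge_small {m : ℕ} (h1 : 1 ≤ m) (h2 : (m : ℝ) ≤ a.A) :
    gk (lt + 1) (((m : ℝ) / a.A) ^ (d - 1)) - gk (lt + 1) (a.q * a.f m ^ (d - 1)) ≤
      d * (a.K / Real.sqrt m + a.H / m) := by
  have hA : 0 < a.A := by linarith [a.hA]
  have hm : (0 : ℝ) < m := by exact_mod_cast h1
  have he := v20a_eps_nonneg a m
  rw [v20a_ratio a h1]
  generalize a.K / Real.sqrt m + a.H / m = ε at he
  have hz : 0 < ((m : ℝ) / a.A) ^ (d - 1) := pow_pos (div_pos hm hA) _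
  have hp : 1 ≤ (1 + ε) ^ (d - 1) := one_le_pow₀ (by linarith)
  have h3 := gk_log (k := lt + 1) hz (z' := ((m : ℝ) / a.A) ^ (d - 1) * (1 + ε) ^ (d - 1))
    (le_mul_of_one_le_right hz.le hp)
  refine h3.trans ?_
  rw [mul_div_cancel_left₀ _ hz.ne', Real.log_pow]
  have h4 : Real.log (1 + ε) ≤ ε := by
    have := Real.log_le_sub_one_of_pos (x := 1 + ε) (by linarith)
    linarith
  have h5 : 0 ≤ Real.log (1 + ε) := Real.log_nonneg (by linarith)
  have h6 : ((d - 1 : ℕ) : ℝ) ≤ d := by exact_mod_cast Nat.sub_le d 1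
  exact mul_le_mul h6 h4 h5 (Nat.cast_nonneg _)

theorem gauge_large {m : ℕ} (h2 : a.A ≤ m) :
    gk (lt + 1) (((m : ℝ) / a.A) ^ (d - 1)) - gk (lt + 1) (a.q * a.f m ^ (d - 1)) ≤
      32 * d * (a.K / Real.sqrt a.A + a.H / a.A) * (a.A / m) ^ 2 := by
  have hA : 0 < a.A := by linarith [a.hA]
  have hm : (0 : ℝ) < m := by linarith
  have h1 : 1 ≤ m := by exact_mod_cast hm
  have he := v20a_eps_nonneg a m
  have hd := a.hd
  have hKA := a.hKA
  have hH := v20a_H_pos a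
  have hK : 0 ≤ a.K := by linarith [a.hK]
  -- `ε ≤ δ`
  have hεδ : a.K / Real.sqrt m + a.H / m ≤ a.K / Real.sqrt a.A + a.H / a.A := by
    have e1 : a.K / Real.sqrt m ≤ a.K / Real.sqrt a.A :=
      div_le_div_of_nonneg_left hK (Real.sqrt_pos.2 hA) (Real.sqrt_le_sqrt h2)
    have e2 : a.H / m ≤ a.H / a.A := div_le_div_of_nonneg_left hH.le hA h2
    linarith
  rw [v20a_ratio a h1]
  generalize a.K / Real.sqrt m + a.H / m = ε at he hεδ
  generalize a.K / Real.sqrt a.A + a.H / a.A = δ at hεδ hKA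
  have hq1 : 1 ≤ (m : ℝ) / a.A := by rw [le_div_iff₀ hA]; linarith
  obtain ⟨z, hzdef⟩ : ∃ z, z = ((m : ℝ) / a.A) ^ (d - 1) := ⟨_, rfl⟩
  have hz1 : (m : ℝ) / a.A ≤ z := by
    rw [hzdef]
    exact le_self_pow₀ hq1 (by omega)
  have hz : 0 < z := by linarith
  rw [← hzdef]
  have hp : 1 ≤ (1 + ε) ^ (d - 1) := one_le_pow₀ (by linarith)
  have hd0 : (0 : ℝ) < d := by
    have : 0 < d := by omega
    exact_mod_cast this
  have hd1 : ((d - 1 : ℕ) : ℝ) ≤ d := by exact_mod_cast Nat.sub_le d 1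
  have hpow : (1 + ε) ^ (d - 1) - 1 ≤ 2 * d * δ := by
    have e1 : (1 + ε) ^ (d - 1) ≤ Real.exp (d * δ) := by
      have e2 : 1 + ε ≤ Real.exp ε := by
        have := Real.add_one_le_exp ε
        linarith
      calc (1 + ε) ^ (d - 1) ≤ Real.exp ε ^ (d - 1) := pow_le_pow_left₀ (by linarith) e2 _
        _ = Real.exp ((d - 1 : ℕ) * ε) := by rw [← Real.exp_nat_mul]
        _ ≤ Real.exp (d * δ) := by
          apply Real.exp_le_exp.2
          exact mul_le_mul hd1 hεδ he hd0.le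
    have hδ0 : 0 ≤ d * δ := mul_nonneg hd0.le (he.trans hεδ)
    have e3 := Real.abs_exp_sub_one_le (x := d * δ) (by rw [abs_of_nonneg hδ0]; exact hKA)
    rw [abs_of_nonneg hδ0] at e3
    have e4 := le_abs_self (Real.exp (d * δ) - 1)
    linarith
  have h3 := gk_sub_le (k := lt + 1) (Nat.succ_pos _) hz (z' := z * (1 + ε) ^ (d - 1)) (le_mul_of_one_le_right hz.le hp)
  have h4 : (z * (1 + ε) ^ (d - 1) - z) / z = (1 + ε) ^ (d - 1) - 1 := by
    field_simp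
  rw [h4] at h3
  have h5 := gk_half_le (lt := lt) (z := z) (by linarith)
  have h6 : 0 ≤ gk (lt + 1) (z / 2) := gk_nonneg (k := lt + 1) (by linarith)
  have h7 : 8 / z ^ 2 ≤ 8 * (a.A / m) ^ 2 := by
    have e1 : (a.A / m) = ((m : ℝ) / a.A)⁻¹ := by rw [inv_div]
    rw [e1, inv_pow, ← div_eq_mul_inv]
    exact div_le_div_of_nonneg_left (by norm_num) (by positivity)
      (pow_le_pow_left₀ (by linarith) hz1 2)
  have h8 : 0 ≤ 2 * d * δ := by
    have : 0 ≤ d * δ := mul_nonneg hd0.le (he.trans hεδ)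
    linarith
  calc gk (lt + 1) z - gk (lt + 1) (z * (1 + ε) ^ (d - 1))
      ≤ 2 * ((1 + ε) ^ (d - 1) - 1) * gk (lt + 1) (z / 2) := h3
    _ ≤ 2 * (2 * d * δ) * (8 * (a.A / m) ^ 2) := by
        refine mul_le_mul (by linarith) (h5.trans h7) h6 (by linarith)
    _ = 32 * d * δ * (a.A / m) ^ 2 := by ring

/-- [BTR-V20a] the reduction. PROOF. `m ≤ A`: `≤ c₁`. `m > A`: `1/(1 + min z Z)² ≤ 1/(1+z)² + 1/(1+Z)²` and `q φ(m)^{d-1} ≥ (m/A)^{d-1} ≥ m/A`. -/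
theorem red_le (m : ℕ) : a.c1 / (1 + min (a.q * a.f m ^ (d - 1)) a.Z) ^ 2 ≤
    (if (m : ℝ) ≤ a.A then a.c1 else a.c1 * (a.A / m) ^ 2) + a.c1 / (1 + a.Z) ^ 2 := by
  have hA : 0 < a.A := by linarith [a.hA]
  have hc1 := a.hc1
  have hZ := a.hZ
  have hd := a.hd
  have hfm : (m : ℝ) ≤ a.f m := f_ge_self a m
  have hf0 : 0 < a.f m := (gp a).pos m
  have hy0 : 0 ≤ a.q * a.f m ^ (d - 1) := mul_nonneg a.hq.le (pow_nonneg hf0.le _)
  have hlast : 0 ≤ a.c1 / (1 + a.Z) ^ 2 := by positivity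
  by_cases hm : (m : ℝ) ≤ a.A
  · rw [if_pos hm]
    have h1 : 0 ≤ min (a.q * a.f m ^ (d - 1)) a.Z := le_min hy0 (by linarith)
    have h2 : a.c1 / (1 + min (a.q * a.f m ^ (d - 1)) a.Z) ^ 2 ≤ a.c1 := by
      apply div_le_self hc1.le
      nlinarith
    linarith
  · rw [if_neg hm]
    rw [not_le] at hm
    have hm0 : (0 : ℝ) < m := by linarith
    rcases min_choice (a.q * a.f m ^ (d - 1)) a.Z with h | h
    · rw [h]
      have hq1 : 1 ≤ (m : ℝ) / a.A := by rw [le_div_iff₀ hA]; linarith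
      have h1 : (m : ℝ) / a.A ≤ a.q * a.f m ^ (d - 1) := by
        rw [v20a_q]
        calc (m : ℝ) / a.A ≤ ((m : ℝ) / a.A) ^ (d - 1) := le_self_pow₀ hq1 (by omega)
          _ ≤ (a.f m / a.A) ^ (d - 1) :=
            pow_le_pow_left₀ (by positivity) (div_le_div_of_nonneg_right hfm hA.le) _
      have h2 : a.c1 / (1 + a.q * a.f m ^ (d - 1)) ^ 2 ≤ a.c1 * (a.A / m) ^ 2 := by
        have e1 : (a.A / m) = ((m : ℝ) / a.A)⁻¹ := by rw [inv_div]
        rw [e1, inv_pow, ← div_eq_mul_inv]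
        exact div_le_div_of_nonneg_left hc1.le (by positivity)
          (pow_le_pow_left₀ (by linarith) (by linarith) 2)
      linarith
    · rw [h]
      have : 0 ≤ a.c1 * (a.A / m) ^ 2 := by positivity
      linarith

end BTR
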